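import Pool.Agent.Lib.MP_c95b3b_ag_AL.Defs

/-! Project AL (MP_c95b3b_ag), module BA: norms of power series. -/

namespace Pool.Agent.AL

open Pool.Agent.L3 Pool.Agent.KP Module MvPolynomial

section
variable {A : Type} [CommRing A] {κ : ℕ} (ν : Nm A κ)

theorem Nm.sum_le (hκ : κ ≤ 1) {ι : Type} (s : Finset ι) (f : ι → A) (b : ENNReal)
    (h : ∀ i ∈ s, ν.N (f i) ≤ b) : ν.N (∑ i ∈ s, f i) ≤ (s.card : ENNReal) ^ κ * b := by
  classical
  induction s using Finset.induction_on with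
  | empty => simp [ν.zero]
  | insert a s ha ih =>
    have ih' := ih (fun i hi => h i (Finset.mem_insert_of_mem hi))
    have h1 := h a (Finset.mem_insert_self a s)
    rw [Finset.sum_insert ha, Finset.card_insert_of_notMem ha]
    rcases Nat.le_one_iff_eq_zero_or_eq_one.mp hκ with h0 | h0
    · subst h0
      rw [pow_zero, one_mul]
      rw [pow_zero, one_mul] at ih'
      exact le_trans (ν.ultra rfl _ _) (max_le h1 ih')
    · subst h0
      rw [pow_one]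
      rw [pow_one] at ih'
      refine le_trans (ν.add _ _) ?_
      calc ν.N (f a) + ν.N (∑ i ∈ s, f i) ≤ b + (s.card : ENNReal) * b := add_le_add h1 ih'
        _ = ((s.card + 1 : ℕ) : ENNReal) * b := by push_cast; ring

theorem Nm.prod_le {ι : Type} (s : Finset ι) (f : ι → A) :
    ν.N (∏ i ∈ s, f i) ≤ ∏ i ∈ s, ν.N (f i) := by
  classical
  induction s using Finset.induction_on with
  | empty => simpa using ν.one
  | insert a s ha ih =>
    rw [Finset.prod_insert ha, Finset.prod_insert ha]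
    exact le_trans (ν.mul _ _) (mul_le_mul' le_rfl ih)

theorem Nm.pow_le (a : A) (n : ℕ) : ν.N (a ^ n) ≤ ν.N a ^ n := by
  induction n with
  | zero => simpa using ν.one
  | succ n ih =>
    rw [pow_succ, pow_succ]
    exact le_trans (ν.mul _ _) (mul_le_mul' ih le_rfl)

/-- natural numbers -/
theorem BA.nat_le (hκ : κ ≤ 1) (n : ℕ) : ν.N (n : A) ≤ (n : ENNReal) ^ κ := by
  have h := ν.sum_le hκ (Finset.range n) (fun _ => (1 : A)) 1 (fun _ _ => ν.one)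
  simpa using h

theorem Nm.int_le (hκ : κ ≤ 1) (n : ℤ) : ν.N (n : A) ≤ (n.natAbs : ENNReal) ^ κ := by
  rcases Int.natAbs_eq n with h | h
  · have h2 : ((n : ℤ) : A) = ((n.natAbs : ℕ) : A) := by
      rw [h]; simp
    rw [h2]
    exact BA.nat_le ν hκ _
  · have h2 : ((n : ℤ) : A) = -((n.natAbs : ℕ) : A) := by
      rw [h]; simp
    rw [h2, ν.neg]
    exact BA.nat_le ν hκ _

/-- the maximum in the non-archimedean case -/
theorem BA.ultra_sum (h0 : κ = 0) {ι : Type} (s : Finset ι) (f : ι → A) (hs : s.Nonempty) :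
    ∃ i ∈ s, ν.N (∑ i ∈ s, f i) ≤ ν.N (f i) := by
  classical
  induction hs using Finset.Nonempty.cons_induction with
  | singleton a => exact ⟨a, by simp, by simp⟩
  | cons a s ha hs ih =>
    obtain ⟨i, hi, hle⟩ := ih
    rw [Finset.sum_cons]
    have h1 := ν.ultra h0 (f a) (∑ i ∈ s, f i)
    rcases le_total (ν.N (f a)) (ν.N (∑ i ∈ s, f i)) with h | h
    · rw [max_eq_right h] at h1
      exact ⟨i, by simp [hi], le_trans h1 hle⟩
    · rw [max_eq_left h] at h1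
      exact ⟨a, by simp, h1⟩

/-- subadditivity -/
theorem BA.sum_le' {ι : Type} (s : Finset ι) (f : ι → A) :
    ν.N (∑ i ∈ s, f i) ≤ ∑ i ∈ s, ν.N (f i) := by
  classical
  induction s using Finset.induction_on with
  | empty => simp [ν.zero]
  | insert a s ha ih =>
    rw [Finset.sum_insert ha, Finset.sum_insert ha]
    exact le_trans (ν.add _ _) (add_le_add le_rfl ih)

variable {σ : Type} [Fintype σ] (ρ : σ → ENNReal)

/-- the terms of `psN` -/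
noncomputable def BA.tm (f : MvPowerSeries σ A) (γ : σ →₀ ℕ) : ENNReal :=
  ν.N (MvPowerSeries.coeff γ f) * ∏ i, ρ i ^ γ i

theorem BA.psN_zero (h0 : κ = 0) (f : MvPowerSeries σ A) :
    psN ν ρ f = ⨆ γ, BA.tm ν ρ f γ := by
  rw [psN, if_pos h0]
  rfl

theorem BA.psN_one (h0 : κ ≠ 0) (f : MvPowerSeries σ A) :
    psN ν ρ f = ∑' γ, BA.tm ν ρ f γ := by
  rw [psN, if_neg h0]
  rfl

theorem BA.prod_add (α β : σ →₀ ℕ) :
    ∏ i, ρ i ^ (α + β) i = (∏ i, ρ i ^ α i) * ∏ i, ρ i ^ β i := by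
  rw [← Finset.prod_mul_distrib]
  refine Finset.prod_congr rfl fun i _ => ?_
  rw [Finsupp.add_apply, pow_add]

theorem BA.tm_mul_term (f g : MvPowerSeries σ A) (α β : σ →₀ ℕ) :
    ν.N (MvPowerSeries.coeff α f * MvPowerSeries.coeff β g) * ∏ i, ρ i ^ (α + β) i
      ≤ BA.tm ν ρ f α * BA.tm ν ρ g β := by
  rw [BA.prod_add, BA.tm, BA.tm]
  refine le_trans (mul_le_mul' (ν.mul _ _) le_rfl) (le_of_eq ?_)
  ring

theorem BA.psN_le_single (f : MvPowerSeries σ A) (γ₀ : σ →₀ ℕ)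
    (h : ∀ γ, γ ≠ γ₀ → MvPowerSeries.coeff γ f = 0) : psN ν ρ f = BA.tm ν ρ f γ₀ := by
  have hz : ∀ γ, γ ≠ γ₀ → BA.tm ν ρ f γ = 0 := by
    intro γ hγ
    rw [BA.tm, h γ hγ, ν.zero, zero_mul]
  by_cases h0 : κ = 0
  · rw [BA.psN_zero ν ρ h0]
    refine le_antisymm (iSup_le fun γ => ?_) (le_iSup (BA.tm ν ρ f) γ₀)
    by_cases hγ : γ = γ₀
    · rw [hγ]
    · rw [hz γ hγ]
      exact zero_le
  · rw [BA.psN_one ν ρ h0]
    exact tsum_eq_single γ₀ hz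

theorem BA.le_of_tm (f g : MvPowerSeries σ A) (ρ' : σ → ENNReal)
    (h : ∀ γ, BA.tm ν ρ f γ ≤ BA.tm ν ρ' g γ) : psN ν ρ f ≤ psN ν ρ' g := by
  by_cases h0 : κ = 0
  · rw [BA.psN_zero ν ρ h0, BA.psN_zero ν ρ' h0]
    exact iSup_mono h
  · rw [BA.psN_one ν ρ h0, BA.psN_one ν ρ' h0]
    exact ENNReal.tsum_le_tsum h

theorem BA.ps_zero : psN ν ρ (0 : MvPowerSeries σ A) = 0 := by
  rw [BA.psN_le_single ν ρ 0 0 (fun γ _ => by simp), BA.tm]
  simp [ν.zero]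

theorem BA.ps_one : psN ν ρ (1 : MvPowerSeries σ A) ≤ 1 := by
  classical
  rw [BA.psN_le_single ν ρ 1 0 (fun γ hγ => by rw [MvPowerSeries.coeff_one, if_neg hγ]), BA.tm]
  simpa using ν.one

theorem BA.ps_neg (f : MvPowerSeries σ A) : psN ν ρ (-f) = psN ν ρ f := by
  have h : ∀ γ, BA.tm ν ρ (-f) γ = BA.tm ν ρ f γ := by
    intro γ
    rw [BA.tm, BA.tm, map_neg, ν.neg]
  exact le_antisymm (BA.le_of_tm ν ρ _ _ ρ fun γ => (h γ).le)
    (BA.le_of_tm ν ρ _ _ ρ fun γ => (h γ).ge)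

theorem BA.ps_ultra (h0 : κ = 0) (f g : MvPowerSeries σ A) :
    psN ν ρ (f + g) ≤ max (psN ν ρ f) (psN ν ρ g) := by
  rw [BA.psN_zero ν ρ h0, BA.psN_zero ν ρ h0, BA.psN_zero ν ρ h0]
  refine iSup_le fun γ => ?_
  have h1 := ν.ultra h0 (MvPowerSeries.coeff γ f) (MvPowerSeries.coeff γ g)
  rw [BA.tm, map_add]
  rcases le_total (ν.N (MvPowerSeries.coeff γ f)) (ν.N (MvPowerSeries.coeff γ g)) with h | h
  · rw [max_eq_right h] at h1
    exact le_max_of_le_right (le_trans (mul_le_mul' h1 le_rfl) (le_iSup (BA.tm ν ρ g) γ))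
  · rw [max_eq_left h] at h1
    exact le_max_of_le_left (le_trans (mul_le_mul' h1 le_rfl) (le_iSup (BA.tm ν ρ f) γ))

theorem BA.ps_add (f g : MvPowerSeries σ A) : psN ν ρ (f + g) ≤ psN ν ρ f + psN ν ρ g := by
  by_cases h0 : κ = 0
  · exact le_trans (BA.ps_ultra ν ρ h0 f g)
      (max_le (le_add_of_nonneg_right (zero_le)) (le_add_of_nonneg_left (zero_le)))
  · rw [BA.psN_one ν ρ h0, BA.psN_one ν ρ h0, BA.psN_one ν ρ h0, ← ENNReal.tsum_add]
    refine ENNReal.tsum_le_tsum fun γ => ?_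
    rw [BA.tm, BA.tm, BA.tm, map_add, ← add_mul]
    exact mul_le_mul' (ν.add _ _) le_rfl

theorem BA.ps_mul (f g : MvPowerSeries σ A) : psN ν ρ (f * g) ≤ psN ν ρ f * psN ν ρ g := by
  classical
  by_cases h0 : κ = 0
  · rw [BA.psN_zero ν ρ h0, BA.psN_zero ν ρ h0, BA.psN_zero ν ρ h0]
    refine iSup_le fun γ => ?_
    rw [BA.tm, MvPowerSeries.coeff_mul]
    obtain ⟨p, hp, hle⟩ := BA.ultra_sum ν h0 (Finset.HasAntidiagonal.antidiagonal γ)
      (fun p => MvPowerSeries.coeff p.1 f * MvPowerSeries.coeff p.2 g)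
      ⟨(0, γ), by simp⟩
    have hsum : p.1 + p.2 = γ := Finset.HasAntidiagonal.mem_antidiagonal.mp hp
    calc ν.N (∑ p ∈ Finset.HasAntidiagonal.antidiagonal γ,
          MvPowerSeries.coeff p.1 f * MvPowerSeries.coeff p.2 g) * ∏ i, ρ i ^ γ i
        ≤ ν.N (MvPowerSeries.coeff p.1 f * MvPowerSeries.coeff p.2 g) * ∏ i, ρ i ^ γ i :=
          mul_le_mul' hle le_rfl
      _ = ν.N (MvPowerSeries.coeff p.1 f * MvPowerSeries.coeff p.2 g) *
            ∏ i, ρ i ^ (p.1 + p.2) i := by rw [hsum]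
      _ ≤ BA.tm ν ρ f p.1 * BA.tm ν ρ g p.2 := BA.tm_mul_term ν ρ f g p.1 p.2
      _ ≤ _ := mul_le_mul' (le_iSup (BA.tm ν ρ f) p.1) (le_iSup (BA.tm ν ρ g) p.2)
  · rw [BA.psN_one ν ρ h0, BA.psN_one ν ρ h0, BA.psN_one ν ρ h0]
    have h1 : ∀ γ : σ →₀ ℕ, BA.tm ν ρ (f * g) γ ≤
        ∑' p : Finset.HasAntidiagonal.antidiagonal γ, BA.tm ν ρ f (p : (σ →₀ ℕ) × (σ →₀ ℕ)).1 *
          BA.tm ν ρ g (p : (σ →₀ ℕ) × (σ →₀ ℕ)).2 := by
      intro γ
      rw [tsum_fintype, Finset.univ_eq_attach, Finset.sum_attach (Finset.HasAntidiagonal.antidiagonal γ)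
        (fun p => BA.tm ν ρ f p.1 * BA.tm ν ρ g p.2), BA.tm, MvPowerSeries.coeff_mul]
      refine le_trans (mul_le_mul' (BA.sum_le' ν _ _) le_rfl) ?_
      rw [Finset.sum_mul]
      refine Finset.sum_le_sum fun p hp => ?_
      have hsum : p.1 + p.2 = γ := Finset.HasAntidiagonal.mem_antidiagonal.mp hp
      rw [← hsum]
      exact BA.tm_mul_term ν ρ f g p.1 p.2
    refine le_trans (ENNReal.tsum_le_tsum h1) (le_of_eq ?_)
    rw [← ENNReal.tsum_sigma (fun (γ : σ →₀ ℕ) (p : Finset.HasAntidiagonal.antidiagonal γ) =>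
      BA.tm ν ρ f (p : (σ →₀ ℕ) × (σ →₀ ℕ)).1 * BA.tm ν ρ g (p : (σ →₀ ℕ) × (σ →₀ ℕ)).2)]
    rw [← ENNReal.tsum_mul_right]
    have h2 : ∀ α : σ →₀ ℕ, BA.tm ν ρ f α * ∑' β, BA.tm ν ρ g β =
        ∑' β, BA.tm ν ρ f α * BA.tm ν ρ g β := fun α => ENNReal.tsum_mul_left.symm
    rw [tsum_congr h2, ← ENNReal.tsum_prod (f := fun α β => BA.tm ν ρ f α * BA.tm ν ρ g β)]
    exact (Finset.HasAntidiagonal.sigmaAntidiagonalEquivProd (A := σ →₀ ℕ)).tsum_eq
      (fun p => BA.tm ν ρ f p.1 * BA.tm ν ρ g p.2)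

/-- `psN` is a norm -/
theorem exists_ps : ∃ μ : Nm (MvPowerSeries σ A) κ, μ.N = psN ν ρ :=
  ⟨{ N := psN ν ρ
     zero := BA.ps_zero ν ρ
     one := BA.ps_one ν ρ
     neg := BA.ps_neg ν ρ
     add := BA.ps_add ν ρ
     mul := BA.ps_mul ν ρ
     ultra := fun h0 => BA.ps_ultra ν ρ h0 }, rfl⟩

theorem psN_C (a : A) : psN ν ρ (MvPowerSeries.C a) = ν.N a := by
  classical
  rw [BA.psN_le_single ν ρ _ 0 (fun γ hγ => by rw [MvPowerSeries.coeff_C, if_neg hγ]), BA.tm]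
  simp

theorem psN_X (i : σ) : psN ν ρ (MvPowerSeries.X i) ≤ ρ i := by
  classical
  rw [BA.psN_le_single ν ρ _ (Finsupp.single i 1)
    (fun γ hγ => by rw [MvPowerSeries.coeff_X, if_neg hγ]), BA.tm]
  rw [MvPowerSeries.coeff_X, if_pos rfl]
  have h : ∏ j, ρ j ^ (Finsupp.single i 1 : σ →₀ ℕ) j = ρ i := by
    rw [Finset.prod_eq_single i]
    · simp
    · intro j _ hj
      rw [Finsupp.single_apply, if_neg (Ne.symm hj), pow_zero]
    · intro h
      exact absurd (Finset.mem_univ i) h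
  rw [h]
  calc ν.N (1 : A) * ρ i ≤ 1 * ρ i := mul_le_mul' ν.one le_rfl
    _ = ρ i := one_mul _

theorem coeff_le_psN (f : MvPowerSeries σ A) (γ : σ →₀ ℕ) :
    ν.N (MvPowerSeries.coeff γ f) * ∏ i, ρ i ^ γ i ≤ psN ν ρ f := by
  by_cases h0 : κ = 0
  · rw [BA.psN_zero ν ρ h0]
    exact le_iSup (BA.tm ν ρ f) γ
  · rw [BA.psN_one ν ρ h0]
    exact ENNReal.le_tsum γ

/-- the norm of a coefficientwise limit -/
theorem psN_le_of_limit (f : MvPowerSeries σ A) (F : ℕ → MvPowerSeries σ A) (b : ENNReal)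
    (hF : ∀ n, psN ν ρ (F n) ≤ b)
    (hlim : ∀ γ, ∀ᶠ n in Filter.atTop, MvPowerSeries.coeff γ (F n) = MvPowerSeries.coeff γ f) :
    psN ν ρ f ≤ b := by
  by_cases h0 : κ = 0
  · rw [BA.psN_zero ν ρ h0]
    refine iSup_le fun γ => ?_
    obtain ⟨n, hn⟩ := (hlim γ).exists
    rw [BA.tm, ← hn]
    exact le_trans (coeff_le_psN ν ρ (F n) γ) (hF n)
  · rw [BA.psN_one ν ρ h0, ENNReal.tsum_eq_iSup_sum]
    refine iSup_le fun s => ?_
    have hs : ∀ᶠ n in Filter.atTop, ∀ γ ∈ s,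
        MvPowerSeries.coeff γ (F n) = MvPowerSeries.coeff γ f :=
      (Filter.eventually_all_finset s).mpr fun γ _ => hlim γ
    obtain ⟨n, hn⟩ := hs.exists
    calc ∑ γ ∈ s, BA.tm ν ρ f γ = ∑ γ ∈ s, BA.tm ν ρ (F n) γ :=
          Finset.sum_congr rfl fun γ hγ => by rw [BA.tm, BA.tm, hn γ hγ]
      _ ≤ ∑' γ, BA.tm ν ρ (F n) γ := ENNReal.sum_le_tsum s
      _ = psN ν ρ (F n) := (BA.psN_one ν ρ h0 _).symm
      _ ≤ b := hF n

/-- only the radii of the variables which occur are used -/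
theorem psN_congr (f : MvPowerSeries σ A) (ρ' : σ → ENNReal)
    (h : ∀ γ, MvPowerSeries.coeff γ f ≠ 0 → ∀ i, γ i ≠ 0 → ρ i ≤ ρ' i) :
    psN ν ρ f ≤ psN ν ρ' f := by
  refine BA.le_of_tm ν ρ f f ρ' fun γ => ?_
  by_cases hc : MvPowerSeries.coeff γ f = 0
  · rw [BA.tm, hc, ν.zero, zero_mul]
    exact zero_le
  · rw [BA.tm, BA.tm]
    refine mul_le_mul' le_rfl (Finset.prod_le_prod' fun i _ => ?_)
    by_cases hi : γ i = 0
    · rw [hi, pow_zero, pow_zero]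
    · exact pow_le_pow_left' (h γ hc i hi) _

end

end Pool.Agent.AL
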