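import Pool.Agent.Lib.MP_c95b3b_ag_AL.BA

/-! Project AL (MP_c95b3b_ag), module BB: the implicit function. -/

namespace Pool.Agent.AL

open Pool.Agent.L3 Pool.Agent.KP Module MvPolynomial

namespace BB

section
variable {ι : Type} {K : Type} [Field K]

/-- evaluation through the Taylor expansion -/
theorem aeval_shf {B : Type} [CommRing B] [Algebra K B] (P : ι → K) (g : MvPolynomial ι ℤ)
    (Z : ι → B) :
    aeval (fun i => algebraMap K B (P i) + Z i) g = aeval Z (shf P g) := by
  unfold shf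
  induction g using MvPolynomial.induction_on with
  | C a => simp
  | add p q hp hq => simp only [map_add, hp, hq]
  | mul_X p i hp => simp only [map_mul, hp, aeval_X, map_add, algHom_C]

theorem aeval_inst {B : Type} [CommRing B] (i1 i2 : Algebra ℤ B) (Z : ι → B)
    (g : MvPolynomial ι ℤ) :
    @aeval ℤ B ι _ _ i1 Z g = @aeval ℤ B ι _ _ i2 Z g := by
  have h : i1 = i2 := Subsingleton.elim _ _
  rw [h]

theorem constantCoeff_shf (P : ι → K) (g : MvPolynomial ι ℤ) :
    constantCoeff (shf P g) = aeval P g := by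
  unfold shf
  induction g using MvPolynomial.induction_on with
  | C a => simp
  | add p q hp hq => simp only [map_add, hp, hq]
  | mul_X p i hp => simp only [map_mul, hp, aeval_X, map_add, constantCoeff_C, constantCoeff_X, add_zero]

theorem pderiv_shf (P : ι → K) (l : ι) (g : MvPolynomial ι ℤ) :
    pderiv l (shf P g) = shf P (pderiv l g) := by
  classical
  unfold shf
  induction g using MvPolynomial.induction_on with
  | C a => simp
  | add p q hp hq => simp only [map_add, hp, hq]
  | mul_X p i hp =>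
    simp only [map_mul, Derivation.leibniz, hp, aeval_X, map_add, smul_eq_mul, pderiv_C, zero_add]
    rcases eq_or_ne i l with rfl | h
    · simp
    · simp [pderiv_X_of_ne h]

theorem coeff_single_one (l : ι) (F : MvPolynomial ι K) :
    coeff (Finsupp.single l 1) F = constantCoeff (pderiv l F) := by
  classical
  induction F using MvPolynomial.induction_on' with
  | monomial s a =>
    rw [pderiv_monomial, constantCoeff_monomial, coeff_monomial]
    by_cases h : s = Finsupp.single l 1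
    · subst h
      simp
    · rw [if_neg h]
      split_ifs with h2
      · have h3 : s l = 0 := by
          by_contra h4
          apply h
          have h5 : s ≤ Finsupp.single l 1 := tsub_eq_zero_iff_le.mp h2
          ext i
          rcases eq_or_ne i l with rfl | hi
          · have h6 := h5 i
            rw [Finsupp.single_eq_same] at h6 ⊢
            omega
          · have h6 := h5 i
            rw [Finsupp.single_eq_of_ne hi] at h6 ⊢
            omega
        rw [h3]
        simp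
      · rfl
  | add p q hp hq => rw [coeff_add, map_add, map_add, hp, hq]

/-- power series without the variables in `J` -/
def noVars (J : Set ι) : Subring (MvPowerSeries ι K) where
  carrier := {f | ∀ γ, (∃ j ∈ J, γ j ≠ 0) → MvPowerSeries.coeff γ f = 0}
  zero_mem' := fun γ _ => by simp
  one_mem' := fun γ hγ => by
    classical
    obtain ⟨j, _, hj⟩ := hγ
    rw [MvPowerSeries.coeff_one, if_neg]
    rintro rfl
    exact hj rfl
  add_mem' := fun {a b} ha hb γ hγ => by rw [map_add, ha γ hγ, hb γ hγ, add_zero]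
  neg_mem' := fun {a} ha γ hγ => by rw [map_neg, ha γ hγ, neg_zero]
  mul_mem' := fun {a b} ha hb γ hγ => by
    classical
    obtain ⟨j, hj, hγj⟩ := hγ
    rw [MvPowerSeries.coeff_mul]
    refine Finset.sum_eq_zero fun p hp => ?_
    have hp := Finset.HasAntidiagonal.mem_antidiagonal.mp hp
    by_cases h : p.1 j = 0
    · have h2 : p.2 j ≠ 0 := by
        intro h3
        apply hγj
        rw [← hp, Finsupp.add_apply, h, h3]
      rw [hb p.2 ⟨j, hj, h2⟩, mul_zero]
    · rw [ha p.1 ⟨j, hj, h⟩, zero_mul]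

theorem C_mem_noVars (J : Set ι) (a : K) : (MvPowerSeries.C a : MvPowerSeries ι K) ∈ noVars J := by
  classical
  intro γ hγ
  obtain ⟨j, _, hj⟩ := hγ
  rw [MvPowerSeries.coeff_C, if_neg]
  rintro rfl
  exact hj rfl

theorem X_mem_noVars (J : Set ι) (i : ι) (hi : i ∉ J) :
    (MvPowerSeries.X i : MvPowerSeries ι K) ∈ noVars J := by
  classical
  intro γ hγ
  obtain ⟨j, hjJ, hj⟩ := hγ
  rw [MvPowerSeries.coeff_X, if_neg]
  rintro rfl
  apply hj
  rw [Finsupp.single_eq_of_ne]
  rintro rfl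
  exact hi hjJ

/-- power series with coefficients in `S` -/
def coeffsIn (S : Subring K) : Subring (MvPowerSeries ι K) where
  carrier := {f | ∀ γ, MvPowerSeries.coeff γ f ∈ S}
  zero_mem' := fun γ => by
    rw [map_zero]
    exact S.zero_mem
  one_mem' := fun γ => by
    classical
    rw [MvPowerSeries.coeff_one]
    split_ifs
    · exact S.one_mem
    · exact S.zero_mem
  add_mem' := fun {a b} ha hb γ => by
    rw [map_add]
    exact S.add_mem (ha γ) (hb γ)
  neg_mem' := fun {a} ha γ => by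
    rw [map_neg]
    exact S.neg_mem (ha γ)
  mul_mem' := fun {a b} ha hb γ => by
    classical
    rw [MvPowerSeries.coeff_mul]
    exact S.sum_mem fun p _ => S.mul_mem (ha p.1) (hb p.2)

theorem C_mem_coeffsIn (S : Subring K) (a : K) (ha : a ∈ S) :
    (MvPowerSeries.C a : MvPowerSeries ι K) ∈ coeffsIn S := by
  classical
  intro γ
  rw [MvPowerSeries.coeff_C]
  split_ifs
  · exact ha
  · exact S.zero_mem

theorem X_mem_coeffsIn (S : Subring K) (i : ι) :
    (MvPowerSeries.X i : MvPowerSeries ι K) ∈ coeffsIn S := by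
  classical
  intro γ
  rw [MvPowerSeries.coeff_X]
  split_ifs
  · exact S.one_mem
  · exact S.zero_mem

theorem aeval_mem {B : Type} [CommRing B] (T : Subring B) (g : MvPolynomial ι ℤ) (Z : ι → B)
    (h : ∀ i ∈ g.vars, Z i ∈ T) : aeval Z g ∈ T := by
  classical
  rw [aeval_def, eval₂_eq]
  refine T.sum_mem fun d hd => T.mul_mem ?_ (T.prod_mem fun i hi => T.pow_mem (h i ?_) _)
  · rw [eq_intCast]
    exact intCast_mem T _
  · rw [mem_vars_iff_mem_support]
    exact ⟨d, hd, hi⟩

theorem shf_mem (T : Subring (MvPowerSeries ι K)) (P : ι → K) (g : MvPolynomial ι ℤ)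
    (hC : ∀ i, (MvPowerSeries.C (P i) : MvPowerSeries ι K) ∈ T)
    (hX : ∀ i ∈ g.vars, (MvPowerSeries.X i : MvPowerSeries ι K) ∈ T) :
    ((shf P g : MvPolynomial ι K) : MvPowerSeries ι K) ∈ T := by
  have h := aeval_mem (T.comap (coeToMvPowerSeries.ringHom (σ := ι) (R := K))) g
    (fun i => (C (P i) + X i : MvPolynomial ι K)) (fun i hi => by
      rw [Subring.mem_comap, map_add, coeToMvPowerSeries.ringHom_apply,
        coeToMvPowerSeries.ringHom_apply, coe_C, coe_X]
      exact T.add_mem (hC i) (hX i hi))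
  exact h

theorem vars_shf (P : ι → K) (g : MvPolynomial ι ℤ) (μ : ι →₀ ℕ) (hμ : coeff μ (shf P g) ≠ 0)
    (i : ι) (hi : μ i ≠ 0) : i ∈ g.vars := by
  by_contra h
  apply hμ
  have h2 := shf_mem (noVars {j | j ∉ g.vars}) P g (fun i => C_mem_noVars _ _)
    (fun i hi => X_mem_noVars _ _ (fun hn => hn hi)) μ ⟨i, h, hi⟩
  rwa [coeff_coe] at h2

theorem coeff_shf_mem (S : Subring K) (P : ι → K) (hP : ∀ i, P i ∈ S) (g : MvPolynomial ι ℤ)
    (μ : ι →₀ ℕ) : coeff μ (shf P g) ∈ S := by
  have h2 := shf_mem (coeffsIn S) P g (fun i => C_mem_coeffsIn _ _ (hP i))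
    (fun i _ => X_mem_coeffsIn _ _) μ
  rwa [coeff_coe] at h2

end

section
variable {ι : Type} [Fintype ι] [DecidableEq ι] {K : Type} [Field K]

/-- the monomial with the variable `l` replaced by `ξ` -/
noncomputable def mon (l : ι) (ξ : MvPowerSeries ι K) (μ : ι →₀ ℕ) : MvPowerSeries ι K :=
  ∏ i, (if i = l then ξ else MvPowerSeries.X i) ^ μ i

/-- the map of the Picard iteration -/
noncomputable def Phi (l : ι) (G : MvPolynomial ι K) (c : K) (ξ : MvPowerSeries ι K) :
    MvPowerSeries ι K :=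
  MvPowerSeries.C c * ∑ μ ∈ G.support.erase (Finsupp.single l 1),
    MvPowerSeries.C (coeff μ G) * mon l ξ μ

theorem mon_single (l : ι) (ξ : MvPowerSeries ι K) : mon l ξ (Finsupp.single l 1) = ξ := by
  unfold mon
  rw [Finset.prod_eq_single l]
  · rw [if_pos rfl, Finsupp.single_eq_same, pow_one]
  · intro i _ hi
    rw [Finsupp.single_eq_of_ne hi, pow_zero]
  · intro h
    exact absurd (Finset.mem_univ _) h

theorem aeval_eq (l : ι) (G : MvPolynomial ι K) (ξ : MvPowerSeries ι K) :
    aeval (fun i => if i = l then ξ else MvPowerSeries.X i) G =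
      MvPowerSeries.C (coeff (Finsupp.single l 1) G) * ξ +
        ∑ μ ∈ G.support.erase (Finsupp.single l 1), MvPowerSeries.C (coeff μ G) * mon l ξ μ := by
  have h1 : aeval (fun i => if i = l then ξ else MvPowerSeries.X i) G =
      ∑ μ ∈ G.support, MvPowerSeries.C (coeff μ G) * mon l ξ μ := by
    rw [aeval_def, eval₂_eq']
    rfl
  rw [h1]
  by_cases h : Finsupp.single l 1 ∈ G.support
  · rw [← Finset.add_sum_erase _ _ h, mon_single]
  · rw [notMem_support_iff.mp h, map_zero, zero_mul, zero_add, Finset.erase_eq_of_notMem h]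

theorem constantCoeff_mon (l : ι) (ξ : MvPowerSeries ι K) (hξ : MvPowerSeries.constantCoeff ξ = 0)
    (μ : ι →₀ ℕ) (hμ : μ ≠ 0) : MvPowerSeries.constantCoeff (mon l ξ μ) = 0 := by
  obtain ⟨i, hi⟩ := Finsupp.ne_iff.mp hμ
  unfold mon
  rw [map_prod]
  refine Finset.prod_eq_zero (Finset.mem_univ i) ?_
  rw [map_pow]
  have h : MvPowerSeries.constantCoeff (if i = l then ξ else MvPowerSeries.X i) = 0 := by
    split_ifs
    · exact hξ
    · exact MvPowerSeries.constantCoeff_X i
  rw [h, zero_pow]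
  exact hi

theorem mon_sub (l : ι) (ξ η : MvPowerSeries ι K) (hξ : MvPowerSeries.constantCoeff ξ = 0)
    (hη : MvPowerSeries.constantCoeff η = 0) (μ : ι →₀ ℕ) (hμ1 : μ ≠ Finsupp.single l 1) :
    ∃ h : MvPowerSeries ι K, MvPowerSeries.constantCoeff h = 0 ∧
      mon l ξ μ - mon l η μ = (ξ - η) * h := by
  have key : ∀ ζ : MvPowerSeries ι K, mon l ζ μ =
      ζ ^ μ l * ∏ i ∈ Finset.univ.erase l, (MvPowerSeries.X i : MvPowerSeries ι K) ^ μ i := by
    intro ζ
    unfold mon
    rw [← Finset.mul_prod_erase _ _ (Finset.mem_univ l), if_pos rfl]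
    congr 1
    refine Finset.prod_congr rfl fun i hi => ?_
    rw [if_neg (Finset.ne_of_mem_erase hi)]
  refine ⟨(∑ i ∈ Finset.range (μ l), ξ ^ i * η ^ (μ l - 1 - i)) *
    ∏ i ∈ Finset.univ.erase l, (MvPowerSeries.X i : MvPowerSeries ι K) ^ μ i, ?_, ?_⟩
  · rw [map_mul]
    by_cases h : ∃ i, i ≠ l ∧ μ i ≠ 0
    · obtain ⟨i, hil, hi⟩ := h
      have h2 : MvPowerSeries.constantCoeff (∏ i ∈ Finset.univ.erase l,
          (MvPowerSeries.X i : MvPowerSeries ι K) ^ μ i) = 0 := by
        rw [map_prod]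
        refine Finset.prod_eq_zero (Finset.mem_erase.mpr ⟨hil, Finset.mem_univ i⟩) ?_
        rw [map_pow, MvPowerSeries.constantCoeff_X, zero_pow hi]
      rw [h2, mul_zero]
    · push Not at h
      have h3 : μ l ≠ 1 := by
        intro h4
        apply hμ1
        ext i
        rcases eq_or_ne i l with rfl | hi
        · rw [Finsupp.single_eq_same, h4]
        · rw [Finsupp.single_eq_of_ne hi, h i hi]
      have h2 : MvPowerSeries.constantCoeff
          (∑ i ∈ Finset.range (μ l), ξ ^ i * η ^ (μ l - 1 - i)) = 0 := by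
        rw [map_sum]
        refine Finset.sum_eq_zero fun i hi => ?_
        rw [Finset.mem_range] at hi
        rw [map_mul, map_pow, map_pow, hξ, hη, ← pow_add, zero_pow]
        omega
      rw [h2, zero_mul]
  · rw [key ξ, key η, ← sub_mul, ← mul_assoc, mul_comm (ξ - η), Commute.geom_sum₂_mul (Commute.all ξ η)]

theorem constantCoeff_Phi (l : ι) (G : MvPolynomial ι K) (h0 : coeff 0 G = 0) (c : K)
    (ξ : MvPowerSeries ι K) (hξ : MvPowerSeries.constantCoeff ξ = 0) :
    MvPowerSeries.constantCoeff (Phi l G c ξ) = 0 := by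
  unfold Phi
  rw [map_mul, map_sum, Finset.sum_eq_zero, mul_zero]
  intro μ hμ
  rw [map_mul, constantCoeff_mon l ξ hξ μ, mul_zero]
  rintro rfl
  exact (mem_support_iff.mp (Finset.mem_of_mem_erase hμ)) h0

theorem Phi_sub (l : ι) (G : MvPolynomial ι K) (c : K)
    (ξ η : MvPowerSeries ι K) (hξ : MvPowerSeries.constantCoeff ξ = 0)
    (hη : MvPowerSeries.constantCoeff η = 0) :
    ∃ h : MvPowerSeries ι K, MvPowerSeries.constantCoeff h = 0 ∧
      Phi l G c ξ - Phi l G c η = (ξ - η) * h := by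
  have hc : ∀ μ : ι →₀ ℕ, ∃ h : MvPowerSeries ι K, MvPowerSeries.constantCoeff h = 0 ∧
      (μ ≠ Finsupp.single l 1 → mon l ξ μ - mon l η μ = (ξ - η) * h) := by
    intro μ
    by_cases h : μ = Finsupp.single l 1
    · exact ⟨0, map_zero _, fun h1 => absurd h h1⟩
    · obtain ⟨h2, h3, h4⟩ := mon_sub l ξ η hξ hη μ h
      exact ⟨h2, h3, fun _ => h4⟩
  choose f hf1 hf2 using hc
  refine ⟨MvPowerSeries.C c * ∑ μ ∈ G.support.erase (Finsupp.single l 1),
    MvPowerSeries.C (coeff μ G) * f μ, ?_, ?_⟩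
  · rw [map_mul, map_sum, Finset.sum_eq_zero, mul_zero]
    intro μ _
    rw [map_mul, hf1, mul_zero]
  · unfold Phi
    rw [← mul_sub, ← Finset.sum_sub_distrib, mul_left_comm]
    congr 1
    rw [Finset.mul_sum]
    refine Finset.sum_congr rfl fun μ hμ => ?_
    rw [← mul_sub, hf2 μ (Finset.ne_of_mem_erase hμ), mul_left_comm]

theorem order_Phi_sub (l : ι) (G : MvPolynomial ι K) (c : K)
    (ξ η : MvPowerSeries ι K) (hξ : MvPowerSeries.constantCoeff ξ = 0)
    (hη : MvPowerSeries.constantCoeff η = 0) (n : ℕ) (h : (n : ℕ∞) ≤ (ξ - η).order) :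
    ((n + 1 : ℕ) : ℕ∞) ≤ (Phi l G c ξ - Phi l G c η).order := by
  obtain ⟨f, hf1, hf2⟩ := Phi_sub l G c ξ η hξ hη
  rw [hf2]
  refine le_trans ?_ MvPowerSeries.le_order_mul
  rw [Nat.cast_add, Nat.cast_one]
  exact add_le_add h (MvPowerSeries.one_le_order_iff_constCoeff_eq_zero.mpr hf1)

/-- the Picard iteration -/
noncomputable def it (l : ι) (G : MvPolynomial ι K) (c : K) (n : ℕ) : MvPowerSeries ι K :=
  (Phi l G c)^[n] 0

theorem it_succ (l : ι) (G : MvPolynomial ι K) (c : K) (n : ℕ) :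
    it l G c (n + 1) = Phi l G c (it l G c n) := Function.iterate_succ_apply' _ _ _

theorem constantCoeff_it (l : ι) (G : MvPolynomial ι K) (h0 : coeff 0 G = 0) (c : K) (n : ℕ) :
    MvPowerSeries.constantCoeff (it l G c n) = 0 := by
  induction n with
  | zero => exact map_zero _
  | succ n ih =>
    rw [it_succ]
    exact constantCoeff_Phi l G h0 c _ ih

theorem order_it (l : ι) (G : MvPolynomial ι K) (h0 : coeff 0 G = 0) (c : K) (n : ℕ) :
    ((n + 1 : ℕ) : ℕ∞) ≤ (it l G c (n + 1) - it l G c n).order := by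
  induction n with
  | zero =>
    rw [zero_add, Nat.cast_one, MvPowerSeries.one_le_order_iff_constCoeff_eq_zero, map_sub,
      constantCoeff_it l G h0 c, constantCoeff_it l G h0 c, sub_zero]
  | succ n ih =>
    have h := order_Phi_sub l G c (it l G c (n + 1)) (it l G c n) (constantCoeff_it l G h0 c _)
      (constantCoeff_it l G h0 c _) (n + 1) ih
    rwa [← it_succ, ← it_succ] at h

theorem coeff_it (l : ι) (G : MvPolynomial ι K) (h0 : coeff 0 G = 0) (c : K) (γ : ι →₀ ℕ)
    (n : ℕ) (hn : γ.degree ≤ n) :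
    MvPowerSeries.coeff γ (it l G c n) = MvPowerSeries.coeff γ (it l G c γ.degree) := by
  induction n, hn using Nat.le_induction with
  | base => rfl
  | succ n hn ih =>
    rw [← ih, ← sub_eq_zero, ← map_sub]
    refine MvPowerSeries.coeff_of_lt_order (lt_of_lt_of_le ?_ (order_it l G h0 c n))
    exact_mod_cast Nat.lt_succ_of_le hn

/-- the limit of the Picard iteration -/
noncomputable def lim (l : ι) (G : MvPolynomial ι K) (c : K) : MvPowerSeries ι K :=
  fun γ => MvPowerSeries.coeff γ (it l G c γ.degree)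

theorem coeff_lim (l : ι) (G : MvPolynomial ι K) (h0 : coeff 0 G = 0) (c : K) (γ : ι →₀ ℕ)
    (n : ℕ) (hn : γ.degree ≤ n) :
    MvPowerSeries.coeff γ (it l G c n) = MvPowerSeries.coeff γ (lim l G c) :=
  coeff_it l G h0 c γ n hn

theorem constantCoeff_lim (l : ι) (G : MvPolynomial ι K) (h0 : coeff 0 G = 0) (c : K) :
    MvPowerSeries.constantCoeff (lim l G c) = 0 := by
  have h := coeff_lim l G h0 c 0 0 (by simp)
  rw [MvPowerSeries.coeff_zero_eq_constantCoeff_apply,
    MvPowerSeries.coeff_zero_eq_constantCoeff_apply, constantCoeff_it l G h0 c] at h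
  exact h.symm

theorem order_lim (l : ι) (G : MvPolynomial ι K) (h0 : coeff 0 G = 0) (c : K) (n : ℕ) :
    ((n + 1 : ℕ) : ℕ∞) ≤ (lim l G c - it l G c n).order := by
  refine MvPowerSeries.nat_le_order fun γ hγ => ?_
  rw [map_sub, coeff_lim l G h0 c γ n (by omega), sub_self]

theorem Phi_lim (l : ι) (G : MvPolynomial ι K) (h0 : coeff 0 G = 0) (c : K) :
    Phi l G c (lim l G c) = lim l G c := by
  ext γ
  have h1 := order_Phi_sub l G c (lim l G c) (it l G c γ.degree) (constantCoeff_lim l G h0 c)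
    (constantCoeff_it l G h0 c γ.degree) (γ.degree + 1) (order_lim l G h0 c γ.degree)
  have h2 := MvPowerSeries.coeff_of_lt_order (f := Phi l G c (lim l G c) -
    Phi l G c (it l G c γ.degree)) (d := γ) (lt_of_lt_of_le (by norm_cast; omega) h1)
  rw [map_sub, sub_eq_zero, ← it_succ, coeff_lim l G h0 c γ _ (by omega)] at h2
  exact h2

theorem it_mem (l : ι) (G : MvPolynomial ι K) (c : K) (T : Subring (MvPowerSeries ι K))
    (hc : MvPowerSeries.C c ∈ T)
    (hG : ∀ μ ∈ G.support, MvPowerSeries.C (coeff μ G) ∈ T)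
    (hX : ∀ μ ∈ G.support, ∀ i, i ≠ l → μ i ≠ 0 → MvPowerSeries.X i ∈ T) (n : ℕ) :
    it l G c n ∈ T := by
  induction n with
  | zero => exact T.zero_mem
  | succ n ih =>
    rw [it_succ]
    unfold Phi mon
    refine T.mul_mem hc (T.sum_mem fun μ hμ => T.mul_mem (hG μ (Finset.mem_of_mem_erase hμ))
      (T.prod_mem fun i _ => ?_))
    by_cases h : μ i = 0
    · rw [h, pow_zero]
      exact T.one_mem
    · refine T.pow_mem ?_ _
      split_ifs with h2
      · exact ih
      · exact hX μ (Finset.mem_of_mem_erase hμ) i h2 h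

end

section
variable {ι : Type} [Fintype ι] [DecidableEq ι] {K : Type} [Field K]

theorem N_mon {κ : ℕ} (l : ι) (r R : ENNReal) (hr : r ≤ 1) (hR : R ≤ 1)
    (m : Nm (MvPowerSeries ι K) κ) (hm : ∀ i, m.N (MvPowerSeries.X i) ≤ R) (ξ : MvPowerSeries ι K)
    (hξ : m.N ξ ≤ r) (μ : ι →₀ ℕ) (h0 : μ ≠ 0) (h1 : μ ≠ Finsupp.single l 1) :
    m.N (mon l ξ μ) ≤ max R (r * r) := by
  have hb : ∀ i, m.N ((if i = l then ξ else MvPowerSeries.X i) ^ μ i) ≤
      (if i = l then r else R) ^ μ i := by
    intro i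
    refine (m.pow_le _ _).trans (pow_le_pow_left' ?_ _)
    split_ifs
    · exact hξ
    · exact hm i
  have h2 : m.N (mon l ξ μ) ≤ ∏ i, (if i = l then r else R) ^ μ i := by
    unfold mon
    exact (m.prod_le _ _).trans (Finset.prod_le_prod' fun i _ => hb i)
  refine h2.trans ?_
  have hle : ∀ i, (if i = l then r else R) ^ μ i ≤ 1 := by
    intro i
    refine pow_le_one' ?_ _
    split_ifs
    · exact hr
    · exact hR
  by_cases h : ∃ i, i ≠ l ∧ μ i ≠ 0
  · obtain ⟨i, hil, hi⟩ := h
    refine le_trans ?_ (le_max_left _ _)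
    rw [← Finset.mul_prod_erase _ _ (Finset.mem_univ i), if_neg hil]
    calc R ^ μ i * ∏ x ∈ Finset.univ.erase i, (if x = l then r else R) ^ μ x ≤ R ^ μ i * 1 :=
          mul_le_mul_right (Finset.prod_le_one' fun x _ => hle x) _
      _ = R ^ μ i := mul_one _
      _ ≤ R ^ 1 := pow_le_pow_right_of_le_one' hR (Nat.one_le_iff_ne_zero.mpr hi)
      _ = R := pow_one R
  · push Not at h
    have h3 : μ l ≠ 1 := by
      intro h4
      apply h1
      ext i
      rcases eq_or_ne i l with rfl | hi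
      · rw [Finsupp.single_eq_same, h4]
      · rw [Finsupp.single_eq_of_ne hi, h i hi]
    have h4 : μ l ≠ 0 := by
      intro h4
      apply h0
      ext i
      rcases eq_or_ne i l with rfl | hi
      · rw [h4]; rfl
      · rw [h i hi]; rfl
    refine le_trans ?_ (le_max_right _ _)
    rw [← Finset.mul_prod_erase _ _ (Finset.mem_univ l), if_pos rfl]
    calc r ^ μ l * ∏ x ∈ Finset.univ.erase l, (if x = l then r else R) ^ μ x ≤ r ^ μ l * 1 :=
          mul_le_mul_right (Finset.prod_le_one' fun x _ => hle x) _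
      _ = r ^ μ l := mul_one _
      _ ≤ r ^ 2 := pow_le_pow_right_of_le_one' hr (by omega)
      _ = r * r := pow_two r

theorem psN_it {κ : ℕ} (ν : Nm K κ) (hκ : κ ≤ 1) (l : ι) (G : MvPolynomial ι K)
    (h0 : coeff 0 G = 0) (c : K) (A r R : ENNReal) (hA : ∀ γ, ν.N (coeff γ G) ≤ A)
    (h1 : ν.N c * ((G.support.card : ENNReal) ^ κ * A) * R ≤ r)
    (h2 : ν.N c * ((G.support.card : ENNReal) ^ κ * A) * r ≤ 1) (hr : r ≤ 1) (hR : R ≤ 1)
    (n : ℕ) : psN ν (fun _ => R) (it l G c n) ≤ r := by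
  obtain ⟨m, hm⟩ := exists_ps ν (fun _ : ι => R)
  rw [← hm]
  have hX : ∀ i, m.N (MvPowerSeries.X i) ≤ R := by
    intro i
    rw [hm]
    exact psN_X ν _ i
  have hC : ∀ a, m.N (MvPowerSeries.C a) = ν.N a := by
    intro a
    rw [hm]
    exact psN_C ν _ a
  induction n with
  | zero =>
    have h3 : it l G c 0 = 0 := rfl
    rw [h3, m.zero]
    exact zero_le
  | succ n ih =>
    rw [it_succ]
    unfold Phi
    refine (m.mul _ _).trans ?_
    rw [hC]
    have h4 : m.N (∑ μ ∈ G.support.erase (Finsupp.single l 1),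
        MvPowerSeries.C (coeff μ G) * mon l (it l G c n) μ) ≤
        (G.support.card : ENNReal) ^ κ * (A * max R (r * r)) := by
      refine (m.sum_le hκ _ _ (A * max R (r * r)) fun μ hμ => ?_).trans ?_
      · refine (m.mul _ _).trans (mul_le_mul' ?_ ?_)
        · rw [hC]
          exact hA μ
        · refine N_mon l r R hr hR m hX _ ih μ ?_ (Finset.ne_of_mem_erase hμ)
          rintro rfl
          exact (mem_support_iff.mp (Finset.mem_of_mem_erase hμ)) h0
      · refine mul_le_mul' (pow_le_pow_left' ?_ _) le_rfl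
        exact_mod_cast Finset.card_le_card (Finset.erase_subset _ _)
    refine (mul_le_mul_right h4 _).trans ?_
    rcases le_total R (r * r) with h5 | h5
    · rw [max_eq_right h5]
      calc ν.N c * ((G.support.card : ENNReal) ^ κ * (A * (r * r))) =
            ν.N c * ((G.support.card : ENNReal) ^ κ * A) * r * r := by ring
        _ ≤ 1 * r := mul_le_mul_left h2 r
        _ = r := one_mul r
    · rw [max_eq_left h5]
      calc ν.N c * ((G.support.card : ENNReal) ^ κ * (A * R)) =
            ν.N c * ((G.support.card : ENNReal) ^ κ * A) * R := by ring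
        _ ≤ r := h1

end

end BB

theorem branch1 {ι : Type} [Fintype ι] [DecidableEq ι] {K : Type} [Field K] (P : ι → K) (l : ι)
    (g : MvPolynomial ι ℤ) (h0 : aeval P g = 0) (h1 : aeval P (pderiv l g) ≠ 0) :
    ∃ ξ : MvPowerSeries ι K, MvPowerSeries.constantCoeff ξ = 0 ∧
      (∀ γ, (∃ j, (j ∉ g.vars ∨ j = l) ∧ γ j ≠ 0) → MvPowerSeries.coeff γ ξ = 0) ∧
      aeval (fun i => if i = l then MvPowerSeries.C (P l) + ξ
        else MvPowerSeries.C (P i) + MvPowerSeries.X i) g = 0 ∧
      (∀ S : Subring K, (∀ i, P i ∈ S) → (aeval P (pderiv l g))⁻¹ ∈ S →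
        ∀ γ, MvPowerSeries.coeff γ ξ ∈ S) ∧
      ∀ (κ : ℕ) (ν : Nm K κ) (A r R : ENNReal) (ρ : ι → ENNReal), κ ≤ 1 →
        (∀ γ, ν.N (coeff γ (shf P g)) ≤ A) →
        ν.N (aeval P (pderiv l g))⁻¹ * (((shf P g).support.card : ENNReal) ^ κ * A) * R ≤ r →
        ν.N (aeval P (pderiv l g))⁻¹ * (((shf P g).support.card : ENNReal) ^ κ * A) * r ≤ 1 →
        r ≤ 1 → R ≤ 1 → (∀ i ∈ g.vars, i ≠ l → ρ i ≤ R) → psN ν ρ ξ ≤ r := by
  have hG0 : coeff 0 (shf P g) = 0 := by
    rw [← h0, ← BB.constantCoeff_shf]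
    rfl
  have hGl : coeff (Finsupp.single l 1) (shf P g) = aeval P (pderiv l g) := by
    rw [BB.coeff_single_one, BB.pderiv_shf, BB.constantCoeff_shf]
  have hvan : ∀ γ, (∃ j, (j ∉ g.vars ∨ j = l) ∧ γ j ≠ 0) →
      MvPowerSeries.coeff γ (BB.lim l (shf P g) (-(aeval P (pderiv l g))⁻¹)) = 0 := by
    intro γ hγ
    rw [← BB.coeff_lim l (shf P g) hG0 _ γ γ.degree le_rfl]
    refine BB.it_mem l (shf P g) _ (BB.noVars {j | j ∉ g.vars ∨ j = l})
      (BB.C_mem_noVars _ _) (fun μ _ => BB.C_mem_noVars _ _) (fun μ hμ i hi hμi => ?_) _ γ hγ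
    refine BB.X_mem_noVars _ _ ?_
    rintro (h | h)
    · exact h (BB.vars_shf P g μ (mem_support_iff.mp hμ) i hμi)
    · exact hi h
  refine ⟨BB.lim l (shf P g) (-(aeval P (pderiv l g))⁻¹), BB.constantCoeff_lim l _ hG0 _, hvan,
    ?_, ?_, ?_⟩
  · have h2 : (fun i => if i = l then MvPowerSeries.C (P l) +
          BB.lim l (shf P g) (-(aeval P (pderiv l g))⁻¹)
        else MvPowerSeries.C (P i) + MvPowerSeries.X i) = fun i =>
        algebraMap K (MvPowerSeries ι K) (P i) +
          (if i = l then BB.lim l (shf P g) (-(aeval P (pderiv l g))⁻¹)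
            else MvPowerSeries.X i) := by
      funext i
      split_ifs with h
      · subst h
        rfl
      · rfl
    have h6 := BB.aeval_shf (B := MvPowerSeries ι K) P g (fun i => if i = l then
      BB.lim l (shf P g) (-(aeval P (pderiv l g))⁻¹) else MvPowerSeries.X i)
    rw [h2]
    refine (BB.aeval_inst _ _ _ g).trans (h6.trans ?_)
    rw [BB.aeval_eq, hGl]
    have h3 := BB.Phi_lim l (shf P g) hG0 (-(aeval P (pderiv l g))⁻¹)
    have h4 : ∀ ξ s : MvPowerSeries ι K,
        MvPowerSeries.C (-(aeval P (pderiv l g))⁻¹) * s = ξ →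
        MvPowerSeries.C (aeval P (pderiv l g)) * ξ + s = 0 := by
      rintro ξ s rfl
      rw [← mul_assoc, ← map_mul, mul_neg, mul_inv_cancel₀ h1, map_neg, map_one, neg_one_mul,
        neg_add_cancel]
    exact h4 _ _ h3
  · intro S hP hinv γ
    rw [← BB.coeff_lim l (shf P g) hG0 _ γ γ.degree le_rfl]
    exact BB.it_mem l (shf P g) _ (BB.coeffsIn S) (BB.C_mem_coeffsIn S _ (S.neg_mem hinv))
      (fun μ _ => BB.C_mem_coeffsIn S _ (BB.coeff_shf_mem S P hP g μ))
      (fun μ _ i _ _ => BB.X_mem_coeffsIn S i) _ γ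
  · intro κ ν A r R ρ hκ hA h2 h3 hr hR hρ
    refine (psN_congr ν ρ _ (fun _ => R) ?_).trans ?_
    · intro γ hγ i hi
      by_cases h4 : i ∈ g.vars ∧ i ≠ l
      · exact hρ i h4.1 h4.2
      · exfalso
        apply hγ
        refine hvan γ ⟨i, ?_, hi⟩
        by_cases h5 : i ∈ g.vars
        · right
          by_contra h6
          exact h4 ⟨h5, h6⟩
        · exact Or.inl h5
    · refine psN_le_of_limit ν _ _ (BB.it l (shf P g) (-(aeval P (pderiv l g))⁻¹)) r (fun n => ?_)
        (fun γ => Filter.eventually_atTop.mpr ⟨γ.degree, fun n hn =>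
          BB.coeff_lim l (shf P g) hG0 _ γ n hn⟩)
      refine BB.psN_it ν hκ l (shf P g) hG0 _ A r R hA ?_ ?_ hr hR n
      · rw [ν.neg]
        exact h2
      · rw [ν.neg]
        exact h3

end Pool.Agent.AL
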