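import Pool.Agent.Lib.MP_c95b3b_ag_AL.BB

/-! Project AL (MP_c95b3b_ag), module BC: the branch. -/

namespace Pool.Agent.AL

open Pool.Agent.L3 Pool.Agent.KP Module MvPolynomial

namespace BC

theorem aeval_congr_vars {ι : Type} {K : Type} [Field K] (p : MvPolynomial ι ℤ)
    (f g : ι → MvPowerSeries ι K) (h : ∀ i ∈ p.vars, f i = g i) : aeval f p = aeval g p := by
  rw [aeval_def, aeval_def]
  exact eval₂Hom_congr' rfl (fun i hi _ => h i hi) rfl

theorem const_aeval {ι : Type} {K : Type} [Field K] (P : ι → K) (Ξ : ι → MvPowerSeries ι K)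
    (hc : ∀ i, MvPowerSeries.constantCoeff (Ξ i) = P i) (p : MvPolynomial ι ℤ) :
    MvPowerSeries.constantCoeff (aeval Ξ p) = aeval P p := by
  induction p using MvPolynomial.induction_on with
  | C a => simp
  | add p q hp hq => simp [hp, hq]
  | mul_X p i hp => simp [hp, hc]

theorem coeff_single_mul {ι : Type} [DecidableEq ι] {K : Type} [Field K] (i : ι)
    (f h : MvPowerSeries ι K) :
    MvPowerSeries.coeff (Finsupp.single i 1) (f * h) =
      MvPowerSeries.constantCoeff f * MvPowerSeries.coeff (Finsupp.single i 1) h +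
      MvPowerSeries.constantCoeff h * MvPowerSeries.coeff (Finsupp.single i 1) f := by
  classical
  rw [MvPowerSeries.coeff_mul]
  have h1 : Finset.HasAntidiagonal.antidiagonal (Finsupp.single i 1 : ι →₀ ℕ) =
      {(0, Finsupp.single i 1), (Finsupp.single i 1, 0)} := by
    rw [Finsupp.antidiagonal_single]
    ext ⟨a, b⟩
    simp only [Finset.mem_map, Finset.HasAntidiagonal.mem_antidiagonal, Finset.mem_insert, Finset.mem_singleton,
      Prod.mk.injEq, Prod.exists, Function.Embedding.prodMap, Function.Embedding.coeFn_mk,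
      Prod.map_apply]
    constructor
    · rintro ⟨x, y, hxy, rfl, rfl⟩
      have : (x = 0 ∧ y = 1) ∨ (x = 1 ∧ y = 0) := by omega
      rcases this with ⟨rfl, rfl⟩ | ⟨rfl, rfl⟩
      · left; simp
      · right; simp
    · rintro (⟨rfl, rfl⟩ | ⟨rfl, rfl⟩)
      · exact ⟨0, 1, by omega, by simp, rfl⟩
      · exact ⟨1, 0, by omega, rfl, by simp⟩
  rw [h1, Finset.sum_pair (by
    intro h
    have := congrArg (fun t : (ι →₀ ℕ) × (ι →₀ ℕ) => t.1 i) h
    simp at this)]
  simp [mul_comm]

theorem coeff_aeval {ι : Type} [Fintype ι] [DecidableEq ι] {K : Type} [Field K] (P : ι → K)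
    (Ξ : ι → MvPowerSeries ι K) (hc : ∀ i, MvPowerSeries.constantCoeff (Ξ i) = P i) (i : ι)
    (p : MvPolynomial ι ℤ) :
    MvPowerSeries.coeff (Finsupp.single i 1) (aeval Ξ p) =
      ∑ i', aeval P (pderiv i' p) * MvPowerSeries.coeff (Finsupp.single i 1) (Ξ i') := by
  classical
  induction p using MvPolynomial.induction_on with
  | C a =>
    have h0 : aeval Ξ (C a : MvPolynomial ι ℤ) = MvPowerSeries.C ((a : ℤ) : K) := by
      simp
    rw [h0, MvPowerSeries.coeff_C, if_neg]
    · simp
    · intro h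
      have := congrArg (fun t : (ι →₀ ℕ) => t i) h
      simp at this
  | add p q hp hq =>
    rw [map_add, map_add, hp, hq, ← Finset.sum_add_distrib]
    refine Finset.sum_congr rfl fun i' _ => ?_
    rw [map_add, map_add, add_mul]
  | mul_X p j hp =>
    rw [map_mul, coeff_single_mul, hp, const_aeval P Ξ hc, aeval_X, hc]
    have h1 : ∀ i', aeval P (pderiv i' (p * X j)) =
        aeval P (pderiv i' p) * P j + aeval P p * (if i' = j then 1 else 0) := by
      intro i'
      rw [Derivation.leibniz, pderiv_X]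
      simp only [smul_eq_mul, map_add, map_mul, aeval_X, Pi.single_apply]
      by_cases h : i' = j
      · subst h; simp; ring
      · rw [if_neg h, if_neg (fun h' => h h'.symm)]; simp; ring
    simp only [h1, add_mul, Finset.sum_add_distrib]
    rw [add_comm]
    congr 1
    · rw [Finset.mul_sum]
      refine Finset.sum_congr rfl fun i' _ => ?_
      ring
    · simp

end BC

theorem exists_branch {ι : Type} [Fintype ι] [DecidableEq ι] {K : Type} [Field K] {q : ℕ}
    (I : Finset ι) (blk : ι → Fin (q + 1)) (P : ι → K) (g : ι → MvPolynomial ι ℤ)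
    (h : IsRel I blk P g) : ∃ Ξ : ι → MvPowerSeries ι K, IsBranch I P g Ξ ∧ BranchInt I P g Ξ ∧
      BranchNorm I blk P g Ξ := by
  classical
  have hb := fun (l : ι) (hl : l ∉ I) => branch1 P l (g l) (h.root l hl) (h.der l hl)
  choose ξ h1 h2 h3 h4 h5 using hb
  obtain ⟨Ξ, hin, hout⟩ : ∃ Ξ : ι → MvPowerSeries ι K,
      (∀ i ∈ I, Ξ i = MvPowerSeries.C (P i) + MvPowerSeries.X i) ∧
      ∀ l (hl : l ∉ I), Ξ l = MvPowerSeries.C (P l) + ξ l hl :=
    ⟨fun i => if hi : i ∈ I then MvPowerSeries.C (P i) + MvPowerSeries.X i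
      else MvPowerSeries.C (P i) + ξ i hi, fun i hi => by simp [hi], fun l hl => by simp [hl]⟩
  refine ⟨Ξ, ⟨hin, ?_, ?_, ?_⟩, ?_, ?_⟩
  · intro i
    by_cases hi : i ∈ I
    · rw [hin i hi]; simp
    · rw [hout i hi, map_add, h1 i hi]; simp
  · rintro i γ ⟨j, hj, hγ⟩
    have hγ0 : γ ≠ 0 := by rintro rfl; exact hγ rfl
    by_cases hi : i ∈ I
    · rw [hin i hi, map_add, MvPowerSeries.coeff_C, if_neg hγ0, MvPowerSeries.coeff_X, if_neg,
        add_zero]
      rintro rfl
      rw [Finsupp.single_apply] at hγ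
      by_cases hij : i = j
      · exact hj (hij ▸ hi)
      · rw [if_neg hij] at hγ; exact hγ rfl
    · rw [hout i hi, map_add, MvPowerSeries.coeff_C, if_neg hγ0, zero_add]
      refine h2 i hi γ ⟨j, ?_, hγ⟩
      by_cases hjv : j ∈ (g i).vars
      · rcases h.vars i hi j hjv with h' | h'
        · exact Or.inr h'
        · exact absurd h'.1 hj
      · exact Or.inl hjv
  · intro l hl
    rw [← h3 l hl]
    refine BC.aeval_congr_vars _ _ _ fun i hi => ?_
    rcases h.vars l hl i hi with h' | h'
    · subst h'; rw [if_pos rfl]; exact hout i hl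
    · rw [if_neg (fun h'' : i = l => hl (h'' ▸ h'.1)), hin i h'.1]
  · intro S hP hd i γ
    have hC : MvPowerSeries.coeff γ (MvPowerSeries.C (P i) : MvPowerSeries ι K) ∈ S := by
      rw [MvPowerSeries.coeff_C]; split_ifs
      · exact hP i
      · exact S.zero_mem
    by_cases hi : i ∈ I
    · rw [hin i hi, map_add]
      refine S.add_mem hC ?_
      rw [MvPowerSeries.coeff_X]; split_ifs
      · exact S.one_mem
      · exact S.zero_mem
    · rw [hout i hi, map_add]
      exact S.add_mem hC (h4 i hi S hP (hd i hi) γ)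
  · intro l hl κ ν A r R ρ hκ hA hr hr1 hr2 hR hρ
    rw [hout l hl, add_sub_cancel_left]
    refine h5 l hl κ ν A r R ρ hκ hA hr hr1 hr2 hR fun i hi hil => ?_
    rcases h.vars l hl i hi with h' | h'
    · exact absurd h' hil
    · exact hρ i h'.1 h'.2

theorem branch_tangent {ι : Type} [Fintype ι] [DecidableEq ι] {K : Type} [Field K]
    (I : Finset ι) (P : ι → K) (g : ι → MvPolynomial ι ℤ) (Ξ : ι → MvPowerSeries ι K)
    (hΞ : IsBranch I P g Ξ) (i : ι) (l : ι) (hl : l ∉ I) :
    ∑ i', aeval P (pderiv i' (g l)) * MvPowerSeries.coeff (Finsupp.single i 1) (Ξ i') = 0 := by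
  rw [← BC.coeff_aeval P Ξ hΞ.const i (g l), hΞ.rel l hl, map_zero]

theorem tangent_mem {ι : Type} [Fintype ι] [DecidableEq ι] {K : Type} [Field K] {q : ℕ}
    (I : Finset ι) (blk : ι → Fin (q + 1)) (P : ι → K) (g : ι → MvPolynomial ι ℤ)
    (h : IsRel I blk P g) (Ξ : ι → MvPowerSeries ι K) (hΞ : IsBranch I P g Ξ) (v : ι → K)
    (hv : ∀ l, l ∉ I → ∑ i', aeval P (pderiv i' (g l)) * v i' = 0) (i' : ι) :
    v i' = ∑ i ∈ I, v i * MvPowerSeries.coeff (Finsupp.single i 1) (Ξ i') := by
  classical
  have hI : ∀ i' ∈ I, ∀ i : ι, MvPowerSeries.coeff (Finsupp.single i 1) (Ξ i') =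
      if i = i' then 1 else 0 := by
    intro i' hi' i
    rw [hΞ.free i' hi', map_add, MvPowerSeries.coeff_C, MvPowerSeries.coeff_X, if_neg, zero_add]
    · by_cases hii : i = i'
      · subst hii; simp
      · rw [if_neg hii, if_neg]
        intro h'
        have := congrArg (fun t : (ι →₀ ℕ) => t i) h'
        simp only [Finsupp.single_eq_same] at this
        rw [Finsupp.single_apply, if_neg (fun h => hii h.symm)] at this
        exact one_ne_zero this
    · intro h'
      have := congrArg (fun t : (ι →₀ ℕ) => t i) h'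
      simp at this
  obtain ⟨u, hu⟩ : ∃ u : ι → K, ∀ i', u i' =
      v i' - ∑ i ∈ I, v i * MvPowerSeries.coeff (Finsupp.single i 1) (Ξ i') := ⟨_, fun _ => rfl⟩
  have hu0 : ∀ i' ∈ I, u i' = 0 := by
    intro i' hi'
    rw [hu, Finset.sum_eq_single i']
    · rw [hI i' hi', if_pos rfl, mul_one, sub_self]
    · intro b _ hb
      rw [hI i' hi', if_neg hb, mul_zero]
    · intro h'; exact absurd hi' h'
  by_cases hi' : i' ∈ I
  · have := hu0 i' hi'
    rw [hu, sub_eq_zero] at this
    exact this
  · have hsum : ∑ j, aeval P (pderiv j (g i')) * u j = 0 := by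
      simp only [hu, mul_sub, Finset.sum_sub_distrib]
      rw [hv i' hi', zero_sub, neg_eq_zero]
      simp only [Finset.mul_sum]
      rw [Finset.sum_comm]
      refine Finset.sum_eq_zero fun i _ => ?_
      have := branch_tangent I P g Ξ hΞ i i' hi'
      calc ∑ x, aeval P (pderiv x (g i')) *
            (v i * MvPowerSeries.coeff (Finsupp.single i 1) (Ξ x)) =
          v i * ∑ x, aeval P (pderiv x (g i')) *
            MvPowerSeries.coeff (Finsupp.single i 1) (Ξ x) := by
            rw [Finset.mul_sum]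
            refine Finset.sum_congr rfl fun x _ => ?_
            ring
        _ = 0 := by rw [this, mul_zero]
    rw [Finset.sum_eq_single i'] at hsum
    · have hz : u i' = 0 := (mul_eq_zero.mp hsum).resolve_left (h.der i' hi')
      rw [hu, sub_eq_zero] at hz
      exact hz
    · intro b _ hb
      by_cases hbI : b ∈ I
      · rw [hu0 b hbI, mul_zero]
      · have : pderiv b (g i') = 0 := by
          refine pderiv_eq_zero_of_notMem_vars fun hbv => ?_
          rcases h.vars i' hi' b hbv with h' | h'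
          · exact hb h'
          · exact hbI h'.1
        rw [this, map_zero, zero_mul]
    · intro h'; exact absurd (Finset.mem_univ _) h'

end Pool.Agent.AL
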