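import Pool.Agent.Lib.MP_c95b3b_ag_AL.ZA

/-! Project AL (MP_c95b3b_ag), module BD: leading forms along the branch. -/

namespace Pool.Agent.AL

open Pool.Agent.L3 Pool.Agent.KP Module MvPolynomial

namespace BD

section
variable {ι : Type} {K : Type} [Field K]

/-- the Taylor expansion along the branch -/
noncomputable def W (Ξ : ι → MvPowerSeries ι K) :
    MvPolynomial ι ℤ →ₐ[ℤ] MvPolynomial ι (MvPowerSeries ι K) :=
  aeval fun i => C (Ξ i) + X i

theorem coeff_W (Ξ : ι → MvPowerSeries ι K) (V : MvPolynomial ι ℤ) (α : ι →₀ ℕ) :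
    coeff α (W Ξ V) = aeval Ξ (hs α V) := by
  have h : ((MvPolynomial.map (σ := ι) (aeval Ξ : MvPolynomial ι ℤ →ₐ[ℤ]
      MvPowerSeries ι K).toRingHom).comp
      (aeval (fun i => (C (X i) + X i : MvPolynomial ι (MvPolynomial ι ℤ)))).toRingHom) =
      (W Ξ).toRingHom := by
    apply MvPolynomial.ringHom_ext
    · intro r
      simp
    · intro i
      simp [W]
  have h1 := congrArg (fun φ => coeff α (φ V)) h
  unfold hs
  refine h1.symm.trans ?_
  exact coeff_map _ _ _

theorem charZero_ps [CharZero K] : CharZero (MvPowerSeries ι K) :=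
  charZero_of_injective_ringHom (f := (MvPowerSeries.C : K →+* MvPowerSeries ι K))
    MvPowerSeries.C_injective

theorem W_ne [CharZero K] (Ξ : ι → MvPowerSeries ι K) (V : MvPolynomial ι ℤ) (hV : V ≠ 0) :
    W Ξ V ≠ 0 := by
  intro h
  have h0 : ((aeval (fun i => (X i - C (Ξ i) : MvPolynomial ι (MvPowerSeries ι K))) :
      MvPolynomial ι (MvPowerSeries ι K) →ₐ[MvPowerSeries ι K]
        MvPolynomial ι (MvPowerSeries ι K)).toRingHom.comp (W Ξ).toRingHom) =
      MvPolynomial.map (Int.castRingHom (MvPowerSeries ι K)) := by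
    apply MvPolynomial.ringHom_ext
    · intro r
      simp
    · intro i
      simp [W]
  have h1 := congrArg (fun φ => φ V) h0
  have h2 : MvPolynomial.map (Int.castRingHom (MvPowerSeries ι K)) V = 0 := by
    rw [← h1]
    show (aeval (fun i => (X i - C (Ξ i) : MvPolynomial ι (MvPowerSeries ι K)))) (W Ξ V) = 0
    rw [h, map_zero]
  have := charZero_ps (ι := ι) (K := K)
  have hinj : Function.Injective (MvPolynomial.map (σ := ι)
      (Int.castRingHom (MvPowerSeries ι K))) :=
    map_injective _ Int.cast_injective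
  exact hV (hinj (h2.trans (map_zero _).symm))

theorem only_aeval {I : Finset ι} {Ξ : ι → MvPowerSeries ι K}
    (hΞ : ∀ i γ, (∃ j, j ∉ I ∧ γ j ≠ 0) → MvPowerSeries.coeff γ (Ξ i) = 0)
    (f : MvPolynomial ι ℤ) : ∀ γ : ι →₀ ℕ, (∃ j, j ∉ I ∧ γ j ≠ 0) →
      MvPowerSeries.coeff γ (aeval Ξ f) = 0 := by
  classical
  induction f using MvPolynomial.induction_on with
  | C a =>
    rintro γ ⟨j, _, hj⟩
    have h1 : γ ≠ 0 := by
      rintro rfl
      exact hj rfl
    have h2 : (aeval Ξ (C a) : MvPowerSeries ι K) = MvPowerSeries.C ((a : ℤ) : K) := by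
      simp
    rw [h2, MvPowerSeries.coeff_C, if_neg h1]
  | add f g hf hg =>
    intro γ hγ
    rw [map_add, map_add, hf γ hγ, hg γ hγ, add_zero]
  | mul_X f i hf =>
    intro γ hγ
    rw [map_mul, aeval_X, MvPowerSeries.coeff_mul]
    refine Finset.sum_eq_zero fun x hx => ?_
    rw [Finset.HasAntidiagonal.mem_antidiagonal] at hx
    obtain ⟨j, hj, hj'⟩ := hγ
    rw [← hx, Finsupp.add_apply] at hj'
    rcases Nat.eq_zero_or_pos (x.1 j) with h | h
    · rw [hΞ i x.2 ⟨j, hj, by omega⟩, mul_zero]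
    · rw [hf x.1 ⟨j, hj, by omega⟩, zero_mul]

theorem degreeOf_W [DecidableEq ι] (Ξ : ι → MvPowerSeries ι K) (V : MvPolynomial ι ℤ) (i : ι) :
    degreeOf i (W Ξ V) ≤ degreeOf i V := by
  have h0 : W Ξ V = ∑ m ∈ V.support, W Ξ (monomial m (coeff m V)) := by
    conv_lhs => rw [V.as_sum, map_sum]
  rw [h0]
  refine (degreeOf_sum_le i _ _).trans (Finset.sup_le fun m hm => ?_)
  refine le_trans ?_ (monomial_le_degreeOf i hm)
  unfold W
  rw [aeval_monomial]
  refine (degreeOf_mul_le i _ _).trans ?_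
  have h1 : degreeOf i (algebraMap ℤ (MvPolynomial ι (MvPowerSeries ι K)) (coeff m V)) = 0 := by
    have : algebraMap ℤ (MvPolynomial ι (MvPowerSeries ι K)) (coeff m V) =
        C ((coeff m V : ℤ) : MvPowerSeries ι K) := by simp
    rw [this, degreeOf_C]
  rw [h1, zero_add]
  have h2 : ∀ j, degreeOf i ((C (Ξ j) + X j : MvPolynomial ι (MvPowerSeries ι K)) ^ m j) ≤
      if i = j then m j else 0 := by
    intro j
    refine (degreeOf_pow_le i _ _).trans ?_
    have h3 := degreeOf_add_le i (C (Ξ j)) (X j : MvPolynomial ι (MvPowerSeries ι K))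
    rw [degreeOf_C, degreeOf_X] at h3
    split_ifs with h
    · rw [if_pos h] at h3
      calc _ ≤ m j * 1 := Nat.mul_le_mul_left _ (h3.trans (by simp))
        _ = m j := mul_one _
    · rw [if_neg h] at h3
      have : degreeOf i (C (Ξ j) + X j : MvPolynomial ι (MvPowerSeries ι K)) = 0 := by
        simpa using h3
      rw [this, mul_zero]
  refine (degreeOf_prod_le i _ _).trans ?_
  refine (Finset.sum_le_sum fun j _ => h2 j).trans ?_
  rw [Finset.sum_ite_eq]
  split_ifs with h
  · exact le_rfl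
  · exact Nat.zero_le _

/-- the chain rule -/
theorem chain [Fintype ι] [DecidableEq ι] (Ξ : ι → MvPowerSeries ι K) (i : ι)
    (V : MvPolynomial ι ℤ) : ∀ α : ι →₀ ℕ,
    MvPowerSeries.pderiv K i (coeff α (W Ξ V)) =
      coeff α (∑ i', C (MvPowerSeries.pderiv K i (Ξ i')) * pderiv i' (W Ξ V)) := by
  induction V using MvPolynomial.induction_on with
  | C a =>
    intro α
    have h1 : W Ξ (C a) = C (MvPowerSeries.C ((a : ℤ) : K)) := by simp
    rw [h1]
    simp only [pderiv_C, mul_zero, Finset.sum_const_zero, coeff_zero]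
    rw [coeff_C]
    split_ifs
    · exact MvPowerSeries.pderiv_C
    · exact map_zero _
  | add f g hf hg =>
    intro α
    have h1 : ∀ i', C (MvPowerSeries.pderiv K i (Ξ i')) * pderiv i' (W Ξ f + W Ξ g) =
        C (MvPowerSeries.pderiv K i (Ξ i')) * pderiv i' (W Ξ f) +
        C (MvPowerSeries.pderiv K i (Ξ i')) * pderiv i' (W Ξ g) := by
      intro i'
      rw [map_add, mul_add]
    rw [map_add, coeff_add, map_add, hf α, hg α, Finset.sum_congr rfl fun i' _ => h1 i',
      Finset.sum_add_distrib, coeff_add]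
  | mul_X f j hf =>
    intro α
    have hX : W Ξ (X j) = C (Ξ j) + X j := by simp [W]
    have h1 : ∑ i', C (MvPowerSeries.pderiv K i (Ξ i')) * pderiv i' (W Ξ f * (C (Ξ j) + X j)) =
        (∑ i', C (MvPowerSeries.pderiv K i (Ξ i')) * pderiv i' (W Ξ f)) * (C (Ξ j) + X j) +
        C (MvPowerSeries.pderiv K i (Ξ j)) * W Ξ f := by
      have h2 : ∀ i', C (MvPowerSeries.pderiv K i (Ξ i')) * pderiv i' (W Ξ f * (C (Ξ j) + X j)) =
          (C (MvPowerSeries.pderiv K i (Ξ i')) * pderiv i' (W Ξ f)) * (C (Ξ j) + X j) +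
          (if i' = j then C (MvPowerSeries.pderiv K i (Ξ i')) * W Ξ f else 0) := by
        intro i'
        rw [pderiv_mul, map_add, pderiv_C, zero_add, pderiv_X]
        by_cases h : i' = j
        · subst h
          rw [if_pos rfl, Pi.single_eq_same]
          ring
        · rw [if_neg h, Pi.single_eq_of_ne (fun h' => h h'.symm)]
          ring
      rw [Finset.sum_congr rfl fun i' _ => h2 i', Finset.sum_add_distrib, Finset.sum_mul,
        Finset.sum_ite_eq' Finset.univ j, if_pos (Finset.mem_univ j)]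
    rw [map_mul, hX, h1]
    have h3 : ∀ g : MvPolynomial ι (MvPowerSeries ι K), coeff α (g * (C (Ξ j) + X j)) =
        coeff α g * Ξ j + (if j ∈ α.support then coeff (α - Finsupp.single j 1) g else 0) := by
      intro g
      rw [mul_add, coeff_add, mul_comm g, coeff_C_mul, coeff_mul_X', mul_comm]
    rw [h3, coeff_add, h3, coeff_C_mul, map_add, Derivation.leibniz, hf α, smul_eq_mul,
      smul_eq_mul]
    split_ifs
    · rw [hf]
      ring
    · rw [map_zero]
      ring

/-- the leading coefficient of a product -/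
theorem coeff_lead [Fintype ι] [DecidableEq ι] (H : ι → ℕ) (hH : ∀ i, 0 < H i) (γ : ι →₀ ℕ)
    (f g : MvPowerSeries ι K)
    (hg : ∀ γ', wt H γ' < wt H γ → MvPowerSeries.coeff γ' g = 0) :
    MvPowerSeries.coeff γ (f * g) =
      MvPowerSeries.constantCoeff f * MvPowerSeries.coeff γ g := by
  rw [MvPowerSeries.coeff_mul, Finset.sum_eq_single (0, γ)]
  · rw [MvPowerSeries.coeff_zero_eq_constantCoeff]
  · intro x hx hne
    rw [Finset.HasAntidiagonal.mem_antidiagonal] at hx
    have h0 : x.1 ≠ 0 := by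
      intro h
      apply hne
      rw [h, zero_add] at hx
      exact Prod.ext h hx
    rw [hg x.2, mul_zero]
    have h1 : wt H γ = wt H x.1 + wt H x.2 := by
      rw [← hx]
      unfold wt
      rw [← Finset.sum_add_distrib]
      refine Finset.sum_congr rfl fun i _ => ?_
      rw [Finsupp.add_apply, add_mul]
    have h2 : 0 < wt H x.1 := by
      obtain ⟨i, hi⟩ := Finsupp.ne_iff.1 h0
      unfold wt
      refine Finset.sum_pos' (fun _ _ => Nat.zero_le _) ⟨i, Finset.mem_univ i, ?_⟩
      exact Nat.mul_pos (Nat.pos_of_ne_zero hi) (hH i)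
    omega
  · intro h
    exact absurd (Finset.HasAntidiagonal.mem_antidiagonal.2 (zero_add γ)) h

/-- the forms at a point -/
theorem coeff_eval [Fintype ι] [DecidableEq ι] {κ : Type} [Fintype κ] [DecidableEq κ]
    (Ξ : ι → MvPowerSeries ι K) (V : MvPolynomial ι ℤ) (η : κ → ι → K) (β : κ →₀ ℕ) :
    MvPowerSeries.coeff β
      (aeval (fun i => (MvPowerSeries.C (Ξ i) +
        ∑ k, MvPowerSeries.C (MvPowerSeries.C (η k i)) * MvPowerSeries.X k :
          MvPowerSeries κ (MvPowerSeries ι K))) V) =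
    ∑ α ∈ (W Ξ V).support, coeff α (W Ξ V) * MvPowerSeries.C
      (coeff β (∏ i, (∑ k, C (η k i) * X k : MvPolynomial κ K) ^ α i)) := by
  set T : ι → MvPolynomial κ K := fun i => ∑ k, C (η k i) * X k with hT
  set TA : ι → MvPolynomial κ (MvPowerSeries ι K) :=
    fun i => ∑ k, C (MvPowerSeries.C (η k i)) * X k with hTA
  have hmap : ∀ i, TA i = MvPolynomial.map (MvPowerSeries.C : K →+* MvPowerSeries ι K) (T i) := by
    intro i
    simp [hT, hTA]
  -- the power series is a polynomial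
  have h1 : (aeval (fun i => (MvPowerSeries.C (Ξ i) +
        ∑ k, MvPowerSeries.C (MvPowerSeries.C (η k i)) * MvPowerSeries.X k :
          MvPowerSeries κ (MvPowerSeries ι K))) V) =
      ((aeval TA (W Ξ V) : MvPolynomial κ (MvPowerSeries ι K)) :
        MvPowerSeries κ (MvPowerSeries ι K)) := by
    have h2 : (aeval (fun i => (MvPowerSeries.C (Ξ i) +
        ∑ k, MvPowerSeries.C (MvPowerSeries.C (η k i)) * MvPowerSeries.X k :
          MvPowerSeries κ (MvPowerSeries ι K))) : MvPolynomial ι ℤ →ₐ[ℤ]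
            MvPowerSeries κ (MvPowerSeries ι K)).toRingHom =
        (MvPolynomial.coeToMvPowerSeries.ringHom.comp
          ((aeval TA : MvPolynomial ι (MvPowerSeries ι K) →ₐ[MvPowerSeries ι K]
            MvPolynomial κ (MvPowerSeries ι K)).toRingHom)).comp (W Ξ).toRingHom := by
      apply MvPolynomial.ringHom_ext
      · intro r
        simp
      · intro i
        have h3 : (aeval TA) (W Ξ (X i)) = C (Ξ i) + TA i := by simp [W]
        show aeval _ (X i) = MvPolynomial.coeToMvPowerSeries.ringHom ((aeval TA) (W Ξ (X i)))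
        rw [h3, aeval_X, map_add, hTA, map_sum]
        simp
    exact congrArg (fun φ => φ V) h2
  rw [h1, coeff_coe]
  have h4 : aeval TA (W Ξ V) = ∑ α ∈ (W Ξ V).support, C (coeff α (W Ξ V)) *
      MvPolynomial.map (MvPowerSeries.C : K →+* MvPowerSeries ι K) (∏ i, T i ^ α i) := by
    rw [aeval_def, eval₂_eq']
    refine Finset.sum_congr rfl fun α _ => ?_
    rw [map_prod]
    congr 1
    refine Finset.prod_congr rfl fun i _ => ?_
    rw [map_pow, hmap]
  rw [h4, coeff_sum]
  refine Finset.sum_congr rfl fun α _ => ?_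
  rw [coeff_C_mul, coeff_map]

/-- products of linear forms -/
theorem coeff_forms [Fintype ι] {κ : Type} [Fintype κ] (η : κ → ι → K) (β : κ →₀ ℕ) (α : ι →₀ ℕ)
    (h : coeff β (∏ i, (∑ k, C (η k i) * X k : MvPolynomial κ K) ^ α i) ≠ 0) :
    β.degree = α.degree := by
  classical
  have h1 : (∏ i, (∑ k, C (η k i) * X k : MvPolynomial κ K) ^ α i).IsHomogeneous
      (∑ i, 1 * α i) := by
    refine IsHomogeneous.prod _ _ _ fun i _ => ?_
    refine IsHomogeneous.pow ?_ _
    refine IsHomogeneous.sum _ _ _ fun k _ => ?_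
    simpa using (isHomogeneous_C κ (η k i)).mul (isHomogeneous_X K k)
  have h2 := h1 h
  refine ((DFunLike.congr_fun Finsupp.degree_eq_weight_one β).trans h2).trans ?_
  rw [Finsupp.degree_eq_sum]
  simp

end

end BD

theorem taylor_forms {ι : Type} [Fintype ι] [DecidableEq ι] {K : Type} [Field K] [CharZero K]
    (I : Finset ι) (P : ι → K) (g : ι → MvPolynomial ι ℤ) (Ξ : ι → MvPowerSeries ι K)
    (hΞ : IsBranch I P g Ξ) (H : ι → ℕ) (hH : ∀ i, 0 < H i) (V : MvPolynomial ι ℤ) (hV : V ≠ 0) :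
    ∃ (p : ℕ) (γ : ι →₀ ℕ) (L : MvPolynomial ι K), L ≠ 0 ∧ L.IsHomogeneous p ∧
      (∀ i, i ∉ I → γ i = 0) ∧ (∀ α, coeff α L ≠ 0 → ∀ i, α i ≤ V.degreeOf i) ∧
      (∀ i ∈ I, ∑ i', C (MvPowerSeries.coeff (Finsupp.single i 1) (Ξ i')) * pderiv i' L = 0) ∧
      (∃ α : ι →₀ ℕ, aeval Ξ (hs α V) ≠ 0 ∧
        ∀ γ', wt H γ' < wt H γ → MvPowerSeries.coeff γ' (aeval Ξ (hs α V)) = 0) ∧
      ∀ (κ : Type) [Fintype κ] [DecidableEq κ] (η : κ → ι → K) (β : κ →₀ ℕ), β.degree = p →
        coeff β (aeval (fun i => (∑ k, C (η k i) * X k : MvPolynomial κ K)) L) =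
          MvPowerSeries.coeff γ (MvPowerSeries.coeff β
            (aeval (fun i => (MvPowerSeries.C (Ξ i) +
              ∑ k, MvPowerSeries.C (MvPowerSeries.C (η k i)) * MvPowerSeries.X k :
                MvPowerSeries κ (MvPowerSeries ι K))) V)) := by
  classical
  have hW := BD.W_ne Ξ V hV
  -- the order `p`
  have hex : ∃ p, ∃ α : ι →₀ ℕ, α.degree = p ∧ coeff α (BD.W Ξ V) ≠ 0 := by
    obtain ⟨α, hα⟩ := MvPolynomial.ne_zero_iff.1 hW
    exact ⟨_, α, rfl, hα⟩
  obtain ⟨α₁, hα₁, hα₁'⟩ := Nat.find_spec hex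
  set p := Nat.find hex with hp
  have hpmin : ∀ α : ι →₀ ℕ, α.degree < p → coeff α (BD.W Ξ V) = 0 := by
    intro α hα
    by_contra h
    exact Nat.find_min hex hα ⟨α, rfl, h⟩
  -- the exponent `γ`
  have hex2 : ∃ m, ∃ (α γ : ι →₀ ℕ), α.degree = p ∧
      MvPowerSeries.coeff γ (coeff α (BD.W Ξ V)) ≠ 0 ∧ wt H γ = m := by
    have h1 : ∃ γ, MvPowerSeries.coeff γ (coeff α₁ (BD.W Ξ V)) ≠ 0 := by
      by_contra h
      push Not at h
      apply hα₁'
      ext γ
      rw [h γ, map_zero]
    obtain ⟨γ, hγ⟩ := h1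
    exact ⟨_, α₁, γ, hα₁, hγ, rfl⟩
  obtain ⟨α₀, γ, hα₀, hγ, hm⟩ := Nat.find_spec hex2
  have hmin : ∀ (α γ' : ι →₀ ℕ), α.degree = p → wt H γ' < wt H γ →
      MvPowerSeries.coeff γ' (coeff α (BD.W Ξ V)) = 0 := by
    intro α γ' hα hw
    by_contra h
    rw [hm] at hw
    exact Nat.find_min hex2 hw ⟨α, γ', hα, h, rfl⟩
  -- the form
  set L : MvPolynomial ι K := ∑ α ∈ (BD.W Ξ V).support with α.degree = p,
    monomial α (MvPowerSeries.coeff γ (coeff α (BD.W Ξ V))) with hL
  have hLc : ∀ α, coeff α L = if α.degree = p then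
      MvPowerSeries.coeff γ (coeff α (BD.W Ξ V)) else 0 := by
    intro α
    rw [hL, coeff_sum]
    by_cases h : α ∈ (BD.W Ξ V).support.filter fun α => α.degree = p
    · rw [Finset.sum_eq_single_of_mem α h, coeff_monomial, if_pos rfl,
        if_pos (Finset.mem_filter.1 h).2]
      intro b _ hb
      rw [coeff_monomial, if_neg hb]
    · rw [Finset.sum_eq_zero]
      · split_ifs with h1
        · have h2 : coeff α (BD.W Ξ V) = 0 := by
            by_contra h3
            exact h (Finset.mem_filter.2 ⟨mem_support_iff.2 h3, h1⟩)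
          rw [h2, map_zero]
        · rfl
      · intro b hb
        rw [coeff_monomial, if_neg]
        rintro rfl
        exact h hb
  have hLdeg : ∀ α, coeff α L ≠ 0 → α.degree = p ∧ coeff α (BD.W Ξ V) ≠ 0 := by
    intro α hα
    rw [hLc] at hα
    by_cases h : α.degree = p
    · rw [if_pos h] at hα
      refine ⟨h, fun h1 => hα ?_⟩
      rw [h1, map_zero]
    · rw [if_neg h] at hα
      exact absurd rfl hα
  refine ⟨p, γ, L, ?_, ?_, ?_, ?_, ?_, ?_, ?_⟩
  · intro h
    have h1 := hLc α₀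
    rw [h, coeff_zero, if_pos hα₀] at h1
    exact hγ h1.symm
  · intro α hα
    exact (DFunLike.congr_fun Finsupp.degree_eq_weight_one α).symm.trans (hLdeg α hα).1
  · intro i hi
    by_contra h
    apply hγ
    rw [BD.coeff_W]
    exact BD.only_aeval hΞ.only _ γ ⟨i, hi, h⟩
  · intro α hα i
    exact (monomial_le_degreeOf i (mem_support_iff.2 (hLdeg α hα).2)).trans
      (BD.degreeOf_W Ξ V i)
  · intro i _
    ext α
    rw [coeff_zero, coeff_sum]
    have h1 : ∀ i', coeff α (C (MvPowerSeries.coeff (Finsupp.single i 1) (Ξ i')) *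
        pderiv i' L) = MvPowerSeries.coeff (Finsupp.single i 1) (Ξ i') *
          (coeff (α + Finsupp.single i' 1) L * (α i' + 1)) := by
      intro i'
      rw [coeff_C_mul, coeff_pderiv]
    rw [Finset.sum_congr rfl fun i' _ => h1 i']
    by_cases hd : α.degree + 1 = p
    · have h2 := BD.chain Ξ i V α
      rw [hpmin α (by omega), map_zero, coeff_sum] at h2
      have h3 := congrArg (MvPowerSeries.coeff γ) h2
      rw [map_zero, map_sum] at h3
      rw [h3]
      refine Finset.sum_congr rfl fun i' _ => ?_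
      have hdeg : (α + Finsupp.single i' 1).degree = p := by
        rw [map_add, Finsupp.degree_single, hd]
      have h5 : ((α i' : MvPowerSeries ι K) + 1) = MvPowerSeries.C ((α i' : K) + 1) := by simp
      rw [coeff_C_mul, coeff_pderiv, hLc, if_pos hdeg, h5, ← mul_assoc, ← mul_assoc,
        MvPowerSeries.coeff_mul_C, BD.coeff_lead H hH γ _ _ (fun γ' h => hmin _ γ' hdeg h),
        ← MvPowerSeries.coeff_zero_eq_constantCoeff_apply, MvPowerSeries.coeff_pderiv]
      simp [mul_assoc]
    · refine Finset.sum_eq_zero fun i' _ => ?_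
      rw [hLc, if_neg, zero_mul, mul_zero]
      rw [map_add, Finsupp.degree_single]
      exact hd
  · refine ⟨α₀, ?_, ?_⟩
    · intro h
      apply hγ
      rw [BD.coeff_W, h, map_zero]
    · intro γ' hw
      rw [← BD.coeff_W]
      exact hmin α₀ γ' hα₀ hw
  · intro κ _ _ η β hβ
    rw [BD.coeff_eval, hL, map_sum, coeff_sum, Finset.sum_filter, map_sum]
    refine Finset.sum_congr rfl fun α _ => ?_
    rw [MvPowerSeries.coeff_mul_C]
    split_ifs with h
    · rw [aeval_monomial, Finsupp.prod_fintype _ _ (fun i => pow_zero _)]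
      exact coeff_C_mul _ _ _
    · by_cases h1 : coeff β (∏ i, (∑ k, C (η k i) * X k : MvPolynomial κ K) ^ α i) = 0
      · rw [h1, mul_zero]
      · exact absurd ((BD.coeff_forms η β α h1).symm.trans hβ) h

end Pool.Agent.AL
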