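import Pool.Agent.Lib.MP_c95b3b_ag_AL.Defs

/-! Project AL (MP_c95b3b_ag), module BE: a non-zero coefficient. -/

namespace Pool.Agent.AL

open Pool.Agent.L3 Pool.Agent.KP Module MvPolynomial

namespace BE

/-- the chain rule -/
lemma chain {ι : Type} [Fintype ι] [DecidableEq ι] {K : Type} [Field K] (f : ι → Polynomial K)
    (L : MvPolynomial ι K) :
    Polynomial.derivative (aeval f L) =
      ∑ i, aeval f (pderiv i L) * Polynomial.derivative (f i) := by
  induction L using MvPolynomial.induction_on with
  | C a => simp [MvPolynomial.algHom_C]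
  | add p q hp hq =>
    simp only [map_add, hp, hq, add_mul, Finset.sum_add_distrib]
  | mul_X p n hp =>
    rw [map_mul, aeval_X, Polynomial.derivative_mul, hp]
    have h1 : ∀ i, aeval f (pderiv i (p * X n)) * Polynomial.derivative (f i) =
        aeval f (pderiv i p) * Polynomial.derivative (f i) * f n +
          (if i = n then aeval f p * Polynomial.derivative (f i) else 0) := by
      intro i
      rw [Derivation.leibniz, pderiv_X]
      by_cases h : i = n
      · subst h
        simp only [Pi.single_eq_same, smul_eq_mul, mul_one, map_add, map_mul, aeval_X, if_true]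
        ring
      · have h2 : (Pi.single i 1 : ι → MvPolynomial ι K) n = 0 := by
          rw [Pi.single_apply, if_neg (fun h' => h h'.symm)]
        rw [h2, if_neg h]
        simp only [smul_eq_mul, mul_zero, zero_add, map_mul, aeval_X, add_zero]
        ring
    simp only [h1]
    rw [Finset.sum_add_distrib, Finset.sum_mul]
    simp

/-- the translation by a vector killed by the derivations -/
lemma transl {ι : Type} [Fintype ι] [DecidableEq ι] {K : Type} [Field K] [CharZero K]
    (L : MvPolynomial ι K) (t : ι → K)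
    (ht : ∑ i', C (t i') * pderiv i' L = 0) (v : ι → K) : eval (v + t) L = eval v L := by
  have h1 : Polynomial.derivative
      (aeval (fun i => Polynomial.C (v i) + Polynomial.C (t i) * Polynomial.X) L) = 0 := by
    rw [chain]
    have h2 := congrArg
      (aeval (fun i => Polynomial.C (v i) + Polynomial.C (t i) * Polynomial.X)) ht
    rw [map_sum, map_zero] at h2
    rw [← h2]
    refine Finset.sum_congr rfl fun i _ => ?_
    rw [map_mul, MvPolynomial.algHom_C]
    simp only [Polynomial.derivative_add, Polynomial.derivative_C, Polynomial.derivative_C_mul,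
      Polynomial.derivative_X, mul_one, zero_add, Polynomial.algebraMap_eq]
    ring
  have h3 := Polynomial.derivative_eq_zero.1 h1
  rw [Polynomial.natDegree_eq_zero] at h3
  obtain ⟨c, hc⟩ := h3
  have h4 : ∀ x : K, eval (fun i => v i + t i * x) L = c := by
    intro x
    have h5 := congrArg (Polynomial.aeval x) hc
    rw [Polynomial.aeval_C] at h5
    have h6 := DFunLike.congr_fun (MvPolynomial.comp_aeval
      (fun i => Polynomial.C (v i) + Polynomial.C (t i) * Polynomial.X) (Polynomial.aeval x)) L
    rw [AlgHom.comp_apply] at h6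
    rw [h6] at h5
    simp only [map_add, map_mul, Polynomial.aeval_C, Polynomial.aeval_X] at h5
    rw [← MvPolynomial.coe_aeval_eq_eval]
    exact h5.symm
  have h7 := h4 0
  have h8 := h4 1
  simp only [mul_zero, add_zero, mul_one] at h7 h8
  have h9 : (v + t) = fun i => v i + t i := rfl
  rw [h9, h8, ← h7]

/-- the value of the substituted form -/
lemma eval_lin {ι κ : Type} [Fintype κ] {K : Type} [Field K]
    (L : MvPolynomial ι K) (η : κ → ι → K) (c : κ → K) :
    eval c (aeval (fun i => (∑ k, C (η k i) * X k : MvPolynomial κ K)) L) =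
      eval (∑ k, c k • η k) L := by
  have h6 := DFunLike.congr_fun (MvPolynomial.comp_aeval
      (fun i => (∑ k, C (η k i) * X k : MvPolynomial κ K)) (aeval c : MvPolynomial κ K →ₐ[K] K)) L
  rw [AlgHom.comp_apply] at h6
  rw [← MvPolynomial.coe_aeval_eq_eval, ← MvPolynomial.coe_aeval_eq_eval]
  refine Eq.trans h6 ?_
  have h7 : (fun i => (aeval c : MvPolynomial κ K →ₐ[K] K)
      (∑ k, C (η k i) * X k : MvPolynomial κ K)) = ∑ k, c k • η k := by
    funext i
    rw [Finset.sum_apply, map_sum]
    refine Finset.sum_congr rfl fun k _ => ?_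
    rw [map_mul, aeval_C, aeval_X, Pi.smul_apply, smul_eq_mul, mul_comm]
    rfl
  rw [h7]
  rfl

/-- the substituted form is homogeneous -/
lemma lin_homog {ι κ : Type} [Fintype κ] {K : Type} [Field K]
    (L : MvPolynomial ι K) (p : ℕ) (hp : L.IsHomogeneous p) (η : κ → ι → K) :
    (aeval (fun i => (∑ k, C (η k i) * X k : MvPolynomial κ K)) L).IsHomogeneous p := by
  have h1 : ∀ i, (∑ k, C (η k i) * X k : MvPolynomial κ K).IsHomogeneous 1 := by
    intro i
    refine IsHomogeneous.sum _ _ _ fun k _ => ?_
    have h2 := (isHomogeneous_C κ (η k i)).mul (isHomogeneous_X K k)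
    simpa using h2
  have h3 := hp.aeval (fun i => (∑ k, C (η k i) * X k : MvPolynomial κ K)) h1
  simpa using h3

/-- the weights of the blocks -/
lemma wblock {ι κ : Type} [Fintype ι] [DecidableEq ι] [Fintype κ] [DecidableEq κ]
    {K : Type} [Field K] {q : ℕ} (blk : ι → Fin (q + 1)) (bk : κ → Fin (q + 1))
    (η : κ → ι → K) (hη : ∀ k i, blk i ≠ bk k → η k i = 0) (α : ι →₀ ℕ) (j : Fin (q + 1)) :
    (∏ i, (∑ k, C (η k i) * X k : MvPolynomial κ K) ^ α i).IsWeightedHomogeneous
      (fun k => if bk k = j then 1 else 0) (∑ i with blk i = j, α i) := by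
  have h1 : ∀ i, (∑ k, C (η k i) * X k : MvPolynomial κ K).IsWeightedHomogeneous
      (fun k => if bk k = j then 1 else 0) (if blk i = j then 1 else 0) := by
    intro i
    refine IsWeightedHomogeneous.sum _ _ _ fun k _ => ?_
    by_cases h : blk i = bk k
    · have h2 := (isWeightedHomogeneous_C (R := K) (fun k => if bk k = j then 1 else 0)
        (η k i)).mul (isWeightedHomogeneous_X K (fun k => if bk k = j then 1 else 0) k)
      rw [h]
      simpa using h2
    · rw [hη k i h, C_0, zero_mul]
      exact isWeightedHomogeneous_zero _ _ _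
  have h4 : ∑ i with blk i = j, α i = ∑ i, α i • (if blk i = j then 1 else 0) := by
    rw [Finset.sum_filter]
    refine Finset.sum_congr rfl fun i _ => ?_
    split <;> simp
  rw [h4]
  exact IsWeightedHomogeneous.prod _ _ _ fun i _ => (h1 i).pow (α i)

end BE

theorem exists_beta {ι κ : Type} [Fintype ι] [DecidableEq ι] [Fintype κ] [DecidableEq κ]
    {K : Type} [Field K] [CharZero K] {q : ℕ} (blk : ι → Fin (q + 1)) (bk : κ → Fin (q + 1))
    (L : MvPolynomial ι K) (hL : L ≠ 0) (p : ℕ) (hp : L.IsHomogeneous p) (d : ι → ℕ)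
    (hd : ∀ α, coeff α L ≠ 0 → ∀ i, α i ≤ d i) (T : Submodule K (ι → K))
    (hT : ∀ t ∈ T, ∑ i', C (t i') * pderiv i' L = 0) (η : κ → ι → K)
    (hspan : ∀ v : ι → K, ∃ c : κ → K, v - ∑ k, c k • η k ∈ T)
    (hη : ∀ k i, blk i ≠ bk k → η k i = 0) :
    ∃ β : κ →₀ ℕ, β.degree = p ∧
      coeff β (aeval (fun i => (∑ k, C (η k i) * X k : MvPolynomial κ K)) L) ≠ 0 ∧
      (∀ j, ∑ k with bk k = j, β k ≤ ∑ i with blk i = j, d i) ∧
      ∀ η' : κ → ι → K, (∀ k, η' k - η k ∈ T) →
        coeff β (aeval (fun i => (∑ k, C (η' k i) * X k : MvPolynomial κ K)) L) =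
          coeff β (aeval (fun i => (∑ k, C (η k i) * X k : MvPolynomial κ K)) L) := by
  have hne : aeval (fun i => (∑ k, C (η k i) * X k : MvPolynomial κ K)) L ≠ 0 := by
    intro h0
    apply hL
    apply MvPolynomial.funext
    intro v
    obtain ⟨c, hc⟩ := hspan v
    have h1 := BE.transl L _ (hT _ hc) (∑ k, c k • η k)
    rw [add_sub_cancel] at h1
    rw [h1, ← BE.eval_lin L η c, h0, map_zero, map_zero]
  obtain ⟨β, hβ⟩ := MvPolynomial.exists_coeff_ne_zero hne
  refine ⟨β, ?_, hβ, ?_, ?_⟩
  · have h1 := BE.lin_homog L p hp η hβ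
    rw [← h1]
    simp [Finsupp.degree_eq_weight_one]
    rfl
  · intro j
    have h2 : ∃ α, coeff α L ≠ 0 ∧
        coeff β (∏ i, (∑ k, C (η k i) * X k : MvPolynomial κ K) ^ α i) ≠ 0 := by
      by_contra hno
      push Not at hno
      apply hβ
      rw [MvPolynomial.aeval_def, MvPolynomial.eval₂_eq', MvPolynomial.coeff_sum]
      refine Finset.sum_eq_zero fun α hα => ?_
      rw [MvPolynomial.algebraMap_eq, MvPolynomial.coeff_C_mul,
        hno α (MvPolynomial.mem_support_iff.1 hα), mul_zero]
    obtain ⟨α, hα, hα2⟩ := h2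
    have h3 := BE.wblock blk bk η hη α j hα2
    have h4 : Finsupp.weight (fun k => if bk k = j then 1 else 0) β = ∑ k with bk k = j, β k := by
      rw [Finsupp.weight_apply, Finsupp.sum_fintype _ _ (fun i => by simp), Finset.sum_filter]
      refine Finset.sum_congr rfl fun k _ => ?_
      split <;> simp
    rw [h4] at h3
    rw [h3]
    exact Finset.sum_le_sum fun i _ => hd α hα i
  · intro η' hη'
    have h1 : aeval (fun i => (∑ k, C (η' k i) * X k : MvPolynomial κ K)) L =
        aeval (fun i => (∑ k, C (η k i) * X k : MvPolynomial κ K)) L := by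
      apply MvPolynomial.funext
      intro c
      rw [BE.eval_lin, BE.eval_lin]
      have h2 : ∑ k, c k • (η' k - η k) ∈ T :=
        T.sum_mem fun k _ => T.smul_mem _ (hη' k)
      have h3 := BE.transl L _ (hT _ h2) (∑ k, c k • η k)
      have h4 : ∑ k, c k • η k + ∑ k, c k • (η' k - η k) = ∑ k, c k • η' k := by
        rw [← Finset.sum_add_distrib]
        refine Finset.sum_congr rfl fun k _ => ?_
        rw [smul_sub, add_sub_cancel]
      rw [h4] at h3
      exact h3
    rw [h1]

end Pool.Agent.AL
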