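import Pool.Agent.Lib.MP_c95b3b_ag_AL.BA

/-! Project AL (MP_c95b3b_ag), module BF: the norm at a place. -/

namespace Pool.Agent.AL

open Pool.Agent.L3 Pool.Agent.KP Module MvPolynomial

/-- the norm at a place -/
theorem exists_nmP {K : Type} [Field K] {S : Subring K} (P : Places K S) (w : P.Pl) :
    ∃ ν : Nm K (kap w), ∀ x, ν.N x = ENNReal.ofReal (absP w x) := by
  rcases w with i | j
  · refine ⟨⟨fun x => ENNReal.ofReal ‖P.σ i x‖, ?_, ?_, ?_, ?_, ?_, ?_⟩, fun x => rfl⟩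
    · simp
    · simp
    · intro a
      simp
    · intro a b
      rw [← ENNReal.ofReal_add (norm_nonneg _) (norm_nonneg _), map_add]
      exact ENNReal.ofReal_le_ofReal (norm_add_le _ _)
    · intro a b
      rw [← ENNReal.ofReal_mul (norm_nonneg _), map_mul, norm_mul]
    · intro h
      exact absurd h one_ne_zero
  · refine ⟨⟨fun x => ENNReal.ofReal (P.v j x), ?_, ?_, ?_, ?_, ?_, ?_⟩, fun x => rfl⟩
    · simp
    · simp
    · intro a
      simp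
    · intro a b
      rw [← ENNReal.ofReal_add ((P.v j).nonneg _) ((P.v j).nonneg _)]
      exact ENNReal.ofReal_le_ofReal ((P.v j).add_le _ _)
    · intro a b
      rw [← ENNReal.ofReal_mul ((P.v j).nonneg _), map_mul]
    · intro _ a b
      rw [← ENNReal.ofReal_max]
      exact ENNReal.ofReal_le_ofReal (P.nonarch j a b)

namespace BF

theorem absP_nonneg {K : Type} [Field K] {S : Subring K} {P : Places K S} (w : P.Pl) (x : K) :
    0 ≤ absP w x := by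
  rcases w with i | j
  · exact norm_nonneg (P.σ i x)
  · exact (P.v j).nonneg x

theorem absP_pos {K : Type} [Field K] {S : Subring K} {P : Places K S} (w : P.Pl) (x : K)
    (hx : x ≠ 0) : 0 < absP w x := by
  rcases w with i | j
  · exact norm_pos_iff.mpr ((map_ne_zero (P.σ i)).mpr hx)
  · exact (P.v j).pos hx

theorem N_sum {A : Type} [CommRing A] {c : ℕ} (ν : Nm A c) {ι : Type} (s : Finset ι)
    (f : ι → A) : ν.N (∑ i ∈ s, f i) ≤ ∑ i ∈ s, ν.N (f i) := by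
  classical
  induction s using Finset.induction_on with
  | empty => simp [ν.zero]
  | insert a s ha ih =>
    rw [Finset.sum_insert ha, Finset.sum_insert ha]
    exact (ν.add _ _).trans (add_le_add le_rfl ih)

theorem N_add {B : Type} [CommRing B] {c : ℕ} (hc : c ≤ 1) (μ : Nm B c) (x δ : B) (u r : ℝ)
    (hr : 0 ≤ r) (hru : r ≤ u) (m : ℕ) (hx : μ.N x ≤ ENNReal.ofReal u)
    (hδ : μ.N δ ≤ ((m + 1 : ℕ) : ENNReal) ^ c * ENNReal.ofReal r) :
    μ.N (x + δ) ≤ ENNReal.ofReal (u * ((m : ℝ) + 2) ^ c) := by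
  have hu : 0 ≤ u := hr.trans hru
  rcases Nat.le_one_iff_eq_zero_or_eq_one.mp hc with rfl | rfl
  · rw [pow_zero, one_mul] at hδ
    rw [pow_zero, mul_one]
    refine (μ.ultra rfl x δ).trans (max_le hx (hδ.trans (ENNReal.ofReal_le_ofReal hru)))
  · rw [pow_one] at hδ
    rw [pow_one]
    refine (μ.add x δ).trans ((add_le_add hx hδ).trans ?_)
    have h1 : ((m + 1 : ℕ) : ENNReal) = ENNReal.ofReal ((m : ℝ) + 1) := by
      rw [← ENNReal.ofReal_natCast]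
      congr 1
      push_cast
      ring
    rw [h1, ← ENNReal.ofReal_mul (by positivity), ← ENNReal.ofReal_add hu (by positivity)]
    apply ENNReal.ofReal_le_ofReal
    nlinarith [mul_le_mul_of_nonneg_left hru (by positivity : (0 : ℝ) ≤ (m : ℝ) + 1)]

theorem real_term {ι : Type} [Fintype ι] (u v : ι → ℝ) (hu : ∀ i, 0 < u i) (hv : ∀ i, 0 < v i)
    (M : ℝ) (hM : 1 ≤ M) (t : ι → ℕ × ℕ) (E b : ℝ)
    (hE : ∑ i, (((t i).1 : ℝ) + ((t i).2 : ℝ)) ≤ E)
    (hb : ∑ i, (((t i).1 : ℝ) * Real.log (u i) + ((t i).2 : ℝ) * Real.log (v i)) ≤ b) :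
    ∏ i, ((u i * M) ^ (t i).1 * (v i * M) ^ (t i).2) ≤ Real.exp b * M ^ E := by
  have hM0 : 0 < M := by linarith
  have h1 : ∀ i, (u i * M) ^ (t i).1 * (v i * M) ^ (t i).2 =
      Real.exp (((t i).1 : ℝ) * Real.log (u i) + ((t i).2 : ℝ) * Real.log (v i)) *
        M ^ (((t i).1 : ℝ) + ((t i).2 : ℝ)) := by
    intro i
    rw [Real.exp_add, Real.rpow_add hM0, Real.rpow_natCast, Real.rpow_natCast, mul_comm _
      (Real.log (u i)), mul_comm _ (Real.log (v i)), Real.exp_mul, Real.exp_mul,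
      Real.exp_log (hu i), Real.exp_log (hv i), Real.rpow_natCast, Real.rpow_natCast, mul_pow,
      mul_pow]
    ring
  rw [Finset.prod_congr rfl fun i _ => h1 i, Finset.prod_mul_distrib, ← Real.exp_sum,
    ← Real.rpow_sum_of_pos hM0]
  exact mul_le_mul (Real.exp_le_exp.mpr hb) (Real.rpow_le_rpow_of_exponent_le hM hE)
    (Real.rpow_nonneg hM0.le _) (Real.exp_pos _).le

theorem N_term {ι B : Type} [Fintype ι] [CommRing B] {c : ℕ} (hc : c ≤ 1) (μ : Nm B c)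
    (A : ι → B) (u v : ι → ℝ) (hu : ∀ i, 0 < u i) (hv : ∀ i, 0 < v i) (M : ℝ) (hM : 1 ≤ M)
    (hA : ∀ i, μ.N (A i) ≤ ENNReal.ofReal (u i * M))
    (hA' : ∀ i, μ.N (1 - A i) ≤ ENNReal.ofReal (v i * M)) (t : ι → ℕ × ℕ) (E b : ℝ)
    (hE : ∑ i, (((t i).1 : ℝ) + ((t i).2 : ℝ)) ≤ E)
    (hb : ∑ i, (((t i).1 : ℝ) * Real.log (u i) + ((t i).2 : ℝ) * Real.log (v i)) ≤ b) (n : ℤ) :
    μ.N ((n : B) * ∏ i, (A i ^ (t i).1 * (1 - A i) ^ (t i).2)) ≤
      ENNReal.ofReal (|(n : ℝ)| ^ c * (Real.exp b * M ^ E)) := by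
  have hM0 : 0 < M := by linarith
  refine (μ.mul _ _).trans ?_
  rw [ENNReal.ofReal_mul (by positivity)]
  refine mul_le_mul' ?_ ?_
  · refine (Nm.int_le μ hc n).trans (le_of_eq ?_)
    rw [ENNReal.ofReal_pow (abs_nonneg _)]
    congr 1
    rw [← ENNReal.ofReal_natCast]
    congr 1
    rw [Nat.cast_natAbs]
    simp
  · refine (Nm.prod_le μ _ _).trans ?_
    have h2 : ∀ i ∈ (Finset.univ : Finset ι), μ.N (A i ^ (t i).1 * (1 - A i) ^ (t i).2) ≤
        ENNReal.ofReal ((u i * M) ^ (t i).1 * (v i * M) ^ (t i).2) := by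
      intro i _
      have hu' : 0 ≤ u i * M := (mul_pos (hu i) hM0).le
      have hv' : 0 ≤ v i * M := (mul_pos (hv i) hM0).le
      refine (μ.mul _ _).trans ?_
      rw [ENNReal.ofReal_mul (pow_nonneg hu' _), ENNReal.ofReal_pow hu', ENNReal.ofReal_pow hv']
      exact mul_le_mul' ((Nm.pow_le μ _ _).trans (pow_le_pow_left' (hA i) _))
        ((Nm.pow_le μ _ _).trans (pow_le_pow_left' (hA' i) _))
    refine (Finset.prod_le_prod' h2).trans ?_
    rw [← ENNReal.ofReal_prod_of_nonneg]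
    · exact ENNReal.ofReal_le_ofReal (real_term u v hu hv M hM t E b hE hb)
    · intro i _
      have hu' : 0 ≤ u i * M := (mul_pos (hu i) hM0).le
      have hv' : 0 ≤ v i * M := (mul_pos (hv i) hM0).le
      positivity

theorem N_rep {ι B : Type} [Fintype ι] [CommRing B] [Algebra ℤ B] {c : ℕ} (hc : c ≤ 1)
    (μ : Nm B c)
    (A : ι → B) (u v : ι → ℝ) (hu : ∀ i, 0 < u i) (hv : ∀ i, 0 < v i) (M : ℝ) (hM : 1 ≤ M)
    (hA : ∀ i, μ.N (A i) ≤ ENNReal.ofReal (u i * M))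
    (hA' : ∀ i, μ.N (1 - A i) ≤ ENNReal.ofReal (v i * M)) (T : Finset (ι → ℕ × ℕ))
    (q : (ι → ℕ × ℕ) → ℤ) (E b : ℝ)
    (hE : ∀ t ∈ T, ∑ i, (((t i).1 : ℝ) + ((t i).2 : ℝ)) ≤ E)
    (hb : ∀ t ∈ T, ∑ i, (((t i).1 : ℝ) * Real.log (u i) + ((t i).2 : ℝ) * Real.log (v i)) ≤ b) :
    μ.N (aeval A (rep T q)) ≤
      ENNReal.ofReal ((∑ t ∈ T, |(q t : ℝ)|) ^ c * (Real.exp b * M ^ E)) := by
  have hM0 : 0 < M := by linarith
  have h0 : aeval A (rep T q) =
      ∑ t ∈ T, ((q t : ℤ) : B) * ∏ i, (A i ^ (t i).1 * (1 - A i) ^ (t i).2) := by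
    simp [rep, map_sum, map_prod]
  rw [h0]
  have h1 : ∀ t ∈ T, μ.N (((q t : ℤ) : B) * ∏ i, (A i ^ (t i).1 * (1 - A i) ^ (t i).2)) ≤
      ENNReal.ofReal (|(q t : ℝ)| ^ c * (Real.exp b * M ^ E)) := fun t ht =>
    N_term hc μ A u v hu hv M hM hA hA' t E b (hE t ht) (hb t ht) (q t)
  rcases Nat.le_one_iff_eq_zero_or_eq_one.mp hc with rfl | rfl
  · simp only [pow_zero, one_mul] at h1 ⊢
    refine (Nm.sum_le μ hc T _ _ h1).trans (le_of_eq ?_)
    simp
  · simp only [pow_one] at h1 ⊢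
    refine (N_sum μ T _).trans ((Finset.sum_le_sum h1).trans (le_of_eq ?_))
    rw [← ENNReal.ofReal_sum_of_nonneg (fun t _ => by positivity), Finset.sum_mul]

theorem main {ι κ K : Type} [Fintype ι] [DecidableEq ι] [Fintype κ] [DecidableEq κ] [Field K]
    {c : ℕ} (hc : c ≤ 1) (ν : Nm K c) (a : K → ℝ) (a0 : ∀ x, 0 ≤ a x)
    (ap : ∀ x, x ≠ 0 → 0 < a x) (hν : ∀ x, ν.N x = ENNReal.ofReal (a x)) (U : ι → K)
    (hU : ∀ i, U i ≠ 0 ∧ U i ≠ 1)
    (Ξ : ι → MvPowerSeries ι K) (η : κ → ι → K) (R : ι → ℝ) (hR : ∀ i, 0 < R i) (σ : κ → ℝ)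
    (T : Finset (ι → ℕ × ℕ)) (q : (ι → ℕ × ℕ) → ℤ) (E : ℝ)
    (hE : ∀ t ∈ T, ∑ i, (((t i).1 : ℝ) + ((t i).2 : ℝ)) ≤ E) (b : ℝ)
    (hb : ∀ t ∈ T, ∑ i, (((t i).1 : ℝ) * Real.log (a (U i)) +
      ((t i).2 : ℝ) * Real.log (a (1 - U i))) ≤ b)
    (h1 : ∀ i, psN ν (fun i => ENNReal.ofReal (R i)) (Ξ i - MvPowerSeries.C (U i)) ≤
      ENNReal.ofReal (min (a (U i)) (a (1 - U i))))
    (h2 : ∀ k i, a (η k i) ≤ Real.exp (σ k) * min (a (U i)) (a (1 - U i)))
    (β : κ →₀ ℕ) (γ : ι →₀ ℕ) (y : K)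
    (hy : y = MvPowerSeries.coeff γ (MvPowerSeries.coeff β
            (aeval (fun i => (MvPowerSeries.C (Ξ i) +
              ∑ k, MvPowerSeries.C (MvPowerSeries.C (η k i)) * MvPowerSeries.X k :
                MvPowerSeries κ (MvPowerSeries ι K))) (rep T q)))) (hy0 : y ≠ 0) :
    Real.log (a y) ≤ b + ∑ i, (γ i : ℝ) * (-Real.log (R i)) + ∑ k, (β k : ℝ) * σ k +
      (c : ℝ) * (Real.log (∑ t ∈ T, |(q t : ℝ)|) + E * Real.log (Fintype.card κ + 2)) := by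
  obtain ⟨μ, hμ⟩ := exists_ps ν (fun i => ENNReal.ofReal (R i))
  obtain ⟨μ₂, hμ₂⟩ := exists_ps μ (fun k : κ => ENNReal.ofReal (Real.exp (-σ k)))
  set A : ι → MvPowerSeries κ (MvPowerSeries ι K) := fun i => (MvPowerSeries.C (Ξ i) +
      ∑ k, MvPowerSeries.C (MvPowerSeries.C (η k i)) * MvPowerSeries.X k) with hAdef
  set m : ℕ := Fintype.card κ with hm
  have hu : ∀ i, 0 < a (U i) := fun i => ap _ (hU i).1
  have hv : ∀ i, 0 < a (1 - U i) := fun i => ap _ (sub_ne_zero.mpr (Ne.symm (hU i).2))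
  set r : ι → ℝ := fun i => min (a (U i)) (a (1 - U i)) with hr
  have hr0 : ∀ i, 0 ≤ r i := fun i => le_min (a0 _) (a0 _)
  set f : ι → Option κ → MvPowerSeries κ (MvPowerSeries ι K) := fun i o =>
    o.elim (MvPowerSeries.C (Ξ i - MvPowerSeries.C (U i)))
      (fun k => MvPowerSeries.C (MvPowerSeries.C (η k i)) * MvPowerSeries.X k) with hf
  set δ : ι → MvPowerSeries κ (MvPowerSeries ι K) := fun i => ∑ o, f i o with hδdef
  have hCC : ∀ x : K, μ₂.N (MvPowerSeries.C (MvPowerSeries.C x)) = ENNReal.ofReal (a x) := by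
    intro x
    rw [hμ₂, psN_C, hμ, psN_C, hν]
  have hδ : ∀ i, μ₂.N (δ i) ≤ ((m + 1 : ℕ) : ENNReal) ^ c * ENNReal.ofReal (r i) := by
    intro i
    have h3 : ∀ o ∈ (Finset.univ : Finset (Option κ)), μ₂.N (f i o) ≤ ENNReal.ofReal (r i) := by
      intro o _
      rcases o with _ | k
      · change μ₂.N (MvPowerSeries.C (Ξ i - MvPowerSeries.C (U i))) ≤ _
        rw [hμ₂, psN_C, hμ]
        exact h1 i
      · change μ₂.N (MvPowerSeries.C (MvPowerSeries.C (η k i)) * MvPowerSeries.X k) ≤ _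
        refine (μ₂.mul _ _).trans ?_
        rw [hCC]
        have h4 : μ₂.N (MvPowerSeries.X k) ≤ ENNReal.ofReal (Real.exp (-σ k)) := by
          rw [hμ₂]
          exact psN_X μ _ k
        refine (mul_le_mul' le_rfl h4).trans ?_
        rw [← ENNReal.ofReal_mul (a0 _)]
        apply ENNReal.ofReal_le_ofReal
        have h5 := h2 k i
        have h6 : 0 < Real.exp (-σ k) := Real.exp_pos _
        calc a (η k i) * Real.exp (-σ k)
            ≤ (Real.exp (σ k) * r i) * Real.exp (-σ k) := mul_le_mul_of_nonneg_right h5 h6.le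
          _ = (Real.exp (σ k) * Real.exp (-σ k)) * r i := by ring
          _ = r i := by rw [← Real.exp_add, add_neg_cancel, Real.exp_zero, one_mul]
    refine (Nm.sum_le μ₂ hc Finset.univ (f i) _ h3).trans (le_of_eq ?_)
    rw [Finset.card_univ, Fintype.card_option]
  have hAi : ∀ i, A i = MvPowerSeries.C (MvPowerSeries.C (U i)) + δ i := by
    intro i
    simp only [hAdef, hδdef, hf, Fintype.sum_option, Option.elim_none, Option.elim_some, map_sub]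
    ring
  have hAi' : ∀ i, 1 - A i = MvPowerSeries.C (MvPowerSeries.C (1 - U i)) + (-δ i) := by
    intro i
    rw [hAi]
    simp only [map_sub, map_one]
    ring
  set M : ℝ := ((m : ℝ) + 2) ^ c with hMdef
  have hm2 : (1 : ℝ) ≤ (m : ℝ) + 2 := by
    have : (0 : ℝ) ≤ (m : ℝ) := Nat.cast_nonneg m
    linarith
  have hM : 1 ≤ M := one_le_pow₀ hm2
  have hM0 : 0 < M := by linarith
  have hA : ∀ i, μ₂.N (A i) ≤ ENNReal.ofReal (a (U i) * M) := by
    intro i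
    rw [hAi]
    exact N_add hc μ₂ _ _ _ (r i) (hr0 i) (min_le_left _ _) m (hCC _).le (hδ i)
  have hA' : ∀ i, μ₂.N (1 - A i) ≤ ENNReal.ofReal (a (1 - U i) * M) := by
    intro i
    rw [hAi']
    refine N_add hc μ₂ _ _ _ (r i) (hr0 i) (min_le_right _ _) m (hCC _).le ?_
    rw [μ₂.neg]
    exact hδ i
  have hF := N_rep hc μ₂ A (fun i => a (U i)) (fun i => a (1 - U i)) hu hv M hM hA hA' T q E b
    hE hb
  have h5 := coeff_le_psN μ (fun k : κ => ENNReal.ofReal (Real.exp (-σ k)))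
    (aeval A (rep T q)) β
  rw [← hμ₂] at h5
  have h6 := coeff_le_psN ν (fun i => ENNReal.ofReal (R i))
    (MvPowerSeries.coeff β (aeval A (rep T q))) γ
  rw [← hμ, ← hy, hν] at h6
  have h7 : ENNReal.ofReal (a y) * (∏ i, ENNReal.ofReal (R i) ^ γ i) *
      ∏ k, ENNReal.ofReal (Real.exp (-σ k)) ^ β k ≤
      ENNReal.ofReal ((∑ t ∈ T, |(q t : ℝ)|) ^ c * (Real.exp b * M ^ E)) :=
    ((mul_le_mul' h6 le_rfl).trans h5).trans hF
  have h8 : (∏ i, ENNReal.ofReal (R i) ^ γ i) = ENNReal.ofReal (∏ i, R i ^ γ i) := by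
    rw [ENNReal.ofReal_prod_of_nonneg (fun i _ => pow_nonneg (hR i).le _)]
    exact Finset.prod_congr rfl fun i _ => (ENNReal.ofReal_pow (hR i).le _).symm
  have h9 : (∏ k, ENNReal.ofReal (Real.exp (-σ k)) ^ β k) =
      ENNReal.ofReal (∏ k, Real.exp (-σ k) ^ β k) := by
    rw [ENNReal.ofReal_prod_of_nonneg (fun i _ => pow_nonneg (Real.exp_pos _).le _)]
    exact Finset.prod_congr rfl fun i _ => (ENNReal.ofReal_pow (Real.exp_pos _).le _).symm
  have hRp : 0 < ∏ i, R i ^ γ i := Finset.prod_pos fun i _ => pow_pos (hR i) _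
  have hEp : 0 < ∏ k, Real.exp (-σ k) ^ β k := Finset.prod_pos fun k _ => pow_pos (Real.exp_pos _) _
  have hyp : 0 < a y := ap y hy0
  rw [h8, h9, ← ENNReal.ofReal_mul hyp.le, ← ENNReal.ofReal_mul (mul_pos hyp hRp).le] at h7
  have hQ0 : 0 ≤ (∑ t ∈ T, |(q t : ℝ)|) := Finset.sum_nonneg fun t _ => abs_nonneg _
  have hrhs : 0 ≤ (∑ t ∈ T, |(q t : ℝ)|) ^ c * (Real.exp b * M ^ E) :=
    mul_nonneg (pow_nonneg hQ0 _) (mul_nonneg (Real.exp_pos _).le (Real.rpow_nonneg hM0.le _))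
  rw [ENNReal.ofReal_le_ofReal_iff hrhs] at h7
  have hlhs : 0 < a y * (∏ i, R i ^ γ i) * ∏ k, Real.exp (-σ k) ^ β k :=
    mul_pos (mul_pos hyp hRp) hEp
  have hQc : (∑ t ∈ T, |(q t : ℝ)|) ^ c ≠ 0 := by
    intro h
    rw [h, zero_mul] at h7
    linarith
  have h10 := Real.log_le_log hlhs h7
  rw [Real.log_mul (mul_pos hyp hRp).ne' hEp.ne', Real.log_mul hyp.ne' hRp.ne',
    Real.log_mul hQc (mul_pos (Real.exp_pos _) (Real.rpow_pos_of_pos hM0 _)).ne',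
    Real.log_mul (Real.exp_pos _).ne' (Real.rpow_pos_of_pos hM0 _).ne', Real.log_exp,
    Real.log_rpow hM0, Real.log_pow, Real.log_prod (fun i _ => (pow_pos (hR i) _).ne'),
    Real.log_prod (fun k _ => (pow_pos (Real.exp_pos _) _).ne'), hMdef, Real.log_pow] at h10
  simp only [Real.log_pow, Real.log_exp] at h10
  have h11 : ∑ i, (γ i : ℝ) * (-Real.log (R i)) = - ∑ i, (γ i : ℝ) * Real.log (R i) := by
    rw [← Finset.sum_neg_distrib]
    exact Finset.sum_congr rfl fun i _ => by ring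
  have h12 : ∑ k, (β k : ℝ) * -σ k = - ∑ k, (β k : ℝ) * σ k := by
    rw [← Finset.sum_neg_distrib]
    exact Finset.sum_congr rfl fun i _ => by ring
  rw [h12] at h10
  rw [h11]
  linarith

end BF

theorem local_bound {ι κ : Type} [Fintype ι] [DecidableEq ι] [Fintype κ] [DecidableEq κ]
    {K : Type} [Field K] {S : Subring K} (P : Places K S) (w : P.Pl) (ν : Nm K (kap w))
    (hν : ∀ x, ν.N x = ENNReal.ofReal (absP w x)) (U : ι → K) (hU : ∀ i, U i ≠ 0 ∧ U i ≠ 1)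
    (Ξ : ι → MvPowerSeries ι K) (η : κ → ι → K) (R : ι → ℝ) (hR : ∀ i, 0 < R i) (σ : κ → ℝ)
    (T : Finset (ι → ℕ × ℕ)) (q : (ι → ℕ × ℕ) → ℤ) (E : ℝ)
    (hE : ∀ t ∈ T, ∑ i, (((t i).1 : ℝ) + ((t i).2 : ℝ)) ≤ E) (b : ℝ)
    (hb : ∀ t ∈ T, ∑ i, (((t i).1 : ℝ) * P.lg w (U i) + ((t i).2 : ℝ) * P.lg w (1 - U i)) ≤ b)
    (h1 : ∀ i, psN ν (fun i => ENNReal.ofReal (R i)) (Ξ i - MvPowerSeries.C (U i)) ≤
      ENNReal.ofReal (min (absP w (U i)) (absP w (1 - U i))))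
    (h2 : ∀ k i, absP w (η k i) ≤ Real.exp (σ k) * min (absP w (U i)) (absP w (1 - U i)))
    (β : κ →₀ ℕ) (γ : ι →₀ ℕ) (y : K)
    (hy : y = MvPowerSeries.coeff γ (MvPowerSeries.coeff β
            (aeval (fun i => (MvPowerSeries.C (Ξ i) +
              ∑ k, MvPowerSeries.C (MvPowerSeries.C (η k i)) * MvPowerSeries.X k :
                MvPowerSeries κ (MvPowerSeries ι K))) (rep T q)))) (hy0 : y ≠ 0) :
    P.lg w y ≤ b + ∑ i, (γ i : ℝ) * (-Real.log (R i)) + ∑ k, (β k : ℝ) * σ k +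
      P.arch w * (Real.log (∑ t ∈ T, |(q t : ℝ)|) + E * Real.log (Fintype.card κ + 2)) := by
  have hc : kap w ≤ 1 := by
    rcases w with i | j
    · exact le_refl 1
    · exact zero_le_one
  have harch : P.arch w = ((kap w : ℕ) : ℝ) := by
    rcases w with i | j
    · change (1 : ℝ) = ((1 : ℕ) : ℝ)
      simp
    · change (0 : ℝ) = ((0 : ℕ) : ℝ)
      simp
  rw [harch]
  exact BF.main hc ν (absP w) (BF.absP_nonneg w) (BF.absP_pos w) hν U hU Ξ η R hR σ T q E hE b hb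
    h1 h2 β γ y hy hy0

end Pool.Agent.AL
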