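import Pool.Agent.Lib.MP_c95b3b_ag_AL.Defs

/-! Project AL (MP_c95b3b_ag), module ZA: the norm l1. -/

namespace Pool.Agent.AL

open Pool.Agent.L3 Pool.Agent.KP Module MvPolynomial

namespace ZA

/-- sub-additive and sub-multiplicative functions on a ring -/
structure Nu (R : Type) [CommRing R] where
  N : R → ℝ
  zero : N 0 = 0
  one : N 1 ≤ 1
  nonneg : ∀ a, 0 ≤ N a
  add : ∀ a b, N (a + b) ≤ N a + N b
  mul : ∀ a b, N (a * b) ≤ N a * N b

variable {ι R : Type} [CommRing R] (ν : Nu R)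

/-- the sum over the coefficients -/
noncomputable def L (f : MvPolynomial ι R) : ℝ := ∑ m ∈ f.support, ν.N (coeff m f)

theorem L_eq {f : MvPolynomial ι R} {s : Finset (ι →₀ ℕ)} (h : f.support ⊆ s) :
    L ν f = ∑ m ∈ s, ν.N (coeff m f) := by
  unfold L
  refine Finset.sum_subset h (fun m _ hm => ?_)
  rw [notMem_support_iff.mp hm, ν.zero]

theorem L_nonneg (f : MvPolynomial ι R) : 0 ≤ L ν f :=
  Finset.sum_nonneg (fun _ _ => ν.nonneg _)

theorem L_zero : L ν (0 : MvPolynomial ι R) = 0 := by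
  unfold L
  simp

theorem L_add (f g : MvPolynomial ι R) : L ν (f + g) ≤ L ν f + L ν g := by
  classical
  rw [L_eq ν (support_add : (f + g).support ⊆ f.support ∪ g.support),
    L_eq ν (Finset.subset_union_left : f.support ⊆ f.support ∪ g.support),
    L_eq ν (Finset.subset_union_right : g.support ⊆ f.support ∪ g.support),
    ← Finset.sum_add_distrib]
  refine Finset.sum_le_sum (fun m _ => ?_)
  rw [coeff_add]
  exact ν.add _ _

theorem L_sum {κ : Type} (s : Finset κ) (f : κ → MvPolynomial ι R) :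
    L ν (∑ k ∈ s, f k) ≤ ∑ k ∈ s, L ν (f k) := by
  classical
  induction s using Finset.induction_on with
  | empty => simp [L_zero]
  | insert a s ha ih =>
    rw [Finset.sum_insert ha, Finset.sum_insert ha]
    exact le_trans (L_add ν _ _) (by linarith)

theorem L_monomial (m : ι →₀ ℕ) (a : R) : L ν (monomial m a) = ν.N a := by
  classical
  rw [L_eq ν (support_monomial_subset : (monomial m a).support ⊆ {m}), Finset.sum_singleton,
    coeff_monomial, if_pos rfl]

theorem L_mul (f g : MvPolynomial ι R) : L ν (f * g) ≤ L ν f * L ν g := by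
  have h1 : f * g = ∑ m ∈ f.support, ∑ n ∈ g.support,
      monomial (m + n) (coeff m f * coeff n g) := by
    conv_lhs => rw [f.as_sum, g.as_sum, Finset.sum_mul_sum]
    refine Finset.sum_congr rfl (fun m _ => Finset.sum_congr rfl (fun n _ => ?_))
    rw [monomial_mul]
  rw [h1]
  refine le_trans (L_sum ν _ _) ?_
  unfold L
  rw [Finset.sum_mul_sum]
  refine Finset.sum_le_sum (fun m _ => ?_)
  refine le_trans (L_sum ν _ _) (Finset.sum_le_sum (fun n _ => ?_))
  rw [L_monomial]
  exact ν.mul _ _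

theorem L_one : L ν (1 : MvPolynomial ι R) ≤ 1 := by
  have h : (1 : MvPolynomial ι R) = monomial 0 1 := rfl
  rw [h, L_monomial]
  exact ν.one

theorem L_prod {κ : Type} (s : Finset κ) (f : κ → MvPolynomial ι R) :
    L ν (∏ k ∈ s, f k) ≤ ∏ k ∈ s, L ν (f k) := by
  classical
  induction s using Finset.induction_on with
  | empty => simpa using L_one ν
  | insert a s ha ih =>
    rw [Finset.prod_insert ha, Finset.prod_insert ha]
    exact le_trans (L_mul ν _ _) (mul_le_mul_of_nonneg_left ih (L_nonneg ν _))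

theorem L_pow (f : MvPolynomial ι R) (n : ℕ) : L ν (f ^ n) ≤ L ν f ^ n := by
  induction n with
  | zero => simpa using L_one ν
  | succ n ih =>
    rw [pow_succ, pow_succ]
    exact le_trans (L_mul ν _ _) (mul_le_mul_of_nonneg_right ih (L_nonneg ν _))

theorem N_coeff_le (f : MvPolynomial ι R) (m : ι →₀ ℕ) : ν.N (coeff m f) ≤ L ν f := by
  by_cases h : m ∈ f.support
  · exact Finset.single_le_sum (f := fun m => ν.N (coeff m f)) (fun _ _ => ν.nonneg _) h
  · rw [notMem_support_iff.mp h, ν.zero]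
    exact L_nonneg ν f

/-- the absolute value of an integer -/
def nz : Nu ℤ where
  N a := |(a : ℝ)|
  zero := by simp
  one := by simp
  nonneg a := abs_nonneg _
  add a b := by push_cast; exact abs_add_le _ _
  mul a b := by push_cast; exact le_of_eq (abs_mul _ _)

theorem l1_eq (f : MvPolynomial ι ℤ) : l1 f = L nz f := rfl

/-- the norm `l1` as a function on the ring of polynomials -/
noncomputable def np (ι : Type) : Nu (MvPolynomial ι ℤ) where
  N := L nz
  zero := L_zero nz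
  one := L_one nz
  nonneg := L_nonneg nz
  add := L_add nz
  mul := L_mul nz

/-- all coefficients have degree at most `d` in the variable `i` -/
def DB (i : ι) (F : MvPolynomial ι (MvPolynomial ι ℤ)) (d : ℕ) : Prop :=
  ∀ α, (coeff α F).degreeOf i ≤ d

theorem DB.mul {i : ι} {F G : MvPolynomial ι (MvPolynomial ι ℤ)} {d e : ℕ} (hF : DB i F d)
    (hG : DB i G e) : DB i (F * G) (d + e) := by
  classical
  intro α
  rw [coeff_mul]
  refine le_trans (degreeOf_sum_le _ _ _) (Finset.sup_le (fun x _ => ?_))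
  exact le_trans (degreeOf_mul_le _ _ _) (add_le_add (hF _) (hG _))

theorem DB.mono {i : ι} {F : MvPolynomial ι (MvPolynomial ι ℤ)} {d e : ℕ} (hF : DB i F d)
    (h : d ≤ e) : DB i F e := fun α => le_trans (hF α) h

theorem DB.const {i : ι} (p : MvPolynomial ι ℤ) : DB i (C p) (p.degreeOf i) := by
  classical
  intro α
  rw [coeff_C]
  split
  · exact le_rfl
  · rw [degreeOf_zero]
    exact Nat.zero_le _

theorem DB.pow {i : ι} {F : MvPolynomial ι (MvPolynomial ι ℤ)} {d : ℕ} (hF : DB i F d) (n : ℕ) :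
    DB i (F ^ n) (n * d) := by
  induction n with
  | zero =>
    rw [pow_zero, Nat.zero_mul]
    have h := DB.const (i := i) (1 : MvPolynomial ι ℤ)
    rw [degreeOf_one] at h
    exact h
  | succ n ih =>
    rw [pow_succ, Nat.succ_mul]
    exact ih.mul hF

theorem DB.prod {i : ι} (s : Finset ι) (F : ι → MvPolynomial ι (MvPolynomial ι ℤ)) (d : ι → ℕ)
    (hF : ∀ j ∈ s, DB i (F j) (d j)) : DB i (∏ j ∈ s, F j) (∑ j ∈ s, d j) := by
  classical
  induction s using Finset.induction_on with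
  | empty =>
    have h := DB.const (i := i) (1 : MvPolynomial ι ℤ)
    rw [degreeOf_one] at h
    simpa using h
  | insert a s ha ih =>
    rw [Finset.prod_insert ha, Finset.sum_insert ha]
    exact (hF a (Finset.mem_insert_self a s)).mul
      (ih (fun j hj => hF j (Finset.mem_insert_of_mem hj)))

theorem DB.sum {κ : Type} {i : ι} {s : Finset κ} {F : κ → MvPolynomial ι (MvPolynomial ι ℤ)}
    {d : ℕ} (hF : ∀ j ∈ s, DB i (F j) d) : DB i (∑ j ∈ s, F j) d := by
  classical
  intro α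
  rw [coeff_sum]
  exact le_trans (degreeOf_sum_le _ _ _) (Finset.sup_le (fun x hx => hF x hx α))

theorem DB.gen [DecidableEq ι] (i j : ι) :
    DB i (C (X j) + X j : MvPolynomial ι (MvPolynomial ι ℤ)) (if j = i then 1 else 0) := by
  intro α
  have h1 : (coeff α (C (X j) : MvPolynomial ι (MvPolynomial ι ℤ))).degreeOf i ≤
      if j = i then 1 else 0 := by
    refine le_trans (DB.const (i := i) (X j : MvPolynomial ι ℤ) α) ?_
    rw [degreeOf_X]
    by_cases h : j = i
    · rw [if_pos h, if_pos h.symm]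
    · rw [if_neg h, if_neg (fun h' => h h'.symm)]
  have h2 : (coeff α (X j : MvPolynomial ι (MvPolynomial ι ℤ))).degreeOf i = 0 := by
    rw [coeff_X]
    split
    · exact degreeOf_one i
    · exact degreeOf_zero i
  rw [coeff_add]
  refine le_trans (degreeOf_add_le _ _ _) (max_le h1 ?_)
  rw [h2]
  exact Nat.zero_le _

/-- the expansion of the shifted polynomial -/
theorem aeval_eq (f : MvPolynomial ι ℤ) :
    aeval (fun i => (C (X i) + X i : MvPolynomial ι (MvPolynomial ι ℤ))) f =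
      ∑ m ∈ f.support, C (C (coeff m f)) *
        ∏ j ∈ m.support, (C (X j) + X j : MvPolynomial ι (MvPolynomial ι ℤ)) ^ m j := by
  conv_lhs => rw [f.as_sum, map_sum]
  refine Finset.sum_congr rfl (fun m _ => ?_)
  rw [aeval_monomial]
  rfl

end ZA

theorem l1_nonneg {ι : Type} (f : MvPolynomial ι ℤ) : 0 ≤ l1 f := ZA.L_nonneg ZA.nz f

theorem one_le_l1 {ι : Type} {f : MvPolynomial ι ℤ} (hf : f ≠ 0) : 1 ≤ l1 f := by
  obtain ⟨m, hm⟩ := support_nonempty.mpr hf
  have h1 : coeff m f ≠ 0 := MvPolynomial.mem_support_iff.mp hm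
  have h2 : (1 : ℝ) ≤ |((coeff m f : ℤ) : ℝ)| := by
    rw [← Int.cast_abs]
    exact_mod_cast Int.one_le_abs h1
  exact le_trans h2 (ZA.N_coeff_le ZA.nz f m)

theorem l1_zero {ι : Type} : l1 (0 : MvPolynomial ι ℤ) = 0 := ZA.L_zero ZA.nz

theorem l1_C {ι : Type} (c : ℤ) : l1 (C c : MvPolynomial ι ℤ) = |(c : ℝ)| :=
  ZA.L_monomial ZA.nz 0 c

theorem l1_X {ι : Type} (i : ι) : l1 (X i : MvPolynomial ι ℤ) = 1 := by
  have h := ZA.L_monomial (ι := ι) ZA.nz (Finsupp.single i 1) 1
  have h1 : ZA.nz.N 1 = 1 := by simp [ZA.nz]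
  rw [h1] at h
  exact h

theorem l1_neg {ι : Type} (f : MvPolynomial ι ℤ) : l1 (-f) = l1 f := by
  unfold l1
  rw [support_neg]
  refine Finset.sum_congr rfl (fun m _ => ?_)
  rw [coeff_neg, Int.cast_neg, abs_neg]

theorem l1_add {ι : Type} (f g : MvPolynomial ι ℤ) : l1 (f + g) ≤ l1 f + l1 g :=
  ZA.L_add ZA.nz f g

theorem l1_mul {ι : Type} (f g : MvPolynomial ι ℤ) : l1 (f * g) ≤ l1 f * l1 g :=
  ZA.L_mul ZA.nz f g

theorem l1_sum {ι κ : Type} (s : Finset κ) (f : κ → MvPolynomial ι ℤ) :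
    l1 (∑ k ∈ s, f k) ≤ ∑ k ∈ s, l1 (f k) := ZA.L_sum ZA.nz s f

theorem l1_prod {ι κ : Type} (s : Finset κ) (f : κ → MvPolynomial ι ℤ) :
    l1 (∏ k ∈ s, f k) ≤ ∏ k ∈ s, l1 (f k) := ZA.L_prod ZA.nz s f

theorem l1_pow {ι : Type} (f : MvPolynomial ι ℤ) (n : ℕ) : l1 (f ^ n) ≤ l1 f ^ n :=
  ZA.L_pow ZA.nz f n

theorem abs_coeff_le_l1 {ι : Type} (f : MvPolynomial ι ℤ) (m : ι →₀ ℕ) :
    |((coeff m f : ℤ) : ℝ)| ≤ l1 f := ZA.N_coeff_le ZA.nz f m

theorem l1_pderiv {ι : Type} [DecidableEq ι] (f : MvPolynomial ι ℤ) (l : ι) :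
    l1 (pderiv l f) ≤ f.degreeOf l * l1 f := by
  have h1 : pderiv l f = ∑ m ∈ f.support,
      monomial (m - Finsupp.single l 1) (coeff m f * (m l : ℤ)) := by
    conv_lhs => rw [f.as_sum, map_sum]
    refine Finset.sum_congr rfl (fun m _ => ?_)
    rw [pderiv_monomial]
  rw [h1]
  refine le_trans (l1_sum _ _) ?_
  unfold l1
  rw [Finset.mul_sum]
  refine Finset.sum_le_sum (fun m hm => ?_)
  have h2 := ZA.L_monomial ZA.nz (m - Finsupp.single l 1) (coeff m f * (m l : ℤ))
  have h3 : l1 (monomial (m - Finsupp.single l 1) (coeff m f * (m l : ℤ))) =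
      |((coeff m f * (m l : ℤ) : ℤ) : ℝ)| := h2
  have h4 : (m l : ℝ) ≤ (f.degreeOf l : ℝ) := by exact_mod_cast monomial_le_degreeOf l hm
  change l1 (monomial (m - Finsupp.single l 1) (coeff m f * (m l : ℤ))) ≤ _
  rw [h3, Int.cast_mul, abs_mul, mul_comm, Int.cast_natCast, Nat.abs_cast]
  exact mul_le_mul_of_nonneg_right h4 (abs_nonneg _)

theorem degreeOf_pderiv_le {ι : Type} [DecidableEq ι] (f : MvPolynomial ι ℤ) (l i : ι) :
    (pderiv l f).degreeOf i ≤ f.degreeOf i := by
  rw [degreeOf_le_iff]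
  intro m hm
  rw [MvPolynomial.mem_support_iff, coeff_pderiv] at hm
  have h1 : m + Finsupp.single l 1 ∈ f.support := MvPolynomial.mem_support_iff.mpr (left_ne_zero_of_mul hm)
  have h2 := monomial_le_degreeOf i h1
  rw [Finsupp.add_apply] at h2
  omega

theorem degreeOf_pderiv_self {ι : Type} [DecidableEq ι] (f : MvPolynomial ι ℤ) (l : ι)
    (hl : l ∈ f.vars) : (pderiv l f).degreeOf l < f.degreeOf l ∧ pderiv l f ≠ 0 := by
  have h0 : f.degreeOf l ≠ 0 := mem_vars_iff_degreeOf_ne_zero.mp hl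
  constructor
  · rw [degreeOf_lt_iff (Nat.pos_of_ne_zero h0)]
    intro m hm
    rw [MvPolynomial.mem_support_iff, coeff_pderiv] at hm
    have h1 : m + Finsupp.single l 1 ∈ f.support := MvPolynomial.mem_support_iff.mpr (left_ne_zero_of_mul hm)
    have h2 := monomial_le_degreeOf l h1
    rw [Finsupp.add_apply, Finsupp.single_eq_same] at h2
    omega
  · obtain ⟨m, hm, hml⟩ := (mem_vars_iff_mem_support l).mp hl
    rw [Finsupp.mem_support_iff] at hml
    intro hz
    have h1 : coeff (m - Finsupp.single l 1) (pderiv l f) = 0 := by rw [hz, coeff_zero]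
    have h2 : m - Finsupp.single l 1 + Finsupp.single l 1 = m := by
      ext j
      rw [Finsupp.add_apply, Finsupp.tsub_apply]
      by_cases hj : j = l
      · subst hj
        rw [Finsupp.single_eq_same]
        omega
      · rw [Finsupp.single_eq_of_ne hj]
        omega
    rw [coeff_pderiv, h2] at h1
    rcases mul_eq_zero.mp h1 with h | h
    · exact MvPolynomial.mem_support_iff.mp hm h
    · have h3 : (0 : ℤ) ≤ (((m - Finsupp.single l 1 : ι →₀ ℕ) l : ℕ) : ℤ) := Int.natCast_nonneg _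
      linarith

theorem vars_pderiv {ι : Type} [DecidableEq ι] (f : MvPolynomial ι ℤ) (l : ι) :
    (pderiv l f).vars ⊆ f.vars := by
  intro i hi
  rw [mem_vars_iff_degreeOf_ne_zero] at hi ⊢
  have := degreeOf_pderiv_le f l i
  omega

/-- Taylor coefficients -/
theorem degreeOf_hs {ι : Type} (α : ι →₀ ℕ) (f : MvPolynomial ι ℤ) (i : ι) :
    (hs α f).degreeOf i ≤ f.degreeOf i := by
  classical
  unfold hs
  rw [ZA.aeval_eq]
  have key : ZA.DB i (∑ m ∈ f.support, C (C (coeff m f)) *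
        ∏ j ∈ m.support, (C (X j) + X j : MvPolynomial ι (MvPolynomial ι ℤ)) ^ m j)
      (f.degreeOf i) := by
    refine ZA.DB.sum (fun m hm => ?_)
    have h1 := ZA.DB.const (i := i) (C (coeff m f) : MvPolynomial ι ℤ)
    rw [degreeOf_C] at h1
    have h2 := ZA.DB.prod (i := i) m.support
      (fun j => (C (X j) + X j : MvPolynomial ι (MvPolynomial ι ℤ)) ^ m j)
      (fun j => m j * (if j = i then 1 else 0)) (fun j _ => (ZA.DB.gen i j).pow (m j))
    refine (h1.mul h2).mono ?_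
    rw [Nat.zero_add]
    have h3 : ∑ j ∈ m.support, m j * (if j = i then 1 else 0) ≤ m i := by
      simp only [mul_ite, mul_one, mul_zero]
      rw [Finset.sum_ite_eq']
      split
      · exact le_rfl
      · exact Nat.zero_le _
    exact le_trans h3 (monomial_le_degreeOf i hm)
  exact key α

theorem l1_hs {ι : Type} [Fintype ι] (α : ι →₀ ℕ) (f : MvPolynomial ι ℤ) :
    l1 (hs α f) ≤ 2 ^ (∑ i, f.degreeOf i) * l1 f := by
  classical
  have h0 : l1 (hs α f) ≤ ZA.L (ZA.np ι)
      (aeval (fun i => (C (X i) + X i : MvPolynomial ι (MvPolynomial ι ℤ))) f) :=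
    ZA.N_coeff_le (ZA.np ι) _ α
  refine le_trans h0 ?_
  rw [ZA.aeval_eq]
  refine le_trans (ZA.L_sum _ _ _) ?_
  unfold l1
  rw [Finset.mul_sum]
  refine Finset.sum_le_sum (fun m hm => ?_)
  have hC : ∀ p : MvPolynomial ι ℤ, ZA.L (ZA.np ι)
      (C p : MvPolynomial ι (MvPolynomial ι ℤ)) = l1 p := fun p =>
    ZA.L_monomial (ZA.np ι) 0 p
  have hX : ∀ j : ι, ZA.L (ZA.np ι) (X j : MvPolynomial ι (MvPolynomial ι ℤ)) =
      l1 (1 : MvPolynomial ι ℤ) := fun j =>
    ZA.L_monomial (ZA.np ι) (Finsupp.single j 1) 1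
  have h1 : l1 (1 : MvPolynomial ι ℤ) = 1 := by
    have := l1_C (ι := ι) 1
    rw [C_1] at this
    rw [this]
    simp
  have hg : ∀ j : ι, ZA.L (ZA.np ι) (C (X j) + X j) ≤ 2 := by
    intro j
    refine le_trans (ZA.L_add _ _ _) ?_
    rw [hC, hX, l1_X, h1]
    norm_num
  have hprod : ZA.L (ZA.np ι)
      (∏ j ∈ m.support, (C (X j) + X j : MvPolynomial ι (MvPolynomial ι ℤ)) ^ m j) ≤
      2 ^ (∑ i, f.degreeOf i) := by
    refine le_trans (ZA.L_prod _ _ _) ?_
    have h2 : ∏ j ∈ m.support, ZA.L (ZA.np ι)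
        ((C (X j) + X j : MvPolynomial ι (MvPolynomial ι ℤ)) ^ m j) ≤
        ∏ j ∈ m.support, (2 : ℝ) ^ m j := by
      refine Finset.prod_le_prod (fun j _ => ZA.L_nonneg _ _) (fun j _ => ?_)
      exact le_trans (ZA.L_pow _ _ _) (pow_le_pow_left₀ (ZA.L_nonneg _ _) (hg j) _)
    refine le_trans h2 ?_
    rw [Finset.prod_pow_eq_pow_sum]
    refine pow_le_pow_right₀ (by norm_num) ?_
    calc ∑ j ∈ m.support, m j ≤ ∑ j, m j :=
          Finset.sum_le_sum_of_subset (Finset.subset_univ _)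
      _ ≤ _ := Finset.sum_le_sum (fun j _ => monomial_le_degreeOf j hm)
  refine le_trans (ZA.L_mul _ _ _) ?_
  rw [hC, l1_C, mul_comm]
  exact mul_le_mul_of_nonneg_right hprod (abs_nonneg _)

end Pool.Agent.AL
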