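import Pool.Agent.Lib.MP_c95b3b_ag_AL.Defs

/-! Project AL (MP_c95b3b_ag), module ZD: weighted order. -/

namespace Pool.Agent.AL

open Pool.Agent.L3 Pool.Agent.KP Module MvPolynomial

namespace ZD

section
variable {ι : Type} {K : Type} [Field K]

private lemma back_shf (P : ι → K) (f : MvPolynomial ι ℤ) :
    aeval (fun i => X i - C (P i) : ι → MvPolynomial ι K) (shf P f) =
      map (Int.castRingHom K) f := by
  unfold shf
  induction f using MvPolynomial.induction_on with
  | C a => simp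
  | add p q hp hq => simp only [map_add, hp, hq]
  | mul_X p i hp => 
    simp only [map_mul, hp, aeval_X, map_add, map_X]
    congr 1
    rw [← algebraMap_eq, AlgHom.commutes]
    simp

/-- the substitution `X i ↦ X i * T ^ H i` -/
noncomputable def Psi (H : ι → ℕ) : MvPolynomial ι K →ₐ[K] Polynomial (MvPolynomial ι K) :=
  aeval fun i => Polynomial.C (X i) * Polynomial.X ^ H i

variable [Fintype ι]

private lemma Psi_monomial (H : ι → ℕ) (δ : ι →₀ ℕ) (a : K) :
    Psi H (monomial δ a) = Polynomial.monomial (wt H δ) (monomial δ a) := by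
  classical
  unfold Psi
  rw [aeval_monomial, ← Polynomial.C_mul_X_pow_eq_monomial]
  have h1 : (δ.prod fun i k => (Polynomial.C (X i : MvPolynomial ι K) * Polynomial.X ^ H i) ^ k) =
      Polynomial.C (δ.prod fun i k => (X i : MvPolynomial ι K) ^ k) *
        Polynomial.X ^ wt H δ := by
    rw [Finsupp.prod_fintype _ _ (fun i => pow_zero _), Finsupp.prod_fintype _ _ (fun i => pow_zero _)]
    unfold wt
    rw [map_prod, ← Finset.prod_pow_eq_pow_sum, ← Finset.prod_mul_distrib]
    refine Finset.prod_congr rfl fun i _ => ?_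
    rw [mul_pow, map_pow, ← pow_mul, mul_comm (H i)]
  rw [h1, monomial_eq (R := K) (s := δ), ← mul_assoc]
  congr 1
  rw [map_mul]
  rfl

lemma coeff_Psi (H : ι → ℕ) (F : MvPolynomial ι K) (m : ℕ) (γ : ι →₀ ℕ) :
    coeff γ ((Psi H F).coeff m) = if wt H γ = m then coeff γ F else 0 := by
  classical
  induction F using MvPolynomial.induction_on' with
  | monomial δ a =>
    rw [Psi_monomial, Polynomial.coeff_monomial]
    by_cases h : wt H δ = m
    · rw [if_pos h, coeff_monomial]
      by_cases h2 : δ = γ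
      · subst h2; simp [h]
      · simp [h2]
    · rw [if_neg h, coeff_zero, coeff_monomial]
      by_cases h2 : δ = γ
      · subst h2; simp [h]
      · simp [h2]
  | add p q hp hq =>
    rw [map_add, Polynomial.coeff_add, coeff_add, hp, hq, coeff_add]
    split_ifs <;> simp

lemma Psi_ne_zero (H : ι → ℕ) {F : MvPolynomial ι K} (hF : F ≠ 0) : Psi H F ≠ 0 := by
  intro h
  obtain ⟨γ, hγ⟩ := MvPolynomial.ne_zero_iff.1 hF
  have := coeff_Psi H F (wt H γ) γ
  rw [h, if_pos rfl, Polynomial.coeff_zero, coeff_zero] at this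
  exact hγ this.symm

lemma shf_C (P : ι → K) (c : ℤ) : shf P (C c : MvPolynomial ι ℤ) = C (c : K) := by
  unfold shf
  simp

lemma shf_mul (P : ι → K) (f g : MvPolynomial ι ℤ) : shf P (f * g) = shf P f * shf P g := by
  unfold shf
  rw [map_mul]

lemma wt_zero (H : ι → ℕ) : wt H (0 : ι →₀ ℕ) = 0 := by simp [wt]

end

end ZD

open ZD

section
variable {ι : Type} [Fintype ι] {K : Type} [Field K] [CharZero K] (H : ι → ℕ) (P : ι → K)

theorem shf_ne_zero {f : MvPolynomial ι ℤ} (hf : f ≠ 0) : shf P f ≠ 0 := by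
  intro h
  have h1 := ZD.back_shf P f
  rw [h, map_zero] at h1
  have h2 : Function.Injective (map (σ := ι) (Int.castRingHom K)) :=
    map_injective _ (RingHom.injective_int _)
  exact hf (h2 (by rw [← h1, map_zero]))

theorem exists_ordW {f : MvPolynomial ι ℤ} (hf : f ≠ 0) :
    ∃ γ, coeff γ (shf P f) ≠ 0 ∧ wt H γ = ordW H P f := by
  obtain ⟨γ, hγ⟩ := MvPolynomial.ne_zero_iff.1 (shf_ne_zero P hf)
  have hne : {m | ∃ γ, coeff γ (shf P f) ≠ 0 ∧ m = wt H γ}.Nonempty := ⟨_, γ, hγ, rfl⟩
  obtain ⟨δ, h1, h2⟩ := Nat.sInf_mem hne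
  exact ⟨δ, h1, h2.symm⟩

theorem coeff_eq_zero_of_lt_ordW (f : MvPolynomial ι ℤ) (γ : ι →₀ ℕ) (h : wt H γ < ordW H P f) :
    coeff γ (shf P f) = 0 := by
  by_contra h1
  exact Nat.notMem_of_lt_sInf h ⟨γ, h1, rfl⟩

theorem le_ordW {f : MvPolynomial ι ℤ} (hf : f ≠ 0) (m : ℕ)
    (h : ∀ γ, wt H γ < m → coeff γ (shf P f) = 0) : m ≤ ordW H P f := by
  obtain ⟨γ, h1, h2⟩ := exists_ordW H P hf
  by_contra h3
  exact h1 (h γ (by omega))

theorem ordW_C (c : ℤ) : ordW H P (C c : MvPolynomial ι ℤ) = 0 := by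
  classical
  unfold ordW
  rw [Nat.sInf_eq_zero]
  by_cases hc : c = 0
  · right
    subst hc
    ext m
    simp [shf]
  · left
    refine ⟨0, ?_, (wt_zero H).symm⟩
    rw [shf_C, coeff_zero_C]
    exact_mod_cast hc

lemma ZD.ordW_eq {f : MvPolynomial ι ℤ} (hf : f ≠ 0) :
    ordW H P f = (Psi H (shf P f)).natTrailingDegree := by
  have hP : Psi H (shf P f) ≠ 0 := Psi_ne_zero H (shf_ne_zero P hf)
  apply le_antisymm
  · have h1 : (Psi H (shf P f)).coeff (Psi H (shf P f)).natTrailingDegree ≠ 0 :=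
      Polynomial.coeff_natTrailingDegree_ne_zero.2 hP
    obtain ⟨γ, hγ⟩ := MvPolynomial.ne_zero_iff.1 h1
    rw [coeff_Psi] at hγ
    by_cases h2 : wt H γ = (Psi H (shf P f)).natTrailingDegree
    · rw [if_pos h2] at hγ
      rw [← h2]
      exact Nat.sInf_le ⟨γ, hγ, rfl⟩
    · rw [if_neg h2] at hγ
      exact absurd rfl hγ
  · obtain ⟨γ, h1, h2⟩ := exists_ordW H P hf
    rw [← h2]
    apply Polynomial.natTrailingDegree_le_of_ne_zero
    intro h3
    have h4 := coeff_Psi H (shf P f) (wt H γ) γ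
    rw [h3, if_pos rfl, coeff_zero] at h4
    exact h1 h4.symm

theorem ordW_mul {f g : MvPolynomial ι ℤ} (hf : f ≠ 0) (hg : g ≠ 0) :
    ordW H P (f * g) = ordW H P f + ordW H P g := by
  rw [ZD.ordW_eq H P hf, ZD.ordW_eq H P hg, ZD.ordW_eq H P (mul_ne_zero hf hg), shf_mul, map_mul,
    Polynomial.natTrailingDegree_mul (Psi_ne_zero H (shf_ne_zero P hf))
      (Psi_ne_zero H (shf_ne_zero P hg))]

theorem ordW_prod {κ : Type} (s : Finset κ) (V : κ → MvPolynomial ι ℤ)
    (hV : ∀ k ∈ s, V k ≠ 0) : ordW H P (∏ k ∈ s, V k) = ∑ k ∈ s, ordW H P (V k) := by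
  classical
  induction s using Finset.induction_on with
  | empty =>
    rw [Finset.prod_empty, Finset.sum_empty, ← C_1]
    exact ordW_C H P 1
  | insert a s ha ih =>
    have h1 : ∀ k ∈ s, V k ≠ 0 := fun k hk => hV k (Finset.mem_insert_of_mem hk)
    rw [Finset.prod_insert ha, Finset.sum_insert ha,
      ordW_mul H P (hV a (Finset.mem_insert_self a s)) (Finset.prod_ne_zero_iff.2 h1), ih h1]

omit [Fintype ι] [CharZero K] in
lemma ZD.shf_pderiv (l : ι) (f : MvPolynomial ι ℤ) :
    shf P (pderiv l f) = pderiv l (shf P f) := by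
  classical
  unfold shf
  induction f using MvPolynomial.induction_on with
  | C a => 
    rw [pderiv_C, map_zero]
    have : (aeval (fun i => C (P i) + X i : ι → MvPolynomial ι K)) (C a : MvPolynomial ι ℤ) =
      C (a : K) := by simp
    rw [this, pderiv_C]
  | add p q hp hq => simp only [map_add, hp, hq]
  | mul_X p i hp =>
    rw [Derivation.leibniz, map_mul, Derivation.leibniz, map_add, aeval_X, smul_eq_mul, smul_eq_mul,
      smul_eq_mul, smul_eq_mul, map_mul, map_mul, hp, aeval_X, map_add, pderiv_C, zero_add,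
      pderiv_X, pderiv_X]
    congr 2
    by_cases h : i = l
    · subst h; simp
    · simp [Pi.single_apply, h, Ne.symm h]

omit [Fintype ι] [CharZero K] in
lemma ZD.coeff_pderiv' (l : ι) (F : MvPolynomial ι K) (γ : ι →₀ ℕ) :
    coeff γ (pderiv l F) = coeff (γ + Finsupp.single l 1) F * ((γ l : K) + 1) := by
  classical
  induction F using MvPolynomial.induction_on' with
  | monomial δ a =>
    rw [pderiv_monomial, coeff_monomial, coeff_monomial]
    by_cases h : δ = γ + Finsupp.single l 1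
    · subst h
      simp
    · rw [if_neg h, zero_mul]
      by_cases h2 : δ - Finsupp.single l 1 = γ
      · rw [if_pos h2]
        by_cases h3 : δ l = 0
        · simp [h3]
        · exfalso
          apply h
          rw [← h2, tsub_add_cancel_of_le]
          rw [Finsupp.single_le_iff]
          omega
      · rw [if_neg h2]
  | add p q hp hq => rw [map_add, coeff_add, coeff_add, hp, hq, add_mul]

theorem ordW_pderiv [DecidableEq ι] (f : MvPolynomial ι ℤ) (l : ι) (h : pderiv l f ≠ 0) :
    ordW H P f ≤ ordW H P (pderiv l f) + H l := by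
  classical
  obtain ⟨γ, h1, h2⟩ := exists_ordW H P h
  rw [ZD.shf_pderiv, ZD.coeff_pderiv'] at h1
  have h3 : wt H (γ + Finsupp.single l 1) = wt H γ + H l := by
    unfold wt
    simp [add_mul, Finset.sum_add_distrib, Finsupp.single_apply]
  rw [← h2, ← h3]
  exact Nat.sInf_le ⟨_, left_ne_zero_of_mul h1, rfl⟩

omit [Fintype ι] [CharZero K] in
lemma ZD.coeff_zero_shf (f : MvPolynomial ι ℤ) : coeff 0 (shf P f) = aeval P f := by
  rw [← constantCoeff_eq]
  unfold shf
  induction f using MvPolynomial.induction_on with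
  | C a => simp
  | add p q hp hq => simp only [map_add, hp, hq]
  | mul_X p i hp => rw [map_mul, map_mul, map_mul, hp]; simp

theorem aeval_eq_zero_of_ordW (f : MvPolynomial ι ℤ) (h : 0 < ordW H P f) : aeval P f = 0 := by
  have h1 := coeff_eq_zero_of_lt_ordW H P f 0 (by rw [wt_zero]; exact h)
  rw [← ZD.coeff_zero_shf, h1]

end

end Pool.Agent.AL
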