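import Pool.Agent.Lib.MP_c95b3b_ag_AL.ZA

/-! Project AL (MP_c95b3b_ag), module ZF: sizes of resultants. -/

namespace Pool.Agent.AL

open Pool.Agent.L3 Pool.Agent.KP Module MvPolynomial

namespace ZF

/-- degree of a determinant in one variable -/
theorem degreeOf_det {ι : Type} {n : ℕ} (M : Matrix (Fin n) (Fin n) (MvPolynomial ι ℤ)) (i : ι)
    (c : Fin n → ℕ) (h : ∀ r s, (M r s).degreeOf i ≤ c s) : M.det.degreeOf i ≤ ∑ s, c s := by
  rw [Matrix.det_apply]
  refine le_trans (degreeOf_sum_le _ _ _) (Finset.sup_le (fun σ _ => ?_))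
  have h1 : (∏ s, M (σ s) s).degreeOf i ≤ ∑ s, c s :=
    le_trans (degreeOf_prod_le _ _ _) (Finset.sum_le_sum (fun s _ => h _ _))
  rcases Int.units_eq_one_or (Equiv.Perm.sign σ) with hs | hs
  · rw [hs, one_smul]
    exact h1
  · rw [hs, Units.neg_smul, one_smul, degreeOf_neg]
    exact h1

/-- norm of a determinant -/
theorem l1_det {ι : Type} {n : ℕ} (M : Matrix (Fin n) (Fin n) (MvPolynomial ι ℤ)) :
    l1 M.det ≤ ∏ s, ∑ r, l1 (M r s) := by
  classical
  rw [Matrix.det_apply]
  refine le_trans (l1_sum _ _) ?_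
  have h1 : ∀ σ : Equiv.Perm (Fin n), l1 (Equiv.Perm.sign σ • ∏ s, M (σ s) s) ≤
      ∏ s, l1 (M (σ s) s) := by
    intro σ
    rcases Int.units_eq_one_or (Equiv.Perm.sign σ) with hs | hs
    · rw [hs, one_smul]
      exact l1_prod _ _
    · rw [hs, Units.neg_smul, one_smul, l1_neg]
      exact l1_prod _ _
  refine le_trans (Finset.sum_le_sum (fun σ _ => h1 σ)) ?_
  have h2 : ∏ s, ∑ r, l1 (M r s) = ∑ f : Fin n → Fin n, ∏ s, l1 (M (f s) s) := by
    rw [Finset.prod_univ_sum]
    rw [Fintype.piFinset_univ]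
  rw [h2]
  have hinj : Function.Injective (fun σ : Equiv.Perm (Fin n) => (σ : Fin n → Fin n)) :=
    DFunLike.coe_injective
  have h3 : ∑ σ : Equiv.Perm (Fin n), ∏ s, l1 (M (σ s) s) =
      ∑ f ∈ Finset.univ.image (fun σ : Equiv.Perm (Fin n) => (σ : Fin n → Fin n)),
        ∏ s, l1 (M (f s) s) := by
    rw [Finset.sum_image (fun x _ y _ hxy => hinj hxy)]
  rw [h3]
  refine Finset.sum_le_sum_of_subset_of_nonneg (Finset.subset_univ _) (fun f _ _ => ?_)
  exact Finset.prod_nonneg (fun s _ => l1_nonneg _)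

/-- the sum over a column of a Sylvester matrix -/
theorem col_sum (N j n : ℕ) (h : ℕ → ℝ) (hh : ∀ k, 0 ≤ h k) :
    ∑ r : Fin N, (if (r : ℕ) ∈ Set.Icc j (j + n) then h ((r : ℕ) - j) else 0) ≤
      ∑ k ∈ Finset.range (n + 1), h k := by
  classical
  rw [Fin.sum_univ_eq_sum_range (fun r => if r ∈ Set.Icc j (j + n) then h (r - j) else 0) N,
    ← Finset.sum_filter]
  have h1 : ∑ k ∈ Finset.range (n + 1), h k = ∑ r ∈ Finset.Ico j (j + n + 1), h (r - j) := by
    rw [Finset.sum_Ico_eq_sum_range]
    have e : j + n + 1 - j = n + 1 := by omega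
    rw [e]
    refine Finset.sum_congr rfl (fun k _ => ?_)
    rw [Nat.add_sub_cancel_left]
  rw [h1]
  refine Finset.sum_le_sum_of_subset_of_nonneg ?_ (fun r _ _ => hh _)
  intro r hr
  rw [Finset.mem_filter, Set.mem_Icc] at hr
  rw [Finset.mem_Ico]
  omega

end ZF

theorem degreeOf_resultant {ι : Type} (F G : Polynomial (MvPolynomial ι ℤ)) (a b : ℕ) (i : ι)
    (dF dG : ℕ) (hF : ∀ k, (F.coeff k).degreeOf i ≤ dF) (hG : ∀ k, (G.coeff k).degreeOf i ≤ dG) :
    (F.resultant G a b).degreeOf i ≤ b * dF + a * dG := by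
  have h := ZF.degreeOf_det (Polynomial.sylvester F G a b) i
    (Fin.addCases (fun _ => dG) (fun _ => dF)) (by
      intro r s
      refine Fin.addCases (fun s => ?_) (fun s => ?_) s
      · rw [Fin.addCases_left]
        simp only [Polynomial.sylvester, Matrix.of_apply, Fin.addCases_left]
        split
        · exact hG _
        · rw [degreeOf_zero]
          exact Nat.zero_le _
      · rw [Fin.addCases_right]
        simp only [Polynomial.sylvester, Matrix.of_apply, Fin.addCases_right]
        split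
        · exact hF _
        · rw [degreeOf_zero]
          exact Nat.zero_le _)
  rw [Fin.sum_univ_add] at h
  simp only [Fin.addCases_left, Fin.addCases_right, Finset.sum_const, Finset.card_univ,
    Fintype.card_fin, smul_eq_mul] at h
  rw [add_comm]
  exact h

theorem vars_resultant {ι : Type} [DecidableEq ι] (F G : Polynomial (MvPolynomial ι ℤ)) (a b : ℕ)
    (s : Finset ι) (hF : ∀ k, (F.coeff k).vars ⊆ s) (hG : ∀ k, (G.coeff k).vars ⊆ s) :
    (F.resultant G a b).vars ⊆ s := by
  have key : F.resultant G a b ∈ MvPolynomial.supported ℤ (s : Set ι) := by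
    unfold Polynomial.resultant
    rw [Matrix.det_apply]
    refine sum_mem (fun σ _ => ?_)
    have h1 : ∏ t, Polynomial.sylvester F G a b (σ t) t ∈
        MvPolynomial.supported ℤ (s : Set ι) := by
      refine prod_mem (fun t _ => ?_)
      refine Fin.addCases (fun t => ?_) (fun t => ?_) t
      · simp only [Polynomial.sylvester, Matrix.of_apply, Fin.addCases_left]
        split
        · rw [MvPolynomial.mem_supported]
          exact_mod_cast hG _
        · exact zero_mem _
      · simp only [Polynomial.sylvester, Matrix.of_apply, Fin.addCases_right]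
        split
        · rw [MvPolynomial.mem_supported]
          exact_mod_cast hF _
        · exact zero_mem _
    rcases Int.units_eq_one_or (Equiv.Perm.sign σ) with hs | hs
    · rw [hs, one_smul]
      exact h1
    · rw [hs, Units.neg_smul, one_smul]
      exact neg_mem h1
  rw [MvPolynomial.mem_supported] at key
  exact_mod_cast key

theorem l1_resultant {ι : Type} (F G : Polynomial (MvPolynomial ι ℤ)) (a b : ℕ) :
    l1 (F.resultant G a b) ≤ (∑ k ∈ Finset.range (a + 1), l1 (F.coeff k)) ^ b *
      (∑ k ∈ Finset.range (b + 1), l1 (G.coeff k)) ^ a := by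
  unfold Polynomial.resultant
  refine le_trans (ZF.l1_det _) ?_
  rw [Fin.prod_univ_add, mul_comm]
  have hz : ∀ (p : Prop) [Decidable p] (f : MvPolynomial ι ℤ),
      l1 (if p then f else 0) = if p then l1 f else 0 := by
    intro p _ f
    split
    · rfl
    · exact l1_zero
  refine mul_le_mul ?_ ?_ ?_ ?_
  · refine le_trans (Finset.prod_le_prod (g := fun _ =>
      ∑ k ∈ Finset.range (a + 1), l1 (F.coeff k))
      (fun s _ => Finset.sum_nonneg (fun r _ => l1_nonneg _)) (fun s _ => ?_)) ?_
    · simp only [Polynomial.sylvester, Matrix.of_apply, Fin.addCases_right, hz]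
      exact ZF.col_sum (a + b) s a (fun k => l1 (F.coeff k)) (fun k => l1_nonneg _)
    · rw [Finset.prod_const, Finset.card_univ, Fintype.card_fin]
  · refine le_trans (Finset.prod_le_prod (g := fun _ =>
      ∑ k ∈ Finset.range (b + 1), l1 (G.coeff k))
      (fun s _ => Finset.sum_nonneg (fun r _ => l1_nonneg _)) (fun s _ => ?_)) ?_
    · simp only [Polynomial.sylvester, Matrix.of_apply, Fin.addCases_left, hz]
      exact ZF.col_sum (a + b) s b (fun k => l1 (G.coeff k)) (fun k => l1_nonneg _)
    · rw [Finset.prod_const, Finset.card_univ, Fintype.card_fin]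
  · exact Finset.prod_nonneg (fun s _ => Finset.sum_nonneg (fun r _ => l1_nonneg _))
  · exact pow_nonneg (Finset.sum_nonneg (fun r _ => l1_nonneg _)) _

end Pool.Agent.AL
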