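import Pool.Agent.Lib.MP_c95b3b_ag_AL.ZI

/-! Project AL (MP_c95b3b_ag), module ZJ: Lemma Z. -/

namespace Pool.Agent.AL

open Pool.Agent.L3 Pool.Agent.KP Module MvPolynomial

namespace ZJ

theorem sz_nonneg {ι : Type} [Fintype ι] (H : ι → ℕ) {h0 : ℝ} (hh : 1 ≤ h0)
    {f : MvPolynomial ι ℤ} (hf : f ≠ 0) : 0 ≤ sz H h0 f := by
  unfold sz
  have h1 : 0 ≤ Real.log (l1 f) := Real.log_nonneg (one_le_l1 hf)
  have h2 : 0 ≤ ∑ i, (H i : ℝ) * f.degreeOf i :=
    Finset.sum_nonneg fun i _ => mul_nonneg (Nat.cast_nonneg _) (Nat.cast_nonneg _)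
  have h3 : 0 ≤ h0 * Real.log (l1 f) := mul_nonneg (by linarith) h1
  linarith

end ZJ

theorem lemmaZ (r : ℕ) (θ : ℝ) (hθ : 0 < θ) : ∃ A : ℝ, ∀ (ι : Type) [Fintype ι] [DecidableEq ι]
    (K : Type) [Field K] [CharZero K] (P : ι → K) (H : ι → ℕ) (h0 : ℝ), 1 ≤ h0 →
    (∀ i, h0 ≤ H i) → ∀ f : MvPolynomial ι ℤ, f ≠ 0 → f.vars.card ≤ r → 0 < ordW H P f →
    θ * sz H h0 f ≤ ordW H P f →
    ∃ R : MvPolynomial ι ℤ, R ≠ 0 ∧ R.vars.Nonempty ∧ R.vars ⊆ f.vars ∧ aeval P R = 0 ∧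
      ∀ i ∈ R.vars, sz H h0 R ≤ A * H i := by
  induction r generalizing θ with
  | zero =>
    refine ⟨0, ?_⟩
    intro ι _ _ K _ _ P H h0 hh hH f hf hc ho h
    obtain ⟨V, -, hV, hVf, -, -⟩ := exists_factor H P h0 hh hH θ hθ f hf ho h
    have h1 : f.vars = ∅ := Finset.card_eq_zero.1 (Nat.le_zero.1 hc)
    rw [h1] at hVf
    exact absurd (Finset.subset_empty.1 hVf) hV.ne_empty
  | succ r ih =>
    have ht0 : 0 < min (θ / 4) 1 := lt_min (by linarith) one_pos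
    have ht1 : min (θ / 4) 1 ≤ 1 := min_le_right _ _
    have ht4 : min (θ / 4) 1 ≤ θ / 4 := min_le_left _ _
    generalize min (θ / 4) 1 = t at ht0 ht1 ht4
    obtain ⟨A, hA⟩ := ih (t ^ 2 / 100) (by positivity)
    refine ⟨max (2 / t) A, ?_⟩
    intro ι _ _ K _ _ P H h0 hh hH f hf hc ho h
    obtain ⟨V, hV, hVn, hVf, hVo, hVs⟩ := exists_factor H P h0 hh hH θ hθ f hf ho h
    have hsV : 0 ≤ sz H h0 V := ZJ.sz_nonneg H hh hV.ne_zero
    have hts : t * sz H h0 V ≤ ordW H P V :=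
      (mul_le_mul_of_nonneg_right ht4 hsV).trans hVs
    by_cases hc1 : ∀ i ∈ V.vars, ordW H P V < 2 * H i
    · refine ⟨V, hV.ne_zero, hVn, hVf, aeval_eq_zero_of_ordW H P V hVo, ?_⟩
      intro i hi
      have h1 : ((ordW H P V : ℕ) : ℝ) ≤ 2 * (H i : ℝ) := by
        have := (hc1 i hi).le
        exact_mod_cast this
      have h2 : sz H h0 V ≤ 2 / t * (H i : ℝ) := by
        rw [div_mul_eq_mul_div, le_div_iff₀ ht0]
        linarith
      exact h2.trans (mul_le_mul_of_nonneg_right (le_max_left _ _) (Nat.cast_nonneg _))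
    · push Not at hc1
      obtain ⟨l, hl, hl2⟩ := hc1
      obtain ⟨R', hR0, hRv, hRo, hRs⟩ := descent H P h0 hh hH t ht0 ht1 V hV hVo hts l hl hl2
      have hcard : R'.vars.card ≤ r := by
        have h1 := Finset.card_le_card hRv
        have h2 := Finset.card_erase_of_mem hl
        have h3 := Finset.card_le_card hVf
        omega
      obtain ⟨R, hR, hRn, hRsub, hRz, hRb⟩ := hA ι K P H h0 hh hH R' hR0 hcard hRo hRs
      refine ⟨R, hR, hRn, ?_, hRz, ?_⟩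
      · exact hRsub.trans (hRv.trans ((Finset.erase_subset _ _).trans hVf))
      · intro i hi
        exact (hRb i hi).trans
          (mul_le_mul_of_nonneg_right (le_max_right _ _) (Nat.cast_nonneg _))

end Pool.Agent.AL
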