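import Pool.Agent.Lib.MP_c95b3b_ag_AL.ZA
import Pool.Agent.Lib.MP_c95b3b_ag_AL.ZD
import Pool.Agent.Lib.MP_c95b3b_ag_AL.ZF
import Pool.Agent.Lib.MP_c95b3b_ag_AL.ZG
import Pool.Agent.Lib.MP_c95b3b_ag_AL.ZJ
import Pool.Agent.Lib.MP_c95b3b_ag_AL.BC

/-! Project AL (MP_c95b3b_ag), module BH: Lemma Z', the order along the branch. -/

namespace Pool.Agent.AL

open Pool.Agent.L3 Pool.Agent.KP Module MvPolynomial

namespace BH

/-! ## The top coefficient of a determinant of polynomials -/

private lemma top_prod {A κ : Type} [CommRing A] (s : Finset κ) (f : κ → Polynomial A)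
    (c : κ → ℕ) (h : ∀ k, (f k).natDegree ≤ c k) :
    (∏ k ∈ s, f k).natDegree ≤ ∑ k ∈ s, c k ∧
      (∏ k ∈ s, f k).coeff (∑ k ∈ s, c k) = ∏ k ∈ s, (f k).coeff (c k) := by
  classical
  induction s using Finset.induction_on with
  | empty => simp
  | insert a s ha ih =>
    rw [Finset.prod_insert ha, Finset.sum_insert ha, Finset.prod_insert ha]
    exact ⟨le_trans Polynomial.natDegree_mul_le (add_le_add (h a) ih.1),
      by rw [Polynomial.coeff_mul_add_eq_of_natDegree_le (h a) ih.1, ih.2]⟩

private lemma top_det {A : Type} [CommRing A] {n : ℕ} (M : Matrix (Fin n) (Fin n) (Polynomial A))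
    (c : Fin n → ℕ) (h : ∀ r s, (M r s).natDegree ≤ c s) :
    M.det.natDegree ≤ ∑ s, c s ∧
      M.det.coeff (∑ s, c s) = (Matrix.of fun r s => (M r s).coeff (c s)).det := by
  have hp : ∀ σ : Equiv.Perm (Fin n), (∏ s, M (σ s) s).natDegree ≤ ∑ s, c s ∧
      (∏ s, M (σ s) s).coeff (∑ s, c s) = ∏ s, (M (σ s) s).coeff (c s) :=
    fun σ => top_prod Finset.univ (fun s => M (σ s) s) c (fun s => h _ _)
  rw [Matrix.det_apply, Matrix.det_apply]
  constructor
  · refine Polynomial.natDegree_sum_le_of_forall_le _ _ (fun σ _ => ?_)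
    rcases Int.units_eq_one_or (Equiv.Perm.sign σ) with hs | hs
    · rw [hs, one_smul]; exact (hp σ).1
    · rw [hs, Units.neg_smul, one_smul, Polynomial.natDegree_neg]; exact (hp σ).1
  · rw [Polynomial.finsetSum_coeff]
    refine Finset.sum_congr rfl (fun σ _ => ?_)
    rcases Int.units_eq_one_or (Equiv.Perm.sign σ) with hs | hs
    · rw [hs, one_smul, one_smul, (hp σ).2]; rfl
    · rw [hs, Units.neg_smul, one_smul, Units.neg_smul, one_smul, Polynomial.coeff_neg, (hp σ).2]
      rfl

/-- the top coefficient of a resultant of `F`, free of the variable `Y`, and `R` -/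
lemma top_resultant {A : Type} [CommRing A] (F T : Polynomial A) (R : Polynomial (Polynomial A))
    (a b n : ℕ) (h : ∀ k, (R.coeff k).natDegree ≤ n) (hT : ∀ k, T.coeff k = (R.coeff k).coeff n) :
    ((F.map Polynomial.C).resultant R a b).natDegree ≤ a * n ∧
      ((F.map Polynomial.C).resultant R a b).coeff (a * n) = F.resultant T a b := by
  have h1 := top_det (Polynomial.sylvester (F.map Polynomial.C) R a b)
    (Fin.addCases (fun _ => n) (fun _ => 0)) (by
      intro r s
      refine Fin.addCases (fun s => ?_) (fun s => ?_) s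
      · rw [Fin.addCases_left]
        simp only [Polynomial.sylvester, Matrix.of_apply, Fin.addCases_left]
        split
        · exact h _
        · rw [Polynomial.natDegree_zero]
          exact Nat.zero_le _
      · rw [Fin.addCases_right]
        simp only [Polynomial.sylvester, Matrix.of_apply, Fin.addCases_right]
        split
        · rw [Polynomial.coeff_map, Polynomial.natDegree_C]
        · rw [Polynomial.natDegree_zero])
  have h2 : ∑ s : Fin (a + b), (Fin.addCases (fun _ => n) (fun _ => 0) s : ℕ) = a * n := by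
    rw [Fin.sum_univ_add]
    simp only [Fin.addCases_left, Fin.addCases_right, Finset.sum_const, Finset.card_univ,
      Fintype.card_fin, smul_eq_mul, mul_zero, add_zero]
  rw [h2] at h1
  refine ⟨h1.1, ?_⟩
  unfold Polynomial.resultant at *
  rw [h1.2]
  refine congrArg Matrix.det ?_
  ext r s
  refine Fin.addCases (fun s => ?_) (fun s => ?_) s
  · simp only [Polynomial.sylvester, Matrix.of_apply, Fin.addCases_left]
    split
    · rw [hT]
    · exact Polynomial.coeff_zero _
  · simp only [Polynomial.sylvester, Matrix.of_apply, Fin.addCases_right]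
    split
    · rw [Polynomial.coeff_map, Polynomial.coeff_C_zero]
    · exact Polynomial.coeff_zero _

/-! ## Two variables -/

section
variable {J : Type} [DecidableEq J]

lemma toP_monomial (l : J) (m : J →₀ ℕ) (c : ℤ) :
    toP l (monomial m c) = Polynomial.C (monomial (m.erase l) c) * Polynomial.X ^ (m l) := by
  classical
  have h1 : (monomial m c : MvPolynomial J ℤ) = monomial (m.erase l) c * X l ^ (m l) := by
    conv_lhs => rw [← Finsupp.erase_add_single l m]
    rw [X_pow_eq_monomial, monomial_mul, mul_one]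
  have h2 : ∀ p : MvPolynomial J ℤ, l ∉ p.vars → toP l p = Polynomial.C p := by
    intro p hp
    have h3 : toP l p = (aeval (fun i => Polynomial.C (X i)) : MvPolynomial J ℤ →ₐ[ℤ] _) p := by
      unfold toP
      refine eval₂Hom_congr' rfl (fun i hi _ => ?_) rfl
      have : i ≠ l := fun h => hp (h ▸ hi)
      simp [this]
    rw [h3]
    have h4 : (aeval (fun i => Polynomial.C (X i)) : MvPolynomial J ℤ →ₐ[ℤ]
        Polynomial (MvPolynomial J ℤ)) = (Algebra.ofId (MvPolynomial J ℤ)
          (Polynomial (MvPolynomial J ℤ))).restrictScalars ℤ := by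
      ext i
      simp [Algebra.ofId_apply]
    rw [h4]
    rfl
  rw [h1, map_mul, map_pow, h2 _ ?_]
  · congr 1
    · unfold toP
      rw [aeval_X, if_pos rfl]
  · intro h
    rw [mem_vars_iff_mem_support] at h
    obtain ⟨d, hd, hl⟩ := h
    have := support_monomial_subset hd
    rw [Finset.mem_singleton] at this
    subst this
    simp at hl

lemma toP_of_notMem {l : J} {p : MvPolynomial J ℤ} (hp : l ∉ p.vars) :
    toP l p = Polynomial.C p := by
  have h0 : p.degreeOf l = 0 := by
    by_contra h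
    exact hp (mem_vars_iff_degreeOf_ne_zero.2 h)
  have h1 : (toP l p).natDegree = 0 := by rw [natDegree_toP, h0]
  have h2 := Polynomial.eq_C_of_natDegree_eq_zero h1
  have h3 := eval_toP l p
  rw [h2, Polynomial.eval_C] at h3
  rw [h2, h3]

lemma coeff_toP_comm (l j : J) (hlj : l ≠ j) (f : MvPolynomial J ℤ) (k n : ℕ) :
    (toP l ((toP j f).coeff k)).coeff n = (toP j ((toP l f).coeff n)).coeff k := by
  classical
  induction f using MvPolynomial.induction_on' with
  | monomial m c =>
    rw [toP_monomial, toP_monomial, Polynomial.coeff_C_mul_X_pow, Polynomial.coeff_C_mul_X_pow]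
    have e1 : (m.erase j) l = m l := Finsupp.erase_ne hlj
    have e2 : (m.erase l) j = m j := Finsupp.erase_ne hlj.symm
    have e3 : (m.erase j).erase l = (m.erase l).erase j := by
      ext i
      by_cases h1 : i = l <;> by_cases h2 : i = j <;> simp [Finsupp.erase_apply, h1, h2]
    by_cases hk : k = m j <;> by_cases hn : n = m l <;>
      simp [hk, hn, toP_monomial, e1, e2, e3]
  | add p q hp hq => simp only [map_add, Polynomial.coeff_add, hp, hq]

end

/-! ## The elimination -/

lemma l1_rename {σ τ : Type} (f : σ → τ) (hf : Function.Injective f) (p : MvPolynomial σ ℤ) :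
    l1 (rename f p) = l1 p := by
  classical
  unfold l1
  rw [support_rename_of_injective hf,
    Finset.sum_image (fun x _ y _ h => Finsupp.mapDomain_injective hf h)]
  refine Finset.sum_congr rfl (fun m _ => ?_)
  rw [coeff_rename_mapDomain f hf]

/-- the invariants of the elimination -/
structure Elim {ι K : Type} [DecidableEq ι] [Field K] (I S : Finset ι)
    (Ξ : ι → MvPowerSeries ι K) (u : MvPowerSeries ι K) (B : ι → ℝ) (B0 : ℝ)
    (R : MvPolynomial (Option ι) ℤ) : Prop where
  top : ∃ n, (toP none R).natDegree ≤ n ∧ (toP none R).coeff n ≠ 0 ∧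
    ∀ o ∈ ((toP none R).coeff n).vars, ∃ i ∈ I, o = some i
  out : ∀ l ∈ S, some l ∉ R.vars
  deg : ∀ i, (R.degreeOf (some i) : ℝ) ≤ B i
  ln : Real.log (l1 R) ≤ B0
  zero : aeval (fun o : Option ι => o.elim u Ξ) R = 0

lemma Elim.ne_zero {ι K : Type} [DecidableEq ι] [Field K] {I S : Finset ι}
    {Ξ : ι → MvPowerSeries ι K} {u : MvPowerSeries ι K} {B : ι → ℝ} {B0 : ℝ}
    {R : MvPolynomial (Option ι) ℤ} (h : Elim I S Ξ u B B0 R) : R ≠ 0 := by
  obtain ⟨n, _, h2, _⟩ := h.top
  rintro rfl
  simp at h2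

lemma step {ι K : Type} [DecidableEq ι] [Field K] {q : ℕ} (blk : ι → Fin (q + 1))
    (I S : Finset ι) (Ξ : ι → MvPowerSeries ι K) (u : MvPowerSeries ι K) (s : Fin (q + 1) → ℝ)
    (M C0 : ℝ) (d : ℕ) (hs0 : 1 ≤ s 0) (hs : ∀ j, s 0 ≤ s j) (hM : 0 ≤ M) (hC : 0 ≤ C0)
    (R : MvPolynomial (Option ι) ℤ)
    (hR : Elim I S Ξ u (fun i => C0 * M / s (blk i)) (C0 * M / s 0) R) (l : ι) (hl : l ∉ I)
    (g : MvPolynomial ι ℤ) (hv : ∀ i ∈ g.vars, i = l ∨ (i ∈ I ∧ blk i = blk l))
    (hS : ∀ i ∈ S, i ∉ I) (hd : ∀ i, g.degreeOf i ≤ d) (hlog : Real.log (l1 g) ≤ d * (s (blk l) / s 0))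
    (hg : l ∈ g.vars) (h0 : aeval Ξ g = 0) :
    ∃ R' : MvPolynomial (Option ι) ℤ, Elim I (insert l S) Ξ u
      (fun i => ((2 * d + 1) * C0) * M / s (blk i)) (((2 * d + 1) * C0) * M / s 0) R' := by
  classical
  have hspos : ∀ j, 0 < s j := fun j => by linarith [hs j]
  set G : MvPolynomial (Option ι) ℤ := rename some g with hG
  have hinj : Function.Injective (some : ι → Option ι) := Option.some_injective ι
  have hdegG : ∀ i, G.degreeOf (some i) = g.degreeOf i := fun i => degreeOf_rename_of_injective hinj i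
  have hvG : ∀ o ∈ G.vars, ∃ i ∈ g.vars, o = some i := by
    intro o ho
    have := vars_rename some g ho
    rw [Finset.mem_image] at this
    obtain ⟨i, hi, rfl⟩ := this
    exact ⟨i, hi, rfl⟩
  have ha0 : g.degreeOf l ≠ 0 := mem_vars_iff_degreeOf_ne_zero.1 hg
  have hg0 : g ≠ 0 := by rintro rfl; simp at ha0
  have hl1G : l1 G = l1 g := l1_rename some hinj g
  have hR0 := hR.ne_zero
  set a := G.degreeOf (some l) with ha
  set b := R.degreeOf (some l) with hb
  have haa : a = g.degreeOf l := hdegG l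
  have ha0' : a ≠ 0 := by rw [haa]; exact ha0
  set R' := (toP (some l) G).resultant (toP (some l) R) a b with hR'
  -- the top coefficient
  obtain ⟨n, hn1, hn2, hn3⟩ := hR.top
  have hcl : some l ∉ ((toP none R).coeff n).vars := by
    intro h
    obtain ⟨i, hi, hil⟩ := hn3 _ h
    exact hl (by rw [Option.some_injective _ hil]; exact hi)
  have hmapG : (toP (some l) G).map (toP (none : Option ι)).toRingHom =
      (toP (some l) G).map Polynomial.C := by
    ext1 k
    rw [Polynomial.coeff_map, Polynomial.coeff_map]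
    refine toP_of_notMem ?_
    intro h
    have := vars_coeff_toP (some l) G k h
    rw [Finset.mem_erase] at this
    obtain ⟨i, _, hi⟩ := hvG _ this.2
    exact absurd hi (by simp)
  have htop := top_resultant (toP (some l) G) (toP (some l) ((toP none R).coeff n))
    ((toP (some l) R).map (toP (none : Option ι)).toRingHom) a b n (by
      intro k
      rw [Polynomial.coeff_map]
      have h1 : ((toP (none : Option ι)).toRingHom ((toP (some l) R).coeff k)).natDegree =
          ((toP (some l) R).coeff k).degreeOf none := natDegree_toP none _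
      rw [h1]
      refine le_trans (degreeOf_coeff_toP (some l) R k none) ?_
      rw [← natDegree_toP]
      exact hn1) (by
      intro k
      rw [Polynomial.coeff_map, coeff_toP_comm (some l) none (by simp)]
      rfl)
  rw [← hmapG, Polynomial.resultant_map_map, toP_of_notMem hcl, Polynomial.resultant_C_right,
    ← hR'] at htop
  have hF0 : toP (some l) G ≠ 0 := by
    intro h
    have h1 := natDegree_toP (some l) G
    rw [h, Polynomial.natDegree_zero] at h1
    exact ha0' h1.symm
  have hlc : (toP (some l) G).coeff a ≠ 0 := by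
    have h1 := natDegree_toP (some l) G
    rw [ha, ← h1]
    exact Polynomial.leadingCoeff_ne_zero.2 hF0
  have hlcv : ∀ o ∈ ((toP (some l) G).coeff a).vars, ∃ i ∈ I, o = some i := by
    intro o ho
    have := vars_coeff_toP (some l) G a ho
    rw [Finset.mem_erase] at this
    obtain ⟨i, hi, rfl⟩ := hvG _ this.2
    rcases hv i hi with h | h
    · exact absurd (by rw [h]) this.1
    · exact ⟨i, h.1, rfl⟩
  have htop' : (toP none R').coeff (a * n) =
      (toP (some l) G).coeff a ^ b * (toP none R).coeff n ^ a := htop.2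
  have hne : (toP none R').coeff (a * n) ≠ 0 := by
    rw [htop']
    exact mul_ne_zero (pow_ne_zero _ hlc) (pow_ne_zero _ hn2)
  have hR'0 : R' ≠ 0 := by
    intro h
    rw [h] at hne
    simp at hne
  -- sizes
  have hcG : ∀ i k, ((toP (some l) G).coeff k).degreeOf (some i) ≤ g.degreeOf i := by
    intro i k
    rw [← hdegG i]
    exact degreeOf_coeff_toP _ _ _ _
  have hcR : ∀ i k, ((toP (some l) R).coeff k).degreeOf (some i) ≤ R.degreeOf (some i) :=
    fun i k => degreeOf_coeff_toP _ _ _ _
  have hbC : (b : ℝ) ≤ C0 * M / s (blk l) := hR.deg l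
  have had : (a : ℝ) ≤ d := by rw [haa]; exact_mod_cast hd l
  have hgl1 : 0 ≤ Real.log (l1 g) := Real.log_nonneg (one_le_l1 hg0)
  have hRl1 : 0 ≤ Real.log (l1 R) := Real.log_nonneg (one_le_l1 hR0)
  refine ⟨R', ⟨⟨a * n, htop.1, hne, ?_⟩, ?_, ?_, ?_, ?_⟩⟩
  · intro o ho
    rw [htop'] at ho
    rcases Finset.mem_union.1 (vars_mul _ _ ho) with h | h
    · exact hlcv o (vars_pow _ _ h)
    · exact hn3 o (vars_pow _ _ h)
  · intro l' hl' hmem
    have h1 := vars_resultant (toP (some l) G) (toP (some l) R) a b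
      (G.vars.erase (some l) ∪ R.vars.erase (some l))
      (fun k => (vars_coeff_toP _ _ _).trans Finset.subset_union_left)
      (fun k => (vars_coeff_toP _ _ _).trans Finset.subset_union_right) hmem
    rcases Finset.mem_union.1 h1 with h | h
    · rw [Finset.mem_erase] at h
      obtain ⟨i, hi, hil⟩ := hvG _ h.2
      have hil' : l' = i := Option.some_injective _ hil
      subst hil'
      rcases hv l' hi with h2 | h2
      · exact h.1 (by rw [h2])
      · rcases Finset.mem_insert.1 hl' with h3 | h3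
        · exact h.1 (by rw [h3])
        · exact hS l' h3 h2.1
    · rw [Finset.mem_erase] at h
      rcases Finset.mem_insert.1 hl' with h3 | h3
      · exact h.1 (by rw [h3])
      · exact hR.out l' h3 h.2
  · intro i
    have h1 : R'.degreeOf (some i) ≤ b * g.degreeOf i + a * R.degreeOf (some i) :=
      degreeOf_resultant _ _ a b (some i) _ _ (hcG i) (hcR i)
    have h2 : (R'.degreeOf (some i) : ℝ) ≤ b * g.degreeOf i + a * R.degreeOf (some i) := by
      exact_mod_cast h1
    have hX : 0 ≤ C0 * M / s (blk i) := div_nonneg (mul_nonneg hC hM) (hspos _).le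
    have h3 : (b : ℝ) * g.degreeOf i ≤ d * (C0 * M / s (blk i)) := by
      by_cases hz : g.degreeOf i = 0
      · rw [hz, Nat.cast_zero, mul_zero]
        exact mul_nonneg (Nat.cast_nonneg _) hX
      · have hi : i ∈ g.vars := mem_vars_iff_degreeOf_ne_zero.2 hz
        have hbl : blk i = blk l := by
          rcases hv i hi with h | h
          · rw [h]
          · exact h.2
        rw [hbl, mul_comm]
        refine mul_le_mul (by exact_mod_cast hd i) hbC (Nat.cast_nonneg _) (Nat.cast_nonneg _)
    have h4 : (a : ℝ) * R.degreeOf (some i) ≤ d * (C0 * M / s (blk i)) :=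
      mul_le_mul had (hR.deg i) (Nat.cast_nonneg _) (Nat.cast_nonneg _)
    have h5 : ((2 * d + 1) * C0) * M / s (blk i) =
        d * (C0 * M / s (blk i)) + d * (C0 * M / s (blk i)) + C0 * M / s (blk i) := by ring
    rw [h5]
    linarith
  · have h1 := l1_resultant (toP (some l) G) (toP (some l) R) a b
    have h2 : l1 R' ≤ l1 g ^ b * l1 R ^ a := by
      refine le_trans h1 ?_
      rw [← hl1G]
      refine mul_le_mul (pow_le_pow_left₀ (Finset.sum_nonneg (fun k _ => l1_nonneg _))
        (sum_l1_coeff_toP _ _ _) _) (pow_le_pow_left₀ (Finset.sum_nonneg (fun k _ => l1_nonneg _))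
        (sum_l1_coeff_toP _ _ _) _) (pow_nonneg (Finset.sum_nonneg (fun k _ => l1_nonneg _)) _)
        (pow_nonneg (l1_nonneg _) _)
    have h3 : Real.log (l1 R') ≤ b * Real.log (l1 g) + a * Real.log (l1 R) := by
      refine le_trans (Real.log_le_log (by linarith [one_le_l1 hR'0]) h2) ?_
      rw [Real.log_mul (pow_ne_zero _ (by linarith [one_le_l1 hg0]))
        (pow_ne_zero _ (by linarith [one_le_l1 hR0])), Real.log_pow, Real.log_pow]
    have h4 : (b : ℝ) * Real.log (l1 g) ≤ d * (C0 * M / s 0) := by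
      have e : (d : ℝ) * (C0 * M / s 0) = (C0 * M / s (blk l)) * (d * (s (blk l) / s 0)) := by
        have := (hspos (blk l)).ne'
        have := (hspos 0).ne'
        field_simp
      rw [e]
      exact mul_le_mul hbC hlog hgl1 (div_nonneg (mul_nonneg hC hM) (hspos _).le)
    have h5 : (a : ℝ) * Real.log (l1 R) ≤ d * (C0 * M / s 0) :=
      mul_le_mul had hR.ln hRl1 (Nat.cast_nonneg _)
    have h6 : ((2 * d + 1) * C0) * M / s 0 =
        d * (C0 * M / s 0) + d * (C0 * M / s 0) + C0 * M / s 0 := by ring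
    have h7 : 0 ≤ C0 * M / s 0 := div_nonneg (mul_nonneg hC hM) (hspos _).le
    rw [h6]
    linarith
  · obtain ⟨p, r, _, _, hpr⟩ := Polynomial.exists_mul_add_mul_eq_C_resultant (toP (some l) G)
      (toP (some l) R) (m := a) (n := b) (natDegree_toP _ _).le (natDegree_toP _ _).le
      (Or.inl ha0')
    have h1 := congrArg (Polynomial.eval (X (some l))) hpr
    rw [Polynomial.eval_add, Polynomial.eval_mul, Polynomial.eval_mul, Polynomial.eval_C,
      eval_toP, eval_toP, ← hR'] at h1
    rw [← h1, map_add, map_mul, map_mul, hR.zero, hG, aeval_rename]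
    have h2 : ((fun o : Option ι => o.elim u Ξ) ∘ some) = Ξ := by
      funext i
      rfl
    rw [h2, h0, zero_mul, zero_mul, add_zero]

lemma base {ι K : Type} [DecidableEq ι] [Field K] {q : ℕ} (blk : ι → Fin (q + 1))
    (I : Finset ι) (Ξ : ι → MvPowerSeries ι K) (s : Fin (q + 1) → ℝ)
    (M A0 : ℝ) (hs0 : 1 ≤ s 0) (hs : ∀ j, s 0 ≤ s j) (hM : s 0 ≤ M)
    (V : MvPolynomial ι ℤ) (hV0 : V ≠ 0) (hVd : ∀ i, (V.degreeOf i : ℝ) ≤ A0 * M / s (blk i))
    (hVl : Real.log (l1 V) ≤ A0 * M / s 0) :
    Elim I ∅ Ξ (aeval Ξ V) (fun i => (A0 + 1) * M / s (blk i)) ((A0 + 1) * M / s 0)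
      (X none - rename some V) := by
  classical
  have hspos : ∀ j, 0 < s j := fun j => by linarith [hs j]
  have hinj : Function.Injective (some : ι → Option ι) := Option.some_injective ι
  have hnV : none ∉ (rename some V : MvPolynomial (Option ι) ℤ).vars := by
    intro h
    have := vars_rename some V h
    rw [Finset.mem_image] at this
    obtain ⟨i, _, hi⟩ := this
    exact absurd hi (by simp)
  have htop : toP none (X none - rename some V : MvPolynomial (Option ι) ℤ) =
      Polynomial.X - Polynomial.C (rename some V) := by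
    rw [map_sub, toP_of_notMem hnV]
    congr 1
    unfold toP
    rw [aeval_X, if_pos rfl]
  refine ⟨⟨1, ?_, ?_, ?_⟩, ?_, ?_, ?_, ?_⟩
  · rw [htop, Polynomial.natDegree_X_sub_C]
  · rw [htop, Polynomial.coeff_sub, Polynomial.coeff_X_one, Polynomial.coeff_C_succ, sub_zero]
    exact one_ne_zero
  · rw [htop, Polynomial.coeff_sub, Polynomial.coeff_X_one, Polynomial.coeff_C_succ, sub_zero]
    intro o ho
    rw [vars_one] at ho
    exact absurd ho (Finset.notMem_empty _)
  · intro l hl
    exact absurd hl (Finset.notMem_empty _)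
  · intro i
    have h1 : (X none - rename some V : MvPolynomial (Option ι) ℤ).degreeOf (some i) ≤
        V.degreeOf i := by
      refine le_trans (degreeOf_sub_le _ _ _) ?_
      rw [degreeOf_X, if_neg (by simp), degreeOf_rename_of_injective hinj]
      simp
    have h2 : ((X none - rename some V : MvPolynomial (Option ι) ℤ).degreeOf (some i) : ℝ) ≤
        V.degreeOf i := by exact_mod_cast h1
    refine le_trans h2 (le_trans (hVd i) ?_)
    refine div_le_div_of_nonneg_right ?_ (hspos _).le
    nlinarith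
  · have h1 : l1 (X none - rename some V : MvPolynomial (Option ι) ℤ) ≤ 2 * l1 V := by
      rw [sub_eq_add_neg]
      refine le_trans (l1_add _ _) ?_
      rw [l1_neg, l1_X, l1_rename some hinj]
      linarith [one_le_l1 hV0]
    have h0 : (X none - rename some V : MvPolynomial (Option ι) ℤ) ≠ 0 := by
      intro h
      rw [h, map_zero] at htop
      have := congrArg (fun p => Polynomial.coeff p 1) htop
      simp [Polynomial.coeff_X_one] at this
    have h2 : Real.log (l1 (X none - rename some V : MvPolynomial (Option ι) ℤ)) ≤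
        Real.log 2 + Real.log (l1 V) := by
      refine le_trans (Real.log_le_log (by linarith [one_le_l1 h0]) h1) ?_
      rw [Real.log_mul (by norm_num) (by linarith [one_le_l1 hV0])]
    have h3 : Real.log 2 ≤ M / s 0 := by
      have : 1 ≤ M / s 0 := by
        rw [le_div_iff₀ (hspos 0)]
        linarith
      linarith [Real.log_two_lt_d9]
    have h4 : (A0 + 1) * M / s 0 = A0 * M / s 0 + M / s 0 := by ring
    rw [h4]
    linarith
  · rw [map_sub, aeval_X, aeval_rename]
    have h2 : ((fun o : Option ι => o.elim (aeval Ξ V) Ξ) ∘ some) = Ξ := by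
      funext i
      rfl
    rw [h2]
    simp

lemma wt_add {ι : Type} [Fintype ι] (H : ι → ℕ) (a b : ι →₀ ℕ) :
    wt H (a + b) = wt H a + wt H b := by
  unfold wt
  simp [add_mul, Finset.sum_add_distrib]

/-- the lowest coefficient -/
lemma lowest {ι K : Type} [DecidableEq ι] [Field K] (Ξ : ι → MvPowerSeries ι K)
    (u : MvPowerSeries ι K) (hu : u ≠ 0) (R : MvPolynomial (Option ι) ℤ) (hR : R ≠ 0)
    (I : Finset ι) (hI : ∀ l, l ∉ I → some l ∉ R.vars)
    (h0 : aeval (fun o : Option ι => o.elim u Ξ) R = 0) :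
    ∃ A : MvPolynomial ι ℤ, A ≠ 0 ∧ A.vars ⊆ I ∧ (∀ i, A.degreeOf i ≤ R.degreeOf (some i)) ∧
      l1 A ≤ l1 R ∧ ∃ w, aeval Ξ A = u * w := by
  classical
  have hinj : Function.Injective (some : ι → Option ι) := Option.some_injective ι
  set P := toP none R with hP
  have hP0 : P ≠ 0 := by
    intro h
    have h1 := eval_toP none R
    rw [← hP, h, Polynomial.eval_zero] at h1
    exact hR h1.symm
  set e := P.natTrailingDegree with he
  have hc0 : P.coeff e ≠ 0 := Polynomial.coeff_natTrailingDegree_ne_zero.2 hP0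
  obtain ⟨Q, hQ⟩ : Polynomial.X ^ e ∣ P := by
    rw [Polynomial.X_pow_dvd_iff]
    intro k hk
    exact Polynomial.coeff_eq_zero_of_lt_natTrailingDegree hk
  have hQ0 : Q.coeff 0 = P.coeff e := by
    rw [hQ]
    have := Polynomial.coeff_X_pow_mul Q e 0
    rw [zero_add] at this
    exact this.symm
  have hvars : ∀ o ∈ (P.coeff e).vars, ∃ i ∈ I, o = some i := by
    intro o ho
    have h1 := vars_coeff_toP none R e ho
    rw [Finset.mem_erase] at h1
    cases o with
    | none => exact absurd rfl h1.1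
    | some i =>
      refine ⟨i, ?_, rfl⟩
      by_contra hi
      exact hI i hi h1.2
  obtain ⟨A, hA⟩ := exists_rename_eq_of_vars_subset_range (P.coeff e) (some : ι → Option ι) hinj
    (by
      intro o ho
      obtain ⟨i, _, rfl⟩ := hvars o ho
      exact ⟨i, rfl⟩)
  have hdA : ∀ i, A.degreeOf i = (P.coeff e).degreeOf (some i) := by
    intro i
    rw [← hA, degreeOf_rename_of_injective hinj]
  refine ⟨A, ?_, ?_, ?_, ?_, ?_⟩
  · rintro rfl
    rw [map_zero] at hA
    exact hc0 hA.symm
  · intro i hi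
    have h1 : (P.coeff e).degreeOf (some i) ≠ 0 := by
      rw [← hdA]
      exact mem_vars_iff_degreeOf_ne_zero.1 hi
    obtain ⟨j, hj, hij⟩ := hvars _ (mem_vars_iff_degreeOf_ne_zero.2 h1)
    rw [hinj hij]
    exact hj
  · intro i
    rw [hdA]
    exact degreeOf_coeff_toP _ _ _ _
  · have h1 : l1 A = l1 (P.coeff e) := by rw [← hA, l1_rename some hinj]
    rw [h1]
    exact l1_coeff_toP _ _ _
  · set E : MvPolynomial (Option ι) ℤ →+* MvPowerSeries ι K :=
      (aeval (fun o : Option ι => o.elim u Ξ) : MvPolynomial (Option ι) ℤ →ₐ[ℤ] _).toRingHom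
      with hE
    have hEA : E (P.coeff e) = aeval Ξ A := by
      rw [← hA]
      have h1 : E (rename some A) = aeval (fun o : Option ι => o.elim u Ξ) (rename some A) := rfl
      rw [h1, aeval_rename]
      rfl
    have hEX : E (X none) = u := by
      have h1 : E (X none) = aeval (fun o : Option ι => o.elim u Ξ) (X none) := rfl
      rw [h1, aeval_X]
      rfl
    have h1 : E ((toP none R).eval (X none)) = 0 := by
      rw [eval_toP]
      exact h0
    rw [← hP, Polynomial.eval, Polynomial.hom_eval₂, RingHom.comp_id, hEX, hQ,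
      Polynomial.eval₂_mul, Polynomial.eval₂_pow, Polynomial.eval₂_X,
      ← Polynomial.divX_mul_X_add Q, Polynomial.eval₂_add, Polynomial.eval₂_mul,
      Polynomial.eval₂_X, Polynomial.eval₂_C, hQ0, hEA] at h1
    have h2 := (mul_eq_zero.1 h1).resolve_left (pow_ne_zero _ hu)
    refine ⟨-(Polynomial.eval₂ E u Q.divX), ?_⟩
    rw [mul_neg, eq_neg_iff_add_eq_zero, mul_comm u, add_comm]
    exact h2

/-- the branch and the Taylor expansion -/
lemma coe_shf {ι K : Type} [Field K] (I : Finset ι) (U : ι → K) (g : ι → MvPolynomial ι ℤ)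
    (Ξ : ι → MvPowerSeries ι K) (h : IsBranch I U g Ξ) (A : MvPolynomial ι ℤ) (hA : A.vars ⊆ I) :
    ((shf U A : MvPolynomial ι K) : MvPowerSeries ι K) = aeval Ξ A := by
  classical
  have h1 : ((shf U A : MvPolynomial ι K) : MvPowerSeries ι K) =
      ((MvPolynomial.coeToMvPowerSeries.ringHom : MvPolynomial ι K →+* MvPowerSeries ι K).comp
        (aeval (fun i => C (U i) + X i) : MvPolynomial ι ℤ →ₐ[ℤ] MvPolynomial ι K).toRingHom) A :=
    rfl
  have h2 : aeval Ξ A = (aeval Ξ : MvPolynomial ι ℤ →ₐ[ℤ] MvPowerSeries ι K).toRingHom A := rfl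
  rw [h1, h2]
  refine hom_congr_vars (RingHom.ext_int _ _) (fun i hi _ => ?_) rfl
  have h3 : (aeval Ξ : MvPolynomial ι ℤ →ₐ[ℤ] MvPowerSeries ι K).toRingHom (X i) = Ξ i :=
    aeval_X _ _
  rw [h3, h.free i (hA hi)]
  simp

end BH

open BH in
theorem zprime {ι : Type} [Fintype ι] [DecidableEq ι] {q : ℕ} (blk : ι → Fin (q + 1))
    (I : Finset ι) (d : ℕ) (A0 θ : ℝ) (hA0 : 0 ≤ A0) (hθ : 0 < θ) : ∃ A1 : ℝ,
    ∀ (K : Type) [Field K] [CharZero K] (U : ι → K) (g : ι → MvPolynomial ι ℤ)
      (Ξ : ι → MvPowerSeries ι K) (s : Fin (q + 1) → ℝ) (H : ι → ℕ) (M : ℝ)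
      (V : MvPolynomial ι ℤ) (m : ℕ),
      IsRel I blk U g → IsBranch I U g Ξ → (∀ l, l ∉ I → ∀ i, (g l).degreeOf i ≤ d) →
      1 ≤ s 0 → (∀ j, s 0 ≤ s j) → (∀ l, l ∉ I → Real.log (l1 (g l)) ≤ d * (s (blk l) / s 0)) →
      (∀ i, s (blk i) ≤ H i ∧ (H i : ℝ) ≤ 2 * s (blk i)) → (∀ j, s j ≤ M) →
      (∀ i, (V.degreeOf i : ℝ) ≤ A0 * M / s (blk i)) → Real.log (l1 V) ≤ A0 * M / s 0 →
      aeval Ξ V ≠ 0 → (∀ γ, wt H γ < m → MvPowerSeries.coeff γ (aeval Ξ V) = 0) → θ * M ≤ m →
      ∃ R : MvPolynomial ι ℤ, R ≠ 0 ∧ R.vars.Nonempty ∧ R.vars ⊆ I ∧ aeval U R = 0 ∧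
        ∀ i ∈ R.vars, sz H (s 0) R ≤ A1 * H i := by
  classical
  set N := Fintype.card ι with hN
  set Cc : ℝ := (2 * d + 1) ^ N * (A0 + 1) with hCc
  set C' : ℝ := (2 * N + 1) * Cc with hC'
  have hCcpos : 0 < Cc := by positivity
  have hC'pos : 0 < C' := by positivity
  obtain ⟨A1, hA1⟩ := lemmaZ N (θ / C') (div_pos hθ hC'pos)
  refine ⟨A1, ?_⟩
  intro K _ _ U g Ξ s H M V m hrel hbr hdeg hs0 hs hlog hH hsM hVd hVl hV0 hVc hm
  have hspos : ∀ j, 0 < s j := fun j => by linarith [hs j]
  have hM0 : s 0 ≤ M := hsM 0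
  have hMpos : 0 < M := by linarith
  have hVne : V ≠ 0 := by
    rintro rfl
    simp at hV0
  have hb := base blk I Ξ s M A0 hs0 hs hM0 V hVne hVd hVl
  set u := aeval Ξ V with hu
  have ind : ∀ S : Finset ι, (∀ i ∈ S, i ∉ I) → ∃ R : MvPolynomial (Option ι) ℤ,
      Elim I S Ξ u (fun i => ((2 * d + 1) ^ S.card * (A0 + 1)) * M / s (blk i))
        (((2 * d + 1) ^ S.card * (A0 + 1)) * M / s 0) R := by
    intro S
    induction S using Finset.induction_on with
    | empty =>
      intro _
      refine ⟨X none - rename some V, ?_⟩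
      rw [Finset.card_empty, pow_zero, one_mul]
      exact hb
    | insert l S hlS ih =>
      intro hS
      obtain ⟨R, hR⟩ := ih (fun i hi => hS i (Finset.mem_insert_of_mem hi))
      have hl : l ∉ I := hS l (Finset.mem_insert_self l S)
      have hlv : l ∈ (g l).vars := by
        by_contra h
        apply hrel.der l hl
        rw [pderiv_eq_zero_of_notMem_vars h, map_zero]
      obtain ⟨R', hR'⟩ := step blk I S Ξ u s M ((2 * d + 1) ^ S.card * (A0 + 1)) d hs0 hs hMpos.le
        (by positivity) R hR l hl (g l) (hrel.vars l hl)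
        (fun i hi => hS i (Finset.mem_insert_of_mem hi)) (hdeg l hl) (hlog l hl) hlv
        (hbr.rel l hl)
      refine ⟨R', ?_⟩
      rw [Finset.card_insert_of_notMem hlS, pow_succ']
      have e : ((2 * (d : ℝ) + 1) * (2 * d + 1) ^ S.card * (A0 + 1)) =
        (2 * d + 1) * ((2 * d + 1) ^ S.card * (A0 + 1)) := by ring
      rw [e]
      exact hR'
  obtain ⟨R, hR⟩ := ind Iᶜ (fun i hi => Finset.mem_compl.1 hi)
  obtain ⟨A, hA0', hAv, hAd, hAl, w, hw⟩ := lowest Ξ u hV0 R hR.ne_zero I
    (fun l hl => hR.out l (Finset.mem_compl.2 hl)) hR.zero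
  have hpow : ((2 * (d : ℝ) + 1) ^ (Iᶜ : Finset ι).card * (A0 + 1)) ≤ Cc := by
    rw [hCc]
    refine mul_le_mul_of_nonneg_right (pow_le_pow_right₀ ?_ (Finset.card_le_univ _)) (by linarith)
    have : (0 : ℝ) ≤ d := Nat.cast_nonneg d
    linarith
  have hsz : sz H (s 0) A ≤ C' * M := by
    have h1 : ∀ i, (H i : ℝ) * A.degreeOf i ≤ 2 * (Cc * M) := by
      intro i
      have h2 : (A.degreeOf i : ℝ) ≤ Cc * M / s (blk i) := by
        have h3 : (A.degreeOf i : ℝ) ≤ R.degreeOf (some i) := by exact_mod_cast hAd i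
        refine le_trans h3 (le_trans (hR.deg i) ?_)
        refine div_le_div_of_nonneg_right ?_ (hspos _).le
        exact mul_le_mul_of_nonneg_right hpow hMpos.le
      calc (H i : ℝ) * A.degreeOf i ≤ (2 * s (blk i)) * (Cc * M / s (blk i)) :=
            mul_le_mul (hH i).2 h2 (Nat.cast_nonneg _) (by linarith [hspos (blk i)])
        _ = 2 * (Cc * M) := by
            have := (hspos (blk i)).ne'
            field_simp
    have h2 : s 0 * Real.log (l1 A) ≤ Cc * M := by
      have h3 : Real.log (l1 A) ≤ Cc * M / s 0 := by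
        refine le_trans (Real.log_le_log (by linarith [one_le_l1 hA0']) hAl)
          (le_trans hR.ln ?_)
        refine div_le_div_of_nonneg_right ?_ (hspos _).le
        exact mul_le_mul_of_nonneg_right hpow hMpos.le
      calc s 0 * Real.log (l1 A) ≤ s 0 * (Cc * M / s 0) :=
            mul_le_mul_of_nonneg_left h3 (hspos 0).le
        _ = Cc * M := by
            have := (hspos 0).ne'
            field_simp
    have h4 : ∑ i, (H i : ℝ) * A.degreeOf i ≤ N * (2 * (Cc * M)) := by
      refine le_trans (Finset.sum_le_sum (fun i _ => h1 i)) ?_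
      rw [Finset.sum_const, Finset.card_univ, nsmul_eq_mul]
    unfold sz
    have h5 : C' * M = N * (2 * (Cc * M)) + Cc * M := by rw [hC']; ring
    rw [h5]
    linarith
  have hord : m ≤ ordW H U A := by
    refine le_ordW H U hA0' m (fun γ hγ => ?_)
    have h1 : coeff γ (shf U A) = MvPowerSeries.coeff γ (u * w) := by
      rw [← hw, ← coe_shf I U g Ξ hbr A hAv, MvPolynomial.coeff_coe]
    rw [h1, MvPowerSeries.coeff_mul]
    refine Finset.sum_eq_zero (fun p hp => ?_)
    rw [Finset.HasAntidiagonal.mem_antidiagonal] at hp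
    have h2 : wt H p.1 < m := by
      have h3 := wt_add H p.1 p.2
      rw [hp] at h3
      omega
    rw [hVc p.1 h2, zero_mul]
  have hmpos : 0 < m := by
    have h1 : 0 < θ * M := mul_pos hθ hMpos
    have h2 : (0 : ℝ) < m := lt_of_lt_of_le h1 hm
    exact_mod_cast h2
  obtain ⟨R1, h1, h2, h3, h4, h5⟩ := hA1 ι K U H (s 0) hs0
    (fun i => le_trans (hs (blk i)) (hH i).1) A hA0' (Finset.card_le_univ _)
    (by omega) (by
      have h6 : (m : ℝ) ≤ ordW H U A := by exact_mod_cast hord
      refine le_trans ?_ (le_trans hm h6)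
      calc θ / C' * sz H (s 0) A ≤ θ / C' * (C' * M) :=
            mul_le_mul_of_nonneg_left hsz (div_nonneg hθ.le hC'pos.le)
        _ = θ * M := by
            field_simp)
  exact ⟨R1, h1, h2, h3.trans hAv, h4, h5⟩

end Pool.Agent.AL
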