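import Pool.Agent.Lib.MP_c95b3b_ag_AL.ZA
import Pool.Agent.Lib.MP_c95b3b_ag_AL.BH

/-! Project AL (MP_c95b3b_ag), module BI: choice of the relations. -/

namespace Pool.Agent.AL

open Pool.Agent.L3 Pool.Agent.KP Module MvPolynomial

private lemma bi_noRel_empty {ι K : Type} [Fintype ι] [Field K] [CharZero K] {q : ℕ}
    (blk : ι → Fin (q + 1)) (P : ι → K) (s : Fin (q + 1) → ℝ) (B : ℝ) :
    NoRel ∅ blk P s B := by
  intro j R hR hv _ _
  have h1 : R.vars = ∅ := by
    rw [Finset.eq_empty_iff_forall_notMem]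
    intro i hi
    exact absurd (hv i hi).1 (Finset.notMem_empty i)
  rw [vars_eq_empty_iff_eq_C] at h1
  rw [h1, aeval_C]
  intro h0
  have h2 : ((coeff 0 R : ℤ) : K) = 0 := by
    rw [← h0]
    simp
  have h3 : coeff 0 R = 0 := by exact_mod_cast h2
  rw [h3, C_0] at h1
  exact hR h1

/-- the descent by derivatives -/
private lemma bi_descent {ι K : Type} [Fintype ι] [DecidableEq ι] [Field K] {q : ℕ} {I : Finset ι}
    {blk : ι → Fin (q + 1)} {P : ι → K} {s : Fin (q + 1) → ℝ} {l : ι}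
    {j : Fin (q + 1)} {b B' : ℝ} (hb : 0 ≤ b) (hB' : b + b * Real.log (b + 1) ≤ B')
    (hρ : 1 ≤ s j / s 0) (hno : NoRel I blk P s B') {R : MvPolynomial ι ℤ}
    (hv : ∀ i ∈ R.vars, i ∈ insert l I ∧ blk i = j) (hd : ∀ i, (R.degreeOf i : ℝ) ≤ b)
    (hl1 : Real.log (l1 R) ≤ b * (s j / s 0)) :
    ∀ (t : ℕ) (T : MvPolynomial ι ℤ), T.degreeOf l = t → T ≠ 0 → T.vars ⊆ R.vars →
      (∀ i, T.degreeOf i ≤ R.degreeOf i) →
      Real.log (l1 T) ≤ Real.log (l1 R) +
        ((R.degreeOf l : ℝ) - T.degreeOf l) * Real.log (b + 1) → aeval P T = 0 →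
      ∃ G : MvPolynomial ι ℤ, G.vars ⊆ R.vars ∧ l ∈ G.vars ∧ (∀ i, (G.degreeOf i : ℝ) ≤ b) ∧
        Real.log (l1 G) ≤ B' * (s j / s 0) ∧ aeval P G = 0 ∧ aeval P (pderiv l G) ≠ 0 := by
  have hlog : 0 ≤ Real.log (b + 1) := Real.log_nonneg (by linarith)
  have hbl : 0 ≤ b * Real.log (b + 1) := mul_nonneg hb hlog
  intro t
  induction t using Nat.strong_induction_on with
  | _ t ih =>
    intro T hTt hT0 hTv hTd hTl hTa
    have hbound : Real.log (l1 T) ≤ B' * (s j / s 0) := by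
      have h1 : ((R.degreeOf l : ℝ) - T.degreeOf l) * Real.log (b + 1) ≤
          b * Real.log (b + 1) := by
        refine mul_le_mul_of_nonneg_right ?_ hlog
        have := hd l
        have h2 : (0 : ℝ) ≤ T.degreeOf l := Nat.cast_nonneg _
        linarith
      have h3 : b * Real.log (b + 1) ≤ b * Real.log (b + 1) * (s j / s 0) :=
        le_mul_of_one_le_right hbl hρ
      have h4 : (b + b * Real.log (b + 1)) * (s j / s 0) ≤ B' * (s j / s 0) :=
        mul_le_mul_of_nonneg_right hB' (by linarith)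
      have h5 : (b + b * Real.log (b + 1)) * (s j / s 0) =
          b * (s j / s 0) + b * Real.log (b + 1) * (s j / s 0) := by ring
      linarith
    have hTdb : ∀ i, (T.degreeOf i : ℝ) ≤ b := fun i =>
      le_trans (by exact_mod_cast hTd i) (hd i)
    have hlT : l ∈ T.vars := by
      by_contra hlT
      refine hno j T hT0 (fun i hi => ?_) (fun i => (hTdb i).trans ?_) hbound hTa
      · have h1 := hv i (hTv hi)
        refine ⟨(Finset.mem_insert.1 h1.1).resolve_left ?_, h1.2⟩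
        rintro rfl
        exact hlT hi
      · linarith
    by_cases hda : aeval P (pderiv l T) = 0
    · obtain ⟨h1, h2⟩ := degreeOf_pderiv_self T l hlT
      refine ih _ (hTt ▸ h1) (pderiv l T) rfl h2 ((vars_pderiv T l).trans hTv)
        (fun i => (degreeOf_pderiv_le T l i).trans (hTd i)) ?_ hda
      have h3 : Real.log (l1 (pderiv l T)) ≤ Real.log (b + 1) + Real.log (l1 T) := by
        have h4 : 1 ≤ l1 T := one_le_l1 hT0
        have h5 : 1 ≤ l1 (pderiv l T) := one_le_l1 h2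
        rw [← Real.log_mul (by linarith) (by linarith)]
        refine Real.log_le_log (by linarith) ((l1_pderiv T l).trans ?_)
        exact mul_le_mul_of_nonneg_right (by linarith [hTdb l]) (by linarith)
      have h6 : ((pderiv l T).degreeOf l : ℝ) + 1 ≤ T.degreeOf l := by exact_mod_cast h1
      have h7 : ((R.degreeOf l : ℝ) - T.degreeOf l + 1) * Real.log (b + 1) ≤
          ((R.degreeOf l : ℝ) - (pderiv l T).degreeOf l) * Real.log (b + 1) :=
        mul_le_mul_of_nonneg_right (by linarith) hlog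
      linarith
    · exact ⟨T, hTv, hlT, hTdb, hbound, hTa, hda⟩

theorem exists_rel {ι : Type} [Fintype ι] [DecidableEq ι] {q : ℕ} (blk : ι → Fin (q + 1))
    (𝒰 : Ultrafilter ℕ) (K : ℕ → Type) [∀ n, Field (K n)] [∀ n, CharZero (K n)]
    (U : ∀ n, ι → K n) (s : ℕ → Fin (q + 1) → ℝ) (hs : Scales q 𝒰 s) :
    ∃ (I : Finset ι) (d : ℕ) (g : ∀ _ : ℕ, ι → MvPolynomial ι ℤ),
      (∀ B : ℝ, ∀ᶠ n in (𝒰 : Filter ℕ), NoRel I blk (U n) (s n) B) ∧
      ∀ᶠ n in (𝒰 : Filter ℕ), IsRel I blk (U n) (g n) ∧ ∀ l, l ∉ I →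
        (∀ i, (g n l).degreeOf i ≤ d) ∧ Real.log (l1 (g n l)) ≤ d * (s n (blk l) / s n 0) := by
  classical
  set Good : Finset ι → Prop := fun I =>
    ∀ B : ℝ, ∀ᶠ n in (𝒰 : Filter ℕ), NoRel I blk (U n) (s n) B with hGood
  have hne : ((Finset.univ : Finset (Finset ι)).filter Good).Nonempty :=
    ⟨∅, by
      rw [Finset.mem_filter]
      exact ⟨Finset.mem_univ _, fun B => Filter.Eventually.of_forall fun n =>
        bi_noRel_empty blk (U n) (s n) B⟩⟩
  obtain ⟨I, hI, hmax⟩ := Finset.exists_max_image _ Finset.card hne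
  have hIg : Good I := (Finset.mem_filter.1 hI).2
  have hbad : ∀ l, ∃ B : ℝ, l ∉ I →
      ∀ᶠ n in (𝒰 : Filter ℕ), ¬ NoRel (insert l I) blk (U n) (s n) B := by
    intro l
    by_cases hl : l ∈ I
    · exact ⟨0, fun h => absurd hl h⟩
    · have h1 : ¬ Good (insert l I) := by
        intro h2
        have h3 := hmax (insert l I) (by
          rw [Finset.mem_filter]
          exact ⟨Finset.mem_univ _, h2⟩)
        rw [Finset.card_insert_of_notMem hl] at h3
        omega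
      simp only [hGood, not_forall] at h1
      obtain ⟨B, hB⟩ := h1
      exact ⟨B, fun _ => Ultrafilter.eventually_not.2 hB⟩
  choose B0 hB0 using hbad
  set b : ι → ℝ := fun l => max (B0 l) 0 with hb
  have hb0 : ∀ l, 0 ≤ b l := fun l => le_max_right _ _
  set B' : ι → ℝ := fun l => b l + b l * Real.log (b l + 1) with hB'
  have hB'0 : ∀ l, 0 ≤ B' l := fun l =>
    add_nonneg (hb0 l) (mul_nonneg (hb0 l) (Real.log_nonneg (by linarith [hb0 l])))
  have hbB' : ∀ l, b l ≤ B' l := fun l =>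
    le_add_of_nonneg_right (mul_nonneg (hb0 l) (Real.log_nonneg (by linarith [hb0 l])))
  set d : ℕ := ⌈∑ l, B' l⌉₊ with hd
  have hdB : ∀ l, B' l ≤ d := fun l =>
    (Finset.single_le_sum (fun i _ => hB'0 i) (Finset.mem_univ l)).trans (Nat.le_ceil _)
  have hall : ∀ᶠ n in (𝒰 : Filter ℕ), ∀ l, l ∉ I →
      ¬ NoRel (insert l I) blk (U n) (s n) (B0 l) ∧ NoRel I blk (U n) (s n) (B' l) := by
    rw [Filter.eventually_all]
    intro l
    by_cases hl : l ∈ I
    · exact Filter.Eventually.of_forall fun n h => absurd hl h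
    · filter_upwards [hB0 l hl, hIg (B' l)] with n h1 h2 _
      exact ⟨h1, h2⟩
  have key : ∀ᶠ n in (𝒰 : Filter ℕ), ∃ g : ι → MvPolynomial ι ℤ,
      IsRel I blk (U n) g ∧ ∀ l, l ∉ I →
        (∀ i, (g l).degreeOf i ≤ d) ∧ Real.log (l1 (g l)) ≤ d * (s n (blk l) / s n 0) := by
    filter_upwards [hall, hs.large 1, hs.sep 1] with n h1 h2 h3
    have hs0 : 0 < s n 0 := by linarith
    have hρ : ∀ j, 1 ≤ s n j / s n 0 := by
      intro j
      rw [le_div_iff₀ hs0]
      rcases Nat.eq_zero_or_pos (j : ℕ) with hj | hj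
      · have : j = 0 := Fin.ext hj
        rw [this]
        linarith
      · exact h3 0 j (Fin.lt_def.2 hj)
    have hex : ∀ l, ∃ G : MvPolynomial ι ℤ, l ∉ I →
        (∀ i ∈ G.vars, i = l ∨ (i ∈ I ∧ blk i = blk l)) ∧ aeval (U n) G = 0 ∧
        aeval (U n) (pderiv l G) ≠ 0 ∧ (∀ i, G.degreeOf i ≤ d) ∧
        Real.log (l1 G) ≤ d * (s n (blk l) / s n 0) := by
      intro l
      by_cases hl : l ∈ I
      · exact ⟨0, fun h => absurd hl h⟩
      · obtain ⟨h4, h5⟩ := h1 l hl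
        unfold NoRel at h4
        push Not at h4
        obtain ⟨j, R, hR0, hRv, hRd, hRl, hRa⟩ := h4
        have hle : B0 l ≤ b l := le_max_left _ _
        have hρ0 : 0 ≤ s n j / s n 0 := by linarith [hρ j]
        obtain ⟨G, hG1, hG2, hG3, hG4, hG5, hG6⟩ := bi_descent (hb0 l) (le_refl (B' l)) (hρ j) h5
          hRv (fun i => (hRd i).trans hle)
          (hRl.trans (mul_le_mul_of_nonneg_right hle hρ0)) _ R rfl hR0 (Finset.Subset.refl _)
          (fun i => le_rfl) (by rw [sub_self, zero_mul, add_zero]) hRa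
        have hj : blk l = j := (hRv l (hG1 hG2)).2
        refine ⟨G, fun _ => ⟨fun i hi => ?_, hG5, hG6, fun i => ?_, ?_⟩⟩
        · obtain ⟨h6, h7⟩ := hRv i (hG1 hi)
          rcases Finset.mem_insert.1 h6 with h8 | h8
          · exact Or.inl h8
          · exact Or.inr ⟨h8, h7.trans hj.symm⟩
        · have h9 : (G.degreeOf i : ℝ) ≤ d := (hG3 i).trans ((hbB' l).trans (hdB l))
          exact_mod_cast h9
        · rw [hj]
          exact hG4.trans (mul_le_mul_of_nonneg_right (hdB l) hρ0)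
    choose G hG using hex
    exact ⟨G, ⟨fun l hl => (hG l hl).1, fun l hl => (hG l hl).2.1, fun l hl => (hG l hl).2.2.1⟩,
      fun l hl => (hG l hl).2.2.2⟩
  refine ⟨I, d, fun n => if h : ∃ g : ι → MvPolynomial ι ℤ,
      IsRel I blk (U n) g ∧ ∀ l, l ∉ I →
        (∀ i, (g l).degreeOf i ≤ d) ∧ Real.log (l1 (g l)) ≤ d * (s n (blk l) / s n 0)
      then h.choose else 0, hIg, ?_⟩
  filter_upwards [key] with n hn
  simp only [dif_pos hn]
  exact hn.choose_spec

theorem order_small {ι : Type} [Fintype ι] [DecidableEq ι] {q : ℕ} (blk : ι → Fin (q + 1))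
    (𝒰 : Ultrafilter ℕ) (K : ℕ → Type) [∀ n, Field (K n)] [∀ n, CharZero (K n)]
    (U : ∀ n, ι → K n) (s : ℕ → Fin (q + 1) → ℝ) (hs : Scales q 𝒰 s) (I : Finset ι) (d : ℕ)
    (g : ∀ _ : ℕ, ι → MvPolynomial ι ℤ)
    (hno : ∀ B : ℝ, ∀ᶠ n in (𝒰 : Filter ℕ), NoRel I blk (U n) (s n) B)
    (hg : ∀ᶠ n in (𝒰 : Filter ℕ), IsRel I blk (U n) (g n) ∧ ∀ l, l ∉ I →
        (∀ i, (g n l).degreeOf i ≤ d) ∧ Real.log (l1 (g n l)) ≤ d * (s n (blk l) / s n 0))
    (A0 θ : ℝ) (hA0 : 0 ≤ A0) (hθ : 0 < θ) :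
    ∀ᶠ n in (𝒰 : Filter ℕ), ∀ (Ξ : ι → MvPowerSeries ι (K n)) (H : ι → ℕ) (M : ℝ)
      (V : MvPolynomial ι ℤ) (m : ℕ), IsBranch I (U n) (g n) Ξ →
      (∀ i, s n (blk i) ≤ H i ∧ (H i : ℝ) ≤ 2 * s n (blk i)) → (∀ j, s n j ≤ M) →
      (∀ i, (V.degreeOf i : ℝ) ≤ A0 * M / s n (blk i)) → Real.log (l1 V) ≤ A0 * M / s n 0 →
      aeval Ξ V ≠ 0 → (∀ γ, wt H γ < m → MvPowerSeries.coeff γ (aeval Ξ V) = 0) →
      (m : ℝ) < θ * M := by
  classical
  obtain ⟨A1, hA1⟩ := zprime blk I d A0 θ hA0 hθ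
  set A : ℝ := max A1 1 with hA
  have hAA1 : A1 ≤ A := le_max_left _ _
  have hA1' : 1 ≤ A := le_max_right _ _
  filter_upwards [hs.large 1, hs.sep (4 * A + 1), hno (2 * A), hg] with n hn1 hn2 hn3 hn4
  intro Ξ H M V m hΞ hH hM hVd hVl hV0 hVc
  by_contra hcon
  push Not at hcon
  have hs0 : 0 < s n 0 := by linarith
  have hs0j : ∀ j, s n 0 ≤ s n j := by
    intro j
    rcases Nat.eq_zero_or_pos (j : ℕ) with hj | hj
    · have : j = 0 := Fin.ext hj
      rw [this]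
    · have h1 := hn2 0 j (Fin.lt_def.2 hj)
      nlinarith
  have hH1 : ∀ i, 1 ≤ (H i : ℝ) := fun i => (hn1.trans (hs0j _)).trans (hH i).1
  obtain ⟨R, hR0, ⟨i0, hi0⟩, hRI, hRa, hRs⟩ := hA1 (K n) (U n) (g n) Ξ (s n) H M V m hn4.1 hΞ
    (fun l hl => (hn4.2 l hl).1) hn1 hs0j (fun l hl => (hn4.2 l hl).2) hH hM hVd hVl hV0 hVc hcon
  have hlogR : 0 ≤ Real.log (l1 R) := Real.log_nonneg (one_le_l1 hR0)
  have hsz1 : ∀ i, (H i : ℝ) * R.degreeOf i ≤ sz H (s n 0) R := by
    intro i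
    have h1 : (H i : ℝ) * R.degreeOf i ≤ ∑ i, (H i : ℝ) * R.degreeOf i :=
      Finset.single_le_sum (f := fun i => (H i : ℝ) * R.degreeOf i)
        (fun i _ => by positivity) (Finset.mem_univ i)
    have h2 : 0 ≤ s n 0 * Real.log (l1 R) := mul_nonneg hs0.le hlogR
    unfold sz
    linarith
  have hsz2 : s n 0 * Real.log (l1 R) ≤ sz H (s n 0) R := by
    have h1 : 0 ≤ ∑ i, (H i : ℝ) * R.degreeOf i := Finset.sum_nonneg fun i _ => by positivity
    unfold sz
    linarith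
  have hszA : ∀ i ∈ R.vars, sz H (s n 0) R ≤ A * H i := fun i hi =>
    (hRs i hi).trans (mul_le_mul_of_nonneg_right hAA1 (by linarith [hH1 i]))
  have hdeg1 : ∀ i ∈ R.vars, (1 : ℝ) ≤ R.degreeOf i := by
    intro i hi
    have h1 := mem_vars_iff_degreeOf_ne_zero.1 hi
    exact_mod_cast Nat.one_le_iff_ne_zero.2 h1
  have hcmp : ∀ i ∈ R.vars, ∀ i' ∈ R.vars, s n (blk i') ≤ 2 * A * s n (blk i) := by
    intro i hi i' hi'
    have h1 : (H i' : ℝ) ≤ H i' * R.degreeOf i' :=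
      le_mul_of_one_le_right (by linarith [hH1 i']) (hdeg1 i' hi')
    have h2 := (h1.trans (hsz1 i')).trans (hszA i hi)
    have h3 := (hH i').1
    have h4 : A * H i ≤ A * (2 * s n (blk i)) :=
      mul_le_mul_of_nonneg_left (hH i).2 (by linarith)
    linarith
  have hnlt : ∀ i ∈ R.vars, ∀ i' ∈ R.vars, ¬ blk i < blk i' := by
    intro i hi i' hi' hlt
    have h1 := hn2 _ _ hlt
    have h2 := hcmp i hi i' hi'
    have h3 : 0 < s n (blk i) := by linarith [hs0j (blk i)]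
    nlinarith
  have hblk : ∀ i ∈ R.vars, blk i = blk i0 := by
    intro i hi
    rcases lt_trichotomy (blk i) (blk i0) with h | h | h
    · exact absurd h (hnlt i hi i0 hi0)
    · exact h
    · exact absurd h (hnlt i0 hi0 i hi)
  refine hn3 (blk i0) R hR0 (fun i hi => ⟨hRI hi, hblk i hi⟩) (fun i => ?_) ?_ hRa
  · by_cases hi : i ∈ R.vars
    · have h1 := (hsz1 i).trans (hszA i hi)
      have h2 : (R.degreeOf i : ℝ) ≤ A := by
        have h3 : (0 : ℝ) < H i := by linarith [hH1 i]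
        rw [mul_comm A] at h1
        exact le_of_mul_le_mul_left h1 h3
      linarith
    · have h1 : R.degreeOf i = 0 := by
        by_contra h
        exact hi (mem_vars_iff_degreeOf_ne_zero.2 h)
      rw [h1]
      push_cast
      linarith
  · have h1 := hsz2.trans (hszA i0 hi0)
    have h2 : A * H i0 ≤ A * (2 * s n (blk i0)) :=
      mul_le_mul_of_nonneg_left (hH i0).2 (by linarith)
    have h3 : s n 0 * Real.log (l1 R) ≤ 2 * A * s n (blk i0) := by linarith
    have h4 : 2 * A * (s n (blk i0) / s n 0) = 2 * A * s n (blk i0) / s n 0 := by ring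
    rw [h4, le_div_iff₀ hs0]
    linarith

end Pool.Agent.AL
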