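import Pool.Agent.Lib.MP_c95b3b_ag_AL.DefsC

/-! Project AL (MP_c95b3b_ag), module CA: algebraic points with given monomials.
The group of nonzero algebraic numbers is divisible, hence an injective ℤ-module; the
homomorphism given by the `c l` extends along the injection given by `γ`. -/

namespace Pool.Agent.AL

open Module MvPolynomial Pool.Agent.CITR
open Pool.Agent.L3 (Special)

namespace CA

/-- the group of nonzero algebraic numbers -/
def algUnits : Subgroup ℂˣ where
  carrier := {u | IsAlgebraic ℚ (u : ℂ)}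
  mul_mem' := by
    intro a b ha hb
    simp only [Set.mem_ofPred_eq] at ha hb ⊢
    rw [Units.val_mul]
    exact ha.mul hb
  one_mem' := by
    simp only [Set.mem_ofPred_eq, Units.val_one]
    exact isAlgebraic_one
  inv_mem' := by
    intro a ha
    simp only [Set.mem_ofPred_eq] at ha ⊢
    rw [Units.val_inv_eq_inv_val]
    exact ha.inv

theorem exists_pow (u : algUnits) {n : ℕ} (hn : 0 < n) : ∃ v : algUnits, v ^ n = u := by
  obtain ⟨z, hz⟩ := IsAlgClosed.exists_pow_nat_eq ((u : ℂˣ) : ℂ) hn
  have hu : ((u : ℂˣ) : ℂ) ≠ 0 := Units.ne_zero _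
  have hz0 : z ≠ 0 := by
    intro h
    rw [h, zero_pow hn.ne'] at hz
    exact hu hz.symm
  have halg : IsAlgebraic ℚ z := by
    have h1 : IsAlgebraic ℚ (z ^ n) := by
      rw [hz]
      exact u.2
    exact IsAlgebraic.of_pow hn h1
  refine ⟨⟨Units.mk0 z hz0, halg⟩, ?_⟩
  apply Subtype.ext
  apply Units.ext
  simp [hz]

theorem exists_zsmul (a : Additive algUnits) {n : ℤ} (hn : n ≠ 0) :
    ∃ b : Additive algUnits, n • b = a := by
  have hpos : 0 < n.natAbs := Int.natAbs_pos.mpr hn
  obtain ⟨v, hv⟩ := exists_pow (Additive.toMul a) hpos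
  rcases Int.natAbs_eq n with h | h
  · refine ⟨Additive.ofMul v, ?_⟩
    rw [h, natCast_zsmul]
    rw [← ofMul_pow, hv]
    rfl
  · refine ⟨-Additive.ofMul v, ?_⟩
    rw [h, neg_smul, zsmul_neg, neg_neg, natCast_zsmul]
    rw [← ofMul_pow, hv]
    rfl

noncomputable instance divAlgUnits : DivisibleBy (Additive algUnits) ℤ where
  div a n := by
    classical
    exact if hn : n = 0 then 0 else (exists_zsmul a hn).choose
  div_zero a := by simp
  div_cancel := by
    intro n a hn
    simp only [dif_neg hn]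
    exact (exists_zsmul a hn).choose_spec

end CA

theorem exists_alg_lift {m n : ℕ} (γ : Fin m → Fin n → ℤ) (hγ : LinearIndependent ℤ γ)
    (c : Fin m → ℂ) (hc : ∀ l, c l ≠ 0) (hc' : ∀ l, IsAlgebraic ℚ (c l)) :
    ∃ g : Fin n → ℂ, (∀ i, g i ≠ 0 ∧ IsAlgebraic ℚ (g i)) ∧ ∀ l, ∏ i, g i ^ γ l i = c l := by
  classical
  let c' : Fin m → CA.algUnits := fun l => ⟨Units.mk0 (c l) (hc l), hc' l⟩
  let f : (Fin m → ℤ) →ₗ[ℤ] (Fin n → ℤ) := Fintype.linearCombination ℤ γ
  have hf : Function.Injective f := linearIndependent_iff_injective_fintypeLinearCombination.mp hγ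
  let q : (Fin m → ℤ) →ₗ[ℤ] Additive CA.algUnits :=
    Fintype.linearCombination ℤ (fun l => Additive.ofMul (c' l))
  obtain ⟨h, hh⟩ := (Module.Baer.of_divisible (Additive CA.algUnits)).extension_property f hf q
  let g' : Fin n → CA.algUnits := fun i => Additive.toMul (h (Pi.single i 1))
  refine ⟨fun i => ((g' i : ℂˣ) : ℂ), fun i => ⟨Units.ne_zero _, (g' i).2⟩, ?_⟩
  intro l
  have h1 : h (γ l) = Additive.ofMul (c' l) := by
    have h2 : f (Pi.single l 1) = γ l := by
      simp [f, Fintype.linearCombination_apply_single]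
    have h3 : q (Pi.single l 1) = Additive.ofMul (c' l) := by
      simp [q, Fintype.linearCombination_apply_single]
    rw [← h2, ← h3, ← hh]
    rfl
  have h4 : h (γ l) = ∑ i, γ l i • h (Pi.single i 1) := by
    rw [LinearMap.pi_apply_eq_sum_univ h (γ l)]
    refine Finset.sum_congr rfl fun i _ => ?_
    congr 2
    ext j
    simp [Pi.single_apply, eq_comm]
  have h5 : ∏ i, g' i ^ γ l i = c' l := by
    have h6 : Additive.ofMul (∏ i, g' i ^ γ l i) = Additive.ofMul (c' l) := by
      rw [← h1, h4, ofMul_prod]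
      refine Finset.sum_congr rfl fun i _ => ?_
      rfl
    exact h6
  have h7 : (((∏ i, g' i ^ γ l i : CA.algUnits) : ℂˣ) : ℂ) = c l := by
    rw [h5]
    rfl
  rw [← h7]
  push_cast
  rfl

end Pool.Agent.AL
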