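import Pool.Agent.Lib.MP_c95b3b_ag_AL.DefsC
import Pool.Agent.Lib.MP_c95b3b_ag_R.Span

/-! Project AL (MP_c95b3b_ag), module CB: the logarithmic derivatives are independent. -/

namespace Pool.Agent.AL

open Module MvPolynomial Pool.Agent.CITR
open Pool.Agent.L3 (Special)

/-- derivations of the function field with given values at the coordinates -/
private theorem CB_ext {k : ℕ} (e : Fin k → KC k) :
    ∃ D : Derivation ℂ (KC k) (KC k), ∀ i, D (uc k i) = e i := by
  classical
  have h1 : Algebra.FormallyEtale (MvPolynomial (Fin k) ℂ) (KC k) :=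
    Algebra.FormallyEtale.of_isLocalization (nonZeroDivisors (MvPolynomial (Fin k) ℂ))
  let e1 := KaehlerDifferential.tensorKaehlerEquivOfFormallyEtale ℂ (MvPolynomial (Fin k) ℂ) (KC k)
  let δ : Derivation ℂ (MvPolynomial (Fin k) ℂ) (KC k) := mkDerivation ℂ e
  let φ : Ω[KC k⁄ℂ] →ₗ[KC k] KC k :=
    (δ.liftKaehlerDifferential.liftBaseChange (KC k)).comp e1.symm.toLinearMap
  refine ⟨φ.compDer (KaehlerDifferential.D ℂ (KC k)), fun j => ?_⟩
  show (δ.liftKaehlerDifferential.liftBaseChange (KC k))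
    (e1.symm (KaehlerDifferential.D ℂ (KC k) (algebraMap (MvPolynomial (Fin k) ℂ) (KC k) (X j)))) =
      e j
  rw [KaehlerDifferential.tensorKaehlerEquivOfFormallyEtale_symm_D_algebraMap,
    LinearMap.liftBaseChange_tmul, one_smul, Derivation.liftKaehlerDifferential_comp_D]
  exact mkDerivation_X ℂ e j

private theorem CB_uc_ne {k : ℕ} (i : Fin k) : uc k i ≠ 0 := by
  rw [uc, Ne, map_eq_zero_iff _ (IsFractionRing.injective (MvPolynomial (Fin k) ℂ) (KC k))]
  exact X_ne_zero i

private theorem CB_one_sub_ne {k : ℕ} (i : Fin k) : 1 - uc k i ≠ 0 := by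
  intro h
  have h1 : (1 : MvPolynomial (Fin k) ℂ) = X i := by
    apply IsFractionRing.injective (MvPolynomial (Fin k) ℂ) (KC k)
    rw [map_one]
    exact sub_eq_zero.1 h
  have h2 := congrArg (aeval (R := ℂ) (fun _ : Fin k => (0 : ℂ))) h1
  rw [map_one, aeval_X] at h2
  exact one_ne_zero h2

/-- the chain rule for the Euler operator -/
private theorem CB_chain {m : ℕ} {K : Type} [Field K] [Algebra ℂ K] (D : Derivation ℂ K K)
    (z : Fin m → K) (v : Fin m → ℤ) (hD : ∀ l, D (z l) = (v l : K) * z l)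
    (f : MvPolynomial (Fin m) ℂ) : D (aeval z f) = aeval z (dco (eulv v) f) := by
  classical
  induction f using MvPolynomial.induction_on with
  | C a =>
    rw [aeval_C, D.map_algebraMap, ← monomial_zero', dco_monomial, eulv_apply]
    have h : Pool.Agent.CITR.wt v (0 : Fin m →₀ ℕ) = 0 := by
      simp [Pool.Agent.CITR.wt]
    rw [h, Int.cast_zero, zero_mul, map_zero, map_zero]
  | add p q hp hq => rw [map_add, map_add, dco_add, map_add, hp, hq]
  | mul_X p n hp =>
    have hX : dco (eulv v) (X n : MvPolynomial (Fin m) ℂ) = C ((v n : ℤ) : ℂ) * X n := by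
      rw [X, dco_monomial, eulv_apply, C_mul_monomial]
      have h : Pool.Agent.CITR.wt v (Finsupp.single n 1) = v n := by
        rw [Pool.Agent.CITR.wt, Finset.sum_eq_single n]
        · rw [Finsupp.single_eq_same, Nat.cast_one, mul_one]
        · intro b _ hb
          rw [Finsupp.single_eq_of_ne hb, Nat.cast_zero, mul_zero]
        · intro h
          exact absurd (Finset.mem_univ n) h
      rw [h]
    rw [map_mul, D.leibniz, aeval_X, hD, hp, dco_leib _ (eulv_leib v), map_add, map_mul, map_mul,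
      hX, map_mul, aeval_X, aeval_C, smul_eq_mul, smul_eq_mul, map_intCast]
    ring

/-- the logarithmic derivative of the monomials -/
private theorem CB_mc {k m : ℕ} (γ : Fin m → Fin (k + k) → ℤ) (l : Fin m)
    (D : Derivation ℂ (KC k) (KC k)) :
    D (mc γ l) = (∑ i, D (uc k i) * ((γ l (Fin.castAdd k i) : KC k) / uc k i -
      (γ l (Fin.natAdd k i) : KC k) / (1 - uc k i))) * mc γ l := by
  classical
  have h1 : (∏ i, uc k i ^ γ l (Fin.castAdd k i)) ≠ 0 :=
    Finset.prod_ne_zero_iff.2 fun i _ => zpow_ne_zero _ (CB_uc_ne i)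
  have h2 : (∏ i, (1 - uc k i) ^ γ l (Fin.natAdd k i)) ≠ 0 :=
    Finset.prod_ne_zero_iff.2 fun i _ => zpow_ne_zero _ (CB_one_sub_ne i)
  have h3 : mc γ l = (∏ i, uc k i ^ γ l (Fin.castAdd k i)) *
      ∏ i, (1 - uc k i) ^ γ l (Fin.natAdd k i) := by
    rw [mc, Finset.prod_mul_distrib]
  have h4 : mc γ l ≠ 0 := by
    rw [h3]
    exact mul_ne_zero h1 h2
  rw [← div_eq_iff h4]
  conv_lhs => rw [h3]
  rw [SpanAux.ld_mul D h1 h2, SpanAux.ld_prod D Finset.univ _ CB_uc_ne
    (fun i => γ l (Fin.castAdd k i)), SpanAux.ld_prod D Finset.univ _ CB_one_sub_ne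
    (fun i => γ l (Fin.natAdd k i)), ← Finset.sum_add_distrib]
  refine Finset.sum_congr rfl fun i _ => ?_
  have hD : D (1 - uc k i) = - D (uc k i) := by
    rw [map_sub, D.map_one_eq_zero, zero_sub]
  rw [hD]
  ring

/-- integral vectors in the span of the logarithmic derivatives vanish -/
private theorem CB_int {k m : ℕ} (γ : Fin m → Fin (k + k) → ℤ) (c : Fin m → ℂ)
    (Q : Ideal (MvPolynomial (Fin m) ℂ))
    (hQ : ∀ f, f ∈ Q ↔ aeval (fun l => algebraMap ℂ (KC k) (c l) * mc γ l) f = 0)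
    (hst : ∀ v : Fin m → ℤ, v ≠ 0 → ∃ f ∈ Q, dco (eulv v) f ∉ Q) (v : Fin m → ℤ)
    (e : Fin k → KC k)
    (he : ∀ l, (v l : KC k) = ∑ i, e i * ((γ l (Fin.castAdd k i) : KC k) / uc k i -
      (γ l (Fin.natAdd k i) : KC k) / (1 - uc k i))) : v = 0 := by
  by_contra hv
  obtain ⟨f, hf, hf2⟩ := hst v hv
  obtain ⟨D, hD⟩ := CB_ext e
  apply hf2
  rw [hQ]
  rw [← CB_chain D]
  · rw [(hQ f).1 hf, map_zero]
  · intro l
    rw [D.leibniz, D.map_algebraMap, smul_zero, add_zero, smul_eq_mul, CB_mc, he l]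
    simp only [hD]
    ring

theorem phi_indep {k m : ℕ} (γ : Fin m → Fin (k + k) → ℤ) (c : Fin m → ℂ)
    (Q : Ideal (MvPolynomial (Fin m) ℂ))
    (hQ : ∀ f, f ∈ Q ↔ aeval (fun l => algebraMap ℂ (KC k) (c l) * mc γ l) f = 0)
    (hst : ∀ v : Fin m → ℤ, v ≠ 0 → ∃ f ∈ Q, dco (eulv v) f ∉ Q) (e : Fin k → KC k)
    (he : ∀ l, ∑ i, e i * ((γ l (Fin.castAdd k i) : KC k) / uc k i -
      (γ l (Fin.natAdd k i) : KC k) / (1 - uc k i)) = 0) (i : Fin k) (hi : Occ γ i) : e i = 0 := by
  classical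
  by_contra hei
  set φ : Fin k → Fin m → KC k := fun j l => (γ l (Fin.castAdd k j) : KC k) / uc k j -
    (γ l (Fin.natAdd k j) : KC k) / (1 - uc k j) with hφ
  have hu : uc k i ≠ 0 := CB_uc_ne i
  have hu1 : 1 - uc k i ≠ 0 := CB_one_sub_ne i
  -- the relation
  set e1 : Fin k → KC k := fun j => if j = i then 0 else -(e j / e i) with he1
  have h1 : ∀ l, φ i l = ∑ j, e1 j * φ j l := by
    intro l
    have h := he l
    rw [← Finset.add_sum_erase _ _ (Finset.mem_univ i)] at h
    rw [← Finset.add_sum_erase _ _ (Finset.mem_univ i)]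
    have h2 : e1 i * φ i l = 0 := by simp [he1]
    rw [h2, zero_add]
    have h3 : ∑ j ∈ Finset.univ.erase i, e1 j * φ j l =
        -(∑ j ∈ Finset.univ.erase i, e j * φ j l) / e i := by
      rw [← Finset.sum_neg_distrib, Finset.sum_div]
      refine Finset.sum_congr rfl fun j hj => ?_
      rw [he1]
      simp only [if_neg (Finset.ne_of_mem_erase hj)]
      ring
    rw [h3, eq_div_iff hei, eq_neg_iff_add_eq_zero, mul_comm]
    exact h
  obtain ⟨D, hD⟩ := CB_ext (k := k) (fun j => if j = i then 1 else 0)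
  have hDu : D (uc k i) = 1 := by rw [hD, if_pos rfl]
  have hDi : ∀ l, D (φ i l) = -((γ l (Fin.castAdd k i) : KC k) / uc k i ^ 2) -
      (γ l (Fin.natAdd k i) : KC k) / (1 - uc k i) ^ 2 := by
    intro l
    have hD1 : D (1 - uc k i) = -1 := by
      rw [map_sub, D.map_one_eq_zero, hDu, zero_sub]
    have ha : D ((γ l (Fin.castAdd k i) : KC k) / uc k i) =
        -((γ l (Fin.castAdd k i) : KC k) / uc k i ^ 2) := by
      rw [D.leibniz_div, hDu, D.map_intCast, smul_zero, smul_eq_mul, smul_eq_mul, mul_one]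
      rw [div_eq_mul_inv, pow_two, inv_eq_one_div]
      field_simp
      ring
    have hb : D ((γ l (Fin.natAdd k i) : KC k) / (1 - uc k i)) =
        (γ l (Fin.natAdd k i) : KC k) / (1 - uc k i) ^ 2 := by
      rw [D.leibniz_div, hD1, D.map_intCast, smul_zero, smul_eq_mul, smul_eq_mul]
      field_simp
      ring
    rw [hφ]
    simp only
    rw [map_sub, ha, hb]
  have hDj : ∀ j, j ≠ i → ∀ l, D (φ j l) = 0 := by
    intro j hj l
    have hDuj : D (uc k j) = 0 := by rw [hD, if_neg hj]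
    have hD1 : D (1 - uc k j) = 0 := by
      rw [map_sub, D.map_one_eq_zero, hDuj, zero_sub, neg_zero]
    rw [hφ]
    simp only
    rw [map_sub, D.leibniz_div, D.leibniz_div, hDuj, hD1, D.map_intCast, D.map_intCast]
    simp
  have h2 : ∀ l, D (φ i l) = ∑ j, D (e1 j) * φ j l := by
    intro l
    conv_lhs => rw [h1 l]
    rw [map_sum]
    refine Finset.sum_congr rfl fun j _ => ?_
    rw [D.leibniz, smul_eq_mul, smul_eq_mul]
    by_cases hj : j = i
    · have h0 : e1 j = 0 := by simp [he1, hj]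
      rw [h0]
      simp
    · rw [hDj j hj l, mul_zero, zero_add, mul_comm]
  have hq : (fun l => γ l (Fin.natAdd k i)) = 0 := by
    refine CB_int γ c Q hQ hst _
      (fun j => -(uc k i * (1 - uc k i) ^ 2 * (e1 j / uc k i + D (e1 j)))) fun l => ?_
    have h3 : ∑ j, -(uc k i * (1 - uc k i) ^ 2 * (e1 j / uc k i + D (e1 j))) * φ j l =
        -(uc k i * (1 - uc k i) ^ 2 * (φ i l / uc k i + D (φ i l))) := by
      rw [h2 l]
      conv_rhs => rw [h1 l]
      rw [Finset.sum_div, ← Finset.sum_add_distrib, Finset.mul_sum, ← Finset.sum_neg_distrib]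
      refine Finset.sum_congr rfl fun j _ => ?_
      ring
    have h4 : (γ l (Fin.natAdd k i) : KC k) =
        -(uc k i * (1 - uc k i) ^ 2 * (φ i l / uc k i + D (φ i l))) := by
      rw [hDi l, hφ]
      simp only
      field_simp
      ring
    rw [h4, ← h3]
  have hp : (fun l => γ l (Fin.castAdd k i)) = 0 := by
    refine CB_int γ c Q hQ hst _ (fun j => uc k i * e1 j) fun l => ?_
    have h3 : ∑ j, uc k i * e1 j * φ j l = uc k i * φ i l := by
      conv_rhs => rw [h1 l]
      rw [Finset.mul_sum]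
      refine Finset.sum_congr rfl fun j _ => ?_
      ring
    have h4 : (γ l (Fin.castAdd k i) : KC k) = uc k i * φ i l := by
      have h5 : γ l (Fin.natAdd k i) = 0 := congrFun hq l
      rw [hφ]
      simp only
      rw [h5, Int.cast_zero, zero_div, sub_zero, mul_div_cancel₀ _ hu]
    rw [h4, ← h3]
  obtain ⟨l, hl⟩ := hi
  rcases hl with hl | hl
  · exact hl (congrFun hp l)
  · exact hl (congrFun hq l)

end Pool.Agent.AL
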