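import Pool.Agent.Lib.MP_c95b3b_ag_AL.DefsC
import Pool.Agent.Lib.MP_c95b3b_ag_R.Dlog
import Pool.Agent.Lib.MP_c95b3b_ag_R.Span

/-! Project AL (MP_c95b3b_ag), module CC: algebraicity of the coordinates over the monomials. -/

namespace Pool.Agent.AL

open Module MvPolynomial Pool.Agent.CITR
open Pool.Agent.L3 (Special)

namespace CC

theorem uc_ne {k : ℕ} (i : Fin k) : uc k i ≠ 0 := by
  unfold uc
  rw [Ne, FaithfulSMul.algebraMap_eq_zero_iff]
  exact X_ne_zero i

theorem one_sub_ne {k : ℕ} (i : Fin k) : 1 - uc k i ≠ 0 := by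
  unfold uc
  rw [← map_one (algebraMap (MvPolynomial (Fin k) ℂ) (KC k)), ← map_sub, Ne,
    FaithfulSMul.algebraMap_eq_zero_iff]
  intro h
  have h1 := congrArg (MvPolynomial.eval (fun _ => (0 : ℂ))) h
  simp at h1

theorem mc_eq {k m : ℕ} (γ : Fin m → Fin (k + k) → ℤ) (l : Fin m) :
    mc γ l = ∏ j, (Fin.append (uc k) (fun i => 1 - uc k i) j) ^ γ l j := by
  rw [Fin.prod_univ_add, ← Finset.prod_mul_distrib]
  unfold mc
  refine Finset.prod_congr rfl fun i _ => ?_
  rw [Fin.append_left, Fin.append_right]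

theorem app_ne {k : ℕ} (j : Fin (k + k)) :
    (Fin.append (uc k) (fun i => 1 - uc k i) j) ≠ 0 := by
  refine Fin.addCases (fun i => ?_) (fun i => ?_) j
  · rw [Fin.append_left]
    exact uc_ne i
  · rw [Fin.append_right]
    exact one_sub_ne i

theorem ld_mc {L : Type} {k m : ℕ} [Field L] [Algebra L (KC k)] (D : Derivation L (KC k) (KC k))
    (γ : Fin m → Fin (k + k) → ℤ) (l : Fin m) :
    D (mc γ l) / mc γ l = ∑ i, D (uc k i) * ((γ l (Fin.castAdd k i) : KC k) / uc k i -
      (γ l (Fin.natAdd k i) : KC k) / (1 - uc k i)) := by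
  rw [mc_eq, SpanAux.ld_prod D Finset.univ _ app_ne, Fin.sum_univ_add, ← Finset.sum_add_distrib]
  refine Finset.sum_congr rfl fun i _ => ?_
  rw [Fin.append_left, Fin.append_right, map_sub, D.map_one_eq_zero]
  ring

end CC

theorem uc_alg {k m : ℕ} (γ : Fin m → Fin (k + k) → ℤ) (i : Fin k)
    (h : ∀ e : Fin k → KC k, (∀ l, ∑ i, e i * ((γ l (Fin.castAdd k i) : KC k) / uc k i -
      (γ l (Fin.natAdd k i) : KC k) / (1 - uc k i)) = 0) → e i = 0) :
    IsAlgebraic (Algebra.adjoin ℂ (Set.range (mc γ))) (uc k i) := by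
  by_contra hn
  let L : IntermediateField ℂ (KC k) := IntermediateField.adjoin ℂ (Set.range (mc γ))
  have hL : Transcendental L (uc k i) := by
    intro ha
    apply hn
    open scoped IntermediateField.algebraAdjoinAdjoin in
    exact (IsFractionRing.isAlgebraic_iff (Algebra.adjoin ℂ (Set.range (mc γ))) L (KC k)).mpr ha
  obtain ⟨B, D, hD, -, -⟩ := DlogAux.exists_der_one (k := L) (K := KC k) (uc k i) hL
  have h1 := h (fun j => D (uc k j)) (by
    intro l
    rw [← CC.ld_mc D γ l]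
    have h2 : D (mc γ l) = 0 := by
      have h3 := D.map_algebraMap (⟨mc γ l, IntermediateField.subset_adjoin ℂ _ ⟨l, rfl⟩⟩ : L)
      exact h3
    rw [h2, zero_div])
  rw [show D (uc k i) = 0 from h1] at hD
  exact zero_ne_one hD

end Pool.Agent.AL
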