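import Pool.Agent.Lib.MP_c95b3b_ag_AL.DefsC

/-! Project AL (MP_c95b3b_ag), module CD: extension of homomorphisms to the complex numbers. -/

namespace Pool.Agent.AL

open Module MvPolynomial Pool.Agent.CITR
open Pool.Agent.L3 (Special)

namespace CD

set_option synthInstance.maxHeartbeats 400000 in
theorem ext_closed {K A B : Type} [Field K] [IsAlgClosed K] [CommRing A] [CommRing B]
    [Algebra A B] [Algebra.IsIntegral A B] (hinj : Function.Injective (algebraMap A B))
    (ψ : A →+* K) : ∃ φ0 : B →+* K, ∀ a, φ0 (algebraMap A B a) = ψ a := by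
  have hq : (RingHom.ker ψ).IsPrime := RingHom.ker_isPrime ψ
  have hbot : Ideal.comap (algebraMap A B) (⊥ : Ideal B) ≤ RingHom.ker ψ := by
    rw [← RingHom.ker_eq_comap_bot, (RingHom.injective_iff_ker_eq_bot _).1 hinj]
    exact bot_le
  obtain ⟨Q, -, hQ, hQc⟩ := Ideal.exists_ideal_over_prime_of_isIntegral (RingHom.ker ψ) ⊥ hbot
  have : Q.LiesOver (RingHom.ker ψ) := ⟨hQc.symm⟩
  let : Algebra (A ⧸ RingHom.ker ψ) K := (RingHom.kerLift ψ).toAlgebra
  have hinj1 : Function.Injective (algebraMap (A ⧸ RingHom.ker ψ) K) :=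
    RingHom.kerLift_injective ψ
  have : FaithfulSMul (A ⧸ RingHom.ker ψ) K := (faithfulSMul_iff_algebraMap_injective _ _).mpr hinj1
  have f : (B ⧸ Q) →ₐ[A ⧸ RingHom.ker ψ] K := IsAlgClosed.lift
  refine ⟨(f : _ →+* K).comp (Ideal.Quotient.mk Q), fun a => ?_⟩
  have e1 : Ideal.Quotient.mk Q (algebraMap A B a) =
    algebraMap (A ⧸ RingHom.ker ψ) (B ⧸ Q) (Ideal.Quotient.mk _ a) := rfl
  rw [RingHom.comp_apply, e1]
  exact f.commutes _

end CD

theorem ext_hom {A K : Type} [CommRing A] [IsDomain A] [Field K] [Algebra A K]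
    (hinj : Function.Injective (algebraMap A K)) (s : Finset K) (hs : ∀ r ∈ s, IsAlgebraic A r) :
    ∃ h : A, h ≠ 0 ∧ ∀ φ : A →+* ℂ, φ h ≠ 0 →
      ∃ ψ : Algebra.adjoin A (s : Set K) →+* ℂ, ψ.comp (algebraMap A _) = φ := by
  classical
  have hex : ∀ r : K, ∃ a : A, a ≠ 0 ∧ (r ∈ s → IsIntegral A (a • r)) := by
    intro r
    by_cases hr : r ∈ s
    · obtain ⟨y, hy, hy2⟩ := (hs r hr).exists_integral_multiple
      exact ⟨y, hy, fun _ => hy2⟩
    · exact ⟨1, one_ne_zero, fun h => absurd h hr⟩
  choose a ha hint using hex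
  refine ⟨∏ r ∈ s, a r, Finset.prod_ne_zero_iff.mpr fun r _ => ha r, fun φ hφ => ?_⟩
  set h : A := ∏ r ∈ s, a r with hh
  have hh0 : algebraMap A K h ≠ 0 := by
    intro h0
    have h1 : h = 0 := hinj (by rw [h0, map_zero])
    rw [h1, map_zero] at hφ
    exact hφ rfl
  let Bc := integralClosure A K
  have hinjB : Function.Injective (algebraMap A Bc) := by
    intro x y hxy
    apply hinj
    exact congrArg Subtype.val hxy
  obtain ⟨ψ0, hψ0⟩ := CD.ext_closed (B := Bc) hinjB φ
  let hB : Bc := algebraMap A Bc h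
  have hBval : ((hB : Bc) : K) = algebraMap A K h := rfl
  have hf : ∀ y : Submonoid.powers hB, IsUnit (Bc.val (y : Bc)) := by
    rintro ⟨y, n, rfl⟩
    rw [isUnit_iff_ne_zero]
    have : Bc.val (hB ^ n) = algebraMap A K h ^ n := by
      rw [map_pow]
      rfl
    rw [this]
    exact pow_ne_zero _ hh0
  let j : Localization.Away hB →ₐ[A] K :=
    IsLocalization.liftAlgHom (M := Submonoid.powers hB) (S := Localization.Away hB)
      (f := Bc.val) hf
  have hj : ∀ b : Bc, j (algebraMap Bc (Localization.Away hB) b) = (b : K) := by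
    intro b
    exact IsLocalization.lift_eq _ b
  have hjinj : Function.Injective j := by
    rw [injective_iff_map_eq_zero]
    intro x hx
    obtain ⟨⟨b, m⟩, hbm⟩ := IsLocalization.surj (Submonoid.powers hB) x
    have h1 : j (x * algebraMap Bc (Localization.Away hB) m) = (b : K) := by
      rw [hbm]
      exact hj b
    rw [map_mul, hx, zero_mul] at h1
    have h2 : b = 0 := Subtype.ext h1.symm
    rw [h2, map_zero] at hbm
    exact ((IsLocalization.map_units (Localization.Away hB) m).mul_left_eq_zero).mp hbm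
  have hle : Algebra.adjoin A (s : Set K) ≤ j.range := by
    rw [Algebra.adjoin_le_iff]
    intro r hr
    have hr' : r ∈ s := hr
    let b : Bc := algebraMap A Bc (∏ t ∈ s.erase r, a t) * ⟨a r • r, hint r hr'⟩
    have hbv : (b : K) = r * algebraMap A K h := by
      have h1 : h = a r * ∏ t ∈ s.erase r, a t := (Finset.mul_prod_erase s a hr').symm
      have h2 : (b : K) = algebraMap A K (∏ t ∈ s.erase r, a t) * (a r • r) := rfl
      rw [h2, h1, Algebra.smul_def, map_mul]
      ring
    let y : Localization.Away hB := IsLocalization.mk' (Localization.Away hB) b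
      (⟨hB, Submonoid.mem_powers hB⟩ : Submonoid.powers hB)
    refine ⟨y, ?_⟩
    have h3 : y * algebraMap Bc (Localization.Away hB) hB =
        algebraMap Bc (Localization.Away hB) b := IsLocalization.mk'_spec _ _ _
    have h4 := congrArg j h3
    rw [map_mul, hj, hj, hbv, hBval] at h4
    exact mul_right_cancel₀ hh0 h4
  have hu : IsUnit (ψ0 hB) := by
    rw [isUnit_iff_ne_zero, hψ0]
    exact hφ
  refine ⟨(IsLocalization.Away.lift hB hu : Localization.Away hB →+* ℂ).comp
    (((AlgEquiv.ofInjective j hjinj).symm : j.range →ₐ[A] Localization.Away hB).comp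
      (Subalgebra.inclusion hle) : Algebra.adjoin A (s : Set K) →ₐ[A] Localization.Away hB), ?_⟩
  ext x
  rw [RingHom.comp_apply, RingHom.comp_apply]
  have e1 := (((AlgEquiv.ofInjective j hjinj).symm : j.range →ₐ[A] Localization.Away hB).comp
      (Subalgebra.inclusion hle)).commutes x
  have e2 : algebraMap A (Localization.Away hB) x =
      algebraMap Bc (Localization.Away hB) (algebraMap A Bc x) := rfl
  have e3 := IsLocalization.Away.lift_eq hB hu (S := Localization.Away hB) (algebraMap A Bc x)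
  rw [← hψ0 x, ← e3, ← e2, ← e1]
  rfl

end Pool.Agent.AL
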