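import Pool.Agent.Lib.MP_c95b3b_ag_AL.DefsC
import Pool.Agent.Lib.MP_c95b3b_ag_R.Image

/-! Project AL (MP_c95b3b_ag), module CE: the dimension of the image. -/

namespace Pool.Agent.AL

open Module MvPolynomial Pool.Agent.CITR
open Pool.Agent.L3 (Special)

theorem dim_ge {k m : ℕ} (γ : Fin m → Fin (k + k) → ℤ) (c : Fin m → ℂ) (hc : ∀ l, c l ≠ 0)
    (Q : Ideal (MvPolynomial (Fin m) ℂ)) (hQp : Q.IsPrime)
    (hQ : ∀ f, f ∈ Q ↔ aeval (fun l => algebraMap ℂ (KC k) (c l) * mc γ l) f = 0)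
    (S : Finset (Fin k))
    (hS : ∀ i ∈ S, IsAlgebraic (Algebra.adjoin ℂ (Set.range (mc γ))) (uc k i)) :
    ((S.card : ℕ) : WithBot ℕ∞) ≤ ringKrullDim (MvPolynomial (Fin m) ℂ ⧸ Q) := by
  classical
  have hfK : FaithfulSMul ℂ (KC k) :=
    (faithfulSMul_iff_algebraMap_injective ℂ (KC k)).mpr (algebraMap ℂ (KC k)).injective
  set z : Fin m → KC k := fun l => algebraMap ℂ (KC k) (c l) * mc γ l with hz
  -- the coordinates are independent
  have hu : AlgebraicIndependent ℂ (fun i : S => uc k i) := by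
    have h1 : AlgebraicIndependent ℂ (X : Fin k → MvPolynomial (Fin k) ℂ) :=
      MvPolynomial.algebraicIndependent_X (Fin k) ℂ
    have h2 : Function.Injective (IsScalarTower.toAlgHom ℂ (MvPolynomial (Fin k) ℂ) (KC k)) := by
      rw [IsScalarTower.coe_toAlgHom']
      exact IsFractionRing.injective (MvPolynomial (Fin k) ℂ) (KC k)
    have h3 := h1.map' h2
    have e3 : (IsScalarTower.toAlgHom ℂ (MvPolynomial (Fin k) ℂ) (KC k)) ∘
        (X : Fin k → MvPolynomial (Fin k) ℂ) = uc k := by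
      funext i
      simp only [Function.comp_apply, IsScalarTower.coe_toAlgHom', uc]
    rw [e3] at h3
    exact h3.comp (fun i : S => (i : Fin k)) Subtype.val_injective
  -- the generators
  have h4 : Set.range (mc γ) ⊆ CIT8.acl ℂ (Set.range z) := by
    rintro _ ⟨l, rfl⟩
    have h5 : mc γ l = algebraMap ℂ (KC k) (c l)⁻¹ * z l := by
      rw [hz]
      simp only
      rw [← mul_assoc, ← map_mul, inv_mul_cancel₀ (hc l), map_one, one_mul]
    rw [h5]
    exact CIT8.acl_mul (CIT8.acl_algebraMap _ _) (CIT8.subset_acl _ ⟨l, rfl⟩)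
  obtain ⟨L, hL1, hL2, -⟩ := CIT8.exists_maxIndep ℂ z
  have h6 : Set.range z ⊆ CIT8.acl ℂ (Set.range (fun j : L => z j)) := by
    rintro _ ⟨l, rfl⟩
    exact hL2 l
  have h7 : ∀ i : S, uc k i ∈ CIT8.acl ℂ (Set.range (fun j : L => z j)) := by
    intro i
    have h8 : uc k i ∈ CIT8.acl ℂ (Set.range (mc γ)) := hS i i.2
    exact CIT8.acl_idem h6 (CIT8.acl_idem h4 h8)
  have h9 := CIT8.card_le_of_acl (fun i : S => uc k i) (fun j : L => z j) hu h7
  rw [Nat.card_eq_fintype_card, Nat.card_eq_fintype_card, Fintype.card_coe,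
    Fintype.card_coe] at h9
  -- the quotient
  let R := MvPolynomial (Fin m) ℂ ⧸ Q
  have hdom : IsDomain R := Ideal.Quotient.isDomain Q
  let j : R →ₐ[ℂ] KC k := Ideal.Quotient.liftₐ Q (aeval z) (fun a ha => (hQ a).mp ha)
  have hj : Function.Injective j := by
    rw [injective_iff_map_eq_zero]
    intro r hr
    obtain ⟨f, rfl⟩ := Ideal.Quotient.mk_surjective r
    rw [Ideal.Quotient.eq_zero_iff_mem]
    exact (hQ f).mpr hr
  have hx : AlgebraicIndependent ℂ
      (fun l : L => (Ideal.Quotient.mk Q (X (l : Fin m)) : R)) := by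
    rw [← AlgHom.algebraicIndependent_iff j hj]
    have h10 : (j ∘ fun l : L => (Ideal.Quotient.mk Q (X (l : Fin m)) : R)) =
        fun l : L => z l := by
      funext l
      change aeval z (X (l : Fin m)) = _
      rw [aeval_X]
    rw [h10]
    exact hL1
  have h11 := CIT85.card_le_ringKrullDim (k := ℂ) (R := R) _ hx
  rw [Fintype.card_coe] at h11
  refine le_trans ?_ h11
  exact_mod_cast h9

end Pool.Agent.AL
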