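import Pool.Agent.Lib.MP_c95b3b_ag_AL.DefsC

/-! Project AL (MP_c95b3b_ag), module CF: the ideal of the product of lines. -/

namespace Pool.Agent.AL

open Module MvPolynomial Pool.Agent.CITR
open Pool.Agent.L3 (Special)

namespace CF

/-- the parametrization of the product of the lines -/
noncomputable def th (k : ℕ) (a b : Fin k → ℂ) :
    MvPolynomial (Fin (k + k)) ℂ →ₐ[ℂ] MvPolynomial (Fin k) ℂ :=
  aeval (Fin.append (fun i => (X i : MvPolynomial (Fin k) ℂ))
    (fun i => C (b i)⁻¹ * (1 - C (a i) * X i)))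

theorem mem_PL {k : ℕ} {a b : Fin k → ℂ} {f : MvPolynomial (Fin (k + k)) ℂ} :
    f ∈ PL k a b ↔ th k a b f = 0 := Iff.rfl

theorem th_castAdd {k : ℕ} (a b : Fin k → ℂ) (i : Fin k) :
    th k a b (X (Fin.castAdd k i)) = X i := by
  unfold th
  rw [aeval_X, Fin.append_left]

theorem th_natAdd {k : ℕ} (a b : Fin k → ℂ) (i : Fin k) :
    th k a b (X (Fin.natAdd k i)) = C (b i)⁻¹ * (1 - C (a i) * X i) := by
  unfold th
  rw [aeval_X, Fin.append_right]

theorem th_C {k : ℕ} (a b : Fin k → ℂ) (c : ℂ) : th k a b (C c) = C c := by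
  unfold th
  rw [aeval_C]
  rfl

theorem th_surj {k : ℕ} (a b : Fin k → ℂ) : Function.Surjective (th k a b) := by
  intro g
  refine ⟨rename (Fin.castAdd k) g, ?_⟩
  induction g using MvPolynomial.induction_on with
  | C c => rw [rename_C, th_C]
  | add p q hp hq => rw [map_add, map_add, hp, hq]
  | mul_X p i hp => rw [map_mul, map_mul, hp, rename_X, th_castAdd]

/-- the key identity -/
theorem eval_th {k : ℕ} {a b x y : Fin k → ℂ} (h : ∀ i, y i = (b i)⁻¹ * (1 - a i * x i))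
    (f : MvPolynomial (Fin (k + k)) ℂ) : eval (Fin.append x y) f = eval x (th k a b f) := by
  induction f using MvPolynomial.induction_on with
  | C c => rw [th_C, eval_C, eval_C]
  | add p q hp hq => rw [map_add, map_add, map_add, hp, hq]
  | mul_X p i hp =>
    rw [map_mul, map_mul, map_mul, hp]
    congr 1
    refine Fin.addCases (fun i => ?_) (fun i => ?_) i
    · rw [th_castAdd, eval_X, eval_X, Fin.append_left]
    · rw [th_natAdd, eval_X, Fin.append_right, h i]
      simp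

theorem one_sub_ne {k : ℕ} (c : ℂ) (i : Fin k) :
    (1 - C c * X i : MvPolynomial (Fin k) ℂ) ≠ 0 := by
  intro h
  have h1 := congrArg (eval (fun _ => (0 : ℂ))) h
  simp at h1

theorem y_of {k : ℕ} {a b x y : Fin k → ℂ} (hb : ∀ i, b i ≠ 0)
    (h : ∀ i, a i * x i + b i * y i = 1) (i : Fin k) : y i = (b i)⁻¹ * (1 - a i * x i) := by
  have h1 : 1 - a i * x i = b i * y i := by
    rw [← h i]
    ring
  rw [h1, ← mul_assoc, inv_mul_cancel₀ (hb i), one_mul]

theorem line_mem {k : ℕ} (a b : Fin k → ℂ) (hb : ∀ i, b i ≠ 0) (i : Fin k) :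
    (C (a i) * X (Fin.castAdd k i) + C (b i) * X (Fin.natAdd k i) - 1 :
      MvPolynomial (Fin (k + k)) ℂ) ∈ PL k a b := by
  rw [mem_PL, map_sub, map_add, map_mul, map_mul, th_C, th_C, th_castAdd, th_natAdd, map_one,
    ← mul_assoc, ← C_mul, mul_inv_cancel₀ (hb i), C_1]
  ring

/-- pairs of exponents -/
noncomputable def pe (k : ℕ) : (Fin k → ℤ × ℤ) ≃ₗ[ℤ] (Fin (k + k) → ℤ) where
  toFun m := Fin.append (fun i => (m i).1) (fun i => (m i).2)
  invFun v := fun i => (v (Fin.castAdd k i), v (Fin.natAdd k i))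
  map_add' m m' := by
    funext j
    refine Fin.addCases (fun i => ?_) (fun i => ?_) j
    · rw [Pi.add_apply, Fin.append_left, Fin.append_left, Fin.append_left]
      rfl
    · rw [Pi.add_apply, Fin.append_right, Fin.append_right, Fin.append_right]
      rfl
  map_smul' c m := by
    funext j
    refine Fin.addCases (fun i => ?_) (fun i => ?_) j
    · rw [Pi.smul_apply, Fin.append_left, Fin.append_left]
      rfl
    · rw [Pi.smul_apply, Fin.append_right, Fin.append_right]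
      rfl
  left_inv m := by
    funext i
    exact Prod.ext (Fin.append_left (fun i => (m i).1) (fun i => (m i).2) i)
      (Fin.append_right (fun i => (m i).1) (fun i => (m i).2) i)
  right_inv v := by
    funext j
    refine Fin.addCases (fun i => ?_) (fun i => ?_) j
    · exact Fin.append_left (fun i => v (Fin.castAdd k i)) (fun i => v (Fin.natAdd k i)) i
    · exact Fin.append_right (fun i => v (Fin.castAdd k i)) (fun i => v (Fin.natAdd k i)) i

theorem prod_append {k : ℕ} (x y : Fin k → ℂ) (v : Fin (k + k) → ℤ) :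
    ∏ j, Fin.append x y j ^ v j =
      ∏ i, (x i ^ v (Fin.castAdd k i) * y i ^ v (Fin.natAdd k i)) := by
  rw [Fin.prod_univ_add, ← Finset.prod_mul_distrib]
  refine Finset.prod_congr rfl fun i _ => ?_
  rw [Fin.append_left, Fin.append_right]

theorem two_zpow_inj {p q : ℤ} (h : (2 : ℝ) ^ p = 2 ^ q) : p = q :=
  zpow_right_injective₀ (by norm_num) (by norm_num) h

/-- a monomial in `t` and `1 - t` which is constant is trivial -/
theorem mono_const {p q : ℤ} {A B : ℂ} (hA : A ≠ 0) (hB : B ≠ 0)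
    (h : ∀ t : ℂ, t ≠ 0 → t ≠ 1 → (t / A) ^ p * ((1 - t) / B) ^ q =
      (2 / A) ^ p * ((1 - 2) / B) ^ q) : p = 0 ∧ q = 0 := by
  have key : ∀ t : ℂ, t ≠ 0 → t ≠ 1 → ‖t‖ ^ p * ‖1 - t‖ ^ q = (2 : ℝ) ^ p := by
    intro t h0 h1
    have h2 := congrArg norm (h t h0 h1)
    rw [norm_mul, norm_mul, norm_zpow, norm_zpow, norm_zpow, norm_zpow, norm_div, norm_div,
      norm_div, norm_div, div_zpow, div_zpow, div_zpow, div_zpow] at h2
    have hA' : ‖A‖ ^ p ≠ 0 := zpow_ne_zero _ (norm_ne_zero_iff.mpr hA)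
    have hB' : ‖B‖ ^ q ≠ 0 := zpow_ne_zero _ (norm_ne_zero_iff.mpr hB)
    have h3 : ‖(1 : ℂ) - 2‖ ^ q = 1 := by
      have : (1 : ℂ) - 2 = -1 := by norm_num
      rw [this, norm_neg, norm_one, one_zpow]
    have h4 : ‖(2 : ℂ)‖ = 2 := by norm_num
    rw [h3, h4] at h2
    field_simp at h2
    exact h2
  have k1 := key (-1) (by norm_num) (by norm_num)
  have k2 := key (1 / 2) (by norm_num) (by norm_num)
  have e1 : (1 : ℂ) - -1 = 2 := by norm_num
  have e2 : ‖(2 : ℂ)‖ = 2 := by norm_num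
  rw [norm_neg, norm_one, one_zpow, one_mul, e1, e2] at k1
  have e3 : (1 : ℂ) - 1 / 2 = 1 / 2 := by norm_num
  have e4 : ‖(1 / 2 : ℂ)‖ = 2⁻¹ := by
    rw [norm_div, norm_one, e2]
    norm_num
  rw [e3, e4, ← zpow_add₀ (by norm_num), inv_zpow', ] at k2
  have f1 := two_zpow_inj k1
  have f2 := two_zpow_inj k2
  constructor <;> omega

end CF

open CF

theorem PL_prime (k : ℕ) (a b : Fin k → ℂ) : (PL k a b).IsPrime := by
  unfold PL
  exact RingHom.ker_isPrime _

theorem PL_X (k : ℕ) (a b : Fin k → ℂ) (ha : ∀ i, a i ≠ 0) (hb : ∀ i, b i ≠ 0) :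
    (∏ i : Fin (k + k), (X i : MvPolynomial (Fin (k + k)) ℂ)) ∉ PL k a b := by
  rw [mem_PL, Fin.prod_univ_add, map_mul, map_prod, map_prod]
  refine mul_ne_zero ?_ ?_
  · refine Finset.prod_ne_zero_iff.mpr fun i _ => ?_
    rw [th_castAdd]
    exact X_ne_zero i
  · refine Finset.prod_ne_zero_iff.mpr fun i _ => ?_
    rw [th_natAdd]
    refine mul_ne_zero ?_ (one_sub_ne _ _)
    rw [Ne, C_eq_zero]
    exact inv_ne_zero (hb i)

theorem PL_onTorus (k : ℕ) (a b : Fin k → ℂ) (hb : ∀ i, b i ≠ 0) (x y : Fin k → ℂ) :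
    OnTorus (k + k) (PL k a b) (Fin.append x y) ↔
      ∀ i, x i ≠ 0 ∧ y i ≠ 0 ∧ a i * x i + b i * y i = 1 := by
  constructor
  · rintro ⟨h1, h2⟩ i
    refine ⟨?_, ?_, ?_⟩
    · have := h1 (Fin.castAdd k i)
      rwa [Fin.append_left] at this
    · have := h1 (Fin.natAdd k i)
      rwa [Fin.append_right] at this
    · have := h2 _ (line_mem a b hb i)
      rw [map_sub, map_add, map_mul, map_mul, eval_C, eval_C, eval_X, eval_X, Fin.append_left,
        Fin.append_right, map_one] at this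
      exact sub_eq_zero.mp this
  · intro h
    refine ⟨fun j => ?_, fun g hg => ?_⟩
    · refine Fin.addCases (fun i => ?_) (fun i => ?_) j
      · rw [Fin.append_left]
        exact (h i).1
      · rw [Fin.append_right]
        exact (h i).2.1
    · rw [eval_th (y_of hb fun i => (h i).2.2) g, mem_PL.mp hg, map_zero]

theorem PL_unlikely (k : ℕ) (a b : Fin k → ℂ) (hb : ∀ i, b i ≠ 0)
    (x y : Fin k → ℂ) (h : Special (k + 1) a b x y) :
    Unlikely (k + k) (PL k a b) (Fin.append x y) := by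
  obtain ⟨h1, Λ, hr, hΛ⟩ := h
  refine ⟨(PL_onTorus k a b hb x y).mpr h1, Λ.map (pe k : (Fin k → ℤ × ℤ) →ₗ[ℤ] _), ?_, ?_⟩
  · have hf : finrank ℤ (Λ.map (pe k : (Fin k → ℤ × ℤ) →ₗ[ℤ] (Fin (k + k) → ℤ))) =
        finrank ℤ Λ := LinearEquiv.finrank_map_eq (pe k) Λ
    have hle : finrank ℤ (Λ.map (pe k : (Fin k → ℤ × ℤ) →ₗ[ℤ] (Fin (k + k) → ℤ))) ≤ k + k := by
      have := Submodule.finrank_le (Λ.map (pe k : (Fin k → ℤ × ℤ) →ₗ[ℤ] (Fin (k + k) → ℤ)))
      rwa [Module.finrank_fin_fun] at this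
    have hd : ringKrullDim (MvPolynomial (Fin (k + k)) ℂ ⧸ PL k a b) = (k : WithBot ℕ∞) := by
      have e : (MvPolynomial (Fin (k + k)) ℂ ⧸ PL k a b) ≃ₐ[ℂ] MvPolynomial (Fin k) ℂ :=
        Ideal.quotientKerAlgEquivOfSurjective (f := th k a b) (th_surj a b)
      rw [ringKrullDim_eq_of_ringEquiv e.toRingEquiv,
        MvPolynomial.ringKrullDim_of_isNoetherianRing, ringKrullDim_eq_zero_of_field, zero_add,
        Nat.card_fin]
    rw [hd]
    have hn : k + ((k + k) - finrank ℤ (Λ.map (pe k : (Fin k → ℤ × ℤ) →ₗ[ℤ]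
        (Fin (k + k) → ℤ)))) + 1 ≤ k + k := by omega
    exact_mod_cast hn
  · rintro v ⟨m, hm, rfl⟩
    have h2 := hΛ m hm
    rw [prod_append]
    refine Eq.trans ?_ h2
    refine Finset.prod_congr rfl fun i _ => ?_
    have e1 : ((pe k : (Fin k → ℤ × ℤ) →ₗ[ℤ] (Fin (k + k) → ℤ)) m) (Fin.castAdd k i) =
        (m i).1 := Fin.append_left (fun i => (m i).1) (fun i => (m i).2) i
    have e2 : ((pe k : (Fin k → ℤ × ℤ) →ₗ[ℤ] (Fin (k + k) → ℤ)) m) (Fin.natAdd k i) =
        (m i).2 := Fin.append_right (fun i => (m i).1) (fun i => (m i).2) i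
    rw [e1, e2]

theorem PL_not_sub (k : ℕ) (a b : Fin k → ℂ) (ha : ∀ i, a i ≠ 0) (hb : ∀ i, b i ≠ 0) :
    ¬ InSubgroup (k + k) (PL k a b) := by
  classical
  rintro ⟨v, hv, H⟩
  apply hv
  -- the product at a general point
  have hG : ∀ s : Fin k → ℂ, (∀ j, s j ≠ 0 ∧ s j ≠ 1) →
      ∏ j, ((s j / a j) ^ v (Fin.castAdd k j) * ((1 - s j) / b j) ^ v (Fin.natAdd k j)) = 1 := by
    intro s hs
    have h1 := H (Fin.append (fun j => s j / a j) (fun j => (1 - s j) / b j)) (by
      rw [PL_onTorus k a b hb]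
      intro j
      refine ⟨div_ne_zero (hs j).1 (ha j), div_ne_zero (sub_ne_zero.mpr (hs j).2.symm) (hb j), ?_⟩
      rw [mul_div_cancel₀ _ (ha j), mul_div_cancel₀ _ (hb j)]
      ring)
    rwa [prod_append] at h1
  have hi : ∀ i : Fin k, v (Fin.castAdd k i) = 0 ∧ v (Fin.natAdd k i) = 0 := by
    intro i
    apply mono_const (ha i) (hb i)
    intro t h0 h1
    have g1 := hG (Function.update (fun _ => 2) i t) (by
      intro j
      by_cases hj : j = i
      · subst hj
        rw [Function.update_self]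
        exact ⟨h0, h1⟩
      · rw [Function.update_of_ne hj]
        norm_num)
    have g2 := hG (fun _ => 2) (by
      intro j
      norm_num)
    rw [← Finset.mul_prod_erase Finset.univ _ (Finset.mem_univ i)] at g1 g2
    rw [Function.update_self] at g1
    have g3 : ∏ j ∈ Finset.univ.erase i,
        ((Function.update (fun _ => (2 : ℂ)) i t j / a j) ^ v (Fin.castAdd k j) *
          ((1 - Function.update (fun _ => (2 : ℂ)) i t j) / b j) ^ v (Fin.natAdd k j)) =
        ∏ j ∈ Finset.univ.erase i, ((2 / a j) ^ v (Fin.castAdd k j) *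
          ((1 - 2) / b j) ^ v (Fin.natAdd k j)) := by
      refine Finset.prod_congr rfl fun j hj => ?_
      rw [Function.update_of_ne (Finset.ne_of_mem_erase hj)]
    rw [g3] at g1
    have g4 : ∏ j ∈ Finset.univ.erase i, ((2 / a j) ^ v (Fin.castAdd k j) *
          ((1 - 2) / b j) ^ v (Fin.natAdd k j)) ≠ 0 := by
      intro h
      rw [h, mul_zero] at g2
      exact zero_ne_one g2
    exact mul_right_cancel₀ g4 (g1.trans g2.symm)
  funext j
  refine Fin.addCases (fun i => ?_) (fun i => ?_) j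
  · exact (hi i).1
  · exact (hi i).2

theorem PL_dense (k : ℕ) (a b : Fin k → ℂ) (ha : ∀ i, a i ≠ 0) (hb : ∀ i, b i ≠ 0)
    (f : MvPolynomial (Fin (k + k)) ℂ)
    (H : ∀ F : MvPolynomial (Fin k) ℂ, (∀ x y, Special (k + 1) a b x y → eval x F = 0) → F = 0)
    (hf : ∀ x y, Special (k + 1) a b x y → eval (Fin.append x y) f = 0) : f ∈ PL k a b := by
  rw [mem_PL]
  apply H
  intro x y hxy
  rw [← eval_th (y_of hb fun i => (hxy.1 i).2.2) f]
  exact hf x y hxy

end Pool.Agent.AL
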