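import Pool.Agent.Lib.MP_c95b3b_ag_AL.DefsC
import Pool.Agent.Lib.MP_c95b3b_ag_AL.CF

/-! Project AL (MP_c95b3b_ag), module CG: translates. -/

namespace Pool.Agent.AL

open Module MvPolynomial Pool.Agent.CITR
open Pool.Agent.L3 (Special)

namespace CG

theorem mem_PL {k : ℕ} {a b : Fin k → ℂ} {f : MvPolynomial (Fin (k + k)) ℂ} :
    f ∈ PL k a b ↔ aeval (Fin.append (fun i => (X i : MvPolynomial (Fin k) ℂ))
      (fun i => C (b i)⁻¹ * (1 - C (a i) * X i))) f = 0 := Iff.rfl

/-- the relation of the coordinates of the line number `i` -/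
noncomputable def h (k : ℕ) (i : Fin k) : MvPolynomial (Fin (k + k)) ℂ :=
  X (Fin.natAdd k i) - (1 - X (Fin.castAdd k i))

theorem h_mem (k : ℕ) (i : Fin k) : h k i ∈ PL k 1 1 := by
  rw [mem_PL, h, map_sub, map_sub, map_one, aeval_X, aeval_X, Fin.append_left, Fin.append_right]
  simp only [Pi.one_apply, inv_one, map_one, one_mul]
  ring

theorem isAlg_ite (p : Prop) [Decidable p] : IsAlgebraic ℚ (if p then (1 : ℂ) else 0) := by
  split_ifs
  · exact isAlgebraic_one
  · exact isAlgebraic_zero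

theorem h_alg (k : ℕ) (i : Fin k) (s : Fin (k + k) →₀ ℕ) : IsAlgebraic ℚ (coeff s (h k i)) := by
  classical
  rw [h, coeff_sub, coeff_sub, coeff_X, coeff_X, coeff_one]
  exact (isAlg_ite _).sub ((isAlg_ite _).sub (isAlg_ite _))

theorem eval_th (k : ℕ) (a b x : Fin k → ℂ) (f : MvPolynomial (Fin (k + k)) ℂ) :
    eval x (aeval (Fin.append (fun i => (X i : MvPolynomial (Fin k) ℂ))
      (fun i => C (b i)⁻¹ * (1 - C (a i) * X i))) f) =
      eval (Fin.append x (fun i => (b i)⁻¹ * (1 - a i * x i))) f := by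
  have h1 : ((aeval x : MvPolynomial (Fin k) ℂ →ₐ[ℂ] ℂ).comp
      (aeval (Fin.append (fun i => (X i : MvPolynomial (Fin k) ℂ))
        (fun i => C (b i)⁻¹ * (1 - C (a i) * X i))))) =
      (aeval (Fin.append x (fun i => (b i)⁻¹ * (1 - a i * x i))) :
        MvPolynomial (Fin (k + k)) ℂ →ₐ[ℂ] ℂ) := by
    refine algHom_ext fun j => ?_
    rw [AlgHom.comp_apply, aeval_X, aeval_X]
    refine Fin.addCases (fun i => ?_) (fun i => ?_) j
    · rw [Fin.append_left, Fin.append_left, aeval_X]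
    · rw [Fin.append_right, Fin.append_right]
      simp only [map_mul, map_sub, map_one, aeval_X, algHom_C, Algebra.algebraMap_self,
        RingHom.id_apply]
  have h2 := DFunLike.congr_fun h1 f
  rw [AlgHom.comp_apply] at h2
  exact h2

end CG

theorem PL_one_span (k : ℕ) : PL k 1 1 = Ideal.span {f | f ∈ PL k 1 1 ∧
    ∀ s, IsAlgebraic ℚ (coeff s f)} := by
  refine le_antisymm ?_ (Ideal.span_le.2 fun f hf => hf.1)
  set J : Ideal (MvPolynomial (Fin (k + k)) ℂ) := Ideal.span {f | f ∈ PL k 1 1 ∧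
    ∀ s, IsAlgebraic ℚ (coeff s f)} with hJ
  have hh : ∀ i, CG.h k i ∈ J := fun i =>
    Ideal.subset_span ⟨CG.h_mem k i, CG.h_alg k i⟩
  have h1 : Ideal.Quotient.mkₐ ℂ J = (Ideal.Quotient.mkₐ ℂ J).comp
      ((rename (Fin.castAdd k)).comp (aeval (Fin.append
        (fun i => (X i : MvPolynomial (Fin k) ℂ))
        (fun i => C ((1 : Fin k → ℂ) i)⁻¹ * (1 - C ((1 : Fin k → ℂ) i) * X i))))) := by
    refine algHom_ext fun j => ?_
    rw [AlgHom.comp_apply, AlgHom.comp_apply, aeval_X]
    refine Fin.addCases (fun i => ?_) (fun i => ?_) j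
    · rw [Fin.append_left, rename_X]
    · rw [Fin.append_right]
      simp only [Pi.one_apply, inv_one, map_one, one_mul, map_sub, rename_X]
      rw [← sub_eq_zero]
      have h2 : Ideal.Quotient.mkₐ ℂ J (CG.h k i) = 0 := by
        rw [Ideal.Quotient.mkₐ_eq_mk]
        exact Ideal.Quotient.eq_zero_iff_mem.2 (hh i)
      rw [CG.h, map_sub, map_sub, map_one] at h2
      exact h2
  intro f hf
  rw [CG.mem_PL] at hf
  have h3 := DFunLike.congr_fun h1 f
  rw [AlgHom.comp_apply, AlgHom.comp_apply, hf, map_zero, map_zero,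
    Ideal.Quotient.mkₐ_eq_mk] at h3
  exact Ideal.Quotient.eq_zero_iff_mem.1 h3

theorem PL_translate (k : ℕ) (a b : Fin k → ℂ) (ha : ∀ i, a i ≠ 0) (hb : ∀ i, b i ≠ 0)
    (f : MvPolynomial (Fin (k + k)) ℂ) : f ∈ PL k a b ↔
      ∀ x, OnTorus (k + k) (PL k 1 1) x →
        eval (fun j => Fin.append (fun i => (a i)⁻¹) (fun i => (b i)⁻¹) j * x j) f = 0 := by
  have hone : ∀ i : Fin k, (1 : Fin k → ℂ) i ≠ 0 := fun i => one_ne_zero
  have hap : ∀ u v : Fin k → ℂ,
      (fun j => Fin.append (fun i => (a i)⁻¹) (fun i => (b i)⁻¹) j * Fin.append u v j) =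
        Fin.append (fun i => (a i)⁻¹ * u i) (fun i => (b i)⁻¹ * v i) := by
    intro u v
    funext j
    refine Fin.addCases (fun i => ?_) (fun i => ?_) j
    · simp only [Fin.append_left]
    · simp only [Fin.append_right]
  constructor
  · intro hf x hx
    have e : x = Fin.append (fun i => x (Fin.castAdd k i)) (fun i => x (Fin.natAdd k i)) :=
      Fin.append_castAdd_natAdd.symm
    rw [e] at hx ⊢
    rw [hap]
    rw [PL_onTorus k 1 1 hone] at hx
    refine ((PL_onTorus k a b hb _ _).2 fun i => ?_).2 f hf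
    obtain ⟨h1, h2, h3⟩ := hx i
    refine ⟨mul_ne_zero (inv_ne_zero (ha i)) h1, mul_ne_zero (inv_ne_zero (hb i)) h2, ?_⟩
    rw [Pi.one_apply, one_mul, one_mul] at h3
    rw [mul_inv_cancel_left₀ (ha i), mul_inv_cancel_left₀ (hb i)]
    exact h3
  · intro hv
    rw [CG.mem_PL]
    set F := aeval (Fin.append (fun i => (X i : MvPolynomial (Fin k) ℂ))
      (fun i => C (b i)⁻¹ * (1 - C (a i) * X i))) f with hF
    have hvan : ∀ x : Fin k → ℂ, (∀ i, x i ≠ 0) → (∀ i, 1 - a i * x i ≠ 0) → eval x F = 0 := by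
      intro x hx0 hx1
      rw [hF, CG.eval_th]
      have h1 := hv (Fin.append (fun i => a i * x i) (fun i => 1 - a i * x i))
        ((PL_onTorus k 1 1 hone _ _).2 fun i => ⟨mul_ne_zero (ha i) (hx0 i), hx1 i, by
          rw [Pi.one_apply]; ring⟩)
      rw [hap] at h1
      have h2 : (fun i => (a i)⁻¹ * (a i * x i)) = x := by
        funext i
        exact inv_mul_cancel_left₀ (ha i) (x i)
      rw [h2] at h1
      exact h1
    set G : MvPolynomial (Fin k) ℂ := ∏ i, (X i * (1 - C (a i) * X i)) with hG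
    have hG0 : G ≠ 0 := by
      rw [hG, Finset.prod_ne_zero_iff]
      intro i _
      refine mul_ne_zero (X_ne_zero i) ?_
      intro h0
      have h1 := congrArg (eval (0 : Fin k → ℂ)) h0
      rw [map_sub, map_one, map_mul, eval_X, Pi.zero_apply, mul_zero, sub_zero, map_zero] at h1
      exact one_ne_zero h1
    have hFG : F * G = 0 := by
      refine MvPolynomial.funext fun x => ?_
      rw [map_mul, map_zero, hG, map_prod]
      by_cases hx : ∀ i, x i ≠ 0 ∧ 1 - a i * x i ≠ 0
      · rw [hvan x (fun i => (hx i).1) (fun i => (hx i).2), zero_mul]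
      · push Not at hx
        obtain ⟨i, hi⟩ := hx
        have h1 : ∏ j, eval x (X j * (1 - C (a j) * X j)) = 0 := by
          refine Finset.prod_eq_zero (Finset.mem_univ i) ?_
          rw [map_mul, map_sub, map_one, map_mul, eval_X, eval_C]
          by_cases h0 : x i = 0
          · rw [h0, zero_mul]
          · rw [hi h0, mul_zero]
        rw [h1, mul_zero]
    exact (mul_eq_zero.1 hFG).resolve_right hG0

end Pool.Agent.AL
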