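import Pool.Agent.Lib.MP_c95b3b_ag_AL.DefsC
import Pool.Agent.Lib.MP_c95b3b_ag_AL.CF

/-! Project AL (MP_c95b3b_ag), module CH: polynomials vanishing on the image. -/

namespace Pool.Agent.AL

open Module MvPolynomial Pool.Agent.CITR
open Pool.Agent.L3 (Special)

namespace CH

theorem pow_clear {E : Type} [Field E] {m : ℕ} (z : E) (hz : z ≠ 0) (g : Fin m → ℤ)
    (s : Fin m → ℕ) (N : ℕ) (h : 0 ≤ ∑ l, (s l : ℤ) * g l + N) :
    z ^ (∑ l, (s l : ℤ) * g l + N).toNat = z ^ N * ∏ l, (z ^ g l) ^ s l := by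
  classical
  have h1 : ∀ T : Finset (Fin m), ∏ l ∈ T, (z ^ g l) ^ s l =
      z ^ (∑ l ∈ T, (s l : ℤ) * g l) := by
    intro T
    induction T using Finset.induction_on with
    | empty => simp
    | insert a T ha ih =>
      rw [Finset.prod_insert ha, Finset.sum_insert ha, ih, zpow_add₀ hz, mul_comm ((s a : ℕ) : ℤ),
        zpow_mul, zpow_natCast]
  rw [h1, ← zpow_natCast z N, ← zpow_add₀ hz, ← zpow_natCast, Int.toNat_of_nonneg h, add_comm]

theorem clear {k m : ℕ} (c : Fin m → ℂ) (γ : Fin m → Fin (k + k) → ℤ)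
    (f : MvPolynomial (Fin m) ℂ) :
    ∃ (N : ℕ) (G : MvPolynomial (Fin k) ℂ), ∀ (E : Type) [Field E] [Algebra ℂ E] (t : Fin k → E),
      (∀ i, t i ≠ 0) → (∀ i, 1 - t i ≠ 0) →
      aeval t G = (∏ i, (t i ^ N * (1 - t i) ^ N)) *
        aeval (fun l => algebraMap ℂ E (c l) * ∏ i, (t i ^ γ l (Fin.castAdd k i) *
          (1 - t i) ^ γ l (Fin.natAdd k i))) f := by
  classical
  let N : ℕ := ∑ s ∈ f.support, ∑ j, (∑ l, (s l : ℤ) * γ l j).natAbs
  have hN : ∀ s ∈ f.support, ∀ j, 0 ≤ ∑ l, (s l : ℤ) * γ l j + N := by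
    intro s hs j
    have h1 : (∑ l, (s l : ℤ) * γ l j).natAbs ≤ N := by
      refine le_trans ?_ (Finset.single_le_sum (f := fun s : Fin m →₀ ℕ =>
        ∑ j, (∑ l, (s l : ℤ) * γ l j).natAbs) (fun _ _ => Nat.zero_le _) hs)
      exact Finset.single_le_sum (f := fun j => (∑ l, (s l : ℤ) * γ l j).natAbs)
        (fun _ _ => Nat.zero_le _) (Finset.mem_univ j)
    omega
  refine ⟨N, ∑ s ∈ f.support, C (coeff s f * ∏ l, c l ^ s l) *
    ∏ i, (X i ^ (∑ l, (s l : ℤ) * γ l (Fin.castAdd k i) + N).toNat *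
      (1 - X i) ^ (∑ l, (s l : ℤ) * γ l (Fin.natAdd k i) + N).toNat), ?_⟩
  intro E _ _ t ht0 ht1
  rw [aeval_def (fun l => algebraMap ℂ E (c l) * ∏ i, (t i ^ γ l (Fin.castAdd k i) *
          (1 - t i) ^ γ l (Fin.natAdd k i))) f, eval₂_eq', Finset.mul_sum, map_sum]
  refine Finset.sum_congr rfl fun s hs => ?_
  have e1 : ∀ i, (t i ^ (∑ l, (s l : ℤ) * γ l (Fin.castAdd k i) + N).toNat *
      (1 - t i) ^ (∑ l, (s l : ℤ) * γ l (Fin.natAdd k i) + N).toNat) =
      (t i ^ N * (1 - t i) ^ N) * ∏ l, (t i ^ γ l (Fin.castAdd k i) *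
          (1 - t i) ^ γ l (Fin.natAdd k i)) ^ s l := by
    intro i
    rw [pow_clear (t i) (ht0 i) (fun l => γ l (Fin.castAdd k i)) s N (hN s hs _),
      pow_clear (1 - t i) (ht1 i) (fun l => γ l (Fin.natAdd k i)) s N (hN s hs _)]
    simp_rw [mul_pow]
    rw [Finset.prod_mul_distrib]
    ring
  have e2 : aeval t (C (coeff s f * ∏ l, c l ^ s l) *
    ∏ i, (X i ^ (∑ l, (s l : ℤ) * γ l (Fin.castAdd k i) + N).toNat *
      (1 - X i) ^ (∑ l, (s l : ℤ) * γ l (Fin.natAdd k i) + N).toNat)) =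
      algebraMap ℂ E (coeff s f * ∏ l, c l ^ s l) *
    ∏ i, (t i ^ (∑ l, (s l : ℤ) * γ l (Fin.castAdd k i) + N).toNat *
      (1 - t i) ^ (∑ l, (s l : ℤ) * γ l (Fin.natAdd k i) + N).toNat) := by
    simp only [map_mul, map_prod, map_pow, map_sub, map_one, aeval_X, aeval_C]
  have e3 : ∏ l, (algebraMap ℂ E (c l) * ∏ i, (t i ^ γ l (Fin.castAdd k i) *
          (1 - t i) ^ γ l (Fin.natAdd k i))) ^ s l =
      (∏ l, algebraMap ℂ E (c l) ^ s l) * ∏ l, ∏ i, (t i ^ γ l (Fin.castAdd k i) *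
          (1 - t i) ^ γ l (Fin.natAdd k i)) ^ s l := by
    rw [← Finset.prod_mul_distrib]
    refine Finset.prod_congr rfl fun l _ => ?_
    rw [mul_pow, Finset.prod_pow]
  rw [e2, Finset.prod_congr rfl fun i _ => e1 i, Finset.prod_mul_distrib, Finset.prod_comm, e3,
    map_mul, map_prod]
  simp only [map_pow]
  ring

theorem one_sub_X_ne {k : ℕ} (i : Fin k) : (1 - X i : MvPolynomial (Fin k) ℂ) ≠ 0 := by
  intro h
  have h1 := congrArg (eval (fun _ => (0 : ℂ))) h
  simp at h1

theorem uc_ne {k : ℕ} (i : Fin k) : uc k i ≠ 0 := by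
  intro h
  have h1 : (X i : MvPolynomial (Fin k) ℂ) = 0 :=
    IsFractionRing.injective (MvPolynomial (Fin k) ℂ) (KC k) (by rw [map_zero]; exact h)
  exact X_ne_zero i h1

theorem one_sub_uc_ne {k : ℕ} (i : Fin k) : 1 - uc k i ≠ 0 := by
  intro h
  have h1 : (1 - X i : MvPolynomial (Fin k) ℂ) = 0 :=
    IsFractionRing.injective (MvPolynomial (Fin k) ℂ) (KC k)
      (by rw [map_zero, map_sub, map_one]; exact h)
  exact one_sub_X_ne i h1

theorem aeval_uc {k : ℕ} (G : MvPolynomial (Fin k) ℂ) :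
    aeval (uc k) G = algebraMap (MvPolynomial (Fin k) ℂ) (KC k) G := by
  have h1 := aeval_algebraMap_apply (A := MvPolynomial (Fin k) ℂ) (KC k) (X : Fin k → _) G
  rw [aeval_X_left_apply] at h1
  exact h1

theorem prod_append {k : ℕ} (a b u : Fin k → ℂ) (e : Fin (k + k) → ℤ) :
    ∏ j, Fin.append (fun i => (a i)⁻¹ * u i) (fun i => (b i)⁻¹ * (1 - u i)) j ^ e j =
      (∏ j, Fin.append (fun i => (a i)⁻¹) (fun i => (b i)⁻¹) j ^ e j) *
        ∏ i, (u i ^ e (Fin.castAdd k i) * (1 - u i) ^ e (Fin.natAdd k i)) := by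
  rw [Fin.prod_univ_add, Fin.prod_univ_add]
  simp only [Fin.append_left, Fin.append_right, mul_zpow]
  simp only [Finset.prod_mul_distrib]
  ring

end CH

theorem image_iff {k m : ℕ} (a b : Fin k → ℂ) (ha : ∀ i, a i ≠ 0) (hb : ∀ i, b i ≠ 0)
    (γ : Fin m → Fin (k + k) → ℤ) (f : MvPolynomial (Fin m) ℂ) :
    (∀ x, OnTorus (k + k) (PL k a b) x → eval (fun l => ∏ j, x j ^ γ l j) f = 0) ↔
      aeval (fun l => algebraMap ℂ (KC k)
        (∏ j, Fin.append (fun i => (a i)⁻¹) (fun i => (b i)⁻¹) j ^ γ l j) * mc γ l) f = 0 := by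
  classical
  obtain ⟨N, G, hG⟩ := CH.clear
    (fun l => ∏ j, Fin.append (fun i => (a i)⁻¹) (fun i => (b i)⁻¹) j ^ γ l j) γ f
  -- the points of the torus part
  have h1 : (∀ x, OnTorus (k + k) (PL k a b) x → eval (fun l => ∏ j, x j ^ γ l j) f = 0) ↔
      ∀ u : Fin k → ℂ, (∀ i, u i ≠ 0) → (∀ i, 1 - u i ≠ 0) →
        aeval (fun l => algebraMap ℂ ℂ
          (∏ j, Fin.append (fun i => (a i)⁻¹) (fun i => (b i)⁻¹) j ^ γ l j) *
          ∏ i, (u i ^ γ l (Fin.castAdd k i) * (1 - u i) ^ γ l (Fin.natAdd k i))) f = 0 := by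
    constructor
    · intro h u hu0 hu1
      have h2 := h (Fin.append (fun i => (a i)⁻¹ * u i) (fun i => (b i)⁻¹ * (1 - u i))) (by
        rw [PL_onTorus k a b hb]
        intro i
        refine ⟨mul_ne_zero (inv_ne_zero (ha i)) (hu0 i), mul_ne_zero (inv_ne_zero (hb i)) (hu1 i),
          ?_⟩
        rw [← mul_assoc, ← mul_assoc, mul_inv_cancel₀ (ha i), mul_inv_cancel₀ (hb i)]
        ring)
      rw [← h2]
      have h3 : (fun l => algebraMap ℂ ℂ
          (∏ j, Fin.append (fun i => (a i)⁻¹) (fun i => (b i)⁻¹) j ^ γ l j) *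
          ∏ i, (u i ^ γ l (Fin.castAdd k i) * (1 - u i) ^ γ l (Fin.natAdd k i))) =
          fun l => ∏ j, Fin.append (fun i => (a i)⁻¹ * u i) (fun i => (b i)⁻¹ * (1 - u i)) j ^
            γ l j := by
        funext l
        rw [CH.prod_append]
        rfl
      rw [h3]
      rfl
    · intro h x hx
      have hx1 : x = Fin.append (fun i => x (Fin.castAdd k i)) (fun i => x (Fin.natAdd k i)) := by
        funext j
        refine Fin.addCases (fun i => ?_) (fun i => ?_) j
        · rw [Fin.append_left]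
        · rw [Fin.append_right]
      have hx2 := hx
      rw [hx1, PL_onTorus k a b hb] at hx2
      have h2 := h (fun i => a i * x (Fin.castAdd k i)) (fun i => mul_ne_zero (ha i) (hx2 i).1)
        (fun i => by
          have h3 : 1 - a i * x (Fin.castAdd k i) = b i * x (Fin.natAdd k i) := by
            rw [← (hx2 i).2.2]
            ring
          rw [h3]
          exact mul_ne_zero (hb i) (hx2 i).2.1)
      rw [← h2]
      have h3 : (fun l => algebraMap ℂ ℂ
          (∏ j, Fin.append (fun i => (a i)⁻¹) (fun i => (b i)⁻¹) j ^ γ l j) *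
          ∏ i, ((a i * x (Fin.castAdd k i)) ^ γ l (Fin.castAdd k i) *
            (1 - a i * x (Fin.castAdd k i)) ^ γ l (Fin.natAdd k i))) =
          fun l => ∏ j, x j ^ γ l j := by
        funext l
        have h4 := CH.prod_append a b (fun i => a i * x (Fin.castAdd k i)) (γ l)
        have h5 : Fin.append (fun i => (a i)⁻¹ * (a i * x (Fin.castAdd k i)))
            (fun i => (b i)⁻¹ * (1 - a i * x (Fin.castAdd k i))) = x := by
          rw [hx1]
          congr 1
          · funext i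
            rw [Fin.append_left, ← mul_assoc, inv_mul_cancel₀ (ha i), one_mul]
          · funext i
            have h6 : 1 - a i * x (Fin.castAdd k i) = b i * x (Fin.natAdd k i) := by
              rw [← (hx2 i).2.2]
              ring
            rw [Fin.append_left, h6, ← mul_assoc, inv_mul_cancel₀ (hb i), one_mul]
        rw [h5] at h4
        rw [h4]
        rfl
      rw [h3]
      rfl
  -- both sides say that the polynomial is zero
  have h2 : (∀ u : Fin k → ℂ, (∀ i, u i ≠ 0) → (∀ i, 1 - u i ≠ 0) →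
        aeval (fun l => algebraMap ℂ ℂ
          (∏ j, Fin.append (fun i => (a i)⁻¹) (fun i => (b i)⁻¹) j ^ γ l j) *
          ∏ i, (u i ^ γ l (Fin.castAdd k i) * (1 - u i) ^ γ l (Fin.natAdd k i))) f = 0) ↔
      G = 0 := by
    constructor
    · intro h
      have h3 : G * ∏ i, (X i * (1 - X i)) = 0 := by
        apply MvPolynomial.funext
        intro u
        rw [map_mul, map_zero, map_prod]
        by_cases h4 : ∀ i, u i ≠ 0 ∧ 1 - u i ≠ 0
        · have h5 := hG ℂ u (fun i => (h4 i).1) (fun i => (h4 i).2)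
          rw [h u (fun i => (h4 i).1) (fun i => (h4 i).2), mul_zero] at h5
          have h6 : eval u G = 0 := h5
          rw [h6, zero_mul]
        · push Not at h4
          obtain ⟨i, hi⟩ := h4
          have h5 : ∏ i, eval u (X i * (1 - X i)) = 0 := by
            refine Finset.prod_eq_zero (Finset.mem_univ i) ?_
            rw [map_mul, map_sub, map_one, eval_X]
            by_cases h6 : u i = 0
            · rw [h6, zero_mul]
            · rw [hi h6, mul_zero]
          rw [h5, mul_zero]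
      rcases mul_eq_zero.mp h3 with h4 | h4
      · exact h4
      · exfalso
        obtain ⟨i, -, hi⟩ := Finset.prod_eq_zero_iff.mp h4
        rcases mul_eq_zero.mp hi with h5 | h5
        · exact X_ne_zero i h5
        · exact CH.one_sub_X_ne i h5
    · intro h u hu0 hu1
      have h5 := hG ℂ u hu0 hu1
      rw [h, map_zero] at h5
      rcases mul_eq_zero.mp h5.symm with h6 | h6
      · exfalso
        obtain ⟨i, -, hi⟩ := Finset.prod_eq_zero_iff.mp h6
        rcases mul_eq_zero.mp hi with h7 | h7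
        · exact hu0 i (eq_zero_of_pow_eq_zero h7)
        · exact hu1 i (eq_zero_of_pow_eq_zero h7)
      · exact h6
  rw [h1, h2]
  have h3 := hG (KC k) (uc k) CH.uc_ne CH.one_sub_uc_ne
  rw [CH.aeval_uc] at h3
  constructor
  · intro h
    rw [h, map_zero] at h3
    rcases mul_eq_zero.mp h3.symm with h6 | h6
    · exfalso
      obtain ⟨i, -, hi⟩ := Finset.prod_eq_zero_iff.mp h6
      rcases mul_eq_zero.mp hi with h7 | h7
      · exact CH.uc_ne i (eq_zero_of_pow_eq_zero h7)
      · exact CH.one_sub_uc_ne i (eq_zero_of_pow_eq_zero h7)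
    · exact h6
  · intro h
    have h4 : aeval (fun l => algebraMap ℂ (KC k)
        (∏ j, Fin.append (fun i => (a i)⁻¹) (fun i => (b i)⁻¹) j ^ γ l j) *
        ∏ i, (uc k i ^ γ l (Fin.castAdd k i) * (1 - uc k i) ^ γ l (Fin.natAdd k i))) f = 0 := h
    rw [h4, mul_zero] at h3
    exact IsFractionRing.injective (MvPolynomial (Fin k) ℂ) (KC k) (by rw [h3, map_zero])

end Pool.Agent.AL
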