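import Pool.Agent.Lib.MP_c95b3b_ag_AL.DefsM

/-! Project AL (MP_c95b3b_ag), module MI: the scales. -/

namespace Pool.Agent.AL

open Pool.Agent.L3 Module MvPolynomial
open Pool.Agent.KP (supp vec cel key shift lvv Good pr1 pr0)

/-- `a i` is at most a constant times `a j` -/
private def MI_le (𝒰 : Ultrafilter ℕ) {κ : Type} (a : ℕ → κ → ℝ) (i j : κ) : Prop :=
  ∃ T : ℝ, ∀ᶠ n in (𝒰 : Filter ℕ), a n i ≤ T * a n j

private lemma MI_refl (𝒰 : Ultrafilter ℕ) {κ : Type} (a : ℕ → κ → ℝ) (i : κ) :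
    MI_le 𝒰 a i i :=
  ⟨1, Filter.Eventually.of_forall fun n => by rw [one_mul]⟩

private lemma MI_trans (𝒰 : Ultrafilter ℕ) {κ : Type} (a : ℕ → κ → ℝ)
    (ha : ∀ (i : κ) (T : ℝ), ∀ᶠ n in (𝒰 : Filter ℕ), T ≤ a n i) {i j l : κ}
    (h1 : MI_le 𝒰 a i j) (h2 : MI_le 𝒰 a j l) : MI_le 𝒰 a i l := by
  obtain ⟨T, hT⟩ := h1
  obtain ⟨T', hT'⟩ := h2
  refine ⟨|T| * T', ?_⟩
  filter_upwards [hT, hT', ha j 0] with n hn hn' hj
  calc a n i ≤ T * a n j := hn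
    _ ≤ |T| * a n j := mul_le_mul_of_nonneg_right (le_abs_self T) hj
    _ ≤ |T| * (T' * a n l) := mul_le_mul_of_nonneg_left hn' (abs_nonneg T)
    _ = |T| * T' * a n l := by ring

private lemma MI_not (𝒰 : Ultrafilter ℕ) {κ : Type} (a : ℕ → κ → ℝ) {i j : κ}
    (h : ¬ MI_le 𝒰 a i j) (T : ℝ) : ∀ᶠ n in (𝒰 : Filter ℕ), T * a n j < a n i := by
  have h1 : ¬ ∀ᶠ n in (𝒰 : Filter ℕ), a n i ≤ T * a n j := fun h2 => h ⟨T, h2⟩
  rw [← Ultrafilter.eventually_not] at h1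
  filter_upwards [h1] with n hn
  exact not_le.1 hn

private lemma MI_total (𝒰 : Ultrafilter ℕ) {κ : Type} (a : ℕ → κ → ℝ) (i j : κ) :
    MI_le 𝒰 a i j ∨ MI_le 𝒰 a j i := by
  by_cases h : MI_le 𝒰 a i j
  · exact Or.inl h
  · refine Or.inr ⟨1, ?_⟩
    filter_upwards [MI_not 𝒰 a h 1] with n hn
    linarith

/-- a function to the natural numbers which describes the preorder -/
private lemma MI_rank (𝒰 : Ultrafilter ℕ) {κ : Type} [Fintype κ] (a : ℕ → κ → ℝ)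
    (ha : ∀ (i : κ) (T : ℝ), ∀ᶠ n in (𝒰 : Filter ℕ), T ≤ a n i) :
    ∃ c : κ → ℕ, ∀ i j, c i ≤ c j ↔ MI_le 𝒰 a i j := by
  classical
  have hmono : ∀ i j, MI_le 𝒰 a i j →
      Finset.univ.filter (fun l => MI_le 𝒰 a l i) ⊆ Finset.univ.filter (fun l => MI_le 𝒰 a l j) := by
    intro i j h l hl
    rw [Finset.mem_filter] at hl ⊢
    exact ⟨hl.1, MI_trans 𝒰 a ha hl.2 h⟩
  refine ⟨fun i => (Finset.univ.filter (fun l => MI_le 𝒰 a l i)).card, fun i j => ⟨fun h => ?_,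
    fun h => Finset.card_le_card (hmono i j h)⟩⟩
  by_contra hn
  have h1 : MI_le 𝒰 a j i := (MI_total 𝒰 a i j).resolve_left hn
  have h2 : Finset.univ.filter (fun l => MI_le 𝒰 a l j) ⊂
      Finset.univ.filter (fun l => MI_le 𝒰 a l i) := by
    refine Finset.ssubset_iff_subset_ne.2 ⟨hmono j i h1, fun h3 => hn ?_⟩
    have h4 : i ∈ Finset.univ.filter (fun l => MI_le 𝒰 a l i) := by
      rw [Finset.mem_filter]
      exact ⟨Finset.mem_univ i, MI_refl 𝒰 a i⟩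
    rw [← h3, Finset.mem_filter] at h4
    exact h4.2
  exact absurd (Finset.card_lt_card h2) (not_lt.2 h)

/-- the blocks -/
private lemma MI_blk (𝒰 : Ultrafilter ℕ) {κ : Type} [Fintype κ] [Nonempty κ] (a : ℕ → κ → ℝ)
    (ha : ∀ (i : κ) (T : ℝ), ∀ᶠ n in (𝒰 : Filter ℕ), T ≤ a n i) :
    ∃ (q : ℕ) (blk : κ → Fin (q + 1)), Function.Surjective blk ∧
      ∀ i j, blk i ≤ blk j ↔ MI_le 𝒰 a i j := by
  classical
  obtain ⟨c, hc⟩ := MI_rank 𝒰 a ha
  have hpos : 0 < (Finset.univ.image c).card :=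
    Finset.card_pos.2 (Finset.univ_nonempty.image c)
  obtain ⟨q, hq⟩ : ∃ q, (Finset.univ.image c).card = q + 1 := ⟨_, (Nat.sub_add_cancel hpos).symm⟩
  let φ : Fin (q + 1) ≃o {x // x ∈ Finset.univ.image c} :=
    (Finset.univ.image c).orderIsoOfFin hq
  have hm : ∀ i, c i ∈ Finset.univ.image c := fun i =>
    Finset.mem_image_of_mem c (Finset.mem_univ i)
  refine ⟨q, fun i => φ.symm ⟨c i, hm i⟩, fun J => ?_, fun i j => ?_⟩
  · obtain ⟨i, -, hi⟩ := Finset.mem_image.1 (φ J).2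
    refine ⟨i, ?_⟩
    have h1 : (⟨c i, hm i⟩ : {x // x ∈ Finset.univ.image c}) = φ J := Subtype.ext hi
    show φ.symm ⟨c i, hm i⟩ = J
    rw [h1, OrderIso.symm_apply_apply]
  · rw [← hc i j]
    show φ.symm ⟨c i, hm i⟩ ≤ φ.symm ⟨c j, hm j⟩ ↔ _
    rw [φ.symm.le_iff_le]
    exact Iff.rfl

theorem exists_scales (𝒰 : Ultrafilter ℕ) (κ : Type) [Fintype κ] [Nonempty κ] (a : ℕ → κ → ℝ)
    (ha : ∀ (i : κ) (T : ℝ), ∀ᶠ n in (𝒰 : Filter ℕ), T ≤ a n i) :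
    ∃ (q : ℕ) (blk : κ → Fin (q + 1)) (s : ℕ → Fin (q + 1) → ℝ) (B : ℝ), 1 ≤ B ∧
      Scales q 𝒰 s ∧ ∀ᶠ n in (𝒰 : Filter ℕ), ∀ i, s n (blk i) ≤ a n i ∧ a n i ≤ B * s n (blk i) := by
  classical
  obtain ⟨q, blk, hsurj, hblk⟩ := MI_blk 𝒰 a ha
  -- one constant for all pairs
  have hT : ∃ T₀ : ℝ, 1 ≤ T₀ ∧ ∀ i j, MI_le 𝒰 a i j →
      ∀ᶠ n in (𝒰 : Filter ℕ), a n i ≤ T₀ * a n j := by
    have h1 : ∀ i j, ∃ T : ℝ, MI_le 𝒰 a i j → ∀ᶠ n in (𝒰 : Filter ℕ), a n i ≤ T * a n j := by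
      intro i j
      by_cases h : MI_le 𝒰 a i j
      · obtain ⟨T, hT⟩ := h
        exact ⟨T, fun _ => hT⟩
      · exact ⟨0, fun h' => absurd h' h⟩
    choose T hT using h1
    have h2 : ∀ i j, |T i j| ≤ ∑ i, ∑ j, |T i j| := by
      intro i j
      calc |T i j| ≤ ∑ j, |T i j| :=
            Finset.single_le_sum (fun j _ => abs_nonneg (T i j)) (Finset.mem_univ j)
        _ ≤ ∑ i, ∑ j, |T i j| :=
            Finset.single_le_sum (f := fun i => ∑ j, |T i j|)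
              (fun i _ => Finset.sum_nonneg fun j _ => abs_nonneg (T i j)) (Finset.mem_univ i)
    refine ⟨1 + ∑ i, ∑ j, |T i j|, ?_, fun i j h => ?_⟩
    · have : 0 ≤ ∑ i, ∑ j, |T i j| :=
        Finset.sum_nonneg fun i _ => Finset.sum_nonneg fun j _ => abs_nonneg (T i j)
      linarith
    · filter_upwards [hT i j h, ha j 0] with n hn hj
      refine hn.trans (mul_le_mul_of_nonneg_right ?_ hj)
      have h3 := h2 i j
      have h4 := le_abs_self (T i j)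
      linarith
  obtain ⟨T₀, hT1, hT₀⟩ := hT
  have hT0 : 0 < T₀ := by linarith
  choose rep hrep using hsurj
  have hle : ∀ i, MI_le 𝒰 a i (rep (blk i)) := fun i =>
    (hblk _ _).1 (by rw [hrep])
  have hge : ∀ i, MI_le 𝒰 a (rep (blk i)) i := fun i =>
    (hblk _ _).1 (by rw [hrep])
  refine ⟨q, blk, fun n J => a n (rep J) / T₀, T₀ * T₀, by nlinarith, ⟨fun T => ?_, fun T => ?_⟩, ?_⟩
  · filter_upwards [ha (rep 0) (T * T₀)] with n hn
    rwa [le_div_iff₀ hT0]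
  · rw [Filter.eventually_all]
    intro i
    rw [Filter.eventually_all]
    intro j
    by_cases hij : i < j
    · have h1 : ¬ MI_le 𝒰 a (rep j) (rep i) := by
        rw [← hblk, hrep, hrep, not_le]
        exact hij
      filter_upwards [MI_not 𝒰 a h1 T] with n hn _
      rw [mul_div_assoc']
      exact div_le_div_of_nonneg_right hn.le hT0.le
    · exact Filter.Eventually.of_forall fun n h => absurd h hij
  · rw [Filter.eventually_all]
    intro i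
    filter_upwards [hT₀ _ _ (hle i), hT₀ _ _ (hge i)] with n h1 h2
    constructor
    · rw [div_le_iff₀ hT0, mul_comm]
      exact h2
    · have h3 : T₀ * T₀ * (a n (rep (blk i)) / T₀) = T₀ * a n (rep (blk i)) := by
        field_simp
      rw [h3]
      exact h1

end Pool.Agent.AL
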