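import Pool.Agent.Lib.MP_c95b3b_ag_AL.DefsM

/-! Project AL (MP_c95b3b_ag), module MD: the pairing. -/

namespace Pool.Agent.AL

open Pool.Agent.L3 Module MvPolynomial
open Pool.Agent.KP (supp vec cel key shift lvv Good pr1 pr0)

namespace MD

theorem term_le {h x B : ℝ} {D : ℕ} {τ : ℕ} (hh : 0 < h) (hD : h * D ≤ 1) (ht : τ ≤ 4 * D)
    (hx : |x| ≤ B) : |h * (((τ : ℝ) - D) * x)| ≤ 3 * B := by
  have hB : 0 ≤ B := (abs_nonneg x).trans hx
  have h1 : |(τ : ℝ) - D| ≤ 3 * D := by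
    have ht' : (τ : ℝ) ≤ 4 * D := by exact_mod_cast ht
    have h0 : (0 : ℝ) ≤ τ := Nat.cast_nonneg _
    have h0' : (0 : ℝ) ≤ D := Nat.cast_nonneg _
    rw [abs_le]
    constructor <;> linarith
  rw [abs_mul, abs_mul, abs_of_pos hh]
  calc h * (|(τ : ℝ) - D| * |x|) ≤ h * (3 * D * B) := by gcongr
    _ = 3 * B * (h * D) := by ring
    _ ≤ 3 * B * 1 := by gcongr
    _ = 3 * B := by ring

end MD

section
variable {ι : Type} [Fintype ι] (h : ι → ℝ) (t : ι → ℕ × ℕ)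

theorem pt_add (v v' : ι → ℝ × ℝ) : pt h t (v + v') = pt h t v + pt h t v' := by
  unfold pt
  rw [← Finset.sum_add_distrib]
  refine Finset.sum_congr rfl fun i _ => ?_
  simp only [Pi.add_apply, Prod.fst_add, Prod.snd_add]
  ring

theorem abs_pt_le (hh : ∀ i, 0 < h i) (ht : ∀ i, (t i).1 ≤ 4 * dg (h i) ∧ (t i).2 ≤ 4 * dg (h i))
    (v : ι → ℝ × ℝ) : |pt h t v| ≤ 6 * Fintype.card ι * ‖v‖ := by
  unfold pt
  refine (Finset.abs_sum_le_sum_abs _ _).trans ?_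
  have key : ∀ i ∈ (Finset.univ : Finset ι),
      |h i * ((((t i).1 : ℝ) - dg (h i)) * (v i).1 + (((t i).2 : ℝ) - dg (h i)) * (v i).2)| ≤
        6 * ‖v‖ := by
    intro i _
    have hD : h i * (dg (h i) : ℝ) ≤ 1 := by
      have h1 : ((dg (h i) : ℕ) : ℝ) ≤ (h i)⁻¹ := Nat.floor_le (inv_nonneg.2 (hh i).le)
      calc h i * (dg (h i) : ℝ) ≤ h i * (h i)⁻¹ := mul_le_mul_of_nonneg_left h1 (hh i).le
        _ = 1 := mul_inv_cancel₀ (hh i).ne'
    have hv : ‖v i‖ ≤ ‖v‖ := norm_le_pi_norm v i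
    have h1 : |(v i).1| ≤ ‖v‖ := (norm_fst_le (v i)).trans hv
    have h2 : |(v i).2| ≤ ‖v‖ := (norm_snd_le (v i)).trans hv
    have e1 := MD.term_le (hh i) hD (ht i).1 h1
    have e2 := MD.term_le (hh i) hD (ht i).2 h2
    rw [mul_add]
    refine (abs_add_le _ _).trans ?_
    linarith
  refine (Finset.sum_le_sum key).trans ?_
  rw [Finset.sum_const, Finset.card_univ, nsmul_eq_mul]
  exact le_of_eq (by ring)

theorem sum_lg_eq {K : Type} [Field K] {S : Subring K} (P : Places K S) (U : ι → K) (s : ι → ℝ)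
    (M : ℝ) (hM : 0 < M) (hs : ∀ i, 0 < s i) (w : P.Pl) :
    ∑ i, (((t i).1 : ℝ) * P.lg w (U i) + ((t i).2 : ℝ) * P.lg w (1 - U i)) =
      M * pt (fun i => s i / M) t (lvs P U s w) +
        ∑ i, (dg (s i / M) : ℝ) * (P.lg w (U i) + P.lg w (1 - U i)) := by
  unfold pt
  rw [Finset.mul_sum, ← Finset.sum_add_distrib]
  refine Finset.sum_congr rfl fun i _ => ?_
  have e1 : (lvs P U s w i).1 = (s i)⁻¹ * P.lg w (U i) := rfl
  have e2 : (lvs P U s w i).2 = (s i)⁻¹ * P.lg w (1 - U i) := rfl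
  rw [e1, e2]
  have := (hs i).ne'
  have := hM.ne'
  field_simp
  ring

theorem star_mono {K : Type} [Field K] {S : Subring K} (P : Places K S) (U : ι → K)
    (s : ι → ℝ) (s1 A A' ε ε' : ℝ) (h1 : 0 < s1) (hs : ∀ i, 0 < s i) (hA : A' ≤ A) (hε : ε ≤ ε')
    (H : Star P U s s1 A ε) : Star P U s s1 A' ε' := by
  intro M V b hV hM hMs hdeg hl1 hb
  have hM0 : 0 < M := lt_of_lt_of_le h1 hM
  have hle : ∀ y : ℝ, 0 < y → A' * M / y ≤ A * M / y := by
    intro y hy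
    exact div_le_div_of_nonneg_right (mul_le_mul_of_nonneg_right hA hM0.le) hy.le
  have hres := H M V b hV hM hMs (fun i => (hdeg i).trans (hle _ (hs i)))
    (hl1.trans (hle _ h1)) (fun w => by
      obtain ⟨T, q, e1, e2, e3, e4⟩ := hb w
      exact ⟨T, q, e1, fun τ hτ i => ⟨((e2 τ hτ i).1).trans (hle _ (hs i)),
        ((e2 τ hτ i).2).trans (hle _ (hs i))⟩, e3.trans (hle _ h1), e4⟩)
  have : ε * M ≤ ε' * M := mul_le_mul_of_nonneg_right hε hM0.le
  linarith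

end

end Pool.Agent.AL
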