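import Pool.Agent.Lib.MP_c95b3b_ag_AL.DefsM
import Pool.Agent.Lib.MP_c95b3b_ag_KP.Count

/-! Project AL (MP_c95b3b_ag), module MA: counting lattice points near subspaces. -/

namespace Pool.Agent.AL

open Pool.Agent.L3 Module MvPolynomial
open Pool.Agent.KP (supp vec cel key shift lvv Good pr1 pr0)

/-- Number of integers of an interval. -/
private lemma ma_card_near (n a : ℕ) (R : ℝ) (P : ℕ → Prop) [DecidablePred P]
    (hP : ∀ k, P k → |(k : ℝ) - (a : ℝ)| ≤ R) :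
    ((Finset.range n).filter P).card ≤ 2 * ⌊R⌋₊ + 1 := by
  have h : ((Finset.range n).filter P).card ≤ (Finset.Icc (a - ⌊R⌋₊) (a + ⌊R⌋₊)).card := by
    refine Finset.card_le_card ?_
    intro k hk
    have hk' := hP k (Finset.mem_filter.1 hk).2
    rw [Finset.mem_Icc]
    rw [abs_le] at hk'
    rcases le_total k a with hle | hle
    · have h1 : ((a - k : ℕ) : ℝ) ≤ R := by
        push_cast [Nat.cast_sub hle]
        linarith
      have h2 := Nat.le_floor h1
      constructor <;> omega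
    · have h1 : ((k - a : ℕ) : ℝ) ≤ R := by
        push_cast [Nat.cast_sub hle]
        linarith
      have h2 := Nat.le_floor h1
      constructor <;> omega
  refine h.trans ?_
  rw [Nat.card_Icc]
  omega

open Classical in
theorem count_ms {ι : Type} [Fintype ι] (W : Submodule ℝ (ι → ℝ)) (y : ℕ)
    (hy : y ≤ finrank ℝ W) : ∃ A : ℝ, 0 < A ∧ ∀ (h : ι → ℝ) (T : ℝ) (D : ι → ℕ) (sh : ι → ℝ),
      (∀ i, 0 < h i ∧ h i ≤ T) → (∀ i, ((D i : ℝ) + 1) * h i ≤ 5) →
      ((((Fintype.piFinset fun i => Finset.range (D i + 1)).filter fun α : ι → ℕ =>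
        ∀ w ∈ W, |∑ i, h i * ((α i : ℝ) - sh i) * w i| ≤ T * ‖w‖).card : ℕ) : ℝ) ≤
          A * T ^ y * ∏ i, (h i)⁻¹ := by
  obtain ⟨S, b, hS, hb⟩ := Pool.Agent.KP.Count.exists_dual W y hy
  obtain ⟨M, hM0, hM⟩ : ∃ M : ℝ, 0 ≤ M ∧ ∀ i ∈ S, ‖b i‖ ≤ M := by
    refine ⟨∑ i ∈ S, ‖b i‖, Finset.sum_nonneg fun _ _ => norm_nonneg _, fun i hi => ?_⟩
    exact Finset.single_le_sum (f := fun i => ‖b i‖) (fun _ _ => norm_nonneg _) hi
  refine ⟨(4 * M + 1) ^ y * 5 ^ Fintype.card ι, by positivity, fun h T D sh hh hD => ?_⟩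
  set A := (Fintype.piFinset fun i => Finset.range (D i + 1)).filter fun α : ι → ℕ =>
        ∀ w ∈ W, |∑ i, h i * ((α i : ℝ) - sh i) * w i| ≤ T * ‖w‖ with hA
  set R : ℝ := 2 * M * T with hR
  let φ : (ι → ℕ) → ({i : ι // i ∉ S} → ℕ) := fun α i => α i
  -- two elements with the same restriction are close
  have hclose : ∀ α ∈ A, ∀ α' ∈ A, φ α = φ α' → ∀ i ∈ S,
      |(α i : ℝ) - (α' i : ℝ)| ≤ R / h i := by
    intro α hα α' hα' heq i hi
    have h1 := (Finset.mem_filter.1 hα).2 (b i) (hb i hi).1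
    have h2 := (Finset.mem_filter.1 hα').2 (b i) (hb i hi).1
    have hhi := (hh i).1
    have h3 : h i * ((α i : ℝ) - (α' i : ℝ)) =
        (∑ j, h j * ((α j : ℝ) - sh j) * b i j) - ∑ j, h j * ((α' j : ℝ) - sh j) * b i j := by
      rw [← Finset.sum_sub_distrib, Finset.sum_eq_single i]
      · rw [(hb i hi).2 i hi, if_pos rfl]
        ring
      · intro j _ hji
        by_cases hj : j ∈ S
        · rw [(hb i hi).2 j hj, if_neg (Ne.symm hji)]
          ring
        · have : α j = α' j := congrFun heq ⟨j, hj⟩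
          rw [this]
          ring
      · intro h
        exact absurd (Finset.mem_univ i) h
    have h4 : T * ‖b i‖ ≤ T * M := mul_le_mul_of_nonneg_left (hM i hi) (by linarith [(hh i).2])
    have h5 := abs_sub (∑ j, h j * ((α j : ℝ) - sh j) * b i j)
      (∑ j, h j * ((α' j : ℝ) - sh j) * b i j)
    rw [le_div_iff₀ hhi]
    calc |(α i : ℝ) - (α' i : ℝ)| * h i = |h i * ((α i : ℝ) - (α' i : ℝ))| := by
          rw [abs_mul, abs_of_pos hhi, mul_comm]
      _ ≤ R := by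
          rw [h3, hR]
          linarith
  have hfib : ∀ c ∈ A.image φ, (A.filter fun α => φ α = c).card ≤
      ∏ i ∈ S, (2 * ⌊R / h i⌋₊ + 1) := by
    intro c hc
    obtain ⟨α₀, hα₀, rfl⟩ := Finset.mem_image.1 hc
    have hle : (A.filter fun α => φ α = φ α₀).card ≤
        (Fintype.piFinset fun i : S => (Finset.range (D i + 1)).filter
          fun k : ℕ => |(k : ℝ) - (α₀ i : ℝ)| ≤ R / h i).card := by
      refine Finset.card_le_card_of_injOn (fun (α : ι → ℕ) => (fun i : S => α i)) ?_ ?_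
      · intro α hα
        have hα' := Finset.mem_filter.1 hα
        rw [Finset.mem_coe, Fintype.mem_piFinset]
        intro i
        rw [Finset.mem_filter]
        exact ⟨Fintype.mem_piFinset.1 (Finset.mem_filter.1 hα'.1).1 i,
          hclose α hα'.1 α₀ hα₀ hα'.2 i i.2⟩
      · intro α hα β hβ hαβ
        have hα' := Finset.mem_filter.1 hα
        have hβ' := Finset.mem_filter.1 hβ
        funext i
        by_cases hi : i ∈ S
        · exact congrFun hαβ ⟨i, hi⟩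
        · exact congrFun (hα'.2.trans hβ'.2.symm) ⟨i, hi⟩
    refine hle.trans ?_
    rw [Fintype.card_piFinset]
    calc ∏ i : S, ((Finset.range (D i + 1)).filter fun k : ℕ =>
          |(k : ℝ) - (α₀ i : ℝ)| ≤ R / h i).card
        ≤ ∏ i : S, (2 * ⌊R / h i⌋₊ + 1) :=
          Finset.prod_le_prod' fun i _ => ma_card_near _ (α₀ i) _ _ fun k hk => hk
      _ = ∏ i ∈ S, (2 * ⌊R / h i⌋₊ + 1) :=
          Finset.prod_coe_sort S fun i => 2 * ⌊R / h i⌋₊ + 1
  have hmain := Finset.card_le_mul_card_image A (∏ i ∈ S, (2 * ⌊R / h i⌋₊ + 1)) hfib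
  have himg : (A.image φ).card ≤ ∏ i ∈ Sᶜ, (D i + 1) := by
    have h1 : A.image φ ⊆ Fintype.piFinset fun i : {i : ι // i ∉ S} => Finset.range (D i + 1) := by
      intro c hc
      obtain ⟨α, hα, rfl⟩ := Finset.mem_image.1 hc
      rw [Fintype.mem_piFinset]
      intro i
      exact Fintype.mem_piFinset.1 (Finset.mem_filter.1 hα).1 i
    refine (Finset.card_le_card h1).trans ?_
    rw [Fintype.card_piFinset]
    refine le_of_eq ?_
    calc ∏ i : {i : ι // i ∉ S}, (Finset.range (D i + 1)).card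
        = ∏ i : {i : ι // i ∉ S}, (D i + 1) :=
          Finset.prod_congr rfl fun i _ => Finset.card_range _
      _ = ∏ i ∈ Sᶜ, (D i + 1) := by
          symm
          exact Finset.prod_subtype Sᶜ (fun i => Finset.mem_compl) fun i => D i + 1
  have hfinal : (A.card : ℝ) ≤ (∏ i ∈ S, (2 * (⌊R / h i⌋₊ : ℝ) + 1)) *
      ∏ i ∈ Sᶜ, ((D i : ℝ) + 1) := by
    exact_mod_cast hmain.trans (Nat.mul_le_mul_left _ himg)
  have hp1 : ∏ i ∈ S, (2 * (⌊R / h i⌋₊ : ℝ) + 1) ≤ (4 * M + 1) ^ y * T ^ y *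
      ∏ i ∈ S, (h i)⁻¹ := by
    rw [← mul_pow, ← hS, ← Finset.prod_const, ← Finset.prod_mul_distrib]
    refine Finset.prod_le_prod (fun i _ => by positivity) fun i _ => ?_
    have hhi := (hh i).1
    have hT : 0 < T := hhi.trans_le (hh i).2
    have h1 : (⌊R / h i⌋₊ : ℝ) ≤ R / h i := Nat.floor_le (by rw [hR]; positivity)
    have h2 : 1 ≤ T / h i := by
      rw [le_div_iff₀ hhi, one_mul]
      exact (hh i).2
    have h3 : (4 * M + 1) * T * (h i)⁻¹ = 2 * (R / h i) + T / h i := by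
      rw [hR]
      ring
    rw [h3]
    linarith
  have hp2 : ∏ i ∈ Sᶜ, ((D i : ℝ) + 1) ≤ 5 ^ Fintype.card ι * ∏ i ∈ Sᶜ, (h i)⁻¹ := by
    calc ∏ i ∈ Sᶜ, ((D i : ℝ) + 1) ≤ ∏ i ∈ Sᶜ, (5 * (h i)⁻¹) := by
          refine Finset.prod_le_prod (fun i _ => by positivity) fun i _ => ?_
          rw [← div_eq_mul_inv, le_div_iff₀ (hh i).1]
          exact hD i
      _ = 5 ^ Sᶜ.card * ∏ i ∈ Sᶜ, (h i)⁻¹ := by
          rw [Finset.prod_mul_distrib, Finset.prod_const]
      _ ≤ _ := by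
          refine mul_le_mul_of_nonneg_right ?_
            (Finset.prod_nonneg fun i _ => (inv_pos.2 (hh i).1).le)
          exact pow_le_pow_right₀ (by norm_num) (Finset.card_le_univ _)
  have hq1 : 0 ≤ ∏ i ∈ Sᶜ, ((D i : ℝ) + 1) := Finset.prod_nonneg fun i _ => by positivity
  have hq2 : 0 ≤ (4 * M + 1) ^ y * T ^ y * ∏ i ∈ S, (h i)⁻¹ :=
    le_trans (Finset.prod_nonneg fun i _ => by positivity) hp1
  calc (A.card : ℝ) ≤ _ := hfinal
    _ ≤ ((4 * M + 1) ^ y * T ^ y * ∏ i ∈ S, (h i)⁻¹) *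
        (5 ^ Fintype.card ι * ∏ i ∈ Sᶜ, (h i)⁻¹) := mul_le_mul hp1 hp2 hq1 hq2
    _ = (4 * M + 1) ^ y * 5 ^ Fintype.card ι * T ^ y *
        ((∏ i ∈ S, (h i)⁻¹) * ∏ i ∈ Sᶜ, (h i)⁻¹) := by ring
    _ = _ := by rw [Finset.prod_mul_prod_compl]

end Pool.Agent.AL
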