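import Pool.Agent.Lib.MP_c95b3b_ag_AL.DefsM
import Pool.Agent.Lib.MP_c95b3b_ag_KP.Chars

/-! Project AL (MP_c95b3b_ag), module MB: many characters. -/

namespace Pool.Agent.AL

open Pool.Agent.L3 Module MvPolynomial
open Pool.Agent.KP (supp vec cel key shift lvv Good pr1 pr0)

namespace MB

open Pool.Agent.KP Pool.Agent.KP.Chars

variable {ι : Type} [Fintype ι]

/-- the weighted pairing -/
noncomputable def ps (h : ι → ℝ) (a : ι → ℤ × ℤ) (v : ι → ℝ × ℝ) : ℝ :=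
  ∑ i, h i * (((a i).1 : ℝ) * (v i).1 + ((a i).2 : ℝ) * (v i).2)

theorem ps_sub_left (h : ι → ℝ) (a b : ι → ℤ × ℤ) (v : ι → ℝ × ℝ) :
    ps h (a - b) v = ps h a v - ps h b v := by
  unfold ps
  rw [← Finset.sum_sub_distrib]
  refine Finset.sum_congr rfl fun i _ => ?_
  simp
  ring

theorem ps_ex (h : ι → ℝ) (ρ : ι → Fin 3) (β : ι → ℕ) (z : ι → ℤ) (v : ι → ℝ × ℝ) :
    ps h (ex ρ β z) v = ps h (fun i => sec (ρ i) (β i)) v + ∑ i, h i * ((z i : ℝ) * tm ρ v i) := by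
  unfold ps ex
  rw [← Finset.sum_add_distrib]
  refine Finset.sum_congr rfl fun i _ => ?_
  rw [tm_apply]
  simp
  ring

/-- the weighted pairing as a linear map -/
noncomputable def psL (h : ι → ℝ) (a : ι → ℤ × ℤ) : (ι → ℝ × ℝ) →ₗ[ℝ] ℝ where
  toFun := ps h a
  map_add' v w := by
    unfold ps
    rw [← Finset.sum_add_distrib]
    refine Finset.sum_congr rfl fun i _ => ?_
    simp
    ring
  map_smul' c v := by
    unfold ps
    rw [RingHom.id_apply, smul_eq_mul, Finset.mul_sum]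
    refine Finset.sum_congr rfl fun i _ => ?_
    simp
    ring

theorem psL_apply (h : ι → ℝ) (a : ι → ℤ × ℤ) (v : ι → ℝ × ℝ) : psL h a v = ps h a v := rfl

/-- the pairing with the vectors of the cell -/
theorem ps_vec (h : ι → ℝ) (ρ : ι → Fin 3) (a : ι → ℤ × ℤ) (l : ι → ℝ) :
    ps h a (vec ρ l) = - ∑ i, h i * ((key (ρ i) (a i) : ℝ) * l i) := by
  unfold ps
  rw [← Finset.sum_neg_distrib]
  refine Finset.sum_congr rfl fun i _ => ?_
  rw [vec_apply]
  generalize ρ i = j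
  fin_cases j
  · simp [ray, key]
  · simp [ray, key]
  · simp [ray, key]
    ring

theorem abs_ps_le (h : ι → ℝ) (hh : ∀ i, 0 < h i) (a : ι → ℤ × ℤ) (v : ι → ℝ × ℝ) (θ : ℝ)
    (ha : ∀ i, h i * |((a i).1 : ℝ)| ≤ θ ∧ h i * |((a i).2 : ℝ)| ≤ θ) :
    |ps h a v| ≤ 2 * Fintype.card ι * θ * ‖v‖ := by
  unfold ps
  refine (Finset.abs_sum_le_sum_abs _ _).trans ?_
  have h3 : ∀ i ∈ (Finset.univ : Finset ι),
      |h i * (((a i).1 : ℝ) * (v i).1 + ((a i).2 : ℝ) * (v i).2)| ≤ 2 * θ * ‖v‖ := by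
    intro i _
    have h4 : |(v i).1| ≤ ‖v‖ := (norm_fst_le (v i)).trans (norm_le_pi_norm v i)
    have h5 : |(v i).2| ≤ ‖v‖ := (norm_snd_le (v i)).trans (norm_le_pi_norm v i)
    have h0 := hh i
    have h6 := (ha i).1
    have h7 := (ha i).2
    have hθ : 0 ≤ θ := le_trans (by positivity) h6
    rw [abs_mul, abs_of_pos h0]
    have h8 : |((a i).1 : ℝ) * (v i).1 + ((a i).2 : ℝ) * (v i).2|
        ≤ |((a i).1 : ℝ)| * |(v i).1| + |((a i).2 : ℝ)| * |(v i).2| := by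
      rw [← abs_mul, ← abs_mul]
      exact abs_add_le _ _
    calc h i * |((a i).1 : ℝ) * (v i).1 + ((a i).2 : ℝ) * (v i).2|
        ≤ h i * (|((a i).1 : ℝ)| * |(v i).1| + |((a i).2 : ℝ)| * |(v i).2|) :=
          mul_le_mul_of_nonneg_left h8 h0.le
      _ = h i * |((a i).1 : ℝ)| * |(v i).1| + h i * |((a i).2 : ℝ)| * |(v i).2| := by ring
      _ ≤ θ * ‖v‖ + θ * ‖v‖ := by gcongr
      _ = 2 * θ * ‖v‖ := by ring
  refine (Finset.sum_le_sum h3).trans (le_of_eq ?_)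
  rw [Finset.sum_const, Finset.card_univ, nsmul_eq_mul]
  ring

theorem choose_z [DecidableEq ι] (ρ : ι → Fin 3) (G : Submodule ℝ (ι → ℝ × ℝ))
    (hG : ∀ g ∈ G, tm ρ g = 0 → g = 0) :
    ∃ C : ℝ, 0 ≤ C ∧ ∀ θ η : ℝ, ∀ h : ι → ℝ, (∀ i, 0 < h i ∧ h i ≤ η) →
      ∀ β : ι → ℕ, (∀ i, h i * β i ≤ θ) →
      ∃ z : ι → ℤ, (∀ i, h i * |(z i : ℝ)| ≤ C * θ + h i / 2) ∧
        ∀ g ∈ G, |ps h (ex ρ β z) g| ≤ Fintype.card ι * η * ‖g‖ := by
  have hker : LinearMap.ker (tm ρ ∘ₗ G.subtype) = ⊥ := by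
    rw [LinearMap.ker_eq_bot']
    intro g hg
    exact Subtype.ext (hG g g.2 hg)
  obtain ⟨L, hL⟩ := LinearMap.exists_leftInverse_of_injective _ hker
  set ℓ : ι → ι → ℝ × ℝ := fun i => ((L (Pi.single i 1) : G) : ι → ℝ × ℝ) with hℓ
  set B : ℝ := ∑ i, ‖ℓ i‖ with hB
  have hB0 : 0 ≤ B := Finset.sum_nonneg fun i _ => norm_nonneg _
  have hrep : ∀ g ∈ G, g = ∑ i, tm ρ g i • ℓ i := by
    intro g hg
    have h1 : L (tm ρ g) = ⟨g, hg⟩ := by
      have := LinearMap.congr_fun hL ⟨g, hg⟩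
      simpa using this
    have h2 : tm ρ g = ∑ i, tm ρ g i • (Pi.single i 1 : ι → ℝ) := by
      rw [← Finset.univ_sum_single (tm ρ g)]
      refine Finset.sum_congr rfl fun i _ => ?_
      funext j
      by_cases hij : j = i
      · subst hij
        simp
      · simp [hij]
    have h3 : L (tm ρ g) = ∑ i, tm ρ g i • L (Pi.single i 1) := by
      conv_lhs => rw [h2]
      rw [map_sum]
      refine Finset.sum_congr rfl fun i _ => ?_
      rw [map_smul]
    have h4 := congrArg (Subtype.val) (h1.symm.trans h3)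
    simpa using h4
  refine ⟨2 * Fintype.card ι * B, by positivity, ?_⟩
  intro θ η h hh β hβ
  set a0 : ι → ℤ × ℤ := fun i => sec (ρ i) (β i) with ha0
  have ha0' : ∀ i, h i * |((a0 i).1 : ℝ)| ≤ θ ∧ h i * |((a0 i).2 : ℝ)| ≤ θ := by
    intro i
    have h1 := abs_sec (ρ i) (β i)
    simp only [Nat.abs_cast] at h1
    have h2 : |((a0 i).1 : ℝ)| ≤ β i := by exact_mod_cast h1.1
    have h3 : |((a0 i).2 : ℝ)| ≤ β i := by exact_mod_cast h1.2
    exact ⟨(mul_le_mul_of_nonneg_left h2 (hh i).1.le).trans (hβ i),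
      (mul_le_mul_of_nonneg_left h3 (hh i).1.le).trans (hβ i)⟩
  set zr : ι → ℝ := fun i => - (ps h a0 (ℓ i) / h i) with hzr
  have hzr1 : ∀ i, h i * zr i = - ps h a0 (ℓ i) := by
    intro i
    have h1 := (hh i).1.ne'
    rw [hzr]
    field_simp
  have hzr' : ∀ i, h i * |zr i| ≤ 2 * Fintype.card ι * B * θ := by
    intro i
    have h0 := (hh i).1
    have h1 : h i * |zr i| = |ps h a0 (ℓ i)| := by
      calc h i * |zr i| = |h i| * |zr i| := by rw [abs_of_pos h0]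
        _ = |ps h a0 (ℓ i)| := by rw [← abs_mul, hzr1 i, abs_neg]
    rw [h1]
    refine (abs_ps_le h (fun j => (hh j).1) a0 (ℓ i) θ ha0').trans ?_
    have h2 : ‖ℓ i‖ ≤ B := Finset.single_le_sum (f := fun i => ‖ℓ i‖)
      (fun j _ => norm_nonneg _) (Finset.mem_univ i)
    have hθ : 0 ≤ θ := le_trans (by positivity) (ha0' i).1
    have h3 : (0 : ℝ) ≤ 2 * Fintype.card ι * θ := by positivity
    calc 2 * (Fintype.card ι : ℝ) * θ * ‖ℓ i‖ ≤ 2 * (Fintype.card ι : ℝ) * θ * B :=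
          mul_le_mul_of_nonneg_left h2 h3
      _ = 2 * Fintype.card ι * B * θ := by ring
  refine ⟨fun i => round (zr i), ?_, ?_⟩
  · intro i
    have h0 := (hh i).1
    have h1 : |(round (zr i) : ℝ)| ≤ |zr i| + 1 / 2 := by
      have h2 := abs_sub_round (zr i)
      have h3 : (round (zr i) : ℝ) = zr i - (zr i - round (zr i)) := by ring
      rw [h3]
      exact (abs_sub _ _).trans (by linarith)
    have h4 := mul_le_mul_of_nonneg_left h1 h0.le
    have h5 := hzr' i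
    change h i * |((round (zr i) : ℤ) : ℝ)| ≤ _
    linarith
  · intro g hg
    rw [ps_ex]
    have h1 : ps h a0 g = ∑ i, tm ρ g i * ps h a0 (ℓ i) := by
      rw [← psL_apply, hrep g hg, map_sum]
      refine Finset.sum_congr rfl fun i _ => ?_
      rw [map_smul, ← hrep g hg, smul_eq_mul, psL_apply]
    have h2 : ps h a0 g + ∑ i, h i * (((round (zr i) : ℤ) : ℝ) * tm ρ g i)
        = ∑ i, h i * (((round (zr i) : ℝ) - zr i) * tm ρ g i) := by
      rw [h1, ← Finset.sum_add_distrib]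
      refine Finset.sum_congr rfl fun i _ => ?_
      have h3 : ps h a0 (ℓ i) = - (h i * zr i) := by rw [hzr1 i, neg_neg]
      rw [h3]
      ring
    change |ps h a0 g + ∑ i, h i * (((round (zr i) : ℤ) : ℝ) * tm ρ g i)| ≤ _
    rw [h2]
    refine (Finset.abs_sum_le_sum_abs _ _).trans ?_
    have h3 : ∀ i ∈ (Finset.univ : Finset ι),
        |h i * (((round (zr i) : ℝ) - zr i) * tm ρ g i)| ≤ η * ‖g‖ := by
      intro i _
      have h0 := (hh i).1
      rw [abs_mul, abs_mul, abs_of_pos h0]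
      have h4 := abs_sub_round (zr i)
      rw [abs_sub_comm] at h4
      have h5 := abs_tm_le ρ g i
      have h6 := (hh i).2
      have h7 : (0 : ℝ) ≤ η := h0.le.trans h6
      calc h i * (|(round (zr i) : ℝ) - zr i| * |tm ρ g i|) ≤ η * ((1 / 2) * (2 * ‖g‖)) := by
            gcongr
        _ = η * ‖g‖ := by ring
    refine (Finset.sum_le_sum h3).trans (le_of_eq ?_)
    rw [Finset.sum_const, Finset.card_univ, nsmul_eq_mul]
    ring

/-- pigeonhole -/
theorem pigeon [DecidableEq ι] (W : Submodule ℝ (ι → ℝ)) (x : ℕ) (hW : finrank ℝ W ≤ x) :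
    ∃ c : ℝ, 0 < c ∧ ∀ κ : ℝ, 0 < κ → κ ≤ 1 → ∀ θ : ℝ, 0 < θ → θ ≤ 1 → ∀ h : ι → ℝ,
      (∀ i, 0 < h i) →
      ∃ B : Finset (ι → ℕ), (∀ β ∈ B, ∀ i, h i * β i ≤ θ) ∧
        (∀ β ∈ B, ∀ γ ∈ B, ∀ l ∈ W, |∑ i, h i * (((β i : ℝ) - γ i) * l i)| ≤ κ * ‖l‖) ∧
        c * κ ^ x * ∏ i, (θ * (h i)⁻¹) ≤ B.card := by
  set n := finrank ℝ W with hn
  let b : Basis (Fin n) ℝ W := finBasis ℝ W
  -- coordinates are bounded
  obtain ⟨C3, hC30, hC3⟩ : ∃ C : ℝ, 1 ≤ C ∧ ∀ l : W, ∀ j, |b.repr l j| ≤ C * ‖(l : ι → ℝ)‖ := by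
    let Φ : W →ₗ[ℝ] (Fin n → ℝ) := (b.equivFun : W →ₗ[ℝ] (Fin n → ℝ))
    let Ψ := LinearMap.toContinuousLinearMap Φ
    refine ⟨‖Ψ‖ + 1, by linarith [norm_nonneg Ψ], ?_⟩
    intro l j
    have h1 : ‖Ψ l‖ ≤ ‖Ψ‖ * ‖l‖ := Ψ.le_opNorm l
    have h2 : |b.repr l j| ≤ ‖Ψ l‖ := norm_le_pi_norm (Φ l) j
    have h3 : ‖l‖ = ‖(l : ι → ℝ)‖ := rfl
    rw [h3] at h1
    nlinarith [norm_nonneg (l : ι → ℝ)]
  set w : Fin n → ι → ℝ := fun j => ((b j : W) : ι → ℝ) with hw
  have hrep : ∀ l (hl : l ∈ W), ∀ i, l i = ∑ j, b.repr ⟨l, hl⟩ j * w j i := by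
    intro l hl i
    have h1 := b.sum_repr ⟨l, hl⟩
    have h2 := congrArg Subtype.val h1
    have h3 : ((∑ j, b.repr ⟨l, hl⟩ j • b j : W) : ι → ℝ) i = l i := congrFun h2 i
    rw [← h3, Submodule.coe_sum, Finset.sum_apply]
    refine Finset.sum_congr rfl fun j _ => ?_
    rw [Submodule.coe_smul, Pi.smul_apply, smul_eq_mul]
  -- bound of the sums
  set C2 : ℝ := ∑ j, ∑ i, |w j i| with hC2
  have hC20 : 0 ≤ C2 := Finset.sum_nonneg fun j _ => Finset.sum_nonneg fun i _ => abs_nonneg _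
  -- κ' = κ / K
  set K : ℝ := C3 * (n + 1) with hK
  have hn1 : (1 : ℝ) ≤ (n : ℝ) + 1 := by linarith [(Nat.cast_nonneg n : (0 : ℝ) ≤ n)]
  have hK1 : 1 ≤ K := by nlinarith
  have hK0 : 0 < K := by linarith
  set D : ℝ := K * (2 * C2 + 3) with hD
  have hD1 : 1 ≤ D := by nlinarith
  have hD0 : 0 < D := by linarith
  refine ⟨(1 / D) ^ x, by positivity, ?_⟩
  intro κ hκ0 hκ1 θ hθ0 hθ1 h hh
  set κ' : ℝ := κ / K with hκ'
  have hκ'0 : 0 < κ' := by positivity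
  have hκ'1 : κ' ≤ 1 := by
    rw [hκ', div_le_one hK0]
    linarith
  set M : ℤ := ⌈C2 / κ'⌉ with hM
  have hM0 : 0 ≤ M := Int.ceil_nonneg (by positivity)
  have hM1 : C2 / κ' ≤ M := Int.le_ceil _
  have hM2 : (M : ℝ) < C2 / κ' + 1 := Int.ceil_lt_add_one _
  let box : Finset (ι → ℕ) := Fintype.piFinset fun i => Finset.range (⌊θ * (h i)⁻¹⌋₊ + 1)
  let t : Finset (Fin n → ℤ) := Fintype.piFinset fun _ => Finset.Icc (-M) M
  let φ : (ι → ℕ) → Fin n → ℤ := fun β j => ⌊(∑ i, h i * ((β i : ℝ) * w j i)) / κ'⌋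
  have hbox : ∀ β ∈ box, ∀ i, h i * (β i : ℝ) ≤ θ := by
    intro β hβ i
    rw [Fintype.mem_piFinset] at hβ
    have h0 := hh i
    have h1 : β i ≤ ⌊θ * (h i)⁻¹⌋₊ := Nat.lt_succ_iff.1 (Finset.mem_range.1 (hβ i))
    have h2 : (β i : ℝ) ≤ θ * (h i)⁻¹ :=
      (Nat.le_floor_iff (by positivity)).1 h1
    calc h i * (β i : ℝ) ≤ h i * (θ * (h i)⁻¹) := mul_le_mul_of_nonneg_left h2 h0.le
      _ = θ := by field_simp
  have hmaps : ∀ β ∈ box, φ β ∈ t := by
    intro β hβ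
    have hβ' := hbox β hβ
    rw [Fintype.mem_piFinset] at hβ ⊢
    intro j
    have h1 : |∑ i, h i * ((β i : ℝ) * w j i)| ≤ C2 := by
      refine (Finset.abs_sum_le_sum_abs _ _).trans ?_
      have h2 : ∀ i ∈ (Finset.univ : Finset ι), |h i * ((β i : ℝ) * w j i)| ≤ |w j i| := by
        intro i _
        have h3 := hβ' i
        have h0 := hh i
        rw [abs_mul, abs_mul, Nat.abs_cast, abs_of_pos h0, ← mul_assoc]
        exact mul_le_of_le_one_left (abs_nonneg _) (h3.trans hθ1)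
      refine (Finset.sum_le_sum h2).trans ?_
      exact Finset.single_le_sum (f := fun j => ∑ i, |w j i|)
        (fun j _ => Finset.sum_nonneg fun i _ => abs_nonneg _) (Finset.mem_univ j)
    have h6 : |(∑ i, h i * ((β i : ℝ) * w j i)) / κ'| ≤ M := by
      rw [abs_div, abs_of_pos hκ'0]
      refine le_trans ?_ hM1
      gcongr
    rw [abs_le] at h6
    rw [Finset.mem_Icc]
    constructor
    · rw [Int.le_floor]
      push_cast
      exact h6.1
    · have h7 : (⌊(∑ i, h i * ((β i : ℝ) * w j i)) / κ'⌋ : ℝ) ≤ M := (Int.floor_le _).trans h6.2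
      exact_mod_cast h7
  have htne : t.Nonempty := ⟨fun _ => 0, by
    rw [Fintype.mem_piFinset]
    intro j
    rw [Finset.mem_Icc]
    exact ⟨by linarith, hM0⟩⟩
  have htc : (t.card : ℝ) = (2 * M + 1 : ℝ) ^ n := by
    rw [Fintype.card_piFinset]
    simp only [Int.card_Icc, Finset.prod_const, Finset.card_univ, Fintype.card_fin]
    push_cast
    congr 1
    have h1 : ((M + 1 - -M).toNat : ℤ) = 2 * M + 1 := by
      rw [Int.toNat_of_nonneg (by linarith)]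
      ring
    exact_mod_cast congrArg (Int.cast : ℤ → ℝ) h1
  have hboxc : ∏ i, (θ * (h i)⁻¹) ≤ (box.card : ℝ) := by
    rw [Fintype.card_piFinset]
    push_cast
    refine Finset.prod_le_prod (fun i _ => ?_) fun i _ => ?_
    · have h0 := hh i
      positivity
    · rw [Finset.card_range]
      push_cast
      exact (Nat.lt_floor_add_one _).le
  have htpos : (0 : ℝ) < t.card := by
    exact_mod_cast htne.card_pos
  obtain ⟨y, hy, hcard⟩ := Finset.exists_le_card_fiber_of_nsmul_le_card_of_maps_to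
    (s := box) (t := t) (f := φ) (b := (box.card : ℝ) / t.card) hmaps htne (by
      rw [nsmul_eq_mul, mul_div_cancel₀ _ htpos.ne'])
  refine ⟨box.filter fun β => φ β = y, ?_, ?_, ?_⟩
  · intro β hβ i
    rw [Finset.mem_filter] at hβ
    exact hbox β hβ.1 i
  · intro β hβ γ hγ l hl
    rw [Finset.mem_filter] at hβ hγ
    have h1 : ∀ j, |∑ i, h i * (((β i : ℝ) - γ i) * w j i)| ≤ κ' := by
      intro j
      have h2 : φ β j = φ γ j := by rw [hβ.2, hγ.2]
      have h3 := Int.abs_sub_lt_one_of_floor_eq_floor h2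
      have h4 : ∑ i, h i * (((β i : ℝ) - γ i) * w j i)
          = ((∑ i, h i * ((β i : ℝ) * w j i)) / κ' - (∑ i, h i * ((γ i : ℝ) * w j i)) / κ') * κ' := by
        rw [← sub_div, div_mul_cancel₀ _ hκ'0.ne', ← Finset.sum_sub_distrib]
        refine Finset.sum_congr rfl fun i _ => ?_
        ring
      rw [h4, abs_mul, abs_of_pos hκ'0]
      nlinarith
    have h5 : ∑ i, h i * (((β i : ℝ) - γ i) * l i)
        = ∑ j, b.repr ⟨l, hl⟩ j * ∑ i, h i * (((β i : ℝ) - γ i) * w j i) := by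
      have : ∀ i, h i * (((β i : ℝ) - γ i) * l i)
          = ∑ j, b.repr ⟨l, hl⟩ j * (h i * (((β i : ℝ) - γ i) * w j i)) := by
        intro i
        rw [hrep l hl i, Finset.mul_sum, Finset.mul_sum]
        refine Finset.sum_congr rfl fun j _ => ?_
        ring
      rw [Finset.sum_congr rfl fun i _ => this i, Finset.sum_comm]
      refine Finset.sum_congr rfl fun j _ => ?_
      rw [Finset.mul_sum]
    rw [h5]
    refine (Finset.abs_sum_le_sum_abs _ _).trans ?_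
    have h6 : ∀ j ∈ (Finset.univ : Finset (Fin n)),
        |b.repr ⟨l, hl⟩ j * ∑ i, h i * (((β i : ℝ) - γ i) * w j i)| ≤ C3 * ‖l‖ * κ' := by
      intro j _
      rw [abs_mul]
      exact mul_le_mul (hC3 ⟨l, hl⟩ j) (h1 j) (abs_nonneg _) (by positivity)
    refine (Finset.sum_le_sum h6).trans ?_
    rw [Finset.sum_const, Finset.card_univ, Fintype.card_fin, nsmul_eq_mul]
    have h7 : κ' * (C3 * (n + 1)) = κ := by
      rw [hκ', ← hK, div_mul_cancel₀ _ hK0.ne']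
    have h8 : (0 : ℝ) ≤ C3 * κ' * ‖l‖ := by positivity
    calc (n : ℝ) * (C3 * ‖l‖ * κ') ≤ ((n : ℝ) + 1) * (C3 * κ' * ‖l‖) := by nlinarith
      _ = κ' * (C3 * (n + 1)) * ‖l‖ := by ring
      _ = κ * ‖l‖ := by rw [h7]
  · refine le_trans ?_ hcard
    rw [htc]
    have h1 : (2 * M + 1 : ℝ) ≤ D / κ := by
      have h2 : (2 * M + 1 : ℝ) ≤ 2 * (C2 / κ') + 3 := by linarith
      refine h2.trans ?_
      have h3 : (1 : ℝ) ≤ 1 / κ' := by
        rw [le_div_iff₀ hκ'0]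
        linarith
      have h4 : 2 * (C2 / κ') + 3 ≤ (2 * C2 + 3) * (1 / κ') := by
        have : C2 / κ' = C2 * (1 / κ') := by ring
        rw [this]
        nlinarith
      refine h4.trans (le_of_eq ?_)
      rw [hκ', hD]
      field_simp
    have h5 : (2 * M + 1 : ℝ) ^ n ≤ (D / κ) ^ x := by
      have h6 : (1 : ℝ) ≤ D / κ := by
        rw [le_div_iff₀ hκ0]
        linarith
      have hMr : (0 : ℝ) ≤ M := by exact_mod_cast hM0
      calc (2 * M + 1 : ℝ) ^ n ≤ (D / κ) ^ n := by gcongr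
        _ ≤ (D / κ) ^ x := pow_le_pow_right₀ h6 hW
    have h7 : (1 / D) ^ x * κ ^ x * ∏ i, (θ * (h i)⁻¹)
        = (∏ i, (θ * (h i)⁻¹)) / (D / κ) ^ x := by
      rw [div_pow, div_pow, one_pow]
      field_simp
    rw [h7]
    have h8 : (0 : ℝ) < (2 * M + 1 : ℝ) ^ n := by
      have hMr : (0 : ℝ) ≤ M := by exact_mod_cast hM0
      positivity
    have h9 : (0 : ℝ) ≤ ∏ i, (θ * (h i)⁻¹) := by
      refine Finset.prod_nonneg fun i _ => ?_
      have h0 := hh i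
      positivity
    gcongr

end MB

open Pool.Agent.KP Pool.Agent.KP.Chars MB in
theorem chars_ms {ι : Type} [Fintype ι] [DecidableEq ι] (F : Submodule ℝ (ι → ℝ × ℝ)) (x : ℕ)
    (ρ : ι → Fin 3) (hF : finrank ℝ (F ⊓ cel Finset.univ ρ : Submodule ℝ _) ≤ x) :
    ∃ a : ℝ, 0 < a ∧ ∀ κ : ℝ, 0 < κ → κ ≤ 1 → ∃ η : ℝ, 0 < η ∧ ∀ h : ι → ℝ,
      (∀ i, 0 < h i ∧ h i ≤ η) →
      ∃ s : Finset (ι → ℤ × ℤ), (∀ a ∈ s, ∀ i, |(a i).1| ≤ dg (h i) ∧ |(a i).2| ≤ dg (h i)) ∧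
        (∀ a ∈ s, ∀ f ∈ F, |∑ i, h i * (((a i).1 : ℝ) * (f i).1 + ((a i).2 : ℝ) * (f i).2)| ≤
          κ * ‖f‖) ∧
        Set.InjOn (fun (a : ι → ℤ × ℤ) i => key (ρ i) (a i)) s ∧
        a * κ ^ x * ∏ i, (h i)⁻¹ ≤ s.card := by
  set E : Submodule ℝ (ι → ℝ × ℝ) := F ⊓ cel Finset.univ ρ with hE
  -- the projection to `E`
  obtain ⟨π0, hπ0⟩ := LinearMap.exists_leftInverse_of_injective E.subtype
    (by rw [LinearMap.ker_eq_bot]; exact Subtype.val_injective)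
  let π : (ι → ℝ × ℝ) →ₗ[ℝ] (ι → ℝ × ℝ) := E.subtype ∘ₗ π0
  have hπE : ∀ v, π v ∈ E := fun v => (π0 v).2
  have hπ1 : ∀ e ∈ E, π e = e := by
    intro e he
    have h1 := LinearMap.congr_fun hπ0 ⟨e, he⟩
    have h2 := congrArg Subtype.val h1
    simpa [π] using h2
  -- the complement
  set G : Submodule ℝ (ι → ℝ × ℝ) := F ⊓ LinearMap.ker π with hG
  have hGT : ∀ g ∈ G, tm ρ g = 0 → g = 0 := by
    intro g hg h1
    have h2 : g ∈ E := ⟨hg.1, mem_cel_of_tm h1⟩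
    rw [← hπ1 g h2]
    exact hg.2
  obtain ⟨Cz, hCz0, hCz⟩ := MB.choose_z ρ G hGT
  -- the lengths
  let vl : (ι → ℝ) →ₗ[ℝ] (ι → ℝ × ℝ) :=
    { toFun := vec ρ
      map_add' := fun l m => by
        funext i
        simp [vec, add_smul]
      map_smul' := fun c l => by
        funext i
        simp [vec, mul_smul] }
  have hvl : Function.Injective vl := by
    intro l m hlm
    have h1 : ‖l - m‖ = 0 := by
      rw [← norm_vec ρ, vec_sub]
      have h2 : vec ρ l = vec ρ m := hlm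
      rw [h2, sub_self, norm_zero]
    exact sub_eq_zero.1 (norm_eq_zero.1 h1)
  let W : Submodule ℝ (ι → ℝ) := E.comap vl
  have hWx : finrank ℝ W ≤ x := by
    refine le_trans ?_ hF
    have h1 : Function.Injective (vl.restrict (p := W) (q := E) fun l hl => hl) := by
      intro l m hlm
      apply Subtype.ext
      apply hvl
      exact congrArg Subtype.val hlm
    exact LinearMap.finrank_le_finrank_of_injective h1
  obtain ⟨c0, hc0, hpig⟩ := MB.pigeon W x hWx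
  -- norm of the projection
  obtain ⟨Cp, hCp0, hCp⟩ : ∃ C : ℝ, 1 ≤ C ∧ ∀ v, ‖π v‖ ≤ C * ‖v‖ := by
    let Ψ := LinearMap.toContinuousLinearMap π
    refine ⟨‖Ψ‖ + 1, by linarith [norm_nonneg Ψ], ?_⟩
    intro v
    have h1 : ‖Ψ v‖ ≤ ‖Ψ‖ * ‖v‖ := Ψ.le_opNorm v
    have h2 : ‖π v‖ ≤ ‖Ψ‖ * ‖v‖ := h1
    nlinarith [norm_nonneg v]
  set K1 : ℝ := 2 * Cp with hK1
  have hK11 : 1 ≤ K1 := by linarith
  set θ : ℝ := 1 / (4 * (1 + Cz)) with hθ
  have hθ0 : 0 < θ := by positivity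
  have hθ2 : 2 * θ * (1 + Cz) = 1 / 2 := by
    rw [hθ]
    field_simp
    norm_num
  have hθ1 : θ ≤ 1 := by nlinarith
  refine ⟨c0 * (1 / K1) ^ x * θ ^ Fintype.card ι, by positivity, ?_⟩
  intro κ hκ0 hκ1
  set m : ℝ := 4 * Fintype.card ι * (1 + Cp) with hm
  have hm0 : 0 ≤ m := by positivity
  refine ⟨min (1 / 2) (κ / (m + 1)), by positivity, ?_⟩
  intro h hh
  have hh0 : ∀ i, 0 < h i := fun i => (hh i).1
  have hh1 : ∀ i, 0 < h i ∧ h i ≤ κ / (m + 1) := fun i =>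
    ⟨(hh i).1, (hh i).2.trans (min_le_right _ _)⟩
  have hh2 : ∀ i, h i ≤ 1 / 2 := fun i => (hh i).2.trans (min_le_left _ _)
  obtain ⟨B, hB1, hB2, hB3⟩ := hpig (κ / K1) (by positivity)
    (by rw [div_le_one (by linarith)]; linarith) θ hθ0 hθ1 h hh0
  have hBne : B.Nonempty := by
    rw [← Finset.card_pos]
    have h0 : (0 : ℝ) < ∏ i, (θ * (h i)⁻¹) := by
      refine Finset.prod_pos fun i _ => ?_
      have := hh0 i
      positivity
    have h1 : (0 : ℝ) < B.card := lt_of_lt_of_le (by positivity) hB3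
    exact_mod_cast h1
  obtain ⟨β0, hβ0⟩ := hBne
  choose! z hz1 hz2 using fun (β : ι → ℕ) (hβ : ∀ i, h i * β i ≤ θ) =>
    hCz θ (κ / (m + 1)) h hh1 β hβ
  let F1 : (ι → ℕ) → ι → ℤ × ℤ := fun β => ex ρ β (z β) - ex ρ β0 (z β0)
  have hkey : ∀ β i, key (ρ i) (F1 β i) = (β i : ℤ) - β0 i := by
    intro β i
    change key (ρ i) (ex ρ β (z β) i - ex ρ β0 (z β0) i) = _
    rw [key_sub, key_ex, key_ex]
  have hinj : Function.Injective F1 := by
    intro β γ hβγ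
    funext i
    have h1 := hkey β i
    rw [hβγ, hkey γ i] at h1
    have h2 : (γ i : ℤ) = β i := by linarith
    exact_mod_cast h2.symm
  -- size of the exponents
  have hsize : ∀ β ∈ B, ∀ i, h i * |((ex ρ β (z β) i).1 : ℝ)| ≤ 1 / 2 ∧
      h i * |((ex ρ β (z β) i).2 : ℝ)| ≤ 1 / 2 := by
    intro β hβ i
    have h1 := abs_ex ρ β (z β) i
    have h3 := hz1 β (hB1 β hβ) i
    have h5 := hB1 β hβ i
    have h6 := hh2 i
    have h7 := hh0 i
    have h8 : |((ex ρ β (z β) i).1 : ℝ)| ≤ β i + |(z β i : ℝ)| := by exact_mod_cast h1.1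
    have h9 : |((ex ρ β (z β) i).2 : ℝ)| ≤ β i + |(z β i : ℝ)| := by exact_mod_cast h1.2
    have h10 := mul_le_mul_of_nonneg_left h8 h7.le
    have h11 := mul_le_mul_of_nonneg_left h9 h7.le
    constructor
    · nlinarith
    · nlinarith
  have hdg : ∀ (i : ι) (y : ℤ), h i * |(y : ℝ)| ≤ 1 → |y| ≤ dg (h i) := by
    intro i y hy
    have h7 := hh0 i
    have h1 : |(y : ℝ)| ≤ (h i)⁻¹ := by
      rw [← one_div, le_div_iff₀ h7]
      linarith
    have h2 : ((y.natAbs : ℕ) : ℝ) ≤ (h i)⁻¹ := by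
      rw [Nat.cast_natAbs]
      push_cast
      exact h1
    have h3 : y.natAbs ≤ dg (h i) := Nat.le_floor h2
    rw [Int.abs_eq_natAbs]
    exact_mod_cast h3
  refine ⟨B.image F1, ?_, ?_, ?_, ?_⟩
  · intro a ha i
    obtain ⟨β, hβ, rfl⟩ := Finset.mem_image.1 ha
    have h1 := hsize β hβ i
    have h2 := hsize β0 hβ0 i
    have h7 := hh0 i
    constructor
    · apply hdg
      change h i * |(((ex ρ β (z β) i).1 - (ex ρ β0 (z β0) i).1 : ℤ) : ℝ)| ≤ 1
      push_cast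
      have h9 := abs_sub ((ex ρ β (z β) i).1 : ℝ) ((ex ρ β0 (z β0) i).1 : ℝ)
      have h10 := mul_le_mul_of_nonneg_left h9 h7.le
      linarith [h1.1, h2.1]
    · apply hdg
      change h i * |(((ex ρ β (z β) i).2 - (ex ρ β0 (z β0) i).2 : ℤ) : ℝ)| ≤ 1
      push_cast
      have h9 := abs_sub ((ex ρ β (z β) i).2 : ℝ) ((ex ρ β0 (z β0) i).2 : ℝ)
      have h10 := mul_le_mul_of_nonneg_left h9 h7.le
      linarith [h1.2, h2.2]
  · intro a ha f hf
    obtain ⟨β, hβ, rfl⟩ := Finset.mem_image.1 ha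
    change |ps h (F1 β) f| ≤ _
    set e := π f with he
    set g := f - e with hg
    have hfe : f = g + e := by rw [hg, sub_add_cancel]
    have heE : e ∈ E := hπE f
    have hgG : g ∈ G := by
      refine ⟨F.sub_mem hf heE.1, ?_⟩
      change π g = 0
      rw [hg, map_sub, hπ1 e heE, sub_self]
    have hne : ‖e‖ ≤ Cp * ‖f‖ := hCp f
    have hng : ‖g‖ ≤ (1 + Cp) * ‖f‖ := by
      have := norm_sub_le f e
      linarith
    -- on `G`
    have h1 : |ps h (F1 β) g| ≤ 2 * (Fintype.card ι * (κ / (m + 1)) * ‖g‖) := by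
      change |ps h (ex ρ β (z β) - ex ρ β0 (z β0)) g| ≤ _
      rw [ps_sub_left]
      have h2 := hz2 β (hB1 β hβ) g hgG
      have h3 := hz2 β0 (hB1 β0 hβ0) g hgG
      have h4 := abs_sub (ps h (ex ρ β (z β)) g) (ps h (ex ρ β0 (z β0)) g)
      linarith
    -- on `E`
    obtain ⟨l, -, hl⟩ := mem_cel.1 heE.2
    have hlW : l ∈ W := by
      change vec ρ l ∈ E
      rw [← hl]
      exact heE
    have h5 : |ps h (F1 β) e| ≤ κ / K1 * ‖e‖ := by
      rw [hl, ps_vec, abs_neg, norm_vec]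
      have h6 := hB2 β hβ β0 hβ0 l hlW
      have h7 : ∑ i, h i * ((key (ρ i) (F1 β i) : ℝ) * l i)
          = ∑ i, h i * (((β i : ℝ) - β0 i) * l i) := by
        refine Finset.sum_congr rfl fun i _ => ?_
        rw [hkey]
        push_cast
        ring
      rw [h7]
      exact h6
    have h8 : ps h (F1 β) f = ps h (F1 β) g + ps h (F1 β) e := by
      conv_lhs => rw [hfe]
      rw [← psL_apply, map_add, psL_apply, psL_apply]
    rw [h8]
    refine (abs_add_le _ _).trans ?_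
    have h9 : κ / K1 * ‖e‖ ≤ κ / 2 * ‖f‖ := by
      have h10 : κ / K1 * ‖e‖ ≤ κ / K1 * (Cp * ‖f‖) := by
        gcongr
      refine h10.trans (le_of_eq ?_)
      rw [hK1]
      field_simp
    have h11 : 2 * (Fintype.card ι * (κ / (m + 1)) * ‖g‖) ≤ κ / 2 * ‖f‖ := by
      have h12 : 2 * (Fintype.card ι * (κ / (m + 1)) * ‖g‖)
          ≤ 2 * (Fintype.card ι * (κ / (m + 1)) * ((1 + Cp) * ‖f‖)) := by
        gcongr
      refine h12.trans ?_
      have h13 : 2 * (Fintype.card ι * (κ / (m + 1)) * ((1 + Cp) * ‖f‖))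
          = κ / 2 * ‖f‖ * (m / (m + 1)) := by
        rw [hm]
        field_simp
        ring
      rw [h13]
      have h14 : m / (m + 1) ≤ 1 := by
        rw [div_le_one (by linarith)]
        linarith
      have h15 : 0 ≤ κ / 2 * ‖f‖ := by positivity
      exact mul_le_of_le_one_right h15 h14
    have h15 : κ / 2 * ‖f‖ + κ / 2 * ‖f‖ = κ * ‖f‖ := by ring
    linarith
  · intro a ha b hb hab
    obtain ⟨β, hβ, rfl⟩ := Finset.mem_image.1 (Finset.mem_coe.1 ha)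
    obtain ⟨γ, hγ, rfl⟩ := Finset.mem_image.1 (Finset.mem_coe.1 hb)
    have h1 : β = γ := by
      funext i
      have h2 := congrFun hab i
      simp only [hkey] at h2
      have h3 : (β i : ℤ) = γ i := by linarith
      exact_mod_cast h3
    rw [h1]
  · rw [Finset.card_image_of_injective _ hinj]
    refine le_trans ?_ hB3
    have h1 : c0 * (1 / K1) ^ x * θ ^ Fintype.card ι * κ ^ x * ∏ i, (h i)⁻¹
        = c0 * (κ / K1) ^ x * ∏ i, (θ * (h i)⁻¹) := by
      rw [Finset.prod_mul_distrib, Finset.prod_const, Finset.card_univ, div_pow κ, div_pow, one_pow]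
      ring
    rw [h1]

end Pool.Agent.AL
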