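import Pool.Agent.Lib.MP_c95b3b_ag_AL.DefsM
import Pool.Agent.Lib.MP_c95b3b_ag_KP.Indep
import Pool.Agent.Lib.MP_c95b3b_ag_KP.Expand

/-! Project AL (MP_c95b3b_ag), module MC: expansions at the corners, independence, Siegel's lemma. -/

namespace Pool.Agent.AL

open Pool.Agent.L3 Module MvPolynomial
open Pool.Agent.KP (supp vec cel key shift lvv Good pr1 pr0)

namespace MC

open Pool.Agent.KP.KE (pol coeff_low coeff_high natDegree_pol)

theorem coeff_bd (p r α : ℕ) : |(pol p r).coeff α| ≤ 2 ^ r := by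
  induction r generalizing α with
  | zero =>
    unfold pol
    rw [pow_zero, pow_zero, mul_one, Polynomial.coeff_X_pow]
    split_ifs <;> simp
  | succ r ih =>
    have h : pol p (r + 1) = pol p r - pol p r * Polynomial.X := by
      unfold pol
      ring
    have h2 : |(pol p r * Polynomial.X).coeff α| ≤ 2 ^ r := by
      cases α with
      | zero =>
        rw [Polynomial.mul_coeff_zero, Polynomial.coeff_X_zero, mul_zero, abs_zero]
        positivity
      | succ n =>
        rw [Polynomial.coeff_mul_X]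
        exact ih n
    rw [h, Polynomial.coeff_sub]
    have h3 := ih α
    rw [pow_succ]
    generalize (pol p r * Polynomial.X).coeff α = z at h2 ⊢
    generalize (pol p r).coeff α = y at h3 ⊢
    generalize (2 : ℤ) ^ r = w at h2 h3 ⊢
    rw [abs_le] at h2 h3 ⊢
    constructor <;> linarith [h2.1, h2.2, h3.1, h3.2]

theorem coeff_bd' (p r α n : ℕ) (h : r ≤ n) : |(pol p r).coeff α| ≤ 2 ^ n :=
  (coeff_bd p r α).trans (pow_le_pow_right₀ (by norm_num) h)

theorem eval_pol (p r n : ℕ) (h : p + r ≤ n) (R : Type) [CommRing R] (x : R) :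
    x ^ p * (1 - x) ^ r = ∑ α ∈ Finset.range (n + 1), ((pol p r).coeff α : R) * x ^ α := by
  have h1 : Polynomial.aeval x (pol p r) = x ^ p * (1 - x) ^ r := by
    simp [pol]
  rw [← h1, Polynomial.aeval_eq_sum_range' (lt_of_le_of_lt (natDegree_pol p r)
    (Nat.lt_succ_of_le h))]
  refine Finset.sum_congr rfl fun α _ => ?_
  rw [zsmul_eq_mul]

/-- the coefficients of the expansion at the corner `j` -/
noncomputable def ee (j : Fin 3) (N : ℕ) (a : ℤ × ℤ) (α : ℕ) : ℤ :=
  if |a.1| ≤ N ∧ |a.2| ≤ N then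
    ![(pol (a.1 + N).toNat (a.2 + N).toNat).coeff α,
      (pol (a.2 + N).toNat (a.1 + N).toNat).coeff α,
      (pol (a.1 + N).toNat (a.2 + N).toNat).coeff (4 * N - α)] j
  else 0

end MC

open MC Pool.Agent.KP.KE in
theorem expand_ms (j : Fin 3) (N : ℕ) : ∃ e : ℤ × ℤ → ℕ → ℤ,
    (∀ (a : ℤ × ℤ) (α : ℕ), (α : ℤ) - shift j N < key j a → e a α = 0) ∧
    (∀ a α, |e a α| ≤ 2 ^ (4 * N)) ∧
    ∀ a : ℤ × ℤ, |a.1| ≤ N → |a.2| ≤ N → ∀ (R : Type) [CommRing R] (x : R),
      x ^ (a.1 + N).toNat * (1 - x) ^ (a.2 + N).toNat =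
        ∑ α ∈ Finset.range (4 * N + 1),
          (e a α : R) * (x ^ (lt j (4 * N) α).1 * (1 - x) ^ (lt j (4 * N) α).2) := by
  refine ⟨ee j N, ?_, ?_, ?_⟩
  · intro a α h
    unfold ee
    by_cases hb : |a.1| ≤ (N : ℤ) ∧ |a.2| ≤ (N : ℤ)
    · rw [if_pos hb]
      obtain ⟨hb1, hb2⟩ := hb
      rw [abs_le] at hb1 hb2
      fin_cases j
      · have h0 : (α : ℤ) - N < a.1 := h
        show (pol (a.1 + N).toNat (a.2 + N).toNat).coeff α = 0
        apply coeff_low
        omega
      · have h0 : (α : ℤ) - N < a.2 := h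
        show (pol (a.2 + N).toNat (a.1 + N).toNat).coeff α = 0
        apply coeff_low
        omega
      · have h0 : (α : ℤ) - (2 * N : ℕ) < -(a.1 + a.2) := h
        show (pol (a.1 + N).toNat (a.2 + N).toNat).coeff (4 * N - α) = 0
        apply coeff_high
        push_cast at h0
        omega
    · rw [if_neg hb]
  · intro a α
    unfold ee
    by_cases hb : |a.1| ≤ (N : ℤ) ∧ |a.2| ≤ (N : ℤ)
    · rw [if_pos hb]
      obtain ⟨hb1, hb2⟩ := hb
      rw [abs_le] at hb1 hb2
      fin_cases j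
      · exact coeff_bd' _ _ _ _ (by omega)
      · exact coeff_bd' _ _ _ _ (by omega)
      · exact coeff_bd' _ _ _ _ (by omega)
    · rw [if_neg hb, abs_zero]
      positivity
  · intro a h1 h2 R _ x
    have hb : |a.1| ≤ (N : ℤ) ∧ |a.2| ≤ (N : ℤ) := ⟨h1, h2⟩
    rw [abs_le] at h1 h2
    fin_cases j
    · rw [MC.eval_pol _ _ (4 * N) (by omega) R x]
      refine Finset.sum_congr rfl fun α _ => ?_
      unfold ee
      rw [if_pos hb]
      show _ = _ * (x ^ α * (1 - x) ^ 0)
      rw [pow_zero, mul_one]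
      rfl
    · have h3 := MC.eval_pol (a.2 + N).toNat (a.1 + N).toNat (4 * N) (by omega) R (1 - x)
      rw [sub_sub_cancel, mul_comm] at h3
      rw [h3]
      refine Finset.sum_congr rfl fun α _ => ?_
      unfold ee
      rw [if_pos hb]
      show _ = _ * (x ^ 0 * (1 - x) ^ α)
      rw [pow_zero, one_mul]
      rfl
    · rw [MC.eval_pol _ _ (4 * N) (by omega) R x, ← Finset.sum_range_reflect]
      refine Finset.sum_congr rfl fun α hα => ?_
      have hα' := Finset.mem_range.1 hα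
      have e1 : 4 * N + 1 - 1 - α = 4 * N - α := by omega
      rw [e1]
      unfold ee
      rw [if_pos hb]
      show _ = _ * (x ^ (4 * N - α) * (1 - x) ^ 0)
      rw [pow_zero, mul_one]
      rfl

theorem indep_ms {ι : Type} [Fintype ι] (ρ : ι → Fin 3) (D : ι → ℕ) (s : Finset (ι → ℤ × ℤ))
    (hs : ∀ a ∈ s, ∀ i, |(a i).1| ≤ D i ∧ |(a i).2| ≤ D i)
    (hk : Set.InjOn (fun (a : ι → ℤ × ℤ) i => key (ρ i) (a i)) s)
    (q : (ι → ℤ × ℤ) → ℤ) (a₀ : ι → ℤ × ℤ) (h0 : a₀ ∈ s) (hq : q a₀ ≠ 0) :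
    ∑ a ∈ s, C (q a) * ∏ i, ((X i : MvPolynomial ι ℤ) ^ ((a i).1 + D i).toNat *
      (1 - X i) ^ ((a i).2 + D i).toNat) ≠ 0 := by
  intro hz
  have hDN : ∀ i, D i ≤ Finset.univ.sup D := fun i => Finset.le_sup (Finset.mem_univ i)
  generalize Finset.univ.sup D = N at hDN
  have hDN' : ∀ i, (D i : ℤ) ≤ N := fun i => by exact_mod_cast hDN i
  refine Pool.Agent.KP.indep ρ N s (fun a ha i => ⟨(hs a ha i).1.trans (hDN' i),
    (hs a ha i).2.trans (hDN' i)⟩) hk q a₀ h0 hq ?_
  have h1 : ∀ a ∈ s, C (q a) * ∏ i, ((X i : MvPolynomial ι ℤ) ^ ((a i).1 + N).toNat *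
      (1 - X i) ^ ((a i).2 + N).toNat) =
      (C (q a) * ∏ i, ((X i : MvPolynomial ι ℤ) ^ ((a i).1 + D i).toNat *
        (1 - X i) ^ ((a i).2 + D i).toNat)) *
        ∏ i, ((X i : MvPolynomial ι ℤ) ^ (N - D i) * (1 - X i) ^ (N - D i)) := by
    intro a ha
    rw [mul_assoc, ← Finset.prod_mul_distrib]
    refine congrArg (fun z => C (q a) * z) (Finset.prod_congr rfl fun i _ => ?_)
    have h2 := abs_le.1 (hs a ha i).1
    have h3 := abs_le.1 (hs a ha i).2
    have h4 := hDN i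
    have e1 : ((a i).1 + N).toNat = ((a i).1 + D i).toNat + (N - D i) := by omega
    have e2 : ((a i).2 + N).toNat = ((a i).2 + D i).toNat + (N - D i) := by omega
    rw [e1, e2, pow_add, pow_add]
    ring
  rw [Finset.sum_congr rfl h1, ← Finset.sum_mul, hz, zero_mul]

attribute [local instance] Matrix.seminormedAddCommGroup in
theorem siegel_ms {A B : Type} [Fintype A] [Fintype B] (m : A → B → ℤ) (Y : ℕ) (hY : 1 ≤ Y)
    (hm : ∀ a b, |m a b| ≤ Y) (hc : 2 * Fintype.card A ≤ Fintype.card B)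
    (hB : 0 < Fintype.card B) :
    ∃ t : B → ℤ, t ≠ 0 ∧ (∀ a, ∑ b, t b * m a b = 0) ∧ ∀ b, |t b| ≤ Fintype.card B * Y := by
  have hY' : (1 : ℝ) ≤ Y := by exact_mod_cast hY
  have hB' : (1 : ℝ) ≤ Fintype.card B := by exact_mod_cast hB
  rcases Nat.eq_zero_or_pos (Fintype.card A) with h0 | h0
  · obtain ⟨b⟩ := Fintype.card_pos_iff.mp hB
    refine ⟨fun _ => 1, fun h1 => ?_, fun a => ?_, fun _ => ?_⟩
    · have := congrFun h1 b
      simp at this
    · exact absurd (Fintype.card_pos_iff.mpr ⟨a⟩) (by omega)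
    · have h3 : 1 ≤ Fintype.card B * Y := Nat.mul_pos hB hY
      have h4 : (1 : ℤ) ≤ Fintype.card B * Y := by exact_mod_cast h3
      simpa using h4
  · obtain ⟨t, h1, h2, h3⟩ := Int.Matrix.exists_ne_zero_int_vec_norm_le (Matrix.of m)
      (by omega) h0
    have hN : ‖Matrix.of m‖ ≤ (Y : ℝ) := by
      rw [Matrix.norm_le_iff (by positivity)]
      intro a b
      rw [Matrix.of_apply, Int.norm_eq_abs, ← Int.cast_abs]
      exact_mod_cast hm a b
    generalize ‖Matrix.of m‖ = ν at h3 hN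
    have hbase : (1 : ℝ) ≤ Fintype.card B * max 1 ν :=
      one_le_mul_of_one_le_of_one_le hB' (le_max_left _ _)
    have hcR : (2 : ℝ) * Fintype.card A ≤ Fintype.card B := by exact_mod_cast hc
    have hA' : (1 : ℝ) ≤ Fintype.card A := by exact_mod_cast h0
    have hexp : ((Fintype.card A : ℝ) / (Fintype.card B - Fintype.card A)) ≤ 1 := by
      rw [div_le_one (by linarith)]
      linarith
    have hx1 := Real.rpow_le_rpow_of_exponent_le hbase hexp
    have hx2 : (Fintype.card B : ℝ) * max 1 ν ≤ Fintype.card B * Y :=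
      mul_le_mul_of_nonneg_left (max_le hY' hN) (by linarith)
    rw [Real.rpow_one] at hx1
    have hn : ‖t‖ ≤ Fintype.card B * Y := h3.trans (hx1.trans hx2)
    refine ⟨t, h1, fun a => ?_, fun b => ?_⟩
    · have h4 := congrFun h2 a
      simp only [Matrix.mulVec, dotProduct, Matrix.of_apply, Pi.zero_apply] at h4
      rw [← h4]
      exact Finset.sum_congr rfl fun b _ => mul_comm _ _
    · have h5 := (norm_le_pi_norm t b).trans hn
      rw [Int.norm_eq_abs, ← Int.cast_abs] at h5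
      exact_mod_cast h5

end Pool.Agent.AL
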