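import Pool.Agent.Lib.MP_c95b3b_ag_AL.DefsM
import Pool.Agent.Lib.MP_c95b3b_ag_AL.MA
import Pool.Agent.Lib.MP_c95b3b_ag_AL.MB
import Pool.Agent.Lib.MP_c95b3b_ag_AL.MC
import Pool.Agent.Lib.MP_c95b3b_ag_AL.MD
import Pool.Agent.Lib.MP_c95b3b_ag_AL.ZA
import Pool.Agent.Lib.MP_c95b3b_ag_KP.ExistsQ

/-! Project AL (MP_c95b3b_ag), module ME: the auxiliary polynomial. -/

namespace Pool.Agent.AL

open Pool.Agent.L3 Module MvPolynomial
open Pool.Agent.KP (supp vec cel key shift lvv Good pr1 pr0)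

namespace ME

/-! ## The pairing -/

section pairing
variable {ι : Type} [Fintype ι]

theorem dg_le {h : ℝ} (hh : 0 < h) : (dg h : ℝ) ≤ h⁻¹ := Nat.floor_le (inv_nonneg.mpr hh.le)

theorem mul_dg_le {h : ℝ} (hh : 0 < h) : h * (dg h : ℝ) ≤ 1 := by
  calc h * (dg h : ℝ) ≤ h * h⁻¹ := mul_le_mul_of_nonneg_left (dg_le hh) hh.le
    _ = 1 := mul_inv_cancel₀ hh.ne'

/-- pairing of exponents with vectors, scaled -/
noncomputable def pr (h : ι → ℝ) (a : ι → ℤ × ℤ) (v : ι → ℝ × ℝ) : ℝ :=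
  ∑ i, h i * (((a i).1 : ℝ) * (v i).1 + ((a i).2 : ℝ) * (v i).2)

theorem pr_sub (h : ι → ℝ) (a : ι → ℤ × ℤ) (v w : ι → ℝ × ℝ) :
    pr h a (v - w) = pr h a v - pr h a w := by
  unfold pr
  rw [← Finset.sum_sub_distrib]
  refine Finset.sum_congr rfl fun i _ => ?_
  simp
  ring

theorem pr_vec (h : ι → ℝ) (a : ι → ℤ × ℤ) (ρ : ι → Fin 3) (l : ι → ℝ) :
    pr h a (vec ρ l) = - ∑ i, h i * (key (ρ i) (a i) : ℝ) * l i := by
  unfold pr
  rw [← Finset.sum_neg_distrib]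
  refine Finset.sum_congr rfl fun i _ => ?_
  rw [KP.vec_apply]
  generalize ρ i = j
  fin_cases j
  · simp [ray, key]
    ring
  · simp [ray, key]
    ring
  · simp [ray, key]
    ring

theorem abs_pr_le (h : ι → ℝ) (hh : ∀ i, 0 < h i) (a : ι → ℤ × ℤ) (v : ι → ℝ × ℝ)
    (ha : ∀ i, |(a i).1| ≤ dg (h i) ∧ |(a i).2| ≤ dg (h i)) :
    |pr h a v| ≤ 2 * Fintype.card ι * ‖v‖ := by
  unfold pr
  refine (Finset.abs_sum_le_sum_abs _ _).trans ?_
  have hb : ∀ i ∈ (Finset.univ : Finset ι),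
      |h i * (((a i).1 : ℝ) * (v i).1 + ((a i).2 : ℝ) * (v i).2)| ≤ 2 * ‖v‖ := by
    intro i _
    have h1 : |((a i).1 : ℝ)| ≤ dg (h i) := by exact_mod_cast (ha i).1
    have h2 : |((a i).2 : ℝ)| ≤ dg (h i) := by exact_mod_cast (ha i).2
    have h3 : |(v i).1| ≤ ‖v‖ := (norm_fst_le (v i)).trans (norm_le_pi_norm v i)
    have h4 : |(v i).2| ≤ ‖v‖ := (norm_snd_le (v i)).trans (norm_le_pi_norm v i)
    rw [abs_mul, abs_of_pos (hh i)]
    calc h i * |((a i).1 : ℝ) * (v i).1 + ((a i).2 : ℝ) * (v i).2|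
        ≤ h i * (|((a i).1 : ℝ)| * |(v i).1| + |((a i).2 : ℝ)| * |(v i).2|) := by
          refine mul_le_mul_of_nonneg_left ?_ (hh i).le
          rw [← abs_mul, ← abs_mul]
          exact abs_add_le _ _
      _ ≤ h i * ((dg (h i) : ℝ) * ‖v‖ + (dg (h i) : ℝ) * ‖v‖) := by
          refine mul_le_mul_of_nonneg_left ?_ (hh i).le
          gcongr
      _ = (h i * dg (h i)) * (2 * ‖v‖) := by ring
      _ ≤ 1 * (2 * ‖v‖) :=
          mul_le_mul_of_nonneg_right (mul_dg_le (hh i)) (by positivity)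
      _ = 2 * ‖v‖ := one_mul _
  refine (Finset.sum_le_sum hb).trans ?_
  rw [Finset.sum_const, Finset.card_univ, nsmul_eq_mul]
  exact le_of_eq (by ring)

theorem pt_lt (h : ι → ℝ) (ρ : ι → Fin 3) (α : ι → ℕ) (hα : ∀ i, α i ≤ 4 * dg (h i))
    (l : ι → ℝ) :
    pt h (fun i => lt (ρ i) (4 * dg (h i)) (α i)) (vec ρ l) =
      - ∑ i, h i * ((α i : ℝ) - shift (ρ i) (dg (h i))) * l i := by
  unfold pt
  rw [← Finset.sum_neg_distrib]
  refine Finset.sum_congr rfl fun i _ => ?_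
  rw [KP.vec_apply]
  have h1 := hα i
  beta_reduce
  generalize dg (h i) = N at h1 ⊢
  generalize α i = b at h1 ⊢
  generalize ρ i = j
  fin_cases j
  · simp [ray, lt, shift]
    ring
  · simp [ray, lt, shift]
    ring
  · simp [ray, lt, shift]
    rw [Nat.cast_sub h1]
    push_cast
    ring

end pairing

/-! ## Representations -/

section reps

theorem rep_image {ι κ : Type} [Fintype ι] [DecidableEq (ι → ℕ × ℕ)] (s : Finset κ)
    (τ : κ → ι → ℕ × ℕ) (σ : (ι → ℕ × ℕ) → κ) (hσ : ∀ a ∈ s, σ (τ a) = a) (q : κ → ℤ) :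
    rep (s.image τ) (fun t => q (σ t)) =
      ∑ a ∈ s, C (q a) * ∏ i, ((X i : MvPolynomial ι ℤ) ^ (τ a i).1 * (1 - X i) ^ (τ a i).2) := by
  unfold rep
  rw [Finset.sum_image]
  · refine Finset.sum_congr rfl fun a ha => ?_
    beta_reduce
    rw [hσ a ha]
  · intro a ha b hb hab
    rw [← hσ a ha, ← hσ b hb, hab]

theorem sum_image_abs {ι κ : Type} [DecidableEq (ι → ℕ × ℕ)] (s : Finset κ)
    (τ : κ → ι → ℕ × ℕ) (σ : (ι → ℕ × ℕ) → κ) (hσ : ∀ a ∈ s, σ (τ a) = a) (q : κ → ℤ) :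
    ∑ t ∈ s.image τ, |((q (σ t) : ℤ) : ℝ)| = ∑ a ∈ s, |(q a : ℝ)| := by
  rw [Finset.sum_image]
  · refine Finset.sum_congr rfl fun a ha => ?_
    rw [hσ a ha]
  · intro a ha b hb hab
    rw [← hσ a ha, ← hσ b hb, hab]

/-- exponents of a character -/
def tau {ι : Type} (D : ι → ℕ) (a : ι → ℤ × ℤ) : ι → ℕ × ℕ :=
  fun i => (((a i).1 + D i).toNat, ((a i).2 + D i).toNat)

/-- the inverse of `tau` -/
def sig {ι : Type} (D : ι → ℕ) (t : ι → ℕ × ℕ) : ι → ℤ × ℤ :=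
  fun i => (((t i).1 : ℤ) - D i, ((t i).2 : ℤ) - D i)

theorem sig_tau {ι : Type} (D : ι → ℕ) (a : ι → ℤ × ℤ)
    (ha : ∀ i, |(a i).1| ≤ D i ∧ |(a i).2| ≤ D i) : sig D (tau D a) = a := by
  funext i
  have h1 := abs_le.mp (ha i).1
  have h2 := abs_le.mp (ha i).2
  refine Prod.ext ?_ ?_
  · simp only [sig, tau]
    rw [Int.toNat_of_nonneg (by omega)]
    ring
  · simp only [sig, tau]
    rw [Int.toNat_of_nonneg (by omega)]
    ring

theorem tau_le {ι : Type} (D : ι → ℕ) (a : ι → ℤ × ℤ)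
    (ha : ∀ i, |(a i).1| ≤ D i ∧ |(a i).2| ≤ D i) (i : ι) :
    (tau D a i).1 ≤ 2 * D i ∧ (tau D a i).2 ≤ 2 * D i := by
  have h1 := abs_le.mp (ha i).1
  have h2 := abs_le.mp (ha i).2
  simp only [tau]
  constructor
  · omega
  · omega

/-- exponents of a monomial at the corners -/
def lam {ι : Type} (ρ : ι → Fin 3) (D : ι → ℕ) (α : ι → ℕ) : ι → ℕ × ℕ :=
  fun i => lt (ρ i) (4 * D i) (α i)

/-- the inverse of `lam` -/
def lamInv {ι : Type} (ρ : ι → Fin 3) (D : ι → ℕ) (t : ι → ℕ × ℕ) : ι → ℕ :=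
  fun i => (![(t i).1, (t i).2, 4 * D i - (t i).1] : Fin 3 → ℕ) (ρ i)

theorem lamInv_lam {ι : Type} (ρ : ι → Fin 3) (D : ι → ℕ) (α : ι → ℕ) (hα : ∀ i, α i ≤ 4 * D i) :
    lamInv ρ D (lam ρ D α) = α := by
  funext i
  have h1 := hα i
  simp only [lamInv, lam]
  generalize ρ i = j
  fin_cases j
  · simp [lt]
  · simp [lt]
  · simp [lt]
    omega

theorem lam_le {ι : Type} (ρ : ι → Fin 3) (D : ι → ℕ) (α : ι → ℕ) (hα : ∀ i, α i ≤ 4 * D i)
    (i : ι) : (lam ρ D α i).1 ≤ 4 * D i ∧ (lam ρ D α i).2 ≤ 4 * D i := by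
  have h1 := hα i
  simp only [lam]
  generalize ρ i = j
  fin_cases j
  · simp [lt]
    omega
  · simp [lt]
    omega
  · simp [lt]

end reps

/-! ## Sizes -/

section sizes

theorem l1_factor {ι : Type} (i : ι) (p r m : ℕ) (hr : r ≤ m) :
    l1 ((X i : MvPolynomial ι ℤ) ^ p * (1 - X i) ^ r) ≤ 2 ^ m := by
  have h1 : l1 (1 - X i : MvPolynomial ι ℤ) ≤ 2 := by
    have h2 : l1 (1 : MvPolynomial ι ℤ) = 1 := by
      have := l1_C (ι := ι) 1
      rw [C_1] at this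
      rw [this]
      simp
    rw [sub_eq_add_neg]
    refine (l1_add _ _).trans ?_
    rw [l1_neg, l1_X, h2]
    norm_num
  calc l1 ((X i : MvPolynomial ι ℤ) ^ p * (1 - X i) ^ r)
      ≤ l1 ((X i : MvPolynomial ι ℤ) ^ p) * l1 ((1 - X i : MvPolynomial ι ℤ) ^ r) := l1_mul _ _
    _ ≤ 1 * 2 ^ r := by
        refine mul_le_mul ?_ ?_ (l1_nonneg _) zero_le_one
        · refine (l1_pow _ _).trans ?_
          rw [l1_X, one_pow]
        · exact (l1_pow _ _).trans (pow_le_pow_left₀ (l1_nonneg _) h1 _)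
    _ ≤ 2 ^ m := by
        rw [one_mul]
        exact pow_le_pow_right₀ (by norm_num) hr

theorem l1_sum_le {ι κ : Type} [Fintype ι] (s : Finset κ) (q : κ → ℤ) (τ : κ → ι → ℕ × ℕ)
    (m : ι → ℕ) (hτ : ∀ a ∈ s, ∀ i, (τ a i).2 ≤ m i) :
    l1 (∑ a ∈ s, C (q a) * ∏ i, ((X i : MvPolynomial ι ℤ) ^ (τ a i).1 *
      (1 - X i) ^ (τ a i).2)) ≤ (∑ a ∈ s, |(q a : ℝ)|) * 2 ^ (∑ i, m i) := by
  refine (l1_sum _ _).trans ?_
  rw [Finset.sum_mul]
  refine Finset.sum_le_sum fun a ha => ?_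
  refine (l1_mul _ _).trans ?_
  rw [l1_C]
  refine mul_le_mul_of_nonneg_left ?_ (abs_nonneg _)
  refine (l1_prod _ _).trans ?_
  rw [← Finset.prod_pow_eq_pow_sum]
  exact Finset.prod_le_prod (fun i _ => l1_nonneg _) fun i _ => l1_factor i _ _ _ (hτ a ha i)

theorem deg_sum_le {ι κ : Type} [Fintype ι] [DecidableEq ι] (s : Finset κ) (q : κ → ℤ)
    (τ : κ → ι → ℕ × ℕ) (i : ι) (m : ℕ) (hτ : ∀ a ∈ s, (τ a i).1 + (τ a i).2 ≤ m) :
    (∑ a ∈ s, C (q a) * ∏ i, ((X i : MvPolynomial ι ℤ) ^ (τ a i).1 *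
      (1 - X i) ^ (τ a i).2)).degreeOf i ≤ m := by
  refine (degreeOf_sum_le _ _ _).trans (Finset.sup_le fun a ha => ?_)
  refine (degreeOf_mul_le _ _ _).trans ?_
  rw [degreeOf_C, zero_add]
  refine (degreeOf_prod_le _ _ _).trans ?_
  have h1 : ∀ j ∈ (Finset.univ : Finset ι), degreeOf i ((X j : MvPolynomial ι ℤ) ^ (τ a j).1 *
      (1 - X j) ^ (τ a j).2) ≤ if i = j then (τ a j).1 + (τ a j).2 else 0 := by
    intro j _
    have h2 : degreeOf i (X j : MvPolynomial ι ℤ) ≤ if i = j then 1 else 0 :=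
      le_of_eq (degreeOf_X i j)
    have h3 : degreeOf i (1 - X j : MvPolynomial ι ℤ) ≤ if i = j then 1 else 0 := by
      refine (degreeOf_sub_le _ _ _).trans (max_le ?_ h2)
      rw [degreeOf_one]
      exact Nat.zero_le _
    refine (degreeOf_mul_le _ _ _).trans ?_
    have h4 := degreeOf_pow_le i (X j : MvPolynomial ι ℤ) (τ a j).1
    have h5 := degreeOf_pow_le i (1 - X j : MvPolynomial ι ℤ) (τ a j).2
    by_cases hij : i = j
    · rw [if_pos hij] at h2 h3 ⊢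
      nlinarith
    · rw [if_neg hij] at h2 h3 ⊢
      have h6 : degreeOf i (X j : MvPolynomial ι ℤ) = 0 := by omega
      have h7 : degreeOf i (1 - X j : MvPolynomial ι ℤ) = 0 := by omega
      rw [h6] at h4
      rw [h7] at h5
      omega
  refine (Finset.sum_le_sum h1).trans ?_
  rw [Finset.sum_ite_eq]
  simp only [Finset.mem_univ, if_true]
  exact hτ a ha

theorem card_s_le {ι : Type} [Fintype ι] [DecidableEq ι] (D : ι → ℕ) (s : Finset (ι → ℤ × ℤ))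
    (hs : ∀ a ∈ s, ∀ i, |(a i).1| ≤ D i ∧ |(a i).2| ≤ D i) : s.card ≤ 2 ^ (4 * ∑ i, D i) := by
  have h1 : s ⊆ Fintype.piFinset fun i =>
      (Finset.Icc (-(D i : ℤ)) (D i)) ×ˢ (Finset.Icc (-(D i : ℤ)) (D i)) := by
    intro a ha
    rw [Fintype.mem_piFinset]
    intro i
    rw [Finset.mem_product, Finset.mem_Icc, Finset.mem_Icc]
    exact ⟨abs_le.mp (hs a ha i).1, abs_le.mp (hs a ha i).2⟩
  refine (Finset.card_le_card h1).trans ?_
  rw [Fintype.card_piFinset, Finset.mul_sum, ← Finset.prod_pow_eq_pow_sum]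
  refine Finset.prod_le_prod' fun i _ => ?_
  rw [Finset.card_product, Int.card_Icc]
  have h2 : ((D i : ℤ) + 1 - -(D i : ℤ)).toNat = 2 * D i + 1 := by omega
  rw [h2]
  have h3 : 2 * D i + 1 ≤ 2 ^ (2 * D i) := Nat.lt_two_pow_self
  calc (2 * D i + 1) * (2 * D i + 1) ≤ 2 ^ (2 * D i) * 2 ^ (2 * D i) := Nat.mul_le_mul h3 h3
    _ = 2 ^ (4 * D i) := by
        rw [← pow_add]
        congr 1
        ring

theorem card_box_le {ι : Type} [Fintype ι] [DecidableEq ι] (D : ι → ℕ) :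
    (Fintype.piFinset fun i : ι => Finset.range (4 * D i + 1)).card ≤ 2 ^ (4 * ∑ i, D i) := by
  rw [Fintype.card_piFinset, Finset.mul_sum, ← Finset.prod_pow_eq_pow_sum]
  refine Finset.prod_le_prod' fun i _ => ?_
  rw [Finset.card_range]
  exact Nat.lt_two_pow_self

theorem log_bd {y H : ℝ} {S n : ℕ} (hy : 0 ≤ y) (hyY : y ≤ ((2 : ℝ) ^ (4 * S)) ^ n) (hn : n ≤ 5)
    (hS : (S : ℝ) ≤ H) : Real.log y ≤ 20 * H := by
  have hH : 0 ≤ H := (Nat.cast_nonneg S).trans hS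
  rcases hy.eq_or_lt with h0 | h0
  · rw [← h0, Real.log_zero]
    positivity
  refine (Real.log_le_log h0 hyY).trans ?_
  rw [Real.log_pow, Real.log_pow]
  have h1 : Real.log 2 ≤ 1 := by
    have := Real.log_two_lt_d9
    linarith
  have h2 : (0 : ℝ) ≤ Real.log 2 := Real.log_nonneg (by norm_num)
  have h3 : (n : ℝ) ≤ 5 := by exact_mod_cast hn
  have h4 : (0 : ℝ) ≤ (S : ℝ) := Nat.cast_nonneg S
  push_cast
  calc (n : ℝ) * (4 * (S : ℝ) * Real.log 2) ≤ 5 * (4 * (S : ℝ) * 1) := by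
        refine mul_le_mul h3 ?_ (by positivity) (by norm_num)
        exact mul_le_mul_of_nonneg_left h1 (by positivity)
    _ = 20 * S := by ring
    _ ≤ 20 * H := by linarith

end sizes

/-! ## The geometric inequality -/

theorem geom {ι : Type} [Fintype ι] (F : Submodule ℝ (ι → ℝ × ℝ)) (R : Finset ι) (ρ : ι → Fin 3)
    (h : ι → ℝ) (hh : ∀ i, 0 < h i) (A κ : ℝ) (a : ι → ℤ × ℤ)
    (ha : ∀ i, |(a i).1| ≤ dg (h i) ∧ |(a i).2| ≤ dg (h i))
    (ha2 : ∀ f ∈ F, |pr h a f| ≤ κ * ‖f‖) (α : ι → ℕ)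
    (hkey : ∀ i, (key (ρ i) (a i) : ℝ) ≤ (α i : ℝ) - (shift (ρ i) (dg (h i)) : ℝ))
    (hnk : ∃ w ∈ KP.KQ.wsp F R ρ, ((A + 1) * κ) * ‖w‖ <
      |∑ i, h i * ((α i : ℝ) - (shift (ρ i) (dg (h i)) : ℝ)) * w i|)
    (l : ι → ℝ) (f : ι → ℝ × ℝ) (μ : ℝ) (hf : f ∈ F) (hμ : 0 ≤ μ) (hl : ∀ i, 0 ≤ l i)
    (hlR : ∀ i ∈ R, μ ≤ l i) :
    A * κ * μ - κ * ‖f‖ - 2 * Fintype.card ι * ‖vec ρ l - f‖ ≤
      ∑ i, h i * ((α i : ℝ) - (shift (ρ i) (dg (h i)) : ℝ)) * l i := by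
  obtain ⟨w₀, hw₀, hw₀'⟩ := hnk
  have hw₀n : 0 < ‖w₀‖ := by
    rw [norm_pos_iff]
    rintro rfl
    simp at hw₀'
  obtain ⟨w, hw, hwn, hwT⟩ : ∃ w ∈ KP.KQ.wsp F R ρ, ‖w‖ = 1 ∧ ((A + 1) * κ) <
      ∑ i, h i * ((α i : ℝ) - (shift (ρ i) (dg (h i)) : ℝ)) * w i := by
    have h3 : ∀ r : ℝ, ∑ i, h i * ((α i : ℝ) - (shift (ρ i) (dg (h i)) : ℝ)) * (r • w₀) i =
        r * ∑ i, h i * ((α i : ℝ) - (shift (ρ i) (dg (h i)) : ℝ)) * w₀ i := by
      intro r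
      rw [Finset.mul_sum]
      refine Finset.sum_congr rfl fun i _ => ?_
      simp only [Pi.smul_apply, smul_eq_mul]
      ring
    have h4 : ((A + 1) * κ) < ‖w₀‖⁻¹ *
        |∑ i, h i * ((α i : ℝ) - (shift (ρ i) (dg (h i)) : ℝ)) * w₀ i| := by
      rw [inv_mul_eq_div, lt_div_iff₀ hw₀n]
      exact hw₀'
    rcases le_or_gt 0 (∑ i, h i * ((α i : ℝ) - (shift (ρ i) (dg (h i)) : ℝ)) * w₀ i) with h5 | h5
    · refine ⟨‖w₀‖⁻¹ • w₀, Submodule.smul_mem _ _ hw₀, ?_, ?_⟩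
      · rw [norm_smul, norm_inv, norm_norm, inv_mul_cancel₀ hw₀n.ne']
      · rw [h3]
        rwa [abs_of_nonneg h5] at h4
    · refine ⟨(-‖w₀‖⁻¹) • w₀, Submodule.smul_mem _ _ hw₀, ?_, ?_⟩
      · rw [norm_smul, norm_neg, norm_inv, norm_norm, inv_mul_cancel₀ hw₀n.ne']
      · rw [h3]
        rw [abs_of_neg h5] at h4
        linarith
  obtain ⟨hwF, hwR⟩ := KP.KQ.mem_wsp hw
  have hpos : ∀ i, 0 ≤ l i - μ * w i := by
    intro i
    by_cases hi : i ∈ R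
    · have h3 : |w i| ≤ 1 := by
        rw [← hwn]
        exact norm_le_pi_norm w i
      have h4 := (abs_le.mp h3).2
      nlinarith [hlR i hi]
    · rw [hwR i hi, mul_zero, sub_zero]
      exact hl i
  have hmain : ∑ i, h i * (key (ρ i) (a i) : ℝ) * (l i - μ * w i) ≤
      ∑ i, h i * ((α i : ℝ) - (shift (ρ i) (dg (h i)) : ℝ)) * (l i - μ * w i) :=
    Finset.sum_le_sum fun i _ => mul_le_mul_of_nonneg_right
      (mul_le_mul_of_nonneg_left (hkey i) (hh i).le) (hpos i)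
  have e1 : ∑ i, h i * (key (ρ i) (a i) : ℝ) * (l i - μ * w i) =
      - pr h a (vec ρ l) + μ * pr h a (vec ρ w) := by
    rw [pr_vec, pr_vec, neg_neg, mul_neg, Finset.mul_sum, ← sub_eq_add_neg,
      ← Finset.sum_sub_distrib]
    refine Finset.sum_congr rfl fun i _ => ?_
    ring
  have e2 : ∑ i, h i * ((α i : ℝ) - (shift (ρ i) (dg (h i)) : ℝ)) * (l i - μ * w i) =
      ∑ i, h i * ((α i : ℝ) - (shift (ρ i) (dg (h i)) : ℝ)) * l i -
        μ * ∑ i, h i * ((α i : ℝ) - (shift (ρ i) (dg (h i)) : ℝ)) * w i := by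
    rw [Finset.mul_sum, ← Finset.sum_sub_distrib]
    refine Finset.sum_congr rfl fun i _ => ?_
    ring
  have b1 : |pr h a (vec ρ l)| ≤ κ * ‖f‖ + 2 * Fintype.card ι * ‖vec ρ l - f‖ := by
    have h3 : pr h a (vec ρ l) = pr h a f + pr h a (vec ρ l - f) := by
      rw [pr_sub]
      ring
    rw [h3]
    exact (abs_add_le _ _).trans (add_le_add (ha2 f hf) (abs_pr_le h hh a _ ha))
  have b2 : |pr h a (vec ρ w)| ≤ κ := by
    have h3 := ha2 _ hwF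
    rwa [KP.norm_vec, hwn, mul_one] at h3
  have b3 := (abs_le.mp b1).2
  have b4 := (abs_le.mp b2).1
  have b5 : μ * (-κ) ≤ μ * pr h a (vec ρ w) := mul_le_mul_of_nonneg_left b4 hμ
  have b6 : μ * ((A + 1) * κ) ≤
      μ * ∑ i, h i * ((α i : ℝ) - (shift (ρ i) (dg (h i)) : ℝ)) * w i :=
    mul_le_mul_of_nonneg_left hwT.le hμ
  rw [e1, e2] at hmain
  nlinarith [hmain, b3, b5, b6]

/-- the choice of `κ` -/
theorem params (C c A : ℝ) (hC : 0 < C) (hc : 0 < c) (hA : 0 ≤ A) (x : ℕ) :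
    ∃ κ : ℝ, 0 < κ ∧ κ ≤ 1 ∧ 2 * (C * ((A + 1) * κ) ^ (x + 1)) ≤ c * κ ^ x := by
  have hD : 0 < 2 * (C * (A + 1) ^ (x + 1)) := by positivity
  refine ⟨min 1 (c / (2 * (C * (A + 1) ^ (x + 1)))), ?_, min_le_left _ _, ?_⟩
  · positivity
  set κ := min 1 (c / (2 * (C * (A + 1) ^ (x + 1)))) with hκ
  have hκ0 : 0 < κ := by positivity
  have hκ1 : κ * (2 * (C * (A + 1) ^ (x + 1))) ≤ c := by
    have h1 : κ ≤ c / (2 * (C * (A + 1) ^ (x + 1))) := min_le_right _ _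
    exact (le_div_iff₀ hD).mp h1
  calc 2 * (C * ((A + 1) * κ) ^ (x + 1)) = (κ * (2 * (C * (A + 1) ^ (x + 1)))) * κ ^ x := by
        rw [mul_pow, pow_succ κ x]
        ring
    _ ≤ c * κ ^ x := mul_le_mul_of_nonneg_right hκ1 (by positivity)

end ME

theorem exists_Q_ms {ι : Type} [Fintype ι] [DecidableEq ι] (F : Submodule ℝ (ι → ℝ × ℝ)) (x : ℕ)
    (ρ' : ι → Fin 3) (h1 : finrank ℝ (F ⊓ cel Finset.univ ρ' : Submodule ℝ _) ≤ x)
    (R : Finset ι) (ρ : ι → Fin 3) (h2 : x < finrank ℝ (F ⊓ cel R ρ : Submodule ℝ _))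
    (A : ℝ) (hA : 0 ≤ A) :
    ∃ κ η A1 : ℝ, 0 < κ ∧ κ ≤ 1 ∧ 0 < η ∧ 0 ≤ A1 ∧ ∀ h : ι → ℝ, (∀ i, 0 < h i ∧ h i ≤ η) →
      ∃ Q : MvPolynomial ι ℤ, Q ≠ 0 ∧ Real.log (l1 Q) ≤ A1 * ∑ i, (h i)⁻¹ ∧
        (∀ i, Q.degreeOf i ≤ 4 * dg (h i)) ∧
        (∃ (T : Finset (ι → ℕ × ℕ)) (q : (ι → ℕ × ℕ) → ℤ), Q = rep T q ∧
          (∀ t ∈ T, ∀ i, (t i).1 ≤ 4 * dg (h i) ∧ (t i).2 ≤ 4 * dg (h i)) ∧
          Real.log (∑ t ∈ T, |(q t : ℝ)|) ≤ A1 * ∑ i, (h i)⁻¹ ∧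
          ∀ t ∈ T, ∀ f ∈ F, pt h t f ≤ κ * ‖f‖) ∧
        ∃ (T : Finset (ι → ℕ × ℕ)) (q : (ι → ℕ × ℕ) → ℤ), Q = rep T q ∧
          (∀ t ∈ T, ∀ i, (t i).1 ≤ 4 * dg (h i) ∧ (t i).2 ≤ 4 * dg (h i)) ∧
          Real.log (∑ t ∈ T, |(q t : ℝ)|) ≤ A1 * ∑ i, (h i)⁻¹ ∧
          ∀ t ∈ T, ∀ (l : ι → ℝ) (f : ι → ℝ × ℝ) (μ : ℝ), f ∈ F → 0 ≤ μ → (∀ i, 0 ≤ l i) →
            (∀ i ∈ R, μ ≤ l i) →
            pt h t (vec ρ l) ≤ -(A * κ * μ) + κ * ‖f‖ + 2 * Fintype.card ι * ‖vec ρ l - f‖ := by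
  classical
  have hfr : x + 1 ≤ finrank ℝ (KP.KQ.wsp F R ρ) := by
    rw [KP.KQ.finrank_wsp]
    exact h2
  obtain ⟨C₀, hC₀, hcount⟩ := count_ms (KP.KQ.wsp F R ρ) (x + 1) hfr
  obtain ⟨c₀, hc₀, hchar⟩ := chars_ms F x ρ' h1
  obtain ⟨κ, hκ0, hκ1, hκ⟩ := ME.params C₀ c₀ A hC₀ hc₀ hA x
  obtain ⟨η₀, hη₀, hη⟩ := hchar κ hκ0 hκ1
  have hT : 0 < (A + 1) * κ := by positivity
  refine ⟨κ, min η₀ (min 1 ((A + 1) * κ)), 20, hκ0, hκ1, by positivity, by norm_num,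
    fun h hh => ?_⟩
  have hh0 : ∀ i, 0 < h i := fun i => (hh i).1
  have hh1 : ∀ i, h i ≤ 1 := fun i => (hh i).2.trans ((min_le_right _ _).trans (min_le_left _ _))
  have hhT : ∀ i, h i ≤ (A + 1) * κ :=
    fun i => (hh i).2.trans ((min_le_right _ _).trans (min_le_right _ _))
  obtain ⟨s, hs1, hs2, hs3, hs4⟩ := hη h fun i => ⟨hh0 i, (hh i).2.trans (min_le_left _ _)⟩
  set D : ι → ℕ := fun i => dg (h i) with hD
  set S : ℕ := ∑ i, D i with hS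
  have hSH : (S : ℝ) ≤ ∑ i, (h i)⁻¹ := by
    rw [hS]
    push_cast
    exact Finset.sum_le_sum fun i _ => ME.dg_le (hh0 i)
  set Y : ℕ := 2 ^ (4 * S) with hY
  have hY1 : 1 ≤ Y := Nat.one_le_two_pow
  have hsY : s.card ≤ Y := ME.card_s_le D s hs1
  set box : Finset (ι → ℕ) := Fintype.piFinset fun i : ι => Finset.range (4 * D i + 1) with hbox
  have hboxY : box.card ≤ Y := ME.card_box_le D
  have hmem : ∀ α ∈ box, ∀ i, α i ≤ 4 * D i := by
    intro α hα i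
    have := Fintype.mem_piFinset.mp hα i
    rw [Finset.mem_range] at this
    omega
  -- the killed indices
  set Kil : Finset (ι → ℕ) := box.filter fun α => ∀ w ∈ KP.KQ.wsp F R ρ,
    |∑ i, h i * ((α i : ℝ) - (shift (ρ i) (D i) : ℝ)) * w i| ≤ ((A + 1) * κ) * ‖w‖ with hKil
  have hcard : 2 * Kil.card ≤ s.card := by
    have h3 := hcount h ((A + 1) * κ) (fun i => 4 * D i) (fun i => (shift (ρ i) (D i) : ℝ))
      (fun i => ⟨hh0 i, hhT i⟩) (fun i => by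
        have h4 := ME.mul_dg_le (hh0 i)
        have h5 := hh1 i
        push_cast
        simp only [hD]
        nlinarith)
    have h4 : (Kil.card : ℝ) ≤ C₀ * ((A + 1) * κ) ^ (x + 1) * ∏ i, (h i)⁻¹ := by
      refine le_trans (le_of_eq ?_) h3
      refine congrArg (fun m : Finset (ι → ℕ) => ((m.card : ℕ) : ℝ)) ?_
      ext α
      simp only [hKil, hbox, Finset.mem_filter, Fintype.mem_piFinset]
    have h5 : 0 < ∏ i, (h i)⁻¹ := Finset.prod_pos fun i _ => inv_pos.mpr (hh0 i)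
    have h6 : (2 : ℝ) * Kil.card ≤ s.card := by
      refine le_trans ?_ hs4
      calc (2 : ℝ) * Kil.card ≤ 2 * (C₀ * ((A + 1) * κ) ^ (x + 1) * ∏ i, (h i)⁻¹) := by linarith
        _ = (2 * (C₀ * ((A + 1) * κ) ^ (x + 1))) * ∏ i, (h i)⁻¹ := by ring
        _ ≤ (c₀ * κ ^ x) * ∏ i, (h i)⁻¹ := mul_le_mul_of_nonneg_right hκ h5.le
    exact_mod_cast h6
  have hspos : 0 < s.card := by
    have h5 : 0 < ∏ i, (h i)⁻¹ := Finset.prod_pos fun i _ => inv_pos.mpr (hh0 i)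
    have h6 : (0 : ℝ) < s.card := lt_of_lt_of_le (by positivity) hs4
    exact_mod_cast h6
  choose e he1 he2 he3 using fun i => expand_ms (ρ i) (D i)
  have hprod : ∀ (a : ι → ℤ × ℤ) (α : ι → ℕ), |∏ i, e i (a i) (α i)| ≤ (Y : ℤ) := by
    intro a α
    rw [Finset.abs_prod, hY, hS, Finset.mul_sum, ← Finset.prod_pow_eq_pow_sum]
    push_cast
    exact Finset.prod_le_prod (fun i _ => abs_nonneg _) fun i _ => he2 i (a i) (α i)
  obtain ⟨t, ht0, ht', htY⟩ := siegel_ms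
    (fun (α : {α // α ∈ Kil}) (a : {a // a ∈ s}) => ∏ i, e i (a.1 i) (α.1 i)) Y hY1
    (fun α a => hprod a.1 α.1) (by simpa [Fintype.card_coe] using hcard)
    (by simpa [Fintype.card_coe] using hspos)
  set q : (ι → ℤ × ℤ) → ℤ := fun a => if h : a ∈ s then t ⟨a, h⟩ else 0 with hq
  have hqs : ∀ a : {a // a ∈ s}, q a.1 = t a := by
    intro a
    simp only [hq]
    rw [dif_pos a.2]
  have hqsum : ∀ g : (ι → ℤ × ℤ) → ℤ, ∑ a ∈ s, q a * g a = ∑ a : {a // a ∈ s}, t a * g a.1 := by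
    intro g
    rw [← Finset.sum_attach]
    rw [Finset.univ_eq_attach]
    refine Finset.sum_congr rfl fun a _ => ?_
    rw [hqs a]
  obtain ⟨a₀, ha₀⟩ : ∃ a, t a ≠ 0 := by
    by_contra hcon
    push Not at hcon
    exact ht0 (funext hcon)
  have hq₀ : q a₀.1 ≠ 0 := by rw [hqs]; exact ha₀
  have hYr : (1 : ℝ) ≤ (Y : ℝ) := by exact_mod_cast hY1
  have hqa : ∀ a ∈ s, |(q a : ℝ)| ≤ (Y : ℝ) ^ 2 := by
    intro a ha
    have h3 := htY ⟨a, ha⟩
    rw [← hqs ⟨a, ha⟩, Fintype.card_coe] at h3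
    have h4 : |(q a : ℝ)| ≤ (s.card : ℝ) * (Y : ℝ) := by exact_mod_cast h3
    have h5 : (s.card : ℝ) ≤ (Y : ℝ) := by exact_mod_cast hsY
    refine h4.trans ?_
    rw [pow_two]
    exact mul_le_mul_of_nonneg_right h5 (by positivity)
  have hsr : (s.card : ℝ) ≤ (Y : ℝ) := by exact_mod_cast hsY
  have hqS : ∑ a ∈ s, |(q a : ℝ)| ≤ (Y : ℝ) ^ 3 := by
    refine (Finset.sum_le_sum hqa).trans ?_
    rw [Finset.sum_const, nsmul_eq_mul]
    calc (s.card : ℝ) * (Y : ℝ) ^ 2 ≤ (Y : ℝ) * (Y : ℝ) ^ 2 :=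
          mul_le_mul_of_nonneg_right hsr (by positivity)
      _ = (Y : ℝ) ^ 3 := by ring
  have hYc : (Y : ℝ) = (2 : ℝ) ^ (4 * S) := by rw [hY]; push_cast; rfl
  set Q : MvPolynomial ι ℤ := ∑ a ∈ s, C (q a) * ∏ i,
    ((X i : MvPolynomial ι ℤ) ^ (ME.tau D a i).1 * (1 - X i) ^ (ME.tau D a i).2) with hQ
  have htau : ∀ a ∈ s, ∀ i, (ME.tau D a i).1 ≤ 2 * D i ∧ (ME.tau D a i).2 ≤ 2 * D i :=
    fun a ha i => ME.tau_le D a (hs1 a ha) i
  set c : (ι → ℕ) → ℤ := fun α => ∑ a ∈ s, q a * ∏ i, e i (a i) (α i) with hc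
  have hQ2 : Q = ∑ α ∈ box, C (c α) * ∏ i, ((X i : MvPolynomial ι ℤ) ^ (ME.lam ρ D α i).1 *
      (1 - X i) ^ (ME.lam ρ D α i).2) := by
    have h3 : ∀ a ∈ s, C (q a) * ∏ i, ((X i : MvPolynomial ι ℤ) ^ (ME.tau D a i).1 *
        (1 - X i) ^ (ME.tau D a i).2) = ∑ α ∈ box, C (q a) * (C (∏ i, e i (a i) (α i)) *
          ∏ i, ((X i : MvPolynomial ι ℤ) ^ (ME.lam ρ D α i).1 *
            (1 - X i) ^ (ME.lam ρ D α i).2)) := by
      intro a ha
      rw [← Finset.mul_sum]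
      congr 1
      have h4 : ∀ i ∈ (Finset.univ : Finset ι), (X i : MvPolynomial ι ℤ) ^ (ME.tau D a i).1 *
          (1 - X i) ^ (ME.tau D a i).2 = ∑ b ∈ Finset.range (4 * D i + 1),
            ((e i (a i) b : ℤ) : MvPolynomial ι ℤ) * (X i ^ (lt (ρ i) (4 * D i) b).1 *
              (1 - X i) ^ (lt (ρ i) (4 * D i) b).2) := by
        intro i _
        exact he3 i (a i) (hs1 a ha i).1 (hs1 a ha i).2 (MvPolynomial ι ℤ) (X i)
      rw [Finset.prod_congr rfl h4, Finset.prod_univ_sum]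
      refine Finset.sum_congr rfl fun α _ => ?_
      rw [Finset.prod_mul_distrib]
      congr 1
      rw [map_prod]
      refine Finset.prod_congr rfl fun i _ => ?_
      rw [← eq_intCast (C : ℤ →+* MvPolynomial ι ℤ)]
    rw [hQ, Finset.sum_congr rfl h3, Finset.sum_comm]
    refine Finset.sum_congr rfl fun α _ => ?_
    rw [hc]
    simp only
    rw [map_sum, Finset.sum_mul]
    refine Finset.sum_congr rfl fun a _ => ?_
    rw [map_mul, mul_assoc]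
  have hcY : ∀ α, |(c α : ℝ)| ≤ (Y : ℝ) ^ 4 := by
    intro α
    simp only [hc]
    push_cast
    refine (Finset.abs_sum_le_sum_abs _ _).trans ?_
    have h3 : ∀ a ∈ s, |(q a : ℝ) * ∏ i, (e i (a i) (α i) : ℝ)| ≤ |(q a : ℝ)| * (Y : ℝ) := by
      intro a _
      rw [abs_mul]
      refine mul_le_mul_of_nonneg_left ?_ (abs_nonneg _)
      have h4 := hprod a α
      exact_mod_cast h4
    refine (Finset.sum_le_sum h3).trans ?_
    rw [← Finset.sum_mul]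
    calc (∑ a ∈ s, |(q a : ℝ)|) * (Y : ℝ) ≤ (Y : ℝ) ^ 3 * (Y : ℝ) :=
          mul_le_mul_of_nonneg_right hqS (by positivity)
      _ = (Y : ℝ) ^ 4 := by ring
  refine ⟨Q, ?_, ?_, ?_, ?_, ?_⟩
  · exact indep_ms ρ' D s hs1 hs3 q a₀.1 a₀.2 hq₀
  · have h3 : l1 Q ≤ (∑ a ∈ s, |(q a : ℝ)|) * 2 ^ (∑ i, 2 * D i) :=
      ME.l1_sum_le s q (ME.tau D) (fun i => 2 * D i) fun a ha i => (htau a ha i).2
    have h4 : (2 : ℝ) ^ (∑ i, 2 * D i) ≤ (Y : ℝ) := by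
      rw [hYc]
      refine pow_le_pow_right₀ (by norm_num) ?_
      rw [← Finset.mul_sum]
      omega
    have h5 : l1 Q ≤ ((2 : ℝ) ^ (4 * S)) ^ 4 := by
      rw [← hYc]
      calc l1 Q ≤ (∑ a ∈ s, |(q a : ℝ)|) * 2 ^ (∑ i, 2 * D i) := h3
        _ ≤ (Y : ℝ) ^ 3 * (Y : ℝ) := mul_le_mul hqS h4 (by positivity) (by positivity)
        _ = (Y : ℝ) ^ 4 := by ring
    exact ME.log_bd (l1_nonneg Q) h5 (by norm_num) hSH
  · intro i
    refine ME.deg_sum_le s q (ME.tau D) i (4 * dg (h i)) fun a ha => ?_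
    have h3 := htau a ha i
    have h4 : D i = dg (h i) := rfl
    omega
  · refine ⟨s.image (ME.tau D), fun t => q (ME.sig D t), ?_, ?_, ?_, ?_⟩
    · rw [ME.rep_image s (ME.tau D) (ME.sig D) (fun a ha => ME.sig_tau D a (hs1 a ha)) q]
    · intro t ht i
      obtain ⟨a, ha, rfl⟩ := Finset.mem_image.mp ht
      have h3 := htau a ha i
      have h4 : D i = dg (h i) := rfl
      omega
    · rw [ME.sum_image_abs s (ME.tau D) (ME.sig D) (fun a ha => ME.sig_tau D a (hs1 a ha)) q]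
      refine ME.log_bd (Finset.sum_nonneg fun a _ => abs_nonneg _) ?_ (by norm_num : 3 ≤ 5) hSH
      rw [← hYc]
      exact hqS
    · intro t ht f hf
      obtain ⟨a, ha, rfl⟩ := Finset.mem_image.mp ht
      have h3 : pt h (ME.tau D a) f =
          ∑ i, h i * (((a i).1 : ℝ) * (f i).1 + ((a i).2 : ℝ) * (f i).2) := by
        unfold pt
        refine Finset.sum_congr rfl fun i _ => ?_
        have h4 := abs_le.mp (hs1 a ha i).1
        have h5 := abs_le.mp (hs1 a ha i).2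
        have h6 : ((((a i).1 + D i).toNat : ℕ) : ℝ) = ((a i).1 : ℝ) + D i := by
          have : ((((a i).1 + D i).toNat : ℕ) : ℤ) = (a i).1 + D i :=
            Int.toNat_of_nonneg (by have := h4.1; simp only [hD]; omega)
          exact_mod_cast this
        have h7 : ((((a i).2 + D i).toNat : ℕ) : ℝ) = ((a i).2 : ℝ) + D i := by
          have : ((((a i).2 + D i).toNat : ℕ) : ℤ) = (a i).2 + D i :=
            Int.toNat_of_nonneg (by have := h5.1; simp only [hD]; omega)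
          exact_mod_cast this
        simp only [ME.tau]
        rw [h6, h7]
        simp only [hD]
        ring
      rw [h3]
      exact (le_abs_self _).trans (hs2 a ha f hf)
  · have hmem2 : ∀ α ∈ box.filter fun α => c α ≠ 0, ∀ i, α i ≤ 4 * D i :=
      fun α hα => hmem α (Finset.mem_filter.mp hα).1
    have hinv : ∀ α ∈ box.filter fun α => c α ≠ 0, ME.lamInv ρ D (ME.lam ρ D α) = α :=
      fun α hα => ME.lamInv_lam ρ D α (hmem2 α hα)
    refine ⟨(box.filter fun α => c α ≠ 0).image (ME.lam ρ D), fun t => c (ME.lamInv ρ D t),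
      ?_, ?_, ?_, ?_⟩
    · rw [ME.rep_image _ (ME.lam ρ D) (ME.lamInv ρ D) hinv c, hQ2]
      symm
      refine Finset.sum_subset (Finset.filter_subset _ _) fun α hα hα2 => ?_
      have h3 : c α = 0 := by
        by_contra hcon
        exact hα2 (Finset.mem_filter.mpr ⟨hα, hcon⟩)
      rw [h3, C_0, zero_mul]
    · intro t ht i
      obtain ⟨α, hα, rfl⟩ := Finset.mem_image.mp ht
      exact ME.lam_le ρ D α (hmem2 α hα) i
    · rw [ME.sum_image_abs _ (ME.lam ρ D) (ME.lamInv ρ D) hinv c]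
      refine ME.log_bd (Finset.sum_nonneg fun a _ => abs_nonneg _) ?_ (le_refl 5) hSH
      rw [← hYc]
      refine (Finset.sum_le_sum fun α _ => hcY α).trans ?_
      rw [Finset.sum_const, nsmul_eq_mul]
      have h3 : (((box.filter fun α => c α ≠ 0).card : ℕ) : ℝ) ≤ (Y : ℝ) := by
        exact_mod_cast (Finset.card_le_card (Finset.filter_subset _ _)).trans hboxY
      calc (((box.filter fun α => c α ≠ 0).card : ℕ) : ℝ) * (Y : ℝ) ^ 4
          ≤ (Y : ℝ) * (Y : ℝ) ^ 4 := mul_le_mul_of_nonneg_right h3 (by positivity)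
        _ = (Y : ℝ) ^ 5 := by ring
    · intro t ht l f μ hf hμ hl hlR
      obtain ⟨α, hα, rfl⟩ := Finset.mem_image.mp ht
      obtain ⟨hαb, hcα⟩ := Finset.mem_filter.mp hα
      have hnk : α ∉ Kil := by
        intro hk
        apply hcα
        simp only [hc]
        rw [hqsum]
        exact ht' ⟨α, hk⟩
      obtain ⟨a, ha, hqa'⟩ : ∃ a ∈ s, q a * ∏ i, e i (a i) (α i) ≠ 0 := by
        by_contra hcon
        push Not at hcon
        apply hcα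
        simp only [hc]
        exact Finset.sum_eq_zero hcon
      have hkey : ∀ i, (key (ρ i) (a i) : ℝ) ≤ (α i : ℝ) - (shift (ρ i) (dg (h i)) : ℝ) := by
        intro i
        have h3 : e i (a i) (α i) ≠ 0 := by
          intro h0
          apply hqa'
          rw [Finset.prod_eq_zero (Finset.mem_univ i) h0, mul_zero]
        have h4 : ¬ ((α i : ℤ) - shift (ρ i) (D i) < key (ρ i) (a i)) := fun h5 => h3 (he1 i _ _ h5)
        have h5 := not_lt.mp h4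
        exact_mod_cast h5
      have hw : ∃ w ∈ KP.KQ.wsp F R ρ, ((A + 1) * κ) * ‖w‖ <
          |∑ i, h i * ((α i : ℝ) - (shift (ρ i) (dg (h i)) : ℝ)) * w i| := by
        by_contra hcon
        push Not at hcon
        apply hnk
        rw [hKil]
        exact Finset.mem_filter.mpr ⟨hαb, hcon⟩
      have hg := ME.geom F R ρ h hh0 A κ a (hs1 a ha) (fun f hf => hs2 a ha f hf) α hkey hw
        l f μ hf hμ hl hlR
      have hp := ME.pt_lt h ρ α (hmem α hαb) l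
      have hp' : pt h (ME.lam ρ D α) (vec ρ l) =
        -∑ i, h i * ((α i : ℝ) - (shift (ρ i) (dg (h i)) : ℝ)) * l i := hp
      rw [hp']
      linarith

end Pool.Agent.AL
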