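import Pool.Agent.Lib.MP_c95b3b_ag_AL.DefsM
import Pool.Agent.Lib.MP_c95b3b_ag_AL.MD
import Pool.Agent.Lib.MP_c95b3b_ag_AL.ME

/-! Project AL (MP_c95b3b_ag), module MF: no mass in bad cells. -/

namespace Pool.Agent.AL

open Pool.Agent.L3 Module MvPolynomial
open Pool.Agent.KP (supp vec cel key shift lvv Good pr1 pr0)

namespace MF

theorem avg_dg {ι : Type} [Fintype ι] {K : Type} [Field K] {S : Subring K} (P : Places K S)
    (U : ι → K) (hU : ∀ i, UU S (U i)) (c : ι → ℝ) :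
    P.avg (fun w => ∑ i, c i * (P.lg w (U i) + P.lg w (1 - U i))) = 0 := by
  rw [P.avg_sum]
  refine Finset.sum_eq_zero fun i _ => ?_
  rw [P.avg_mul, P.avg_add, (hU i).avg_lg P, (hU i).avg_lg1 P, add_zero, mul_zero]

theorem dg_le {s M : ℝ} (hs : 0 < s) (hM : 0 < M) : (dg (s / M) : ℝ) ≤ M / s := by
  unfold dg
  have h : (s / M)⁻¹ = M / s := inv_div s M
  rw [h]
  exact Nat.floor_le (by positivity)

theorem norm_f_le {E : Type} [SeminormedAddCommGroup E] (a f : E) : ‖f‖ ≤ ‖a‖ + ‖a - f‖ := by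
  have h : f = a - (a - f) := by abel
  calc ‖f‖ = ‖a - (a - f)‖ := by rw [← h]
    _ ≤ _ := norm_sub_le _ _

end MF

open Classical in
theorem no_mass_ms {ι : Type} [Fintype ι] [DecidableEq ι] (F : Submodule ℝ (ι → ℝ × ℝ)) (x : ℕ)
    (ρ' : ι → Fin 3) (h1 : finrank ℝ (F ⊓ cel Finset.univ ρ' : Submodule ℝ _) ≤ x)
    (R : Finset ι) (ρ : ι → Fin 3) (h2 : x < finrank ℝ (F ⊓ cel R ρ : Submodule ℝ _))
    (r ε B : ℝ) (hr : 0 < r) (hε : 0 < ε) :
    ∃ δ H0 A ε0 : ℝ, 0 < δ ∧ 0 < ε0 ∧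
      ∀ (K : Type) [Field K] (S : Subring K) (P : Places K S) (U : ι → K) (s : ι → ℝ) (s1 : ℝ)
        (f : P.Pl → ι → ℝ × ℝ) (V : P.Pl → Prop),
        (∀ i, UU S (U i)) → H0 ≤ s1 → 1 ≤ s1 → (∀ i, s1 ≤ s i) → Star P U s s1 A ε0 →
        P.avg (fun w => ‖lvs P U s w‖) ≤ B → (∀ w, f w ∈ F) →
        P.avg (fun w => ‖lvs P U s w - f w‖) ≤ δ →
        (∀ w, V w → ∃ l : ι → ℝ, (∀ i, 0 ≤ l i) ∧ (∀ i ∈ R, r * ‖lvs P U s w‖ ≤ l i) ∧
          ‖lvs P U s w - vec ρ l‖ ≤ 2 / s1 * P.arch w) →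
        P.avg (fun w => if V w then ‖lvs P U s w‖ else 0) ≤ ε := by
  obtain ⟨B', hB'1, hB'B⟩ : ∃ B' : ℝ, 1 ≤ B' ∧ B ≤ B' := ⟨max B 1, le_max_right _ _, le_max_left _ _⟩
  have hrε : 0 < r * ε := mul_pos hr hε
  obtain ⟨A', hA'def⟩ : ∃ A' : ℝ, A' = 4 * (B' + 1) / (r * ε) := ⟨_, rfl⟩
  have hA' : 0 < A' := by rw [hA'def]; positivity
  obtain ⟨κ, η, A1, hκ, hκ1, hη, hA1, hQ⟩ := exists_Q_ms F x ρ' h1 R ρ h2 A' hA'.le
  have hne : Nonempty ι := by
    by_contra hn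
    rw [not_nonempty_iff] at hn
    have h3 : finrank ℝ (F ⊓ cel R ρ : Submodule ℝ (ι → ℝ × ℝ)) = 0 :=
      Module.finrank_zero_of_subsingleton
    omega
  obtain ⟨m, hm⟩ : ∃ m : ℝ, m = (Fintype.card ι : ℝ) := ⟨_, rfl⟩
  have hm1 : 1 ≤ m := by
    rw [hm]
    exact_mod_cast Fintype.card_pos
  refine ⟨min 1 (κ / (8 * m + 1)), 16 * m / κ, max 4 (A1 * m), κ, by positivity, hκ, ?_⟩
  intro K _ S P U s s1 f V hU hH hs1 hs hstar hB hf hδ hV
  have hs10 : 0 < s1 := by linarith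
  have hspos : ∀ i, 0 < s i := fun i => lt_of_lt_of_le hs10 (hs i)
  obtain ⟨N, hN⟩ : ∃ N : ℝ, N = 1 / η + 1 := ⟨_, rfl⟩
  have hN1 : 1 ≤ N := by
    rw [hN]
    have : 0 < 1 / η := by positivity
    linarith
  have hNη : 1 ≤ η * N := by
    rw [hN, mul_add, mul_one_div_cancel hη.ne']
    linarith
  obtain ⟨M, hM⟩ : ∃ M : ℝ, M = N * ∑ i, s i := ⟨_, rfl⟩
  have hsum_ge : ∀ i, s i ≤ ∑ j, s j := fun i =>
    Finset.single_le_sum (fun j _ => (hspos j).le) (Finset.mem_univ i)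
  have hsum0 : 0 ≤ ∑ j, s j := Finset.sum_nonneg fun j _ => (hspos j).le
  have hsM : ∀ i, s i ≤ M := by
    intro i
    rw [hM]
    nlinarith [hsum_ge i]
  have hs1M : s1 ≤ M := (hs hne.some).trans (hsM _)
  have hM0 : 0 < M := lt_of_lt_of_le hs10 hs1M
  have hh : ∀ i, 0 < s i / M ∧ s i / M ≤ η := by
    intro i
    refine ⟨div_pos (hspos i) hM0, ?_⟩
    rw [div_le_iff₀ hM0, hM]
    have h3 : s i ≤ ∑ j, s j := hsum_ge i
    have h4 : ∑ j, s j ≤ (η * N) * ∑ j, s j := by nlinarith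
    linarith
  obtain ⟨Q, hQ0, hQl, hQd, ⟨T1, q1, hr1, he1, hl1, hp1⟩, T2, q2, hr2, he2, hl2, hp2⟩ :=
    hQ (fun i => s i / M) hh
  -- sizes
  have hA4 : (4 : ℝ) ≤ max 4 (A1 * m) := le_max_left _ _
  have hAA : A1 * m ≤ max 4 (A1 * m) := le_max_right _ _
  have hsz : A1 * ∑ i, (s i / M)⁻¹ ≤ max 4 (A1 * m) * M / s1 := by
    have h3 : ∑ i, (s i / M)⁻¹ ≤ m * (M / s1) := by
      have h4 : ∀ i ∈ (Finset.univ : Finset ι), (s i / M)⁻¹ ≤ M / s1 := by
        intro i _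
        rw [inv_div]
        exact div_le_div_of_nonneg_left hM0.le hs10 (hs i)
      refine (Finset.sum_le_sum h4).trans ?_
      rw [Finset.sum_const, Finset.card_univ, nsmul_eq_mul, hm]
    have h5 : 0 ≤ M / s1 := by positivity
    calc A1 * ∑ i, (s i / M)⁻¹ ≤ A1 * (m * (M / s1)) := mul_le_mul_of_nonneg_left h3 hA1
      _ = (A1 * m) * (M / s1) := by ring
      _ ≤ max 4 (A1 * m) * (M / s1) := mul_le_mul_of_nonneg_right hAA h5
      _ = max 4 (A1 * m) * M / s1 := by ring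
  have hdg : ∀ i, 4 * (dg (s i / M) : ℝ) ≤ max 4 (A1 * m) * M / s i := by
    intro i
    have h3 := MF.dg_le (hspos i) hM0
    have h5 : 0 ≤ M / s i := div_nonneg hM0.le (hspos i).le
    calc 4 * (dg (s i / M) : ℝ) ≤ 4 * (M / s i) := by linarith
      _ ≤ max 4 (A1 * m) * (M / s i) := mul_le_mul_of_nonneg_right hA4 h5
      _ = max 4 (A1 * m) * M / s i := by ring
  have hexp : ∀ (n : ℕ) (i : ι), n ≤ 4 * dg (s i / M) → (n : ℝ) ≤ max 4 (A1 * m) * M / s i := by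
    intro n i hn
    have h3 : (n : ℝ) ≤ 4 * (dg (s i / M) : ℝ) := by exact_mod_cast hn
    exact h3.trans (hdg i)
  obtain ⟨β, hβ⟩ : ∃ β : P.Pl → ℝ, β = fun w =>
      ((-(A' * κ * r)) * (if V w then ‖lvs P U s w‖ else 0) + κ * ‖lvs P U s w‖) +
        ((κ + 8 * m) * ‖lvs P U s w - f w‖ + 16 * m / s1 * P.arch w) := ⟨_, rfl⟩
  have key : ∀ w, ∃ (T : Finset (ι → ℕ × ℕ)) (q : (ι → ℕ × ℕ) → ℤ), Q = rep T q ∧
      (∀ t ∈ T, ∀ i, ((t i).1 : ℝ) ≤ max 4 (A1 * m) * M / s i ∧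
        ((t i).2 : ℝ) ≤ max 4 (A1 * m) * M / s i) ∧
      Real.log (∑ t ∈ T, |(q t : ℝ)|) ≤ max 4 (A1 * m) * M / s1 ∧
      ∀ t ∈ T, ∑ i, (((t i).1 : ℝ) * P.lg w (U i) + ((t i).2 : ℝ) * P.lg w (1 - U i)) ≤
        M * β w + ∑ i, (dg (s i / M) : ℝ) * (P.lg w (U i) + P.lg w (1 - U i)) := by
    intro w
    have har := P.arch_nonneg w
    have hfn := MF.norm_f_le (lvs P U s w) (f w)
    have hfk : κ * ‖f w‖ ≤ κ * (‖lvs P U s w‖ + ‖lvs P U s w - f w‖) :=
      mul_le_mul_of_nonneg_left hfn hκ.le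
    have hn0 : 0 ≤ ‖lvs P U s w - f w‖ := norm_nonneg _
    have hmn : 0 ≤ m * ‖lvs P U s w - f w‖ := mul_nonneg (by linarith) hn0
    have hms : 0 ≤ m / s1 * P.arch w := mul_nonneg (by positivity) har
    have e16 : 16 * m / s1 * P.arch w = 16 * (m / s1 * P.arch w) := by ring
    by_cases hVw : V w
    · refine ⟨T2, q2, hr2, fun t ht i => ⟨hexp _ i (he2 t ht i).1, hexp _ i (he2 t ht i).2⟩,
        hl2.trans hsz, fun t ht => ?_⟩
      obtain ⟨l, hl0, hlR, hln⟩ := hV w hVw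
      rw [sum_lg_eq t P U s M hM0 hspos w]
      refine add_le_add_left ?_ _
      refine mul_le_mul_of_nonneg_left ?_ hM0.le
      have hsplit : lvs P U s w = vec ρ l + (lvs P U s w - vec ρ l) := by abel
      have hpt : pt (fun i => s i / M) t (lvs P U s w) =
          pt (fun i => s i / M) t (vec ρ l) + pt (fun i => s i / M) t (lvs P U s w - vec ρ l) := by
        rw [← pt_add, ← hsplit]
      have hb := hp2 t ht l (f w) (r * ‖lvs P U s w‖) (hf w) (mul_nonneg hr.le (norm_nonneg _))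
        hl0 hlR
      have hab := (le_abs_self _).trans (abs_pt_le (fun i => s i / M) t (fun i => (hh i).1)
        (fun i => he2 t ht i) (lvs P U s w - vec ρ l))
      rw [← hm] at hb hab
      have h3 : ‖vec ρ l - f w‖ ≤ 2 / s1 * P.arch w + ‖lvs P U s w - f w‖ := by
        have : vec ρ l - f w = (lvs P U s w - f w) - (lvs P U s w - vec ρ l) := by abel
        rw [this]
        refine (norm_sub_le _ _).trans ?_
        linarith
      have h4 : m * ‖vec ρ l - f w‖ ≤ m * (2 / s1 * P.arch w + ‖lvs P U s w - f w‖) :=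
        mul_le_mul_of_nonneg_left h3 (by linarith)
      have h5 : m * ‖lvs P U s w - vec ρ l‖ ≤ m * (2 / s1 * P.arch w) :=
        mul_le_mul_of_nonneg_left hln (by linarith)
      have e2 : m * (2 / s1 * P.arch w) = 2 * (m / s1 * P.arch w) := by ring
      rw [hpt, hβ]
      simp only [if_pos hVw]
      rw [e16]
      rw [mul_add, e2] at h4
      rw [e2] at h5
      nlinarith [hb, hab, h4, h5, hfk, hmn, hms]
    · refine ⟨T1, q1, hr1, fun t ht i => ⟨hexp _ i (he1 t ht i).1, hexp _ i (he1 t ht i).2⟩,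
        hl1.trans hsz, fun t ht => ?_⟩
      rw [sum_lg_eq t P U s M hM0 hspos w]
      refine add_le_add_left ?_ _
      refine mul_le_mul_of_nonneg_left ?_ hM0.le
      have hsplit : lvs P U s w = f w + (lvs P U s w - f w) := by abel
      have hpt : pt (fun i => s i / M) t (lvs P U s w) =
          pt (fun i => s i / M) t (f w) + pt (fun i => s i / M) t (lvs P U s w - f w) := by
        rw [← pt_add, ← hsplit]
      have hb := hp1 t ht (f w) (hf w)
      have hab := (le_abs_self _).trans (abs_pt_le (fun i => s i / M) t (fun i => (hh i).1)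
        (fun i => he1 t ht i) (lvs P U s w - f w))
      rw [← hm] at hab
      rw [hpt, hβ]
      simp only [if_neg hVw]
      rw [e16]
      nlinarith [hb, hab, hfk, hmn, hms]
  have hst := hstar M Q _ hQ0 hs1M hsM
    (fun i => (by
      have h3 := hQd i
      exact hexp _ i h3)) (hQl.trans hsz) key
  rw [P.avg_add, P.avg_mul, MF.avg_dg P U hU, add_zero] at hst
  have hst2 : -κ ≤ P.avg β := by
    have h3 : M * (-κ) ≤ M * P.avg β := by linarith
    exact le_of_mul_le_mul_left h3 hM0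
  rw [hβ, P.avg_add, P.avg_add, P.avg_add, P.avg_mul, P.avg_mul, P.avg_mul, P.avg_const_arch]
    at hst2
  obtain ⟨mass, hmass⟩ : ∃ t : ℝ, t = P.avg (fun w => if V w then ‖lvs P U s w‖ else 0) :=
    ⟨_, rfl⟩
  rw [← hmass] at hst2 ⊢
  have h9 : κ * P.avg (fun w => ‖lvs P U s w‖) ≤ κ * B' :=
    mul_le_mul_of_nonneg_left (hB.trans hB'B) hκ.le
  have h10 : (κ + 8 * m) * P.avg (fun w => ‖lvs P U s w - f w‖) ≤ 2 * κ := by
    have h11 : 0 ≤ P.avg (fun w => ‖lvs P U s w - f w‖) := P.avg_nonneg fun w => norm_nonneg _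
    have h12 : P.avg (fun w => ‖lvs P U s w - f w‖) ≤ 1 := hδ.trans (min_le_left _ _)
    have h13 : P.avg (fun w => ‖lvs P U s w - f w‖) ≤ κ / (8 * m + 1) :=
      hδ.trans (min_le_right _ _)
    have h14 : κ * P.avg (fun w => ‖lvs P U s w - f w‖) ≤ κ * 1 :=
      mul_le_mul_of_nonneg_left h12 hκ.le
    rw [le_div_iff₀ (by linarith)] at h13
    nlinarith
  have h11 : 16 * m / s1 ≤ κ := by
    rw [div_le_iff₀ hs10]
    rw [div_le_iff₀ hκ] at hH
    linarith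
  have h13 : κ * (A' * r * mass) ≤ κ * (B' + 4) := by linarith
  have h14 : A' * r * mass ≤ B' + 4 := le_of_mul_le_mul_left h13 hκ
  have h16 : A' * r * ε = 4 * (B' + 1) := by
    rw [hA'def]
    field_simp
  have h17 : (A' * r) * mass ≤ (A' * r) * ε := by
    rw [h16]
    linarith
  exact le_of_mul_le_mul_left h17 (mul_pos hA' hr)

end Pool.Agent.AL
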