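import Pool.Agent.Lib.MP_c95b3b_ag_AL.DefsM
import Pool.Agent.Lib.MP_c95b3b_ag_AL.MG
import Pool.Agent.Lib.MP_c95b3b_ag_KP.Big

/-! Project AL (MP_c95b3b_ag), module MH: there is some mass. -/

namespace Pool.Agent.AL

open Pool.Agent.L3 Module MvPolynomial
open Pool.Agent.KP (supp vec cel key shift lvv Good pr1 pr0)

theorem big_ms {ι : Type} [Fintype ι] [DecidableEq ι] (F : Submodule ℝ (ι → ℝ × ℝ))
    (hF : ∀ I : Finset ι, finrank ℝ (F ⊓ supp I : Submodule ℝ _) ≤ I.card) (B : ℝ) :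
    ∃ δ H0 A ε0 : ℝ, 0 < δ ∧ 0 < ε0 ∧
      ∀ (K : Type) [Field K] (S : Subring K) (P : Places K S) (U : ι → K) (s : ι → ℝ) (s1 : ℝ)
        (f : P.Pl → ι → ℝ × ℝ),
        (∀ i, UU S (U i)) → H0 ≤ s1 → 1 ≤ s1 → (∀ i, s1 ≤ s i) → Star P U s s1 A ε0 →
        P.avg (fun w => ‖lvs P U s w‖) ≤ B → (∀ w, f w ∈ F) →
        P.avg (fun w => ‖lvs P U s w - f w‖) ≤ δ →
        P.avg (fun w => ‖lvs P U s w‖) < 1 := by
  obtain ⟨ρ', hρ'⟩ := KP.rado F 0 (fun I => by simpa using hF I)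
  obtain ⟨δ, H0, A, ε0, hδ, hε0, hmain⟩ := cover_ms F 0 ρ' hρ' (1 / 4) (1 / 4) B (by norm_num)
    (by norm_num)
  refine ⟨δ, H0, A, ε0, hδ, hε0, ?_⟩
  intro K _ S P U s s1 f hU hH0 hs1 hs hst hB hf hd
  classical
  have h1 := hmain K S P U s s1 f hU hH0 hs1 hs hst hB hf hd
  have h2 : P.avg (fun w => ‖lvs P U s w‖) ≤
      P.avg (fun w => (if ∀ v ∈ Good F 0, 1 / 4 * (‖lvs P U s w‖ + P.arch w) ≤
        ‖lvs P U s w - v‖ then ‖lvs P U s w‖ else 0) + 1 / 3 * P.arch w) := by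
    apply Places.avg_mono
    intro w
    have h3 : 0 ≤ 1 / 3 * P.arch w := mul_nonneg (by positivity) (P.arch_nonneg w)
    by_cases hc : ∀ v ∈ Good F 0, 1 / 4 * (‖lvs P U s w‖ + P.arch w) ≤ ‖lvs P U s w - v‖
    · rw [if_pos hc]
      linarith
    · rw [if_neg hc]
      push Not at hc
      obtain ⟨v, hv, hlt⟩ := hc
      rw [KP.Big.good_zero F hv, sub_zero] at hlt
      linarith
  rw [Places.avg_add, Places.avg_const_arch] at h2
  linarith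

end Pool.Agent.AL
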