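import Pool.Agent.Lib.MP_c95b3b_ag_AL.DefsM

/-! Project AL (MP_c95b3b_ag), module MJ: scaled vectors at one point. -/

namespace Pool.Agent.AL

open Pool.Agent.L3 Module MvPolynomial
open Pool.Agent.KP (supp vec cel key shift lvv Good pr1 pr0)

section
variable {k : ℕ} {c : ℝ} {Γ : Finset (Fin k → ℝ × ℝ)} {K : Type} [Field K] {U : Fin k → K}
  {E : Submodule ℝ (Fin k → ℝ × ℝ)}

private theorem MJ_scl_apply (τ : Fin k → ℝ) (v : Fin k → ℝ × ℝ) (i : Fin k) :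
    scl τ v i = τ i • v i := rfl

private theorem MJ_norm_scl_le (τ : Fin k → ℝ) (hτ : ∀ i, 1 ≤ τ i) (v : Fin k → ℝ × ℝ) :
    ‖scl (fun i => (τ i)⁻¹) v‖ ≤ ‖v‖ := by
  refine (pi_norm_le_iff_of_nonneg (norm_nonneg _)).2 fun i => ?_
  rw [MJ_scl_apply, norm_smul]
  have h0 : 0 ≤ (τ i)⁻¹ := inv_nonneg.mpr (zero_le_one.trans (hτ i))
  have h1 : (τ i)⁻¹ ≤ 1 := inv_le_one_of_one_le₀ (hτ i)
  rw [Real.norm_of_nonneg h0]
  exact (mul_le_of_le_one_left (norm_nonneg _) h1).trans (norm_le_pi_norm v i)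

theorem scaled_avg (d : PD k c Γ K U E) (τ : Fin k → ℝ) (hτ : ∀ i, 1 ≤ τ i) (B : ℝ) (hB : 0 ≤ B)
    (h : ∀ i, d.P.avg (fun w => ‖d.P.lv w (U i)‖) ≤ B * τ i) :
    d.P.avg (fun w => ‖scl (fun i => (τ i)⁻¹) (lvv d.P U w - d.g w)‖) ≤ k * B + c := by
  have key : ∀ w, ‖scl (fun i => (τ i)⁻¹) (lvv d.P U w - d.g w)‖ ≤
      ∑ i, (τ i)⁻¹ * ‖d.P.lv w (U i)‖ + ‖d.g w‖ := by
    intro w
    rw [map_sub]
    refine (norm_sub_le _ _).trans (add_le_add ?_ (MJ_norm_scl_le τ hτ _))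
    refine (Pool.Agent.KP.norm_le_sum _).trans
      (le_of_eq (Finset.sum_congr rfl fun i _ => ?_))
    rw [MJ_scl_apply, norm_smul,
      Real.norm_of_nonneg (inv_nonneg.mpr (zero_le_one.trans (hτ i)))]
    rfl
  refine (d.P.avg_mono key).trans ?_
  rw [d.P.avg_add, d.P.avg_sum]
  refine add_le_add ?_ d.hg
  have h2 : ∀ i ∈ (Finset.univ : Finset (Fin k)),
      d.P.avg (fun w => (τ i)⁻¹ * ‖d.P.lv w (U i)‖) ≤ B := by
    intro i _
    have hp : 0 < τ i := zero_lt_one.trans_le (hτ i)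
    rw [d.P.avg_mul]
    have h3 := mul_le_mul_of_nonneg_left (h i) (inv_nonneg.mpr hp.le)
    have h4 : (τ i)⁻¹ * (B * τ i) = B := by
      rw [mul_comm B, ← mul_assoc, inv_mul_cancel₀ hp.ne', one_mul]
    rwa [h4] at h3
  refine (Finset.sum_le_card_nsmul _ _ _ h2).trans (le_of_eq ?_)
  rw [Finset.card_univ, Fintype.card_fin, nsmul_eq_mul]

/-- the scaled logarithms of the coordinates `f i` are near the approximations -/
theorem scaled_near (d : PD k c Γ K U E) (τ : Fin k → ℝ) (hτ : ∀ i, 1 ≤ τ i) {ι : Type}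
    [Fintype ι] (f : ι → Fin k) (s1 : ℝ) (hs1 : 1 ≤ s1) (hf : ∀ i, s1 ≤ τ (f i))
    (e : d.P.Pl → Fin k → ℝ × ℝ) (ε V : ℝ) (hε : 0 ≤ ε)
    (he : ∀ w, ‖scl (fun i => (τ i)⁻¹) (lvv d.P U w - d.g w) - e w‖ ≤
      ε * ‖scl (fun i => (τ i)⁻¹) (lvv d.P U w - d.g w)‖)
    (hV : d.P.avg (fun w => ‖scl (fun i => (τ i)⁻¹) (lvv d.P U w - d.g w)‖) ≤ V) :
    d.P.avg (fun w => ‖lvs d.P (U ∘ f) (τ ∘ f) w - e w ∘ f‖) ≤ ε * V + c / s1 := by
  have hs0 : 0 < s1 := zero_lt_one.trans_le hs1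
  have key : ∀ w, ‖lvs d.P (U ∘ f) (τ ∘ f) w - e w ∘ f‖ ≤
      ε * ‖scl (fun i => (τ i)⁻¹) (lvv d.P U w - d.g w)‖ + s1⁻¹ * ‖d.g w‖ := by
    intro w
    have hnn : 0 ≤ ε * ‖scl (fun i => (τ i)⁻¹) (lvv d.P U w - d.g w)‖ + s1⁻¹ * ‖d.g w‖ :=
      add_nonneg (mul_nonneg hε (norm_nonneg _))
        (mul_nonneg (inv_nonneg.mpr hs0.le) (norm_nonneg _))
    refine (pi_norm_le_iff_of_nonneg hnn).2 fun i => ?_
    have hp : 0 < τ (f i) := hs0.trans_le (hf i)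
    have e1 : (lvs d.P (U ∘ f) (τ ∘ f) w - e w ∘ f) i =
        (scl (fun i => (τ i)⁻¹) (lvv d.P U w - d.g w) - e w) (f i) +
          (τ (f i))⁻¹ • d.g w (f i) := by
      have e2 : (lvs d.P (U ∘ f) (τ ∘ f) w - e w ∘ f) i =
          (τ (f i))⁻¹ • d.P.lv w (U (f i)) - e w (f i) := rfl
      have e3 : (scl (fun i => (τ i)⁻¹) (lvv d.P U w - d.g w) - e w) (f i) =
          (τ (f i))⁻¹ • (d.P.lv w (U (f i)) - d.g w (f i)) - e w (f i) := rfl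
      rw [e2, e3, smul_sub]
      abel
    rw [e1]
    refine (norm_add_le _ _).trans (add_le_add ?_ ?_)
    · exact (norm_le_pi_norm _ (f i)).trans (he w)
    · rw [norm_smul, Real.norm_of_nonneg (inv_nonneg.mpr hp.le)]
      exact mul_le_mul (inv_anti₀ hs0 (hf i)) (norm_le_pi_norm (d.g w) (f i))
        (norm_nonneg _) (inv_nonneg.mpr hs0.le)
  refine (d.P.avg_mono key).trans ?_
  rw [d.P.avg_add, d.P.avg_mul, d.P.avg_mul]
  refine add_le_add (mul_le_mul_of_nonneg_left hV hε) ?_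
  rw [div_eq_inv_mul]
  exact mul_le_mul_of_nonneg_left d.hg (inv_nonneg.mpr hs0.le)

end

end Pool.Agent.AL
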