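import Pool.Agent.Lib.MP_c95b3b_ag_AL.DefsM
import Pool.Agent.Lib.MP_c95b3b_ag_AL.MH
import Pool.Agent.Lib.MP_c95b3b_ag_AL.MJ
import Pool.Agent.Lib.MP_c95b3b_ag_KP.Quot

/-! Project AL (MP_c95b3b_ag), module MK: the limit is large enough. -/

namespace Pool.Agent.AL

open Pool.Agent.L3 Module MvPolynomial
open Pool.Agent.KP (supp vec cel key shift lvv Good pr1 pr0)

namespace MK

variable {ι K : Type} [Field K] {S : Subring K}

theorem avg_lvs_apply (P : Places K S) (U : ι → K) (s : ι → ℝ) (i : ι) (hs : 0 < s i) :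
    P.avg (fun w => ‖lvs P U s w i‖) = (s i)⁻¹ * P.avg (fun w => ‖P.lv w (U i)‖) := by
  rw [← P.avg_mul]
  congr 1
  funext w
  show ‖(s i)⁻¹ • P.lv w (U i)‖ = _
  rw [norm_smul, Real.norm_of_nonneg (inv_nonneg.mpr hs.le)]

theorem avg_lvs_le [Fintype ι] (P : Places K S) (U : ι → K) (s : ι → ℝ) (B : ℝ)
    (hs : ∀ i, 0 < s i) (h : ∀ i, P.avg (fun w => ‖P.lv w (U i)‖) ≤ B * s i) :
    P.avg (fun w => ‖lvs P U s w‖) ≤ Fintype.card ι * B := by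
  refine (P.avg_mono fun w => Pool.Agent.KP.norm_le_sum (lvs P U s w)).trans ?_
  rw [P.avg_sum]
  refine (Finset.sum_le_card_nsmul _ _ B fun i _ => ?_).trans ?_
  · rw [avg_lvs_apply P U s i (hs i)]
    have h1 := mul_le_mul_of_nonneg_left (h i) (inv_nonneg.mpr (hs i).le)
    have h2 : (s i)⁻¹ * (B * s i) = B := by
      have := (hs i).ne'
      field_simp
    rw [h2] at h1
    exact h1
  · simp

theorem one_le_avg_lvs [Fintype ι] (P : Places K S) (U : ι → K) (s : ι → ℝ) (i : ι)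
    (hs : 0 < s i) (h : s i ≤ P.avg (fun w => ‖P.lv w (U i)‖)) :
    1 ≤ P.avg (fun w => ‖lvs P U s w‖) := by
  have h1 : P.avg (fun w => ‖lvs P U s w i‖) ≤ P.avg (fun w => ‖lvs P U s w‖) :=
    P.avg_mono fun w => norm_le_pi_norm (lvs P U s w) i
  refine le_trans ?_ h1
  rw [avg_lvs_apply P U s i hs]
  have h2 := mul_le_mul_of_nonneg_left h (inv_nonneg.mpr hs.le)
  rwa [inv_mul_cancel₀ hs.ne'] at h2

end MK

theorem core_big_ms (k : ℕ) (c B : ℝ) (hB : 0 ≤ B) (hc : 0 ≤ c) (Γ : Finset (Fin k → ℝ × ℝ))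
    (C : Finset (Fin k)) (E0 : Submodule ℝ (Fin k → ℝ × ℝ)) (I : Finset {i // i ∈ C})
    (hne : I ≠ Finset.univ)
    (hI : ∀ J : Finset {i // i ∉ I}, finrank ℝ
        ((E0.map (pr1 C)).map (LinearMap.funLeft ℝ (ℝ × ℝ)
          (Subtype.val : {i // i ∉ I} → {i // i ∈ C})) ⊓ supp J :
          Submodule ℝ _) ≤ J.card) :
    ∃ ε H0 A ε0 : ℝ, 0 < ε ∧ 0 < ε0 ∧ ∀ (K : Type) [Field K] (U : Fin k → K)
      (E : Submodule ℝ (Fin k → ℝ × ℝ)) (d : PD k c Γ K U E) (τ : Fin k → ℝ) (s1 : ℝ),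
      H0 ≤ s1 → 1 ≤ s1 → (∀ i, 1 ≤ τ i) → (∀ i ∈ C, s1 ≤ τ i) →
      (∀ i, d.P.avg (fun w => ‖d.P.lv w (U i)‖) ≤ B * τ i) →
      (∀ i ∈ C, τ i ≤ d.P.avg (fun w => ‖d.P.lv w (U i)‖)) →
      (∀ v ∈ E.map (scl fun i => (τ i)⁻¹), ∃ e0 ∈ E0, ‖v - e0‖ ≤ ε * ‖v‖) →
      Star d.P (fun i : {i // i ∉ I} => U i.1.1) (fun i => τ i.1.1) s1 A ε0 → False := by
  obtain ⟨i0, hi0⟩ : ∃ i0, i0 ∉ I := by
    by_contra h
    push Not at h
    exact hne (Finset.eq_univ_iff_forall.2 h)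
  obtain ⟨δ, H0', A, ε0, hδ, hε0, hbig⟩ := big_ms _ hI (Fintype.card {i // i ∉ I} * B)
  have hV : (0 : ℝ) ≤ k * B + c := by positivity
  have hε : 0 < δ / (2 * (k * B + c + 1)) := by positivity
  refine ⟨δ / (2 * (k * B + c + 1)), max H0' (2 * c / δ), A, ε0, hε, hε0, ?_⟩
  intro K _ U E d τ s1 hH0 hs1 hτ hτC havg havg2 hE hStar
  have hf : ∀ i : {i // i ∉ I}, s1 ≤ τ i.1.1 := fun i => hτC _ i.1.2
  have hτ0 : ∀ i, 0 < τ i := fun i => lt_of_lt_of_le one_pos (hτ i)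
  have hex : ∀ w, ∃ e0 ∈ E0, ‖scl (fun i => (τ i)⁻¹) (lvv d.P U w - d.g w) - e0‖ ≤
      δ / (2 * (k * B + c + 1)) * ‖scl (fun i => (τ i)⁻¹) (lvv d.P U w - d.g w)‖ :=
    fun w => hE _ (Submodule.mem_map_of_mem (d.mem w))
  choose e he he' using hex
  have h1 := scaled_avg d τ hτ B hB havg
  have h2 := scaled_near d τ hτ (fun i : {i // i ∉ I} => i.1.1) s1 hs1 hf e
    (δ / (2 * (k * B + c + 1))) (k * B + c) hε.le he' h1
  have h3 : δ / (2 * (k * B + c + 1)) * (k * B + c) + c / s1 ≤ δ := by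
    have h31 : δ / (2 * (k * B + c + 1)) * (k * B + c) ≤ δ / 2 := by
      rw [div_mul_eq_mul_div, div_le_div_iff₀ (by positivity) (by norm_num)]
      nlinarith
    have h32 : c / s1 ≤ δ / 2 := by
      have h33 : 2 * c / δ ≤ s1 := (le_max_right _ _).trans hH0
      have hs0 : 0 < s1 := lt_of_lt_of_le one_pos hs1
      rw [div_le_iff₀ hδ] at h33
      rw [div_le_iff₀ hs0]
      linarith
    linarith
  have h5 := MK.avg_lvs_le d.P (U ∘ fun i : {i // i ∉ I} => i.1.1)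
    (τ ∘ fun i : {i // i ∉ I} => i.1.1) B (fun i => hτ0 _) (fun i => havg _)
  have h6 := hbig K d.S d.P (U ∘ fun i : {i // i ∉ I} => i.1.1)
    (τ ∘ fun i : {i // i ∉ I} => i.1.1) s1 (fun w => e w ∘ fun i : {i // i ∉ I} => i.1.1)
    (fun i => d.uu _) ((le_max_left _ _).trans hH0) hs1 hf hStar h5
    (fun w => ⟨pr1 C (e w), ⟨e w, he w, rfl⟩, rfl⟩) (h2.trans h3)
  have h7 := MK.one_le_avg_lvs d.P (U ∘ fun i : {i // i ∉ I} => i.1.1)
    (τ ∘ fun i : {i // i ∉ I} => i.1.1) ⟨i0, hi0⟩ (hτ0 _) (havg2 _ i0.2)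
  linarith

end Pool.Agent.AL
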