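import Pool.Agent.Lib.MP_c95b3b_ag_AL.DefsM
import Pool.Agent.Lib.MP_c95b3b_ag_AL.MG
import Pool.Agent.Lib.MP_c95b3b_ag_AL.MJ
import Pool.Agent.Lib.MP_c95b3b_ag_KP.Core

/-! Project AL (MP_c95b3b_ag), module ML: the bounded coordinates. -/

namespace Pool.Agent.AL

open Pool.Agent.L3 Module MvPolynomial
open Pool.Agent.KP (supp vec cel key shift lvv Good pr1 pr0)

namespace ML

section
variable {k : ℕ} {c : ℝ} {Γ : Finset (Fin k → ℝ × ℝ)} {K : Type} [Field K] {U : Fin k → K}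
  {E : Submodule ℝ (Fin k → ℝ × ℝ)}

/-- the scaled vectors -/
noncomputable def vv (d : PD k c Γ K U E) (τ : Fin k → ℝ) (w : d.P.Pl) : Fin k → ℝ × ℝ :=
  scl (fun i => (τ i)⁻¹) (lvv d.P U w - d.g w)

/-- the scaled logarithms of the coordinates in `C` -/
noncomputable def ls (d : PD k c Γ K U E) (τ : Fin k → ℝ) (C : Finset (Fin k)) (w : d.P.Pl) :
    {i // i ∈ C} → ℝ × ℝ :=
  lvs d.P (fun i : {i // i ∈ C} => U i.1) (fun i => τ i.1) w

theorem scl_apply (σ : Fin k → ℝ) (v : Fin k → ℝ × ℝ) (i : Fin k) :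
    scl σ v i = σ i • v i := rfl

theorem pr0_vv (d : PD k c Γ K U E) (τ : Fin k → ℝ) (C : Finset (Fin k))
    (hτ : ∀ i, i ∉ C → τ i = 1) (w : d.P.Pl) :
    pr0 C (vv d τ w) = pr0 C (lvv d.P U w) - pr0 C (d.g w) := by
  rw [← map_sub]
  funext i
  rw [KP.pr0_apply, KP.pr0_apply]
  simp only [Function.comp_apply, vv, scl_apply]
  rw [hτ i.1 i.2, inv_one, one_smul]

theorem ls_sub (d : PD k c Γ K U E) (τ : Fin k → ℝ) (C : Finset (Fin k)) (w : d.P.Pl) :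
    ls d τ C w - pr1 C (vv d τ w) = pr1 C (scl (fun i => (τ i)⁻¹) (d.g w)) := by
  funext i
  rw [Pi.sub_apply, KP.pr1_apply, KP.pr1_apply]
  simp only [Function.comp_apply, vv, scl_apply, ls, lvs, Pi.sub_apply, lvv, smul_sub]
  abel

theorem ls_sub_le (d : PD k c Γ K U E) (τ : Fin k → ℝ) (C : Finset (Fin k)) (s1 : ℝ)
    (hs1 : 1 ≤ s1) (hC : ∀ i ∈ C, s1 ≤ τ i) (w : d.P.Pl) :
    ‖ls d τ C w - pr1 C (vv d τ w)‖ ≤ ‖d.g w‖ / s1 := by
  have h0 : 0 < s1 := by linarith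
  rw [ls_sub]
  refine (pi_norm_le_iff_of_nonneg (by positivity)).2 fun i => ?_
  rw [KP.pr1_apply, Function.comp_apply, scl_apply, norm_smul]
  have h1 : s1 ≤ τ i.1 := hC i.1 i.2
  have h2 : 0 < τ i.1 := by linarith
  rw [Real.norm_of_nonneg (inv_nonneg.mpr h2.le), div_eq_inv_mul]
  exact mul_le_mul (inv_anti₀ h0 h1) (norm_le_pi_norm _ _) (norm_nonneg _)
    (inv_nonneg.mpr h0.le)

theorem ls_le (d : PD k c Γ K U E) (τ : Fin k → ℝ) (C : Finset (Fin k)) (s1 : ℝ)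
    (hs1 : 1 ≤ s1) (hC : ∀ i ∈ C, s1 ≤ τ i) (w : d.P.Pl) :
    ‖ls d τ C w‖ ≤ ‖vv d τ w‖ + ‖d.g w‖ / s1 := by
  have h1 := ls_sub_le d τ C s1 hs1 hC w
  have h2 : ls d τ C w = pr1 C (vv d τ w) + (ls d τ C w - pr1 C (vv d τ w)) := by abel
  rw [h2]
  exact (norm_add_le _ _).trans (add_le_add (KP.norm_pr1_le C _) h1)

theorem avg_ls (d : PD k c Γ K U E) (τ : Fin k → ℝ) (C : Finset (Fin k)) (B s1 : ℝ)
    (hs1 : 1 ≤ s1) (hC : ∀ i ∈ C, s1 ≤ τ i)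
    (h : ∀ i, d.P.avg (fun w => ‖d.P.lv w (U i)‖) ≤ B * τ i) :
    d.P.avg (fun w => ‖ls d τ C w‖) ≤ Fintype.card {i // i ∈ C} * B := by
  refine (d.P.avg_mono fun w => KP.norm_le_sum (ls d τ C w)).trans ?_
  rw [d.P.avg_sum]
  have h2 : ∀ i ∈ (Finset.univ : Finset {i // i ∈ C}), d.P.avg (fun w => ‖ls d τ C w i‖) ≤ B := by
    intro i _
    have h3 : s1 ≤ τ i.1 := hC i.1 i.2
    have h4 : 0 < τ i.1 := by linarith
    have h5 : ∀ w, ‖ls d τ C w i‖ = (τ i.1)⁻¹ * ‖d.P.lv w (U i.1)‖ := by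
      intro w
      simp only [ls, lvs]
      rw [norm_smul, Real.norm_of_nonneg (inv_nonneg.mpr h4.le)]
    simp only [h5]
    rw [d.P.avg_mul]
    have h6 := mul_le_mul_of_nonneg_left (h i.1) (inv_nonneg.mpr h4.le)
    have h7 : (τ i.1)⁻¹ * (B * τ i.1) = B := by
      field_simp
    rw [h7] at h6
    exact h6
  refine (Finset.sum_le_card_nsmul _ _ _ h2).trans (le_of_eq ?_)
  rw [Finset.card_univ, nsmul_eq_mul]

/-- one place -/
theorem embed (d : PD k c Γ K U E) (τ : Fin k → ℝ) (C : Finset (Fin k)) (s1 : ℝ)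
    (hs1 : 1 ≤ s1) (hC : ∀ i ∈ C, s1 ≤ τ i) (hC' : ∀ i, i ∉ C → τ i = 1)
    (E0 : Submodule ℝ (Fin k → ℝ × ℝ)) (x : ℕ) (CF : ℝ) (hCF : 0 ≤ CF)
    (hlift : ∀ e ∈ E0, ∃ e' ∈ E0, pr1 C e' = pr1 C e ∧ ‖e'‖ ≤ CF * ‖pr1 C e‖)
    (w : d.P.Pl) (e : Fin k → ℝ × ℝ) (he0 : e ∈ E0) (ε W G0 η : ℝ) (hε : 0 ≤ ε) (hη : 0 ≤ η)
    (he : ‖vv d τ w - e‖ ≤ ε * ‖vv d τ w‖) (hW : ‖vv d τ w‖ ≤ W) (hG : ‖d.g w‖ ≤ G0)
    (v : {i // i ∈ C} → ℝ × ℝ) (hv : v ∈ Good (E0.map (pr1 C)) x)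
    (hlt : ‖ls d τ C w - v‖ ≤ η * (‖ls d τ C w‖ + 1)) :
    ∃ (R : Finset {i // i ∈ C}) (ρ : {i // i ∈ C} → Fin 3),
      finrank ℝ (E0.map (pr1 C) ⊓ cel R ρ : Submodule ℝ _) ≤ x ∧ ∃ b ∈ KP.cut C E0 R ρ,
        ‖pr0 C (lvv d.P U w) - pr0 C (d.g w) - b‖ ≤
          ε * W + CF * (ε * W + G0 / s1 + η * (W + G0 / s1 + 1)) := by
  have hs0 : 0 < s1 := by linarith
  obtain ⟨R, ρ, hvm, hfin⟩ := hv
  refine ⟨R, ρ, hfin, ?_⟩
  obtain ⟨a, ha, hav⟩ := hvm.1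
  obtain ⟨e', he', h1, h2⟩ := hlift (e - a) (E0.sub_mem he0 ha)
  have h3 : pr1 C (e - e') = v := by
    rw [map_sub, h1, map_sub, sub_sub_cancel, hav]
  refine ⟨pr0 C (e - e'), ⟨e - e', ⟨E0.sub_mem he0 he', ?_⟩, rfl⟩, ?_⟩
  · change pr1 C (e - e') ∈ E0.map (pr1 C) ⊓ cel R ρ
    rw [h3]
    exact hvm
  have h4 : pr0 C (lvv d.P U w) - pr0 C (d.g w) - pr0 C (e - e') =
      pr0 C ((vv d τ w - e) + e') := by
    rw [← pr0_vv d τ C hC' w, ← map_sub]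
    congr 1
    abel
  rw [h4]
  refine (KP.norm_pr0_le C _).trans ((norm_add_le _ _).trans (add_le_add ?_ ?_))
  · exact he.trans (mul_le_mul_of_nonneg_left hW hε)
  · refine h2.trans (mul_le_mul_of_nonneg_left ?_ hCF)
    have hg1 : ‖d.g w‖ / s1 ≤ G0 / s1 := div_le_div_of_nonneg_right hG hs0.le
    have h5 := ls_sub_le d τ C s1 hs1 hC w
    have h6 := ls_le d τ C s1 hs1 hC w
    have h7 : pr1 C (e - a) = (ls d τ C w - v) - (ls d τ C w - pr1 C (vv d τ w)) -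
        pr1 C (vv d τ w - e) := by
      rw [map_sub, map_sub, hav]
      abel
    have h8 : ‖pr1 C (vv d τ w - e)‖ ≤ ε * W :=
      (KP.norm_pr1_le C _).trans (he.trans (mul_le_mul_of_nonneg_left hW hε))
    have h9 : η * (‖ls d τ C w‖ + 1) ≤ η * (W + G0 / s1 + 1) :=
      mul_le_mul_of_nonneg_left (by linarith) hη
    rw [h7]
    refine (norm_sub_le _ _).trans ?_
    have h10 := norm_sub_le (ls d τ C w - v) (ls d τ C w - pr1 C (vv d τ w))
    linarith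

open Classical in
/-- at least half of the embeddings are good -/
theorem half (d : PD k c Γ K U E) (τ : Fin k → ℝ) (C : Finset (Fin k))
    (F : Submodule ℝ ({i // i ∈ C} → ℝ × ℝ)) (x : ℕ) (η W : ℝ) (hη : 0 < η)
    (hW : 0 < W) (h1 : d.P.avg (fun w => ‖vv d τ w‖) ≤ W / 4)
    (h2 : d.P.avg (fun w => if ∀ v ∈ Good F x, η * (‖ls d τ C w‖ + d.P.arch w) ≤
      ‖ls d τ C w - v‖ then ‖ls d τ C w‖ else 0) ≤ η / 4) :
    ∃ s : Finset (Fin d.P.D), (d.P.D : ℝ) ≤ 2 * s.card ∧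
      ∀ i ∈ s, ‖vv d τ (.inl i)‖ ≤ W ∧ ∃ v ∈ Good F x,
        ‖ls d τ C (.inl i) - v‖ ≤ η * (‖ls d τ C (.inl i)‖ + 1) := by
  set bad : d.P.Pl → Prop := fun w => ∀ v ∈ Good F x, η * (‖ls d τ C w‖ + d.P.arch w) ≤
      ‖ls d τ C w - v‖ with hbad
  set s1 : Finset (Fin d.P.D) := Finset.univ.filter fun i => W ≤ ‖vv d τ (.inl i)‖ with hs1
  set s2 : Finset (Fin d.P.D) := Finset.univ.filter fun i => bad (.inl i) with hs2
  have c1 : 4 * (s1.card : ℝ) ≤ d.P.D :=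
    KP.markov d.P (fun w => ‖vv d τ w‖) (fun _ => norm_nonneg _) W hW h1 s1 fun i hi =>
      (Finset.mem_filter.mp hi).2
  have c2 : 4 * (s2.card : ℝ) ≤ d.P.D := by
    refine KP.markov d.P (fun w => if bad w then ‖ls d τ C w‖ else 0) (fun w => ?_) η hη h2 s2 ?_
    · split_ifs
      · exact norm_nonneg _
      · exact le_rfl
    · intro i hi
      have h3 : bad (.inl i) := (Finset.mem_filter.mp hi).2
      rw [if_pos h3]
      have h4 := h3 0 (KP.zero_mem_Good F x)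
      rw [sub_zero, d.P.arch_inl] at h4
      have h5 := norm_nonneg (ls d τ C (.inl i))
      nlinarith [mul_nonneg hη.le h5]
  refine ⟨(s1 ∪ s2)ᶜ, ?_, ?_⟩
  · have h3 : (((s1 ∪ s2)ᶜ).card : ℝ) = d.P.D - ((s1 ∪ s2).card : ℝ) := by
      rw [Finset.card_compl, Fintype.card_fin, Nat.cast_sub]
      exact (Finset.card_le_univ _).trans (by simp)
    have h4 : ((s1 ∪ s2).card : ℝ) ≤ s1.card + s2.card := by
      exact_mod_cast Finset.card_union_le s1 s2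
    rw [h3]
    linarith
  · intro i hi
    rw [Finset.mem_compl, Finset.mem_union, not_or] at hi
    refine ⟨?_, ?_⟩
    · by_contra h
      exact hi.1 (Finset.mem_filter.mpr ⟨Finset.mem_univ _, (not_le.mp h).le⟩)
    · by_contra h
      push Not at h
      refine hi.2 (Finset.mem_filter.mpr ⟨Finset.mem_univ _, fun v hv => ?_⟩)
      rw [d.P.arch_inl]
      exact (h v hv).le

end

end ML

theorem core_large_ms (k : ℕ) (c B : ℝ) (hB : 0 ≤ B) (hc : 0 ≤ c) (Γ : Finset (Fin k → ℝ × ℝ))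
    (C : Finset (Fin k)) (E0 : Submodule ℝ (Fin k → ℝ × ℝ)) (hE0 : finrank ℝ E0 < k)
    (h1 : Fintype.card {i // i ∈ C} ≤ finrank ℝ (E0.map (pr1 C)))
    (h2 : ∀ I' : Finset {i // i ∈ C}, finrank ℝ (E0.map (pr1 C) ⊓ supp I' : Submodule ℝ _) ≤
      I'.card + (finrank ℝ (E0.map (pr1 C)) - Fintype.card {i // i ∈ C})) :
    ∃ ε H0 A ε0 : ℝ, 0 < ε ∧ 0 < ε0 ∧ ∃ 𝒬 : Finset (MvPolynomial {i // i ∉ C} ℤ),
      (∀ Q ∈ 𝒬, Q ≠ 0) ∧ ∀ (K : Type) [Field K] (U : Fin k → K)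
      (E : Submodule ℝ (Fin k → ℝ × ℝ)) (d : PD k c Γ K U E) (τ : Fin k → ℝ) (s1 : ℝ),
      H0 ≤ s1 → 1 ≤ s1 → (∀ i ∈ C, s1 ≤ τ i) → (∀ i, i ∉ C → τ i = 1) →
      (∀ i, d.P.avg (fun w => ‖d.P.lv w (U i)‖) ≤ B * τ i) →
      (∀ v ∈ E.map (scl fun i => (τ i)⁻¹), ∃ e0 ∈ E0, ‖v - e0‖ ≤ ε * ‖v‖) →
      Star d.P (fun i : {i // i ∈ C} => U i.1) (fun i => τ i.1) s1 A ε0 →
      ∃ Q ∈ 𝒬, aeval (fun i : {i // i ∉ C} => U i.1) Q = 0 := by
  classical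
  set F := E0.map (pr1 C) with hF
  set x := finrank ℝ F - Fintype.card {i // i ∈ C} with hx
  obtain ⟨ρ', hρ'⟩ := KP.rado F x h2
  have hcard : Fintype.card {i // i ∈ C} + Fintype.card {i // i ∉ C} = k := by
    rw [← Fintype.card_sum, Fintype.card_congr (Equiv.sumCompl (fun i => i ∈ C)),
      Fintype.card_fin]
  have hFE : finrank ℝ F ≤ finrank ℝ E0 := Submodule.finrank_map_le _ _
  have hcut : ∀ (R : Finset {i // i ∈ C}) (ρ : {i // i ∈ C} → Fin 3),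
      finrank ℝ (F ⊓ cel R ρ : Submodule ℝ _) ≤ x →
      finrank ℝ (KP.cut C E0 R ρ) < Fintype.card {i // i ∉ C} := by
    intro R ρ h
    have h1 := KP.dim_bound (pr0 C) (pr1 C) E0 (F ⊓ cel R ρ) inf_le_left
    have h2 : finrank ℝ (KP.cut C E0 R ρ) = finrank ℝ
      ((E0 ⊓ (F ⊓ cel R ρ).comap (pr1 C)).map (pr0 C) : Submodule ℝ _) := rfl
    rw [← h2, ← hF] at h1
    omega
  have hpos : 0 < Fintype.card {i // i ∉ C} := by omega
  have : Nonempty {i // i ∉ C} := Fintype.card_pos_iff.mp hpos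
  -- Theorem T
  let T : Type := ↥Γ × Finset {i // i ∈ C} × ({i // i ∈ C} → Fin 3)
  obtain ⟨ηT, hηT, 𝒬T, h𝒬T, hT⟩ := KP.T_main' (ι := {i // i ∉ C}) (Fintype.card T)
    (Fintype.card {i // i ∉ C} * B)
  obtain ⟨CF, hCF1, hlift⟩ := KP.exists_lift (pr1 C) E0
  set V : ℝ := k * B + c with hV
  have hV0 : 0 ≤ V := by positivity
  set W : ℝ := 4 * (V + 1) with hW
  have hW0 : 0 < W := by positivity
  set G0 : ℝ := ∑ γ ∈ Γ, ‖γ‖ with hG0
  have hG0' : 0 ≤ G0 := Finset.sum_nonneg fun _ _ => norm_nonneg _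
  have hCF0 : 0 < CF := lt_of_lt_of_le one_pos hCF1
  set η : ℝ := ηT / (4 * CF * (W + 2)) with hη
  have hη0 : 0 < η := by positivity
  obtain ⟨δ, H0, A, ε0, hδ, hε0, hcov⟩ := cover_ms F x ρ' hρ' η (η / 4)
    (Fintype.card {i // i ∈ C} * B) hη0 (by positivity)
  set ε : ℝ := min (δ / (2 * (V + 1))) (ηT / (4 * CF * (W + 1))) with hε
  have hε1 : 0 < ε := lt_min (by positivity) (by positivity)
  refine ⟨ε, max (max 1 G0) (max (max H0 (4 * CF * G0 / ηT)) (2 * c / δ)), A, ε0, hε1, hε0,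
    𝒬T, h𝒬T, ?_⟩
  intro K _ U E d τ s1 hH hs1 hC hC' hav hlim hstar
  have hHb : G0 ≤ s1 := ((le_max_right _ _).trans (le_max_left _ _)).trans hH
  have hHc : H0 ≤ s1 :=
    (((le_max_left _ _).trans (le_max_left _ _)).trans (le_max_right _ _)).trans hH
  have hHd : 4 * CF * G0 / ηT ≤ s1 :=
    (((le_max_right _ _).trans (le_max_left _ _)).trans (le_max_right _ _)).trans hH
  have hHe : 2 * c / δ ≤ s1 := ((le_max_right _ _).trans (le_max_right _ _)).trans hH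
  have hs0 : 0 < s1 := by linarith
  have hτ1 : ∀ i, 1 ≤ τ i := by
    intro i
    by_cases hi : i ∈ C
    · exact hs1.trans (hC i hi)
    · exact (hC' i hi).ge
  -- the approximations
  have hmem : ∀ w, ML.vv d τ w ∈ E.map (scl fun i => (τ i)⁻¹) := fun w =>
    Submodule.mem_map_of_mem (d.mem w)
  choose e he0 he using fun w => hlim _ (hmem w)
  have hVn : d.P.avg (fun w => ‖ML.vv d τ w‖) ≤ V := scaled_avg d τ hτ1 B hB hav
  have hnear : d.P.avg (fun w => ‖ML.ls d τ C w - pr1 C (e w)‖) ≤ δ := by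
    refine (scaled_near d τ hτ1 (Subtype.val : {i // i ∈ C} → Fin k) s1 hs1
      (fun i => hC i.1 i.2) e ε V hε1.le he hVn).trans ?_
    have h3 : ε * V ≤ δ / 2 := by
      have h4 : ε * V ≤ δ / (2 * (V + 1)) * V := mul_le_mul_of_nonneg_right (min_le_left _ _) hV0
      have h5 : 2 * (δ / (2 * (V + 1)) * V) = δ * (V / (V + 1)) := by
        field_simp
      have h6 : V / (V + 1) ≤ 1 := by
        rw [div_le_one (by positivity)]
        linarith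
      nlinarith
    have h7 : c / s1 ≤ δ / 2 := by
      rw [div_le_iff₀ hδ] at hHe
      rw [div_le_iff₀ hs0]
      linarith
    linarith
  have hcovn := hcov K d.S d.P (fun i : {i // i ∈ C} => U i.1) (fun i => τ i.1) s1
    (fun w => pr1 C (e w)) (fun i => d.uu _) hHc hs1 (fun i => hC i.1 i.2) hstar
    (ML.avg_ls d τ C B s1 hs1 hC hav) (fun w => Submodule.mem_map_of_mem (he0 w)) hnear
  obtain ⟨s, hs, hsg⟩ := ML.half d τ C F x η W hη0 hW0 (hVn.trans (by rw [hW]; linarith)) hcovn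
  -- conclusion
  let eq := Fintype.equivFin T
  let Ef : T → Submodule ℝ ({i // i ∉ C} → ℝ × ℝ) := fun t =>
    if finrank ℝ (F ⊓ cel t.2.1 t.2.2 : Submodule ℝ _) ≤ x then KP.cut C E0 t.2.1 t.2.2 else ⊥
  let pf : T → {i // i ∉ C} → ℝ × ℝ := fun t => pr0 C t.1.1
  have hfin := hT K d.S d.P (fun i : {i // i ∉ C} => U i.1)
    (fun i => d.uu _) (KP.avg_lvv_le d.P (fun i : {i // i ∉ C} => U i.1)
      B (fun i => (hav i.1).trans (by rw [hC' i.1 i.2, mul_one])))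
    (fun l => pf (eq.symm l)) (fun l => Ef (eq.symm l)) s ?_ hs ?_
  · exact hfin
  · intro l
    by_cases h : finrank ℝ (F ⊓ cel (eq.symm l).2.1 (eq.symm l).2.2 : Submodule ℝ _) ≤ x
    · have h1 : Ef (eq.symm l) = KP.cut C E0 (eq.symm l).2.1 (eq.symm l).2.2 := if_pos h
      rw [h1]
      exact hcut _ _ h
    · have h1 : Ef (eq.symm l) = ⊥ := if_neg h
      rw [h1, finrank_bot]
      exact hpos
  · intro i hi
    obtain ⟨h1, v, hv, h2⟩ := hsg i hi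
    have hgi := d.hgΓ i
    have hgn : ‖d.g (.inl i)‖ ≤ G0 :=
      Finset.single_le_sum (f := fun γ : Fin k → ℝ × ℝ => ‖γ‖) (fun _ _ => norm_nonneg _) hgi
    obtain ⟨R, ρ, hR, b, hb, h3⟩ := ML.embed d τ C s1 hs1 hC hC' E0 x CF hCF0.le hlift (.inl i)
      (e (.inl i)) (he0 _) ε W G0 η hε1.le hη0.le (he _) h1 hgn v hv h2
    refine ⟨eq ⟨⟨d.g (.inl i), hgi⟩, R, ρ⟩, b, ?_, ?_⟩
    · have h4 : Ef (eq.symm (eq ⟨⟨d.g (.inl i), hgi⟩, R, ρ⟩)) = KP.cut C E0 R ρ := by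
        rw [Equiv.symm_apply_apply]
        exact if_pos hR
      rw [h4]
      exact hb
    · have h4 : pf (eq.symm (eq ⟨⟨d.g (.inl i), hgi⟩, R, ρ⟩)) = pr0 C (d.g (.inl i)) := by
        rw [Equiv.symm_apply_apply]
      rw [h4]
      refine h3.trans ?_
      have hG1 : G0 / s1 ≤ 1 := by
        rw [div_le_one hs0]
        exact hHb
      have hG2 : CF * (G0 / s1) ≤ ηT / 4 := by
        rw [div_le_iff₀ hηT] at hHd
        rw [mul_div_assoc', div_le_div_iff₀ hs0 (by norm_num)]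
        linarith
      have hε2 : CF * (ε * (W + 1)) ≤ ηT / 4 := by
        have h4 : CF * (ε * (W + 1)) ≤ CF * (ηT / (4 * CF * (W + 1)) * (W + 1)) := by
          gcongr
          exact min_le_right _ _
        refine h4.trans (le_of_eq ?_)
        field_simp
      have hη1 : CF * (η * (W + 2)) = ηT / 4 := by
        rw [hη]
        field_simp
      have h5 : CF * (η * (W + G0 / s1 + 1)) ≤ CF * (η * (W + 2)) :=
        mul_le_mul_of_nonneg_left (mul_le_mul_of_nonneg_left (by linarith) hη0.le) hCF0.le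
      have h6 : ε * W ≤ CF * (ε * (W + 1)) := by
        have h7 : ε * W ≤ ε * (W + 1) := by nlinarith
        have h8 : (0:ℝ) ≤ ε * (W + 1) := by positivity
        nlinarith
      have h9 : CF * (ε * W) ≤ CF * (ε * (W + 1)) :=
        mul_le_mul_of_nonneg_left (mul_le_mul_of_nonneg_left (by linarith) hε1.le) hCF0.le
      nlinarith

end Pool.Agent.AL
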