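import Pool.Agent.Lib.MP_c95b3b_ag_AL.DefsN

/-! Project AL (MP_c95b3b_ag), module NJ: transfer. -/

namespace Pool.Agent.AL

open Pool.Agent.L3 Pool.Agent.KP Module MvPolynomial

namespace NJ

theorem aeval_gm (𝒰 : Ultrafilter ℕ) {κ : Type} (K : ℕ → Type) [∀ n, Field (K n)]
    (e : ∀ n, K n →+* ℂ) (x : ∀ n, κ → K n) (r : MvPolynomial κ ℤ) :
    aeval (fun i => gm 𝒰 fun n => e n (x n i)) r = gm 𝒰 fun n => e n (aeval (x n) r) := by
  induction r using MvPolynomial.induction_on with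
  | C a =>
    simp only [eq_intCast, map_intCast]
    rfl
  | add p q hp hq =>
    simp only [map_add, hp, hq]
    rfl
  | mul_X p i hp =>
    simp only [map_mul, hp, aeval_X]
    rfl

theorem gm_eq_zero (𝒰 : Ultrafilter ℕ) (y : ℕ → ℂ) :
    gm 𝒰 y = 0 ↔ ∀ᶠ n in (𝒰 : Filter ℕ), y n = 0 := by
  have h : (0 : Filter.Germ (𝒰 : Filter ℕ) ℂ) = ((fun _ => (0 : ℂ)) : ℕ → ℂ) := rfl
  rw [h]
  unfold gm
  rw [Filter.Germ.coe_eq]
  rfl

end NJ

theorem transfer (𝒰 : Ultrafilter ℕ) {κ : Type} (K : ℕ → Type) [∀ n, Field (K n)]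
    (e : ∀ n, K n →+* ℂ) (x : ∀ n, κ → K n) (r : MvPolynomial κ ℤ) :
    aeval (fun i => gm 𝒰 fun n => e n (x n i)) r = 0 ↔
      ∀ᶠ n in (𝒰 : Filter ℕ), aeval (x n) r = 0 := by
  rw [NJ.aeval_gm, NJ.gm_eq_zero]
  apply Filter.eventually_congr
  filter_upwards with n
  exact map_eq_zero (e n)

namespace NJ

section universal

variable {ι Λ : Type} [Fintype ι] [DecidableEq ι] [Fintype Λ] [DecidableEq Λ] {d : ℕ}

/-- the universal ring -/
abbrev UR (ι Λ : Type) (d : ℕ) : Type := MvPolynomial (Cf ι Λ d ⊕ ι) ℤ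

/-- the universal coefficients -/
noncomputable def uc (α : Cf ι Λ d) : UR ι Λ d := X (Sum.inl α)

/-- the universal point -/
noncomputable def up (i : ι) : UR ι Λ d := X (Sum.inr i)

/-- specialisation -/
noncomputable def ev {K : Type} [Field K] (c : Cf ι Λ d → K) (P : ι → K) : UR ι Λ d →ₐ[ℤ] K :=
  aeval (Sum.elim c P)

theorem ev_uc {K : Type} [Field K] (c : Cf ι Λ d → K) (P : ι → K) (α : Cf ι Λ d) :
    ev c P (uc α) = c α := by
  simp [ev, uc]

theorem ev_up {K : Type} [Field K] (c : Cf ι Λ d → K) (P : ι → K) (i : ι) :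
    ev c P (up i) = P i := by
  simp [ev, up]

/-- polynomials in the coefficients -/
noncomputable def inc : MvPolynomial (Cf ι Λ d) ℤ →ₐ[ℤ] UR ι Λ d := rename Sum.inl

theorem ev_inc {K : Type} [Field K] (c : Cf ι Λ d → K) (P : ι → K)
    (r : MvPolynomial (Cf ι Λ d) ℤ) : ev c P (inc r) = aeval c r := by
  unfold ev inc
  rw [aeval_rename]
  rfl

noncomputable def ugv (b : Cf ι Λ d → UR ι Λ d) (l : Λ) : UR ι Λ d :=
  ∑ e : ι → Fin (d + 1), b (l, e) * ∏ i, up i ^ (e i : ℕ)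

theorem ev_ugv {K : Type} [Field K] (c : Cf ι Λ d → K) (P : ι → K) (b : Cf ι Λ d → UR ι Λ d)
    (l : Λ) : ev c P (ugv b l) = gv (fun α => ev c P (b α)) P l := by
  unfold ugv gv
  simp only [map_sum, map_mul, map_prod, map_pow, ev_up]

noncomputable def ugG (l : Λ) (i : ι) : UR ι Λ d :=
  ∑ e : ι → Fin (d + 1), uc (l, e) *
    (((e i : ℕ) : UR ι Λ d) * up i ^ ((e i : ℕ) - 1) *
      ∏ j ∈ Finset.univ.erase i, up j ^ (e j : ℕ))

theorem ev_ugG {K : Type} [Field K] (c : Cf ι Λ d → K) (P : ι → K) (l : Λ) (i : ι) :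
    ev c P (ugG l i) = gG c P l i := by
  unfold ugG gG
  simp only [map_sum, map_mul, map_prod, map_pow, ev_up, ev_uc, map_natCast]

noncomputable def ugy (ε : ι → Bool) (i : ι) : UR ι Λ d := if ε i then up i else 1 - up i

theorem ev_ugy {K : Type} [Field K] (c : Cf ι Λ d → K) (P : ι → K) (ε : ι → Bool) (i : ι) :
    ev c P (ugy ε i) = gy ε P i := by
  unfold ugy gy
  by_cases h : ε i
  · simp [h, ev_up]
  · simp [h, ev_up]

noncomputable def ugD (ε : ι → Bool) (e : Λ → ι) : UR ι Λ d :=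
  (Matrix.of fun l t => ugy ε (e t) * ugG l (e t)).det

theorem ev_ugD {K : Type} [Field K] (c : Cf ι Λ d → K) (P : ι → K) (ε : ι → Bool) (e : Λ → ι) :
    ev c P (ugD ε e) = gD ε c P e := by
  unfold ugD gD
  rw [AlgHom.map_det]
  congr 1
  ext l t
  simp only [AlgHom.mapMatrix_apply, Matrix.map_apply, Matrix.of_apply, map_mul, ev_ugy, ev_ugG]

noncomputable def ugT (ε : ι → Bool) (a : Λ → UR ι Λ d) (e : Λ → ι) (t : Λ) : UR ι Λ d :=
  ((Matrix.of fun l t => ugy ε (e t) * ugG l (e t)).updateCol t a).det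

theorem ev_ugT {K : Type} [Field K] (c : Cf ι Λ d → K) (P : ι → K) (ε : ι → Bool)
    (a : Λ → UR ι Λ d) (e : Λ → ι) (t : Λ) :
    ev c P (ugT ε a e t) = gT ε c P (fun l => ev c P (a l)) e t := by
  unfold ugT gT
  rw [AlgHom.map_det]
  congr 1
  ext l s
  simp only [AlgHom.mapMatrix_apply, Matrix.map_apply, Matrix.updateCol_apply, Matrix.of_apply]
  by_cases h : s = t
  · simp [h]
  · simp [h, ev_ugy, ev_ugG]

noncomputable def uga (b : Cf ι Λ d → MvPolynomial (Cf ι Λ d) ℤ) (l : Λ) : UR ι Λ d :=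
  - ugv (fun α => inc (b α)) l

theorem ev_uga {K : Type} [Field K] (c : Cf ι Λ d → K) (P : ι → K)
    (b : Cf ι Λ d → MvPolynomial (Cf ι Λ d) ℤ) (l : Λ) :
    ev c P (uga b l) = ga (fun α => aeval c (b α)) P l := by
  unfold uga ga
  rw [map_neg, ev_ugv]
  simp only [ev_inc]

noncomputable def ugQ (t : UR ι Λ d) (D : (Λ → ι) → UR ι Λ d)
    (Q : MvPolynomial (Option (Λ → ι)) (MvPolynomial (Cf ι Λ d) ℤ)) : UR ι Λ d :=
  eval₂ (inc : MvPolynomial (Cf ι Λ d) ℤ →ₐ[ℤ] UR ι Λ d).toRingHom (fun o => o.elim t D) Q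

theorem ev_ugQ {K : Type} [Field K] (c : Cf ι Λ d → K) (P : ι → K) (t : UR ι Λ d)
    (D : (Λ → ι) → UR ι Λ d)
    (Q : MvPolynomial (Option (Λ → ι)) (MvPolynomial (Cf ι Λ d) ℤ)) :
    ev c P (ugQ t D Q) = gQ c (ev c P t) (fun e => ev c P (D e)) Q := by
  unfold ugQ gQ
  have h := eval₂_comp_left (ev c P : UR ι Λ d →ₐ[ℤ] K).toRingHom
    (inc : MvPolynomial (Cf ι Λ d) ℤ →ₐ[ℤ] UR ι Λ d).toRingHom (fun o => o.elim t D) Q
  have h1 : ((ev c P : UR ι Λ d →ₐ[ℤ] K).toRingHom.comp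
      (inc : MvPolynomial (Cf ι Λ d) ℤ →ₐ[ℤ] UR ι Λ d).toRingHom) =
      (aeval c : MvPolynomial (Cf ι Λ d) ℤ →ₐ[ℤ] K).toRingHom := by
    apply RingHom.ext
    intro r
    exact ev_inc c P r
  have h2 : ((ev c P : UR ι Λ d →ₐ[ℤ] K).toRingHom ∘ fun o : Option (Λ → ι) => o.elim t D) =
      (fun o : Option (Λ → ι) => o.elim (ev c P t) (fun e => ev c P (D e))) := by
    funext o
    cases o <;> rfl
  rw [h1, h2] at h
  exact h

end universal

theorem transfer_ev {ι Λ : Type} [Fintype ι] [DecidableEq ι] [Fintype Λ] [DecidableEq Λ] {d : ℕ}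
    (𝒰 : Ultrafilter ℕ) (K : ℕ → Type) [∀ n, Field (K n)] (e : ∀ n, K n →+* ℂ)
    (P : ∀ n, ι → K n) (c : ∀ n, Cf ι Λ d → K n) (r : UR ι Λ d) :
    ev (fun α => gm 𝒰 fun n => e n (c n α)) (fun i => gm 𝒰 fun n => e n (P n i)) r = 0 ↔
      ∀ᶠ n in (𝒰 : Filter ℕ), ev (c n) (P n) r = 0 := by
  have h := transfer 𝒰 K e (fun n => Sum.elim (c n) (P n)) r
  have h1 : (fun i => gm 𝒰 fun n => e n (Sum.elim (c n) (P n) i)) =
      Sum.elim (fun α => gm 𝒰 fun n => e n (c n α)) (fun i => gm 𝒰 fun n => e n (P n i)) := by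
    funext i
    cases i <;> rfl
  rw [h1] at h
  exact h

theorem transfer_ne {ι Λ : Type} [Fintype ι] [DecidableEq ι] [Fintype Λ] [DecidableEq Λ] {d : ℕ}
    (𝒰 : Ultrafilter ℕ) (K : ℕ → Type) [∀ n, Field (K n)] (e : ∀ n, K n →+* ℂ)
    (P : ∀ n, ι → K n) (c : ∀ n, Cf ι Λ d → K n) (r : UR ι Λ d)
    (h : ev (fun α => gm 𝒰 fun n => e n (c n α)) (fun i => gm 𝒰 fun n => e n (P n i)) r ≠ 0) :
    ∀ᶠ n in (𝒰 : Filter ℕ), ev (c n) (P n) r ≠ 0 := by
  have h1 : ¬ ∀ᶠ n in (𝒰 : Filter ℕ), ev (c n) (P n) r = 0 :=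
    fun h2 => h ((transfer_ev 𝒰 K e P c r).2 h2)
  exact Ultrafilter.eventually_not.2 h1

/-- a spanning family contains a basis, expressed by a determinant -/
theorem exists_det {Λ : Type} [Fintype Λ] [DecidableEq Λ] {m : ℕ} {K : Type} [Field K]
    (a : Fin m → Λ → K) (h : ∀ v : Λ → K, ∃ x : Fin m → K, ∀ l, v l = ∑ k, x k * a k l) :
    ∃ ks : Λ → Fin m, (Matrix.of fun t l => a (ks t) l).det ≠ 0 := by
  choose x hx using h
  have h1 : (Matrix.detRowAlternating : (Λ → K) [⋀^Λ]→ₗ[K] K)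
      (fun t => ∑ k, x (Pi.single t 1) k • a k) = 1 := by
    have h2 : (fun t : Λ => ∑ k, x (Pi.single t 1) k • a k) = (1 : Matrix Λ Λ K) := by
      ext t l
      rw [Finset.sum_apply]
      have h3 := hx (Pi.single t 1) l
      simp only [Pi.smul_apply, smul_eq_mul]
      rw [← h3, Matrix.one_apply, Pi.single_apply]
      by_cases h4 : t = l
      · simp [h4]
      · simp [h4, Ne.symm h4]
    rw [h2]
    exact Matrix.det_one
  by_contra hcon
  push Not at hcon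
  have h3 : (Matrix.detRowAlternating : (Λ → K) [⋀^Λ]→ₗ[K] K).toMultilinearMap
      (fun t => ∑ k, x (Pi.single t 1) k • a k) = 0 := by
    rw [MultilinearMap.map_sum]
    apply Finset.sum_eq_zero
    intro r _
    rw [MultilinearMap.map_smul_univ]
    have h4 := hcon r
    have h5 : (Matrix.detRowAlternating : (Λ → K) [⋀^Λ]→ₗ[K] K).toMultilinearMap
        (fun i => a (r i)) = 0 := h4
    rw [h5, smul_zero]
  have h6 : (1 : K) = 0 := by
    rw [← h1]
    exact h3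
  exact one_ne_zero h6

theorem span_of_det {Λ : Type} [Fintype Λ] [DecidableEq Λ] {m : ℕ} {K : Type} [Field K]
    (a : Fin m → Λ → K) (ks : Λ → Fin m) (h : (Matrix.of fun t l => a (ks t) l).det ≠ 0)
    (v : Λ → K) : ∃ x : Fin m → K, ∀ l, v l = ∑ k, x k * a k l := by
  set M : Matrix Λ Λ K := Matrix.of fun t l => a (ks t) l with hM
  refine ⟨fun k => ∑ t, if ks t = k then Matrix.vecMul v M⁻¹ t else 0, ?_⟩
  intro l
  have hu : IsUnit M.det := isUnit_iff_ne_zero.2 h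
  have h1 : Matrix.vecMul (Matrix.vecMul v M⁻¹) M = v := by
    rw [Matrix.vecMul_vecMul, Matrix.nonsing_inv_mul M hu, Matrix.vecMul_one]
  have h2 : v l = ∑ t, Matrix.vecMul v M⁻¹ t * a (ks t) l := by
    conv_lhs => rw [← h1]
    rfl
  rw [h2]
  simp only [Finset.sum_mul]
  rw [Finset.sum_comm]
  apply Finset.sum_congr rfl
  intro t _
  rw [Finset.sum_eq_single (ks t)]
  · simp
  · intro k _ hk
    rw [if_neg (Ne.symm hk), zero_mul]
  · intro h3
    exact absurd (Finset.mem_univ _) h3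

end NJ

theorem transfer_cert {ι Λ : Type} [Fintype ι] [DecidableEq ι] [Fintype Λ] [DecidableEq Λ] {d : ℕ}
    (𝒰 : Ultrafilter ℕ) (K : ℕ → Type) [∀ n, Field (K n)] (e : ∀ n, K n →+* ℂ)
    (P : ∀ n, ι → K n) (c : ∀ n, Cf ι Λ d → K n) (Z : Cert ι Λ d)
    (h : Z.Ok (fun α => gm 𝒰 fun n => e n (c n α)) (fun i => gm 𝒰 fun n => e n (P n i))) :
    ∀ᶠ n in (𝒰 : Filter ℕ), Z.Ok (c n) (P n) := by
  classical
  -- span
  obtain ⟨ks, hks⟩ := NJ.exists_det _ h.span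
  have hdet : ∀ {F : Type} [Field F] (c' : Cf ι Λ d → F) (P' : ι → F),
      (Matrix.of fun t l => ga (fun α => aeval c' (Z.b (ks t) α)) P' l).det =
        NJ.ev c' P' (Matrix.of fun t l => NJ.uga (Z.b (ks t)) l).det := by
    intro F _ c' P'
    rw [AlgHom.map_det]
    congr 1
    ext t l
    simp only [AlgHom.mapMatrix_apply, Matrix.map_apply, Matrix.of_apply, NJ.ev_uga]
  have h1 : ∀ᶠ n in (𝒰 : Filter ℕ), (Matrix.of fun t l =>
      ga (fun α => aeval (c n) (Z.b (ks t) α)) (P n) l).det ≠ 0 := by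
    rw [hdet] at hks
    filter_upwards [NJ.transfer_ne 𝒰 K e P c _ hks] with n hn
    rw [hdet]
    exact hn
  -- full
  have h2 : ∀ᶠ n in (𝒰 : Filter ℕ), ∀ ε, ∃ e, gD ε (c n) (P n) e ≠ 0 := by
    rw [Filter.eventually_all]
    intro ε
    obtain ⟨e', he'⟩ := h.full ε
    rw [← NJ.ev_ugD] at he'
    filter_upwards [NJ.transfer_ne 𝒰 K e P c _ he'] with n hn
    refine ⟨e', ?_⟩
    rw [← NJ.ev_ugD]
    exact hn
  -- ne
  have h3 : ∀ᶠ n in (𝒰 : Filter ℕ), ∀ k ε e t, aeval (c n) (Z.E k ε e t) ≠ 0 := by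
    rw [Filter.eventually_all]
    intro k
    rw [Filter.eventually_all]
    intro ε
    rw [Filter.eventually_all]
    intro e'
    rw [Filter.eventually_all]
    intro t
    have h4 := h.ne k ε e' t
    rw [← NJ.ev_inc _ (fun i => gm 𝒰 fun n => e n (P n i))] at h4
    filter_upwards [NJ.transfer_ne 𝒰 K e P c _ h4] with n hn
    rw [← NJ.ev_inc _ (P n)]
    exact hn
  -- cert
  have h5 : ∀ᶠ n in (𝒰 : Filter ℕ), ∀ k ε e t,
      gT ε (c n) (P n) (ga (fun α => aeval (c n) (Z.b k α)) (P n)) e t ≠ 0 →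
      aeval (c n) (Z.E k ε e t) *
        gT ε (c n) (P n) (ga (fun α => aeval (c n) (Z.b k α)) (P n)) e t ^ (Z.N + 1) =
      ∑ e', gD ε (c n) (P n) e' *
        gQ (c n) (gT ε (c n) (P n) (ga (fun α => aeval (c n) (Z.b k α)) (P n)) e t)
        (gD ε (c n) (P n)) (Z.Q k ε e t e') := by
    rw [Filter.eventually_all]
    intro k
    rw [Filter.eventually_all]
    intro ε
    rw [Filter.eventually_all]
    intro e'
    rw [Filter.eventually_all]
    intro t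
    have hT : ∀ {F : Type} [Field F] (c' : Cf ι Λ d → F) (P' : ι → F),
        gT ε c' P' (ga (fun α => aeval c' (Z.b k α)) P') e' t =
          NJ.ev c' P' (NJ.ugT ε (NJ.uga (Z.b k)) e' t) := by
      intro F _ c' P'
      rw [NJ.ev_ugT]
      congr 1
      funext l
      rw [NJ.ev_uga]
    have hS : ∀ {F : Type} [Field F] (c' : Cf ι Λ d → F) (P' : ι → F),
        aeval c' (Z.E k ε e' t) *
          gT ε c' P' (ga (fun α => aeval c' (Z.b k α)) P') e' t ^ (Z.N + 1) -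
        ∑ e'', gD ε c' P' e'' *
          gQ c' (gT ε c' P' (ga (fun α => aeval c' (Z.b k α)) P') e' t)
          (gD ε c' P') (Z.Q k ε e' t e'') =
          NJ.ev c' P' (NJ.inc (Z.E k ε e' t) * NJ.ugT ε (NJ.uga (Z.b k)) e' t ^ (Z.N + 1) -
            ∑ e'', NJ.ugD ε e'' * NJ.ugQ (NJ.ugT ε (NJ.uga (Z.b k)) e' t) (NJ.ugD ε)
              (Z.Q k ε e' t e'')) := by
      intro F _ c' P'
      simp only [map_sub, map_mul, map_pow, map_sum, NJ.ev_inc, NJ.ev_ugQ, NJ.ev_ugD, hT]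
    by_cases h6 : gT ε (fun α => gm 𝒰 fun n => e n (c n α)) (fun i => gm 𝒰 fun n => e n (P n i))
        (ga (fun α => aeval (fun α => gm 𝒰 fun n => e n (c n α)) (Z.b k α))
          (fun i => gm 𝒰 fun n => e n (P n i))) e' t = 0
    · rw [hT] at h6
      filter_upwards [(NJ.transfer_ev 𝒰 K e P c _).1 h6] with n hn
      intro h7
      rw [hT] at h7
      exact absurd hn h7
    · have h7 := h.cert k ε e' t h6
      rw [← sub_eq_zero, hS] at h7
      filter_upwards [(NJ.transfer_ev 𝒰 K e P c _).1 h7] with n hn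
      intro _
      rw [← sub_eq_zero, hS]
      exact hn
  filter_upwards [h1, h2, h3, h5] with n a1 a2 a3 a4
  exact ⟨fun v => NJ.span_of_det _ ks a1 v, a2, a3, a4⟩

end Pool.Agent.AL
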