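import Pool.Agent.Lib.MP_c95b3b_ag_AL.Defs

/-! Project AL (MP_c95b3b_ag), module NK: Cramer's rule at a place. -/

namespace Pool.Agent.AL

open Pool.Agent.L3 Pool.Agent.KP Module MvPolynomial

theorem cramer_max {ι Λ : Type} [Fintype ι] [DecidableEq ι] [Fintype Λ] [DecidableEq Λ]
    {K : Type} [Field K] (gh : ι → Λ → K) (a : Λ → K) (e : Λ → ι)
    (hD : (Matrix.of fun l t => gh (e t) l).det ≠ 0) :
    ∃ x : ι → K, (∀ l, ∑ i, x i * gh i l = a l) ∧ ∀ i, x i = 0 ∨ ∃ t, x i =
      ((Matrix.of fun l t => gh (e t) l).updateCol t a).det /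
        (Matrix.of fun l t => gh (e t) l).det := by
  have hinj : Function.Injective e := by
    intro s t hst
    by_contra hne
    apply hD
    refine Matrix.det_zero_of_column_eq hne fun l => ?_
    simp [hst]
  set M : Matrix Λ Λ K := Matrix.of fun l t => gh (e t) l with hM
  have hcr : ∀ l, ∑ t, (M.updateCol t a).det / M.det * gh (e t) l = a l := by
    intro l
    have h1 := congrFun (Matrix.mulVec_cramer M a) l
    simp only [Matrix.mulVec, dotProduct, Matrix.cramer_apply, Pi.smul_apply, smul_eq_mul] at h1
    have h2 : ∑ t, (M.updateCol t a).det / M.det * gh (e t) l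
        = (∑ t, M l t * (M.updateCol t a).det) / M.det := by
      rw [Finset.sum_div]
      refine Finset.sum_congr rfl fun t _ => ?_
      have h3 : M l t = gh (e t) l := rfl
      rw [h3]
      ring
    rw [h2, h1]
    field_simp
  refine ⟨fun i => ∑ t, if e t = i then (M.updateCol t a).det / M.det else 0, ?_, ?_⟩
  · intro l
    rw [← hcr l]
    simp only [Finset.sum_mul]
    rw [Finset.sum_comm]
    refine Finset.sum_congr rfl fun t _ => ?_
    rw [Finset.sum_eq_single (e t)]
    · simp
    · intro i _ hi
      rw [if_neg (fun h => hi h.symm), zero_mul]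
    · intro h
      exact absurd (Finset.mem_univ _) h
  · intro i
    by_cases h : ∃ t, e t = i
    · obtain ⟨t, ht⟩ := h
      refine Or.inr ⟨t, ?_⟩
      show (∑ s, if e s = i then (M.updateCol s a).det / M.det else 0) = _
      rw [Finset.sum_eq_single t]
      · rw [if_pos ht]
      · intro s _ hs
        rw [if_neg]
        intro h'
        exact hs (hinj (h'.trans ht.symm))
      · intro h'
        exact absurd (Finset.mem_univ _) h'
    · refine Or.inl ?_
      show (∑ s, if e s = i then (M.updateCol s a).det / M.det else 0) = 0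
      refine Finset.sum_eq_zero fun s _ => ?_
      rw [if_neg]
      intro h'
      exact h ⟨s, h'⟩

end Pool.Agent.AL
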