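import Pool.Agent.Lib.MP_c95b3b_ag_AL.DefsN
import Pool.Agent.Lib.MP_c95b3b_ag_AL.NK
import Pool.Agent.Lib.MP_c95b3b_ag_L3.Place2

/-! Project AL (MP_c95b3b_ag), module NL: the size of the lifts. -/

namespace Pool.Agent.AL

open Pool.Agent.L3 Pool.Agent.KP Module MvPolynomial

namespace NL

/-! ### Functions of integers which grow polynomially -/

/-- `F cz ≤ exp (C * (1 + h))` if all `log |cz a|` are at most `h` -/
def Gr {A : Type} (F : (A → ℤ) → ℝ) : Prop :=
  ∃ C : ℝ, 0 ≤ C ∧ ∀ (cz : A → ℤ) (h : ℝ), 0 ≤ h → (∀ a, Real.log |(cz a : ℝ)| ≤ h) →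
    F cz ≤ Real.exp (C * (1 + h))

theorem Gr.mono {A : Type} {F G : (A → ℤ) → ℝ} (hG : Gr G) (h : ∀ cz, F cz ≤ G cz) : Gr F := by
  obtain ⟨C, hC, h1⟩ := hG
  exact ⟨C, hC, fun cz t ht ha => (h cz).trans (h1 cz t ht ha)⟩

theorem Gr.const {A : Type} (b : ℝ) : Gr (fun _ : A → ℤ => b) := by
  refine ⟨|b|, abs_nonneg b, fun cz t ht _ => ?_⟩
  have h1 : |b| * 1 ≤ |b| * (1 + t) := mul_le_mul_of_nonneg_left (by linarith) (abs_nonneg b)
  have h2 := Real.add_one_le_exp (|b| * (1 + t))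
  have h3 := le_abs_self b
  linarith

theorem Gr.add {A : Type} {F G : (A → ℤ) → ℝ} (hF : Gr F) (hG : Gr G) :
    Gr (fun cz => F cz + G cz) := by
  obtain ⟨C, hC, h1⟩ := hF
  obtain ⟨D, hD, h2⟩ := hG
  refine ⟨C + D + 1, by positivity, fun cz t ht ha => ?_⟩
  have e1 := h1 cz t ht ha
  have e2 := h2 cz t ht ha
  have hCt : 0 ≤ C * (1 + t) := by positivity
  have hDt : 0 ≤ D * (1 + t) := by positivity
  have m1 : Real.exp (C * (1 + t)) ≤ Real.exp ((C + D) * (1 + t)) :=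
    Real.exp_le_exp.2 (by nlinarith)
  have m2 : Real.exp (D * (1 + t)) ≤ Real.exp ((C + D) * (1 + t)) :=
    Real.exp_le_exp.2 (by nlinarith)
  have m3 : (2 : ℝ) ≤ Real.exp (1 + t) := by
    have := Real.add_one_le_exp (1 + t)
    linarith
  have m4 : Real.exp ((C + D + 1) * (1 + t)) =
      Real.exp ((C + D) * (1 + t)) * Real.exp (1 + t) := by
    rw [← Real.exp_add]
    congr 1
    ring
  rw [m4]
  have m5 : 0 < Real.exp ((C + D) * (1 + t)) := Real.exp_pos _
  nlinarith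

theorem Gr.sum {A I : Type} (s : Finset I) {F : I → (A → ℤ) → ℝ} (h : ∀ i ∈ s, Gr (F i)) :
    Gr (fun cz => ∑ i ∈ s, F i cz) := by
  classical
  induction s using Finset.induction_on with
  | empty => simpa using Gr.const (A := A) 0
  | insert a s ha ih =>
    simp only [Finset.sum_insert ha]
    exact (h a (Finset.mem_insert_self a s)).add
      (ih fun i hi => h i (Finset.mem_insert_of_mem hi))

theorem abs_le_exp {c : ℤ} {t : ℝ} (h : Real.log |(c : ℝ)| ≤ t) : |(c : ℝ)| ≤ Real.exp t := by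
  rcases eq_or_ne c 0 with rfl | hc
  · simpa using (Real.exp_pos t).le
  · have : 0 < |(c : ℝ)| := abs_pos.2 (Int.cast_ne_zero.2 hc)
    rw [← Real.exp_log this]
    exact Real.exp_le_exp.2 h

theorem gr_aeval {A : Type} (p : MvPolynomial A ℤ) :
    Gr (fun cz => |((aeval cz p : ℤ) : ℝ)|) := by
  induction p using MvPolynomial.induction_on with
  | C a =>
    refine (Gr.const (A := A) |(a : ℝ)|).mono fun cz => ?_
    simp
  | add p q hp hq =>
    refine (hp.add hq).mono fun cz => ?_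
    rw [map_add]
    push_cast
    exact abs_add_le _ _
  | mul_X p i hp =>
    obtain ⟨C, hC, h1⟩ := hp
    refine ⟨C + 1, by positivity, fun cz t ht ha => ?_⟩
    have e1 : |((aeval cz p : ℤ) : ℝ)| ≤ Real.exp (C * (1 + t)) := h1 cz t ht ha
    show |((aeval cz (p * X i) : ℤ) : ℝ)| ≤ _
    rw [map_mul, aeval_X, Int.cast_mul, abs_mul]
    have e2 := abs_le_exp (ha i)
    have e3 : Real.exp t ≤ Real.exp (1 + t) := Real.exp_le_exp.2 (by linarith)
    calc |((aeval cz p : ℤ) : ℝ)| * |(cz i : ℝ)|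
        ≤ Real.exp (C * (1 + t)) * Real.exp (1 + t) :=
          mul_le_mul e1 (e2.trans e3) (abs_nonneg _) (Real.exp_pos _).le
      _ = Real.exp ((C + 1) * (1 + t)) := by
          rw [← Real.exp_add]
          congr 1
          ring

theorem Gr.log_one_add {A : Type} {F : (A → ℤ) → ℝ} (hF : Gr F) (h0 : ∀ cz, 0 ≤ F cz) :
    ∃ C : ℝ, 0 ≤ C ∧ ∀ (cz : A → ℤ) (h : ℝ), 0 ≤ h → (∀ a, Real.log |(cz a : ℝ)| ≤ h) →
      Real.log (1 + F cz) ≤ C * (1 + h) := by
  obtain ⟨C, hC, h1⟩ := (Gr.const (A := A) 1).add hF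
  refine ⟨C, hC, fun cz t ht ha => ?_⟩
  have := h0 cz
  rw [Real.log_le_iff_le_exp (by linarith)]
  exact h1 cz t ht ha

/-! ### Absolute values at the places -/

section
variable {K : Type} [Field K] {S : Subring K} {P : Places K S}

theorem absP_nonneg (w : P.Pl) (x : K) : 0 ≤ absP w x := by
  rcases w with i | j
  · exact norm_nonneg _
  · exact (P.v j).nonneg _

theorem absP_zero (w : P.Pl) : absP w (0 : K) = 0 := by
  rcases w with i | j
  · simp [absP]
  · simp [absP]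

theorem absP_one (w : P.Pl) : absP w (1 : K) = 1 := by
  rcases w with i | j
  · simp [absP]
  · simp [absP]

theorem absP_mul (w : P.Pl) (x y : K) : absP w (x * y) = absP w x * absP w y := by
  rcases w with i | j
  · simp [absP]
  · simp [absP]

theorem absP_pos (w : P.Pl) {x : K} (hx : x ≠ 0) : 0 < absP w x := by
  rcases w with i | j
  · simpa [absP] using hx
  · exact (P.v j).pos hx

theorem absP_pow (w : P.Pl) (x : K) (n : ℕ) : absP w (x ^ n) = absP w x ^ n := by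
  induction n with
  | zero => simp [absP_one]
  | succ n ih => rw [pow_succ, absP_mul, ih, pow_succ]

theorem absP_prod (w : P.Pl) {I : Type} (s : Finset I) (f : I → K) :
    absP w (∏ i ∈ s, f i) = ∏ i ∈ s, absP w (f i) := by
  classical
  induction s using Finset.induction_on with
  | empty => simp [absP_one]
  | insert a s ha ih => rw [Finset.prod_insert ha, absP_mul, ih, Finset.prod_insert ha]

theorem absP_div (w : P.Pl) (x : K) {y : K} (hy : y ≠ 0) :
    absP w (x / y) = absP w x / absP w y := by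
  rw [eq_div_iff (absP_pos w hy).ne', ← absP_mul, div_mul_cancel₀ _ hy]

theorem absP_int_inl (i : Fin P.D) (n : ℤ) : absP (P := P) (.inl i) (n : K) = |(n : ℝ)| := by
  simp only [absP, Sum.elim_inl]
  rw [map_intCast, Complex.norm_intCast]

theorem aeval_cast {A : Type} (cz : A → ℤ) (p : MvPolynomial A ℤ) :
    aeval (fun a => (cz a : K)) p = ((aeval cz p : ℤ) : K) := by
  have h := MvPolynomial.aeval_algebraMap_apply K cz p
  rw [eq_intCast] at h
  rw [← h]
  rfl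

theorem gQ_eq {A Ω : Type} (c : A → K) (t : K) (D : Ω → K)
    (Q : MvPolynomial (Option Ω) (MvPolynomial A ℤ)) :
    gQ c t D Q = ∑ ν ∈ Q.support, aeval c (coeff ν Q) *
      ∏ o ∈ ν.support, (o.elim t D) ^ ν o := by
  unfold gQ
  rw [MvPolynomial.eval₂_eq]
  rfl

/-- the monomials of a homogeneous polynomial of degree `N` -/
theorem mono_bound {A Ω : Type} (t : K) (D : Ω → K) (N : ℕ)
    (Q : MvPolynomial (Option Ω) (MvPolynomial A ℤ)) (hQ : Q.IsHomogeneous N) (w : P.Pl)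
    {B : ℝ} (h1 : absP w t ≤ B) (h2 : ∀ ω, absP w (D ω) ≤ B) {ν : Option Ω →₀ ℕ}
    (hν : ν ∈ Q.support) :
    absP w (∏ o ∈ ν.support, (o.elim t D) ^ ν o) ≤ B ^ N := by
  have hN : ∑ o ∈ ν.support, ν o = N := by
    have h3 := hQ (mem_support_iff.1 hν)
    rw [← h3, Finsupp.weight_apply, Finsupp.sum]
    refine Finset.sum_congr rfl fun o _ => ?_
    simp
  rw [absP_prod, ← hN, ← Finset.prod_pow_eq_pow_sum]
  refine Finset.prod_le_prod (fun o _ => absP_nonneg w _) fun o _ => ?_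
  rw [absP_pow]
  refine pow_le_pow_left₀ (absP_nonneg w _) ?_ _
  rcases o with _ | o
  · exact h1
  · exact h2 o

theorem gQ_bound_inl {A Ω : Type} (cz : A → ℤ) (t : K) (D : Ω → K) (N : ℕ)
    (Q : MvPolynomial (Option Ω) (MvPolynomial A ℤ)) (hQ : Q.IsHomogeneous N) (i : Fin P.D)
    {B : ℝ} (h1 : absP (P := P) (.inl i) t ≤ B) (h2 : ∀ ω, absP (P := P) (.inl i) (D ω) ≤ B) :
    absP (P := P) (.inl i) (gQ (fun a => (cz a : K)) t D Q) ≤
      (∑ ν ∈ Q.support, |((aeval cz (coeff ν Q) : ℤ) : ℝ)|) * B ^ N := by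
  rw [gQ_eq, Finset.sum_mul]
  have h3 : absP (P := P) (.inl i) (∑ ν ∈ Q.support, aeval (fun a => (cz a : K)) (coeff ν Q) *
      ∏ o ∈ ν.support, (o.elim t D) ^ ν o) ≤ ∑ ν ∈ Q.support, absP (P := P) (.inl i)
        (aeval (fun a => (cz a : K)) (coeff ν Q) * ∏ o ∈ ν.support, (o.elim t D) ^ ν o) := by
    simp only [absP, Sum.elim_inl, map_sum]
    exact norm_sum_le _ _
  refine h3.trans (Finset.sum_le_sum fun ν hν => ?_)
  rw [absP_mul, aeval_cast, absP_int_inl]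
  exact mul_le_mul_of_nonneg_left (mono_bound t D N Q hQ _ h1 h2 hν) (abs_nonneg _)

theorem gQ_bound_inr {A Ω : Type} (cz : A → ℤ) (t : K) (D : Ω → K) (N : ℕ)
    (Q : MvPolynomial (Option Ω) (MvPolynomial A ℤ)) (hQ : Q.IsHomogeneous N) (j : Fin P.m)
    {B : ℝ} (hB : 0 ≤ B) (h1 : absP (P := P) (.inr j) t ≤ B)
    (h2 : ∀ ω, absP (P := P) (.inr j) (D ω) ≤ B) :
    absP (P := P) (.inr j) (gQ (fun a => (cz a : K)) t D Q) ≤ B ^ N := by
  rw [gQ_eq]
  refine P.v_sum_le j _ _ (by positivity) fun ν hν => ?_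
  have h3 := mono_bound t D N Q hQ (.inr j) h1 h2 hν
  have h4 : P.v j (aeval (fun a => (cz a : K)) (coeff ν Q)) ≤ 1 := by
    rw [aeval_cast]
    exact P.v_int j _
  rw [map_mul]
  calc P.v j (aeval (fun a => (cz a : K)) (coeff ν Q)) *
        P.v j (∏ o ∈ ν.support, (o.elim t D) ^ ν o) ≤ 1 * B ^ N :=
        mul_le_mul h4 h3 ((P.v j).nonneg _) zero_le_one
    _ = B ^ N := one_mul _

theorem absP_sum_inl_le {I : Type} (i : Fin P.D) (s : Finset I) (f : I → K) :
    absP (P := P) (.inl i) (∑ x ∈ s, f x) ≤ ∑ x ∈ s, absP (P := P) (.inl i) (f x) := by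
  simp only [absP, Sum.elim_inl, map_sum]
  exact norm_sum_le _ _

end

/-! ### The function `σ` -/

section
variable {ι Λ : Type} [Fintype ι] [DecidableEq ι] [Fintype Λ] [DecidableEq Λ] {d : ℕ}

/-- the sum of the absolute values of the coefficients of the certificate -/
noncomputable def co (Z : Cert ι Λ d) (k : Fin Z.m) (x : (ι → Bool) × (Λ → ι) × Λ)
    (cz : Cf ι Λ d → ℤ) : ℝ :=
  ∑ e' : Λ → ι, ∑ ν ∈ (Z.Q k x.1 x.2.1 x.2.2 e').support,
    |((aeval cz (coeff ν (Z.Q k x.1 x.2.1 x.2.2 e')) : ℤ) : ℝ)|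

theorem co_nonneg (Z : Cert ι Λ d) (k : Fin Z.m) (x : (ι → Bool) × (Λ → ι) × Λ)
    (cz : Cf ι Λ d → ℤ) : 0 ≤ co Z k x cz :=
  Finset.sum_nonneg fun _ _ => Finset.sum_nonneg fun _ _ => abs_nonneg _

theorem gr_co (Z : Cert ι Λ d) (k : Fin Z.m) (x : (ι → Bool) × (Λ → ι) × Λ) :
    Gr (co Z k x) :=
  Gr.sum _ fun _ _ => Gr.sum _ fun _ _ => gr_aeval _

/-- one summand of `σ` -/
noncomputable def sg {K : Type} [Field K] {S : Subring K} (P : Places K S) (Z : Cert ι Λ d)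
    (k : Fin Z.m) (cz : Cf ι Λ d → ℤ) (x : (ι → Bool) × (Λ → ι) × Λ) (w : P.Pl) : ℝ :=
  Sum.elim (fun _ => Real.log (1 + co Z k x cz))
    (fun j => -Real.log (P.v j ((aeval cz (Z.E k x.1 x.2.1 x.2.2) : ℤ) : K))) w

variable {K : Type} [Field K] {S : Subring K} {P : Places K S}

theorem sg_nonneg (Z : Cert ι Λ d) (k : Fin Z.m) (cz : Cf ι Λ d → ℤ)
    (x : (ι → Bool) × (Λ → ι) × Λ) (w : P.Pl) : 0 ≤ sg P Z k cz x w := by
  rcases w with i | j
  · exact Real.log_nonneg (by have := co_nonneg Z k x cz; linarith)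
  · simp only [sg, Sum.elim_inr]
    have := Real.log_nonpos ((P.v j).nonneg _)
      (P.v_int j (aeval cz (Z.E k x.1 x.2.1 x.2.2) : ℤ))
    linarith

theorem avg_sg_le (Z : Cert ι Λ d) (k : Fin Z.m) (cz : Cf ι Λ d → ℤ)
    (x : (ι → Bool) × (Λ → ι) × Λ) (h : aeval cz (Z.E k x.1 x.2.1 x.2.2) ≠ (0 : ℤ)) :
    P.avg (sg P Z k cz x) ≤ Real.log (1 + co Z k x cz) +
      Real.log |((aeval cz (Z.E k x.1 x.2.1 x.2.2) : ℤ) : ℝ)| := by
  rw [Places.avg, div_le_iff₀ P.D_cast_pos, Fintype.sum_sum_type]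
  have h1 := PL2.sum_int P _ h
  simp only [sg, Sum.elim_inl, Sum.elim_inr, Finset.sum_const, Finset.card_univ, Fintype.card_fin,
    nsmul_eq_mul]
  nlinarith [h1]

/-- the key estimate: the quotient of the maxima -/
theorem key_bound (Z : Cert ι Λ d) (k : Fin Z.m) (cz : Cf ι Λ d → ℤ) (U : ι → K)
    (ε : ι → Bool) (e1 : Λ → ι) (t1 : Λ) (w : P.Pl) {Ds Ts : ℝ} (hD : 0 < Ds) (hDT : Ds ≤ Ts)
    (hE : aeval cz (Z.E k ε e1 t1) ≠ (0 : ℤ))
    (hDs : ∀ e, absP w (gD ε (fun a => (cz a : K)) U e) ≤ Ds)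
    (T : K) (hT : absP w T = Ts)
    (hc : aeval (fun a => (cz a : K)) (Z.E k ε e1 t1) * T ^ (Z.N + 1) =
      ∑ e', gD ε (fun a => (cz a : K)) U e' *
        gQ (fun a => (cz a : K)) T (gD ε (fun a => (cz a : K)) U) (Z.Q k ε e1 t1 e')) :
    Ts / Ds ≤ Real.exp (sg P Z k cz (ε, e1, t1) w) := by
  have hTs : 0 < Ts := hD.trans_le hDT
  have hch := P.charZero
  have hDs' : ∀ e, absP w (gD ε (fun a => (cz a : K)) U e) ≤ Ts := fun e => (hDs e).trans hDT
  have h1 := congrArg (absP w) hc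
  rw [absP_mul, absP_pow, hT, aeval_cast] at h1
  rw [div_le_iff₀ hD]
  rcases w with i | j
  · rw [absP_int_inl] at h1
    have hE1 : (1 : ℝ) ≤ |((aeval cz (Z.E k ε e1 t1) : ℤ) : ℝ)| := by
      have := Int.one_le_abs hE
      exact_mod_cast this
    have h2 : |((aeval cz (Z.E k ε e1 t1) : ℤ) : ℝ)| * Ts ^ (Z.N + 1) ≤
        co Z k (ε, e1, t1) cz * (Ds * Ts ^ Z.N) := by
      rw [h1]
      refine (absP_sum_inl_le i _ _).trans ?_
      unfold co
      rw [Finset.sum_mul]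
      refine Finset.sum_le_sum fun e' _ => ?_
      rw [absP_mul]
      have h3 := gQ_bound_inl cz T (gD ε (fun a => (cz a : K)) U) Z.N (Z.Q k ε e1 t1 e')
        (Z.hom k ε e1 t1 e') i hT.le hDs'
      calc _ ≤ Ds * ((∑ ν ∈ (Z.Q k ε e1 t1 e').support,
            |((aeval cz (coeff ν (Z.Q k ε e1 t1 e')) : ℤ) : ℝ)|) * Ts ^ Z.N) :=
            mul_le_mul (hDs e') h3 (absP_nonneg _ _) hD.le
        _ = _ := by ring
    have h4 : Ts ^ (Z.N + 1) ≤ co Z k (ε, e1, t1) cz * (Ds * Ts ^ Z.N) :=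
      le_trans (by nlinarith [pow_pos hTs (Z.N + 1)]) h2
    have h5 : 0 < Ts ^ Z.N := pow_pos hTs _
    have h6 : Ts ≤ co Z k (ε, e1, t1) cz * Ds := by
      have : Ts * Ts ^ Z.N ≤ (co Z k (ε, e1, t1) cz * Ds) * Ts ^ Z.N := by
        calc Ts * Ts ^ Z.N = Ts ^ (Z.N + 1) := by ring
          _ ≤ _ := h4
          _ = _ := by ring
      exact le_of_mul_le_mul_right this h5
    have h7 := co_nonneg Z k (ε, e1, t1) cz
    simp only [sg, Sum.elim_inl]
    rw [Real.exp_log (by linarith)]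
    nlinarith
  · have hv : 0 < P.v j (((aeval cz (Z.E k ε e1 t1) : ℤ)) : K) := PL2.v_int_pos P j hE
    have h2 : P.v j (((aeval cz (Z.E k ε e1 t1) : ℤ)) : K) * Ts ^ (Z.N + 1) ≤ Ds * Ts ^ Z.N := by
      have h1' : P.v j (((aeval cz (Z.E k ε e1 t1) : ℤ)) : K) * Ts ^ (Z.N + 1) = _ := h1
      rw [h1']
      refine P.v_sum_le j _ _ (by positivity) fun e' _ => ?_
      rw [map_mul]
      exact mul_le_mul (hDs e') (gQ_bound_inr cz T (gD ε (fun a => (cz a : K)) U) Z.N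
        (Z.Q k ε e1 t1 e') (Z.hom k ε e1 t1 e') j hTs.le hT.le hDs') ((P.v j).nonneg _) hD.le
    have h5 : 0 < Ts ^ Z.N := pow_pos hTs _
    have h6 : P.v j (((aeval cz (Z.E k ε e1 t1) : ℤ)) : K) * Ts ≤ Ds := by
      have : (P.v j (((aeval cz (Z.E k ε e1 t1) : ℤ)) : K) * Ts) * Ts ^ Z.N ≤ Ds * Ts ^ Z.N := by
        calc _ = P.v j (((aeval cz (Z.E k ε e1 t1) : ℤ)) : K) * Ts ^ (Z.N + 1) := by ring
          _ ≤ _ := h2
      exact le_of_mul_le_mul_right this h5
    simp only [sg, Sum.elim_inr]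
    rw [Real.exp_neg, Real.exp_log hv, inv_mul_eq_div, le_div_iff₀ hv]
    linarith

end

end NL

theorem lift_bound {ι Λ : Type} [Fintype ι] [DecidableEq ι] [Fintype Λ] [DecidableEq Λ] {d : ℕ}
    (Z : Cert ι Λ d) : ∃ A : ℝ, 0 ≤ A ∧
    ∀ (K : Type) [Field K] (S : Subring K) (P : Places K S) (U : ι → K) (cz : Cf ι Λ d → ℤ)
      (h : ℝ), 0 ≤ h → (∀ α, Real.log |(cz α : ℝ)| ≤ h) → (∀ i, U i ≠ 0 ∧ U i ≠ 1) →
      Z.Ok (fun α => (cz α : K)) U → ∀ k, ∃ σ : P.Pl → ℝ, (∀ w, 0 ≤ σ w) ∧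
        P.avg σ ≤ A * (1 + h) ∧ ∀ w, ∃ η : ι → K,
          (∀ l, ∑ i, gG (fun α => (cz α : K)) U l i * η i =
            ga (fun α => aeval (fun α => (cz α : K)) (Z.b k α)) U l) ∧
          ∀ i, absP w (η i) ≤ Real.exp (σ w) * min (absP w (U i)) (absP w (1 - U i)) := by
  choose C1 hC1 h1 using fun p : Fin Z.m × ((ι → Bool) × (Λ → ι) × Λ) =>
    (NL.gr_co Z p.1 p.2).log_one_add (NL.co_nonneg Z p.1 p.2)
  choose C2 hC2 h2 using fun p : Fin Z.m × ((ι → Bool) × (Λ → ι) × Λ) =>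
    NL.gr_aeval (Z.E p.1 p.2.1 p.2.2.1 p.2.2.2)
  refine ⟨∑ p, (C1 p + C2 p), Finset.sum_nonneg fun p _ => add_nonneg (hC1 p) (hC2 p), ?_⟩
  intro K _ S P U cz h hh hcz hU hOk k
  have hch := P.charZero
  have hE : ∀ ε e t, aeval cz (Z.E k ε e t) ≠ (0 : ℤ) := by
    intro ε e t h0
    have h3 := hOk.ne k ε e t
    rw [NL.aeval_cast, h0] at h3
    exact h3 Int.cast_zero
  refine ⟨fun w => ∑ x, NL.sg P Z k cz x w, fun w => Finset.sum_nonneg fun x _ =>
    NL.sg_nonneg Z k cz x w, ?_, ?_⟩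
  · rw [P.avg_sum]
    have h3 : ∀ x : (ι → Bool) × (Λ → ι) × Λ,
        P.avg (NL.sg P Z k cz x) ≤ (C1 (k, x) + C2 (k, x)) * (1 + h) := by
      intro x
      have e1 := NL.avg_sg_le (P := P) Z k cz x (hE x.1 x.2.1 x.2.2)
      have e2 := h1 (k, x) cz h hh hcz
      have e3 : |((aeval cz (Z.E k x.1 x.2.1 x.2.2) : ℤ) : ℝ)| ≤ Real.exp (C2 (k, x) * (1 + h)) :=
        h2 (k, x) cz h hh hcz
      have e4 : 0 < |((aeval cz (Z.E k x.1 x.2.1 x.2.2) : ℤ) : ℝ)| :=
        abs_pos.2 (Int.cast_ne_zero.2 (hE x.1 x.2.1 x.2.2))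
      rw [← Real.log_le_iff_le_exp e4] at e3
      simp only at e2
      linarith
    calc ∑ x, P.avg (fun w => NL.sg P Z k cz x w)
        ≤ ∑ x, (C1 (k, x) + C2 (k, x)) * (1 + h) := Finset.sum_le_sum fun x _ => h3 x
      _ = (∑ x, (C1 (k, x) + C2 (k, x))) * (1 + h) := by rw [Finset.sum_mul]
      _ ≤ (∑ p, (C1 p + C2 p)) * (1 + h) := by
          refine mul_le_mul_of_nonneg_right ?_ (by linarith)
          rw [Fintype.sum_prod_type
            (fun p : Fin Z.m × ((ι → Bool) × (Λ → ι) × Λ) => C1 p + C2 p)]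
          exact Finset.single_le_sum (f := fun k' => ∑ x, (C1 (k', x) + C2 (k', x)))
            (fun k' _ => Finset.sum_nonneg fun x _ => add_nonneg (hC1 _) (hC2 _))
            (Finset.mem_univ k)
  · intro w
    classical
    set c : Cf ι Λ d → K := fun α => (cz α : K) with hc
    set a : Λ → K := ga (fun α => aeval c (Z.b k α)) U with ha
    set ε : ι → Bool := fun i => decide (absP w (U i) ≤ absP w (1 - U i)) with hε
    have hgy : ∀ i, absP w (gy ε U i) = min (absP w (U i)) (absP w (1 - U i)) := by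
      intro i
      by_cases hi : absP w (U i) ≤ absP w (1 - U i)
      · simp only [gy, hε, hi, decide_true, if_true, min_eq_left]
      · simp only [gy, hε, hi, decide_false, Bool.false_eq_true, if_false]
        rw [min_eq_right (not_le.1 hi).le]
    obtain ⟨e0, he0⟩ := hOk.full ε
    have : Nonempty (Λ → ι) := ⟨e0⟩
    obtain ⟨e, he⟩ := Finite.exists_max fun e : Λ → ι => absP w (gD ε c U e)
    have hD : 0 < absP w (gD ε c U e) := (NL.absP_pos w he0).trans_le (he e0)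
    have hD0 : gD ε c U e ≠ 0 := by
      intro h0
      rw [h0, NL.absP_zero] at hD
      exact lt_irrefl _ hD
    obtain ⟨x, hx1, hx2⟩ := cramer_max (fun i l => gy ε U i * gG c U l i) a e hD0
    refine ⟨fun i => x i * gy ε U i, fun l => ?_, fun i => ?_⟩
    · rw [← hx1 l]
      refine Finset.sum_congr rfl fun i _ => ?_
      ring
    · rw [NL.absP_mul, hgy]
      refine mul_le_mul_of_nonneg_right ?_ (le_min (NL.absP_nonneg w _) (NL.absP_nonneg w _))
      rcases hx2 i with h0 | ⟨t, ht⟩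
      · rw [h0, NL.absP_zero]
        exact (Real.exp_pos _).le
      · have ht' : x i = gT ε c U a e t / gD ε c U e := ht
        rw [ht', NL.absP_div w _ hD0]
        rcases le_or_gt (absP w (gT ε c U a e t)) (absP w (gD ε c U e)) with hle | hlt
        · refine ((div_le_one hD).2 hle).trans (Real.one_le_exp ?_)
          exact Finset.sum_nonneg fun x _ => NL.sg_nonneg Z k cz x w
        · have : Nonempty ((Λ → ι) × Λ) := ⟨(e, t)⟩
          obtain ⟨⟨e1, t1⟩, h3⟩ := Finite.exists_max fun p : (Λ → ι) × Λ =>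
            absP w (gT ε c U a p.1 p.2)
          have h4 : absP w (gT ε c U a e t) ≤ absP w (gT ε c U a e1 t1) := h3 (e, t)
          have h5 : gT ε c U a e1 t1 ≠ 0 := by
            intro h0
            rw [h0, NL.absP_zero] at h4
            have := hD.trans hlt
            linarith
          have h6 := NL.key_bound Z k cz U ε e1 t1 w hD (hlt.le.trans h4) (hE ε e1 t1) he
            (gT ε c U a e1 t1) rfl (hOk.cert k ε e1 t1 h5)
          refine (div_le_div_of_nonneg_right h4 hD.le).trans (h6.trans (Real.exp_le_exp.2 ?_))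
          exact Finset.single_le_sum (f := fun x => NL.sg P Z k cz x w)
            (fun x _ => NL.sg_nonneg Z k cz x w) (Finset.mem_univ (ε, e1, t1))

end Pool.Agent.AL
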