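import Pool.Agent.Lib.MP_c95b3b_ag_AL.NI
import Pool.Agent.Lib.MP_c95b3b_ag_AL.NJ
import Pool.Agent.Lib.MP_c95b3b_ag_AL.NL

/-! Project AL (MP_c95b3b_ag), module NM: deformation vectors. -/

set_option linter.unusedSectionVars false

namespace Pool.Agent.AL

open Pool.Agent.L3 Pool.Agent.KP Module MvPolynomial

namespace NM

section
variable {ι Λ : Type} [Fintype ι] [DecidableEq ι] [Fintype Λ] [DecidableEq Λ] {d : ℕ}

/-- the exponent -/
noncomputable def ex (e : ι → Fin (d + 1)) : ι →₀ ℕ :=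
  Finsupp.equivFunOnFinite.symm fun i => (e i : ℕ)

theorem ex_apply (e : ι → Fin (d + 1)) (i : ι) : ex e i = (e i : ℕ) := rfl

theorem ex_inj : Function.Injective (ex : (ι → Fin (d + 1)) → (ι →₀ ℕ)) := by
  intro a b h
  funext i
  exact Fin.ext (by rw [← ex_apply, ← ex_apply, h])

/-- a sum over the support is a sum over the box -/
theorem sum_box (f : MvPolynomial ι ℤ) (hf : ∀ i, f.degreeOf i ≤ d) {K : Type} [Field K]
    (F : (ι →₀ ℕ) → K) (hF : ∀ m, coeff m f = 0 → F m = 0) :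
    ∑ m ∈ f.support, F m = ∑ e : ι → Fin (d + 1), F (ex e) := by
  have h1 : ∑ e : ι → Fin (d + 1), F (ex e) =
      ∑ m ∈ (Finset.univ : Finset (ι → Fin (d + 1))).map ⟨ex, ex_inj⟩, F m := by
    rw [Finset.sum_map]
    rfl
  rw [h1]
  refine Finset.sum_subset ?_ ?_
  · intro m hm
    rw [Finset.mem_map]
    have h2 : ∀ i, m i < d + 1 := fun i =>
      Nat.lt_succ_of_le ((monomial_le_degreeOf i hm).trans (hf i))
    refine ⟨fun i => ⟨m i, h2 i⟩, Finset.mem_univ _, ?_⟩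
    ext i
    rfl
  · intro m _ hm
    exact hF m (notMem_support_iff.1 hm)

/-- the coefficients of the polynomials -/
noncomputable def cz (d : ℕ) (g : Λ → MvPolynomial ι ℤ) : Cf ι Λ d → ℤ :=
  fun α => coeff (ex α.2) (g α.1)

theorem aeval_eq (g : Λ → MvPolynomial ι ℤ) (hf : ∀ l i, (g l).degreeOf i ≤ d) {K : Type}
    [Field K] (U : ι → K) (l : Λ) :
    aeval U (g l) = gv (fun α => (cz d g α : K)) U l := by
  have h1 : aeval U (g l) = ∑ m ∈ (g l).support, ((coeff m (g l) : ℤ) : K) * ∏ i, U i ^ m i := by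
    rw [aeval_def, eval₂_eq']
    rfl
  rw [h1, sum_box (g l) (hf l) (fun m => ((coeff m (g l) : ℤ) : K) * ∏ i, U i ^ m i)
    (fun m hm => by simp only [hm, Int.cast_zero, zero_mul])]
  rfl

theorem aeval_pderiv_eq (g : Λ → MvPolynomial ι ℤ) (hf : ∀ l i, (g l).degreeOf i ≤ d) {K : Type}
    [Field K] (U : ι → K) (l : Λ) (i : ι) :
    aeval U (pderiv i (g l)) = gG (fun α => (cz d g α : K)) U l i := by
  have h1 : aeval U (pderiv i (g l)) = ∑ m ∈ (g l).support, ((coeff m (g l) : ℤ) : K) *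
      (((m i : ℕ) : K) * U i ^ (m i - 1) * ∏ j ∈ Finset.univ.erase i, U j ^ m j) := by
    conv_lhs => rw [← (g l).support_sum_monomial_coeff]
    rw [map_sum, map_sum]
    refine Finset.sum_congr rfl fun m _ => ?_
    rw [pderiv_monomial, aeval_monomial, Finsupp.prod_fintype _ _ (fun j => pow_zero _)]
    rw [← Finset.mul_prod_erase Finset.univ _ (Finset.mem_univ i)]
    have h2 : ∏ j ∈ Finset.univ.erase i, U j ^ ((m - Finsupp.single i 1 : ι →₀ ℕ) j) =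
        ∏ j ∈ Finset.univ.erase i, U j ^ m j := by
      refine Finset.prod_congr rfl fun j hj => ?_
      rw [Finsupp.tsub_apply, Finsupp.single_eq_of_ne (Finset.ne_of_mem_erase hj)]
      rfl
    rw [h2, Finsupp.tsub_apply, Finsupp.single_eq_same]
    simp only [algebraMap_int_eq, eq_intCast, Int.cast_mul, Int.cast_natCast]
    ring
  rw [h1, sum_box (g l) (hf l) (fun m => ((coeff m (g l) : ℤ) : K) *
      (((m i : ℕ) : K) * U i ^ (m i - 1) * ∏ j ∈ Finset.univ.erase i, U j ^ m j))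
    (fun m hm => by simp only [hm, Int.cast_zero, zero_mul])]
  rfl

/-- the coefficients are bounded by the norm -/
theorem log_cz {g : Λ → MvPolynomial ι ℤ} {h : ℝ} (h0 : 0 ≤ h)
    (hg : ∀ l, Real.log (l1 (g l)) ≤ h) (α : Cf ι Λ d) :
    Real.log |((cz d g α : ℤ) : ℝ)| ≤ h := by
  by_cases hc : cz d g α = 0
  · rw [hc, Int.cast_zero, abs_zero, Real.log_zero]
    exact h0
  · have h1 : 0 < |((cz d g α : ℤ) : ℝ)| := abs_pos.2 (by exact_mod_cast hc)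
    have h2 : |((cz d g α : ℤ) : ℝ)| ≤ l1 (g α.1) := by
      unfold l1
      exact Finset.single_le_sum (f := fun m => |((coeff m (g α.1) : ℤ) : ℝ)|)
        (fun m _ => abs_nonneg _) (mem_support_iff.2 hc)
    exact (Real.log_le_log h1 h2).trans (hg α.1)

theorem gm_eq (𝒰 : Ultrafilter ℕ) (x : ℕ → ℂ) :
    gm 𝒰 x = Filter.Germ.coeRingHom (𝒰 : Filter ℕ) x := rfl

theorem gm_eq_zero (𝒰 : Ultrafilter ℕ) (x : ℕ → ℂ) :
    gm 𝒰 x = 0 ↔ ∀ᶠ n in (𝒰 : Filter ℕ), x n = 0 := by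
  have h : gm 𝒰 x = 0 ↔ x =ᶠ[(𝒰 : Filter ℕ)] 0 := by
    rw [gm, ← Filter.Germ.coe_zero, Filter.Germ.coe_eq]
  rw [h]
  rfl

theorem gv_gm (𝒰 : Ultrafilter ℕ) (K : ℕ → Type) [∀ n, Field (K n)]
    (e : ∀ n, K n →+* ℂ) (U : ∀ n, ι → K n) (c : ∀ n, Cf ι Λ d → K n) (l : Λ) :
    gv (fun α => gm 𝒰 fun n => e n (c n α)) (fun i => gm 𝒰 fun n => e n (U n i)) l =
      gm 𝒰 fun n => e n (gv (c n) (U n) l) := by
  have h : (fun n => e n (gv (c n) (U n) l)) = ∑ ee : ι → Fin (d + 1),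
      (fun n => e n (c n (l, ee))) * ∏ i, (fun n => e n (U n i)) ^ (ee i : ℕ) := by
    funext n
    simp only [gv, map_sum, map_mul, map_prod, map_pow, Finset.sum_apply, Pi.mul_apply,
      Finset.prod_apply, Pi.pow_apply]
  rw [h]
  simp only [gm_eq, gv, map_sum, map_mul, map_prod, map_pow]

theorem gG_gm (𝒰 : Ultrafilter ℕ) (K : ℕ → Type) [∀ n, Field (K n)]
    (e : ∀ n, K n →+* ℂ) (U : ∀ n, ι → K n) (c : ∀ n, Cf ι Λ d → K n) (l : Λ) (i : ι) :
    gG (fun α => gm 𝒰 fun n => e n (c n α)) (fun i => gm 𝒰 fun n => e n (U n i)) l i =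
      gm 𝒰 fun n => e n (gG (c n) (U n) l i) := by
  have h : (fun n => e n (gG (c n) (U n) l i)) = ∑ ee : ι → Fin (d + 1),
      (fun n => e n (c n (l, ee))) * ((((ee i : ℕ) : ℕ → ℂ)) *
        (fun n => e n (U n i)) ^ ((ee i : ℕ) - 1) *
        ∏ j ∈ Finset.univ.erase i, (fun n => e n (U n j)) ^ (ee j : ℕ)) := by
    funext n
    simp only [gG, map_sum, map_mul, map_prod, map_pow, map_natCast, Finset.sum_apply,
      Pi.mul_apply, Finset.prod_apply, Pi.pow_apply, Pi.natCast_apply]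
  rw [h]
  simp only [gm_eq, gG, map_sum, map_mul, map_prod, map_pow, map_natCast]

theorem germ_charZero (𝒰 : Ultrafilter ℕ) : CharZero (Filter.Germ (𝒰 : Filter ℕ) ℂ) := by
  refine charZero_of_inj_zero fun n hn => ?_
  have h1 : gm 𝒰 (fun _ => (n : ℂ)) = 0 := by
    rw [← hn]
    have : (fun _ : ℕ => (n : ℂ)) = ((n : ℕ) : ℕ → ℂ) := rfl
    rw [this, gm_eq, map_natCast]
  rw [gm_eq_zero] at h1
  obtain ⟨k, hk⟩ := h1.exists
  exact_mod_cast hk

theorem algInd (𝒰 : Ultrafilter ℕ) (K : ℕ → Type) [∀ n, Field (K n)] (e : ∀ n, K n →+* ℂ)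
    (U : ∀ n, ι → K n)
    (hgen : ∀ Q : MvPolynomial ι ℤ, Q ≠ 0 → ∀ᶠ n in (𝒰 : Filter ℕ), aeval (U n) Q ≠ 0)
    [CharZero (Filter.Germ (𝒰 : Filter ℕ) ℂ)] :
    AlgebraicIndependent ℚ (fun i => gm 𝒰 fun n => e n (U n i)) := by
  have h1 : AlgebraicIndependent ℤ (fun i => gm 𝒰 fun n => e n (U n i)) := by
    rw [algebraicIndependent_iff]
    intro Q hQ
    by_contra hne
    rw [transfer 𝒰 K e U Q] at hQ
    obtain ⟨n, hn1, hn2⟩ := (hQ.and (hgen Q hne)).exists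
    exact hn2 hn1
  have : Algebra.IsAlgebraic ℤ ℚ :=
    ⟨fun x => (IsFractionRing.isAlgebraic_iff ℤ ℚ ℚ).2 (isAlgebraic_algebraMap (A := ℚ) x)⟩
  have h3 : ∀ x : ℤ, algebraMap ℤ (Filter.Germ (𝒰 : Filter ℕ) ℂ) x =
      algebraMap ℚ (Filter.Germ (𝒰 : Filter ℕ) ℂ) (algebraMap ℤ ℚ x) := fun x => by
    rw [eq_intCast, eq_intCast, map_intCast]
  have h4 := IsScalarTower.of_algebraMap_eq h3
  exact h1.extendScalars ℚ

theorem mem_closure {K : Type} [Field K] (U : ι → K) (c : Cf ι Λ d → ℤ)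
    (b : Cf ι Λ d → MvPolynomial (Cf ι Λ d) ℤ) (l : Λ) :
    ga (fun α => aeval (fun α => (c α : K)) (b α)) U l ∈ Subring.closure (Set.range U) := by
  have h1 : ∀ α, aeval (fun α => (c α : K)) (b α) ∈ Subring.closure (Set.range U) := by
    intro α
    have h2 : aeval (fun α => (c α : K)) (b α) = ((aeval c (b α) : ℤ) : K) := by
      have := map_aeval (R := ℤ) c (Int.castRingHom K) (b α)
      rw [eq_intCast] at this
      rw [this, aeval_def]
      rfl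
    rw [h2]
    exact intCast_mem _ _
  unfold ga gv
  refine neg_mem (sum_mem fun e _ => mul_mem (h1 _) (prod_mem fun i _ => pow_mem ?_ _))
  exact Subring.subset_closure ⟨i, rfl⟩

end

end NM

theorem defo {ι Λ : Type} [Fintype ι] [DecidableEq ι] [Fintype Λ] [DecidableEq Λ] (col : Λ → ι)
    (𝒰 : Ultrafilter ℕ) (K : ℕ → Type) [∀ n, Field (K n)] (e : ∀ n, K n →+* ℂ)
    (U : ∀ n, ι → K n)
    (hgen : ∀ Q : MvPolynomial ι ℤ, Q ≠ 0 → ∀ᶠ n in (𝒰 : Filter ℕ), aeval (U n) Q ≠ 0) (d : ℕ)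
    (g : ∀ _ : ℕ, Λ → MvPolynomial ι ℤ)
    (hd : ∀ᶠ n in (𝒰 : Filter ℕ), ∀ l i, (g n l).degreeOf i ≤ d)
    (hroot : ∀ᶠ n in (𝒰 : Filter ℕ), ∀ l, aeval (U n) (g n l) = 0)
    (hdiag : ∀ᶠ n in (𝒰 : Filter ℕ), ∀ l l', aeval (U n) (pderiv (col l') (g n l)) ≠ 0 ↔ l = l') :
    ∃ (m : ℕ) (A : ℝ), 0 ≤ A ∧ ∀ᶠ n in (𝒰 : Filter ℕ), ∃ a : Fin m → Λ → K n,
      (∀ k l, a k l ∈ Subring.closure (Set.range (U n))) ∧
      (∀ v : Λ → K n, ∃ x : Fin m → K n, ∀ l, v l = ∑ k, x k * a k l) ∧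
      ∀ (S : Subring (K n)) (P : Places (K n) S) (h : ℝ), 0 ≤ h →
        (∀ l, Real.log (l1 (g n l)) ≤ h) → (∀ i, UU S (U n i)) → ∀ k, ∃ σ : P.Pl → ℝ,
          (∀ w, 0 ≤ σ w) ∧ P.avg σ ≤ A * (1 + h) ∧ ∀ w, ∃ η : ι → K n,
            (∀ l, ∑ i, aeval (U n) (pderiv i (g n l)) * η i = a k l) ∧
            ∀ i, absP w (η i) ≤
              Real.exp (σ w) * min (absP w (U n i)) (absP w (1 - U n i)) := by
  have : CharZero (Filter.Germ (𝒰 : Filter ℕ) ℂ) := NM.germ_charZero 𝒰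
  have hP := NM.algInd 𝒰 K e U hgen
  have hroot' : ∀ l, gv (fun α => gm 𝒰 fun n => e n (NM.cz d (g n) α : K n))
      (fun i => gm 𝒰 fun n => e n (U n i)) l = 0 := by
    intro l
    rw [NM.gv_gm, NM.gm_eq_zero]
    filter_upwards [hd, hroot] with n h1 h2
    rw [← NM.aeval_eq (g n) h1 (U n) l, h2 l, map_zero]
  have hdiag' : ∀ l l', gG (fun α => gm 𝒰 fun n => e n (NM.cz d (g n) α : K n))
      (fun i => gm 𝒰 fun n => e n (U n i)) l (col l') ≠ 0 ↔ l = l' := by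
    intro l l'
    rw [NM.gG_gm, ne_eq, NM.gm_eq_zero]
    constructor
    · intro h
      by_contra hne
      refine h ?_
      filter_upwards [hd, hdiag] with n h1 h2
      rw [← NM.aeval_pderiv_eq (g n) h1 (U n) l (col l')]
      have h3 := (h2 l l').not
      rw [not_not] at h3
      rw [h3.2 hne, map_zero]
    · intro h hz
      obtain ⟨n, h1, h2, h3⟩ := (hd.and (hdiag.and hz)).exists
      rw [← NM.aeval_pderiv_eq (g n) h1 (U n) l (col l')] at h3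
      exact (h2 l l').2 h ((map_eq_zero (e n)).1 h3)
  obtain ⟨Z, hZ⟩ := exists_cert _ _ hP hroot' col hdiag'
  have hZ' := transfer_cert 𝒰 K e U (fun n α => (NM.cz d (g n) α : K n)) Z hZ
  obtain ⟨A, hA, hb⟩ := lift_bound Z
  refine ⟨Z.m, A, hA, ?_⟩
  filter_upwards [hd, hZ'] with n h1 h2
  refine ⟨fun k l => ga (fun α => aeval (fun α => (NM.cz d (g n) α : K n)) (Z.b k α)) (U n) l,
    fun k l => NM.mem_closure _ _ _ _, h2.span, ?_⟩
  intro S P h h0 hl hU k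
  obtain ⟨σ, s1, s2, s3⟩ := hb (K n) S P (U n) (NM.cz d (g n)) h h0 (NM.log_cz h0 hl)
    (fun i => ⟨(hU i).ne0, (hU i).ne1⟩) h2 k
  refine ⟨σ, s1, s2, fun w => ?_⟩
  obtain ⟨η, t1, t2⟩ := s3 w
  refine ⟨η, fun l => ?_, t2⟩
  refine Eq.trans ?_ (t1 l)
  exact Finset.sum_congr rfl fun i _ => by rw [NM.aeval_pderiv_eq (g n) h1 (U n) l i]

end Pool.Agent.AL
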