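import Pool.Agent.Lib.MP_c95b3b_ag_AL.BC
import Pool.Agent.Lib.MP_c95b3b_ag_AL.BD
import Pool.Agent.Lib.MP_c95b3b_ag_AL.BE
import Pool.Agent.Lib.MP_c95b3b_ag_AL.BF

/-! Project AL (MP_c95b3b_ag), module SA: the inequality for a non-zero value. -/

namespace Pool.Agent.AL

open Pool.Agent.L3 Pool.Agent.KP Module MvPolynomial

namespace SA

/-- power series with coefficients in a subring -/
def psub {A : Type} [CommRing A] (R : Subring A) (σ : Type) : Subring (MvPowerSeries σ A) where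
  carrier := {f | ∀ γ, MvPowerSeries.coeff γ f ∈ R}
  mul_mem' := by
    classical
    intro f g hf hg γ
    rw [MvPowerSeries.coeff_mul]
    exact Subring.sum_mem _ fun p _ => R.mul_mem (hf _) (hg _)
  one_mem' := by
    classical
    intro γ
    rw [MvPowerSeries.coeff_one]
    split_ifs
    · exact R.one_mem
    · exact R.zero_mem
  add_mem' := by
    intro f g hf hg γ
    rw [map_add]
    exact R.add_mem (hf _) (hg _)
  zero_mem' := by
    intro γ
    rw [map_zero]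
    exact R.zero_mem
  neg_mem' := by
    intro f hf γ
    rw [map_neg]
    exact R.neg_mem (hf _)

theorem mem_psub {A : Type} [CommRing A] {R : Subring A} {σ : Type} {f : MvPowerSeries σ A} :
    f ∈ psub R σ ↔ ∀ γ, MvPowerSeries.coeff γ f ∈ R := Iff.rfl

theorem C_mem {A : Type} [CommRing A] {R : Subring A} {σ : Type} {a : A} (h : a ∈ R) :
    (MvPowerSeries.C a : MvPowerSeries σ A) ∈ psub R σ := by
  classical
  intro γ
  rw [MvPowerSeries.coeff_C]
  split_ifs
  · exact h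
  · exact R.zero_mem

theorem X_mem {A : Type} [CommRing A] {R : Subring A} {σ : Type} (k : σ) :
    (MvPowerSeries.X k : MvPowerSeries σ A) ∈ psub R σ := by
  classical
  intro γ
  rw [MvPowerSeries.coeff_X]
  split_ifs
  · exact R.one_mem
  · exact R.zero_mem

theorem aevalZ_mem {A : Type} [CommRing A] [Algebra ℤ A] {R : Subring A} {ι : Type} {x : ι → A}
    (h : ∀ i, x i ∈ R) (f : MvPolynomial ι ℤ) : aeval x f ∈ R := by
  induction f using MvPolynomial.induction_on with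
  | C a =>
    rw [← MvPolynomial.algebraMap_eq, AlgHom.commutes, eq_intCast]
    exact intCast_mem R a
  | add f g hf hg =>
    rw [map_add]
    exact R.add_mem hf hg
  | mul_X f i hf =>
    rw [map_mul, aeval_X]
    exact R.mul_mem hf (h i)

theorem gen_mem {K ι κ : Type} [Field K] [Fintype κ] {S : Subring K} {Ξi : MvPowerSeries ι K}
    (h : Ξi ∈ psub S ι) {e : κ → K} (he : ∀ k, e k ∈ S) :
    (MvPowerSeries.C Ξi + ∑ k, MvPowerSeries.C (MvPowerSeries.C (e k)) * MvPowerSeries.X k :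
      MvPowerSeries κ (MvPowerSeries ι K)) ∈ psub (psub S ι) κ := by
  have h1 : (MvPowerSeries.C Ξi : MvPowerSeries κ (MvPowerSeries ι K)) ∈ psub (psub S ι) κ :=
    C_mem h
  have h2 : ∀ k, (MvPowerSeries.C (MvPowerSeries.C (e k)) :
      MvPowerSeries κ (MvPowerSeries ι K)) ∈ psub (psub S ι) κ := fun k => by
    have h3 : (MvPowerSeries.C (e k) : MvPowerSeries ι K) ∈ psub S ι := C_mem (he k)
    exact C_mem h3
  have h4 : ∀ k, (MvPowerSeries.X k : MvPowerSeries κ (MvPowerSeries ι K)) ∈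
      psub (psub S ι) κ := fun k => X_mem k
  exact Subring.add_mem _ h1 (Subring.sum_mem _ fun k _ => Subring.mul_mem _ (h2 k) (h4 k))

theorem val_mem {K ι κ : Type} [Field K] [Fintype κ] {S : Subring K} {Ξ : ι → MvPowerSeries ι K}
    (h : ∀ i, Ξ i ∈ psub S ι) {η : κ → ι → K} (hη : ∀ k i, η k i ∈ S) (V : MvPolynomial ι ℤ)
    (β : κ →₀ ℕ) (γ : ι →₀ ℕ) :
    MvPowerSeries.coeff γ (MvPowerSeries.coeff β
      (aeval (fun i => (MvPowerSeries.C (Ξ i) +
        ∑ k, MvPowerSeries.C (MvPowerSeries.C (η k i)) * MvPowerSeries.X k :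
          MvPowerSeries κ (MvPowerSeries ι K))) V)) ∈ S := by
  have h1 := aevalZ_mem (R := psub (psub S ι) κ)
    (x := fun i => (MvPowerSeries.C (Ξ i) +
        ∑ k, MvPowerSeries.C (MvPowerSeries.C (η k i)) * MvPowerSeries.X k :
          MvPowerSeries κ (MvPowerSeries ι K))) (fun i => gen_mem (h i) (fun k => hη k i)) V
  exact mem_psub.1 (mem_psub.1 h1 β) γ

end SA

theorem value_bound {ι κ : Type} [Fintype ι] [DecidableEq ι] [Fintype κ] [DecidableEq κ] {q : ℕ}
    {K : Type} [Field K] [CharZero K] {S : Subring K} (P : Places K S)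
    (blk : ι → Fin (q + 1)) (I : Finset ι) (U : ι → K) (g : ι → MvPolynomial ι ℤ)
    (Ξ : ι → MvPowerSeries ι K) (hU : ∀ i, UU S (U i)) (hrel : IsRel I blk U g)
    (hΞ : IsBranch I U g Ξ) (hS : ∀ i γ, MvPowerSeries.coeff γ (Ξ i) ∈ S)
    (R : P.Pl → Fin (q + 1) → ℝ) (hR0 : ∀ w j, 0 < R w j)
    (hR : ∀ (w : P.Pl) (ν : Nm K (kap w)), (∀ x, ν.N x = ENNReal.ofReal (absP w x)) → ∀ i,
      psN ν (fun i => ENNReal.ofReal (R w (blk i))) (Ξ i - MvPowerSeries.C (U i)) ≤
        ENNReal.ofReal (min (absP w (U i)) (absP w (1 - U i))))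
    (bk : κ → Fin (q + 1)) (η : κ → ι → K) (hηS : ∀ k i, η k i ∈ S)
    (hη : ∀ k i, blk i ≠ bk k → η k i = 0)
    (hspan : ∀ v : ι → K, ∃ c : κ → K, ∀ l, l ∉ I →
      ∑ i, aeval U (pderiv i (g l)) * (v i - ∑ k, c k * η k i) = 0)
    (σ : κ → P.Pl → ℝ)
    (hlift : ∀ k w, ∃ η' : ι → K, (∀ l, l ∉ I →
        ∑ i, aeval U (pderiv i (g l)) * (η' i - η k i) = 0) ∧
      ∀ i, absP w (η' i) ≤ Real.exp (σ k w) * min (absP w (U i)) (absP w (1 - U i)))
    (H : ι → ℕ) (hH : ∀ i, 0 < H i) (V : MvPolynomial ι ℤ) (hV : V ≠ 0) (E L : ℝ)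
    (b : P.Pl → ℝ)
    (hb : ∀ w, ∃ (T : Finset (ι → ℕ × ℕ)) (q : (ι → ℕ × ℕ) → ℤ), V = rep T q ∧
      (∀ t ∈ T, ∑ i, (((t i).1 : ℝ) + ((t i).2 : ℝ)) ≤ E) ∧
      Real.log (∑ t ∈ T, |(q t : ℝ)|) ≤ L ∧
      ∀ t ∈ T, ∑ i, (((t i).1 : ℝ) * P.lg w (U i) + ((t i).2 : ℝ) * P.lg w (1 - U i)) ≤ b w) :
    ∃ (γ : ι →₀ ℕ) (β : κ →₀ ℕ), (∀ i, i ∉ I → γ i = 0) ∧
      (∃ α : ι →₀ ℕ, aeval Ξ (hs α V) ≠ 0 ∧
        ∀ γ', wt H γ' < wt H γ → MvPowerSeries.coeff γ' (aeval Ξ (hs α V)) = 0) ∧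
      (∀ j, ∑ k with bk k = j, β k ≤ ∑ i with blk i = j, V.degreeOf i) ∧
      0 ≤ P.avg b + ∑ i, (γ i : ℝ) * P.avg (fun w => -Real.log (R w (blk i))) +
        ∑ k, (β k : ℝ) * P.avg (σ k) + (L + E * Real.log (Fintype.card κ + 2)) := by
  obtain ⟨p, γ, Lf, hL0, hLh, hγ, hLd, hLtan, hbranch, hcoef⟩ := taylor_forms I U g Ξ hΞ H hH V hV
  let T : Submodule K (ι → K) :=
    { carrier := {v | ∀ l, l ∉ I → ∑ i, aeval U (pderiv i (g l)) * v i = 0}
      add_mem' := by
        intro v v' hv hv' l hl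
        have h1 : ∑ i, aeval U (pderiv i (g l)) * (v + v') i =
            ∑ i, aeval U (pderiv i (g l)) * v i + ∑ i, aeval U (pderiv i (g l)) * v' i := by
          rw [← Finset.sum_add_distrib]
          exact Finset.sum_congr rfl fun i _ => by rw [Pi.add_apply, mul_add]
        rw [h1, hv l hl, hv' l hl, add_zero]
      zero_mem' := by
        intro l _
        simp
      smul_mem' := by
        intro c v hv l hl
        have h1 : ∑ i, aeval U (pderiv i (g l)) * (c • v) i =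
            c * ∑ i, aeval U (pderiv i (g l)) * v i := by
          rw [Finset.mul_sum]
          exact Finset.sum_congr rfl fun i _ => by rw [Pi.smul_apply, smul_eq_mul]; ring
        rw [h1, hv l hl, mul_zero] }
  have hTmem : ∀ v : ι → K, v ∈ T ↔ ∀ l, l ∉ I → ∑ i, aeval U (pderiv i (g l)) * v i = 0 :=
    fun v => Iff.rfl
  have hT : ∀ t ∈ T, ∑ i', C (t i') * pderiv i' Lf = 0 := by
    intro t ht
    have h1 : ∀ i', (C (t i') : MvPolynomial ι K) * pderiv i' Lf =
        ∑ i ∈ I, C (t i) * (C (MvPowerSeries.coeff (Finsupp.single i 1) (Ξ i')) * pderiv i' Lf) := by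
      intro i'
      conv_lhs => rw [tangent_mem I blk U g hrel Ξ hΞ t ht i']
      rw [map_sum, Finset.sum_mul]
      exact Finset.sum_congr rfl fun i _ => by rw [map_mul, mul_assoc]
    rw [Finset.sum_congr rfl fun i' _ => h1 i', Finset.sum_comm]
    apply Finset.sum_eq_zero
    intro i hi
    rw [← Finset.mul_sum, hLtan i hi, mul_zero]
  have hspan' : ∀ v : ι → K, ∃ c : κ → K, v - ∑ k, c k • η k ∈ T := by
    intro v
    obtain ⟨c, hc⟩ := hspan v
    refine ⟨c, (hTmem _).2 fun l hl => ?_⟩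
    rw [← hc l hl]
    refine Finset.sum_congr rfl fun i _ => ?_
    rw [Pi.sub_apply, Finset.sum_apply]
    rfl
  obtain ⟨β, hβp, hy0, hβd, hβinv⟩ := exists_beta blk bk Lf hL0 p hLh (fun i => V.degreeOf i) hLd
    T hT η hspan' hη
  obtain ⟨y, hy⟩ : ∃ y, y =
      coeff β (aeval (fun i => (∑ k, C (η k i) * X k : MvPolynomial κ K)) Lf) := ⟨_, rfl⟩
  rw [← hy] at hy0
  have hyS : y ∈ S := by
    rw [hy, hcoef κ η β hβp]
    exact SA.val_mem (fun i => SA.mem_psub.2 (hS i)) hηS V β γ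
  have hplace : ∀ w, P.lg w y ≤ b w + ∑ i, (γ i : ℝ) * (-Real.log (R w (blk i))) +
      ∑ k, (β k : ℝ) * σ k w + (L + E * Real.log (Fintype.card κ + 2)) * P.arch w := by
    intro w
    obtain ⟨ν, hν⟩ := exists_nmP P w
    obtain ⟨T', q', hVr, hTE, hlog, hbT⟩ := hb w
    choose η' hη'1 hη'2 using fun k => hlift k w
    have hyeq : y = MvPowerSeries.coeff γ (MvPowerSeries.coeff β
            (aeval (fun i => (MvPowerSeries.C (Ξ i) +
              ∑ k, MvPowerSeries.C (MvPowerSeries.C (η' k i)) * MvPowerSeries.X k :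
                MvPowerSeries κ (MvPowerSeries ι K))) (rep T' q'))) := by
      rw [← hVr, ← hcoef κ η' β hβp, hβinv η' (fun k => (hTmem _).2 fun l hl => ?_), hy]
      rw [← hη'1 k l hl]
      exact Finset.sum_congr rfl fun i _ => by rw [Pi.sub_apply]
    have h1 := local_bound P w ν hν U (fun i => ⟨(hU i).ne0, (hU i).ne1⟩) Ξ η'
      (fun i => R w (blk i)) (fun i => hR0 w _) (fun k => σ k w) T' q' E hTE (b w) hbT
      (hR w ν hν) (fun k i => hη'2 k i) β γ y hyeq hy0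
    refine h1.trans ?_
    have h2 : 0 ≤ P.arch w := by
      unfold Places.arch
      rcases w with w | w <;> simp
    have h3 : P.arch w * (Real.log (∑ t ∈ T', |(q' t : ℝ)|) + E * Real.log (Fintype.card κ + 2)) ≤
        P.arch w * (L + E * Real.log (Fintype.card κ + 2)) :=
      mul_le_mul_of_nonneg_left (by linarith) h2
    linarith [mul_comm (P.arch w) (L + E * Real.log (Fintype.card κ + 2))]
  refine ⟨γ, β, hγ, hbranch, hβd, ?_⟩
  have hfin := (P.avg_lg_nonneg hyS hy0).trans (P.avg_mono hplace)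
  rw [P.avg_add, P.avg_add, P.avg_add, P.avg_const_arch, P.avg_sum, P.avg_sum] at hfin
  have e1 : ∀ i, P.avg (fun w => (γ i : ℝ) * (-Real.log (R w (blk i)))) =
      (γ i : ℝ) * P.avg (fun w => -Real.log (R w (blk i))) := fun i => P.avg_mul _ _
  have e2 : ∀ k, P.avg (fun w => (β k : ℝ) * σ k w) = (β k : ℝ) * P.avg (σ k) :=
    fun k => P.avg_mul _ _
  rw [Finset.sum_congr rfl fun i _ => e1 i, Finset.sum_congr rfl fun k _ => e2 k] at hfin
  exact hfin

end Pool.Agent.AL
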