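import Pool.Agent.Lib.MP_c95b3b_ag_AL.BG
import Pool.Agent.Lib.MP_c95b3b_ag_AL.BI
import Pool.Agent.Lib.MP_c95b3b_ag_AL.NM
import Pool.Agent.Lib.MP_c95b3b_ag_AL.SA

/-! Project AL (MP_c95b3b_ag), module SB: (STAR). -/

namespace Pool.Agent.AL

open Pool.Agent.L3 Pool.Agent.KP Module MvPolynomial

namespace SB

theorem G_zero {ι K : Type} [Field K] {q : ℕ} {I : Finset ι}
    {blk : ι → Fin (q + 1)} {P : ι → K} {g : ι → MvPolynomial ι ℤ} (h : IsRel I blk P g)
    {l i : ι} (hl : l ∉ I) (hi : i ≠ l) (hi2 : i ∉ I ∨ blk i ≠ blk l) :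
    aeval P (pderiv i (g l)) = 0 := by
  have h1 : i ∉ (g l).vars := by
    intro h2
    rcases h.vars l hl i h2 with h3 | h3
    · exact hi h3
    · rcases hi2 with h4 | h4
      · exact h4 h3.1
      · exact h4 h3.2
  rw [pderiv_eq_zero_of_notMem_vars h1, map_zero]

/-- the vectors `η` -/
noncomputable def eta {ι F : Type} [DecidableEq ι] [Field F] {q : ℕ} (blk : ι → Fin (q + 1))
    (I : Finset ι) (U : ι → F) (g : ι → MvPolynomial ι ℤ) (m : Fin (q + 1) → ℕ)
    (a : ∀ j, Fin (m j) → {l : ι // l ∉ I ∧ blk l = j} → F) (k : Σ j, Fin (m j)) (i : ι) : F :=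
  if h : i ∉ I ∧ blk i = k.1 then a k.1 k.2 ⟨i, h⟩ * (aeval U (pderiv i (g i)))⁻¹ else 0

theorem G_eta {ι F : Type} [Fintype ι] [DecidableEq ι] [Field F] {q : ℕ} {blk : ι → Fin (q + 1)}
    {I : Finset ι} {U : ι → F} {g : ι → MvPolynomial ι ℤ} (hrel : IsRel I blk U g)
    {m : Fin (q + 1) → ℕ} (a : ∀ j, Fin (m j) → {l : ι // l ∉ I ∧ blk l = j} → F)
    (k : Σ j, Fin (m j)) (l : ι) (hl : l ∉ I) :
    ∑ i, aeval U (pderiv i (g l)) * eta blk I U g m a k i =
      if h : blk l = k.1 then a k.1 k.2 ⟨l, hl, h⟩ else 0 := by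
  rw [Finset.sum_eq_single l]
  · unfold eta
    by_cases h : blk l = k.1
    · rw [dif_pos ⟨hl, h⟩, dif_pos h]
      have h1 := hrel.der l hl
      field_simp
    · rw [dif_neg (fun h1 => h h1.2), dif_neg h, mul_zero]
  · intro i _ hi
    unfold eta
    by_cases h : i ∉ I ∧ blk i = k.1
    · rw [G_zero hrel hl hi (Or.inl h.1), zero_mul]
    · rw [dif_neg h, mul_zero]
  · intro h
    exact absurd (Finset.mem_univ _) h

theorem core {ι : Type} [Fintype ι] [DecidableEq ι] {q : ℕ} (blk : ι → Fin (q + 1))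
    (I : Finset ι) {F : Type} [Field F] [CharZero F] (U : ι → F) (g : ι → MvPolynomial ι ℤ)
    (hrel : IsRel I blk U g) (m : Fin (q + 1) → ℕ)
    (a : ∀ j, Fin (m j) → {l : ι // l ∉ I ∧ blk l = j} → F)
    (ha1 : ∀ j k l, a j k l ∈ Subring.closure (Set.range U))
    (ha2 : ∀ j (v : {l : ι // l ∉ I ∧ blk l = j} → F),
      ∃ x : Fin (m j) → F, ∀ l, v l = ∑ k, x k * a j k l)
    {S : Subring F} (P : Places F S) (hU : ∀ i, UU S (U i))
    (hX : ∀ l, l ∉ I → (aeval U (pderiv l (g l)))⁻¹ ∈ S)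
    (σ : ∀ j, Fin (m j) → P.Pl → ℝ)
    (hσ : ∀ j k w, ∃ η : ι → F, (∀ l : {l : ι // l ∉ I ∧ blk l = j},
        ∑ i, aeval U (pderiv i (g l)) * η i = a j k l) ∧
      ∀ i, absP w (η i) ≤ Real.exp (σ j k w) * min (absP w (U i)) (absP w (1 - U i)))
    (Ξ : ι → MvPowerSeries ι F) (hΞ : IsBranch I U g Ξ)
    (hS : ∀ i γ, MvPowerSeries.coeff γ (Ξ i) ∈ S)
    (R : P.Pl → Fin (q + 1) → ℝ) (hR0 : ∀ w j, 0 < R w j)
    (hR : ∀ (w : P.Pl) (ν : Nm F (kap w)), (∀ x, ν.N x = ENNReal.ofReal (absP w x)) → ∀ i,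
      psN ν (fun i => ENNReal.ofReal (R w (blk i))) (Ξ i - MvPowerSeries.C (U i)) ≤
        ENNReal.ofReal (min (absP w (U i)) (absP w (1 - U i))))
    (H : ι → ℕ) (hH : ∀ i, 0 < H i) (V : MvPolynomial ι ℤ) (hV : V ≠ 0) (E L : ℝ)
    (b : P.Pl → ℝ)
    (hb : ∀ w, ∃ (T : Finset (ι → ℕ × ℕ)) (q : (ι → ℕ × ℕ) → ℤ), V = rep T q ∧
      (∀ t ∈ T, ∑ i, (((t i).1 : ℝ) + ((t i).2 : ℝ)) ≤ E) ∧
      Real.log (∑ t ∈ T, |(q t : ℝ)|) ≤ L ∧
      ∀ t ∈ T, ∑ i, (((t i).1 : ℝ) * P.lg w (U i) + ((t i).2 : ℝ) * P.lg w (1 - U i)) ≤ b w) :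
    ∃ (γ : ι →₀ ℕ) (β : (Σ j, Fin (m j)) →₀ ℕ), (∀ i, i ∉ I → γ i = 0) ∧
      (∃ α : ι →₀ ℕ, aeval Ξ (hs α V) ≠ 0 ∧
        ∀ γ', wt H γ' < wt H γ → MvPowerSeries.coeff γ' (aeval Ξ (hs α V)) = 0) ∧
      (∀ j, ∑ k with Sigma.fst k = j, β k ≤ ∑ i with blk i = j, V.degreeOf i) ∧
      0 ≤ P.avg b + ∑ i, (γ i : ℝ) * P.avg (fun w => -Real.log (R w (blk i))) +
        ∑ k : (Σ j, Fin (m j)), (β k : ℝ) * P.avg (σ k.1 k.2) +
        (L + E * Real.log (Fintype.card (Σ j, Fin (m j)) + 2)) := by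
  have hclos : Subring.closure (Set.range U) ≤ S := by
    rw [Subring.closure_le]
    rintro x ⟨i, rfl⟩
    exact (hU i).mem
  refine value_bound P blk I U g Ξ hU hrel hΞ hS R hR0 hR (fun k : Σ j, Fin (m j) => k.1)
    (eta blk I U g m a) ?_ ?_ ?_ (fun k => σ k.1 k.2) ?_ H hH V hV E L b hb
  · intro k i
    unfold eta
    split_ifs with h
    · exact S.mul_mem (hclos (ha1 _ _ _)) (hX i h.1)
    · exact S.zero_mem
  · intro k i hi
    unfold eta
    rw [dif_neg (fun h => hi h.2)]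
  · intro v
    have h1 : ∀ j, ∃ x : Fin (m j) → F, ∀ l : {l : ι // l ∉ I ∧ blk l = j},
        ∑ i, aeval U (pderiv i (g l)) * v i = ∑ k, x k * a j k l := fun j =>
      ha2 j (fun l => ∑ i, aeval U (pderiv i (g l)) * v i)
    choose x hx using h1
    refine ⟨fun k => x k.1 k.2, ?_⟩
    intro l hl
    have h2 : ∑ i, aeval U (pderiv i (g l)) * (v i - ∑ k : (Σ j, Fin (m j)),
        x k.1 k.2 * eta blk I U g m a k i) =
        ∑ i, aeval U (pderiv i (g l)) * v i - ∑ k : (Σ j, Fin (m j)),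
          x k.1 k.2 * ∑ i, aeval U (pderiv i (g l)) * eta blk I U g m a k i := by
      simp only [mul_sub, Finset.sum_sub_distrib, Finset.mul_sum]
      congr 1
      rw [Finset.sum_comm]
      refine Finset.sum_congr rfl fun k _ => Finset.sum_congr rfl fun i _ => ?_
      ring
    rw [h2]
    simp only [G_eta hrel a _ l hl]
    rw [Fintype.sum_sigma, Finset.sum_eq_single (blk l)]
    · have h3 := hx (blk l) ⟨l, hl, rfl⟩
      simp only [dite_true]
      rw [h3]
      exact sub_self _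
    · intro j _ hj
      apply Finset.sum_eq_zero
      intro k _
      rw [dif_neg (Ne.symm hj), mul_zero]
    · intro h
      exact absurd (Finset.mem_univ _) h
  · rintro ⟨j, k⟩ w
    obtain ⟨η, hη1, hη2⟩ := hσ j k w
    refine ⟨fun i => if blk i = j then η i else 0, ?_, ?_⟩
    · intro l hl
      have h2 : ∑ i, aeval U (pderiv i (g l)) * ((if blk i = j then η i else 0) -
          eta blk I U g m a ⟨j, k⟩ i) =
          ∑ i, aeval U (pderiv i (g l)) * (if blk i = j then η i else 0) -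
            ∑ i, aeval U (pderiv i (g l)) * eta blk I U g m a ⟨j, k⟩ i := by
        simp only [mul_sub, Finset.sum_sub_distrib]
      rw [h2, G_eta hrel a _ l hl]
      by_cases hj : blk l = j
      · rw [dif_pos hj]
        have h3 := hη1 ⟨l, hl, hj⟩
        rw [← h3, sub_eq_zero]
        apply Finset.sum_congr rfl
        intro i _
        by_cases hi : blk i = j
        · rw [if_pos hi]
        · have hil : i ≠ l := by
            rintro rfl
            exact hi hj
          rw [G_zero hrel hl hil (Or.inr (by rw [hj]; exact hi)), zero_mul, zero_mul]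
      · rw [dif_neg hj, sub_zero]
        apply Finset.sum_eq_zero
        intro i _
        by_cases hi : blk i = j
        · have hil : i ≠ l := by
            rintro rfl
            exact hj hi
          rw [G_zero hrel hl hil (Or.inr (by rw [hi]; exact Ne.symm hj)), zero_mul]
        · rw [if_neg hi, mul_zero]
    · intro i
      by_cases hi : blk i = j
      · simp only [if_pos hi]
        exact hη2 i
      · simp only [if_neg hi]
        have h0 : absP w (0 : F) = 0 := by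
          rcases w with w | w
          · simp [absP]
          · simp [absP]
        rw [h0]
        exact mul_nonneg (Real.exp_pos _).le (le_min (BG.absP_nonneg w _) (BG.absP_nonneg w _))

theorem l1_pos' {ι : Type} {f : MvPolynomial ι ℤ} (h : f ≠ 0) : 1 ≤ l1 f := one_le_l1 h

/-- the theorem if every block is non-empty -/
theorem main {ι : Type} [Fintype ι] [DecidableEq ι] {q : ℕ} (blk : ι → Fin (q + 1))
    (hsurj : ∀ j, j = 0 ∨ ∃ i, blk i = j)
    (𝒰 : Ultrafilter ℕ) (K : ℕ → Type) [∀ n, Field (K n)] (e : ∀ n, K n →+* ℂ)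
    (U : ∀ n, ι → K n) (s : ℕ → Fin (q + 1) → ℝ) (hsc : Scales q 𝒰 s)
    (hgen : ∀ Q : MvPolynomial ι ℤ, Q ≠ 0 → ∀ᶠ n in (𝒰 : Filter ℕ), aeval (U n) Q ≠ 0) :
    ∃ X : ∀ n, Finset (K n), (∀ n, ∀ x ∈ X n, x ≠ 0) ∧ ∀ A B ε : ℝ, 0 < ε →
      ∀ᶠ n in (𝒰 : Filter ℕ), ∀ (S : Subring (K n)) (P : Places (K n) S),
        (∀ i, UU S (U n i)) → (∀ x ∈ X n, x⁻¹ ∈ S) →
        (∀ i, P.avg (fun w => ‖P.lv w (U n i)‖) ≤ B * s n (blk i)) →
        Star P (U n) (fun i => s n (blk i)) (s n 0) A ε := by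
  classical
  have hCZ : ∀ n, CharZero (K n) := fun n =>
    ((RingHom.charZero_iff (e n).injective).2 inferInstance)
  obtain ⟨I, d, g, hno, hg⟩ := exists_rel blk 𝒰 K U s hsc
  -- the deformation vectors of the blocks
  have hdef := fun j : Fin (q + 1) => defo (fun l : {l : ι // l ∉ I ∧ blk l = j} => (l : ι)) 𝒰 K e U
    hgen d (fun n l => g n l) (by
      filter_upwards [hg] with n hn
      intro l i
      exact (hn.2 l l.2.1).1 i) (by
      filter_upwards [hg] with n hn
      intro l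
      exact hn.1.root l l.2.1) (by
      filter_upwards [hg] with n hn
      intro l l'
      constructor
      · intro h1
        by_contra h2
        apply h1
        refine G_zero hn.1 l.2.1 ?_ (Or.inl l'.2.1)
        intro h3
        exact h2 (Subtype.ext h3.symm)
      · rintro rfl
        exact hn.1.der l l.2.1)
  choose m Ad hAd hdef using hdef
  obtain ⟨AR, hAR, hrad⟩ := exists_radius blk I d
  refine ⟨fun n => (Finset.univ.filter fun l => l ∉ I ∧ aeval (U n) (pderiv l (g n l)) ≠ 0).image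
    fun l => aeval (U n) (pderiv l (g n l)), ?_, ?_⟩
  · intro n x hx
    rw [Finset.mem_image] at hx
    obtain ⟨l, hl, rfl⟩ := hx
    exact (Finset.mem_filter.1 hl).2.2
  intro A B ε hε
  set A' : ℝ := max A 1 with hA'
  set B' : ℝ := max B (max d 1) with hB'
  have hAA : A ≤ A' := le_max_left _ _
  have hA1 : 1 ≤ A' := le_max_right _ _
  have hA0 : 0 ≤ A' := by linarith
  have hBB : B ≤ B' := le_max_left _ _
  have hB1 : 1 ≤ B' := (le_max_right _ _).trans (le_max_right _ _)
  have hBd : (d : ℝ) ≤ B' := (le_max_left _ _).trans (le_max_right _ _)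
  have hB0 : 0 ≤ B' := by linarith
  have hd0 : (0 : ℝ) ≤ d := Nat.cast_nonneg d
  set N : ℝ := (Fintype.card ι : ℝ) with hN
  have hN0 : 0 ≤ N := by positivity
  set κ : ℝ := (Fintype.card (Σ j, Fin (m j)) : ℝ) with hκ
  have hκ0 : 0 ≤ κ := by positivity
  have hlogκ : 0 ≤ Real.log (κ + 2) := Real.log_nonneg (by linarith)
  set C1 : ℝ := N * A' * (1 + d) * (∑ j, Ad j) + A' + 2 * N * A' * Real.log (κ + 2) with hC1
  have hSA : 0 ≤ ∑ j, Ad j := Finset.sum_nonneg fun j _ => hAd j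
  have hC10 : 0 ≤ C1 := by positivity
  set θ : ℝ := ε / (2 * (AR * B' + 1)) with hθ
  have hθ0 : 0 < θ := by positivity
  have hθ1 : AR * B' * θ ≤ ε / 2 := by
    rw [hθ, mul_div_assoc', div_le_div_iff₀ (by positivity) (by norm_num)]
    nlinarith [mul_nonneg hAR hB0]
  have hlog2 : 0 < Real.log 2 := Real.log_pos (by norm_num)
  have hos := order_small blk 𝒰 K U s hsc I d g hno hg (A' + N * A' * Real.log 2) θ (by positivity)
    hθ0
  have hdef' : ∀ᶠ n in (𝒰 : Filter ℕ), ∀ j, ∃ a : Fin (m j) → {l : ι // l ∉ I ∧ blk l = j} → K n,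
      (∀ k l, a k l ∈ Subring.closure (Set.range (U n))) ∧
      (∀ v : {l : ι // l ∉ I ∧ blk l = j} → K n, ∃ x : Fin (m j) → K n,
        ∀ l, v l = ∑ k, x k * a k l) ∧
      ∀ (S : Subring (K n)) (P : Places (K n) S) (h : ℝ), 0 ≤ h →
        (∀ l : {l : ι // l ∉ I ∧ blk l = j}, Real.log (l1 (g n l)) ≤ h) →
        (∀ i, UU S (U n i)) → ∀ k, ∃ σ : P.Pl → ℝ,
          (∀ w, 0 ≤ σ w) ∧ P.avg σ ≤ Ad j * (1 + h) ∧ ∀ w, ∃ η : ι → K n,
            (∀ l : {l : ι // l ∉ I ∧ blk l = j},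
              ∑ i, aeval (U n) (pderiv i (g n l)) * η i = a k l) ∧
            ∀ i, absP w (η i) ≤
              Real.exp (σ w) * min (absP w (U n i)) (absP w (1 - U n i)) :=
    Filter.eventually_all.2 hdef
  filter_upwards [hg, hdef', hos, hsc.large (2 * C1 / ε + 1), hsc.sep 1] with n hn1 hn2 hn3 hn4 hn5
  have hCε : 0 ≤ 2 * C1 / ε := by positivity
  have hs1 : 1 ≤ s n 0 := by linarith
  have hs0 : 0 < s n 0 := by linarith
  have hsj : ∀ j, s n 0 ≤ s n j := by
    intro j
    rcases Nat.eq_zero_or_pos (j : ℕ) with hj | hj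
    · have : j = 0 := Fin.ext hj
      rw [this]
    · have h1 := hn5 0 j (Fin.lt_def.2 hj)
      rwa [one_mul] at h1
  have hsj1 : ∀ j, 1 ≤ s n j := fun j => hs1.trans (hsj j)
  have hsj0 : ∀ j, 0 < s n j := fun j => by linarith [hsj1 j]
  have hC1s : C1 / s n 0 ≤ ε / 2 := by
    rw [div_le_div_iff₀ hs0 (by norm_num)]
    have h1 : 2 * C1 / ε ≤ s n 0 := by linarith
    rw [div_le_iff₀ hε] at h1
    linarith
  intro S P hU hX havg
  choose a ha1 ha2 ha3 using hn2
  have hXS : ∀ l, l ∉ I → (aeval (U n) (pderiv l (g n l)))⁻¹ ∈ S := by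
    intro l hl
    apply hX
    rw [Finset.mem_image]
    exact ⟨l, Finset.mem_filter.2 ⟨Finset.mem_univ _, hl, hn1.1.der l hl⟩, rfl⟩
  obtain ⟨Ξ, hΞ, hint, hnorm⟩ := exists_branch I blk (U n) (g n) hn1.1
  have hΞS : ∀ i γ, MvPowerSeries.coeff γ (Ξ i) ∈ S :=
    hint S (fun i => (hU i).mem) hXS
  have hratio : ∀ j, s n j / s n 0 ≤ s n j := by
    intro j
    rw [div_le_iff₀ hs0]
    nlinarith [hsj0 j]
  have hratio1 : ∀ j, 1 ≤ s n j / s n 0 := by
    intro j
    rw [le_div_iff₀ hs0, one_mul]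
    exact hsj j
  obtain ⟨R, hR0, hR1, hR2⟩ := hrad (K n) S P (U n) (g n) Ξ (fun j => B' * s n j) hU hn1.1 hΞ hnorm
    (fun l hl => (hn1.2 l hl).1) (by
      intro j
      nlinarith [hsj1 j]) (by
      intro l hl
      refine (hn1.2 l hl).2.trans ?_
      apply mul_le_mul_of_nonneg_left _ hd0
      refine (hratio _).trans ?_
      nlinarith [hsj1 (blk l)]) (by
      intro i
      refine (havg i).trans ?_
      exact mul_le_mul_of_nonneg_right hBB (hsj0 _).le)
  have hσ := fun j (k : Fin (m j)) => ha3 j S P (d * (s n j / s n 0)) (by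
      have := hratio1 j
      positivity) (by
      intro l
      have h1 := (hn1.2 l l.2.1).2
      rw [l.2.2] at h1
      exact h1) hU k
  choose σ hσ0 hσ1 hσ2 using hσ
  intro M V b hV hM0 hMi hdeg hlogV hb
  have hMpos : 0 < M := by linarith
  have hMj : ∀ j, s n j ≤ M := by
    intro j
    rcases hsurj j with rfl | ⟨i, rfl⟩
    · exact hM0
    · exact hMi i
  have hAM : ∀ j, A * M / s n j ≤ A' * M / s n j := fun j =>
    div_le_div_of_nonneg_right (mul_le_mul_of_nonneg_right hAA hMpos.le) (hsj0 j).le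
  have hAM0 : ∀ j, A' * M / s n j ≤ A' * M / s n 0 := fun j =>
    div_le_div_of_nonneg_left (by positivity) hs0 (hsj j)
  set H : ι → ℕ := fun i => ⌈s n (blk i)⌉₊ with hH
  have hH1 : ∀ i, s n (blk i) ≤ H i := fun i => Nat.le_ceil _
  have hH2 : ∀ i, (H i : ℝ) ≤ 2 * s n (blk i) := by
    intro i
    have h1 := Nat.ceil_lt_add_one (hsj0 (blk i)).le
    have h2 := hsj1 (blk i)
    have h3 : ((H i : ℕ) : ℝ) < s n (blk i) + 1 := h1
    linarith
  have hHpos : ∀ i, 0 < H i := fun i => Nat.ceil_pos.2 (hsj0 _)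
  set E : ℝ := 2 * N * (A' * M / s n 0) with hE
  set L : ℝ := A' * M / s n 0 with hL
  have hL0 : 0 ≤ L := by positivity
  obtain ⟨γ, β, hγ0, ⟨α, hα1, hα2⟩, hβ, hfin⟩ := core blk I (U n) (g n) hn1.1 m a ha1 ha2 P hU hXS σ
    hσ2 Ξ hΞ hΞS R hR0 hR2 H hHpos V hV E L b (by
      intro w
      obtain ⟨T, q', h1, h2, h3, h4⟩ := hb w
      refine ⟨T, q', h1, ?_, h3.trans (hAM 0), h4⟩
      intro t ht
      have h5 : ∀ i ∈ (Finset.univ : Finset ι), ((t i).1 : ℝ) + ((t i).2 : ℝ) ≤ 2 * L := by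
        intro i _
        have h6 := h2 t ht i
        have h7 := (hAM (blk i)).trans (hAM0 (blk i))
        linarith [h6.1, h6.2]
      refine (Finset.sum_le_sum h5).trans ?_
      rw [Finset.sum_const, nsmul_eq_mul, Finset.card_univ]
      rw [hE]
      have : (Fintype.card ι : ℝ) * (2 * L) = 2 * N * (A' * M / s n 0) := by
        rw [hL, hN]
        ring
      rw [this])
  -- the order
  have hwt : (wt H γ : ℝ) < θ * M := by
    refine hn3 Ξ H M (hs α V) (wt H γ) hΞ (fun i => ⟨hH1 i, hH2 i⟩) hMj ?_ ?_ hα1 hα2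
    · intro i
      have h1 : ((hs α V).degreeOf i : ℝ) ≤ V.degreeOf i := by
        exact_mod_cast degreeOf_hs α V i
      refine h1.trans ((hdeg i).trans ((hAM (blk i)).trans ?_))
      apply div_le_div_of_nonneg_right _ (hsj0 _).le
      apply mul_le_mul_of_nonneg_right _ hMpos.le
      have : 0 ≤ N * A' * Real.log 2 := by positivity
      linarith
    · have h1 : hs α V ≠ 0 := by
        intro h2
        rw [h2, map_zero] at hα1
        exact hα1 rfl
      have h2 := l1_hs α V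
      have h3 : 0 < l1 (hs α V) := lt_of_lt_of_le one_pos (one_le_l1 h1)
      have h4 : 0 < l1 V := lt_of_lt_of_le one_pos (one_le_l1 hV)
      have h5 := Real.log_le_log h3 h2
      rw [Real.log_mul (by positivity) h4.ne', Real.log_pow] at h5
      refine h5.trans ?_
      have h6 : ((∑ i, V.degreeOf i : ℕ) : ℝ) ≤ N * L := by
        push_cast
        have h7 : ∀ i ∈ (Finset.univ : Finset ι), (V.degreeOf i : ℝ) ≤ L := by
          intro i _
          exact (hdeg i).trans ((hAM (blk i)).trans (hAM0 (blk i)))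
        refine (Finset.sum_le_sum h7).trans ?_
        rw [Finset.sum_const, nsmul_eq_mul, Finset.card_univ]
      have h8 : ((∑ i, V.degreeOf i : ℕ) : ℝ) * Real.log 2 ≤ N * L * Real.log 2 :=
        mul_le_mul_of_nonneg_right h6 hlog2.le
      have h9 := hlogV.trans (hAM 0)
      have h10 : (A' + N * A' * Real.log 2) * M / s n 0 = N * L * Real.log 2 + L := by
        rw [hL]
        field_simp
        ring
      rw [h10]
      linarith
  -- the radius part
  have hr : ∑ i, (γ i : ℝ) * P.avg (fun w => -Real.log (R w (blk i))) ≤ AR * B' * (θ * M) := by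
    have h1 : ∀ i ∈ (Finset.univ : Finset ι),
        (γ i : ℝ) * P.avg (fun w => -Real.log (R w (blk i))) ≤ AR * B' * ((γ i : ℝ) * H i) := by
      intro i _
      have h2 := hR1 (blk i)
      have h3 : P.avg (fun w => -Real.log (R w (blk i))) ≤ AR * (B' * H i) := by
        refine h2.trans ?_
        apply mul_le_mul_of_nonneg_left _ hAR
        exact mul_le_mul_of_nonneg_left (hH1 i) hB0
      calc (γ i : ℝ) * P.avg (fun w => -Real.log (R w (blk i))) ≤ (γ i : ℝ) * (AR * (B' * H i)) :=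
            mul_le_mul_of_nonneg_left h3 (Nat.cast_nonneg _)
        _ = AR * B' * ((γ i : ℝ) * H i) := by ring
    refine (Finset.sum_le_sum h1).trans ?_
    rw [← Finset.mul_sum]
    apply mul_le_mul_of_nonneg_left _ (by positivity)
    have h4 : ∑ i, (γ i : ℝ) * H i = (wt H γ : ℝ) := by
      unfold wt
      push_cast
      rfl
    rw [h4]
    exact hwt.le
  -- the deformation part
  have hdpart : ∑ k : (Σ j, Fin (m j)), (β k : ℝ) * P.avg (σ k.1 k.2) ≤
      N * A' * (1 + d) * (∑ j, Ad j) * (M / s n 0) := by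
    have h1 : ∑ k : (Σ j, Fin (m j)), (β k : ℝ) * P.avg (σ k.1 k.2) ≤
        ∑ k : (Σ j, Fin (m j)), (β k : ℝ) * (Ad k.1 * ((1 + d) * (s n k.1 / s n 0))) := by
      apply Finset.sum_le_sum
      intro k _
      apply mul_le_mul_of_nonneg_left _ (Nat.cast_nonneg _)
      refine (hσ1 k.1 k.2).trans ?_
      apply mul_le_mul_of_nonneg_left _ (hAd _)
      have := hratio1 k.1
      nlinarith
    refine h1.trans ?_
    rw [Fintype.sum_sigma]
    have h2 : ∀ j ∈ (Finset.univ : Finset (Fin (q + 1))),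
        ∑ k : Fin (m j), (β ⟨j, k⟩ : ℝ) * (Ad j * ((1 + d) * (s n j / s n 0))) ≤
        N * A' * (1 + d) * Ad j * (M / s n 0) := by
      intro j _
      rw [← Finset.sum_mul]
      have h3 : ∑ k : Fin (m j), (β ⟨j, k⟩ : ℝ) ≤ N * (A' * M / s n j) := by
        have h4 := hβ j
        have h5 : ∑ k with Sigma.fst k = j, β k = ∑ k : Fin (m j), β ⟨j, k⟩ := by
          rw [Finset.sum_filter, Fintype.sum_sigma, Finset.sum_eq_single j]
          · simp
          · intro j' _ hj'
            apply Finset.sum_eq_zero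
            intro k _
            rw [if_neg hj']
          · intro h
            exact absurd (Finset.mem_univ _) h
        rw [h5] at h4
        have h6 : (∑ k : Fin (m j), (β ⟨j, k⟩ : ℝ)) ≤ ∑ i with blk i = j, (V.degreeOf i : ℝ) := by
          exact_mod_cast h4
        refine h6.trans ?_
        have h7 : ∀ i ∈ (Finset.univ.filter fun i => blk i = j),
            (V.degreeOf i : ℝ) ≤ A' * M / s n j := by
          intro i hi
          have h8 := (Finset.mem_filter.1 hi).2
          have h9 := (hdeg i).trans (hAM (blk i))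
          rw [h8] at h9
          exact h9
        refine (Finset.sum_le_sum h7).trans ?_
        rw [Finset.sum_const, nsmul_eq_mul]
        apply mul_le_mul_of_nonneg_right
        · rw [hN]
          exact_mod_cast Finset.card_le_univ _
        · have := hsj0 j
          positivity
      have h10 : 0 ≤ Ad j * ((1 + d) * (s n j / s n 0)) := by
        have := hsj0 j
        have := hAd j
        positivity
      refine (mul_le_mul_of_nonneg_right h3 h10).trans ?_
      have h11 := (hsj0 j).ne'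
      apply le_of_eq
      field_simp
    refine (Finset.sum_le_sum h2).trans ?_
    apply le_of_eq
    rw [← Finset.sum_mul, ← Finset.mul_sum]
  -- conclusion
  have h1 : L + E * Real.log (κ + 2) = (A' + 2 * N * A' * Real.log (κ + 2)) * (M / s n 0) := by
    rw [hE, hL]
    ring
  have h2 : 0 ≤ P.avg b + AR * B' * (θ * M) + C1 * (M / s n 0) := by
    have h3 : C1 * (M / s n 0) = N * A' * (1 + d) * (∑ j, Ad j) * (M / s n 0) +
        (A' + 2 * N * A' * Real.log (κ + 2)) * (M / s n 0) := by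
      rw [hC1]
      ring
    rw [h3]
    rw [← hκ, h1] at hfin
    linarith
  have h4 : C1 * (M / s n 0) ≤ ε / 2 * M := by
    have : C1 * (M / s n 0) = C1 / s n 0 * M := by ring
    rw [this]
    exact mul_le_mul_of_nonneg_right hC1s hMpos.le
  have h5 : AR * B' * (θ * M) ≤ ε / 2 * M := by
    rw [← mul_assoc]
    exact mul_le_mul_of_nonneg_right hθ1 hMpos.le
  linarith

end SB

theorem star {ι : Type} [Fintype ι] [DecidableEq ι] {q : ℕ} (blk : ι → Fin (q + 1))
    (𝒰 : Ultrafilter ℕ) (K : ℕ → Type) [∀ n, Field (K n)] (e : ∀ n, K n →+* ℂ)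
    (U : ∀ n, ι → K n) (s : ℕ → Fin (q + 1) → ℝ) (hs : Scales q 𝒰 s)
    (hgen : ∀ Q : MvPolynomial ι ℤ, Q ≠ 0 → ∀ᶠ n in (𝒰 : Filter ℕ), aeval (U n) Q ≠ 0) :
    ∃ X : ∀ n, Finset (K n), (∀ n, ∀ x ∈ X n, x ≠ 0) ∧ ∀ A B ε : ℝ, 0 < ε →
      ∀ᶠ n in (𝒰 : Filter ℕ), ∀ (S : Subring (K n)) (P : Places (K n) S),
        (∀ i, UU S (U n i)) → (∀ x ∈ X n, x⁻¹ ∈ S) →
        (∀ i, P.avg (fun w => ‖P.lv w (U n i)‖) ≤ B * s n (blk i)) →
        Star P (U n) (fun i => s n (blk i)) (s n 0) A ε := by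
  classical
  set J : Finset (Fin (q + 1)) := insert 0 (Finset.univ.image blk) with hJ
  have h0J : (0 : Fin (q + 1)) ∈ J := Finset.mem_insert_self _ _
  have hJpos : 0 < J.card := Finset.card_pos.2 ⟨0, h0J⟩
  obtain ⟨q', hq'⟩ : ∃ q', J.card = q' + 1 := ⟨J.card - 1, by omega⟩
  set f : Fin (q' + 1) ↪o Fin (q + 1) := J.orderEmbOfFin hq' with hf
  have hrange : Set.range f = J := Finset.range_orderEmbOfFin J hq'
  have hf0 : f 0 = 0 := by
    obtain ⟨i, hi⟩ : (0 : Fin (q + 1)) ∈ Set.range f := by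
      rw [hrange]
      exact h0J
    apply le_antisymm _ (Fin.zero_le _)
    rw [← hi]
    exact f.monotone (Fin.zero_le i)
  have hblk : ∀ i, ∃ j, f j = blk i := by
    intro i
    have : blk i ∈ Set.range f := by
      rw [hrange]
      exact Finset.mem_coe.2 (Finset.mem_insert_of_mem
        (Finset.mem_image_of_mem _ (Finset.mem_univ i)))
    exact this
  choose blk' hblk' using hblk
  have hs' : Scales q' 𝒰 (fun n j => s n (f j)) := by
    refine ⟨?_, ?_⟩
    · intro T
      filter_upwards [hs.large T] with n hn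
      rw [hf0]
      exact hn
    · intro T
      filter_upwards [hs.sep T] with n hn
      intro i j hij
      exact hn (f i) (f j) (f.strictMono hij)
  have hsurj : ∀ j, j = 0 ∨ ∃ i, blk' i = j := by
    intro j
    have h1 : f j ∈ J := by
      have : f j ∈ Set.range f := ⟨j, rfl⟩
      rw [hrange] at this
      exact this
    rw [hJ, Finset.mem_insert, Finset.mem_image] at h1
    rcases h1 with h1 | ⟨i, _, h1⟩
    · left
      apply f.injective
      rw [h1, hf0]
    · right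
      refine ⟨i, f.injective ?_⟩
      rw [hblk', h1]
  obtain ⟨X, hX, hmain⟩ := SB.main blk' hsurj 𝒰 K e U (fun n j => s n (f j)) hs' hgen
  refine ⟨X, hX, ?_⟩
  intro A B ε hε
  filter_upwards [hmain A B ε hε] with n hn
  intro S P hU hXS havg
  have h1 := hn S P hU hXS (by
    intro i
    simp only [hblk']
    exact havg i)
  simp only [hblk', hf0] at h1
  exact h1

end Pool.Agent.AL
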