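import Pool.Agent.Lib.MP_c95b3b_ag_AL.DefsM
import Pool.Agent.Lib.MP_c95b3b_ag_AL.SB
import Pool.Agent.Lib.MP_c95b3b_ag_AL.MI
import Pool.Agent.Lib.MP_c95b3b_ag_AL.MK
import Pool.Agent.Lib.MP_c95b3b_ag_AL.ML
import Pool.Agent.Lib.MP_c95b3b_ag_KP.Core

/-! Project AL (MP_c95b3b_ag), module MM: no generic sequences. -/

namespace Pool.Agent.AL

open Pool.Agent.L3 Module MvPolynomial
open Pool.Agent.KP (supp vec cel key shift lvv Good pr1 pr0)

namespace MM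

section
variable {k : ℕ} {c : ℝ} {Γ : Finset (Fin k → ℝ × ℝ)} (𝒰 : Ultrafilter ℕ) (D : ℕ → DatM k c Γ)

theorem gen1 (hgen : ∀ Q : MvPolynomial (Fin k) ℤ, Q ≠ 0 →
      ∀ᶠ n in (𝒰 : Filter ℕ), aeval (D n).U Q ≠ 0) {ι : Type} (f : ι → Fin k)
    (hf : Function.Injective f) (Q : MvPolynomial ι ℤ) (hQ : Q ≠ 0) :
    ∀ᶠ n in (𝒰 : Filter ℕ), aeval (fun i => (D n).U (f i)) Q ≠ 0 := by
  have h1 : rename f Q ≠ 0 := by
    intro h
    exact hQ (rename_injective f hf (by rw [h, map_zero]))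
  filter_upwards [hgen _ h1] with n hn
  rwa [aeval_rename] at hn

theorem gen2 (hgen : ∀ Q : MvPolynomial (Fin k) ℤ, Q ≠ 0 →
      ∀ᶠ n in (𝒰 : Filter ℕ), aeval (D n).U Q ≠ 0) {ι : Type} (f : ι → Fin k)
    (hf : Function.Injective f) (𝒬 : Finset (MvPolynomial ι ℤ)) (h𝒬 : ∀ Q ∈ 𝒬, Q ≠ 0) :
    ∀ᶠ n in (𝒰 : Filter ℕ), ∀ Q ∈ 𝒬, aeval (fun i => (D n).U (f i)) Q ≠ 0 := by
  rw [Filter.eventually_all_finset]
  exact fun Q hQ => gen1 𝒰 D hgen f hf Q (h𝒬 Q hQ)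

theorem c_nonneg (x : DatM k c Γ) : 0 ≤ c := by
  obtain ⟨d, -, -⟩ := x.pl ∅ (fun x hx => absurd hx (Finset.notMem_empty x))
  exact (d.P.avg_nonneg fun w => norm_nonneg _).trans d.hg

/-- bounded heights -/
theorem bounded (hk : 0 < k) (hgen : ∀ Q : MvPolynomial (Fin k) ℤ, Q ≠ 0 →
      ∀ᶠ n in (𝒰 : Filter ℕ), aeval (D n).U Q ≠ 0) (M : ℝ)
    (hM : ∀ᶠ n in (𝒰 : Filter ℕ), ∀ i, (D n).ht i ≤ M) : False := by
  classical
  have : Nonempty (Fin k) := ⟨⟨0, hk⟩⟩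
  obtain ⟨η, hη, 𝒬, h𝒬, hT⟩ := Pool.Agent.KP.T_main' (ι := Fin k) (Fintype.card ↥Γ)
    (Fintype.card (Fin k) * (c + 4 * M))
  obtain ⟨n, hn1, hn2⟩ := (hM.and (gen2 𝒰 D hgen (fun i => i) (fun _ _ h => h) 𝒬 h𝒬)).exists
  obtain ⟨d, -, hd⟩ := (D n).pl ∅ (fun x hx => absurd hx (Finset.notMem_empty x))
  let eq := Fintype.equivFin ↥Γ
  obtain ⟨Q, hQ, hQ0⟩ := hT (D n).K d.S d.P (D n).U d.uu
    (Pool.Agent.KP.avg_lvv_le _ _ _ fun i => (hd i).2.trans (by linarith [hn1 i]))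
    (fun l => (eq.symm l).1) (fun _ => (D n).E) Finset.univ
    (fun l => by rw [Fintype.card_fin]; exact (D n).hE)
    (by
      rw [Finset.card_univ, Fintype.card_fin]
      have := d.P.D_cast_pos
      linarith)
    (fun i _ => ⟨eq ⟨_, d.hgΓ i⟩, _, d.mem (.inl i), by
      rw [Equiv.symm_apply_apply, sub_self, norm_zero]
      exact hη.le⟩)
  exact hn2 Q hQ hQ0

/-- the scales of all coordinates -/
noncomputable def tau {q : ℕ} (C : Finset (Fin k)) (blk : {i // i ∈ C} → Fin (q + 1))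
    (s : Fin (q + 1) → ℝ) (i : Fin k) : ℝ := by
  classical
  exact if h : i ∈ C then s (blk ⟨i, h⟩) else 1

theorem tau_in {q : ℕ} {C : Finset (Fin k)} (blk : {i // i ∈ C} → Fin (q + 1))
    (s : Fin (q + 1) → ℝ) {i : Fin k} (h : i ∈ C) : tau C blk s i = s (blk ⟨i, h⟩) := by
  classical
  unfold tau
  rw [dif_pos h]

theorem tau_out {q : ℕ} {C : Finset (Fin k)} (blk : {i // i ∈ C} → Fin (q + 1))
    (s : Fin (q + 1) → ℝ) {i : Fin k} (h : i ∉ C) : tau C blk s i = 1 := by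
  classical
  unfold tau
  rw [dif_neg h]

/-- the elementary estimates -/
theorem facts {q : ℕ} (C : Finset (Fin k)) (blk : {i // i ∈ C} → Fin (q + 1))
    (s : ℕ → Fin (q + 1) → ℝ) (hs : Scales q 𝒰 s) (B1 M : ℝ) (hB1 : 1 ≤ B1) (hM0 : 0 ≤ M)
    (hC : ∀ i ∈ C, ∀ T : ℝ, ∀ᶠ n in (𝒰 : Filter ℕ), T ≤ (D n).ht i)
    (hM : ∀ᶠ n in (𝒰 : Filter ℕ), ∀ i, i ∉ C → (D n).ht i ≤ M)
    (hb : ∀ᶠ n in (𝒰 : Filter ℕ), ∀ i : {i // i ∈ C}, s n (blk i) ≤ (D n).ht i.1 / 2 ∧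
      (D n).ht i.1 / 2 ≤ B1 * s n (blk i)) (H0 : ℝ) :
    ∀ᶠ n in (𝒰 : Filter ℕ), (H0 ≤ s n 0 ∧ 1 ≤ s n 0 ∧ (∀ i, 1 ≤ tau C blk (s n) i) ∧
      (∀ i ∈ C, s n 0 ≤ tau C blk (s n) i)) ∧
      ∀ d : PD k c Γ (D n).K (D n).U (D n).E,
        (∀ i, (D n).ht i ≤ c + d.P.avg (fun w => ‖d.P.lv w ((D n).U i)‖) ∧
          d.P.avg (fun w => ‖d.P.lv w ((D n).U i)‖) ≤ c + 4 * (D n).ht i) →
        (∀ i, d.P.avg (fun w => ‖d.P.lv w ((D n).U i)‖) ≤
          (c + 4 * M + 9 * B1) * tau C blk (s n) i) ∧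
        (∀ i ∈ C, tau C blk (s n) i ≤ d.P.avg (fun w => ‖d.P.lv w ((D n).U i)‖)) := by
  classical
  have hc : 0 ≤ c := c_nonneg (D 0)
  have hC2 : ∀ᶠ n in (𝒰 : Filter ℕ), ∀ i ∈ C, 2 * c ≤ (D n).ht i := by
    rw [Filter.eventually_all_finset]
    exact fun i hi => hC i hi _
  filter_upwards [hC2, hM, hb, hs.large (max 1 H0), hs.sep 1] with n h1 h2 h3 h4 h5
  have h41 : 1 ≤ s n 0 := (le_max_left _ _).trans h4
  have h6 : ∀ j, s n 0 ≤ s n j := by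
    intro j
    by_cases hj : j = 0
    · rw [hj]
    · have := h5 0 j (Fin.pos_iff_ne_zero.mpr hj)
      linarith
  have h7 : ∀ i ∈ C, s n 0 ≤ tau C blk (s n) i := by
    intro i hi
    rw [tau_in blk (s n) hi]
    exact h6 _
  have h8 : ∀ i, 1 ≤ tau C blk (s n) i := by
    intro i
    by_cases hi : i ∈ C
    · exact h41.trans (h7 i hi)
    · rw [tau_out blk (s n) hi]
  refine ⟨⟨(le_max_right _ _).trans h4, h41, h8, h7⟩, fun d hd => ⟨?_, ?_⟩⟩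
  · intro i
    by_cases hi : i ∈ C
    · have e1 := (hd i).2
      have e2 := h1 i hi
      have e3 := (h3 ⟨i, hi⟩).2
      have e4 := h8 i
      have e5 : 0 ≤ (c + 4 * M) * tau C blk (s n) i := by
        refine mul_nonneg (by linarith) (by linarith)
      rw [tau_in blk (s n) hi] at e4 e5 ⊢
      have e6 : (c + 4 * M + 9 * B1) * s n (blk ⟨i, hi⟩) =
        (c + 4 * M) * s n (blk ⟨i, hi⟩) + 9 * (B1 * s n (blk ⟨i, hi⟩)) := by ring
      rw [e6]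
      have e7 : (D n).ht i / 2 ≤ B1 * s n (blk ⟨i, hi⟩) := e3
      linarith
    · have e1 := (hd i).2
      have e2 := h2 i hi
      rw [tau_out blk (s n) hi]
      linarith
  · intro i hi
    have e1 := (hd i).1
    have e2 := h1 i hi
    have e3 : s n (blk ⟨i, hi⟩) ≤ (D n).ht i / 2 := (h3 ⟨i, hi⟩).1
    rw [tau_in blk (s n) hi]
    linarith

end

end MM

open MM in
theorem core_ms (k : ℕ) (c : ℝ) (Γ : Finset (Fin k → ℝ × ℝ)) (𝒰 : Ultrafilter ℕ)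
    (D : ℕ → DatM k c Γ)
    (hgen : ∀ Q : MvPolynomial (Fin k) ℤ, Q ≠ 0 →
      ∀ᶠ n in (𝒰 : Filter ℕ), aeval (D n).U Q ≠ 0) : False := by
  classical
  have hk : 0 < k := lt_of_le_of_lt (Nat.zero_le _) (D 0).hE
  have hc : 0 ≤ c := c_nonneg (D 0)
  set C : Finset (Fin k) := Finset.univ.filter fun i =>
    ∀ T : ℝ, ∀ᶠ n in (𝒰 : Filter ℕ), T ≤ (D n).ht i with hC
  have h0 : ∀ i, ∃ M : ℝ, i ∉ C → ∀ᶠ n in (𝒰 : Filter ℕ), (D n).ht i ≤ M := by
    intro i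
    by_cases hi : i ∈ C
    · exact ⟨0, fun h => absurd hi h⟩
    · have h1 : ¬ ∀ T : ℝ, ∀ᶠ n in (𝒰 : Filter ℕ), T ≤ (D n).ht i := fun h =>
        hi (Finset.mem_filter.mpr ⟨Finset.mem_univ _, h⟩)
      rw [not_forall] at h1
      obtain ⟨M, hM⟩ := h1
      refine ⟨M, fun _ => ?_⟩
      rw [← Ultrafilter.eventually_not] at hM
      filter_upwards [hM] with n hn
      exact (not_le.mp hn).le
  choose M hM using h0
  set M' : ℝ := ∑ i, |M i| with hM'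
  have hM0 : 0 ≤ M' := Finset.sum_nonneg fun _ _ => abs_nonneg _
  have hC0 : ∀ᶠ n in (𝒰 : Filter ℕ), ∀ i, i ∉ C → (D n).ht i ≤ M' := by
    rw [Filter.eventually_all]
    intro i
    by_cases hi : i ∈ C
    · exact Filter.Eventually.of_forall fun n h => absurd hi h
    · filter_upwards [hM i hi] with n hn _
      refine hn.trans ((le_abs_self _).trans ?_)
      exact Finset.single_le_sum (f := fun i => |M i|) (fun _ _ => abs_nonneg _)
        (Finset.mem_univ i)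
  rcases C.eq_empty_or_nonempty with hCe | ⟨j, hj⟩
  · refine bounded 𝒰 D hk hgen M' ?_
    filter_upwards [hC0] with n hn i
    exact hn i (by rw [hCe]; exact Finset.notMem_empty i)
  · have hC1 : ∀ i ∈ C, ∀ T : ℝ, ∀ᶠ n in (𝒰 : Filter ℕ), T ≤ (D n).ht i := fun i hi =>
      (Finset.mem_filter.mp hi).2
    have hne : Nonempty {i // i ∈ C} := ⟨⟨j, hj⟩⟩
    obtain ⟨q, blk, s, B1, hB1, hs, hsb⟩ := exists_scales 𝒰 {i // i ∈ C}
      (fun n i => (D n).ht i.1 / 2) (fun i T => by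
        filter_upwards [hC1 i.1 i.2 (2 * T)] with n hn
        linarith)
    obtain ⟨E0, hE0, hlim⟩ := Pool.Agent.KP.exists_limit 𝒰 (k - 1)
      (fun n => (D n).E.map (scl fun i => (tau C blk (s n) i)⁻¹)) (fun n => by
        have h1 := Submodule.finrank_map_le (scl fun i => (tau C blk (s n) i)⁻¹) (D n).E
        have h2 := (D n).hE
        omega)
    have hE0' : finrank ℝ E0 < k := by omega
    have hfacts := facts 𝒰 D C blk s hs B1 M' hB1 hM0 hC1 hC0 hsb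
    set B : ℝ := c + 4 * M' + 9 * B1 with hB
    have hB0 : 0 ≤ B := by
      rw [hB]
      linarith
    obtain ⟨I, hI, hI'⟩ := Pool.Agent.KP.maximiser (E0.map (pr1 C))
    by_cases hIu : I = Finset.univ
    · obtain ⟨hm1, hm2⟩ := hI' hIu
      obtain ⟨ε, H0, A, ε0, hε, hε0, 𝒬, h𝒬, hcore⟩ := core_large_ms k c B hB0 hc Γ C E0 hE0' hm1 hm2
      obtain ⟨X, hX, hstar⟩ := star (ι := {i // i ∈ C}) blk 𝒰 (fun n => (D n).K) (fun n => (D n).e)
        (fun n i => (D n).U i.1) s hs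
        (gen1 𝒰 D hgen (Subtype.val : {i // i ∈ C} → Fin k) Subtype.val_injective)
      obtain ⟨n, ⟨⟨⟨f1, f2, f3, f4⟩, f5⟩, h2⟩, h3, h4⟩ := (((hfacts H0).and (hstar A B ε0 hε0)).and
        ((hlim ε hε).and (gen2 𝒰 D hgen (Subtype.val : {i // i ∉ C} → Fin k)
          Subtype.val_injective 𝒬 h𝒬))).exists
      obtain ⟨d, hdX, hd⟩ := (D n).pl (X n) (hX n)
      obtain ⟨g1, g2⟩ := f5 d hd
      have hτ : (fun i : {i // i ∈ C} => tau C blk (s n) i.1) = fun i => s n (blk i) := by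
        funext i
        exact tau_in blk (s n) i.2
      obtain ⟨Q, hQ, hQ0⟩ := hcore (D n).K (D n).U (D n).E d (tau C blk (s n)) (s n 0) f1 f2 f4
        (fun i hi => tau_out blk (s n) hi) g1 h3 (by
          rw [hτ]
          refine h2 d.S d.P (fun i => d.uu _) hdX fun i => ?_
          have := g1 i.1
          rwa [tau_in blk (s n) i.2] at this)
      exact h4 Q hQ hQ0
    · obtain ⟨ε, H0, A, ε0, hε, hε0, hcore⟩ := core_big_ms k c B hB0 hc Γ C E0 I hIu hI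
      obtain ⟨X, hX, hstar⟩ := star (ι := {i // i ∉ I}) (fun i => blk i.1) 𝒰 (fun n => (D n).K)
        (fun n => (D n).e) (fun n i => (D n).U i.1.1) s hs
        (gen1 𝒰 D hgen (fun i : {i // i ∉ I} => i.1.1)
          (fun a b h => Subtype.ext (Subtype.ext h)))
      obtain ⟨n, ⟨⟨⟨f1, f2, f3, f4⟩, f5⟩, h2⟩, h3⟩ := (((hfacts H0).and (hstar A B ε0 hε0)).and
        (hlim ε hε)).exists
      obtain ⟨d, hdX, hd⟩ := (D n).pl (X n) (hX n)
      obtain ⟨g1, g2⟩ := f5 d hd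
      have hτ : (fun i : {i // i ∉ I} => tau C blk (s n) i.1.1) = fun i => s n (blk i.1) := by
        funext i
        exact tau_in blk (s n) i.1.2
      refine hcore (D n).K (D n).U (D n).E d (tau C blk (s n)) (s n 0) f1 f2 f3 f4 g1 g2 h3 ?_
      rw [hτ]
      refine h2 d.S d.P (fun i => d.uu _) hdX fun i => ?_
      have := g1 i.1.1
      rwa [tau_in blk (s n) i.1.2] at this

end Pool.Agent.AL
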