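import Pool.Agent.Lib.MP_c95b3b_ag_AL.DefsM
import Pool.Agent.Lib.MP_c95b3b_ag_AL.MM
import Pool.Agent.Lib.MP_c95b3b_ag_AL.MN
import Pool.Agent.Lib.MP_c95b3b_ag_L3.FD1

/-! Project AL (MP_c95b3b_ag), module MO: products of lines. -/

namespace Pool.Agent.AL

open Pool.Agent.L3 Module MvPolynomial
open Pool.Agent.KP (supp vec cel key shift lvv Good pr1 pr0)

namespace MO

/-- finitely many polynomials are enough for all data with the same constants -/
theorem compact (k : ℕ) (c : ℝ) (Γ : Finset (Fin k → ℝ × ℝ)) :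
    ∃ 𝒬 : Finset (MvPolynomial (Fin k) ℤ), (∀ Q ∈ 𝒬, Q ≠ 0) ∧
      ∀ D : DatM k c Γ, ∃ Q ∈ 𝒬, aeval D.U Q = 0 := by
  classical
  by_contra hcon
  push Not at hcon
  have hcount : Countable {Q : MvPolynomial (Fin k) ℤ // Q ≠ 0} := by
    have : Countable (MvPolynomial (Fin k) ℤ) := by
      rw [← Cardinal.mk_le_aleph0_iff]
      exact MvPolynomial.cardinalMk_le_max.trans (by simp)
    infer_instance
  have hne : Nonempty {Q : MvPolynomial (Fin k) ℤ // Q ≠ 0} := ⟨⟨1, one_ne_zero⟩⟩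
  obtain ⟨e, he⟩ := exists_surjective_nat {Q : MvPolynomial (Fin k) ℤ // Q ≠ 0}
  have h1 : ∀ n : ℕ, ∃ D : DatM k c Γ, ∀ m ≤ n, aeval D.U (e m).1 ≠ 0 := by
    intro n
    obtain ⟨D, hD⟩ := hcon ((Finset.range (n + 1)).image fun m => (e m).1) (by
      intro Q hQ
      obtain ⟨m, _, rfl⟩ := Finset.mem_image.mp hQ
      exact (e m).2)
    refine ⟨D, fun m hm => hD _ (Finset.mem_image.mpr ⟨m, ?_, rfl⟩)⟩
    exact Finset.mem_range.mpr (Nat.lt_succ_of_le hm)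
  choose D hD using h1
  refine core_ms k c Γ (Filter.hyperfilter ℕ) D fun Q hQ => ?_
  obtain ⟨m, hm⟩ := he ⟨Q, hQ⟩
  have h2 : ∀ᶠ n in Filter.atTop, m ≤ n := Filter.eventually_ge_atTop m
  have h3 : (↑(Filter.hyperfilter ℕ) : Filter ℕ) ≤ Filter.atTop := by
    rw [← Nat.cofinite_eq_atTop]
    exact Filter.hyperfilter_le_cofinite
  filter_upwards [h3 h2] with n hn
  have h4 := hD n m hn
  rwa [hm] at h4

end MO

theorem all_lines_nf (k : ℕ) (K0 : Type) [Field K0] [NumberField K0]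
    (a b : Fin k → K0) (ha : ∀ i, a i ≠ 0) (hb : ∀ i, b i ≠ 0) :
    ∃ F : MvPolynomial (Fin k) ℤ, F ≠ 0 ∧
    ∀ (K : Type) [Field K] [NumberField K] [Algebra K0 K] (x y : Fin k → K),
      Special (k + 1) (fun i => algebraMap K0 K (a i)) (fun i => algebraMap K0 K (b i)) x y →
      aeval (fun i => algebraMap K0 K (a i) * x i) F = 0 := by
  classical
  obtain ⟨c, Γ, hset⟩ := setup_ms k K0 a b ha hb
  obtain ⟨𝒬, h𝒬, hQ⟩ := MO.compact k c Γ
  refine ⟨∏ Q ∈ 𝒬, Q, Finset.prod_ne_zero_iff.mpr h𝒬, ?_⟩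
  intro K _ _ _ x y hsp
  obtain ⟨E, hE, hpl⟩ := hset K x y hsp
  have hemb : Nonempty (K →+* ℂ) := inferInstance
  obtain ⟨e⟩ := hemb
  let d : DatM k c Γ :=
    { K := K
      fld := inferInstance
      e := e
      U := fun i => algebraMap K0 K (a i) * x i
      E := E
      hE := hE
      ht := fun i => Height.logHeight₁ (x i) / finrank ℚ K
      pl := hpl }
  obtain ⟨Q, hQm, hQ0⟩ := hQ d
  rw [map_prod]
  exact Finset.prod_eq_zero hQm hQ0

theorem all_lines (k : ℕ) (a b : Fin k → ℂ) (ha : ∀ i, a i ≠ 0) (hb : ∀ i, b i ≠ 0)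
    (ha' : ∀ i, IsAlgebraic ℚ (a i)) (hb' : ∀ i, IsAlgebraic ℚ (b i)) :
    ∃ F : MvPolynomial (Fin k) ℤ, F ≠ 0 ∧ ∀ x y : Fin k → ℂ, Special (k + 1) a b x y →
      aeval (fun i => a i * x i) F = 0 :=
  FD.complex_of_nf k (k + 1) (fun K0 _ _ a b ha hb => all_lines_nf k K0 a b ha hb) a b ha hb
    ha' hb'

end Pool.Agent.AL
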