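import Pool.Agent.Lib.MP_c95b3b_ag_AL.DefsC
import Pool.Agent.Lib.MP_c95b3b_ag_AL.CD
import Pool.Agent.Lib.MP_c95b3b_ag_AL.CE
import Pool.Agent.Lib.MP_c95b3b_ag_AL.MO
import Pool.Agent.Lib.MP_c95b3b_ag_R.Main

/-! Project AL (MP_c95b3b_ag), module CI: the unlikely points of the image. -/

namespace Pool.Agent.AL

open Module MvPolynomial Pool.Agent.CITR
open Pool.Agent.L3 (Special)

namespace CI

/-- the products of the monomials -/
theorem prod_eq {k m : ℕ} (γ : Fin m → Fin (k + k) → ℤ) (g : Fin (k + k) → ℂ) (t : Fin k → ℂ)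
    (l : Fin m) :
    (∏ j, g j ^ γ l j) *
      ∏ i, (t i ^ γ l (Fin.castAdd k i) * (1 - t i) ^ γ l (Fin.natAdd k i)) =
    ∏ i, ((t i * g (Fin.castAdd k i)) ^ γ l (Fin.castAdd k i) *
      ((1 - t i) * g (Fin.natAdd k i)) ^ γ l (Fin.natAdd k i)) := by
  rw [Fin.prod_univ_add, ← Finset.prod_mul_distrib, ← Finset.prod_mul_distrib]
  refine Finset.prod_congr rfl fun i _ => ?_
  rw [mul_zpow, mul_zpow]
  ring

theorem zpow_sum {m : ℕ} (x : ℂ) (hx : x ≠ 0) (f : Fin m → ℤ) :
    x ^ (∑ l, f l) = ∏ l, x ^ f l := by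
  classical
  have h : ∀ s : Finset (Fin m), x ^ (∑ l ∈ s, f l) = ∏ l ∈ s, x ^ f l := by
    intro s
    induction s using Finset.induction_on with
    | empty => simp
    | insert a s ha ih => rw [Finset.sum_insert ha, Finset.prod_insert ha, zpow_add₀ hx, ih]
  exact h Finset.univ

theorem prod_pow {k m : ℕ} (γ : Fin m → Fin (k + k) → ℤ) (u v : Fin k → ℂ) (hu : ∀ i, u i ≠ 0)
    (hv : ∀ i, v i ≠ 0) (a : Fin m → ℤ) :
    ∏ l, (∏ i, (u i ^ γ l (Fin.castAdd k i) * v i ^ γ l (Fin.natAdd k i))) ^ a l =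
    ∏ i, (u i ^ (∑ l, a l * γ l (Fin.castAdd k i)) *
      v i ^ (∑ l, a l * γ l (Fin.natAdd k i))) := by
  have h1 : ∀ i, u i ^ (∑ l, a l * γ l (Fin.castAdd k i)) *
      v i ^ (∑ l, a l * γ l (Fin.natAdd k i)) =
      ∏ l, (u i ^ (a l * γ l (Fin.castAdd k i)) * v i ^ (a l * γ l (Fin.natAdd k i))) := by
    intro i
    rw [zpow_sum _ (hu i), zpow_sum _ (hv i), Finset.prod_mul_distrib]
  rw [Finset.prod_congr rfl fun i _ => h1 i, Finset.prod_comm]
  refine Finset.prod_congr rfl fun l _ => ?_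
  rw [← Finset.prod_zpow]
  refine Finset.prod_congr rfl fun i _ => ?_
  rw [mul_zpow, ← zpow_mul, ← zpow_mul, mul_comm (a l), mul_comm (a l)]

theorem special {k m : ℕ} (γ : Fin m → Fin (k + k) → ℤ) (hγ : LinearIndependent ℤ γ)
    (g : Fin (k + k) → ℂ) (hg : ∀ j, g j ≠ 0) (S : Finset (Fin k))
    (hS : ∀ i, i ∉ S → ∀ l, γ l (Fin.castAdd k i) = 0 ∧ γ l (Fin.natAdd k i) = 0)
    (e : Fin S.card ≃ S) (t : Fin k → ℂ) (ht : ∀ i, t i ≠ 0) (ht1 : ∀ i, 1 - t i ≠ 0)
    (Λ : Submodule ℤ (Fin m → ℤ)) (hΛ : S.card + 1 ≤ finrank ℤ Λ)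
    (hrel : ∀ a ∈ Λ, ∏ l, ((∏ j, g j ^ γ l j) *
      ∏ i, (t i ^ γ l (Fin.castAdd k i) * (1 - t i) ^ γ l (Fin.natAdd k i))) ^ a l = 1) :
    Special (S.card + 1) (fun j => (g (Fin.castAdd k (e j : Fin k)))⁻¹)
      (fun j => (g (Fin.natAdd k (e j : Fin k)))⁻¹)
      (fun j => t (e j) * g (Fin.castAdd k (e j : Fin k)))
      (fun j => (1 - t (e j)) * g (Fin.natAdd k (e j : Fin k))) := by
  refine ⟨fun j => ⟨mul_ne_zero (ht _) (hg _), mul_ne_zero (ht1 _) (hg _), ?_⟩, ?_⟩
  · have h1 := hg (Fin.castAdd k (e j : Fin k))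
    have h2 := hg (Fin.natAdd k (e j : Fin k))
    have h3 : (g (Fin.castAdd k (e j : Fin k)))⁻¹ * (t (e j) * g (Fin.castAdd k (e j : Fin k))) =
        t (e j) := by
      rw [mul_comm (t _), ← mul_assoc, inv_mul_cancel₀ h1, one_mul]
    have h4 : (g (Fin.natAdd k (e j : Fin k)))⁻¹ *
        ((1 - t (e j)) * g (Fin.natAdd k (e j : Fin k))) = 1 - t (e j) := by
      rw [mul_comm (1 - t _), ← mul_assoc, inv_mul_cancel₀ h2, one_mul]
    simp only []
    rw [h3, h4]
    ring
  · let T : (Fin m → ℤ) →ₗ[ℤ] (Fin S.card → ℤ × ℤ) :=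
      { toFun := fun a j => (∑ l, a l * γ l (Fin.castAdd k (e j : Fin k)),
          ∑ l, a l * γ l (Fin.natAdd k (e j : Fin k)))
        map_add' := by
          intro a b
          funext j
          simp only [Pi.add_apply, add_mul, Finset.sum_add_distrib, Prod.mk_add_mk]
        map_smul' := by
          intro c a
          funext j
          simp only [Pi.smul_apply, smul_eq_mul, RingHom.id_apply, Prod.smul_mk, Finset.mul_sum,
            mul_assoc] }
    have hT1 : ∀ a j, (T a j).1 = ∑ l, a l * γ l (Fin.castAdd k (e j : Fin k)) := fun _ _ => rfl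
    have hT2 : ∀ a j, (T a j).2 = ∑ l, a l * γ l (Fin.natAdd k (e j : Fin k)) := fun _ _ => rfl
    have hT : Function.Injective T := by
      rw [injective_iff_map_eq_zero]
      intro a ha
      have h1 : ∀ c : Fin (k + k), ∑ l, a l * γ l c = 0 := by
        intro c
        refine Fin.addCases (fun i => ?_) (fun i => ?_) c
        · by_cases hi : i ∈ S
          · have h2 := congrArg Prod.fst (congrFun ha (e.symm ⟨i, hi⟩))
            rw [hT1, Equiv.apply_symm_apply] at h2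
            exact h2
          · exact Finset.sum_eq_zero fun l _ => by rw [(hS i hi l).1, mul_zero]
        · by_cases hi : i ∈ S
          · have h2 := congrArg Prod.snd (congrFun ha (e.symm ⟨i, hi⟩))
            rw [hT2, Equiv.apply_symm_apply] at h2
            exact h2
          · exact Finset.sum_eq_zero fun l _ => by rw [(hS i hi l).2, mul_zero]
      have h3 : ∑ l, a l • γ l = 0 := by
        funext c
        rw [Finset.sum_apply]
        simpa only [Pi.smul_apply, smul_eq_mul, Pi.zero_apply] using h1 c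
      funext l
      exact Fintype.linearIndependent_iff.mp hγ a h3 l
    refine ⟨Λ.map T, ?_, ?_⟩
    · rw [LinearEquiv.finrank_eq (Submodule.equivMapOfInjective T hT Λ).symm]
      exact hΛ
    · rintro _ ⟨a, ha, rfl⟩
      have h1 := hrel a ha
      simp_rw [prod_eq γ g t] at h1
      rw [prod_pow γ (fun i => t i * g (Fin.castAdd k i)) (fun i => (1 - t i) * g (Fin.natAdd k i))
        (fun i => mul_ne_zero (ht _) (hg _)) (fun i => mul_ne_zero (ht1 _) (hg _))] at h1
      refine Eq.trans ?_ h1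
      have h2 : ∏ j : Fin S.card, ((t (e j) * g (Fin.castAdd k (e j : Fin k))) ^
            (∑ l, a l * γ l (Fin.castAdd k (e j : Fin k))) *
          ((1 - t (e j)) * g (Fin.natAdd k (e j : Fin k))) ^
            (∑ l, a l * γ l (Fin.natAdd k (e j : Fin k)))) =
          ∏ i : S, ((t i * g (Fin.castAdd k (i : Fin k))) ^
            (∑ l, a l * γ l (Fin.castAdd k (i : Fin k))) *
          ((1 - t i) * g (Fin.natAdd k (i : Fin k))) ^
            (∑ l, a l * γ l (Fin.natAdd k (i : Fin k)))) :=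
        Equiv.prod_comp e (fun i : S => ((t i * g (Fin.castAdd k (i : Fin k))) ^
            (∑ l, a l * γ l (Fin.castAdd k (i : Fin k))) *
          ((1 - t i) * g (Fin.natAdd k (i : Fin k))) ^
            (∑ l, a l * γ l (Fin.natAdd k (i : Fin k)))))
      refine Eq.trans h2 ?_
      rw [Finset.prod_coe_sort S (fun i => ((t i * g (Fin.castAdd k (i : Fin k))) ^
            (∑ l, a l * γ l (Fin.castAdd k (i : Fin k))) *
          ((1 - t i) * g (Fin.natAdd k (i : Fin k))) ^
            (∑ l, a l * γ l (Fin.natAdd k (i : Fin k)))))]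
      refine Finset.prod_subset (Finset.subset_univ S) fun i _ hi => ?_
      have h3 : ∑ l, a l * γ l (Fin.castAdd k i) = 0 :=
        Finset.sum_eq_zero fun l _ => by rw [(hS i hi l).1, mul_zero]
      have h4 : ∑ l, a l * γ l (Fin.natAdd k i) = 0 :=
        Finset.sum_eq_zero fun l _ => by rw [(hS i hi l).2, mul_zero]
      rw [h3, h4, zpow_zero, zpow_zero, one_mul]

/-- ring homomorphisms and powers of units -/
theorem map_unit_zpow {R F : Type} [CommRing R] [Field F] (f : R →+* F) (U : Rˣ) (n : ℤ) :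
    f ((U ^ n : Rˣ) : R) = (f (U : R)) ^ n := by
  have h1 : (Units.map (f : R →* F) (U ^ n) : Fˣ) = (Units.map (f : R →* F) U) ^ n :=
    map_zpow _ _ _
  have h2 := congrArg (fun z : Fˣ => (z : F)) h1
  simp only [Units.val_zpow_eq_zpow_val] at h2
  exact h2

/-- the point of the affine space obtained from a homomorphism -/
theorem point {k m : ℕ} {K B : Type} [Field K] [CommRing B] (ι : B →+* K)
    (hι : Function.Injective ι) (ψ : B →+* ℂ) (u : Fin k → K) (S : Finset (Fin k))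
    (hu : ∀ i ∈ S, u i ≠ 0 ∧ 1 - u i ≠ 0 ∧ (∃ b, ι b = u i) ∧ (∃ b, ι b = (u i)⁻¹) ∧
      ∃ b, ι b = (1 - u i)⁻¹) (γ : Fin m → Fin (k + k) → ℤ)
    (hS : ∀ i, i ∉ S → ∀ l, γ l (Fin.castAdd k i) = 0 ∧ γ l (Fin.natAdd k i) = 0) :
    ∃ t : Fin k → ℂ, (∀ i, t i ≠ 0) ∧ (∀ i, 1 - t i ≠ 0) ∧
      (∀ i ∈ S, ∃ b, ι b = u i ∧ ψ b = t i) ∧
      ∀ l, ∃ b, ι b = ∏ i, (u i ^ γ l (Fin.castAdd k i) * (1 - u i) ^ γ l (Fin.natAdd k i)) ∧
        ψ b = ∏ i, (t i ^ γ l (Fin.castAdd k i) * (1 - t i) ^ γ l (Fin.natAdd k i)) := by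
  classical
  have h1 : ∀ i, ∃ U V : Bˣ, i ∈ S → ι (U : B) = u i ∧ ι (V : B) = 1 - u i := by
    intro i
    by_cases hi : i ∈ S
    · obtain ⟨h0, h1, ⟨b, hb⟩, ⟨b', hb'⟩, ⟨b'', hb''⟩⟩ := hu i hi
      have e1 : b * b' = 1 := hι (by rw [map_mul, hb, hb', map_one, mul_inv_cancel₀ h0])
      have e2 : (1 - b) * b'' = 1 :=
        hι (by rw [map_mul, map_sub, map_one, hb, hb'', mul_inv_cancel₀ h1])
      refine ⟨⟨b, b', e1, by rw [mul_comm]; exact e1⟩, ⟨1 - b, b'', e2, by rw [mul_comm]; exact e2⟩,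
        fun _ => ⟨hb, ?_⟩⟩
      change ι (1 - b) = _
      rw [map_sub, map_one, hb]
    · exact ⟨1, 1, fun h => absurd h hi⟩
  choose U V hUV using h1
  have hV : ∀ i ∈ S, (V i : B) = 1 - (U i : B) := by
    intro i hi
    apply hι
    rw [map_sub, map_one, (hUV i hi).1, (hUV i hi).2]
  refine ⟨fun i => if i ∈ S then ψ (U i : B) else 2, fun i => ?_, fun i => ?_, fun i hi => ?_,
    fun l => ?_⟩
  · by_cases hi : i ∈ S
    · simp only [if_pos hi]
      exact ((U i).isUnit.map ψ).ne_zero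
    · simp only [if_neg hi]
      norm_num
  · by_cases hi : i ∈ S
    · simp only [if_pos hi]
      have h2 : (1 : ℂ) - ψ (U i : B) = ψ (V i : B) := by
        rw [hV i hi, map_sub, map_one]
      rw [h2]
      exact ((V i).isUnit.map ψ).ne_zero
    · simp only [if_neg hi]
      norm_num
  · refine ⟨(U i : B), (hUV i hi).1, ?_⟩
    simp only [if_pos hi]
  · refine ⟨∏ i, (((U i ^ γ l (Fin.castAdd k i) : Bˣ) : B) *
      ((V i ^ γ l (Fin.natAdd k i) : Bˣ) : B)), ?_, ?_⟩
    · rw [map_prod]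
      refine Finset.prod_congr rfl fun i _ => ?_
      rw [map_mul, map_unit_zpow, map_unit_zpow]
      by_cases hi : i ∈ S
      · rw [(hUV i hi).1, (hUV i hi).2]
      · rw [(hS i hi l).1, (hS i hi l).2, zpow_zero, zpow_zero, zpow_zero, zpow_zero]
    · rw [map_prod]
      refine Finset.prod_congr rfl fun i _ => ?_
      rw [map_mul, map_unit_zpow, map_unit_zpow]
      by_cases hi : i ∈ S
      · simp only [if_pos hi]
        rw [hV i hi, map_sub, map_one]
      · rw [(hS i hi l).1, (hS i hi l).2, zpow_zero, zpow_zero, zpow_zero, zpow_zero]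

theorem uc_aeval_ne_zero {k k' : ℕ} (e : Fin k' → Fin k) (he : Function.Injective e)
    (F : MvPolynomial (Fin k') ℤ) (hF : F ≠ 0) : aeval (fun j => uc k (e j)) F ≠ 0 := by
  have h1 : aeval (fun j => uc k (e j)) F = algebraMap (MvPolynomial (Fin k) ℂ) (KC k)
      (rename e (map (Int.castRingHom ℂ) F)) := by
    clear hF
    induction F using MvPolynomial.induction_on with
    | C a => simp
    | add p q hp hq => rw [map_add, map_add, map_add, map_add, hp, hq]
    | mul_X p i hp =>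
      rw [map_mul, map_mul, map_mul, map_mul, hp, aeval_X, map_X, rename_X]
      rfl
  rw [h1]
  intro h2
  have h3 := IsFractionRing.injective (MvPolynomial (Fin k) ℂ) (KC k) (h2.trans (map_zero _).symm)
  have h4 := rename_injective e he (h3.trans (map_zero _).symm)
  exact hF (map_injective _ (RingHom.injective_int _) (h4.trans (map_zero _).symm))

theorem map_aeval_int {R R' : Type} [CommRing R] [CommRing R'] [Algebra ℤ R] [Algebra ℤ R']
    {k' : ℕ} (f : R →+* R') (b : Fin k' → R) (F : MvPolynomial (Fin k') ℤ) :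
    f (aeval b F) = aeval (fun j => f (b j)) F := by
  induction F using MvPolynomial.induction_on with
  | C a =>
    rw [aeval_C, aeval_C, eq_intCast, eq_intCast, map_intCast]
  | add p q hp hq => rw [map_add, map_add, map_add, hp, hq]
  | mul_X p i hp => rw [map_mul, map_mul, map_mul, hp, aeval_X, aeval_X]

theorem eval_ne {K B : Type} [Field K] [CommRing B] [Algebra ℤ K] (ι : B →+* K)
    (hι : Function.Injective ι) (ψ : B →+* ℂ) {k' : ℕ} (b : Fin k' → B) (v : B)
    (F : MvPolynomial (Fin k') ℤ) (hw : aeval (fun j => ι (b j)) F ≠ 0)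
    (hv : ι v = (aeval (fun j => ι (b j)) F)⁻¹) : aeval (fun j => ψ (b j)) F ≠ 0 := by
  have h3 : aeval b F * v = 1 :=
    hι (by rw [map_mul, map_aeval_int ι b F, hv, map_one, mul_inv_cancel₀ hw])
  intro h4
  have h5 := congrArg ψ h3
  rw [map_mul, map_aeval_int ψ b F, h4, zero_mul, map_one] at h5
  exact zero_ne_one h5

theorem aeval_alg {A K : Type} [CommRing A] [IsDomain A] [Field K] [Algebra A K] [Algebra ℤ K]
    {k' : ℕ} (u : Fin k' → K) (hu : ∀ j, IsAlgebraic A (u j)) (F : MvPolynomial (Fin k') ℤ) :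
    IsAlgebraic A (aeval u F) := by
  induction F using MvPolynomial.induction_on with
  | C a =>
    rw [aeval_C]
    have h1 : algebraMap ℤ K a = algebraMap A K (a : A) := by rw [eq_intCast, map_intCast]
    rw [h1]
    exact isAlgebraic_algebraMap _
  | add p q hp hq =>
    rw [map_add]
    exact hp.add hq
  | mul_X p i hp =>
    rw [map_mul, aeval_X]
    exact hp.mul (hu i)

theorem exists_w {k k' : ℕ} (e : Fin k' → Fin k) (he : Function.Injective e)
    (F : MvPolynomial (Fin k') ℤ) (hF : F ≠ 0) : ∃ w : KC k, w ≠ 0 ∧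
    (∀ (A : Type) [CommRing A] [IsDomain A] [Algebra A (KC k)],
      (∀ j, IsAlgebraic A (uc k (e j))) → IsAlgebraic A w) ∧
    ∀ (B : Type) [CommRing B] (ι : B →+* KC k), Function.Injective ι → ∀ (ψ : B →+* ℂ)
      (b : Fin k' → B) (v : B), (∀ j, ι (b j) = uc k (e j)) → ι v = w⁻¹ →
      ∀ t : Fin k' → ℂ, (∀ j, ψ (b j) = t j) → aeval t F ≠ 0 := by
  refine ⟨_, uc_aeval_ne_zero e he F hF, ?_, ?_⟩
  · intro A _ _ _ h
    exact aeval_alg _ h F
  · intro B _ ι hι ψ b v hb hv t ht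
    have h1 : (fun j => ι (b j)) = fun j => uc k (e j) := funext hb
    have h2 : (fun j => ψ (b j)) = t := funext ht
    rw [← h2]
    rw [← h1] at hv
    refine eval_ne ι hι ψ b v F ?_ hv
    rw [h1]
    exact uc_aeval_ne_zero e he F hF

theorem finish {R : Type} [CommRing R] [Nontrivial R] (m r s : ℕ)
    (h : ringKrullDim R + ((m - r : ℕ) : WithBot ℕ∞) + 1 ≤ (m : WithBot ℕ∞))
    (hs : (s : WithBot ℕ∞) ≤ ringKrullDim R) : s + 1 ≤ r := by
  obtain ⟨d, hd⟩ := MainAux.exists_dim m _ h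
  rw [hd] at h hs
  have h1 : d + (m - r) + 1 ≤ m := by exact_mod_cast h
  have h2 : s ≤ d := by exact_mod_cast hs
  omega

end CI

theorem image_unlikely {k m : ℕ} (γ : Fin m → Fin (k + k) → ℤ) (hγ : LinearIndependent ℤ γ)
    (g : Fin (k + k) → ℂ) (hg : ∀ j, g j ≠ 0 ∧ IsAlgebraic ℚ (g j))
    (Q : Ideal (MvPolynomial (Fin m) ℂ)) (hQp : Q.IsPrime)
    (hQ : ∀ f, f ∈ Q ↔
      aeval (fun l => algebraMap ℂ (KC k) (∏ j, g j ^ γ l j) * mc γ l) f = 0)
    (halg : ∀ i, Occ γ i → IsAlgebraic (Algebra.adjoin ℂ (Set.range (mc γ))) (uc k i)) :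
    ∃ h ∉ Q, ∀ y, Unlikely m Q y → eval y h = 0 := by
  classical
  set c : Fin m → ℂ := fun l => ∏ j, g j ^ γ l j with hc
  have hc0 : ∀ l, c l ≠ 0 := fun l =>
    Finset.prod_ne_zero_iff.mpr fun j _ => zpow_ne_zero _ (hg j).1
  set z : Fin m → KC k := fun l => algebraMap ℂ (KC k) (c l) * mc γ l with hz
  -- the indices which occur
  let S : Finset (Fin k) := Finset.univ.filter (Occ γ)
  have hSmem : ∀ i ∈ S, Occ γ i := fun i hi => (Finset.mem_filter.mp hi).2
  have hSout : ∀ i, i ∉ S → ∀ l, γ l (Fin.castAdd k i) = 0 ∧ γ l (Fin.natAdd k i) = 0 := by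
    intro i hi l
    have h1 : ¬ Occ γ i := fun h => hi (Finset.mem_filter.mpr ⟨Finset.mem_univ _, h⟩)
    simp only [Occ, not_exists, not_or, not_not] at h1
    exact h1 l
  let e : Fin S.card ≃ S := S.equivFin.symm
  have he : Function.Injective (fun j => (e j : Fin k)) :=
    Subtype.val_injective.comp e.injective
  -- the polynomial of the lines
  obtain ⟨F, hF, hFs⟩ := all_lines S.card (fun j => (g (Fin.castAdd k (e j : Fin k)))⁻¹)
    (fun j => (g (Fin.natAdd k (e j : Fin k)))⁻¹) (fun j => inv_ne_zero (hg _).1)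
    (fun j => inv_ne_zero (hg _).1) (fun j => (hg _).2.inv) (fun j => (hg _).2.inv)
  obtain ⟨w, -, hwalg, hweval⟩ := CI.exists_w (fun j => (e j : Fin k)) he F hF
  -- the ring
  let A := MvPolynomial (Fin m) ℂ ⧸ Q
  have hdom : IsDomain A := Ideal.Quotient.isDomain Q
  let jA : A →ₐ[ℂ] KC k := Ideal.Quotient.liftₐ Q (aeval z) (fun a ha => (hQ a).mp ha)
  have hjmk : ∀ f, jA (Ideal.Quotient.mk Q f) = aeval z f := fun f => rfl
  have hj : Function.Injective jA := by
    rw [injective_iff_map_eq_zero]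
    intro r hr
    obtain ⟨f, rfl⟩ := Ideal.Quotient.mk_surjective r
    rw [Ideal.Quotient.eq_zero_iff_mem]
    exact (hQ f).mpr hr
  let _ : Algebra A (KC k) := (jA : A →+* KC k).toAlgebra
  have hmap : ∀ x : A, algebraMap A (KC k) x = jA x := fun x => rfl
  -- algebraicity
  have hadj : Algebra.adjoin ℂ (Set.range (mc γ)) = (aeval z : MvPolynomial (Fin m) ℂ →ₐ[ℂ] KC k).range := by
    rw [← Algebra.adjoin_range_eq_range_aeval]
    refine le_antisymm (Algebra.adjoin_le ?_) (Algebra.adjoin_le ?_)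
    · rintro _ ⟨l, rfl⟩
      have h5 : mc γ l = algebraMap ℂ (KC k) (c l)⁻¹ * z l := by
        rw [hz]
        simp only
        rw [← mul_assoc, ← map_mul, inv_mul_cancel₀ (hc0 l), map_one, one_mul]
      rw [h5]
      exact Subalgebra.mul_mem _ (Subalgebra.algebraMap_mem _ _)
        (Algebra.subset_adjoin ⟨l, rfl⟩)
    · rintro _ ⟨l, rfl⟩
      exact Subalgebra.mul_mem _ (Subalgebra.algebraMap_mem _ _)
        (Algebra.subset_adjoin ⟨l, rfl⟩)
  have halgA : ∀ i, Occ γ i → IsAlgebraic A (uc k i) := by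
    intro i hi
    have h1 := halg i hi
    have hr : ∀ x : A, algebraMap A (KC k) x ∈ Algebra.adjoin ℂ (Set.range (mc γ)) := by
      intro x
      obtain ⟨f, rfl⟩ := Ideal.Quotient.mk_surjective x
      rw [hadj, hmap, hjmk]
      exact ⟨f, rfl⟩
    let fA : A →+* Algebra.adjoin ℂ (Set.range (mc γ)) :=
      (algebraMap A (KC k)).codRestrict (Algebra.adjoin ℂ (Set.range (mc γ))) hr
    refine IsAlgebraic.of_ringHom_of_comp_eq (S := Algebra.adjoin ℂ (Set.range (mc γ)))
      (B := KC k) (a := uc k i) (f := fA) (g := RingHom.id (KC k)) h1 ?_ Function.injective_id ?_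
    · rintro ⟨x, hx⟩
      have hx' := hx
      rw [hadj] at hx'
      obtain ⟨f, hf⟩ := hx'
      exact ⟨Ideal.Quotient.mk Q f, Subtype.ext hf⟩
    · rfl
  -- the finite set
  let s : Finset (KC k) := S.image (uc k) ∪ S.image (fun i => (uc k i)⁻¹) ∪
    S.image (fun i => (1 - uc k i)⁻¹) ∪ {w⁻¹}
  have hs : ∀ r ∈ s, IsAlgebraic A r := by
    intro r hr
    simp only [s, Finset.mem_union, Finset.mem_image, Finset.mem_singleton] at hr
    rcases hr with ((⟨i, hi, rfl⟩ | ⟨i, hi, rfl⟩) | ⟨i, hi, rfl⟩) | rfl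
    · exact halgA i (hSmem i hi)
    · exact (halgA i (hSmem i hi)).inv
    · exact (isAlgebraic_one.sub (halgA i (hSmem i hi))).inv
    · exact (hwalg A fun j => halgA _ (hSmem _ (e j).2)).inv
  obtain ⟨hA, hA0, hext⟩ := ext_hom (A := A) (K := KC k) hj s hs
  obtain ⟨h, rfl⟩ := Ideal.Quotient.mk_surjective hA
  refine ⟨h, fun hmem => hA0 (Ideal.Quotient.eq_zero_iff_mem.mpr hmem), fun y hy => ?_⟩
  by_contra hy0
  obtain ⟨⟨hy1, hy2⟩, Λ, hΛ, hrel⟩ := hy
  let φ : A →+* ℂ := Ideal.Quotient.lift Q (eval y) hy2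
  have hφ : ∀ f, φ (Ideal.Quotient.mk Q f) = eval y f := fun f => Ideal.Quotient.lift_mk Q _ _
  obtain ⟨ψ, hψ⟩ := hext φ (by rw [hφ]; exact hy0)
  let B := Algebra.adjoin A (s : Set (KC k))
  let ι : B →+* KC k := B.subtype
  have hι : Function.Injective ι := Subtype.val_injective
  have hmemB : ∀ r ∈ s, ∃ b : B, ι b = r := fun r hr => ⟨⟨r, Algebra.subset_adjoin hr⟩, rfl⟩
  have hu0 : ∀ i, uc k i ≠ 0 := by
    intro i hi
    have h1 : (X i : MvPolynomial (Fin k) ℂ) = 0 :=
      IsFractionRing.injective (MvPolynomial (Fin k) ℂ) (KC k) (hi.trans (map_zero _).symm)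
    exact X_ne_zero i h1
  have hu1 : ∀ i, 1 - uc k i ≠ 0 := by
    intro i hi
    have h1 : (1 - X i : MvPolynomial (Fin k) ℂ) = 0 := by
      apply IsFractionRing.injective (MvPolynomial (Fin k) ℂ) (KC k)
      rw [map_sub, map_one, map_zero]
      exact hi
    have h2 := congrArg (eval (fun _ => (0 : ℂ))) h1
    simp at h2
  have hin : ∀ i ∈ S, uc k i ≠ 0 ∧ 1 - uc k i ≠ 0 ∧ (∃ b, ι b = uc k i) ∧
      (∃ b, ι b = (uc k i)⁻¹) ∧ ∃ b, ι b = (1 - uc k i)⁻¹ := by
    intro i hi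
    refine ⟨hu0 i, hu1 i, hmemB _ ?_, hmemB _ ?_, hmemB _ ?_⟩
    · exact Finset.mem_union_left _ (Finset.mem_union_left _ (Finset.mem_union_left _
        (Finset.mem_image_of_mem _ hi)))
    · exact Finset.mem_union_left _ (Finset.mem_union_left _ (Finset.mem_union_right _
        (Finset.mem_image_of_mem _ hi)))
    · exact Finset.mem_union_left _ (Finset.mem_union_right _ (Finset.mem_image_of_mem _ hi))
  obtain ⟨t, ht0, ht1, htS, htm⟩ := CI.point (K := KC k) (B := B) ι hι ψ (uc k) S hin γ hSout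
  have hψA : ∀ x : A, ψ (algebraMap A B x) = φ x := fun x => congrArg (fun f : A →+* ℂ => f x) hψ
  -- the coordinates of the point
  have hyl : ∀ l, y l = c l * ∏ i, (t i ^ γ l (Fin.castAdd k i) *
      (1 - t i) ^ γ l (Fin.natAdd k i)) := by
    intro l
    obtain ⟨b, hb, hb'⟩ := htm l
    have h1 : algebraMap A B (Ideal.Quotient.mk Q (X l)) =
        algebraMap A B (Ideal.Quotient.mk Q (C (c l))) * b := by
      apply hι
      rw [map_mul, hb]
      have h2 : ι (algebraMap A B (Ideal.Quotient.mk Q (X l))) = aeval z (X l) := rfl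
      have h3 : ι (algebraMap A B (Ideal.Quotient.mk Q (C (c l)))) = aeval z (C (c l)) := rfl
      rw [h2, h3, aeval_X, aeval_C]
      rfl
    have h4 := congrArg ψ h1
    rw [map_mul, hψA, hψA, hφ, hφ, eval_X, eval_C, hb'] at h4
    exact h4
  -- the polynomial does not vanish
  have hFt : aeval (fun j => t (e j)) F ≠ 0 := by
    choose b hb hb' using fun j : Fin S.card => htS (e j) (e j).2
    obtain ⟨v, hv⟩ := hmemB w⁻¹ (Finset.mem_union_right _ (Finset.mem_singleton_self _))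
    exact hweval B ι hι ψ b v hb hv _ hb'
  -- the relations
  have hdim := dim_ge γ c hc0 Q hQp hQ S (fun i hi => halg i (hSmem i hi))
  have hfin := CI.finish m (finrank ℤ Λ) S.card hΛ hdim
  have hsp := CI.special γ hγ g (fun j => (hg j).1) S hSout e t ht0 ht1 Λ hfin (by
    intro a ha
    refine Eq.trans ?_ (hrel a ha)
    exact Finset.prod_congr rfl fun l _ => by rw [hyl l])
  have hz0 := hFs _ _ hsp
  apply hFt
  rw [← hz0]
  congr 2
  funext j
  rw [mul_comm (t _), ← mul_assoc, inv_mul_cancel₀ (hg _).1, one_mul]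

end Pool.Agent.AL
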