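import Pool.Agent.Lib.MP_c95b3b_ag_AL.CA
import Pool.Agent.Lib.MP_c95b3b_ag_AL.CB
import Pool.Agent.Lib.MP_c95b3b_ag_AL.CC
import Pool.Agent.Lib.MP_c95b3b_ag_AL.CF
import Pool.Agent.Lib.MP_c95b3b_ag_AL.CG
import Pool.Agent.Lib.MP_c95b3b_ag_AL.CH
import Pool.Agent.Lib.MP_c95b3b_ag_AL.CI

/-! Project AL (MP_c95b3b_ag), module CJ: complex coefficients. -/

namespace Pool.Agent.AL

open Module MvPolynomial Pool.Agent.CITR
open Pool.Agent.L3 (Special)

theorem all_linesC (k : ℕ) (a b : Fin k → ℂ) (ha : ∀ i, a i ≠ 0) (hb : ∀ i, b i ≠ 0) :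
    ∃ F : MvPolynomial (Fin k) ℂ, F ≠ 0 ∧ ∀ x y : Fin k → ℂ, Special (k + 1) a b x y →
      eval x F = 0 := by
  by_contra hcon
  push Not at hcon
  have H : ∀ F : MvPolynomial (Fin k) ℂ, (∀ x y, Special (k + 1) a b x y → eval x F = 0) →
      F = 0 := by
    intro F hF
    by_contra hF0
    obtain ⟨x, y, h1, h2⟩ := hcon F hF0
    exact h2 (hF x y h1)
  have hPp := PL_prime k a b
  have hX := PL_X k a b ha hb
  have hU : ∀ f : MvPolynomial (Fin (k + k)) ℂ,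
      (∀ x, Unlikely (k + k) (PL k a b) x → eval x f = 0) →
        ∀ x, OnTorus (k + k) (PL k a b) x → eval x f = 0 := by
    intro f hf x hx
    exact hx.2 f (PL_dense k a b ha hb f H fun x y h => hf _ (PL_unlikely k a b hb x y h))
  obtain ⟨m, γ, Q, hI, hfin⟩ := result_stab (k + k) (PL k a b) hPp hX hU (PL_not_sub k a b ha hb)
  let g : Fin (k + k) → ℂ := Fin.append (fun i => (a i)⁻¹) (fun i => (b i)⁻¹)
  have hg0 : ∀ j, g j ≠ 0 := by
    intro j
    refine Fin.addCases (fun i => ?_) (fun i => ?_) j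
    · simp only [g, Fin.append_left]
      exact inv_ne_zero (ha i)
    · simp only [g, Fin.append_right]
      exact inv_ne_zero (hb i)
  have hone : ∀ i : Fin k, (1 : Fin k → ℂ) i ≠ 0 := fun i => one_ne_zero
  have hcalg := translates (k + k) (PL k 1 1) (PL_prime k 1 1) (PL_X k 1 1 hone hone)
    (PL_one_span k) g hg0 (PL k a b) (fun f => PL_translate k a b ha hb f) hI hfin
  obtain ⟨hγ, hQp, hXQ, hQ, -, hdense, -, -, -⟩ := hI
  have hc0 : ∀ l, ∏ j, g j ^ γ l j ≠ 0 := fun l =>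
    Finset.prod_ne_zero_iff.mpr fun j _ => zpow_ne_zero _ (hg0 j)
  obtain ⟨g', hg', hgg⟩ := exists_alg_lift γ hγ (fun l => ∏ j, g j ^ γ l j) hc0 hcalg
  have hQ1 : ∀ f, f ∈ Q ↔
      aeval (fun l => algebraMap ℂ (KC k) (∏ j, g j ^ γ l j) * mc γ l) f = 0 := by
    intro f
    rw [hQ, image_iff a b ha hb γ f]
  have hQ2 : ∀ f, f ∈ Q ↔
      aeval (fun l => algebraMap ℂ (KC k) (∏ j, g' j ^ γ l j) * mc γ l) f = 0 := by
    intro f
    rw [hQ1]
    have h1 : (fun l => algebraMap ℂ (KC k) (∏ j, g' j ^ γ l j) * mc γ l) =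
        fun l => algebraMap ℂ (KC k) (∏ j, g j ^ γ l j) * mc γ l := by
      funext l
      rw [hgg l]
    rw [h1]
  have hst : ∀ v : Fin m → ℤ, v ≠ 0 → ∃ f ∈ Q, dco (eulv v) f ∉ Q := by
    intro v hv
    by_contra hno
    push Not at hno
    obtain ⟨y, hy, t, ht, hnot⟩ := hfin v hv
    exact hnot (stable_of_eulv v Q hno y hy t ht)
  obtain ⟨h, hhQ, hh⟩ := image_unlikely γ hγ g' hg' Q hQp hQ2
    (fun i hi => uc_alg γ i fun e he => phi_indep γ _ Q hQ1 hst e he i hi)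
  apply hhQ
  rw [hQ]
  intro x hx
  refine hdense h (fun y hy _ => hh y hy) _ ⟨fun l => ?_, fun f hf => (hQ f).mp hf x hx⟩
  exact Finset.prod_ne_zero_iff.mpr fun i _ => zpow_ne_zero _ (hx.1 i)

end Pool.Agent.AL
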