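import Mathlib
import Pool.Agent.Lib.MP_c95b3b_ag_KP.Defs

/-! Project AL (MP_c95b3b_ag): special points of products of `k` lines, all `k`, no hypothesis on
the heights. Definitions. -/

namespace Pool.Agent.AL

open Pool.Agent.L3 Pool.Agent.KP Module MvPolynomial

/-! ## Polynomials with integer coefficients -/

/-- the sum of the absolute values of the coefficients -/
noncomputable def l1 {ι : Type} (f : MvPolynomial ι ℤ) : ℝ := ∑ m ∈ f.support, |((coeff m f : ℤ) : ℝ)|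

/-- the polynomial `∑ q t * ∏ X i ^ (t i).1 * (1 - X i) ^ (t i).2` -/
noncomputable def rep {ι : Type} [Fintype ι] (T : Finset (ι → ℕ × ℕ)) (q : (ι → ℕ × ℕ) → ℤ) :
    MvPolynomial ι ℤ :=
  ∑ t ∈ T, C (q t) * ∏ i, (X i ^ (t i).1 * (1 - X i) ^ (t i).2)

/-- **(STAR)**: the product formula with error `ε * M` for polynomials `V` of multidegree
`O (M / s i)` and height `O (M / s1)`, also when `V` vanishes at the point. -/
def Star {ι : Type} [Fintype ι] {K : Type} [Field K] {S : Subring K} (P : Places K S) (U : ι → K)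
    (s : ι → ℝ) (s1 A ε : ℝ) : Prop :=
  ∀ (M : ℝ) (V : MvPolynomial ι ℤ) (b : P.Pl → ℝ), V ≠ 0 → s1 ≤ M → (∀ i, s i ≤ M) →
    (∀ i, (V.degreeOf i : ℝ) ≤ A * M / s i) → Real.log (l1 V) ≤ A * M / s1 →
    (∀ w, ∃ (T : Finset (ι → ℕ × ℕ)) (q : (ι → ℕ × ℕ) → ℤ), V = rep T q ∧
      (∀ t ∈ T, ∀ i, ((t i).1 : ℝ) ≤ A * M / s i ∧ ((t i).2 : ℝ) ≤ A * M / s i) ∧
      Real.log (∑ t ∈ T, |(q t : ℝ)|) ≤ A * M / s1 ∧
      ∀ t ∈ T, ∑ i, (((t i).1 : ℝ) * P.lg w (U i) + ((t i).2 : ℝ) * P.lg w (1 - U i)) ≤ b w) →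
    -(ε * M) ≤ P.avg b

/-- the size of a polynomial -/
noncomputable def sz {ι : Type} [Fintype ι] (H : ι → ℕ) (h0 : ℝ) (f : MvPolynomial ι ℤ) : ℝ :=
  ∑ i, (H i : ℝ) * f.degreeOf i + h0 * Real.log (l1 f)

/-- the weight of an exponent -/
def wt {ι : Type} [Fintype ι] (H : ι → ℕ) (γ : ι →₀ ℕ) : ℕ := ∑ i, γ i * H i

/-- the Taylor expansion at `P` -/
noncomputable def shf {ι K : Type} [Field K] (P : ι → K) (f : MvPolynomial ι ℤ) :
    MvPolynomial ι K := aeval (fun i => C (P i) + X i) f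

/-- the weighted order of vanishing at `P` -/
noncomputable def ordW {ι : Type} [Fintype ι] {K : Type} [Field K] (H : ι → ℕ) (P : ι → K)
    (f : MvPolynomial ι ℤ) : ℕ :=
  sInf {m | ∃ γ, coeff γ (shf P f) ≠ 0 ∧ m = wt H γ}

/-- a polynomial as a polynomial in the variable `l` -/
noncomputable def toP {ι : Type} [DecidableEq ι] (l : ι) :
    MvPolynomial ι ℤ →ₐ[ℤ] Polynomial (MvPolynomial ι ℤ) :=
  aeval fun i => if i = l then Polynomial.X else Polynomial.C (X i)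

/-- the Taylor coefficient `∂^α f / α!` -/
noncomputable def hs {ι : Type} (α : ι →₀ ℕ) (f : MvPolynomial ι ℤ) : MvPolynomial ι ℤ :=
  coeff α (aeval (fun i => (C (X i) + X i : MvPolynomial ι (MvPolynomial ι ℤ))) f)

/-! ## Norms -/

/-- sub-multiplicative norms with values in `[0, ∞]`; `κ = 0` means non-archimedean -/
structure Nm (A : Type) [CommRing A] (κ : ℕ) where
  N : A → ENNReal
  zero : N 0 = 0
  one : N 1 ≤ 1
  neg : ∀ a, N (-a) = N a
  add : ∀ a b, N (a + b) ≤ N a + N b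
  mul : ∀ a b, N (a * b) ≤ N a * N b
  ultra : κ = 0 → ∀ a b, N (a + b) ≤ max (N a) (N b)

/-- the norm of the coefficients of a power series with the radii `ρ` -/
noncomputable def psN {σ : Type} [Fintype σ] {A : Type} [CommRing A] {κ : ℕ} (ν : Nm A κ)
    (ρ : σ → ENNReal) (f : MvPowerSeries σ A) : ENNReal :=
  if κ = 0 then ⨆ γ : σ →₀ ℕ, ν.N (MvPowerSeries.coeff γ f) * ∏ i, ρ i ^ γ i
  else ∑' γ : σ →₀ ℕ, ν.N (MvPowerSeries.coeff γ f) * ∏ i, ρ i ^ γ i

/-- `1` for the archimedean places, `0` for the others -/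
def kap {K : Type} [Field K] {S : Subring K} {P : Places K S} (w : P.Pl) : ℕ :=
  Sum.elim (fun _ => 1) (fun _ => 0) w

/-- the absolute value at a place -/
noncomputable def absP {K : Type} [Field K] {S : Subring K} {P : Places K S} (w : P.Pl) (x : K) :
    ℝ := Sum.elim (fun i => ‖P.σ i x‖) (fun j => P.v j x) w

/-! ## Relations -/

/-- the scales of the heights of the blocks -/
structure Scales (q : ℕ) (𝒰 : Ultrafilter ℕ) (s : ℕ → Fin (q + 1) → ℝ) : Prop where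
  large : ∀ T : ℝ, ∀ᶠ n in (𝒰 : Filter ℕ), T ≤ s n 0
  sep : ∀ T : ℝ, ∀ᶠ n in (𝒰 : Filter ℕ), ∀ i j, i < j → T * s n i ≤ s n j

/-- relations for the coordinates outside `I` -/
structure IsRel {ι K : Type} [Field K] {q : ℕ} (I : Finset ι) (blk : ι → Fin (q + 1)) (P : ι → K)
    (g : ι → MvPolynomial ι ℤ) : Prop where
  vars : ∀ l, l ∉ I → ∀ i ∈ (g l).vars, i = l ∨ (i ∈ I ∧ blk i = blk l)
  root : ∀ l, l ∉ I → aeval P (g l) = 0
  der : ∀ l, l ∉ I → aeval P (pderiv l (g l)) ≠ 0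

/-- there are no small relations between the coordinates in `I` -/
def NoRel {ι K : Type} [Fintype ι] [Field K] {q : ℕ} (I : Finset ι) (blk : ι → Fin (q + 1))
    (P : ι → K) (s : Fin (q + 1) → ℝ) (B : ℝ) : Prop :=
  ∀ (j : Fin (q + 1)) (R : MvPolynomial ι ℤ), R ≠ 0 → (∀ i ∈ R.vars, i ∈ I ∧ blk i = j) →
    (∀ i, (R.degreeOf i : ℝ) ≤ B) → Real.log (l1 R) ≤ B * (s j / s 0) → aeval P R ≠ 0

/-- a branch of the variety of the relations `g` at `P`, parametrised by the coordinates in `I` -/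
structure IsBranch {ι K : Type} [Field K] (I : Finset ι) (P : ι → K) (g : ι → MvPolynomial ι ℤ)
    (Ξ : ι → MvPowerSeries ι K) : Prop where
  free : ∀ i ∈ I, Ξ i = MvPowerSeries.C (P i) + MvPowerSeries.X i
  const : ∀ i, MvPowerSeries.constantCoeff (Ξ i) = P i
  only : ∀ i γ, (∃ j, j ∉ I ∧ γ j ≠ 0) → MvPowerSeries.coeff γ (Ξ i) = 0
  rel : ∀ l, l ∉ I → aeval Ξ (g l) = 0

/-- the minimal order of the coefficients with respect to the variable `l` -/
noncomputable def cord {ι : Type} [Fintype ι] [DecidableEq ι] {K : Type} [Field K] (H : ι → ℕ)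
    (P : ι → K) (l : ι) (f : MvPolynomial ι ℤ) : ℕ :=
  sInf {m | ∃ k, (toP l f).coeff k ≠ 0 ∧ m = ordW H P ((toP l f).coeff k)}

/-- all coefficients of the branch lie in the ring generated by the point and the inverses of the
derivatives -/
def BranchInt {ι K : Type} [Field K] (I : Finset ι) (P : ι → K) (g : ι → MvPolynomial ι ℤ)
    (Ξ : ι → MvPowerSeries ι K) : Prop :=
  ∀ S : Subring K, (∀ i, P i ∈ S) → (∀ l, l ∉ I → (aeval P (pderiv l (g l)))⁻¹ ∈ S) →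
    ∀ i γ, MvPowerSeries.coeff γ (Ξ i) ∈ S

/-- bounds for the norms of the branch -/
def BranchNorm {ι K : Type} [Field K] [Fintype ι] {q : ℕ} (I : Finset ι) (blk : ι → Fin (q + 1))
    (P : ι → K) (g : ι → MvPolynomial ι ℤ) (Ξ : ι → MvPowerSeries ι K) : Prop :=
  ∀ l, l ∉ I → ∀ (κ : ℕ) (ν : Nm K κ) (A r R : ENNReal) (ρ : ι → ENNReal), κ ≤ 1 →
    (∀ γ, ν.N (coeff γ (shf P (g l))) ≤ A) →
    ν.N (aeval P (pderiv l (g l)))⁻¹ * (((shf P (g l)).support.card : ENNReal) ^ κ * A) * R ≤ r →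
    ν.N (aeval P (pderiv l (g l)))⁻¹ * (((shf P (g l)).support.card : ENNReal) ^ κ * A) * r ≤ 1 →
    r ≤ 1 → R ≤ 1 → (∀ i ∈ I, blk i = blk l → ρ i ≤ R) →
    psN ν ρ (Ξ l - MvPowerSeries.C (P l)) ≤ r

end Pool.Agent.AL
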