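import Pool.Agent.Lib.MP_c95b3b_ag_AL.Defs
import Pool.Agent.Lib.MP_c95b3b_ag_R.Stab
import Pool.Agent.Lib.MP_c95b3b_ag_R.Trans

/-! Project AL, definitions for complex coefficients. -/

namespace Pool.Agent.AL

open Module MvPolynomial Pool.Agent.CITR

/-- the function field of the affine space -/
abbrev KC (k : ℕ) : Type := FractionRing (MvPolynomial (Fin k) ℂ)

/-- the coordinates -/
noncomputable def uc (k : ℕ) (i : Fin k) : KC k := algebraMap (MvPolynomial (Fin k) ℂ) (KC k) (X i)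

/-- the monomials of exponent `γ l` in the `uc i` and `1 - uc i` -/
noncomputable def mc {k m : ℕ} (γ : Fin m → Fin (k + k) → ℤ) (l : Fin m) : KC k :=
  ∏ i, (uc k i ^ γ l (Fin.castAdd k i) * (1 - uc k i) ^ γ l (Fin.natAdd k i))

/-- the index `i` occurs in `γ` -/
def Occ {k m : ℕ} (γ : Fin m → Fin (k + k) → ℤ) (i : Fin k) : Prop :=
  ∃ l, γ l (Fin.castAdd k i) ≠ 0 ∨ γ l (Fin.natAdd k i) ≠ 0

/-- the ideal of the product of the lines `a i * x i + b i * y i = 1` -/
noncomputable def PL (k : ℕ) (a b : Fin k → ℂ) : Ideal (MvPolynomial (Fin (k + k)) ℂ) :=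
  RingHom.ker (aeval (Fin.append (fun i => (X i : MvPolynomial (Fin k) ℂ))
    (fun i => C (b i)⁻¹ * (1 - C (a i) * X i))) :
      MvPolynomial (Fin (k + k)) ℂ →ₐ[ℂ] MvPolynomial (Fin k) ℂ)

end Pool.Agent.AL
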