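import Pool.Agent.Lib.MP_c95b3b_ag_AL.Defs
import Pool.Agent.Lib.MP_c95b3b_ag_KP.CoreA

/-! Project AL, definitions for the multi-scale version of project KP. -/

namespace Pool.Agent.AL

open Pool.Agent.L3 Module MvPolynomial
open Pool.Agent.KP (supp vec cel key lvv Good pr1 pr0)

/-- the vector of logarithms, scaled -/
noncomputable def lvs {ι K : Type} [Field K] {S : Subring K} (P : Places K S) (U : ι → K)
    (s : ι → ℝ) (w : P.Pl) : ι → ℝ × ℝ := fun i => (s i)⁻¹ • P.lv w (U i)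

/-- the degree which belongs to the spacing `h` -/
noncomputable def dg (h : ℝ) : ℕ := ⌊h⁻¹⌋₊

/-- pairing of the scaled exponents with vectors -/
noncomputable def pt {ι : Type} [Fintype ι] (h : ι → ℝ) (t : ι → ℕ × ℕ) (v : ι → ℝ × ℝ) : ℝ :=
  ∑ i, h i * ((((t i).1 : ℝ) - dg (h i)) * (v i).1 + (((t i).2 : ℝ) - dg (h i)) * (v i).2)

/-- the exponents of the local powers at the corner `j` -/
def lt (j : Fin 3) (d α : ℕ) : ℕ × ℕ := ![(α, 0), (0, α), (d - α, 0)] j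

/-- multiplication of the coordinates by `τ` -/
noncomputable def scl {k : ℕ} (τ : Fin k → ℝ) : (Fin k → ℝ × ℝ) →ₗ[ℝ] (Fin k → ℝ × ℝ) :=
  LinearMap.pi fun i => τ i • LinearMap.proj i

/-- places for a point `U` and the vectors `g`, such that `lvv - g` has values in `E` -/
structure PD (k : ℕ) (c : ℝ) (Γ : Finset (Fin k → ℝ × ℝ)) (K : Type) [Field K] (U : Fin k → K)
    (E : Submodule ℝ (Fin k → ℝ × ℝ)) where
  S : Subring K
  P : Places K S
  uu : ∀ i, UU S (U i)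
  g : P.Pl → Fin k → ℝ × ℝ
  hg : P.avg (fun w => ‖g w‖) ≤ c
  hgΓ : ∀ i, g (.inl i) ∈ Γ
  mem : ∀ w, lvv P U w - g w ∈ E

/-- one term of a sequence of counterexamples; the places can be chosen such that given elements
are units -/
structure DatM (k : ℕ) (c : ℝ) (Γ : Finset (Fin k → ℝ × ℝ)) where
  K : Type
  fld : Field K
  e : K →+* ℂ
  U : Fin k → K
  E : Submodule ℝ (Fin k → ℝ × ℝ)
  hE : finrank ℝ E < k
  ht : Fin k → ℝ
  pl : ∀ X : Finset K, (∀ x ∈ X, x ≠ 0) → ∃ d : PD k c Γ K U E, (∀ x ∈ X, x⁻¹ ∈ d.S) ∧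
    ∀ i, ht i ≤ c + d.P.avg (fun w => ‖d.P.lv w (U i)‖) ∧
      d.P.avg (fun w => ‖d.P.lv w (U i)‖) ≤ c + 4 * ht i

attribute [instance] DatM.fld

end Pool.Agent.AL
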