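import Pool.Agent.Lib.MP_c95b3b_ag_AL.Defs

/-! Project AL, definitions for the deformation vectors. -/

namespace Pool.Agent.AL

open Pool.Agent.L3 Pool.Agent.KP Module MvPolynomial

/-- the indices of the coefficients of the polynomials `g l` of degree at most `d` in every
variable -/
abbrev Cf (ι Λ : Type) (d : ℕ) : Type := Λ × (ι → Fin (d + 1))

section
variable {ι Λ : Type} [Fintype ι] [DecidableEq ι] [Fintype Λ] [DecidableEq Λ] {d : ℕ}

/-- the polynomial `g l` with the coefficients `c` at the point `P` -/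
noncomputable def gv {K : Type} [Field K] (c : Cf ι Λ d → K) (P : ι → K) (l : Λ) : K :=
  ∑ e : ι → Fin (d + 1), c (l, e) * ∏ i, P i ^ (e i : ℕ)

/-- the partial derivative `∂ g l / ∂ X i` at the point `P` -/
noncomputable def gG {K : Type} [Field K] (c : Cf ι Λ d → K) (P : ι → K) (l : Λ) (i : ι) : K :=
  ∑ e : ι → Fin (d + 1), c (l, e) *
    (((e i : ℕ) : K) * P i ^ ((e i : ℕ) - 1) * ∏ j ∈ Finset.univ.erase i, P j ^ (e j : ℕ))

/-- the chosen one of `P i` and `1 - P i` -/
def gy {K : Type} [Field K] (ε : ι → Bool) (P : ι → K) (i : ι) : K := if ε i then P i else 1 - P i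

/-- the determinants `D e` -/
noncomputable def gD {K : Type} [Field K] (ε : ι → Bool) (c : Cf ι Λ d → K) (P : ι → K)
    (e : Λ → ι) : K := (Matrix.of fun l t => gy ε P (e t) * gG c P l (e t)).det

/-- the determinants `T e t` -/
noncomputable def gT {K : Type} [Field K] (ε : ι → Bool) (c : Cf ι Λ d → K) (P : ι → K)
    (a : Λ → K) (e : Λ → ι) (t : Λ) : K :=
  ((Matrix.of fun l t => gy ε P (e t) * gG c P l (e t)).updateCol t a).det

/-- the derivative in the direction `b` of the coefficients, with the opposite sign -/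
noncomputable def ga {K : Type} [Field K] (b : Cf ι Λ d → K) (P : ι → K) (l : Λ) : K :=
  - gv b P l

end

/-- value of a polynomial in `T` and the `D e` whose coefficients are polynomials in `c` -/
noncomputable def gQ {A Ω : Type} {K : Type} [Field K] (c : A → K) (t : K) (D : Ω → K)
    (Q : MvPolynomial (Option Ω) (MvPolynomial A ℤ)) : K :=
  eval₂ (aeval c : MvPolynomial A ℤ →ₐ[ℤ] K).toRingHom (fun o => o.elim t D) Q

/-- the data which are found in the generic situation and checked at the points: a number `m` of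
directions, polynomials `b k α` which are the derivatives of the coefficients, and certificates -/
structure Cert (ι Λ : Type) [Fintype ι] [DecidableEq ι] [Fintype Λ] [DecidableEq Λ] (d : ℕ) where
  m : ℕ
  b : Fin m → Cf ι Λ d → MvPolynomial (Cf ι Λ d) ℤ
  E : Fin m → (ι → Bool) → (Λ → ι) → Λ → MvPolynomial (Cf ι Λ d) ℤ
  N : ℕ
  Q : Fin m → (ι → Bool) → (Λ → ι) → Λ → (Λ → ι) →
    MvPolynomial (Option (Λ → ι)) (MvPolynomial (Cf ι Λ d) ℤ)
  hom : ∀ k ε e t e', (Q k ε e t e').IsHomogeneous N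

/-- the certificates hold for the coefficients `c` and the point `P` -/
structure Cert.Ok {ι Λ : Type} [Fintype ι] [DecidableEq ι] [Fintype Λ] [DecidableEq Λ] {d : ℕ}
    (Z : Cert ι Λ d) {K : Type} [Field K] (c : Cf ι Λ d → K) (P : ι → K) : Prop where
  span : ∀ v : Λ → K, ∃ x : Fin Z.m → K, ∀ l,
    v l = ∑ k, x k * ga (fun α => aeval c (Z.b k α)) P l
  full : ∀ ε, ∃ e, gD ε c P e ≠ 0
  ne : ∀ k ε e t, aeval c (Z.E k ε e t) ≠ 0
  cert : ∀ k ε e t, gT ε c P (ga (fun α => aeval c (Z.b k α)) P) e t ≠ 0 →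
    aeval c (Z.E k ε e t) * gT ε c P (ga (fun α => aeval c (Z.b k α)) P) e t ^ (Z.N + 1) =
      ∑ e', gD ε c P e' * gQ c (gT ε c P (ga (fun α => aeval c (Z.b k α)) P) e t)
        (gD ε c P) (Z.Q k ε e t e')

/-- the element of the ultrapower -/
noncomputable def gm (𝒰 : Ultrafilter ℕ) (x : ℕ → ℂ) : Filter.Germ (𝒰 : Filter ℕ) ℂ := (x : _)

end Pool.Agent.AL
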