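import Pool.Agent.Lib.MP_c95b3b_ag_AL.Defs

/-! Project AL (MP_c95b3b_ag), module NA: lines through a zero of a polynomial. -/

namespace Pool.Agent.AL

open Pool.Agent.L3 Pool.Agent.KP Module MvPolynomial

private lemma NA_not_unit {F Ω : Type} [Field F] [Field Ω] [Algebra F Ω] {d : ℕ}
    {N : MvPolynomial (Fin d) F} (hN : N ≠ 0) (hu : ¬ IsUnit N) :
    ¬ IsUnit (map (algebraMap F Ω) N) := by
  intro h
  apply hu
  rw [MvPolynomial.isUnit_iff_eq_C_of_isReduced] at h ⊢
  obtain ⟨r, _, hr⟩ := h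
  have h1 : ∀ m, m ≠ 0 → coeff m N = 0 := by
    intro m hm
    have h2 : coeff m (map (algebraMap F Ω) N) = 0 := by
      rw [hr, coeff_C, if_neg (Ne.symm hm)]
    rw [coeff_map] at h2
    exact (map_eq_zero _).mp h2
  have h3 : N = C (coeff 0 N) := by
    ext m
    rw [coeff_C]
    split_ifs with h4
    · rw [h4]
    · exact h1 m (Ne.symm h4)
  refine ⟨coeff 0 N, ?_, h3⟩
  rw [isUnit_iff_ne_zero]
  intro h5
  apply hN
  rw [h3, h5, map_zero]

private lemma NA_zero {Ω : Type} [Field Ω] [IsAlgClosed Ω] {d : ℕ}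
    {N : MvPolynomial (Fin d) Ω} (hu : ¬ IsUnit N) : ∃ q : Fin d → Ω, eval q N = 0 := by
  obtain ⟨I, hI, hNI⟩ := exists_max_ideal_of_mem_nonunits hu
  obtain ⟨q, hq⟩ := isMaximal_iff_eq_vanishingIdeal_singleton.mp hI
  refine ⟨q, ?_⟩
  rw [hq, mem_vanishingIdeal_singleton_iff] at hNI
  rw [← hNI, aeval_eq_eval]

private lemma NA_nonzero {Ω : Type} [Field Ω] [Infinite Ω] {d : ℕ}
    {N : MvPolynomial (Fin d) Ω} (hN : N ≠ 0) : ∃ p : Fin d → Ω, eval p N ≠ 0 := by
  by_contra h
  push Not at h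
  exact hN (MvPolynomial.funext fun x => by rw [h x, map_zero])

theorem exists_line {F Ω : Type} [Field F] [Field Ω] [Algebra F Ω] [IsAlgClosed Ω] [Infinite Ω]
    (d : ℕ)
    (N N' : MvPolynomial (Fin d) F) (hN : N ≠ 0) (hu : ¬ IsUnit N) (hN' : N' ≠ 0) :
    ∃ f : MvPolynomial (Fin d) F →+* Polynomial Ω,
      (∀ c : F, f (C c) = Polynomial.C (algebraMap F Ω c)) ∧ f N ≠ 0 ∧ f N' ≠ 0 ∧
      (f N).coeff 0 = 0 := by
  have hinj : Function.Injective (map (σ := Fin d) (algebraMap F Ω)) :=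
    MvPolynomial.map_injective _ (algebraMap F Ω).injective
  have h1 : map (algebraMap F Ω) N ≠ 0 := fun h => hN (hinj (by rw [h, map_zero]))
  have h2 : map (algebraMap F Ω) N' ≠ 0 := fun h => hN' (hinj (by rw [h, map_zero]))
  obtain ⟨q, hq⟩ := NA_zero (NA_not_unit (Ω := Ω) hN hu)
  obtain ⟨p, hp⟩ := NA_nonzero (mul_ne_zero h1 h2)
  rw [map_mul] at hp
  let f : MvPolynomial (Fin d) F →+* Polynomial Ω :=
    eval₂Hom (Polynomial.C.comp (algebraMap F Ω))
      (fun i => Polynomial.C (q i) + Polynomial.C (p i - q i) * Polynomial.X)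
  have hf : ∀ (t : Ω) (G : MvPolynomial (Fin d) F),
      (f G).eval t = eval (fun i => q i + (p i - q i) * t) (map (algebraMap F Ω) G) := by
    intro t G
    have h3 : (Polynomial.evalRingHom t).comp f =
        (eval (fun i => q i + (p i - q i) * t)).comp (map (algebraMap F Ω)) := by
      apply MvPolynomial.ringHom_ext
      · intro r
        simp [f]
      · intro i
        simp [f]
    exact RingHom.congr_fun h3 G
  have hf1 : ∀ G : MvPolynomial (Fin d) F, (f G).eval 1 = eval p (map (algebraMap F Ω) G) := by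
    intro G
    rw [hf 1 G]
    congr 2
    funext i
    ring
  refine ⟨f, fun c => ?_, fun h => ?_, fun h => ?_, ?_⟩
  · simp [f]
  · apply left_ne_zero_of_mul hp
    rw [← hf1, h, Polynomial.eval_zero]
  · apply right_ne_zero_of_mul hp
    rw [← hf1, h, Polynomial.eval_zero]
  · rw [Polynomial.coeff_zero_eq_eval_zero, hf 0 N]
    have h4 : (fun i => q i + (p i - q i) * 0) = q := by
      funext i
      ring
    rw [h4]
    exact hq

end Pool.Agent.AL
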