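import Pool.Agent.Lib.MP_c95b3b_ag_AL.Defs
import Pool.Agent.Lib.Puiseux.Main

/-! Project AL (MP_c95b3b_ag), module NB: extension along integral extensions. -/

namespace Pool.Agent.AL

open Pool.Agent.L3 Pool.Agent.KP Module MvPolynomial

namespace NB

theorem core {K Kbar L A B : Type} [Field K] [Field Kbar] [Field L] [CommRing A] [CommRing B]
    [Algebra K Kbar] [Algebra A B] (σ : K →+* L) (ψ : A →+* K) (φ0 : B →+* Kbar)
    (h : ∀ a, φ0 (algebraMap A B a) = algebraMap K Kbar (ψ a)) (s : Finset B)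
    (hs : Algebra.adjoin A (s : Set B) = ⊤)
    (hsp : ∀ b ∈ s, ∃ P : Polynomial K, P.Monic ∧ Polynomial.aeval (φ0 b) P = 0 ∧
      (P.map σ).Splits) :
    ∃ φ : B →+* L, ∀ a, φ (algebraMap A B a) = σ (ψ a) := by
  classical
  let : Algebra K L := σ.toAlgebra
  obtain ⟨g⟩ := Polynomial.lift_of_splits (F := K) (K := Kbar) (L := L) (s.image φ0) (by
    intro x hx
    rw [Finset.mem_image] at hx
    obtain ⟨b, hb, rfl⟩ := hx
    obtain ⟨P, hP, hP0, hPs⟩ := hsp b hb
    refine ⟨⟨P, hP, hP0⟩, ?_⟩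
    exact Polynomial.Splits.of_dvd hPs (hP.map σ).ne_zero
      (Polynomial.map_dvd σ (minpoly.dvd K _ hP0)))
  have hmem : ∀ b, φ0 b ∈ Algebra.adjoin K ((s.image φ0 : Finset Kbar) : Set Kbar) := by
    intro b
    have hb : b ∈ Algebra.adjoin A (s : Set B) := by rw [hs]; trivial
    induction hb using Algebra.adjoin_induction with
    | mem x hx =>
      apply Algebra.subset_adjoin
      rw [Finset.coe_image]
      exact ⟨x, hx, rfl⟩
    | algebraMap r => rw [h]; exact Subalgebra.algebraMap_mem _ _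
    | add x y _ _ hx hy => rw [map_add]; exact add_mem hx hy
    | mul x y _ _ hx hy => rw [map_mul]; exact mul_mem hx hy
  refine ⟨(g : _ →+* L).comp (φ0.codRestrict _ hmem), fun a => ?_⟩
  have e1 : φ0.codRestrict _ hmem (algebraMap A B a) = algebraMap K _ (ψ a) := Subtype.ext (h a)
  rw [RingHom.comp_apply, e1]
  exact g.commutes (ψ a)

theorem ext_closed {K A B : Type} [Field K] [IsAlgClosed K] [CommRing A] [CommRing B]
    [Algebra A B] [Algebra.IsIntegral A B] (hinj : Function.Injective (algebraMap A B))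
    (ψ : A →+* K) : ∃ φ0 : B →+* K, ∀ a, φ0 (algebraMap A B a) = ψ a := by
  have hq : (RingHom.ker ψ).IsPrime := RingHom.ker_isPrime ψ
  have hbot : Ideal.comap (algebraMap A B) (⊥ : Ideal B) ≤ RingHom.ker ψ := by
    rw [← RingHom.ker_eq_comap_bot, (RingHom.injective_iff_ker_eq_bot _).1 hinj]
    exact bot_le
  obtain ⟨Q, -, hQ, hQc⟩ := Ideal.exists_ideal_over_prime_of_isIntegral (RingHom.ker ψ) ⊥ hbot
  have : Q.LiesOver (RingHom.ker ψ) := ⟨hQc.symm⟩
  let : Algebra (A ⧸ RingHom.ker ψ) K := (RingHom.kerLift ψ).toAlgebra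
  have hinj1 : Function.Injective (algebraMap (A ⧸ RingHom.ker ψ) K) :=
    RingHom.kerLift_injective ψ
  have : FaithfulSMul (A ⧸ RingHom.ker ψ) K := (faithfulSMul_iff_algebraMap_injective _ _).mpr hinj1
  have f : (B ⧸ Q) →ₐ[A ⧸ RingHom.ker ψ] K := IsAlgClosed.lift
  refine ⟨(f : _ →+* K).comp (Ideal.Quotient.mk Q), fun a => ?_⟩
  have e1 : Ideal.Quotient.mk Q (algebraMap A B a) =
    algebraMap (A ⧸ RingHom.ker ψ) (B ⧸ Q) (Ideal.Quotient.mk _ a) := rfl
  rw [RingHom.comp_apply, e1]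
  exact f.commutes _

end NB

theorem ext_puiseux {Ω : Type} [Field Ω] [IsAlgClosed Ω] [CharZero Ω] {A B : Type} [CommRing A]
    [IsDomain A] [CommRing B] [IsDomain B] [Algebra A B] [Algebra.IsIntegral A B]
    [Algebra.FiniteType A B]
    (hinj : Function.Injective (algebraMap A B)) (ψ : A →+* LaurentSeries Ω) :
    ∃ (N : ℕ+) (φ : B →+* LaurentSeries Ω), ∀ a, φ (algebraMap A B a) =
      Pool.Agent.Lib.Puiseux.subst N (ψ a) := by
  classical
  obtain ⟨φ0, hφ0⟩ := NB.ext_closed hinj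
    ((algebraMap (LaurentSeries Ω) (AlgebraicClosure (LaurentSeries Ω))).comp ψ)
  obtain ⟨s, hs⟩ := (Algebra.FiniteType.out : (⊤ : Subalgebra A B).FG)
  have hint : ∀ b : B, ∃ p : Polynomial A, p.Monic ∧ Polynomial.eval₂ (algebraMap A B) b p = 0 :=
    fun b => Algebra.IsIntegral.isIntegral b
  choose p hpm hp0 using hint
  obtain ⟨N, hN⟩ := Pool.Agent.Lib.Puiseux.puiseux (∏ b ∈ s, (p b).map ψ)
  refine ⟨N, NB.core (Pool.Agent.Lib.Puiseux.subst N) ψ φ0 hφ0 s hs ?_⟩
  intro b hb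
  refine ⟨(p b).map ψ, (hpm b).map ψ, ?_, ?_⟩
  · rw [Polynomial.aeval_def, Polynomial.eval₂_map]
    have e1 : (algebraMap (LaurentSeries Ω) (AlgebraicClosure (LaurentSeries Ω))).comp ψ =
        φ0.comp (algebraMap A B) := by
      ext a
      exact (hφ0 a).symm
    rw [e1, ← Polynomial.hom_eval₂, hp0, map_zero]
  · refine Polynomial.Splits.of_dvd hN ?_ ?_
    · exact ((Polynomial.monic_prod_of_monic _ _ fun b _ => (hpm b).map ψ).map _).ne_zero
    · exact Polynomial.map_dvd _ (Finset.dvd_prod_of_mem (fun b => (p b).map ψ) hb)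

/-- elements integral over the power series are power series -/
theorem integral_coeff {Ω : Type} [Field Ω] (x : LaurentSeries Ω) (p : Polynomial (LaurentSeries Ω))
    (hp : p.Monic) (hx : p.eval x = 0) (hc : ∀ k, ∀ n < 0, (p.coeff k).coeff n = 0) :
    ∀ n < 0, x.coeff n = 0 := by
  have hrange : ∀ c : LaurentSeries Ω, (∀ n < 0, c.coeff n = 0) →
      c ∈ Set.range (algebraMap (PowerSeries Ω) (LaurentSeries Ω)) := by
    intro c hc
    refine ⟨PowerSeries.mk fun n => c.coeff n, ?_⟩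
    rw [LaurentSeries.coe_algebraMap]
    ext i
    rw [PowerSeries.coeff_coe]
    split_ifs with hi
    · exact (hc i hi).symm
    · rw [PowerSeries.coeff_mk]
      congr 1
      omega
  have hl : p ∈ Polynomial.lifts (algebraMap (PowerSeries Ω) (LaurentSeries Ω)) := by
    rw [Polynomial.lifts_iff_coeff_lifts]
    intro k
    exact hrange _ (hc k)
  obtain ⟨q, hq, -, hqm⟩ := Polynomial.lifts_and_natDegree_eq_and_monic hl hp
  have hint : IsIntegral (PowerSeries Ω) x := by
    refine ⟨q, hqm, ?_⟩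
    rw [← Polynomial.eval_map, hq]
    exact hx
  obtain ⟨y, hy⟩ := IsIntegrallyClosed.isIntegral_iff.mp hint
  intro n hn
  rw [← hy, LaurentSeries.coe_algebraMap, PowerSeries.coeff_coe, if_pos hn]

end Pool.Agent.AL
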