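import Pool.Agent.Lib.MP_c95b3b_ag_AL.NA
import Pool.Agent.Lib.MP_c95b3b_ag_AL.NB
import Pool.Agent.Lib.Puiseux.Main

/-! Project AL (MP_c95b3b_ag), module NC: arcs in finitely generated algebras. -/

namespace Pool.Agent.AL

open Pool.Agent.L3 Pool.Agent.KP Module MvPolynomial

namespace NC

/-- power series with nonzero constant term -/
def Good {Ω : Type} [Field Ω] (x : LaurentSeries Ω) : Prop :=
  ∃ y : PowerSeries Ω, HahnSeries.ofPowerSeries ℤ Ω y = x ∧ PowerSeries.constantCoeff y ≠ 0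

lemma good_one {Ω : Type} [Field Ω] : Good (1 : LaurentSeries Ω) :=
  ⟨1, map_one _, by simp⟩

lemma good_mul {Ω : Type} [Field Ω] {x y : LaurentSeries Ω} (hx : Good x) (hy : Good y) :
    Good (x * y) := by
  obtain ⟨u, rfl, hu⟩ := hx
  obtain ⟨v, rfl, hv⟩ := hy
  exact ⟨u * v, map_mul _ _ _, by rw [map_mul]; exact mul_ne_zero hu hv⟩

lemma good_coeff {Ω : Type} [Field Ω] {x : LaurentSeries Ω} (hx : Good x) : x.coeff 0 ≠ 0 := by
  obtain ⟨u, rfl, hu⟩ := hx
  have h := HahnSeries.ofPowerSeries_apply_coeff (Γ := ℤ) (R := Ω) u 0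
  rw [Nat.cast_zero] at h
  rw [h]
  simpa using hu

lemma good_of {Ω : Type} [Field Ω] {x : LaurentSeries Ω} (hx : ∀ n < 0, x.coeff n = 0)
    (h0 : x.coeff 0 ≠ 0) : Good x := by
  refine ⟨PowerSeries.mk fun n => x.coeff n, ?_, ?_⟩
  · ext i
    rw [PowerSeries.coeff_coe]
    split_ifs with hi
    · exact (hx i hi).symm
    · rw [PowerSeries.coeff_mk]
      congr 1
      omega
  · simpa using h0

lemma subst_coeff_zero {Ω : Type} [Field Ω] (N : ℕ+) {x : LaurentSeries Ω}
    (hx : ∀ n < 0, x.coeff n = 0) :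
    ∀ n < 0, (Pool.Agent.Lib.Puiseux.subst N x).coeff n = 0 := by
  intro n hn
  have hN : (0 : ℤ) < ((N : ℕ) : ℤ) := by exact_mod_cast N.pos
  by_cases h : ((N : ℕ) : ℤ) ∣ n
  · obtain ⟨j, rfl⟩ := h
    rw [Pool.Agent.Lib.Puiseux.subst_coeff]
    apply hx
    by_contra hj
    push Not at hj
    have := mul_nonneg hN.le hj
    omega
  · exact Pool.Agent.Lib.Puiseux.subst_coeff_of_not_dvd N x h

lemma subst_coeff_zero' {Ω : Type} [Field Ω] (N : ℕ+) {x : LaurentSeries Ω}
    (hx : ∀ n ≤ 0, x.coeff n = 0) :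
    ∀ n ≤ 0, (Pool.Agent.Lib.Puiseux.subst N x).coeff n = 0 := by
  intro n hn
  have hN : (0 : ℤ) < ((N : ℕ) : ℤ) := by exact_mod_cast N.pos
  by_cases h : ((N : ℕ) : ℤ) ∣ n
  · obtain ⟨j, rfl⟩ := h
    rw [Pool.Agent.Lib.Puiseux.subst_coeff]
    apply hx
    by_contra hj
    push Not at hj
    have := mul_pos hN hj
    omega
  · exact Pool.Agent.Lib.Puiseux.subst_coeff_of_not_dvd N x h

lemma exists_root {Ω : Type} [Field Ω] (P : Polynomial (LaurentSeries Ω)) (hP : P.Monic)
    (hs : P.Splits) (hc : ∀ k, ∀ n < 0, (P.coeff k).coeff n = 0) (h0 : (P.coeff 0).coeff 0 = 0) :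
    ∃ α : LaurentSeries Ω, P.eval α = 0 ∧ ∀ n ≤ 0, α.coeff n = 0 := by
  by_contra hcon
  push Not at hcon
  have hroot : ∀ x ∈ P.roots, Good (-x) := by
    intro x hx
    have hx0 : P.eval x = 0 := (Polynomial.mem_roots'.mp hx).2
    have hx1 := integral_coeff x P hP hx0 hc
    obtain ⟨n, hn, hn0⟩ := hcon x hx0
    have hn1 : n = 0 := by
      by_contra h
      exact hn0 (hx1 n (lt_of_le_of_ne hn h))
    subst hn1
    apply good_of
    · intro m hm
      rw [HahnSeries.coeff_neg, hx1 m hm, neg_zero]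
    · rw [HahnSeries.coeff_neg]
      exact neg_ne_zero.mpr hn0
  have hprod : P.coeff 0 = (P.roots.map (fun x => -x)).prod := by
    have h1 := hs.eq_prod_roots_of_monic hP
    have h2 : P.eval 0 = ((P.roots.map (fun a => Polynomial.X - Polynomial.C a)).prod).eval 0 := by
      rw [← h1]
    rw [← Polynomial.coeff_zero_eq_eval_zero, Polynomial.eval_multiset_prod, Multiset.map_map] at h2
    rw [h2]
    congr 1
    apply Multiset.map_congr rfl
    intro x _
    simp
  have hgood : Good (P.coeff 0) := by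
    rw [hprod]
    apply Multiset.prod_induction Good
    · intro a b ha hb
      exact good_mul ha hb
    · exact good_one
    · intro a ha
      obtain ⟨x, hx, rfl⟩ := Multiset.mem_map.mp ha
      exact hroot x hx
  exact good_coeff hgood h0

section core

variable {R B : Type} [CommRing R] [IsDomain R] [IsIntegrallyClosed R] [CommRing B] [IsDomain B]
  [Algebra R B] [IsTorsionFree R B] [Algebra.IsIntegral R B]

lemma coeff_zero_ne (b : B) (hb : b ≠ 0) : (minpoly R b).coeff 0 ≠ 0 := by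
  intro h
  have hint : IsIntegral R b := Algebra.IsIntegral.isIntegral b
  have h1 : (minpoly R b).divX * Polynomial.X = minpoly R b := by
    have := Polynomial.divX_mul_X_add (minpoly R b)
    rw [h, Polynomial.C_0, add_zero] at this
    exact this
  have h2 : Polynomial.aeval b (minpoly R b).divX * b = 0 := by
    have := congrArg (Polynomial.aeval b) h1
    rw [map_mul, Polynomial.aeval_X, minpoly.aeval] at this
    exact this
  have h3 : Polynomial.aeval b (minpoly R b).divX = 0 := (mul_eq_zero.mp h2).resolve_right hb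
  have h4 : (minpoly R b).divX ≠ 0 := by
    intro h5
    rw [h5, zero_mul] at h1
    exact minpoly.ne_zero hint h1.symm
  have h5 := minpoly.IsIntegrallyClosed.degree_le_of_ne_zero h4 h3
  have h6 := Polynomial.degree_divX_lt (minpoly.ne_zero hint)
  exact absurd h5 (not_le.mpr h6)

omit [IsDomain R] [IsIntegrallyClosed R] [IsDomain B] [IsTorsionFree R B]
  [Algebra.IsIntegral R B] in
lemma not_unit (b : B) (hb : ¬ IsUnit b) : ¬ IsUnit ((minpoly R b).coeff 0) := by
  intro h
  apply hb
  have h1 := congrArg (Polynomial.aeval b) (Polynomial.divX_mul_X_add (minpoly R b))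
  rw [map_add, map_mul, Polynomial.aeval_X, minpoly.aeval, Polynomial.aeval_C] at h1
  have h2 : IsUnit (algebraMap R B ((minpoly R b).coeff 0)) := h.map _
  have h3 : algebraMap R B ((minpoly R b).coeff 0) =
      b * (- Polynomial.aeval b (minpoly R b).divX) := by
    linear_combination h1
  rw [h3] at h2
  exact isUnit_of_mul_isUnit_left h2

theorem core {Ω : Type} [Field Ω] [IsAlgClosed Ω] [CharZero Ω] [Algebra.FiniteType R B]
    (ψ : R →+* LaurentSeries Ω) (hψ : ∀ r, ∀ n < 0, (ψ r).coeff n = 0) (a : B)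
    (ha : (ψ ((minpoly R a).coeff 0)).coeff 0 = 0) :
    ∃ (N : ℕ+) (φ : B →+* LaurentSeries Ω),
      (∀ r, φ (algebraMap R B r) = Pool.Agent.Lib.Puiseux.subst N (ψ r)) ∧
      (∀ n ≤ 0, (φ a).coeff n = 0) := by
  have hint : IsIntegral R a := Algebra.IsIntegral.isIntegral a
  obtain ⟨N1, hN1⟩ := Pool.Agent.Lib.Puiseux.puiseux ((minpoly R a).map ψ)
  have hmon : (((minpoly R a).map ψ).map (Pool.Agent.Lib.Puiseux.subst N1)).Monic :=
    ((minpoly.monic hint).map _).map _
  obtain ⟨α, hα, hα0⟩ := exists_root _ hmon hN1 (by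
    intro k
    rw [Polynomial.coeff_map, Polynomial.coeff_map]
    exact subst_coeff_zero N1 (hψ _)) (by
    rw [Polynomial.coeff_map, Polynomial.coeff_map]
    have := Pool.Agent.Lib.Puiseux.subst_coeff N1 (ψ ((minpoly R a).coeff 0)) 0
    rw [mul_zero] at this
    rw [this, ha])
  have hroot : (minpoly R a).eval₂ ((Pool.Agent.Lib.Puiseux.subst N1).comp ψ) α = 0 := by
    rw [← Polynomial.eval₂_map, ← Polynomial.eval_map]
    exact hα
  let e := minpoly.equivAdjoin hint
  let ψ1 : Algebra.adjoin R ({a} : Set B) →+* LaurentSeries Ω :=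
    (AdjoinRoot.lift ((Pool.Agent.Lib.Puiseux.subst N1).comp ψ) α hroot).comp
      (e.symm : Algebra.adjoin R ({a} : Set B) →+* AdjoinRoot (minpoly R a))
  have h1 : ∀ r, ψ1 (algebraMap R _ r) = Pool.Agent.Lib.Puiseux.subst N1 (ψ r) := by
    intro r
    have : e.symm (algebraMap R _ r) = algebraMap R _ r := e.symm.commutes r
    change (AdjoinRoot.lift ((Pool.Agent.Lib.Puiseux.subst N1).comp ψ) α hroot)
      (e.symm (algebraMap R _ r)) = _
    rw [this, AdjoinRoot.algebraMap_eq, AdjoinRoot.lift_of]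
    rfl
  have h2 : ψ1 ⟨a, Algebra.self_mem_adjoin_singleton R a⟩ = α := by
    have h3 : e (AdjoinRoot.root (minpoly R a)) = ⟨a, Algebra.self_mem_adjoin_singleton R a⟩ := by
      rw [minpoly.coe_equivAdjoin]
      simp [AdjoinRoot.Minpoly.toAdjoin]
    have h4 : e.symm ⟨a, Algebra.self_mem_adjoin_singleton R a⟩ =
        AdjoinRoot.root (minpoly R a) := by
      rw [← h3, AlgEquiv.symm_apply_apply]
    change (AdjoinRoot.lift ((Pool.Agent.Lib.Puiseux.subst N1).comp ψ) α hroot)
      (e.symm ⟨a, Algebra.self_mem_adjoin_singleton R a⟩) = _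
    rw [h4, AdjoinRoot.lift_root]
  have i1 : Algebra.IsIntegral (Algebra.adjoin R ({a} : Set B)) B :=
    Algebra.IsIntegral.tower_top R
  have i2 : Algebra.FiniteType (Algebra.adjoin R ({a} : Set B)) B :=
    Algebra.FiniteType.of_restrictScalars_finiteType R _ B
  obtain ⟨N2, φ, hφ⟩ := ext_puiseux (A := Algebra.adjoin R ({a} : Set B)) (B := B)
    Subtype.val_injective ψ1
  refine ⟨N1 * N2, φ, ?_, ?_⟩
  · intro r
    have h3 : algebraMap R B r = algebraMap (Algebra.adjoin R ({a} : Set B)) B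
      (algebraMap R _ r) := rfl
    rw [h3, hφ, h1, Pool.Agent.Lib.Puiseux.subst_subst]
  · have h3 : a = algebraMap (Algebra.adjoin R ({a} : Set B)) B
      ⟨a, Algebra.self_mem_adjoin_singleton R a⟩ := rfl
    have h4 : φ a = Pool.Agent.Lib.Puiseux.subst N2 α := by
      conv_lhs => rw [h3]
      rw [hφ, h2]
    rw [h4]
    exact subst_coeff_zero' N2 hα0

end core

end NC

theorem arc_fg {F B : Type} [Field F] [CharZero F] [CommRing B] [IsDomain B] [Algebra F B]
    [Algebra.FiniteType F B] (a f : B) (ha : a ≠ 0) (hau : ¬ IsUnit a) (hf : f ≠ 0) :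
    ∃ φ : B →+* LaurentSeries (AlgebraicClosure F),
      (∀ c : F, φ (algebraMap F B c) = HahnSeries.C (algebraMap F (AlgebraicClosure F) c)) ∧
      (∀ b, ∀ n < 0, (φ b).coeff n = 0) ∧ (∀ n ≤ 0, (φ a).coeff n = 0) ∧ φ f ≠ 0 := by
  classical
  obtain ⟨s, g, hg, hgi⟩ := exists_integral_inj_algHom_of_fg F B
  let alg : Algebra (MvPolynomial (Fin s) F) B := g.toRingHom.toAlgebra
  have hmap : ∀ r, algebraMap (MvPolynomial (Fin s) F) B r = g r := fun r => rfl
  have hinj : Function.Injective (algebraMap (MvPolynomial (Fin s) F) B) := hg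
  have tower : IsScalarTower F (MvPolynomial (Fin s) F) B := IsScalarTower.of_algebraMap_eq
    fun x => (g.commutes x).symm
  have tf : IsTorsionFree (MvPolynomial (Fin s) F) B := by
    have : FaithfulSMul (MvPolynomial (Fin s) F) B :=
      (faithfulSMul_iff_algebraMap_injective _ _).mpr hinj
    infer_instance
  have int : Algebra.IsIntegral (MvPolynomial (Fin s) F) B := ⟨fun b => hgi b⟩
  have ft : Algebra.FiniteType (MvPolynomial (Fin s) F) B :=
    Algebra.FiniteType.of_restrictScalars_finiteType F _ B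
  set R := MvPolynomial (Fin s) F with hR
  have hNa : (minpoly R a).coeff 0 ≠ 0 := NC.coeff_zero_ne a ha
  have hNf : (minpoly R f).coeff 0 ≠ 0 := NC.coeff_zero_ne f hf
  have hNu : ¬ IsUnit ((minpoly R a).coeff 0) := NC.not_unit a hau
  obtain ⟨l, hlC, hla, hlf, hl0⟩ := exists_line (F := F) (Ω := AlgebraicClosure F) s
    _ _ hNa hNu hNf
  let ψ : R →+* LaurentSeries (AlgebraicClosure F) :=
    (HahnSeries.ofPowerSeries ℤ (AlgebraicClosure F)).comp
      ((Polynomial.coeToPowerSeries.ringHom (R := AlgebraicClosure F)).comp l)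
  have hψ : ∀ r, ψ r = HahnSeries.ofPowerSeries ℤ (AlgebraicClosure F)
      ((l r : Polynomial (AlgebraicClosure F)) : PowerSeries (AlgebraicClosure F)) := fun r => rfl
  have hψn : ∀ r, ∀ n < 0, (ψ r).coeff n = 0 := by
    intro r n hn
    rw [hψ, PowerSeries.coeff_coe, if_pos hn]
  have hψ0 : ∀ r, (ψ r).coeff 0 = (l r).coeff 0 := by
    intro r
    rw [hψ, PowerSeries.coeff_coe]
    simp
  have hψz : ∀ r, l r ≠ 0 → ψ r ≠ 0 := by
    intro r hr h
    apply hr
    rw [hψ] at h
    have h1 := HahnSeries.ofPowerSeries_injective (Γ := ℤ) (R := AlgebraicClosure F)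
      (h.trans (map_zero _).symm)
    exact_mod_cast h1
  obtain ⟨N, φ, hφ, hφa⟩ := NC.core (R := R) (B := B) ψ hψn a (by rw [hψ0]; exact hl0)
  have hroot : ∀ b, ((minpoly R b).map ((Pool.Agent.Lib.Puiseux.subst N).comp ψ)).eval (φ b)
      = 0 := by
    intro b
    have e1 : (Pool.Agent.Lib.Puiseux.subst N).comp ψ = φ.comp (algebraMap R B) := by
      exact RingHom.ext fun r => (hφ r).symm
    rw [Polynomial.eval_map, e1, ← Polynomial.hom_eval₂, ← Polynomial.aeval_def, minpoly.aeval,
      map_zero]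
  refine ⟨φ, ?_, ?_, hφa, ?_⟩
  · intro c
    have h1 : algebraMap F B c = algebraMap R B (C c) := (g.commutes c).symm
    rw [h1, hφ, hψ, hlC, Polynomial.coe_C, HahnSeries.ofPowerSeries_C]
    change Pool.Agent.Lib.Puiseux.subst N (HahnSeries.single 0 _) = _
    rw [Pool.Agent.Lib.Puiseux.subst_single, mul_zero]
    rfl
  · intro b
    refine integral_coeff (φ b) _ (((minpoly.monic (Algebra.IsIntegral.isIntegral b))).map _)
      (hroot b) ?_
    intro k
    rw [Polynomial.coeff_map]
    exact NC.subst_coeff_zero N (hψn _)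
  · intro h
    have h1 := hroot f
    rw [h, ← Polynomial.coeff_zero_eq_eval_zero, Polynomial.coeff_map, RingHom.comp_apply] at h1
    have h2 := Pool.Agent.Lib.Puiseux.subst_injective N (h1.trans (map_zero _).symm)
    exact hψz _ hlf h2

end Pool.Agent.AL
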