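import Pool.Agent.Lib.MP_c95b3b_ag_AL.Defs

/-! Project AL (MP_c95b3b_ag), module ND: reduction to a principal ideal by a valuation ring. -/

namespace Pool.Agent.AL

open Pool.Agent.L3 Pool.Agent.KP Module MvPolynomial

theorem principal {F L : Type} [Field F] [Field L] [Algebra F L] (Z X : Finset L)
    (hZ : ∃ z ∈ Z, z ≠ 0)
    (hid : Ideal.span {z : Algebra.adjoin F (Z : Set L) | (z : L) ∈ Z} ≠ ⊤) :
    ∃ (B : Subalgebra F L) (a : B), B.FG ∧ a ≠ 0 ∧ ¬ IsUnit a ∧
      (∀ z ∈ Z, ∃ b : B, z = (a : L) * b) ∧ ∀ x ∈ X, x ∈ B ∨ x⁻¹ ∈ B := by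
  classical
  obtain ⟨V, hAV, hJV⟩ := Ideal.image_subset_nonunits_valuationSubring
    (A := (Algebra.adjoin F (Z : Set L)).toSubring)
    (Ideal.span {z : Algebra.adjoin F (Z : Set L) | (z : L) ∈ Z}) hid
  have hF : ∀ c : F, algebraMap F L c ∈ V := fun c => hAV ((Algebra.adjoin F (Z : Set L)).algebraMap_mem c)
  have hZV : ∀ z ∈ Z, z ∈ V.nonunits := by
    intro z hz
    have hzA : z ∈ Algebra.adjoin F (Z : Set L) := Algebra.subset_adjoin hz
    exact hJV ⟨⟨z, hzA⟩, Ideal.subset_span (show z ∈ Z from hz), rfl⟩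
  -- the element of maximal value
  obtain ⟨a, ha, hmax⟩ := Finset.exists_max_image (Z.filter (· ≠ 0)) V.valuation
    (by obtain ⟨z, hz, hz0⟩ := hZ; exact ⟨z, Finset.mem_filter.mpr ⟨hz, hz0⟩⟩)
  obtain ⟨haZ, ha0⟩ := Finset.mem_filter.mp ha
  have hle : ∀ z ∈ Z, V.valuation z ≤ V.valuation a := by
    intro z hz
    by_cases h0 : z = 0
    · rw [h0, map_zero]; exact zero_le
    · exact hmax z (Finset.mem_filter.mpr ⟨hz, h0⟩)
  have hquo : ∀ z ∈ Z, z / a ∈ V := by
    intro z hz
    rw [← V.valuation_le_one_iff, map_div₀]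
    exact div_le_one_of_le₀ (hle z hz) zero_le
  have haV : a ∈ V := V.nonunits_le (hZV a haZ)
  -- the chosen elements
  let ch : L → L := fun x => if x ∈ V then x else x⁻¹
  have hch : ∀ x, ch x ∈ V := by
    intro x
    by_cases h : x ∈ V
    · simp only [ch, if_pos h]; exact h
    · simp only [ch, if_neg h]; exact (V.mem_or_inv_mem x).resolve_left h
  let S : Finset L := insert a (Z.image (fun z => z / a) ∪ X.image ch)
  let VA : Subalgebra F L := { V.toSubring with algebraMap_mem' := hF }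
  have hVA : ∀ x, x ∈ VA ↔ x ∈ V := fun x => Iff.rfl
  have hBV : ∀ x ∈ Algebra.adjoin F (S : Set L), x ∈ V := by
    intro x hx
    have hle : Algebra.adjoin F (S : Set L) ≤ VA := by
      rw [Algebra.adjoin_le_iff]
      intro y hy
      simp only [S, Finset.coe_insert, Finset.coe_union, Finset.coe_image, Set.mem_insert_iff,
        Set.mem_union, Set.mem_image, Finset.mem_coe] at hy
      rcases hy with rfl | ⟨z, hz, rfl⟩ | ⟨z, hz, rfl⟩
      · exact haV
      · exact hquo z hz
      · exact hch z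
    exact hle hx
  have haB : a ∈ Algebra.adjoin F (S : Set L) :=
    Algebra.subset_adjoin (by simp [S])
  refine ⟨Algebra.adjoin F (S : Set L), ⟨a, haB⟩, Subalgebra.fg_adjoin_finset S, ?_, ?_, ?_, ?_⟩
  · intro h
    exact ha0 (congrArg Subtype.val h)
  · intro hu
    obtain ⟨b, hb⟩ := hu.exists_right_inv
    have hb' : a * (b : L) = 1 := congrArg Subtype.val hb
    have hbV : (b : L) ∈ V := hBV _ b.2
    have hinv : (b : L) = a⁻¹ := (eq_inv_of_mul_eq_one_right hb')
    have h1 := hZV a haZ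
    rw [V.mem_nonunits_iff_or] at h1
    rcases h1 with h1 | h1
    · exact ha0 h1
    · exact h1 (hinv ▸ hbV)
  · intro z hz
    refine ⟨⟨z / a, Algebra.subset_adjoin ?_⟩, ?_⟩
    · simp only [S, Finset.coe_insert, Finset.coe_union, Finset.coe_image, Set.mem_insert_iff,
        Set.mem_union, Set.mem_image, Finset.mem_coe]
      exact Or.inr (Or.inl ⟨z, hz, rfl⟩)
    · show z = a * (z / a)
      rw [mul_div_cancel₀ _ ha0]
  · intro x hx
    have hmem : ch x ∈ Algebra.adjoin F (S : Set L) := by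
      apply Algebra.subset_adjoin
      simp only [S, Finset.coe_insert, Finset.coe_union, Finset.coe_image, Set.mem_insert_iff,
        Set.mem_union, Set.mem_image, Finset.mem_coe]
      exact Or.inr (Or.inr ⟨x, hx, rfl⟩)
    by_cases h : x ∈ V
    · simp only [ch, if_pos h] at hmem
      exact Or.inl hmem
    · simp only [ch, if_neg h] at hmem
      exact Or.inr hmem

end Pool.Agent.AL
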