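import Pool.Agent.Lib.MP_c95b3b_ag_AL.NC
import Pool.Agent.Lib.MP_c95b3b_ag_AL.ND

/-! Project AL (MP_c95b3b_ag), module NE: arcs. -/

namespace Pool.Agent.AL

open Pool.Agent.L3 Pool.Agent.KP Module MvPolynomial

namespace NE

/-- a Laurent series without negative coefficients is a power series -/
theorem mem_range {k : Type} [Field k] {x : LaurentSeries k} (h : ∀ j < 0, x.coeff j = 0) :
    ∃ p : PowerSeries k, HahnSeries.ofPowerSeries ℤ k p = x := by
  refine ⟨PowerSeries.mk fun n => x.coeff n, ?_⟩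
  ext j
  rcases lt_or_ge j 0 with hj | hj
  · rw [h j hj]
    by_contra hne
    rw [HahnSeries.ofPowerSeries_apply] at hne
    refine hne ?_
    refine HahnSeries.embDomain_of_notMem_range ?_
    rintro ⟨n, hn⟩
    have h2 : ((n : ℕ) : ℤ) = j := hn
    omega
  · obtain ⟨n, rfl⟩ := Int.eq_ofNat_of_zero_le hj
    have := HahnSeries.ofPowerSeries_apply_coeff (Γ := ℤ)
      (PowerSeries.mk fun n => x.coeff (n : ℤ)) n
    simpa using this

/-- the product with a series vanishing at `0` -/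
theorem coeff_mul_zero {k : Type} [Field k] {x y : LaurentSeries k}
    (hx : ∀ n ≤ 0, x.coeff n = 0) (hy : ∀ n < 0, y.coeff n = 0) :
    ∀ n ≤ 0, (x * y).coeff n = 0 := by
  obtain ⟨p, rfl⟩ := mem_range (x := x) (fun j hj => hx j hj.le)
  obtain ⟨q, rfl⟩ := mem_range (x := y) hy
  intro n hn
  rw [← map_mul]
  rcases lt_or_eq_of_le hn with h | h
  · rw [HahnSeries.ofPowerSeries_apply]
    refine HahnSeries.embDomain_of_notMem_range ?_
    rintro ⟨m, hm⟩
    have h2 : ((m : ℕ) : ℤ) = n := hm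
    omega
  · subst h
    have h0 := HahnSeries.ofPowerSeries_apply_coeff (Γ := ℤ) (p * q) 0
    have h1 := HahnSeries.ofPowerSeries_apply_coeff (Γ := ℤ) p 0
    have h2 := hx 0 le_rfl
    simp only [Nat.cast_zero] at h0 h1
    rw [h0, PowerSeries.coeff_zero_eq_constantCoeff_apply, map_mul]
    rw [h1, PowerSeries.coeff_zero_eq_constantCoeff_apply] at h2
    rw [h2, zero_mul]

variable {F L M : Type} [Field F] [Field L] [Algebra F L] [Field M]

/-- the subalgebra of the fractions with denominators the powers of `f` -/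
def frac (B0 : Subalgebra F L) (f : B0) : Subalgebra F L where
  carrier := {y | ∃ n : ℕ, y * (f : L) ^ n ∈ B0}
  mul_mem' := by
    rintro y z ⟨n, hn⟩ ⟨m, hm⟩
    refine ⟨n + m, ?_⟩
    have h : y * z * (f : L) ^ (n + m) = (y * (f : L) ^ n) * (z * (f : L) ^ m) := by ring
    rw [h]
    exact B0.mul_mem hn hm
  add_mem' := by
    rintro y z ⟨n, hn⟩ ⟨m, hm⟩
    refine ⟨n + m, ?_⟩
    have h : (y + z) * (f : L) ^ (n + m) =
        (y * (f : L) ^ n) * (f : L) ^ m + (z * (f : L) ^ m) * (f : L) ^ n := by ring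
    rw [h]
    exact B0.add_mem (B0.mul_mem hn (B0.pow_mem f.2 m)) (B0.mul_mem hm (B0.pow_mem f.2 n))
  algebraMap_mem' := by
    intro c
    refine ⟨0, ?_⟩
    rw [pow_zero, mul_one]
    exact B0.algebraMap_mem c

theorem le_frac (B0 : Subalgebra F L) (f : B0) {y : L} (hy : y ∈ B0) : y ∈ frac B0 f :=
  ⟨0, by rw [pow_zero, mul_one]; exact hy⟩

/-- the extension of a ring homomorphism to the fractions, as a function -/
noncomputable def extFun (B0 : Subalgebra F L) (f : B0) (φ0 : B0 →+* M) (y : frac B0 f) : M :=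
  φ0 ⟨(y : L) * (f : L) ^ (Classical.choose y.2), Classical.choose_spec y.2⟩ /
    (φ0 f) ^ (Classical.choose y.2)

theorem extFun_eq (B0 : Subalgebra F L) (f : B0) (φ0 : B0 →+* M) (hf : φ0 f ≠ 0)
    (y : frac B0 f) (n : ℕ) (h : (y : L) * (f : L) ^ n ∈ B0) :
    extFun B0 f φ0 y = φ0 ⟨(y : L) * (f : L) ^ n, h⟩ / (φ0 f) ^ n := by
  unfold extFun
  rw [div_eq_div_iff (pow_ne_zero _ hf) (pow_ne_zero _ hf), ← map_pow, ← map_pow, ← map_mul,
    ← map_mul]
  congr 1
  apply Subtype.ext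
  simp only [MulMemClass.coe_mul, SubmonoidClass.coe_pow]
  ring

/-- the extension of a ring homomorphism to the fractions -/
noncomputable def ext (B0 : Subalgebra F L) (f : B0) (φ0 : B0 →+* M) (hf : φ0 f ≠ 0) :
    frac B0 f →+* M where
  toFun := extFun B0 f φ0
  map_one' := by
    rw [extFun_eq B0 f φ0 hf 1 0 (by simp [B0.one_mem])]
    simp only [OneMemClass.coe_one, pow_zero, mul_one, div_one]
    exact map_one φ0
  map_mul' := by
    rintro y z
    obtain ⟨n, hn⟩ := y.2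
    obtain ⟨m, hm⟩ := z.2
    have h : ((y * z : frac B0 f) : L) * (f : L) ^ (n + m) =
        ((y : L) * (f : L) ^ n) * ((z : L) * (f : L) ^ m) := by
      simp only [MulMemClass.coe_mul]
      ring
    have h' : ((y * z : frac B0 f) : L) * (f : L) ^ (n + m) ∈ B0 := by
      rw [h]
      exact B0.mul_mem hn hm
    rw [extFun_eq B0 f φ0 hf y n hn, extFun_eq B0 f φ0 hf z m hm,
      extFun_eq B0 f φ0 hf (y * z) (n + m) h', div_mul_div_comm, ← map_mul, ← pow_add]
    congr 1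
    exact congrArg φ0 (Subtype.ext h)
  map_zero' := by
    rw [extFun_eq B0 f φ0 hf 0 0 (by simp [B0.zero_mem])]
    simp only [ZeroMemClass.coe_zero, pow_zero, mul_one, div_one]
    exact map_zero φ0
  map_add' := by
    rintro y z
    obtain ⟨n, hn⟩ := y.2
    obtain ⟨m, hm⟩ := z.2
    have h : ((y + z : frac B0 f) : L) * (f : L) ^ (n + m) =
        ((y : L) * (f : L) ^ n) * (f : L) ^ m + ((z : L) * (f : L) ^ m) * (f : L) ^ n := by
      simp only [AddMemClass.coe_add]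
      ring
    have h' : ((y + z : frac B0 f) : L) * (f : L) ^ (n + m) ∈ B0 := by
      rw [h]
      exact B0.add_mem (B0.mul_mem hn (B0.pow_mem f.2 m)) (B0.mul_mem hm (B0.pow_mem f.2 n))
    have h2 : (⟨((y + z : frac B0 f) : L) * (f : L) ^ (n + m), h'⟩ : B0) =
        (⟨(y : L) * (f : L) ^ n, hn⟩ : B0) * f ^ m + (⟨(z : L) * (f : L) ^ m, hm⟩ : B0) * f ^ n :=
      Subtype.ext h
    rw [extFun_eq B0 f φ0 hf y n hn, extFun_eq B0 f φ0 hf z m hm,
      extFun_eq B0 f φ0 hf (y + z) (n + m) h', h2, map_add, map_mul, map_mul, map_pow, map_pow,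
      div_add_div _ _ (pow_ne_zero _ hf) (pow_ne_zero _ hf), pow_add]
    congr 1
    ring

theorem ext_apply (B0 : Subalgebra F L) (f : B0) (φ0 : B0 →+* M) (hf : φ0 f ≠ 0)
    (y : L) (hy : y ∈ B0) : ext B0 f φ0 hf ⟨y, le_frac B0 f hy⟩ = φ0 ⟨y, hy⟩ := by
  have h : (((⟨y, le_frac B0 f hy⟩ : frac B0 f) : L)) * (f : L) ^ 0 ∈ B0 := by
    rw [pow_zero, mul_one]
    exact hy
  have h2 : (⟨(((⟨y, le_frac B0 f hy⟩ : frac B0 f) : L)) * (f : L) ^ 0, h⟩ : B0) = ⟨y, hy⟩ :=
    Subtype.ext (by simp)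
  have h3 := extFun_eq B0 f φ0 hf ⟨y, le_frac B0 f hy⟩ 0 h
  rw [h2, pow_zero, div_one] at h3
  exact h3

end NE

theorem arc {F L : Type} [Field F] [CharZero F] [Field L] [Algebra F L] (Z X : Finset L)
    (hZ : ∃ z ∈ Z, z ≠ 0) (hX : ∀ x ∈ X, x ≠ 0)
    (hid : Ideal.span {z : Algebra.adjoin F (Z : Set L) | (z : L) ∈ Z} ≠ ⊤) :
    ∃ (B : Subalgebra F L) (φ : B →+* LaurentSeries (AlgebraicClosure F)),
      (∀ c : F, φ (algebraMap F B c) = HahnSeries.C (algebraMap F (AlgebraicClosure F) c)) ∧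
      (∀ z ∈ Z, ∃ h : z ∈ B, ∀ n ≤ 0, (φ ⟨z, h⟩).coeff n = 0) ∧
      ∀ x ∈ X, x ∈ B ∧ x⁻¹ ∈ B := by
  classical
  obtain ⟨B0, a, hfg, ha0, hau, hzb, hxB⟩ := principal Z X hZ hid
  let g : L → L := fun x => if x ∈ B0 then x else x⁻¹
  have hg : ∀ x ∈ X, g x ∈ B0 := by
    intro x hx
    by_cases h : x ∈ B0
    · simp only [g, if_pos h]
      exact h
    · simp only [g, if_neg h]
      exact (hxB x hx).resolve_left h
  have hg0 : ∀ x ∈ X, g x ≠ 0 := by
    intro x hx
    by_cases h : x ∈ B0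
    · simp only [g, if_pos h]
      exact hX x hx
    · simp only [g, if_neg h]
      exact inv_ne_zero (hX x hx)
  let f : B0 := ⟨∏ x ∈ X, g x, B0.prod_mem hg⟩
  have hf0 : f ≠ 0 := by
    intro h
    have : ∏ x ∈ X, g x = 0 := congrArg Subtype.val h
    exact (Finset.prod_ne_zero_iff.2 hg0) this
  have : Algebra.FiniteType F B0 := (Subalgebra.fg_iff_finiteType B0).1 hfg
  obtain ⟨φ0, hφc, hφn, hφa, hφf⟩ := arc_fg (F := F) (B := B0) a f ha0 hau hf0
  refine ⟨NE.frac B0 f, NE.ext B0 f φ0 hφf, ?_, ?_, ?_⟩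
  · intro c
    rw [← hφc c]
    exact NE.ext_apply B0 f φ0 hφf (algebraMap F L c) (B0.algebraMap_mem c)
  · intro z hz
    obtain ⟨b, hb⟩ := hzb z hz
    have hzB : z ∈ B0 := by
      rw [hb]
      exact B0.mul_mem a.2 b.2
    refine ⟨NE.le_frac B0 f hzB, ?_⟩
    rw [NE.ext_apply B0 f φ0 hφf z hzB]
    have hab : (⟨z, hzB⟩ : B0) = a * b := Subtype.ext hb
    rw [hab, map_mul]
    exact NE.coeff_mul_zero hφa (hφn b)
  · intro x hx
    have hrest : ∏ y ∈ X.erase x, g y ∈ B0 :=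
      B0.prod_mem fun y hy => hg y (Finset.mem_of_mem_erase hy)
    have hfx : (f : L) = g x * ∏ y ∈ X.erase x, g y := (Finset.mul_prod_erase X g hx).symm
    by_cases h : x ∈ B0
    · refine ⟨NE.le_frac B0 f h, 1, ?_⟩
      rw [pow_one, hfx]
      simp only [g, if_pos h] at hrest ⊢
      rw [← mul_assoc, inv_mul_cancel₀ (hX x hx), one_mul]
      exact hrest
    · refine ⟨⟨1, ?_⟩, NE.le_frac B0 f ((hxB x hx).resolve_left h)⟩
      rw [pow_one, hfx]
      simp only [g, if_neg h] at hrest ⊢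
      rw [← mul_assoc, mul_inv_cancel₀ (hX x hx), one_mul]
      exact hrest

end Pool.Agent.AL
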