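import Pool.Agent.Lib.MP_c95b3b_ag_AL.DefsN
import Pool.Agent.Lib.MP_c95b3b_ag_AL.NE
import Pool.Agent.Lib.MP_f23696_ag.Hahn

/-! Project AL (MP_c95b3b_ag), module NF: Lemma NA. -/

namespace Pool.Agent.AL

open Pool.Agent.L3 Pool.Agent.KP Module MvPolynomial

section
variable {ι Λ : Type} [Fintype ι] [DecidableEq ι] [Fintype Λ] [DecidableEq Λ] {d : ℕ}

/-- expansion of the determinant `T e t` -/
theorem gT_expand {K : Type} [Field K] (ε : ι → Bool) (c : Cf ι Λ d → K) (P : ι → K) (a : Λ → K)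
    (e : Λ → ι) (t : Λ) (x : ι → K) (ha : ∀ l, a l = ∑ i, x i * (gy ε P i * gG c P l i)) :
    gT ε c P a e t = ∑ i, x i * gD ε c P (Function.update e t i) := by
  have ha' : a = ∑ i, x i • (fun l => gy ε P i * gG c P l i) := by
    funext l
    rw [ha l, Finset.sum_apply]
    rfl
  unfold gT gD
  rw [← Matrix.cramer_apply, ha', map_sum, Finset.sum_apply]
  refine Finset.sum_congr rfl fun i _ => ?_
  rw [map_smul, Pi.smul_apply, smul_eq_mul, Matrix.cramer_apply]
  congr 2
  ext l s
  rw [Matrix.updateCol_apply, Matrix.of_apply, Matrix.of_apply]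
  by_cases h : s = t
  · subst h
    rw [if_pos rfl, Function.update_self]
  · rw [if_neg h, Function.update_of_ne h]

end

namespace NF

section rings
variable {ι Λ : Type} [Fintype ι] [DecidableEq ι] [Fintype Λ] [DecidableEq Λ] {d : ℕ}
variable {R S : Type} [CommRing R] [CommRing S]

/-- `gv` over rings -/
noncomputable def vR (c : Cf ι Λ d → R) (P : ι → R) (l : Λ) : R :=
  ∑ e : ι → Fin (d + 1), c (l, e) * ∏ i, P i ^ (e i : ℕ)

/-- `gG` over rings -/
noncomputable def GR (c : Cf ι Λ d → R) (P : ι → R) (l : Λ) (i : ι) : R :=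
  ∑ e : ι → Fin (d + 1), c (l, e) *
    (((e i : ℕ) : R) * P i ^ ((e i : ℕ) - 1) * ∏ j ∈ Finset.univ.erase i, P j ^ (e j : ℕ))

/-- `gy` over rings -/
def yR (ε : ι → Bool) (P : ι → R) (i : ι) : R := if ε i then P i else 1 - P i

/-- `gD` over rings -/
noncomputable def DR (ε : ι → Bool) (c : Cf ι Λ d → R) (P : ι → R) (e : Λ → ι) : R :=
  (Matrix.of fun l t => yR ε P (e t) * GR c P l (e t)).det

/-- `gT` over rings -/
noncomputable def TR (ε : ι → Bool) (c : Cf ι Λ d → R) (P : ι → R) (a : Λ → R) (e : Λ → ι)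
    (t : Λ) : R :=
  ((Matrix.of fun l t => yR ε P (e t) * GR c P l (e t)).updateCol t a).det

theorem map_vR (f : R →+* S) (c : Cf ι Λ d → R) (P : ι → R) (l : Λ) :
    f (vR c P l) = vR (fun α => f (c α)) (fun i => f (P i)) l := by
  unfold vR
  simp only [map_sum, map_mul, map_prod, map_pow]

theorem map_GR (f : R →+* S) (c : Cf ι Λ d → R) (P : ι → R) (l : Λ) (i : ι) :
    f (GR c P l i) = GR (fun α => f (c α)) (fun i => f (P i)) l i := by
  unfold GR
  simp only [map_sum, map_mul, map_prod, map_pow, map_natCast]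

theorem map_yR (f : R →+* S) (ε : ι → Bool) (P : ι → R) (i : ι) :
    f (yR ε P i) = yR ε (fun i => f (P i)) i := by
  unfold yR
  split_ifs with h
  · rfl
  · rw [map_sub, map_one]

theorem map_DR (f : R →+* S) (ε : ι → Bool) (c : Cf ι Λ d → R) (P : ι → R) (e : Λ → ι) :
    f (DR ε c P e) = DR ε (fun α => f (c α)) (fun i => f (P i)) e := by
  unfold DR
  rw [RingHom.map_det]
  congr 1
  ext l t
  rw [RingHom.mapMatrix_apply, Matrix.map_apply, Matrix.of_apply, Matrix.of_apply, map_mul,
    map_yR, map_GR]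

theorem map_TR (f : R →+* S) (ε : ι → Bool) (c : Cf ι Λ d → R) (P : ι → R) (a : Λ → R)
    (e : Λ → ι) (t : Λ) :
    f (TR ε c P a e t) = TR ε (fun α => f (c α)) (fun i => f (P i)) (fun l => f (a l)) e t := by
  unfold TR
  rw [RingHom.map_det]
  congr 1
  ext l s
  rw [RingHom.mapMatrix_apply, Matrix.map_apply, Matrix.updateCol_apply, Matrix.updateCol_apply,
    Matrix.of_apply, Matrix.of_apply]
  by_cases h : s = t
  · rw [if_pos h, if_pos h]
  · rw [if_neg h, if_neg h, map_mul, map_yR, map_GR]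

theorem der_prod {A : Type} [CommRing A] [Algebra A R] (E : Derivation A R R)
    (s : Finset ι) (f : ι → R) :
    E (∏ i ∈ s, f i) = ∑ i ∈ s, (∏ j ∈ s.erase i, f j) * E (f i) := by
  induction s using Finset.induction_on with
  | empty => simp
  | insert a s ha ih =>
      rw [Finset.prod_insert ha, Derivation.leibniz, ih, Finset.sum_insert ha,
        Finset.erase_insert ha, smul_eq_mul, smul_eq_mul, Finset.mul_sum, add_comm]
      congr 1
      refine Finset.sum_congr rfl fun i hi => ?_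
      have hne : a ≠ i := fun h => ha (h ▸ hi)
      rw [Finset.erase_insert_of_ne hne, Finset.prod_insert (fun h => ha (Finset.mem_of_mem_erase h))]
      ring

theorem der_vR {A : Type} [CommRing A] [Algebra A R] (E : Derivation A R R)
    (c : Cf ι Λ d → R) (P : ι → R) (l : Λ) :
    E (vR c P l) = vR (fun α => E (c α)) P l + ∑ i, GR c P l i * E (P i) := by
  unfold vR GR
  rw [map_sum]
  simp only [Derivation.leibniz, smul_eq_mul, Finset.sum_add_distrib]
  rw [add_comm]
  congr 1
  · exact Finset.sum_congr rfl fun e _ => mul_comm _ _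
  · simp only [Finset.sum_mul]
    rw [Finset.sum_comm]
    refine Finset.sum_congr rfl fun e _ => ?_
    rw [der_prod, Finset.mul_sum]
    refine Finset.sum_congr rfl fun i _ => ?_
    rw [Derivation.leibniz_pow, nsmul_eq_mul, smul_eq_mul]
    ring

theorem der_vR' (E : R →+ R) (hE : ∀ a b, E (a * b) = a * E b + b * E a)
    (c : Cf ι Λ d → R) (P : ι → R) (l : Λ) :
    E (vR c P l) = vR (fun α => E (c α)) P l + ∑ i, GR c P l i * E (P i) := by
  let E' : Derivation ℤ R R := Derivation.mk' E.toIntLinearMap (fun a b => hE a b)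
  exact der_vR E' c P l

end rings

/-- coefficientwise extension of a derivation, as an additive map -/
theorem hcoef' {Γ Ω : Type} [AddCommMonoid Γ] [PartialOrder Γ] [IsOrderedCancelAddMonoid Γ]
    [Field Ω] [Algebra ℚ Ω] (D' : Derivation ℚ Ω Ω) :
    ∃ E : HahnSeries Γ Ω →+ HahnSeries Γ Ω, (∀ a b, E (a * b) = a * E b + b * E a) ∧
      ∀ f γ, (E f).coeff γ = D' (f.coeff γ) := by
  obtain ⟨E, hE⟩ := Pool.Agent.MLD.hcoef_exists (k := ℚ) (Γ := Γ) D'
  exact ⟨E.toLinearMap.toAddMonoidHom, fun a b => E.leibniz a b, hE⟩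

/-- division by `y` of the derivative of `y` does not lower the order -/
theorem coeff_div_neg {Ω : Type} [Field Ω] (D' : Ω → Ω) (hD0 : D' 0 = 0)
    (E : HahnSeries ℤ Ω →+ HahnSeries ℤ Ω)
    (hE : ∀ f γ, (E f).coeff γ = D' (f.coeff γ)) (y : HahnSeries ℤ Ω) (hy : y ≠ 0)
    (x : HahnSeries ℤ Ω) (hx : x * y = E y) (n : ℤ) (hn : n < 0) : x.coeff n = 0 := by
  by_cases hx0 : x = 0
  · rw [hx0]; rfl
  by_contra hne
  have hox : x.order < 0 := lt_of_le_of_lt (HahnSeries.order_le_of_coeff_ne_zero hne) hn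
  have ho : (x * y).order = x.order + y.order := HahnSeries.order_mul hx0 hy
  have hxy : x * y ≠ 0 := mul_ne_zero hx0 hy
  have h1 : (x * y).coeff (x * y).order ≠ 0 := fun h =>
    hxy (HahnSeries.coeff_order_eq_zero.mp h)
  apply h1
  rw [hx, hE, ← hx]
  have h2 : y.coeff (x * y).order = 0 := by
    apply HahnSeries.coeff_eq_zero_of_lt_order
    rw [ho]; linarith
  rw [h2, hD0]

theorem coeff_mul_zero {Ω : Type} [Field Ω] (x z : HahnSeries ℤ Ω)
    (hx : ∀ n < 0, x.coeff n = 0) (hz : ∀ n ≤ 0, z.coeff n = 0) : (x * z).coeff 0 = 0 := by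
  rw [HahnSeries.coeff_mul]
  refine Finset.sum_eq_zero fun ij hij => ?_
  have h := (Finset.mem_antidiagonal.mp hij).2.2
  rcases lt_or_ge ij.1 0 with h1 | h1
  · rw [hx _ h1, zero_mul]
  · have h2 : ij.2 ≤ 0 := by
      have : ij.1 + ij.2 = 0 := h
      linarith
    rw [hz _ h2, mul_zero]

end NF

section
variable {ι Λ : Type} [Fintype ι] [DecidableEq ι] [Fintype Λ] [DecidableEq Λ] {d : ℕ}

theorem NF.case_top {F L : Type} [Field F] [Field L] [Algebra F L] {X : Type} [Fintype X]
    (z : X → L) (Z : Set L) (hZ : Z = Set.range z)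
    (hid : Ideal.span {w : Algebra.adjoin F Z | (w : L) ∈ Z} = ⊤) :
    ∃ p : X → MvPolynomial X F, ∑ e, z e * aeval z (p e) = 1 := by
  subst hZ
  let ze : X → Algebra.adjoin F (Set.range z) := fun e => ⟨z e, Algebra.subset_adjoin ⟨e, rfl⟩⟩
  have hset : {w : Algebra.adjoin F (Set.range z) | (w : L) ∈ Set.range z} = Set.range ze := by
    ext w
    constructor
    · rintro ⟨e, he⟩
      exact ⟨e, Subtype.ext he⟩
    · rintro ⟨e, rfl⟩
      exact ⟨e, rfl⟩
  rw [hset] at hid
  have h1 : (1 : Algebra.adjoin F (Set.range z)) ∈ Ideal.span (Set.range ze) := by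
    rw [hid]; trivial
  obtain ⟨c, hc⟩ := Ideal.mem_span_range_iff_exists_fun.mp h1
  have hp : ∀ e, ∃ q : MvPolynomial X F, aeval z q = (c e : L) := by
    intro e
    have h2 : (c e : L) ∈ (aeval z : MvPolynomial X F →ₐ[F] L).range := by
      rw [← Algebra.adjoin_range_eq_range_aeval]
      exact (c e).2
    exact h2
  choose p hp using hp
  refine ⟨p, ?_⟩
  have h3 := congrArg (fun w : Algebra.adjoin F (Set.range z) => (w : L)) hc
  simp only [AddSubmonoidClass.coe_finsetSum, MulMemClass.coe_mul, OneMemClass.coe_one] at h3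
  rw [← h3]
  refine Finset.sum_congr rfl fun e _ => ?_
  rw [hp e, mul_comm]

theorem lemmaNA {F L : Type} [Field F] [CharZero F] [Field L] [Algebra F L]
    (D : Derivation ℚ F F) (c : Cf ι Λ d → F) (P : ι → L)
    (hP : ∀ i, P i ≠ 0 ∧ P i ≠ 1)
    (hroot : ∀ l, gv (fun α => algebraMap F L (c α)) P l = 0) (ε : ι → Bool) (e0 : Λ → ι) (t0 : Λ)
    (hT : gT ε (fun α => algebraMap F L (c α)) P (ga (fun α => algebraMap F L (D (c α))) P)
      e0 t0 ≠ 0)
    (hD : ∃ e, gD ε (fun α => algebraMap F L (c α)) P e ≠ 0) :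
    ∃ p : (Λ → ι) → MvPolynomial (Λ → ι) F,
      ∑ e, (gD ε (fun α => algebraMap F L (c α)) P e /
          gT ε (fun α => algebraMap F L (c α)) P (ga (fun α => algebraMap F L (D (c α))) P) e0 t0) *
        aeval (fun e => gD ε (fun α => algebraMap F L (c α)) P e /
          gT ε (fun α => algebraMap F L (c α)) P (ga (fun α => algebraMap F L (D (c α))) P) e0 t0)
          (p e) = 1 := by
  classical
  set T : L := gT ε (fun α => algebraMap F L (c α)) P
    (ga (fun α => algebraMap F L (D (c α))) P) e0 t0 with hTd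
  set z : (Λ → ι) → L := fun e => gD ε (fun α => algebraMap F L (c α)) P e / T with hzd
  let Z : Finset L := Finset.univ.image z
  have hZr : (Z : Set L) = Set.range z := by
    rw [Finset.coe_image, Finset.coe_univ, Set.image_univ]
  by_cases hid : Ideal.span {w : Algebra.adjoin F (Z : Set L) | (w : L) ∈ Z} = ⊤
  · exact NF.case_top z (Z : Set L) hZr hid
  exfalso
  let X : Finset L := Finset.univ.image P ∪ Finset.univ.image (gy ε P) ∪ {T}
  have hgy : ∀ i, gy ε P i ≠ 0 := by
    intro i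
    unfold gy
    split_ifs with h
    · exact (hP i).1
    · exact sub_ne_zero.mpr (hP i).2.symm
  have hZ : ∃ w ∈ Z, w ≠ 0 := by
    obtain ⟨e, he⟩ := hD
    exact ⟨z e, Finset.mem_image_of_mem _ (Finset.mem_univ _), div_ne_zero he hT⟩
  have hX : ∀ x ∈ X, x ≠ 0 := by
    intro x hx
    rcases Finset.mem_union.mp hx with hx | hx
    · rcases Finset.mem_union.mp hx with hx | hx
      · obtain ⟨i, _, rfl⟩ := Finset.mem_image.mp hx
        exact (hP i).1
      · obtain ⟨i, _, rfl⟩ := Finset.mem_image.mp hx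
        exact hgy i
    · rw [Finset.mem_singleton.mp hx]
      exact hT
  obtain ⟨B, φ, hφC, hφZ, hφX⟩ := arc Z X hZ hX hid
  obtain ⟨D', hD'⟩ := Pool.Agent.MLD.dext (k := ℚ) D
  obtain ⟨E, hEl, hE⟩ := NF.hcoef' (Γ := ℤ) D'
  have hE1 : E 1 = 0 := by
    have h := hEl 1 1
    rw [mul_one, one_mul] at h
    exact left_eq_add.mp h
  -- the point in `B`
  have hPB : ∀ i, P i ∈ B := fun i => (hφX (P i) (Finset.mem_union_left _
    (Finset.mem_union_left _ (Finset.mem_image_of_mem _ (Finset.mem_univ _))))).1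
  let PB : ι → B := fun i => ⟨P i, hPB i⟩
  let cB : Cf ι Λ d → B := fun α => algebraMap F B (c α)
  let bB : Cf ι Λ d → B := fun α => algebraMap F B (D (c α))
  let vB : B →+* L := B.val.toRingHom
  let PM : ι → LaurentSeries (AlgebraicClosure F) := fun i => φ (PB i)
  let cM : Cf ι Λ d → LaurentSeries (AlgebraicClosure F) := fun α => φ (cB α)
  let bM : Cf ι Λ d → LaurentSeries (AlgebraicClosure F) := fun α => φ (bB α)
  let aB : Λ → B := fun l => - NF.vR bB PB l
  have hvinj : Function.Injective vB := Subtype.val_injective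
  have hTB : vB (NF.TR ε cB PB aB e0 t0) = T := by
    rw [NF.map_TR]
    have h : (fun l => vB (aB l)) = ga (fun α => algebraMap F L (D (c α))) P := by
      funext l
      show vB (- NF.vR bB PB l) = - gv (fun α => algebraMap F L (D (c α))) P l
      rw [map_neg, NF.map_vR]
      rfl
    rw [h]
    rfl
  have hDB : ∀ e, vB (NF.DR ε cB PB e) = gD ε (fun α => algebraMap F L (c α)) P e := by
    intro e
    rw [NF.map_DR]
    rfl
  have hzB : ∀ e, ∃ h : z e ∈ B, ∀ n ≤ 0, (φ ⟨z e, h⟩).coeff n = 0 := fun e =>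
    hφZ (z e) (Finset.mem_image_of_mem _ (Finset.mem_univ _))
  choose hzB hzc using hzB
  let zB : (Λ → ι) → B := fun e => ⟨z e, hzB e⟩
  have hDz : ∀ e, NF.DR ε cB PB e = zB e * NF.TR ε cB PB aB e0 t0 := by
    intro e
    apply hvinj
    rw [map_mul, hTB, hDB]
    show gD ε (fun α => algebraMap F L (c α)) P e =
      gD ε (fun α => algebraMap F L (c α)) P e / T * T
    rw [div_mul_cancel₀ _ hT]
  have hinv : ∀ b : B, vB b ∈ X → φ b ≠ 0 := by
    intro b hb h
    have h2 := (hφX (vB b) hb).2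
    have h3 : b * ⟨(vB b)⁻¹, h2⟩ = 1 := by
      apply hvinj
      rw [map_mul, map_one]
      show vB b * (vB b)⁻¹ = 1
      exact mul_inv_cancel₀ (hX _ hb)
    have h4 := congrArg φ h3
    rw [map_mul, h, zero_mul, map_one] at h4
    exact zero_ne_one h4
  have hTM : φ (NF.TR ε cB PB aB e0 t0) ≠ 0 := by
    apply hinv
    rw [hTB]
    exact Finset.mem_union_right _ (Finset.mem_singleton_self T)
  have hyM : ∀ i, gy ε PM i ≠ 0 := by
    intro i
    have h1 : gy ε PM i = φ (NF.yR ε PB i) := (NF.map_yR φ ε PB i).symm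
    rw [h1]
    apply hinv
    have h2 : vB (NF.yR ε PB i) = gy ε P i := NF.map_yR vB ε PB i
    rw [h2]
    exact Finset.mem_union_left _ (Finset.mem_union_right _
      (Finset.mem_image_of_mem _ (Finset.mem_univ _)))
  let x : ι → LaurentSeries (AlgebraicClosure F) := fun i => E (PM i) / gy ε PM i
  have hxy : ∀ i, x i * gy ε PM i = E (PM i) := fun i => div_mul_cancel₀ _ (hyM i)
  have hx0 : ∀ i, ∀ n < 0, (x i).coeff n = 0 := by
    intro i n hn
    by_cases h : ε i = true
    · have h1 : gy ε PM i = PM i := if_pos h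
      refine NF.coeff_div_neg (fun w => D' w) (map_zero D') E hE (gy ε PM i) (hyM i) (x i) ?_ n hn
      rw [hxy, h1]
    · have h1 : gy ε PM i = 1 - PM i := if_neg h
      have h2 : (-(x i)).coeff n = 0 := by
        refine NF.coeff_div_neg (fun w => D' w) (map_zero D') E hE (gy ε PM i) (hyM i) (-(x i)) ?_ n hn
        rw [neg_mul, hxy, h1, map_sub, hE1, zero_sub]
      rw [HahnSeries.coeff_neg, neg_eq_zero] at h2
      exact h2
  have hEc : (fun α => E (cM α)) = bM := by
    funext α
    show E (φ (algebraMap F B (c α))) = φ (algebraMap F B (D (c α)))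
    rw [hφC, hφC]
    ext n
    rw [hE, HahnSeries.C_apply, HahnSeries.C_apply]
    by_cases hn : n = 0
    · subst hn
      rw [HahnSeries.coeff_single_same, HahnSeries.coeff_single_same, hD']
    · rw [HahnSeries.coeff_single_of_ne hn, HahnSeries.coeff_single_of_ne hn, map_zero]
  have haM : ∀ l, φ (aB l) = ∑ i, x i * (gy ε PM i * gG cM PM l i) := by
    intro l
    have h0 : NF.vR cM PM l = 0 := by
      have h1 : NF.vR cB PB l = 0 := by
        apply hvinj
        rw [NF.map_vR, map_zero]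
        exact hroot l
      have h2 := congrArg φ h1
      rw [NF.map_vR, map_zero] at h2
      exact h2
    have h3 := NF.der_vR' E hEl cM PM l
    rw [h0, map_zero, hEc] at h3
    have h4 : φ (aB l) = - NF.vR bM PM l := by
      show φ (- NF.vR bB PB l) = _
      rw [map_neg, NF.map_vR]
    rw [h4, neg_eq_iff_add_eq_zero]
    rw [h3]
    congr 1
    refine Finset.sum_congr rfl fun i _ => ?_
    rw [← hxy i]
    show _ = _ * _
    rw [show (gG cM PM l i) = NF.GR cM PM l i from rfl]
    ring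
  have key := gT_expand ε cM PM (fun l => φ (aB l)) e0 t0 x haM
  have k1 : gT ε cM PM (fun l => φ (aB l)) e0 t0 = φ (NF.TR ε cB PB aB e0 t0) :=
    (NF.map_TR φ ε cB PB aB e0 t0).symm
  have k2 : ∀ e, gD ε cM PM e = φ (zB e) * φ (NF.TR ε cB PB aB e0 t0) := by
    intro e
    rw [← map_mul, ← hDz]
    exact (NF.map_DR φ ε cB PB e).symm
  have k3 : ∑ i, x i * φ (zB (Function.update e0 t0 i)) = 1 := by
    apply mul_right_cancel₀ hTM
    rw [one_mul, Finset.sum_mul]
    rw [k1] at key
    rw [key]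
    refine Finset.sum_congr rfl fun i _ => ?_
    rw [k2, key, mul_assoc]
  have k4 : (∑ i, x i * φ (zB (Function.update e0 t0 i))).coeff 0 = 0 := by
    rw [HahnSeries.coeff_sum]
    exact Finset.sum_eq_zero fun i _ => NF.coeff_mul_zero _ _ (hx0 i) (hzc _)
  rw [k3, HahnSeries.coeff_one, if_pos rfl] at k4
  exact one_ne_zero k4

end

end Pool.Agent.AL
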