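import Pool.Agent.Lib.MP_c95b3b_ag_AL.Defs

/-! Project AL (MP_c95b3b_ag), module NG: derivations. -/

namespace Pool.Agent.AL

open Pool.Agent.L3 Pool.Agent.KP Module MvPolynomial

namespace NG

variable {L : Type} [Field L] [CharZero L] {A : Type}

/-- clearing the denominators of the coefficients -/
theorem clear (c : A → L) (r : MvPolynomial A ℚ) :
    ∃ (n : ℤ) (p : MvPolynomial A ℤ), n ≠ 0 ∧ (n : L) * aeval c r = aeval c p := by
  induction r using MvPolynomial.induction_on with
  | C a =>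
    refine ⟨a.den, C a.num, by exact_mod_cast a.den_nz, ?_⟩
    rw [aeval_C, aeval_C]
    have h1 : (algebraMap ℚ L) a = (a : L) := rfl
    have h2 : (algebraMap ℤ L) a.num = ((a.num : ℤ) : L) := rfl
    have h3 : ((a.den : ℚ) : L) * (a : L) = ((a.num : ℚ) : L) := by
      rw [← Rat.cast_mul, Rat.den_mul_eq_num]
    rw [h1, h2]
    push_cast at h3 ⊢
    exact h3
  | add p q hp hq =>
    obtain ⟨n, p', hn, h1⟩ := hp
    obtain ⟨m, q', hm, h2⟩ := hq
    refine ⟨n * m, C m * p' + C n * q', mul_ne_zero hn hm, ?_⟩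
    rw [map_add, map_add, map_mul, map_mul, ← h1, ← h2, aeval_C, aeval_C]
    push_cast
    simp only [algebraMap_int_eq, eq_intCast]
    ring
  | mul_X p i hp =>
    obtain ⟨n, p', hn, h1⟩ := hp
    refine ⟨n, p' * X i, hn, ?_⟩
    rw [map_mul, map_mul, ← h1, aeval_X, aeval_X]
    ring

/-- elements of `ℚ(c)` as quotients of polynomials with integer coefficients -/
theorem quot (c : A → L) (y : IntermediateField.adjoin ℚ (Set.range c)) :
    ∃ q p : MvPolynomial A ℤ, aeval c q ≠ 0 ∧ aeval c q * (y : L) = aeval c p := by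
  obtain ⟨r, s, hy⟩ := (IntermediateField.mem_adjoin_range_iff ℚ c (y : L)).1 y.2
  obtain ⟨n, p, hn, hp⟩ := clear c r
  obtain ⟨m, q, hm, hq⟩ := clear c s
  by_cases hs : aeval c s = 0
  · refine ⟨1, 0, by simp, ?_⟩
    rw [hy, hs]
    simp
  · have hn' : (n : L) ≠ 0 := by exact_mod_cast hn
    have hm' : (m : L) ≠ 0 := by exact_mod_cast hm
    refine ⟨C n * q, C m * p, ?_, ?_⟩
    · rw [map_mul, ← hq, aeval_C]
      exact mul_ne_zero hn' (mul_ne_zero hm' hs)
    · rw [map_mul, map_mul, ← hp, ← hq, aeval_C, aeval_C, hy]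
      simp only [algebraMap_int_eq, eq_intCast]
      field_simp

/-- the differentials of the generators span the module of differentials -/
theorem span_top (c : A → L) :
    Submodule.span (IntermediateField.adjoin ℚ (Set.range c))
      (Set.range fun α : A => KaehlerDifferential.D ℚ (IntermediateField.adjoin ℚ (Set.range c))
        ⟨c α, IntermediateField.subset_adjoin ℚ _ ⟨α, rfl⟩⟩) = ⊤ := by
  set F := IntermediateField.adjoin ℚ (Set.range c) with hF
  set d := KaehlerDifferential.D ℚ F with hd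
  set W := Submodule.span F (Set.range fun α : A => d
    ⟨c α, IntermediateField.subset_adjoin ℚ _ ⟨α, rfl⟩⟩) with hW
  have key : ∀ (x : L) (hx : x ∈ F), d ⟨x, hx⟩ ∈ W := by
    intro x hx
    induction hx using IntermediateField.adjoin_induction with
    | mem x hx =>
      obtain ⟨α, rfl⟩ := hx
      exact Submodule.subset_span ⟨α, rfl⟩
    | algebraMap q =>
      have h1 : (⟨algebraMap ℚ L q, IntermediateField.algebraMap_mem _ _⟩ : F) =
        algebraMap ℚ F q := rfl
      rw [h1, Derivation.map_algebraMap]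
      exact W.zero_mem
    | add x y hx hy h1 h2 =>
      have h3 : (⟨x + y, add_mem hx hy⟩ : F) = ⟨x, hx⟩ + ⟨y, hy⟩ := rfl
      rw [h3, map_add]
      exact W.add_mem h1 h2
    | inv x hx h1 =>
      have h3 : (⟨x⁻¹, inv_mem hx⟩ : F) = (⟨x, hx⟩ : F)⁻¹ := rfl
      rw [h3, Derivation.leibniz_inv]
      exact W.smul_mem _ h1
    | mul x y hx hy h1 h2 =>
      have h3 : (⟨x * y, mul_mem hx hy⟩ : F) = ⟨x, hx⟩ * ⟨y, hy⟩ := rfl
      rw [h3, Derivation.leibniz]
      exact W.add_mem (W.smul_mem _ h2) (W.smul_mem _ h1)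
  rw [eq_top_iff, ← KaehlerDifferential.span_range_derivation ℚ F]
  refine Submodule.span_le.2 ?_
  rintro _ ⟨x, rfl⟩
  exact key x x.2

end NG

theorem der_basis {L : Type} [Field L] [CharZero L] {A : Type} [Fintype A] [DecidableEq A]
    (c : A → L) :
    ∃ (m : ℕ) (D : Fin m → Derivation ℚ (IntermediateField.adjoin ℚ (Set.range c))
        (IntermediateField.adjoin ℚ (Set.range c))) (b : Fin m → A → MvPolynomial A ℤ),
      (∀ k α, ((D k ⟨c α, IntermediateField.subset_adjoin ℚ _ ⟨α, rfl⟩⟩ :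
        IntermediateField.adjoin ℚ (Set.range c)) : L) = aeval c (b k α)) ∧
      ∀ Δ : Derivation ℚ L L, ∃ x : Fin m → L, ∀ z : IntermediateField.adjoin ℚ (Set.range c),
        Δ z = ∑ k, x k * ((D k z : IntermediateField.adjoin ℚ (Set.range c)) : L) := by
  set F := IntermediateField.adjoin ℚ (Set.range c) with hF
  let cF : A → F := fun α => ⟨c α, IntermediateField.subset_adjoin ℚ _ ⟨α, rfl⟩⟩
  have hcF : ∀ P : MvPolynomial A ℤ, ((aeval cF P : F) : L) = aeval c P := fun P =>
    (MvPolynomial.aeval_algebraMap_apply L cF P).symm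
  have hfin : Module.Finite F (Ω[F⁄ℚ]) := by
    refine Module.finite_def.2 ?_
    rw [← NG.span_top c]
    exact Submodule.fg_span (Set.finite_range _)
  let bs := Module.finBasis F (Ω[F⁄ℚ])
  let D' : Fin (Module.finrank F (Ω[F⁄ℚ])) → Derivation ℚ F F := fun k =>
    (bs.coord k).compDer (KaehlerDifferential.D ℚ F)
  have hq : ∀ k α, ∃ q p : MvPolynomial A ℤ, aeval c q ≠ 0 ∧
      aeval c q * ((D' k (cF α) : F) : L) = aeval c p := fun k α => NG.quot c _
  choose q p hq0 hqp using hq
  let Q : Fin (Module.finrank F (Ω[F⁄ℚ])) → F := fun k => aeval cF (∏ β, q k β)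
  have hQ : ∀ k, ((Q k : F) : L) = ∏ β, aeval c (q k β) := by
    intro k
    show ((aeval cF (∏ β, q k β) : F) : L) = _
    rw [hcF, map_prod]
  have hQ0 : ∀ k, ((Q k : F) : L) ≠ 0 := by
    intro k
    rw [hQ]
    exact Finset.prod_ne_zero_iff.2 fun β _ => hq0 k β
  refine ⟨Module.finrank F (Ω[F⁄ℚ]), fun k => Q k • D' k,
    fun k α => (∏ β ∈ Finset.univ.erase α, q k β) * p k α, ?_, ?_⟩
  · intro k α
    have h1 : (((Q k • D' k) (cF α) : F) : L) = ((Q k : F) : L) * ((D' k (cF α) : F) : L) := rfl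
    show (((Q k • D' k) (cF α) : F) : L) = _
    rw [h1, hQ, map_mul, ← hqp, ← mul_assoc, map_prod,
      Finset.prod_erase_mul _ _ (Finset.mem_univ α)]
  · intro Δ
    let Δ' : Derivation ℚ F L := Δ.compAlgebraMap F
    let φ := Δ'.liftKaehlerDifferential
    refine ⟨fun k => φ (bs k) * ((Q k : F) : L)⁻¹, fun z => ?_⟩
    have h1 : Δ z = φ (KaehlerDifferential.D ℚ F z) := (Δ'.liftKaehlerDifferential_comp_D z).symm
    rw [h1, ← bs.sum_repr (KaehlerDifferential.D ℚ F z), map_sum]
    refine Finset.sum_congr rfl fun k _ => ?_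
    have h2 : (((Q k • D' k) z : F) : L) =
        ((Q k : F) : L) * ((bs.repr (KaehlerDifferential.D ℚ F z) k : F) : L) := rfl
    have h3 : φ (bs.repr (KaehlerDifferential.D ℚ F z) k • bs k) =
        ((bs.repr (KaehlerDifferential.D ℚ F z) k : F) : L) * φ (bs k) := by
      rw [map_smul]
      rfl
    rw [h2, h3]
    have := hQ0 k
    field_simp

end Pool.Agent.AL
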