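import Pool.Agent.Lib.MP_c95b3b_ag_AL.Defs

/-! Project AL (MP_c95b3b_ag), module NH: dual derivations. -/

namespace Pool.Agent.AL

open Pool.Agent.L3 Pool.Agent.KP Module MvPolynomial

/-- extension of a derivation from the polynomial ring of a transcendence basis -/
private theorem NH_ext {L : Type} [Field L] [CharZero L] {s : Type} (x : s → L)
    (hx : IsTranscendenceBasis ℚ x) (v : s → L) :
    ∃ E : Derivation ℚ L L, ∀ j, E (x j) = v j := by
  classical
  let _ : Algebra (MvPolynomial s ℚ) L := (aeval (R := ℚ) x).toRingHom.toAlgebra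
  have hmap : ∀ p, algebraMap (MvPolynomial s ℚ) L p = aeval x p := fun _ => rfl
  have hinj : Function.Injective (algebraMap (MvPolynomial s ℚ) L) := hx.1
  have ht : IsScalarTower ℚ (MvPolynomial s ℚ) L := IsScalarTower.of_algebraMap_eq fun q => by
    rw [hmap, MvPolynomial.algebraMap_eq, aeval_C]
  have hfs : FaithfulSMul (MvPolynomial s ℚ) L := (faithfulSMul_iff_algebraMap_injective _ _).2 hinj
  have halg0 : Algebra.IsAlgebraic (Algebra.adjoin ℚ (Set.range x)) L := hx.isAlgebraic
  have halg : Algebra.IsAlgebraic (MvPolynomial s ℚ) L :=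
    Algebra.IsAlgebraic.of_ringHom_of_comp_eq (S := Algebra.adjoin ℚ (Set.range x)) (B := L)
      (hx.1.aevalEquiv.toAlgHom.toRingHom)
      (RingHom.id L) hx.1.aevalEquiv.surjective Function.injective_id (by
        refine RingHom.ext fun q => ?_
        show ((hx.1.aevalEquiv q : Algebra.adjoin ℚ (Set.range x)) : L) = aeval x q
        exact hx.1.algebraMap_aevalEquiv q)
  let _ : Algebra (FractionRing (MvPolynomial s ℚ)) L := FractionRing.liftAlgebra _ L
  have halg2 : Algebra.IsAlgebraic (FractionRing (MvPolynomial s ℚ)) L :=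
    (IsFractionRing.comap_isAlgebraic_iff (A := MvPolynomial s ℚ)).1 halg
  have hch : CharZero (FractionRing (MvPolynomial s ℚ)) :=
    charZero_of_injective_algebraMap (R := MvPolynomial s ℚ) (IsFractionRing.injective _ _)
  have h1 : Algebra.FormallyEtale (MvPolynomial s ℚ) (FractionRing (MvPolynomial s ℚ)) :=
    Algebra.FormallyEtale.of_isLocalization (nonZeroDivisors (MvPolynomial s ℚ))
  have h2 : Algebra.FormallyEtale (FractionRing (MvPolynomial s ℚ)) L :=
    Algebra.FormallyEtale.of_isSeparable _ L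
  have h3 : Algebra.FormallyEtale (MvPolynomial s ℚ) L :=
    Algebra.FormallyEtale.comp _ (FractionRing (MvPolynomial s ℚ)) L
  let e := KaehlerDifferential.tensorKaehlerEquivOfFormallyEtale ℚ (MvPolynomial s ℚ) L
  let δ : Derivation ℚ (MvPolynomial s ℚ) L := mkDerivation ℚ v
  let φ : Ω[L⁄ℚ] →ₗ[L] L := (δ.liftKaehlerDifferential.liftBaseChange L).comp e.symm.toLinearMap
  refine ⟨φ.compDer (KaehlerDifferential.D ℚ L), fun j => ?_⟩
  have hxj : x j = algebraMap (MvPolynomial s ℚ) L (X j) := by rw [hmap, aeval_X]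
  rw [hxj]
  show (δ.liftKaehlerDifferential.liftBaseChange L)
    (e.symm (KaehlerDifferential.D ℚ L (algebraMap (MvPolynomial s ℚ) L (X j)))) = v j
  rw [KaehlerDifferential.tensorKaehlerEquivOfFormallyEtale_symm_D_algebraMap,
    LinearMap.liftBaseChange_tmul, one_smul, Derivation.liftKaehlerDifferential_comp_D]
  exact mkDerivation_X ℚ v j

theorem exists_dual {L : Type} [Field L] [CharZero L] {ι : Type} [Fintype ι] [DecidableEq ι]
    (P : ι → L) (hP : AlgebraicIndependent ℚ P) :
    ∃ E : ι → Derivation ℚ L L, ∀ i j, E i (P j) = if i = j then 1 else 0 := by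
  classical
  obtain ⟨t, hst, ht⟩ := exists_isTranscendenceBasis_superset (R := ℚ) (s := Set.range P)
    ((algebraicIndependent_subtype_range hP.injective).2 hP)
  choose E hE using fun i : ι => NH_ext (fun y : t => (y : L)) ht
    (fun y : t => if P i = y then 1 else 0)
  refine ⟨E, fun i j => ?_⟩
  have h := hE i ⟨P j, hst ⟨j, rfl⟩⟩
  rw [h]
  by_cases hij : i = j
  · subst hij
    simp
  · rw [if_neg hij, if_neg]
    intro h2
    exact hij (hP.injective h2)

end Pool.Agent.AL
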