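import Pool.Agent.Lib.MP_c95b3b_ag_AL.DefsN
import Pool.Agent.Lib.MP_c95b3b_ag_AL.NF
import Pool.Agent.Lib.MP_c95b3b_ag_AL.NG
import Pool.Agent.Lib.MP_c95b3b_ag_AL.NH

/-! Project AL (MP_c95b3b_ag), module NI: the certificates in the generic situation. -/

namespace Pool.Agent.AL

open Pool.Agent.L3 Pool.Agent.KP Module MvPolynomial

namespace NI

/-- product rule -/
lemma der_prod {L : Type} [Field L] [CharZero L] {ι : Type} [DecidableEq ι]
    (Δ : Derivation ℚ L L) (s : Finset ι) (f : ι → L) :
    Δ (∏ i ∈ s, f i) = ∑ i ∈ s, (∏ j ∈ s.erase i, f j) * Δ (f i) := by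
  classical
  induction s using Finset.induction_on with
  | empty => simp
  | insert a s ha ih =>
    rw [Finset.prod_insert ha, Derivation.leibniz, ih, Finset.sum_insert ha,
      Finset.erase_insert ha, smul_eq_mul, smul_eq_mul, Finset.mul_sum, add_comm]
    congr 1
    apply Finset.sum_congr rfl
    intro i hi
    have hia : i ≠ a := fun h => ha (h ▸ hi)
    rw [Finset.erase_insert_of_ne hia.symm, Finset.prod_insert]
    · ring
    · intro h
      exact ha (Finset.mem_of_mem_erase h)

section
variable {ι Λ : Type} [Fintype ι] [DecidableEq ι] {d : ℕ}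

/-- the derivative of the value of `g l` -/
lemma der_gv {L : Type} [Field L] [CharZero L] (Δ : Derivation ℚ L L) (c : Cf ι Λ d → L)
    (P : ι → L) (l : Λ) :
    Δ (gv c P l) = gv (fun α => Δ (c α)) P l + ∑ i, gG c P l i * Δ (P i) := by
  unfold gv gG
  rw [map_sum]
  simp only [Derivation.leibniz, der_prod, smul_eq_mul, Derivation.leibniz_pow, nsmul_eq_mul]
  rw [Finset.sum_add_distrib, add_comm]
  congr 1
  · apply Finset.sum_congr rfl
    intro e _
    ring
  · simp only [Finset.mul_sum, Finset.sum_mul]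
    rw [Finset.sum_comm]
    apply Finset.sum_congr rfl
    intro i _
    apply Finset.sum_congr rfl
    intro e _
    ring

lemma gv_sum {L : Type} [Field L] {κ : Type} [Fintype κ] (x : κ → L)
    (c : κ → Cf ι Λ d → L) (P : ι → L) (l : Λ) :
    gv (fun α => ∑ k, x k * c k α) P l = ∑ k, x k * gv (c k) P l := by
  unfold gv
  simp only [Finset.mul_sum, Finset.sum_mul]
  rw [Finset.sum_comm]
  apply Finset.sum_congr rfl
  intro k _
  apply Finset.sum_congr rfl
  intro e _
  ring

end

/-- every element of the field generated by the `c α` is a quotient of values of polynomials -/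
lemma exists_num_den {L : Type} [Field L] [CharZero L] {A : Type} (c : A → L) (y : L)
    (hy : y ∈ IntermediateField.adjoin ℚ (Set.range c)) :
    ∃ num den : MvPolynomial A ℤ, aeval c den ≠ 0 ∧ aeval c den * y = aeval c num := by
  induction hy using IntermediateField.adjoin_induction with
  | mem x hx =>
    obtain ⟨α, rfl⟩ := hx
    exact ⟨X α, 1, by simp, by simp⟩
  | algebraMap q =>
    refine ⟨C q.num, C (q.den : ℤ), ?_, ?_⟩
    · simp
    · have h : ((q.den : ℚ) * q : ℚ) = q.num := Rat.den_mul_eq_num q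
      have := congrArg (fun t : ℚ => (t : L)) h
      push_cast at this
      rw [aeval_C, aeval_C]
      simpa using this
  | add x y _ _ hx hy =>
    obtain ⟨n, e, he, h⟩ := hx
    obtain ⟨n', e', he', h'⟩ := hy
    refine ⟨n * e' + n' * e, e * e', ?_, ?_⟩
    · rw [map_mul]
      exact mul_ne_zero he he'
    · rw [map_mul, map_add, map_mul, map_mul, ← h, ← h']
      ring
  | inv x _ hx =>
    obtain ⟨n, e, he, h⟩ := hx
    by_cases hx0 : x = 0
    · exact ⟨0, 1, by simp, by simp [hx0]⟩
    · refine ⟨e, n, ?_, ?_⟩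
      · rw [← h]
        exact mul_ne_zero he hx0
      · rw [← h]
        field_simp
  | mul x y _ _ hx hy =>
    obtain ⟨n, e, he, h⟩ := hx
    obtain ⟨n', e', he', h'⟩ := hy
    refine ⟨n * n', e * e', ?_, ?_⟩
    · rw [map_mul]
      exact mul_ne_zero he he'
    · rw [map_mul, map_mul, ← h, ← h']
      ring

/-- common denominator -/
lemma exists_common {L : Type} [Field L] [CharZero L] {A B : Type} [DecidableEq B] (c : A → L)
    (s : Finset B) (y : B → L)
    (hy : ∀ i ∈ s, y i ∈ IntermediateField.adjoin ℚ (Set.range c)) :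
    ∃ E : MvPolynomial A ℤ, aeval c E ≠ 0 ∧ ∀ i ∈ s, ∃ h : MvPolynomial A ℤ,
      aeval c E * y i = aeval c h := by
  induction s using Finset.induction_on with
  | empty => exact ⟨1, by simp, by simp⟩
  | insert a s ha ih =>
    obtain ⟨E, hE, hs⟩ := ih (fun i hi => hy i (Finset.mem_insert_of_mem hi))
    obtain ⟨n, e, he, h⟩ := exists_num_den c (y a) (hy a (Finset.mem_insert_self a s))
    refine ⟨E * e, ?_, ?_⟩
    · rw [map_mul]
      exact mul_ne_zero hE he
    · intro i hi
      rw [Finset.mem_insert] at hi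
      rcases hi with rfl | hi
      · refine ⟨E * n, ?_⟩
        rw [map_mul, map_mul, ← h]
        ring
      · obtain ⟨h', hh'⟩ := hs i hi
        refine ⟨e * h', ?_⟩
        rw [map_mul, map_mul, ← hh']
        ring

/-- the exponents of the homogenised polynomial -/
noncomputable def ex {Ω : Type} (N : ℕ) (ν : Ω →₀ ℕ) : Option Ω →₀ ℕ :=
  ν.mapDomain some + Finsupp.single none (N - ν.degree)

lemma ex_degree {Ω : Type} (N : ℕ) (ν : Ω →₀ ℕ) (h : ν.degree ≤ N) : (ex N ν).degree = N := by
  unfold ex
  rw [map_add, Finsupp.degree_mapDomain, Finsupp.degree_single]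
  omega

/-- the homogenised polynomial -/
noncomputable def hom {A Ω : Type} (N : ℕ) (s : Finset (Ω →₀ ℕ))
    (h : (Ω →₀ ℕ) → MvPolynomial A ℤ) : MvPolynomial (Option Ω) (MvPolynomial A ℤ) :=
  ∑ ν ∈ s, monomial (ex N ν) (h ν)

lemma hom_isHomogeneous {A Ω : Type} (N : ℕ) (s : Finset (Ω →₀ ℕ))
    (h : (Ω →₀ ℕ) → MvPolynomial A ℤ) (hs : ∀ ν ∈ s, ν.degree ≤ N) :
    (hom N s h).IsHomogeneous N := by
  unfold hom
  apply IsHomogeneous.sum
  intro ν hν
  exact isHomogeneous_monomial _ (ex_degree N ν (hs ν hν))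

lemma prod_ex {Ω : Type} {K : Type} [Field K] (N : ℕ) (ν : Ω →₀ ℕ) (t : K) (D : Ω → K) :
    ((ex N ν).prod fun o n => (Option.elim o t D) ^ n) =
      t ^ (N - ν.degree) * ν.prod fun o n => D o ^ n := by
  classical
  unfold ex
  rw [Finsupp.prod_add_index' (fun o => pow_zero _) (fun o m n => pow_add _ m n),
    Finsupp.prod_mapDomain_index (fun o => pow_zero _) (fun o m n => pow_add _ m n), mul_comm]
  congr 1
  rw [Finsupp.prod, Finset.prod_subset Finsupp.support_single_subset]
  · simp
  · intro x _ hx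
    rw [Finsupp.notMem_support_iff.1 hx, pow_zero]

lemma gQ_hom {A Ω : Type} {K : Type} [Field K] (c : A → K) (N : ℕ) (p : MvPolynomial Ω K)
    (h : (Ω →₀ ℕ) → MvPolynomial A ℤ) (E : MvPolynomial A ℤ)
    (hE : ∀ ν ∈ p.support, aeval c E * coeff ν p = aeval c (h ν))
    (hN : ∀ ν ∈ p.support, ν.degree ≤ N) (t : K) (ht : t ≠ 0) (D : Ω → K) :
    gQ c t D (hom N p.support h) = aeval c E * t ^ N * aeval (fun e => D e / t) p := by
  classical
  unfold gQ hom
  have h0 : aeval (fun e => D e / t) p =
      ∑ ν ∈ p.support, coeff ν p * ∏ i ∈ ν.support, (D i / t) ^ ν i := by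
    rw [aeval_def, eval₂_eq]
    rfl
  rw [eval₂_sum, h0, Finset.mul_sum]
  apply Finset.sum_congr rfl
  intro ν hν
  rw [eval₂_monomial, prod_ex]
  have h1 : (aeval c : MvPolynomial A ℤ →ₐ[ℤ] K).toRingHom (h ν) = aeval c E * coeff ν p :=
    (hE ν hν).symm
  have h2 : t ^ N = t ^ (N - ν.degree) * t ^ ν.degree := by
    rw [← pow_add, Nat.sub_add_cancel (hN ν hν)]
  have h3 : (∏ i ∈ ν.support, (D i / t) ^ ν i) * t ^ ν.degree = ν.prod fun o n => D o ^ n := by
    rw [Finsupp.degree_apply, ← Finset.prod_pow_eq_pow_sum, ← Finset.prod_mul_distrib,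
      Finsupp.prod]
    apply Finset.prod_congr rfl
    intro i _
    rw [← mul_pow, div_mul_cancel₀ _ ht]
  rw [h1, h2, ← h3]
  ring

end NI

open NI in
theorem exists_cert {ι Λ : Type} [Fintype ι] [DecidableEq ι] [Fintype Λ] [DecidableEq Λ] {d : ℕ}
    {L : Type} [Field L] [CharZero L] (c : Cf ι Λ d → L) (P : ι → L)
    (hP : AlgebraicIndependent ℚ P) (hroot : ∀ l, gv c P l = 0) (col : Λ → ι)
    (hdiag : ∀ l l', gG c P l (col l') ≠ 0 ↔ l = l') : ∃ Z : Cert ι Λ d, Z.Ok c P := by
  classical
  obtain ⟨m, D, b, hb, hspan⟩ := der_basis c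
  obtain ⟨E, hE⟩ := exists_dual P hP
  -- the columns are combinations of the `a k`
  have hcol : ∀ i, ∃ x : Fin m → L, ∀ l,
      gG c P l i = ∑ k, x k * ga (fun α => aeval c (b k α)) P l := by
    intro i
    obtain ⟨x, hx⟩ := hspan (E i)
    refine ⟨x, fun l => ?_⟩
    have h1 := der_gv (E i) c P l
    rw [hroot l, map_zero] at h1
    have h2 : ∑ j, gG c P l j * (E i) (P j) = gG c P l i := by
      simp only [hE, mul_ite, mul_one, mul_zero]
      rw [Finset.sum_ite_eq]
      simp
    have h3 : (fun α => (E i) (c α)) = fun α => ∑ k, x k * aeval c (b k α) := by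
      funext α
      have := hx ⟨c α, IntermediateField.subset_adjoin ℚ _ ⟨α, rfl⟩⟩
      rw [show ((⟨c α, IntermediateField.subset_adjoin ℚ _ ⟨α, rfl⟩⟩ :
        IntermediateField.adjoin ℚ (Set.range c)) : L) = c α from rfl] at this
      rw [this]
      apply Finset.sum_congr rfl
      intro k _
      rw [hb k α]
    rw [h2, h3, gv_sum] at h1
    unfold ga
    simp only [mul_neg, Finset.sum_neg_distrib]
    linear_combination -h1
  have hP0 : ∀ i, P i ≠ 0 ∧ P i ≠ 1 := by
    intro i
    have ht : Transcendental ℚ (P i) := hP.transcendental i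
    constructor
    · intro h
      rw [h] at ht
      exact ht isAlgebraic_zero
    · intro h
      rw [h] at ht
      exact ht isAlgebraic_one
  have hfull : ∀ ε, gD ε c P col ≠ 0 := by
    intro ε
    unfold gD
    have hmat : (Matrix.of fun l t => gy ε P (col t) * gG c P l (col t)) =
        Matrix.diagonal fun t => gy ε P (col t) * gG c P t (col t) := by
      ext l t
      by_cases h : l = t
      · subst h
        simp
      · rw [Matrix.diagonal_apply_ne _ h, Matrix.of_apply]
        have : gG c P l (col t) = 0 := by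
          by_contra hne
          exact h ((hdiag l t).1 hne)
        rw [this, mul_zero]
    rw [hmat, Matrix.det_diagonal, Finset.prod_ne_zero_iff]
    intro t _
    apply mul_ne_zero
    · unfold gy
      split_ifs
      · exact (hP0 _).1
      · exact sub_ne_zero.2 (hP0 _).2.symm
    · exact (hdiag t t).2 rfl
  -- the certificates
  let F : IntermediateField ℚ L := IntermediateField.adjoin ℚ (Set.range c)
  let c0 : Cf ι Λ d → F := fun α => ⟨c α, IntermediateField.subset_adjoin ℚ _ ⟨α, rfl⟩⟩
  let T : Fin m → (ι → Bool) → (Λ → ι) → Λ → L := fun k ε e t =>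
    gT ε c P (ga (fun α => aeval c (b k α)) P) e t
  have hDb : ∀ k, (fun α => algebraMap F L (D k (c0 α))) = fun α => aeval c (b k α) := by
    intro k
    funext α
    exact hb k α
  have hp : ∀ k ε e t, ∃ p : (Λ → ι) → MvPolynomial (Λ → ι) F, T k ε e t ≠ 0 →
      ∑ e', (gD ε c P e' / T k ε e t) *
        aeval (fun e' => gD ε c P e' / T k ε e t) (p e') = 1 := by
    intro k ε e t
    by_cases hT : T k ε e t = 0
    · exact ⟨0, fun h => absurd hT h⟩
    · have := lemmaNA (D k) c0 P hP0 (fun l => hroot l) ε e t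
        (by rw [hDb k]; exact hT) ⟨col, hfull ε⟩
      rw [hDb k] at this
      obtain ⟨p, hp⟩ := this
      exact ⟨p, fun _ => hp⟩
  choose p hp using hp
  let N : ℕ := Finset.univ.sup fun q : Fin m × (ι → Bool) × (Λ → ι) × Λ × (Λ → ι) =>
    (p q.1 q.2.1 q.2.2.1 q.2.2.2.1 q.2.2.2.2).totalDegree
  have hN : ∀ k ε e t e', ∀ ν ∈ (p k ε e t e').support, ν.degree ≤ N := by
    intro k ε e t e' ν hν
    have h1 : ν.degree ≤ (p k ε e t e').totalDegree := by
      rw [Finsupp.degree_apply]
      exact le_totalDegree hν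
    refine h1.trans ?_
    exact Finset.le_sup (f := fun q : Fin m × (ι → Bool) × (Λ → ι) × Λ × (Λ → ι) =>
      (p q.1 q.2.1 q.2.2.1 q.2.2.2.1 q.2.2.2.2).totalDegree) (Finset.mem_univ (k, ε, e, t, e'))
  have hden : ∀ k ε e t, ∃ G : MvPolynomial (Cf ι Λ d) ℤ, aeval c G ≠ 0 ∧
      ∃ h : (Λ → ι) → ((Λ → ι) →₀ ℕ) → MvPolynomial (Cf ι Λ d) ℤ, ∀ e', ∀ ν ∈ (p k ε e t e').support,
        aeval c G * ((coeff ν (p k ε e t e') : F) : L) = aeval c (h e' ν) := by
    intro k ε e t
    obtain ⟨G, hG, hs⟩ := exists_common (B := (Λ → ι) × ((Λ → ι) →₀ ℕ)) c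
      (Finset.univ.biUnion fun e' : Λ → ι => (p k ε e t e').support.image fun ν => (e', ν))
      (fun q => ((coeff q.2 (p k ε e t q.1) : F) : L)) (fun q _ => (coeff q.2 (p k ε e t q.1)).2)
    have : ∀ q : (Λ → ι) × ((Λ → ι) →₀ ℕ), ∃ h : MvPolynomial (Cf ι Λ d) ℤ,
        q ∈ (Finset.univ.biUnion fun e' : Λ → ι => (p k ε e t e').support.image fun ν => (e', ν)) →
        aeval c G * ((coeff q.2 (p k ε e t q.1) : F) : L) = aeval c h := by
      intro q
      by_cases hq : q ∈
        (Finset.univ.biUnion fun e' : Λ → ι => (p k ε e t e').support.image fun ν => (e', ν))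
      · obtain ⟨h, hh⟩ := hs q hq
        exact ⟨h, fun _ => hh⟩
      · exact ⟨0, fun h => absurd h hq⟩
    choose h hh using this
    refine ⟨G, hG, fun e' ν => h (e', ν), fun e' ν hν => hh (e', ν) ?_⟩
    rw [Finset.mem_biUnion]
    exact ⟨e', Finset.mem_univ _, Finset.mem_image.2 ⟨ν, hν, rfl⟩⟩
  choose G hG h hh using hden
  refine ⟨⟨m, b, G, N, fun k ε e t e' => hom N (p k ε e t e').support (h k ε e t e'),
    fun k ε e t e' => hom_isHomogeneous N _ _ (hN k ε e t e')⟩, ?_, fun ε => ⟨col, hfull ε⟩,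
    fun k ε e t => hG k ε e t, ?_⟩
  · -- span
    intro v
    choose x hx using hcol
    refine ⟨fun k => ∑ l', v l' / gG c P l' (col l') * x (col l') k, fun l => ?_⟩
    simp only [Finset.sum_mul]
    rw [Finset.sum_comm]
    have h1 : ∀ l', ∑ k, v l' / gG c P l' (col l') * x (col l') k *
        ga (fun α => aeval c (b k α)) P l = v l' / gG c P l' (col l') * gG c P l (col l') := by
      intro l'
      rw [hx (col l') l, Finset.mul_sum]
      apply Finset.sum_congr rfl
      intro k _
      ring
    rw [Finset.sum_congr rfl fun l' _ => h1 l', Finset.sum_eq_single l]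
    · rw [div_mul_cancel₀]
      exact (hdiag l l).2 rfl
    · intro l' _ hne
      have : gG c P l (col l') = 0 := by
        by_contra hc
        exact hne ((hdiag l l').1 hc).symm
      rw [this, mul_zero]
    · intro hl
      exact absurd (Finset.mem_univ l) hl
  · intro k ε e t hT
    have hT' : T k ε e t ≠ 0 := hT
    have key := hp k ε e t hT'
    have hq : ∀ e', gQ c (T k ε e t) (gD ε c P) (hom N (p k ε e t e').support (h k ε e t e')) =
        aeval c (G k ε e t) * T k ε e t ^ N *
          aeval (fun e' => gD ε c P e' / T k ε e t) (p k ε e t e') := by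
      intro e'
      have hsup : ((map (algebraMap F L) (p k ε e t e')).support) = (p k ε e t e').support :=
        support_map_of_injective _ (algebraMap F L).injective
      have := gQ_hom c N (map (algebraMap F L) (p k ε e t e')) (h k ε e t e') (G k ε e t)
        (by
          intro ν hν
          rw [hsup] at hν
          rw [coeff_map]
          exact hh k ε e t e' ν hν)
        (by
          intro ν hν
          rw [hsup] at hν
          exact hN k ε e t e' ν hν) (T k ε e t) hT' (gD ε c P)
      rw [hsup] at this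
      rw [this]
      congr 1
      rw [aeval_map_algebraMap]
    show aeval c (G k ε e t) * T k ε e t ^ (N + 1) = ∑ e', gD ε c P e' *
      gQ c (T k ε e t) (gD ε c P) (hom N (p k ε e t e').support (h k ε e t e'))
    calc aeval c (G k ε e t) * T k ε e t ^ (N + 1)
        = aeval c (G k ε e t) * T k ε e t ^ (N + 1) * ∑ e', (gD ε c P e' / T k ε e t) *
          aeval (fun e' => gD ε c P e' / T k ε e t) (p k ε e t e') := by rw [key, mul_one]
      _ = _ := by
        rw [Finset.mul_sum]
        apply Finset.sum_congr rfl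
        intro e' _
        rw [hq e', pow_succ]
        field_simp

end Pool.Agent.AL
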