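import Pool.Agent.Lib.MP_c95b3b_ag_AL.Defs

/-! Project AL (MP_c95b3b_ag), module ZB: Gelfond, the points on the torus. -/

namespace Pool.Agent.AL

open Pool.Agent.L3 Pool.Agent.KP Module MvPolynomial

namespace ZB

/-- the zeros of a polynomial on the circle -/
theorem finite_zeros (W : Polynomial ℂ) (hW : W ≠ 0) :
    {x : ℝ | x ∈ Set.Icc 0 (2 * Real.pi) ∧ W.eval (circleMap 0 1 x) = 0}.Finite := by
  have h1 : ({x : ℝ | x ∈ Set.Icc 0 (2 * Real.pi) ∧ W.eval (circleMap 0 1 x) = 0} \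
      {2 * Real.pi}).Finite := by
    apply Set.Finite.of_finite_image (f := circleMap 0 1)
      ((Multiset.finite_toSet W.roots).subset _)
    · intro x hx y hy hxy
      refine injOn_circleMap_of_abs_sub_le' one_ne_zero (a := 0) (b := 2 * Real.pi)
        (by linarith) ⟨hx.1.1.1, ?_⟩ ⟨hy.1.1.1, ?_⟩ hxy
      · exact lt_of_le_of_ne hx.1.1.2 hx.2
      · exact lt_of_le_of_ne hy.1.1.2 hy.2
    · rintro _ ⟨x, hx, rfl⟩
      simp [hW, hx.1.2]
  exact (Set.Finite.of_sdiff h1 (Set.finite_singleton _))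

/-- the Mahler measure is at most the maximum on the circle -/
theorem exists_max (W : Polynomial ℂ) : ∃ x : ℂ, ‖x‖ = 1 ∧ W.mahlerMeasure ≤ ‖W.eval x‖ := by
  by_cases hW : W = 0
  · exact ⟨1, by simp, by simp [hW]⟩
  obtain ⟨x, hx, hmax⟩ := (isCompact_sphere (0 : ℂ) 1).exists_isMaxOn
    ⟨1, by simp⟩ (f := fun z => ‖W.eval z‖) (W.continuous.norm.continuousOn)
  have hx1 : ‖x‖ = 1 := by simpa using hx
  refine ⟨x, hx1, ?_⟩
  have hfin := finite_zeros W hW
  have hle : ∀ θ : ℝ, ‖W.eval (circleMap 0 1 θ)‖ ≤ ‖W.eval x‖ := by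
    intro θ
    exact hmax (by simp)
  have hpos : 0 < ‖W.eval x‖ := by
    have hinf : (Set.Icc (0 : ℝ) (2 * Real.pi)).Infinite := Set.Icc_infinite (by positivity)
    obtain ⟨θ, hθ⟩ := (hinf.sdiff hfin).nonempty
    have hne : W.eval (circleMap 0 1 θ) ≠ 0 := fun h0 => hθ.2 ⟨hθ.1, h0⟩
    exact lt_of_lt_of_le (norm_pos_iff.2 hne) (hle θ)
  have hm : ‖W.eval x‖ = Real.exp (Real.circleAverage (fun _ => Real.log ‖W.eval x‖) 0 1) := by
    rw [Real.circleAverage_const, Real.exp_log hpos]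
  rw [hm, Polynomial.mahlerMeasure_def_of_ne_zero hW, Real.circleAverage_def, smul_eq_mul]
  refine Real.exp_le_exp.2 (mul_le_mul_of_nonneg_left ?_ (by positivity))
  apply intervalIntegral.integral_mono_ae_restrict (by positivity)
    W.intervalIntegrable_mahlerMeasure (by simp)
  rw [Filter.EventuallyLE, Filter.eventually_iff_exists_mem]
  refine ⟨{θ : ℝ | W.eval (circleMap 0 1 θ) ≠ 0}, ?_, ?_⟩
  · rw [MeasureTheory.mem_ae_iff, MeasureTheory.Measure.restrict_apply' measurableSet_Icc]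
    refine (hfin.subset ?_).measure_zero _
    intro θ hθ
    refine ⟨hθ.2, ?_⟩
    by_contra h
    exact hθ.1 h
  · intro θ hθ
    exact Real.log_le_log (norm_pos_iff.2 hθ) (hle θ)

theorem prod_mahler {κ : Type} (s : Finset κ) (V : κ → Polynomial ℂ) :
    (∏ k ∈ s, V k).mahlerMeasure = ∏ k ∈ s, (V k).mahlerMeasure := by
  classical
  induction s using Finset.induction_on with
  | empty => simp
  | insert a s ha ih => rw [Finset.prod_insert ha, Finset.prod_insert ha,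
      Polynomial.mahlerMeasure_mul, ih]

end ZB

theorem circle_point {κ : Type} (s : Finset κ) (V : κ → Polynomial ℂ) (j : κ → ℕ) :
    ∃ x : ℂ, ‖x‖ = 1 ∧ ∏ k ∈ s, ‖(V k).coeff (j k)‖ ≤
      2 ^ (∑ k ∈ s, (V k).natDegree) * ∏ k ∈ s, ‖(V k).eval x‖ := by
  obtain ⟨x, hx, hx2⟩ := ZB.exists_max (∏ k ∈ s, V k)
  refine ⟨x, hx, ?_⟩
  calc ∏ k ∈ s, ‖(V k).coeff (j k)‖
      ≤ ∏ k ∈ s, (2 ^ (V k).natDegree * (V k).mahlerMeasure) := by
        refine Finset.prod_le_prod (fun k _ => norm_nonneg _) (fun k _ => ?_)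
        refine ((V k).norm_coeff_le_choose_mul_mahlerMeasure (j k)).trans ?_
        refine mul_le_mul_of_nonneg_right ?_ (V k).mahlerMeasure_nonneg
        exact_mod_cast Nat.choose_le_two_pow (V k).natDegree (j k)
    _ = 2 ^ (∑ k ∈ s, (V k).natDegree) * (∏ k ∈ s, V k).mahlerMeasure := by
        rw [Finset.prod_mul_distrib, Finset.prod_pow_eq_pow_sum, ZB.prod_mahler]
    _ ≤ 2 ^ (∑ k ∈ s, (V k).natDegree) * ‖(∏ k ∈ s, V k).eval x‖ := by gcongr
    _ = 2 ^ (∑ k ∈ s, (V k).natDegree) * ∏ k ∈ s, ‖(V k).eval x‖ := by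
        rw [Polynomial.eval_prod, norm_prod]

namespace ZB

theorem torus_fin {κ : Type} (s : Finset κ) : ∀ (n : ℕ) (V : κ → MvPolynomial (Fin n) ℂ)
    (j : κ → Fin n →₀ ℕ),
    ∃ x : Fin n → ℂ, (∀ i, ‖x i‖ = 1) ∧ ∏ k ∈ s, ‖(V k).coeff (j k)‖ ≤
      2 ^ (∑ k ∈ s, ∑ i, (V k).degreeOf i) * ∏ k ∈ s, ‖eval x (V k)‖ := by
  intro n
  induction n with
  | zero =>
    intro V j
    refine ⟨fun i => i.elim0, fun i => i.elim0, ?_⟩
    have h1 : ∀ k, eval (fun i : Fin 0 => (i.elim0 : ℂ)) (V k) = (V k).coeff (j k) := by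
      intro k
      rw [Subsingleton.elim (j k) 0]
      conv_lhs => rw [MvPolynomial.eq_C_of_isEmpty (V k)]
      simp
    simp [h1]
  | succ n ih =>
    intro V j
    obtain ⟨x', hx', hx2⟩ := ih (fun k => (finSuccEquiv ℂ n (V k)).coeff (j k 0))
      (fun k => (j k).tail)
    obtain ⟨x0, hx0, hx3⟩ := circle_point s
      (fun k => (finSuccEquiv ℂ n (V k)).map (eval x')) (fun k => j k 0)
    refine ⟨Fin.cons x0 x', ?_, ?_⟩
    · intro i
      refine Fin.cases ?_ ?_ i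
      · simpa using hx0
      · intro i; simpa using hx' i
    have e1 : ∀ k, ((finSuccEquiv ℂ n (V k)).coeff (j k 0)).coeff (j k).tail
        = (V k).coeff (j k) := by
      intro k
      rw [finSuccEquiv_coeff_coeff, Finsupp.cons_tail]
    have e2 : ∀ k, Polynomial.eval x0 ((finSuccEquiv ℂ n (V k)).map (eval x')) =
        eval (Fin.cons x0 x' : Fin (n + 1) → ℂ) (V k) := by
      intro k
      rw [eval_eq_eval_mv_eval']
    have d1 : ∑ k ∈ s, ∑ i, ((finSuccEquiv ℂ n (V k)).coeff (j k 0)).degreeOf i ≤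
        ∑ k ∈ s, ∑ i : Fin n, (V k).degreeOf i.succ :=
      Finset.sum_le_sum fun k _ => Finset.sum_le_sum fun i _ =>
        degreeOf_coeff_finSuccEquiv (V k) i (j k 0)
    have d2 : ∑ k ∈ s, ((finSuccEquiv ℂ n (V k)).map (eval x')).natDegree ≤
        ∑ k ∈ s, (V k).degreeOf 0 :=
      Finset.sum_le_sum fun k _ => (Polynomial.natDegree_map_le).trans
        (natDegree_finSuccEquiv (V k)).le
    simp only [Polynomial.coeff_map] at hx3
    simp only [e1] at hx2
    simp only [e2] at hx3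
    calc ∏ k ∈ s, ‖(V k).coeff (j k)‖
        ≤ 2 ^ (∑ k ∈ s, ∑ i, ((finSuccEquiv ℂ n (V k)).coeff (j k 0)).degreeOf i) *
          ∏ k ∈ s, ‖eval x' ((finSuccEquiv ℂ n (V k)).coeff (j k 0))‖ := hx2
      _ ≤ 2 ^ (∑ k ∈ s, ∑ i : Fin n, (V k).degreeOf i.succ) *
          (2 ^ (∑ k ∈ s, (V k).degreeOf 0) *
            ∏ k ∈ s, ‖eval (Fin.cons x0 x' : Fin (n + 1) → ℂ) (V k)‖) := by
          refine mul_le_mul (pow_le_pow_right₀ (by norm_num) d1) (hx3.trans ?_)
            (Finset.prod_nonneg fun k _ => norm_nonneg _) (by positivity)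
          refine mul_le_mul_of_nonneg_right (pow_le_pow_right₀ (by norm_num) d2)
            (Finset.prod_nonneg fun k _ => norm_nonneg _)
      _ = 2 ^ (∑ k ∈ s, ∑ i, (V k).degreeOf i) *
          ∏ k ∈ s, ‖eval (Fin.cons x0 x' : Fin (n + 1) → ℂ) (V k)‖ := by
          rw [← mul_assoc, ← pow_add]
          congr 2
          rw [← Finset.sum_add_distrib]
          refine Finset.sum_congr rfl fun k _ => ?_
          rw [Fin.sum_univ_succ, add_comm]

end ZB

theorem torus_point {κ ι : Type} [Fintype ι] (s : Finset κ) (V : κ → MvPolynomial ι ℂ)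
    (j : κ → ι →₀ ℕ) :
    ∃ x : ι → ℂ, (∀ i, ‖x i‖ = 1) ∧ ∏ k ∈ s, ‖(V k).coeff (j k)‖ ≤
      2 ^ (∑ k ∈ s, ∑ i, (V k).degreeOf i) * ∏ k ∈ s, ‖eval x (V k)‖ := by
  classical
  let e := Fintype.equivFin ι
  obtain ⟨x, hx, hx2⟩ := ZB.torus_fin s (Fintype.card ι) (fun k => rename e (V k))
    (fun k => (j k).mapDomain e)
  refine ⟨fun i => x (e i), fun i => hx _, ?_⟩
  have e1 : ∀ k, (rename e (V k)).coeff ((j k).mapDomain e) = (V k).coeff (j k) :=
    fun k => coeff_rename_mapDomain e e.injective (V k) (j k)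
  have e2 : ∀ k, eval x (rename e (V k)) = eval (fun i => x (e i)) (V k) :=
    fun k => eval_rename _ _ _
  have e3 : ∀ k, ∑ i, (rename e (V k)).degreeOf i = ∑ i, (V k).degreeOf i := by
    intro k
    rw [← Equiv.sum_comp e]
    exact Finset.sum_congr rfl fun i _ => degreeOf_rename_of_injective e.injective i
  simp only [e1, e2, e3] at hx2
  exact hx2

end Pool.Agent.AL
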