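import Pool.Agent.Lib.MP_c95b3b_ag_AL.ZA
import Pool.Agent.Lib.MP_c95b3b_ag_AL.ZB

/-! Project AL (MP_c95b3b_ag), module ZC: Gelfond's inequality. -/

namespace Pool.Agent.AL

open Pool.Agent.L3 Pool.Agent.KP Module MvPolynomial

namespace ZC

theorem card_support_le {ι : Type} [Fintype ι] (f : MvPolynomial ι ℤ) :
    (f.support.card : ℝ) ≤ 2 ^ (∑ i, f.degreeOf i) := by
  classical
  have h1 : f.support.card ≤ (Fintype.piFinset
      (fun i => Finset.range (f.degreeOf i + 1))).card := by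
    refine Finset.card_le_card_of_injOn (fun m : ι →₀ ℕ => (m : ι → ℕ)) ?_
      (fun a _ b _ h => DFunLike.coe_injective h)
    intro m hm
    have hm' : m ∈ f.support := hm
    simp only [Finset.mem_coe, Fintype.mem_piFinset, Finset.mem_range]
    intro i
    exact Nat.lt_succ_of_le (monomial_le_degreeOf i hm')
  have h2 : (Fintype.piFinset (fun i => Finset.range (f.degreeOf i + 1))).card ≤
      2 ^ (∑ i, f.degreeOf i) := by
    rw [Fintype.card_piFinset, ← Finset.prod_pow_eq_pow_sum]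
    refine Finset.prod_le_prod' fun i _ => ?_
    rw [Finset.card_range]
    exact Nat.lt_two_pow_self
  exact_mod_cast h1.trans h2

/-- the largest coefficient -/
theorem exists_max {ι : Type} [Fintype ι] (f : MvPolynomial ι ℤ) (hf : f ≠ 0) :
    ∃ m : ι →₀ ℕ, 1 ≤ |((coeff m f : ℤ) : ℝ)| ∧
      l1 f ≤ 2 ^ (∑ i, f.degreeOf i) * |((coeff m f : ℤ) : ℝ)| := by
  obtain ⟨m, hm, hmax⟩ := Finset.exists_max_image f.support
    (fun m => |((coeff m f : ℤ) : ℝ)|) (support_nonempty.2 hf)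
  refine ⟨m, ?_, ?_⟩
  · have h := mem_support_iff.1 hm
    have h2 : 1 ≤ |coeff m f| := Int.one_le_abs h
    exact_mod_cast h2
  · calc l1 f ≤ ∑ _m ∈ f.support, |((coeff m f : ℤ) : ℝ)| := Finset.sum_le_sum hmax
      _ = f.support.card * |((coeff m f : ℤ) : ℝ)| := by
          rw [Finset.sum_const, nsmul_eq_mul]
      _ ≤ 2 ^ (∑ i, f.degreeOf i) * |((coeff m f : ℤ) : ℝ)| :=
          mul_le_mul_of_nonneg_right (card_support_le f) (abs_nonneg _)

theorem norm_eval_le {ι : Type} [Fintype ι] (f : MvPolynomial ι ℤ) (x : ι → ℂ)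
    (hx : ∀ i, ‖x i‖ = 1) : ‖eval x (map (Int.castRingHom ℂ) f)‖ ≤ l1 f := by
  rw [eval_map, eval₂_eq]
  refine (norm_sum_le _ _).trans (Finset.sum_le_sum fun m _ => ?_)
  have h : ‖∏ i ∈ m.support, x i ^ m i‖ = 1 := by
    rw [norm_prod]
    exact Finset.prod_eq_one fun i _ => by rw [norm_pow, hx, one_pow]
  rw [norm_mul, h, mul_one]
  simp

end ZC

theorem gelfond {κ ι : Type} [Fintype ι] (s : Finset κ) (V : κ → MvPolynomial ι ℤ)
    (hV : ∀ k ∈ s, V k ≠ 0) :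
    ∑ k ∈ s, Real.log (l1 (V k)) ≤ Real.log (l1 (∏ k ∈ s, V k)) +
      2 * Real.log 2 * ∑ i, ((∏ k ∈ s, V k).degreeOf i : ℝ) := by
  classical
  have hj : ∀ k, ∃ m : ι →₀ ℕ, k ∈ s → 1 ≤ |((coeff m (V k) : ℤ) : ℝ)| ∧
      l1 (V k) ≤ 2 ^ (∑ i, (V k).degreeOf i) * |((coeff m (V k) : ℤ) : ℝ)| := by
    intro k
    by_cases hk : k ∈ s
    · obtain ⟨m, hm⟩ := ZC.exists_max (V k) (hV k hk)
      exact ⟨m, fun _ => hm⟩
    · exact ⟨0, fun h => absurd h hk⟩
  choose j hj using hj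
  set W := ∏ k ∈ s, V k with hW
  have hW0 : W ≠ 0 := Finset.prod_ne_zero_iff.2 hV
  have hD : ∑ i, (W.degreeOf i : ℝ) = ∑ k ∈ s, ∑ i, ((V k).degreeOf i : ℝ) := by
    rw [Finset.sum_comm]
    refine Finset.sum_congr rfl fun i _ => ?_
    rw [hW, degreeOf_prod_eq s V hV]
    push_cast
    rfl
  obtain ⟨x, hx, hx2⟩ := torus_point s (fun k => map (Int.castRingHom ℂ) (V k)) j
  have hc : ∀ k, ‖coeff (j k) (map (Int.castRingHom ℂ) (V k))‖ =
      |((coeff (j k) (V k) : ℤ) : ℝ)| := by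
    intro k
    rw [coeff_map]
    simp
  have hdeg : ∑ k ∈ s, ∑ i, (map (Int.castRingHom ℂ) (V k)).degreeOf i ≤
      ∑ k ∈ s, ∑ i, (V k).degreeOf i := by
    refine Finset.sum_le_sum fun k _ => Finset.sum_le_sum fun i _ => ?_
    classical
    rw [degreeOf_eq_sup, degreeOf_eq_sup]
    exact Finset.sup_mono (support_map_subset _ _)
  have hprod : ∏ k ∈ s, ‖eval x (map (Int.castRingHom ℂ) (V k))‖ ≤ l1 W := by
    rw [← norm_prod, ← map_prod, ← map_prod]
    exact ZC.norm_eval_le W x hx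
  simp only [hc] at hx2
  have h1 : ∏ k ∈ s, |((coeff (j k) (V k) : ℤ) : ℝ)| ≤
      2 ^ (∑ k ∈ s, ∑ i, (V k).degreeOf i) * l1 W := by
    refine hx2.trans (mul_le_mul (pow_le_pow_right₀ (by norm_num) hdeg) hprod
      (Finset.prod_nonneg fun k _ => norm_nonneg _) (by positivity))
  have hlW : 1 ≤ l1 W := one_le_l1 hW0
  have hpos : 0 < ∏ k ∈ s, |((coeff (j k) (V k) : ℤ) : ℝ)| :=
    Finset.prod_pos fun k hk => lt_of_lt_of_le one_pos (hj k hk).1
  have h2 : ∑ k ∈ s, Real.log |((coeff (j k) (V k) : ℤ) : ℝ)| ≤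
      (∑ k ∈ s, ∑ i, ((V k).degreeOf i : ℝ)) * Real.log 2 + Real.log (l1 W) := by
    rw [← Real.log_prod (fun k hk => (lt_of_lt_of_le one_pos (hj k hk).1).ne')]
    refine (Real.log_le_log hpos h1).trans ?_
    rw [Real.log_mul (by positivity) (by linarith), Real.log_pow]
    push_cast
    exact le_rfl
  have h3 : ∑ k ∈ s, Real.log (l1 (V k)) ≤
      (∑ k ∈ s, ∑ i, ((V k).degreeOf i : ℝ)) * Real.log 2 +
        ∑ k ∈ s, Real.log |((coeff (j k) (V k) : ℤ) : ℝ)| := by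
    rw [Finset.sum_mul, ← Finset.sum_add_distrib]
    refine Finset.sum_le_sum fun k hk => ?_
    have hk1 := hj k hk
    refine (Real.log_le_log (lt_of_lt_of_le one_pos (one_le_l1 (hV k hk))) hk1.2).trans ?_
    rw [Real.log_mul (by positivity) (lt_of_lt_of_le one_pos hk1.1).ne', Real.log_pow]
    push_cast
    exact le_rfl
  rw [hD]
  linarith

end Pool.Agent.AL
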