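import Pool.Agent.Lib.MP_c95b3b_ag_AL.Defs

/-! Project AL (MP_c95b3b_ag), module ZE: divisibility of the Sylvester determinant. -/

namespace Pool.Agent.AL

namespace ZE

open Polynomial Finset

lemma sum_min_eq (A n : ℕ) (h : A ≤ n) :
    2 * (∑ c ∈ Finset.range n, min c A) + A * A + A = 2 * n * A := by
  induction n with
  | zero =>
    have : A = 0 := by omega
    subst this
    simp
  | succ n ih =>
    rw [Finset.sum_range_succ]
    rcases Nat.lt_or_ge n A with h1 | h1
    · have hA : A = n + 1 := by omega
      subst hA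
      have h2 : ∀ m : ℕ, m ≤ n + 1 →
          2 * (∑ c ∈ Finset.range m, min c (n + 1)) + m = m * m := by
        intro m
        induction m with
        | zero => intro _; simp
        | succ m ihm =>
          intro hm
          rw [Finset.sum_range_succ]
          have := ihm (by omega)
          rw [Nat.min_eq_left (by omega : m ≤ n + 1)]
          nlinarith
      have h3 := h2 n (by omega)
      rw [Nat.min_eq_left (by omega : n ≤ n + 1)]
      nlinarith
    · have h3 := ih h1
      rw [Nat.min_eq_right h1]
      nlinarith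

lemma sum_pot (a b A B e e' h : ℕ) (hA : A ≤ a) (hB : B ≤ b) :
    (∑ r ∈ Finset.range b, (e + h * (A + min r B)))
      + (∑ r ∈ Finset.range a, (e' + h * (B + min r A)))
      = b * e + a * e' + A * B * h
        + h * (∑ c ∈ Finset.range (a + b), min c (A + B)) := by
  have h1 := sum_min_eq A a hA
  have h2 := sum_min_eq B b hB
  have h3 := sum_min_eq (A + B) (a + b) (by omega)
  have e1 : (∑ r ∈ Finset.range b, (e + h * (A + min r B)))
      = b * e + h * (b * A + ∑ r ∈ Finset.range b, min r B) := by
    rw [Finset.sum_add_distrib, ← Finset.mul_sum, Finset.sum_add_distrib]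
    simp
  have e2 : (∑ r ∈ Finset.range a, (e' + h * (B + min r A)))
      = a * e' + h * (a * B + ∑ r ∈ Finset.range a, min r A) := by
    rw [Finset.sum_add_distrib, ← Finset.mul_sum, Finset.sum_add_distrib]
    simp
  rw [e1, e2]
  generalize (∑ r ∈ Finset.range a, min r A) = s1 at *
  generalize (∑ r ∈ Finset.range b, min r B) = s2 at *
  generalize (∑ c ∈ Finset.range (a + b), min c (A + B)) = s3 at *
  have key : b * A + s2 + (a * B + s1) = A * B + s3 := by nlinarith
  have : h * (b * A + s2) + h * (a * B + s1) = A * B * h + h * s3 := by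
    rw [← mul_add, key]; ring
  linarith

/-- Divisibility of the resultant: if the coefficients of `f` and `g` are divisible by powers
`T ^ (e + (A - k) h)` and `T ^ (e' + (B - k) h)`, then `T ^ (b e + a e' + A B h)` divides the
resultant. -/
theorem pow_dvd_resultant {D : Type*} [CommRing D] (T : D) (f g : D[X])
    (a b A B e e' h : ℕ) (hA : A ≤ a) (hB : B ≤ b)
    (hf : ∀ k, k ≤ a → T ^ (e + (A - k) * h) ∣ f.coeff k)
    (hg : ∀ k, k ≤ b → T ^ (e' + (B - k) * h) ∣ g.coeff k) :
    T ^ (b * e + a * e' + A * B * h) ∣ Polynomial.resultant f g a b := by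
  classical
  unfold Polynomial.resultant
  rw [Matrix.det_apply]
  refine Finset.dvd_sum fun σ _ => ?_
  rw [Units.smul_def, zsmul_eq_mul]
  refine Dvd.dvd.mul_left ?_ _
  -- the potentials
  let pot : Fin (a + b) → ℕ := fun j => j.addCases
    (fun r => e' + h * (B + min (r : ℕ) A)) (fun r => e + h * (A + min (r : ℕ) B))
  by_cases hz : ∃ j, Polynomial.sylvester f g a b (σ j) j = 0
  · obtain ⟨j, hj⟩ := hz
    have h0 : ∏ i, Polynomial.sylvester f g a b (σ i) i = 0 :=
      Finset.prod_eq_zero (Finset.mem_univ j) hj
    rw [h0]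
    exact dvd_zero _
  push Not at hz
  have hw : ∀ j : Fin (a + b), ∃ w : ℕ,
      T ^ w ∣ Polynomial.sylvester f g a b (σ j) j ∧
      pot j ≤ w + h * min ((σ j : Fin (a + b)) : ℕ) (A + B) := by
    intro j
    have hj := hz j
    induction j using Fin.addCases with
    | left r =>
      simp only [Polynomial.sylvester, Matrix.of_apply, Fin.addCases_left] at hj ⊢
      split_ifs at hj with hc
      · rw [if_pos hc]
        obtain ⟨hc1, hc2⟩ := hc
        refine ⟨_, hg _ (by omega), ?_⟩
        simp only [pot, Fin.addCases_left]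
        generalize ((σ (Fin.castAdd b r) : Fin (a + b)) : ℕ) = c at *
        have hineq : B + min (r : ℕ) A ≤ (B - (c - (r : ℕ))) + min c (A + B) := by omega
        calc e' + h * (B + min (r : ℕ) A)
            ≤ e' + h * ((B - (c - (r : ℕ))) + min c (A + B)) :=
              Nat.add_le_add_left (Nat.mul_le_mul_left _ hineq) _
          _ = e' + (B - (c - (r : ℕ))) * h + h * min c (A + B) := by ring
      · exact absurd rfl hj
    | right r =>
      simp only [Polynomial.sylvester, Matrix.of_apply, Fin.addCases_right] at hj ⊢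
      split_ifs at hj with hc
      · rw [if_pos hc]
        obtain ⟨hc1, hc2⟩ := hc
        refine ⟨_, hf _ (by omega), ?_⟩
        simp only [pot, Fin.addCases_right]
        generalize ((σ (Fin.natAdd a r) : Fin (a + b)) : ℕ) = c at *
        have hineq : A + min (r : ℕ) B ≤ (A - (c - (r : ℕ))) + min c (A + B) := by omega
        calc e + h * (A + min (r : ℕ) B)
            ≤ e + h * ((A - (c - (r : ℕ))) + min c (A + B)) :=
              Nat.add_le_add_left (Nat.mul_le_mul_left _ hineq) _
          _ = e + (A - (c - (r : ℕ))) * h + h * min c (A + B) := by ring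
      · exact absurd rfl hj
  choose w hw1 hw2 using hw
  have h1 : T ^ (∑ j, w j) ∣ ∏ j, Polynomial.sylvester f g a b (σ j) j := by
    rw [← Finset.prod_pow_eq_pow_sum]
    exact Finset.prod_dvd_prod_of_dvd _ _ fun j _ => hw1 j
  refine (pow_dvd_pow T ?_).trans h1
  have h2 : ∑ j, pot j ≤ ∑ j, w j + h * ∑ c ∈ Finset.range (a + b), min c (A + B) := by
    calc ∑ j, pot j ≤ ∑ j, (w j + h * min ((σ j : Fin (a + b)) : ℕ) (A + B)) :=
          Finset.sum_le_sum fun j _ => hw2 j
      _ = ∑ j, w j + h * ∑ c ∈ Finset.range (a + b), min c (A + B) := by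
          rw [Finset.sum_add_distrib, ← Finset.mul_sum]
          congr 2
          rw [Equiv.sum_comp σ (fun c : Fin (a + b) => min (c : ℕ) (A + B)),
            Finset.sum_range]
  have h3 : ∑ j, pot j = (∑ r ∈ Finset.range b, (e + h * (A + min r B)))
      + (∑ r ∈ Finset.range a, (e' + h * (B + min r A))) := by
    rw [Fin.sum_univ_add, Finset.sum_range, Finset.sum_range, add_comm]
    congr 1
    · refine Finset.sum_congr rfl fun r _ => ?_
      simp only [pot, Fin.addCases_right]
    · refine Finset.sum_congr rfl fun r _ => ?_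
      simp only [pot, Fin.addCases_left]
  have h4 := sum_pot a b A B e e' h hA hB
  omega

end ZE

open Pool.Agent.L3 Pool.Agent.KP Module MvPolynomial

theorem sylvester_dvd {D : Type} [CommRing D] [IsDomain D] (T : D) (hT : T ≠ 0)
    (f g : Polynomial D) (a b A B e e' h : ℕ) (hA : A ≤ a) (hB : B ≤ b)
    (hf : ∀ k, T ^ (e + (A - k) * h) ∣ f.coeff k) (hg : ∀ k, T ^ (e' + (B - k) * h) ∣ g.coeff k) :
    T ^ (b * e + a * e' + A * B * h) ∣ f.resultant g a b :=
  have _ := hT
  ZE.pow_dvd_resultant T f g a b A B e e' h hA hB (fun k _ => hf k) (fun k _ => hg k)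

end Pool.Agent.AL
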